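import Mathlib

namespace Pool.Agent.H6.AbReg

open Finset

def u (p : ℕ → Bool) (n : ℕ) : Bool :=
  if h : n = 0 then false else if n % 13 = 0 then u p (n / 13) else p (n % 13)
decreasing_by omega

lemma u_mul (p : ℕ → Bool) (n : ℕ) : u p (13 * n) = u p n := by
  rcases Nat.eq_zero_or_pos n with rfl | h
  · rfl
  · rw [u, dif_neg (by omega), if_pos (by omega)]
    congr 1; omega

lemma u_add (p : ℕ → Bool) (n r : ℕ) (h1 : 0 < r) (h2 : r < 13) : u p (13 * n + r) = p r := by
  rw [u, dif_neg (by omega), if_neg (by omega)]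
  congr 1; omega

lemma u_pow (p : ℕ → Bool) (e : ℕ) : ∀ n r, r < 13 ^ e →
    u p (13 ^ e * n + r) = if r = 0 then u p n else u p r := by
  induction e with
  | zero => intro n r h; simp at h; simp [h]
  | succ e ih =>
    intro n r h
    have e1 : 13 ^ (e + 1) * n + r = 13 * (13 ^ e * n + r / 13) + r % 13 := by
      rw [pow_succ]; have := Nat.div_add_mod r 13; nlinarith
    have e2 : r = 13 * (r / 13) + r % 13 := (Nat.div_add_mod r 13).symm
    by_cases h0 : r % 13 = 0
    · rw [e1, h0, add_zero, u_mul, ih n (r / 13) (by rw [pow_succ] at h; omega)]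
      by_cases h1 : r = 0
      · simp [h1]
      · rw [if_neg h1, if_neg (by omega)]
        conv_rhs => rw [e2, h0, add_zero, u_mul]
    · rw [e1, u_add _ _ _ (by omega) (by omega), if_neg (by omega)]
      conv_rhs => rw [e2, u_add _ _ _ (by omega) (by omega)]

def sgn (b : Bool) : ℤ := if b then 1 else -1

def S (f : ℕ → Bool) (N : ℕ) : ℤ := ∑ j ∈ range N, sgn (f j)

def pf (p : ℕ → Bool) (a : ℕ) : ℤ := ∑ r ∈ range a, if r = 0 then 0 else sgn (p r)

lemma S_rec0 (p : ℕ → Bool) (n : ℕ) (h : S (u p) (13 * n) = S (u p) n) (a : ℕ) (h2 : a < 13) :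
    S (u p) (13 * n + a + 1) = S (u p) (n + 1) + pf p (a + 1) := by
  induction a with
  | zero =>
    simp only [S, sum_range_succ, add_zero, u_mul] at h ⊢
    simp [h, pf]
  | succ a ih =>
    have := ih (by omega)
    simp only [S, pf] at this ⊢
    rw [sum_range_succ, ← add_assoc, this, sum_range_succ _ (a + 1), add_assoc (13 * n),
      u_add _ _ _ (by omega) h2]
    simp; ring

lemma S_mul (p : ℕ → Bool) (hp : pf p 13 = 0) (n : ℕ) : S (u p) (13 * n) = S (u p) n := by
  induction n with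
  | zero => rfl
  | succ n ih =>
    have := S_rec0 p n ih 12 (by norm_num)
    rw [hp, add_zero] at this
    rw [← this]; congr 1

lemma S_rec (p : ℕ → Bool) (hp : pf p 13 = 0) (n a : ℕ) (h1 : 1 ≤ a) (h2 : a ≤ 13) :
    S (u p) (13 * n + a) = S (u p) (n + 1) + pf p a := by
  obtain ⟨a, rfl⟩ : ∃ a', a = a' + 1 := ⟨a - 1, by omega⟩
  exact S_rec0 p n (S_mul p hp n) a (by omega)

def Up (p : ℕ → Bool) (N : ℕ) (c : ℤ) : Prop :=
  ∀ m δ, 1 ≤ m → δ ≤ 1 → S (u p) (m + N + δ) - S (u p) m ≤ c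

def Lo (p : ℕ → Bool) (N : ℕ) (c : ℤ) : Prop := ∃ m, 1 ≤ m ∧ c ≤ S (u p) (m + N) - S (u p) m

def Good (p : ℕ → Bool) (b : ℕ) (G : ℤ) : Prop :=
  pf p 13 = 0 ∧ b ≤ 11 ∧ (∀ a < 13, ∀ δ < 2,
    (if a + 1 + b + δ ≤ 13 then pf p (a + 1 + b + δ) else pf p (a + 1 + b + δ - 13))
      - pf p (a + 1) ≤ G) ∧ ∃ a < 13, a + 1 + b ≤ 13 ∧ pf p (a + 1 + b) - pf p (a + 1) = G

instance (p : ℕ → Bool) (b : ℕ) (G : ℤ) : Decidable (Good p b G) := by unfold Good; infer_instance

lemma Up_step {p b G} (h : Good p b G) {N c} (hU : Up p N c) : Up p (13 * N + b) (c + G) := by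
  obtain ⟨hp, hb, h1, -⟩ := h
  intro m δ hm hδ
  obtain ⟨m', a, ha, rfl⟩ : ∃ m' a, a < 13 ∧ m = 13 * m' + (a + 1) :=
    ⟨(m - 1) / 13, (m - 1) % 13, by omega, by omega⟩
  have h2 := h1 a ha δ (by omega)
  rw [S_rec p hp m' _ (by omega) (by omega)]
  split_ifs at h2 with h3
  · rw [show 13 * m' + (a + 1) + (13 * N + b) + δ = 13 * (m' + N) + (a + 1 + b + δ) by ring,
      S_rec p hp _ _ (by omega) h3]
    have := hU (m' + 1) 0 (by omega) (by omega)
    rw [show m' + 1 + N + 0 = m' + N + 1 by ring] at this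
    linarith
  · rw [show 13 * m' + (a + 1) + (13 * N + b) + δ = 13 * (m' + N + 1) + (a + 1 + b + δ - 13) by omega,
      S_rec p hp _ _ (by omega) (by omega)]
    have := hU (m' + 1) 1 (by omega) (by omega)
    rw [show m' + 1 + N + 1 = m' + N + 1 + 1 by ring] at this
    linarith

lemma Lo_step {p b G} (h : Good p b G) {N c} (hU : Lo p N c) : Lo p (13 * N + b) (c + G) := by
  obtain ⟨hp, hb, -, a, ha, h1, h2⟩ := h
  obtain ⟨m, hm, h3⟩ := hU
  obtain ⟨m', rfl⟩ : ∃ m', m = m' + 1 := ⟨m - 1, by omega⟩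
  refine ⟨13 * m' + (a + 1), by omega, ?_⟩
  rw [show 13 * m' + (a + 1) + (13 * N + b) = 13 * (m' + N) + (a + 1 + b) by ring,
    S_rec p hp _ _ (by omega) h1, S_rec p hp _ _ (by omega) (by omega)]
  rw [show m' + 1 + N = m' + N + 1 by ring] at h3
  linarith

def rep (b : ℕ) : ℕ → ℕ → ℕ
  | 0, n => n
  | j + 1, n => 13 * rep b j n + b

lemma rep_eq (b j n : ℕ) : rep b j n = 13 ^ j * n + rep b j 0 := by
  induction j with
  | zero => simp [rep]
  | succ j ih => rw [rep, ih, rep]; ring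

lemma rep_lt (b j : ℕ) (hb : b < 13) : rep b j 0 < 13 ^ j := by
  induction j with
  | zero => simp [rep]
  | succ j ih => rw [rep, pow_succ]; omega

lemma Up_rep {p b G} (h : Good p b G) {N c} (hU : Up p N c) (j : ℕ) :
    Up p (rep b j N) (c + j * G) := by
  induction j with
  | zero => simpa [rep] using hU
  | succ j ih =>
    have := Up_step h ih
    rw [rep]; convert this using 1; push_cast; ring

lemma Lo_rep {p b G} (h : Good p b G) {N c} (hU : Lo p N c) (j : ℕ) :
    Lo p (rep b j N) (c + j * G) := by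
  induction j with
  | zero => simpa [rep] using hU
  | succ j ih =>
    have := Lo_step h ih
    rw [rep]; convert this using 1; push_cast; ring

lemma Up_zero (p : ℕ → Bool) : Up p 0 1 := by
  intro m δ _ hδ
  interval_cases δ
  · simp
  · simp only [S, add_zero, sum_range_succ, sgn]
    split_ifs <;> simp

lemma Lo_zero (p : ℕ → Bool) : Lo p 0 0 := ⟨1, le_rfl, by simp⟩

def pu (r : ℕ) : Bool := decide (r ∈ [1, 5, 6, 7, 8, 10])
def pv (r : ℕ) : Bool := decide (r ∈ [2, 3, 4, 7, 8, 9])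

lemma gu4 : Good pu 4 4 := by decide +kernel
lemma gu8 : Good pu 8 2 := by decide +kernel
lemma gv4 : Good pv 4 2 := by decide +kernel
lemma gv8 : Good pv 8 4 := by decide +kernel

def NN (i j : ℕ) : ℕ := rep 8 j (rep 4 i 0)

def cnt (f : ℕ → Bool) (m N : ℕ) : ℕ := ((range N).filter fun j => f (m + j) = true).card

lemma cnt_succ (f : ℕ → Bool) (m N : ℕ) :
    cnt f m (N + 1) = cnt f m N + if f (m + N) then 1 else 0 := by
  unfold cnt
  rw [range_add_one, filter_insert]
  split_ifs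
  · rw [card_insert_of_notMem (by simp)]
  · rfl

lemma cnt_S (f : ℕ → Bool) (m N : ℕ) : 2 * (cnt f m N : ℤ) = N + (S f (m + N) - S f m) := by
  induction N with
  | zero => simp [cnt]
  | succ N ih =>
    rw [cnt_succ, ← add_assoc, S, sum_range_succ, ← S]
    push_cast
    unfold sgn
    split_ifs <;> linarith

lemma cnt_le (f : ℕ → Bool) (m N : ℕ) : cnt f m N ≤ N :=
  (card_filter_le _ _).trans (by simp)

lemma cnt_step (f : ℕ → Bool) (m N : ℕ) : cnt f (m + 1) N ≤ cnt f m N + 1 := by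
  have h1 := cnt_S f m N
  have h2 := cnt_S f (m + 1) N
  rw [show m + 1 + N = m + N + 1 by ring] at h2
  simp only [S, sum_range_succ, sgn] at h1 h2
  split_ifs at h2 <;> omega

def In (c n : ℕ) : Prop := ∃ t, c * 13 ^ (t + 1) ≤ n ∧ n < c * 13 ^ (t + 1) + 13 ^ t

lemma In_step (c n r : ℕ) (hc : c < n) (hr : r < 13) : In c (13 * n + r) ↔ In c n := by
  constructor
  · rintro ⟨t, h1, h2⟩
    rcases t with _ | t
    · simp at h1 h2; omega
    · refine ⟨t, ?_, ?_⟩
      · rw [pow_succ _ (t + 1), ← mul_assoc] at h1; omega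
      · rw [pow_succ _ (t + 1), ← mul_assoc, pow_succ 13 t] at h2
        rw [pow_succ 13 t]; omega
  · rintro ⟨t, h1, h2⟩
    refine ⟨t + 1, ?_, ?_⟩
    · rw [pow_succ _ (t + 1), ← mul_assoc]; omega
    · rw [pow_succ _ (t + 1), ← mul_assoc, pow_succ 13 t]
      rw [pow_succ 13 t] at h2; omega

lemma In_pow (c n e : ℕ) (hc : c < n) : ∀ r < 13 ^ e, In c (13 ^ e * n + r) ↔ In c n := by
  induction e with
  | zero => intro r h; simp at h; simp [h]
  | succ e ih =>
    intro r h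
    have e1 : 13 ^ (e + 1) * n + r = 13 * (13 ^ e * n + r / 13) + r % 13 := by
      rw [pow_succ]; have := Nat.div_add_mod r 13; nlinarith
    have h1 : 1 ≤ 13 ^ e := Nat.one_le_pow _ _ (by norm_num)
    rw [e1, In_step _ _ _ (by nlinarith [Nat.zero_le (r / 13)]) (by omega),
      ih _ (by rw [pow_succ] at h; omega)]

open Classical in
noncomputable def xb (n : ℕ) : Bool := if In 1 n then u pu n else if In 4 n then u pv n else false

noncomputable def x (n : ℕ) : Fin 2 := if xb n then 1 else 0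

lemma kernel_finite :
    {f : ℕ → Fin 2 | ∃ e r : ℕ, r < 13 ^ e ∧ f = fun n => x (13 ^ e * n + r)}.Finite := by
  classical
  refine (Set.finite_range fun q : (Fin 5 → Fin 2) × Option (Bool × Bool) => fun n : ℕ =>
    if h : n < 5 then q.1 ⟨n, h⟩ else match q.2 with
      | none => x n
      | some b => if (if In 1 n then b.1 else if In 4 n then b.2 else false) then 1 else 0).subset ?_
  rintro _ ⟨e, r, hr, rfl⟩
  refine ⟨(fun n => x (13 ^ e * n + r), if r = 0 then none else some (u pu r, u pv r)), ?_⟩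
  funext n
  by_cases h : n < 5
  · simp [h]
  · simp only [h, dite_false, x, xb, In_pow 1 n e (by omega) r hr, In_pow 4 n e (by omega) r hr,
      u_pow _ e n r hr]
    by_cases h0 : r = 0 <;> simp [h0]

lemma scale (t t' : ℕ) : t' = t ∨ 13 ^ (t' + 1) ≤ 13 ^ t ∨ 13 ^ (t + 1) ≤ 13 ^ t' := by
  rcases lt_trichotomy t' t with h | h | h
  · exact Or.inr (Or.inl (Nat.pow_le_pow_right (by norm_num) h))
  · exact Or.inl h
  · exact Or.inr (Or.inr (Nat.pow_le_pow_right (by norm_num) h))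

lemma disj (n : ℕ) (h1 : In 1 n) (h4 : In 4 n) : False := by
  obtain ⟨t, a1, a2⟩ := h1
  obtain ⟨t', b1, b2⟩ := h4
  rcases scale t t' with rfl | h | h <;> simp only [pow_succ] at * <;> omega

lemma xb_In (n : ℕ) (h : xb n = true) : (In 1 n ∧ u pu n = true) ∨ (In 4 n ∧ u pv n = true) := by
  unfold xb at h
  split_ifs at h with h1 h2
  · exact Or.inl ⟨h1, h⟩
  · exact Or.inr ⟨h2, h⟩

lemma gap1 (t n : ℕ) (h1 : 5 * 13 ^ t ≤ n) (h2 : n < 13 ^ (t + 1)) : xb n = false := by
  by_contra h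
  rcases xb_In n (by simpa using h) with ⟨⟨t', a1, a2⟩, -⟩ | ⟨⟨t', a1, a2⟩, -⟩ <;>
    rcases scale t t' with rfl | h | h <;> simp only [pow_succ] at * <;> omega

lemma gap4 (t n : ℕ) (h1 : 14 * 13 ^ t ≤ n) (h2 : n < 4 * 13 ^ (t + 1)) : xb n = false := by
  by_contra h
  rcases xb_In n (by simpa using h) with ⟨⟨t', a1, a2⟩, -⟩ | ⟨⟨t', a1, a2⟩, -⟩ <;>
    rcases scale t t' with rfl | h | h <;> simp only [pow_succ] at * <;> omega

lemma upper_aux (f : ℕ → Bool) (m N j s b l : ℕ) (hj : j < N) (hs : s ≤ m + j) (hb : 1 ≤ b)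
    (h2 : 2 * b + 2 * l ≤ s) (hgap : ∀ n, b ≤ n → n < s → xb n = false)
    (hreg : ∀ n, s ≤ n → n < s + l → xb n = f n)
    (hmax : ∀ i < N, xb (m + i) = true → m + i < s + l) :
    2 * cnt xb m N ≤ N ∨ (1 ≤ m ∧ cnt xb m N ≤ cnt f m N) := by
  rcases lt_or_ge m b with h | h
  · left
    have : cnt xb m N ≤ (range (b - m) ∪ Ico (s - m) (s - m + l)).card := by
      refine card_le_card fun i hi => ?_
      simp only [mem_filter, mem_range] at hi
      simp only [mem_union, mem_range, mem_Ico]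
      have a1 := hmax i hi.1 hi.2
      have a2 := hgap (m + i)
      rw [hi.2] at a2
      simp only [Bool.true_eq_false, imp_false, not_lt] at a2
      omega
    have h3 := card_union_le (range (b - m)) (Ico (s - m) (s - m + l))
    simp only [card_range, Nat.card_Ico] at h3
    omega
  · right
    refine ⟨by omega, card_le_card fun i hi => ?_⟩
    simp only [mem_filter, mem_range] at hi ⊢
    refine ⟨hi.1, ?_⟩
    have a1 := hmax i hi.1 hi.2
    have a2 := hgap (m + i)
    rw [hi.2] at a2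
    simp only [Bool.true_eq_false, imp_false, not_lt] at a2
    rw [← hreg _ (a2 (by omega)) a1, hi.2]

lemma reg1 (t n : ℕ) (h1 : 1 * 13 ^ (t + 1) ≤ n) (h2 : n < 1 * 13 ^ (t + 1) + 13 ^ t) :
    xb n = u pu n := by
  unfold xb; rw [if_pos ⟨t, h1, h2⟩]

lemma reg4 (t n : ℕ) (h1 : 4 * 13 ^ (t + 1) ≤ n) (h2 : n < 4 * 13 ^ (t + 1) + 13 ^ t) :
    xb n = u pv n := by
  unfold xb; rw [if_neg fun h => disj n h ⟨t, h1, h2⟩, if_pos ⟨t, h1, h2⟩]

lemma upper (m N : ℕ) : 2 * cnt xb m N ≤ N ∨ (1 ≤ m ∧ cnt xb m N ≤ cnt (u pu) m N) ∨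
    (1 ≤ m ∧ cnt xb m N ≤ cnt (u pv) m N) := by
  rcases ((range N).filter fun j => xb (m + j) = true).eq_empty_or_nonempty with h | h
  · left; simp [cnt, h]
  obtain ⟨j, hj, hmax⟩ := exists_max_image _ id h
  simp only [mem_filter, mem_range, id, and_imp] at hj hmax
  have h0 : ∀ t, 1 ≤ 13 ^ t := fun t => Nat.one_le_pow _ _ (by norm_num)
  rcases xb_In _ hj.2 with ⟨⟨t, a1, a2⟩, -⟩ | ⟨⟨t, a1, a2⟩, -⟩
  · have := upper_aux (u pu) m N j _ (5 * 13 ^ t) (13 ^ t) hj.1 a1 (by have := h0 t; omega)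
      (by rw [pow_succ]; omega) (fun n b1 b2 => gap1 t n b1 (by omega)) (reg1 t)
      (fun i b1 b2 => by have := hmax i b1 b2; omega)
    tauto
  · have := upper_aux (u pv) m N j _ (14 * 13 ^ t) (13 ^ t) hj.1 a1 (by have := h0 t; omega)
      (by rw [pow_succ]; omega) (gap4 t) (reg4 t)
      (fun i b1 b2 => by have := hmax i b1 b2; omega)
    tauto

lemma ivt (f : ℕ → ℕ) (hf : ∀ m, f (m + 1) ≤ f m + 1) (a b v : ℕ) (hab : a ≤ b) (ha : f a = 0)
    (hb : v ≤ f b) : ∃ m, f m = v := by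
  induction b, hab using Nat.le_induction with
  | base => exact ⟨a, by omega⟩
  | succ b _ ih =>
    rcases le_or_gt v (f b) with h | h
    · exact ih h
    · exact ⟨b + 1, by have := hf b; omega⟩

lemma lower (p : ℕ → Bool) (c : ℕ) (hc : 1 ≤ c)
    (hreg : ∀ t n, c * 13 ^ (t + 1) ≤ n → n < c * 13 ^ (t + 1) + 13 ^ t → xb n = u p n)
    (m N v : ℕ) (hm : 1 ≤ m) (hv : v ≤ cnt (u p) m N) : ∃ m', cnt xb m' N = v := by
  have ht : m + N < 13 ^ (m + N) := Nat.lt_pow_self (by norm_num)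
  set t := m + N with htd
  refine ivt (fun m => cnt xb m N) (fun m => cnt_step _ _ _) (5 * 13 ^ t) (c * 13 ^ (t + 1) + m) v
    (by rw [pow_succ]; nlinarith) ?_ (hv.trans (le_of_eq ?_))
  · simp only [cnt, card_eq_zero, filter_eq_empty_iff, mem_range]
    intro j hj
    rw [gap1 t _ (by omega) (by rw [pow_succ]; omega)]
    simp
  · unfold cnt
    congr 1
    refine filter_congr fun j hj => ?_
    rw [mem_range] at hj
    rw [hreg t _ (by omega) (by omega),
      show c * 13 ^ (t + 1) + m + j = 13 ^ t * (13 * c) + (m + j) by ring,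
      u_pow p t _ _ (by omega), if_neg (by omega)]

noncomputable def ρ (N : ℕ) : ℕ := Set.ncard {v : Fin 2 → ℕ | ∃ i : ℕ,
  v = fun c => ((Finset.range N).filter (fun j => x (i + j) = c)).card}

lemma ρ_eq (N : ℕ) : ρ N = Set.ncard (Set.range fun m => cnt xb m N) := by
  have hinj : Function.Injective fun (c : ℕ) (a : Fin 2) => if a = 1 then c else N - c := by
    intro c c' h
    simpa using congrFun h 1
  rw [← Set.ncard_image_of_injective _ hinj, ρ]
  congr 1
  have key : ∀ i, (fun c => ((Finset.range N).filter (fun j => x (i + j) = c)).card) =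
      fun a : Fin 2 => if a = 1 then cnt xb i N else N - cnt xb i N := by
    intro i
    funext a
    fin_cases a
    · have := card_filter_add_card_filter_not (s := range N) (fun j => xb (i + j) = true)
      simp only [card_range] at this
      have h2 : ((range N).filter fun j => x (i + j) = 0) =
          (range N).filter fun j => ¬ xb (i + j) = true := by
        refine filter_congr fun j _ => ?_
        simp [x]
      simp only [Fin.zero_eta, h2, cnt]
      simp only [Fin.isValue, zero_ne_one, if_false]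
      omega
    · simp [cnt, x]
  ext v
  simp only [key, Set.mem_ofPred_eq, Set.mem_image, Set.mem_range]
  constructor
  · rintro ⟨i, rfl⟩
    exact ⟨_, ⟨i, rfl⟩, rfl⟩
  · rintro ⟨_, ⟨i, rfl⟩, rfl⟩
    exact ⟨i, rfl⟩

lemma ρ_le (N M : ℕ) (h : ∀ m, cnt xb m N ≤ M) : ρ N ≤ M + 1 := by
  rw [ρ_eq, ← card_range (M + 1), ← Set.ncard_coe_finset]
  refine Set.ncard_le_ncard ?_ (finite_toSet _)
  rintro _ ⟨m, rfl⟩
  simpa [Nat.lt_succ_iff] using h m

lemma ρ_ge (N M : ℕ) (h : ∀ v ≤ M, ∃ m, cnt xb m N = v) : M + 1 ≤ ρ N := by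
  rw [ρ_eq, ← card_range (M + 1), ← Set.ncard_coe_finset]
  refine Set.ncard_le_ncard ?_ ((Set.finite_Iic N).subset ?_)
  · intro v hv
    exact h v (by simpa [Nat.lt_succ_iff] using hv)
  · rintro _ ⟨m, rfl⟩
    exact cnt_le _ _ _

lemma ρ_NN (i j : ℕ) :
    |2 * (ρ (NN i j) : ℤ) - NN i j - (2 * (i + j) + 2 * max (i : ℤ) j)| ≤ 3 := by
  have U1 := Up_rep gu8 (Up_rep gu4 (Up_zero pu) i) j
  have U2 := Up_rep gv8 (Up_rep gv4 (Up_zero pv) i) j
  obtain ⟨m1, a1, L1⟩ := Lo_rep gu8 (Lo_rep gu4 (Lo_zero pu) i) j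
  obtain ⟨m2, a2, L2⟩ := Lo_rep gv8 (Lo_rep gv4 (Lo_zero pv) i) j
  rw [← NN] at U1 U2 L1 L2
  generalize NN i j = N at *
  have b1 := ρ_ge N (cnt (u pu) m1 N) fun v hv => lower pu 1 le_rfl reg1 m1 N v a1 hv
  have b2 := ρ_ge N (cnt (u pv) m2 N) fun v hv => lower pv 4 (by norm_num) reg4 m2 N v a2 hv
  have c1 := cnt_S (u pu) m1 N
  have c2 := cnt_S (u pv) m2 N
  have b3 := ρ_le N ((N + 2 * (i + j) + 2 * max i j + 1) / 2) fun m => by
    rcases upper m N with h | ⟨h1, h2⟩ | ⟨h1, h2⟩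
    · omega
    · have := U1 m 0 h1 (by omega)
      have := cnt_S (u pu) m N
      simp only [add_zero] at *
      omega
    · have := U2 m 0 h1 (by omega)
      have := cnt_S (u pv) m N
      simp only [add_zero] at *
      omega
  rw [abs_le]
  omega

lemma indep (d : ℕ) (h : Fin d → ℕ → ℤ) (pt : ℕ → ℕ)
    (hh : ∀ a i, |h a (pt i) - (2 * (i + ((a : ℕ) + 1) * (7 * d)) +
      2 * max (i : ℤ) (((a : ℕ) + 1) * (7 * d)))| ≤ 3) : LinearIndependent ℤ h := by
  rw [Fintype.linearIndependent_iff]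
  intro c hc
  by_contra hne
  push Not at hne
  obtain ⟨a0, ha0⟩ := hne
  obtain ⟨a, -, ha⟩ := exists_max_image univ (fun a => |c a|) ⟨a0, mem_univ _⟩
  have hpos : 0 < |c a| := lt_of_lt_of_le (abs_pos.2 ha0) (ha a0 (mem_univ _))
  have hd : (0 : ℤ) < d := by have := a.2; omega
  set T : ℤ := 7 * d with hT
  have hT0 : 0 < T := by omega
  set D : Fin d → ℤ := fun b => h b (pt (a * (7 * d))) - 2 * h b (pt ((a + 1) * (7 * d))) +
    h b (pt ((a + 2) * (7 * d))) with hD
  have h1 : ∑ b, c b * D b = 0 := by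
    have e := fun i => congrFun hc (pt i)
    simp only [Finset.sum_apply, Pi.smul_apply, smul_eq_mul, Pi.zero_apply] at e
    simp only [hD, mul_add, mul_sub, sum_add_distrib, sum_sub_distrib, mul_left_comm _ (2 : ℤ),
      ← mul_sum, e]
    simp
  have h2 : ∀ b, |D b - if b = a then 2 * T else 0| ≤ 12 := by
    intro b
    have e1 := abs_le.1 (hh b (a * (7 * d)))
    have e2 := abs_le.1 (hh b ((a + 1) * (7 * d)))
    have e3 := abs_le.1 (hh b ((a + 2) * (7 * d)))
    push_cast at e1 e2 e3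
    rw [← hT] at e1 e2 e3
    simp only [hD]
    rw [abs_le]
    split_ifs with hb
    · subst hb
      rw [max_eq_right (by nlinarith)] at e1
      rw [max_self] at e2
      rw [max_eq_left (by nlinarith)] at e3
      constructor <;> nlinarith
    · rcases lt_or_gt_of_ne hb with hb | hb
      · have : ((b : ℕ) : ℤ) + 1 ≤ (a : ℕ) := by exact_mod_cast hb
        rw [max_eq_left (by nlinarith)] at e1 e2 e3
        constructor <;> nlinarith
      · have : ((a : ℕ) : ℤ) + 1 ≤ (b : ℕ) := by exact_mod_cast hb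
        rw [max_eq_right (by nlinarith)] at e1 e2 e3
        constructor <;> nlinarith
  have h3 : c a * (2 * T) = - ∑ b, c b * (D b - if b = a then 2 * T else 0) := by
    simp only [mul_sub, sum_sub_distrib, h1, mul_ite, mul_zero, sum_ite_eq', mem_univ, if_true]
    ring
  have h4 : |∑ b, c b * (D b - if b = a then 2 * T else 0)| ≤ ∑ _b : Fin d, |c a| * 12 := by
    refine (abs_sum_le_sum_abs _ _).trans (sum_le_sum fun b _ => ?_)
    rw [abs_mul]
    exact mul_le_mul (ha b (mem_univ _)) (h2 b) (abs_nonneg _) (abs_nonneg _)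
  rw [← abs_neg, ← h3, abs_mul, abs_of_pos (by omega : 0 < 2 * T)] at h4
  simp only [sum_const, card_univ, Fintype.card_fin, nsmul_eq_mul] at h4
  nlinarith

theorem not_fg : ¬ (Submodule.span ℤ {g : ℕ → ℤ | ∃ e r : ℕ, r < 13 ^ e ∧
    g = fun n => ((ρ (13 ^ e * n + r) : ℕ) : ℤ)}).FG := by
  intro hfg
  set K := Submodule.span ℤ {g : ℕ → ℤ | ∃ e r : ℕ, r < 13 ^ e ∧
    g = fun n => ((ρ (13 ^ e * n + r) : ℕ) : ℤ)} with hK
  set W : Submodule ℤ (ℕ → ℤ) := K ⊔ Submodule.span ℤ {fun n : ℕ => (n : ℤ), fun _ => 1} with hW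
  have hW' : W.FG := hfg.sup (Submodule.fg_span (Set.toFinite _))
  have : Module.Finite ℤ W := Module.Finite.iff_fg.2 hW'
  set d := Module.finrank ℤ W + 1 with hd
  have hmem : ∀ j : ℕ, (fun n => 2 * (ρ (rep 8 j n) : ℤ) - (rep 8 j n : ℕ)) ∈ W := by
    intro j
    have e : (fun n => 2 * (ρ (rep 8 j n) : ℤ) - (rep 8 j n : ℕ)) =
        (2 : ℤ) • (fun n => (ρ (13 ^ j * n + rep 8 j 0) : ℤ)) -
          (((13 : ℤ) ^ j) • (fun n : ℕ => (n : ℤ)) + (rep 8 j 0 : ℤ) • fun _ => 1) := by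
      funext n
      rw [rep_eq]
      simp
    rw [e]
    refine W.sub_mem (W.smul_mem _ (Submodule.mem_sup_left (Submodule.subset_span
      ⟨j, _, rep_lt 8 j (by norm_num), rfl⟩))) (Submodule.mem_sup_right ?_)
    exact Submodule.add_mem _ (Submodule.smul_mem _ _ (Submodule.subset_span (by simp)))
      (Submodule.smul_mem _ _ (Submodule.subset_span (by simp)))
  have hli := indep d (fun a n => 2 * (ρ (rep 8 ((a + 1) * (7 * d)) n) : ℤ) -
    (rep 8 ((a + 1) * (7 * d)) n : ℕ)) (fun i => rep 4 i 0) (fun a i => by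
      have := ρ_NN i ((a + 1) * (7 * d))
      push_cast at this
      exact this)
  have hli2 : LinearIndependent ℤ (fun a : Fin d => (⟨_, hmem ((a + 1) * (7 * d))⟩ : W)) :=
    LinearIndependent.of_comp W.subtype hli
  have := hli2.fintype_card_le_finrank
  simp only [Fintype.card_fin] at this
  omega

end Pool.Agent.H6.AbReg
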