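import Mathlib

namespace Pool.Agent.H6.AbSq

open Finset

def Q (i : ℕ) : ℤ := ((i : ℤ) + 1) * 3 ^ i
def B (t : ℕ) : ℤ := ∑ i ∈ range t, Q i

lemma B_eq (t : ℕ) : 4 * B t = (2 * (t : ℤ) - 1) * 3 ^ t + 1 := by
  induction t with
  | zero => simp [B]
  | succ n ih =>
    have : B (n + 1) = B n + Q n := by simp [B, sum_range_succ]
    rw [this, mul_add, ih, Q]; push_cast; ring

lemma three_eq (t : ℕ) : 2 * ∑ i ∈ range t, (3 : ℤ) ^ i = 3 ^ t - 1 := by
  induction t with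
  | zero => simp
  | succ n ih => rw [sum_range_succ, mul_add, ih]; ring

lemma Q_pos (i : ℕ) : 0 < Q i := by unfold Q; positivity

lemma abs_sum_le (W d : ℕ → ℤ) (c : ℤ) (hW : ∀ i, 0 ≤ W i) (hd : ∀ i, |d i| ≤ c) (t : ℕ) :
    |∑ i ∈ range t, d i * W i| ≤ c * ∑ i ∈ range t, W i := by
  rw [mul_sum]
  refine (abs_sum_le_sum_abs _ _).trans (sum_le_sum fun i _ => ?_)
  rw [abs_mul, abs_of_nonneg (hW i)]
  exact mul_le_mul_of_nonneg_right (hd i) (hW i)

lemma top_ge (W d : ℕ → ℤ) (hW : ∀ i, 0 ≤ W i) (hd : ∀ i, |d i| ≤ 2) (t : ℕ) (h : d t ≠ 0) :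
    W t - 2 * ∑ i ∈ range t, W i ≤ |∑ i ∈ range (t + 1), d i * W i| := by
  rw [sum_range_succ]
  have h1 := abs_sum_le W d 2 hW hd t
  have h2 : W t ≤ |d t * W t| := by
    rw [abs_mul, abs_of_nonneg (hW t)]
    have : 1 ≤ |d t| := Int.one_le_abs h
    nlinarith [hW t]
  have h3 := abs_add_le (∑ i ∈ range t, d i * W i + d t * W t) (-(∑ i ∈ range t, d i * W i))
  rw [abs_neg] at h3
  have h4 : ∑ i ∈ range t, d i * W i + d t * W t + -(∑ i ∈ range t, d i * W i) = d t * W t := by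
    ring
  rw [h4] at h3
  linarith

lemma lip (d e : ℕ → ℤ) (hd : ∀ i, |d i| ≤ 2) (he : ∀ i, |e i| ≤ 1) (h0 : ∀ i, d i = 0 → e i = 0)
    (t : ℕ) : |∑ i ∈ range t, e i * 3 ^ i| ≤ |∑ i ∈ range t, d i * Q i| := by
  induction t with
  | zero => simp
  | succ n ih =>
    by_cases h : d n = 0
    · simpa [sum_range_succ, h, h0 n h] using ih
    · have h1 := top_ge Q d (fun i => (Q_pos i).le) hd n h
      have h2 := abs_sum_le (fun i => 3 ^ i) e 1 (fun i => by positivity) he (n + 1)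
      have h3 := three_eq (n + 1)
      have h4 := B_eq n
      unfold B at h4
      unfold Q at h1
      unfold Q at h4
      unfold Q
      rw [pow_succ] at h3
      nlinarith

lemma inj (W d : ℕ → ℤ) (hW : ∀ i, 0 ≤ W i) (hW2 : ∀ t, 2 * ∑ i ∈ range t, W i < W t)
    (hd : ∀ i, |d i| ≤ 2) (t : ℕ) (h : ∑ i ∈ range t, d i * W i = 0) : ∀ i < t, d i = 0 := by
  induction t with
  | zero => simp
  | succ n ih =>
    have hn : d n = 0 := by
      by_contra hn
      have h1 := top_ge W d hW hd n hn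
      rw [h] at h1
      have := hW2 n
      simp at h1
      linarith
    rw [sum_range_succ, hn] at h
    intro i hi
    rcases Nat.lt_succ_iff_lt_or_eq.1 hi with h1 | h1
    · exact ih (by simpa using h) i h1
    · rw [h1, hn]

lemma Q_big (t : ℕ) : 2 * ∑ i ∈ range t, Q i < Q t := by
  have h4 := B_eq t
  unfold B at h4
  have : (1 : ℤ) ≤ 3 ^ t := one_le_pow₀ (by norm_num)
  have h5 : Q t = ((t : ℤ) + 1) * 3 ^ t := rfl
  nlinarith

lemma three_big (t : ℕ) : 2 * ∑ i ∈ range t, (3 : ℤ) ^ i < 3 ^ t := by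
  rw [three_eq]; linarith

lemma three_le_B (t : ℕ) : ∑ i ∈ range t, (3 : ℤ) ^ i ≤ B t := by
  refine sum_le_sum fun i _ => ?_
  unfold Q
  have : (0 : ℤ) < 3 ^ i := by positivity
  nlinarith [Nat.cast_nonneg (α := ℤ) i]

/-- position digits of the three classes (left end, midpoint, right end) -/
def D : Fin 3 → Fin 6 → ℤ := ![![0, 2, 0, 4, 2, 4], ![1, 1, 2, 2, 3, 3], ![2, 0, 4, 0, 4, 2]]
/-- value digits of the three classes -/
def E : Fin 3 → Fin 6 → ℤ := ![![0, 0, 0, 2, 0, 2], ![0, 0, 1, 1, 1, 1], ![0, 0, 2, 0, 2, 0]]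
def m : Fin 3 → ℤ := ![2, 1, 2]

variable {t : ℕ}

def ext (z : Fin t → Fin 6) (i : ℕ) : Fin 6 := if h : i < t then z ⟨i, h⟩ else 0

def pos (j : Fin 3 × (Fin t → Fin 6)) : ℤ :=
  (j.1 : ℕ) * (6 * B t) + ∑ i ∈ range t, D j.1 (ext j.2 i) * Q i
def val (j : Fin 3 × (Fin t → Fin 6)) : ℤ := ∑ i ∈ range t, E j.1 (ext j.2 i) * 3 ^ i

lemma D_bd : ∀ c a, 0 ≤ D c a ∧ D c a ≤ 4 := by decide
lemma E_bd : ∀ c a, 0 ≤ E c a ∧ E c a ≤ 2 := by decide
lemma DE : ∀ c a b, D c a - D c b = m c * ((D c a - D c b) / m c) ∧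
    E c a - E c b = m c * ((E c a - E c b) / m c) ∧ |(D c a - D c b) / m c| ≤ 2 ∧
    |(E c a - E c b) / m c| ≤ 1 ∧ ((D c a - D c b) / m c = 0 → (E c a - E c b) / m c = 0) := by
  decide

lemma B_nonneg (t : ℕ) : 0 ≤ B t := sum_nonneg fun i _ => (Q_pos i).le

lemma sumD_bd (c : Fin 3) (z : Fin t → Fin 6) :
    0 ≤ ∑ i ∈ range t, D c (ext z i) * Q i ∧ ∑ i ∈ range t, D c (ext z i) * Q i ≤ 4 * B t := by
  refine ⟨sum_nonneg fun i _ => mul_nonneg (D_bd _ _).1 (Q_pos i).le, ?_⟩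
  unfold B
  rw [mul_sum]
  exact sum_le_sum fun i _ => mul_le_mul_of_nonneg_right (D_bd _ _).2 (Q_pos i).le

lemma val_bd (j : Fin 3 × (Fin t → Fin 6)) : 0 ≤ val j ∧ val j ≤ 2 * B t := by
  refine ⟨sum_nonneg fun i _ => mul_nonneg (E_bd _ _).1 (by positivity), ?_⟩
  refine le_trans ?_ (mul_le_mul_of_nonneg_left (three_le_B t) (by norm_num))
  rw [mul_sum]
  exact sum_le_sum fun i _ => mul_le_mul_of_nonneg_right (E_bd _ _).2 (by positivity)

lemma lip_pts (j j' : Fin 3 × (Fin t → Fin 6)) : |val j - val j'| ≤ |pos j - pos j'| := by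
  obtain ⟨c, z⟩ := j
  obtain ⟨c', z'⟩ := j'
  by_cases h : c = c'
  · subst h
    have h1 : val (c, z) - val (c, z') =
        m c * ∑ i ∈ range t, ((E c (ext z i) - E c (ext z' i)) / m c) * 3 ^ i := by
      simp only [val, ← sum_sub_distrib, mul_sum]
      refine sum_congr rfl fun i _ => ?_
      rw [← mul_assoc, ← (DE c _ _).2.1]; ring
    have h2 : pos (c, z) - pos (c, z') =
        m c * ∑ i ∈ range t, ((D c (ext z i) - D c (ext z' i)) / m c) * Q i := by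
      simp only [pos, add_sub_add_left_eq_sub, ← sum_sub_distrib, mul_sum]
      refine sum_congr rfl fun i _ => ?_
      rw [← mul_assoc, ← (DE c _ _).1]; ring
    rw [h1, h2, abs_mul, abs_mul]
    exact mul_le_mul_of_nonneg_left (lip _ _ (fun i => (DE c _ _).2.2.1)
      (fun i => (DE c _ _).2.2.2.1) (fun i => (DE c _ _).2.2.2.2) t) (abs_nonneg _)
  · have h1 := val_bd (c, z)
    have h2 := val_bd (c', z')
    have h3 := sumD_bd c z
    have h4 := sumD_bd c' z'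
    have h5 := B_nonneg t
    have h6 : |val (c, z) - val (c', z')| ≤ 2 * B t := by rw [abs_le]; constructor <;> linarith
    refine h6.trans ?_
    rw [le_abs]
    simp only [pos]
    rcases lt_or_gt_of_ne h with h7 | h7
    · right
      have : ((c : ℕ) : ℤ) + 1 ≤ (c' : ℕ) := by exact_mod_cast h7
      nlinarith
    · left
      have : ((c' : ℕ) : ℤ) + 1 ≤ (c : ℕ) := by exact_mod_cast h7
      nlinarith

noncomputable def h (t : ℕ) (p : ℕ) : ℤ :=
  (univ : Finset (Fin 3 × (Fin t → Fin 6))).inf' univ_nonempty fun j => val j + |(p : ℤ) - pos j|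

lemma h_step (p : ℕ) : |h t (p + 1) - h t p| ≤ 1 := by
  rw [abs_le]
  constructor
  · obtain ⟨j, -, hj⟩ := exists_mem_eq_inf' (univ_nonempty (α := Fin 3 × (Fin t → Fin 6)))
      fun j => val j + |((p + 1 : ℕ) : ℤ) - pos j|
    have h1 : h t p ≤ val j + |(p : ℤ) - pos j| := inf'_le _ (mem_univ j)
    have h2 : h t (p + 1) = _ := hj
    have h3 : |(p : ℤ) - pos j| ≤ |((p + 1 : ℕ) : ℤ) - pos j| + 1 := by
      push_cast
      cases abs_cases ((p : ℤ) - pos j) <;> cases abs_cases ((p : ℤ) + 1 - pos j) <;> linarith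
    linarith
  · obtain ⟨j, -, hj⟩ := exists_mem_eq_inf' (univ_nonempty (α := Fin 3 × (Fin t → Fin 6)))
      fun j => val j + |((p : ℕ) : ℤ) - pos j|
    have h1 : h t (p + 1) ≤ val j + |((p + 1 : ℕ) : ℤ) - pos j| := inf'_le _ (mem_univ j)
    have h2 : h t p = _ := hj
    have h3 : |((p + 1 : ℕ) : ℤ) - pos j| ≤ |(p : ℤ) - pos j| + 1 := by
      push_cast
      cases abs_cases ((p : ℤ) - pos j) <;> cases abs_cases ((p : ℤ) + 1 - pos j) <;> linarith
    linarith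

lemma h_pos (j : Fin 3 × (Fin t → Fin 6)) (p : ℕ) (hp : (p : ℤ) = pos j) : h t p = val j := by
  apply le_antisymm
  · have h1 : h t p ≤ val j + |(p : ℤ) - pos j| := inf'_le _ (mem_univ j)
    simpa [hp] using h1
  · refine le_inf' _ _ fun j' _ => ?_
    have := lip_pts j j'
    rw [hp]
    linarith [le_abs_self (val j - val j')]

noncomputable def b (t : ℕ) (j : ℕ) : Bool := decide ((j % 2 : ℕ) ≤ h t (j / 2 + 1) - h t (j / 2))

def cnt (f : ℕ → Bool) (i j : ℕ) : ℕ := ((Ico i j).filter (fun j => f j = true)).card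

lemma cnt_succ (f : ℕ → Bool) (i j : ℕ) (hij : i ≤ j) :
    cnt f i (j + 1) = cnt f i j + if f j then 1 else 0 := by
  unfold cnt
  rw [Nat.Ico_succ_right_eq_insert_Ico hij, filter_insert]
  split_ifs
  · rw [card_insert_of_notMem (by simp)]
  · rfl

lemma cnt_b (p q : ℕ) (hpq : p ≤ q) :
    (cnt (b t) (2 * p) (2 * q) : ℤ) = (q - p) + h t q - h t p := by
  induction q, hpq using Nat.le_induction with
  | base => simp [cnt]
  | succ q hq ih =>
    rw [show 2 * (q + 1) = 2 * q + 1 + 1 by ring, cnt_succ _ _ _ (by omega),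
      cnt_succ _ _ _ (by omega)]
    push_cast
    rw [ih]
    have h1 : (2 * q) % 2 = 0 := by omega
    have h2 : (2 * q + 1) % 2 = 1 := by omega
    have h3 : (2 * q) / 2 = q := by omega
    have h4 : (2 * q + 1) / 2 = q := by omega
    have h5 := abs_le.1 (h_step (t := t) q)
    simp only [b, h1, h2, h3, h4, decide_eq_true_eq]
    push_cast
    split_ifs <;> omega

lemma mid : ∀ a, D 0 a + D 2 a = 2 * D 1 a ∧ E 0 a + E 2 a = 2 * E 1 a := by decide
lemma dist1 : ∀ a a', |(E 1 a - E 0 a) - (E 1 a' - E 0 a')| ≤ 2 := by decide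
lemma dist2 : ∀ a a', (E 1 a - E 0 a) - (E 1 a' - E 0 a') = 0 →
    |(D 1 a - D 0 a) - (D 1 a' - D 0 a')| ≤ 2 := by decide
lemma dist3 : ∀ a a', (E 1 a - E 0 a) - (E 1 a' - E 0 a') = 0 →
    (D 1 a - D 0 a) - (D 1 a' - D 0 a') = 0 → a = a' := by decide

lemma pos_mid (z : Fin t → Fin 6) : pos (0, z) + pos (2, z) = 2 * pos (1, z) := by
  have : ∑ i ∈ range t, D 0 (ext z i) * Q i + ∑ i ∈ range t, D 2 (ext z i) * Q i =
      2 * ∑ i ∈ range t, D 1 (ext z i) * Q i := by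
    rw [← sum_add_distrib, mul_sum]
    refine sum_congr rfl fun i _ => ?_
    rw [← add_mul, (mid _).1]; ring
  simp only [pos]
  push_cast
  simp
  linarith

lemma val_mid (z : Fin t → Fin 6) : val (0, z) + val (2, z) = 2 * val (1, z) := by
  simp only [val]
  rw [← sum_add_distrib, mul_sum]
  refine sum_congr rfl fun i _ => ?_
  rw [← add_mul, (mid _).2]; ring

lemma inj_z (z z' : Fin t → Fin 6) (h1 : pos (1, z) - pos (0, z) = pos (1, z') - pos (0, z'))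
    (h2 : val (1, z) - val (0, z) = val (1, z') - val (0, z')) : z = z' := by
  have e2 : ∑ i ∈ range t, ((E 1 (ext z i) - E 0 (ext z i)) - (E 1 (ext z' i) - E 0 (ext z' i)))
      * 3 ^ i = 0 := by
    simp only [val] at h2
    simp only [sub_mul, sum_sub_distrib]
    linarith
  have e1 : ∑ i ∈ range t, ((D 1 (ext z i) - D 0 (ext z i)) - (D 1 (ext z' i) - D 0 (ext z' i)))
      * Q i = 0 := by
    simp only [pos] at h1
    simp only [sub_mul, sum_sub_distrib]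
    linarith
  have f2 := inj (fun i => 3 ^ i) _ (fun i => by positivity) three_big (fun i => dist1 _ _) t e2
  have f2' : ∀ i, (E 1 (ext z i) - E 0 (ext z i)) - (E 1 (ext z' i) - E 0 (ext z' i)) = 0 := by
    intro i
    by_cases hi : i < t
    · exact f2 i hi
    · simp [ext, hi]
  have f1 := inj Q _ (fun i => (Q_pos i).le) Q_big (fun i => dist2 _ _ (f2' i)) t e1
  funext i
  have := dist3 _ _ (f2' i) (f1 i i.2)
  simpa [ext] using this

theorem core (t : ℕ) (ht : 1 ≤ t) : ∃ (n : ℕ) (f : ℕ → Bool) (s : Finset (ℕ × ℕ)),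
    n ≤ 16 * t * 3 ^ t ∧ s.card = 6 ^ t ∧ ∀ p ∈ s, ∃ i, 1 ≤ p.1 ∧ i + 2 * p.1 ≤ n ∧
      cnt f i (i + p.1) = p.2 ∧ cnt f (i + p.1) (i + 2 * p.1) = p.2 := by
  have hB := B_eq t
  have h3 : (1 : ℤ) ≤ 3 ^ t := one_le_pow₀ (by norm_num)
  have ht' : (1 : ℤ) ≤ t := by exact_mod_cast ht
  have hB1 : 0 < B t := by nlinarith
  have key : ∀ z : Fin t → Fin 6, ∃ p0 p1 p2 : ℕ, (p0 : ℤ) = pos (0, z) ∧ (p1 : ℤ) = pos (1, z) ∧
      (p2 : ℤ) = pos (2, z) ∧ p0 < p1 ∧ p0 + p2 = 2 * p1 ∧ (p2 : ℤ) ≤ 16 * B t := by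
    intro z
    have a0 := sumD_bd 0 z
    have a1 := sumD_bd 1 z
    have a2 := sumD_bd 2 z
    have e0 : pos (0, z) = ∑ i ∈ range t, D 0 (ext z i) * Q i := by simp [pos]
    have e1 : pos (1, z) = 6 * B t + ∑ i ∈ range t, D 1 (ext z i) * Q i := by simp [pos]
    have e2 : pos (2, z) = 12 * B t + ∑ i ∈ range t, D 2 (ext z i) * Q i := by
      simp [pos]; ring
    have hm := pos_mid z
    refine ⟨(pos (0, z)).toNat, (pos (1, z)).toNat, (pos (2, z)).toNat, ?_, ?_, ?_, ?_, ?_, ?_⟩ <;>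
      omega
  choose p0 p1 p2 q0 q1 q2 r1 r2 r3 using key
  refine ⟨16 * t * 3 ^ t, b t, univ.image fun z : Fin t → Fin 6 =>
    (2 * (p1 z - p0 z), cnt (b t) (2 * p0 z) (2 * p1 z)), le_rfl, ?_, ?_⟩
  · rw [card_image_of_injective]
    · simp
    intro z z' hz
    simp only [Prod.mk.injEq] at hz
    obtain ⟨a1, a2⟩ := hz
    have b1 := cnt_b (t := t) _ _ (r1 z).le
    have b2 := cnt_b (t := t) _ _ (r1 z').le
    rw [h_pos _ _ (q0 _), h_pos _ _ (q1 _)] at b1 b2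
    have := r1 z
    have := r1 z'
    have := q0 z
    have := q0 z'
    have := q1 z
    have := q1 z'
    apply inj_z <;> omega
  · intro p hp
    obtain ⟨z, -, rfl⟩ := mem_image.1 hp
    have := r1 z
    have := r2 z
    have := r3 z
    refine ⟨2 * p0 z, by simp only; omega, ?_, ?_, ?_⟩
    · have : ((2 * p2 z : ℕ) : ℤ) ≤ (16 * t * 3 ^ t : ℕ) := by push_cast; nlinarith
      simp only
      omega
    · simp only
      congr 1; omega
    · simp only
      rw [show 2 * p0 z + 2 * (p1 z - p0 z) = 2 * p1 z by omega,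
        show 2 * p0 z + 2 * (2 * (p1 z - p0 z)) = 2 * p2 z by omega]
      have b1 := cnt_b (t := t) _ _ (r1 z).le
      have b2 := cnt_b (t := t) (p1 z) (p2 z) (by omega)
      rw [h_pos _ _ (q0 _), h_pos _ _ (q1 _)] at b1
      rw [h_pos _ _ (q1 _), h_pos _ _ (q2 _)] at b2
      have := val_mid z
      omega

lemma exists_t (C : ℝ) : ∃ t : ℕ, 1 ≤ t ∧ ∀ n : ℕ, n ≤ 16 * t * 3 ^ t →
    C * (n : ℝ) ^ ((3 : ℝ) / 2) < (6 ^ t : ℕ) := by
  have h1 := tendsto_pow_const_div_const_pow_of_one_lt 3 (r := (4 / 3 : ℝ)) (by norm_num)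
  have h2 := (h1.const_mul (C ^ 2 * 4096)).eventually (gt_mem_nhds (show C ^ 2 * 4096 * 0 < 1 by simp))
  obtain ⟨t, ht1, ht2⟩ := (h2.and (Filter.eventually_ge_atTop 1)).exists
  refine ⟨t, ht2, fun n hn => ?_⟩
  have hn' : (n : ℝ) ≤ 16 * t * 3 ^ t := by exact_mod_cast hn
  apply lt_of_pow_lt_pow_left₀ 2 (by positivity)
  rw [mul_pow, ← Real.rpow_natCast ((n : ℝ) ^ ((3 : ℝ) / 2)), ← Real.rpow_mul (by positivity)]
  have e : (3 : ℝ) / 2 * ((2 : ℕ) : ℝ) = ((3 : ℕ) : ℝ) := by norm_num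
  rw [e, Real.rpow_natCast]
  have h4 : (n : ℝ) ^ 3 ≤ (16 * t * 3 ^ t) ^ 3 := by gcongr
  rw [← mul_div_assoc, div_lt_one (by positivity)] at ht1
  have h5 : ((6 ^ t : ℕ) : ℝ) ^ 2 = (4 / 3) ^ t * (3 ^ t) ^ 3 := by
    push_cast
    rw [← pow_mul, ← pow_mul, mul_comm t 2, mul_comm t 3, pow_mul, pow_mul, ← mul_pow]
    norm_num
  rw [h5]
  have h6 : (0 : ℝ) < (3 ^ t) ^ 3 := by positivity
  calc C ^ 2 * (n : ℝ) ^ 3 ≤ C ^ 2 * (16 * t * 3 ^ t) ^ 3 := by gcongr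
    _ = (C ^ 2 * 4096 * (t : ℝ) ^ 3) * (3 ^ t) ^ 3 := by ring
    _ < _ := by gcongr

end Pool.Agent.H6.AbSq
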