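import Mathlib

namespace Pool.Agent.H6.UpperDens

open Filter

/-- The natural upper density `limsup |A ∩ {1, ..., N}| / N`. -/
noncomputable def upperDensity (A : Set ℕ) : ℝ :=
  limsup (fun N : ℕ => ((A ∩ Set.Icc 1 N).ncard : ℝ) / N) atTop

end Pool.Agent.H6.UpperDens
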