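import Mathlib
import Pool.Agent.H6.UpperDensDefs

namespace Pool.Agent.H6.UpperDens

open Filter Finset Topology

lemma le_upperDensity (A : Set ℕ) (c : ℝ)
    (h : ∀ M : ℕ, ∃ N ≥ M, c ≤ ((A ∩ Set.Icc 1 N).ncard : ℝ) / N) : c ≤ upperDensity A := by
  refine le_limsup_of_frequently_le (frequently_atTop.2 h) ⟨1, ?_⟩
  refine eventually_map.2 (Eventually.of_forall fun N => ?_)
  have : (A ∩ Set.Icc 1 N).ncard ≤ N := by
    have h1 := Set.ncard_le_ncard (Set.inter_subset_right (s := A) (t := Set.Icc 1 N))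
      (Set.finite_Icc _ _)
    simpa using h1
  rcases Nat.eq_zero_or_pos N with rfl | hN
  · simp
  · show ((A ∩ Set.Icc 1 N).ncard : ℝ) / N ≤ 1
    rw [div_le_one (by exact_mod_cast hN)]; exact_mod_cast this

/-- the set avoiding `x, 2x, 3x` -/
def A0 : Set ℕ := {n | ∃ j : ℕ, 21 * 6 ^ j ≤ 10 * n ∧ n ≤ 6 ^ (j + 1)}

lemma gap {n j : ℕ} (hn : n ∈ A0) (h : 6 ^ (j + 1) < n) : 21 * 6 ^ (j + 1) ≤ 10 * n := by
  obtain ⟨i, h1, h2⟩ := hn
  have : j + 1 < i + 1 := (Nat.pow_lt_pow_iff_right (by norm_num)).1 (h.trans_le h2)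
  have : 6 ^ (j + 1) ≤ 6 ^ i := Nat.pow_le_pow_right (by norm_num) (by omega)
  omega

lemma avoid (c t b : ℕ) (hb : 1000 * (c + t + 1) ≤ b) (h1 : 2 * c + b + t ∈ A0)
    (h2 : 2 * b + c + t ∈ A0) (h3 : 2 * b + b + t ∈ A0) : False := by
  obtain ⟨j, j1, j2⟩ := h1
  have g3 := gap (j := j) h3
  have g2 := gap (j := j) h2
  rw [pow_succ] at *
  generalize 6 ^ j = X at *
  omega

lemma no_sumset (B : Set ℕ) (hB : B.Infinite) (t : ℕ) :
    ¬ ∀ b₁ ∈ B, ∀ b₂ ∈ B, 2 * b₁ + 1 * b₂ + t ∈ A0 := by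
  intro h
  obtain ⟨c, hc⟩ := hB.nonempty
  obtain ⟨b, hb, hlt⟩ := hB.exists_gt (1000 * (c + t + 1))
  simp only [one_mul] at h
  exact avoid c t b hlt.le (h c hc b hb) (h b hb c hc) (h b hb b hb)

lemma mem_A0 {J n : ℕ} (h1 : 21 * 6 ^ J ≤ 10 * n) (h2 : n ≤ 6 ^ (J + 2))
    (h3 : ¬ (6 ^ (J + 1) < n ∧ 10 * n < 21 * 6 ^ (J + 1))) : n ∈ A0 := by
  by_cases h : n ≤ 6 ^ (J + 1)
  · exact ⟨J, h1, h⟩
  · exact ⟨J + 1, by omega, h2⟩

lemma ncard_ge (A : Set ℕ) (N : ℕ) (T : Finset ℕ) (h : ∀ n, 1 ≤ n → n ≤ N → n ∉ T → n ∈ A) :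
    N ≤ (A ∩ Set.Icc 1 N).ncard + T.card := by
  have hfin : (A ∩ Set.Icc 1 N).Finite := (Set.finite_Icc _ _).subset Set.inter_subset_right
  have hsub : Set.Icc 1 N ⊆ (A ∩ Set.Icc 1 N) ∪ (T : Set ℕ) := by
    intro n hn
    by_cases hT : n ∈ T
    · exact Or.inr hT
    · exact Or.inl ⟨h n hn.1 hn.2 hT, hn⟩
  have h1 := Set.ncard_le_ncard hsub (hfin.union T.finite_toSet)
  have h2 := Set.ncard_union_le (A ∩ Set.Icc 1 N) (T : Set ℕ)
  simp only [Set.ncard_Icc_nat, Set.ncard_coe_finset] at h1 h2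
  omega

lemma six_pow_ge (M : ℕ) : M ≤ 6 ^ M := (Nat.lt_pow_self (by norm_num)).le

lemma dens1 : (3 / 4 : ℝ) < upperDensity A0 := by
  refine lt_of_lt_of_le (b := 755 / 1000) (by norm_num) (le_upperDensity _ _ fun M => ?_)
  set J := M + 1000 with hJ
  have hX : J ≤ 6 ^ J := six_pow_ge J
  refine ⟨6 ^ (J + 2), by rw [pow_add]; omega, ?_⟩
  have := ncard_ge A0 (6 ^ (J + 2)) (range (21 * 6 ^ J / 10 + 1) ∪
    Ioc (6 ^ (J + 1)) (21 * 6 ^ (J + 1) / 10)) (by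
      intro n h1 h2 h3
      simp only [mem_union, mem_range, mem_Ioc, not_or] at h3
      exact mem_A0 (by omega) h2 (by omega))
  have h2 := card_union_le (range (21 * 6 ^ J / 10 + 1))
    (Ioc (6 ^ (J + 1)) (21 * 6 ^ (J + 1) / 10))
  simp only [card_range, Nat.card_Ioc] at h2
  rw [le_div_iff₀ (by positivity)]
  have h3 : 755 * 6 ^ (J + 2) ≤ 1000 * (A0 ∩ Set.Icc 1 (6 ^ (J + 2))).ncard := by
    generalize (A0 ∩ Set.Icc 1 (6 ^ (J + 2))).ncard = K at *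
    generalize (range (21 * 6 ^ J / 10 + 1) ∪
      Ioc (6 ^ (J + 1)) (21 * 6 ^ (J + 1) / 10)).card = L at *
    simp only [pow_succ] at *
    generalize 6 ^ J = X at *
    omega
  have h4 : (755 : ℝ) * (6 ^ (J + 2) : ℕ) ≤ 1000 * (A0 ∩ Set.Icc 1 (6 ^ (J + 2))).ncard := by
    exact_mod_cast h3
  linarith

def A1 : Set ℕ := A0 ∪ {n | n % 3 ≠ 0}

lemma no_sumset1 (B : Set ℕ) (hB : B.Infinite) :
    ¬ ∀ b₁ ∈ B, ∀ b₂ ∈ B, 2 * b₁ + 1 * b₂ ∈ A1 := by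
  intro h
  have : ∃ r, (B ∩ {n | n % 3 = r}).Infinite := by
    by_contra hne
    simp only [not_exists, Set.not_infinite] at hne
    refine hB (((hne 0).union ((hne 1).union (hne 2))).subset ?_)
    intro n hn
    simp only [Set.mem_union, Set.mem_inter_iff, hn, true_and, Set.mem_ofPred_eq]
    omega
  obtain ⟨r, hr⟩ := this
  refine no_sumset _ hr 0 ?_
  rintro b₁ ⟨h1, e1⟩ b₂ ⟨h2, e2⟩
  rcases h b₁ h1 b₂ h2 with h3 | h3
  · simpa using h3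
  · simp only [Set.mem_ofPred_eq] at e1 e2 h3
    omega

lemma dens2 : (11 / 12 : ℝ) < upperDensity A1 := by
  refine lt_of_lt_of_le (b := 918 / 1000) (by norm_num) (le_upperDensity _ _ fun M => ?_)
  set J := M + 1000 with hJ
  have hX : J ≤ 6 ^ J := six_pow_ge J
  refine ⟨6 ^ (J + 2), by rw [pow_add]; omega, ?_⟩
  have := ncard_ge A1 (6 ^ (J + 2)) ((range (7 * 6 ^ J / 10 + 1) ∪
    Ioc (2 * 6 ^ J) (42 * 6 ^ J / 10)).image (fun x => 3 * x)) (by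
      intro n h1 h2 h3
      by_cases h4 : n % 3 = 0
      · left
        have h5 : n / 3 ∉ range (7 * 6 ^ J / 10 + 1) ∪ Ioc (2 * 6 ^ J) (42 * 6 ^ J / 10) := by
          intro h5
          exact h3 (mem_image.2 ⟨_, h5, by omega⟩)
        simp only [mem_union, mem_range, mem_Ioc, not_or] at h5
        refine mem_A0 (by omega) h2 ?_
        rw [pow_succ]
        omega
      · exact Or.inr h4)
  have h2 := (card_image_le (f := fun x => 3 * x)).trans (card_union_le (range (7 * 6 ^ J / 10 + 1))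
    (Ioc (2 * 6 ^ J) (42 * 6 ^ J / 10)))
  simp only [card_range, Nat.card_Ioc] at h2
  rw [le_div_iff₀ (by positivity)]
  have h3 : 918 * 6 ^ (J + 2) ≤ 1000 * (A1 ∩ Set.Icc 1 (6 ^ (J + 2))).ncard := by
    generalize (A1 ∩ Set.Icc 1 (6 ^ (J + 2))).ncard = K at *
    generalize ((range (7 * 6 ^ J / 10 + 1) ∪
      Ioc (2 * 6 ^ J) (42 * 6 ^ J / 10)).image (fun x => 3 * x)).card = L at *
    simp only [pow_succ] at *
    generalize 6 ^ J = X at *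
    omega
  have h4 : (918 : ℝ) * (6 ^ (J + 2) : ℕ) ≤ 1000 * (A1 ∩ Set.Icc 1 (6 ^ (J + 2))).ncard := by
    exact_mod_cast h3
  linarith

lemma zero_A0 : 0 ∉ A0 := by
  rintro ⟨j, h, -⟩
  have : 0 < 6 ^ j := by positivity
  omega

lemma zero_A1 : 0 ∉ A1 := by
  rintro (h | h)
  · exact zero_A0 h
  · simp at h

end Pool.Agent.H6.UpperDens
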