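import Mathlib

namespace Pool.Agent.H6.CEx
open Finset SimpleGraph Function
open scoped Classical

variable {V : Type}

/-- The complete `(r+1)`-partite graph `K_{1,6,…,6}`. -/
def F2 (r : ℕ) : SimpleGraph (Option (Fin r × Fin 6)) where
  Adj x y := x.map Prod.fst ≠ y.map Prod.fst
  symm := ⟨fun _ _ h => h.symm⟩
  loopless := ⟨fun _ h => h rfl⟩

/-- `k` disjoint copies of `K_{r+1}`. -/
def KK (r k : ℕ) : SimpleGraph (Fin k × Option (Fin r)) where
  Adj x y := x.1 = y.1 ∧ x.2 ≠ y.2
  symm := ⟨fun _ _ h => ⟨h.1.symm, h.2.symm⟩⟩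
  loopless := ⟨fun _ h => h.2 rfl⟩

def FF (r k : ℕ) : SimpleGraph (Option (Fin r × Fin 6) ⊕ Fin k × Option (Fin r)) :=
  (F2 r).sum (KK r k)

noncomputable def nb [Fintype V] (G : SimpleGraph V) (v : V) : Finset V := univ.filter (G.Adj v)

@[simp] lemma mem_nb [Fintype V] {G : SimpleGraph V} {v w : V} : w ∈ nb G v ↔ G.Adj v w := by
  simp [nb]

lemma grow [Fintype V] (G : SimpleGraph V) {r : ℕ} (s b : ℕ) (R : Fin r → Finset V) (l : Fin r)
    (hl : s ≤ (R l).card)
    (hb : ∀ i j, i ≠ j → j ≠ l → ∀ x ∈ R i, (R j \ nb G x).card ≤ b)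
    (hR : ∀ j, j ≠ l → s * r * b + s ≤ (R j).card) :
    ∃ Y : Fin r → Finset V, (∀ j, Y j ⊆ R j ∧ (Y j).card = s) ∧
      ∀ i j, i ≠ j → ∀ x ∈ Y i, ∀ y ∈ Y j, G.Adj x y := by
  have key : ∀ J : Finset (Fin r), l ∉ J → ∃ Y : Fin r → Finset V,
      (∀ j ∈ insert l J, Y j ⊆ R j ∧ (Y j).card = s) ∧
      ∀ i ∈ insert l J, ∀ j ∈ insert l J, i ≠ j → ∀ x ∈ Y i, ∀ y ∈ Y j, G.Adj x y := by
    intro J
    induction J using Finset.induction_on with
    | empty =>
      intro _
      obtain ⟨Y0, h1, h2⟩ := Finset.exists_subset_card_eq hl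
      refine ⟨fun _ => Y0, ?_, ?_⟩
      · intro j hj
        simp only [insert_empty_eq, mem_singleton] at hj
        subst hj; exact ⟨h1, h2⟩
      · intro i hi j hj hij
        simp only [insert_empty_eq, mem_singleton] at hi hj
        exact absurd (hi.trans hj.symm) hij
    | insert j J hj ih =>
      intro hlJ
      have hlj : j ≠ l := fun h => hlJ (h ▸ mem_insert_self _ _)
      have hl' : l ∉ J := fun h => hlJ (mem_insert_of_mem h)
      obtain ⟨Y, hY1, hY2⟩ := ih hl'
      have hjn : j ∉ insert l J := by simp [hlj, hj]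
      set Bad := (insert l J).biUnion (fun i => (Y i).biUnion (fun x => R j \ nb G x)) with hBad
      have hBc : Bad.card ≤ s * r * b := by
        calc Bad.card ≤ ∑ i ∈ insert l J, ((Y i).biUnion (fun x => R j \ nb G x)).card :=
              card_biUnion_le
          _ ≤ ∑ i ∈ insert l J, s * b := by
              refine sum_le_sum fun i hi => ?_
              calc _ ≤ ∑ x ∈ Y i, (R j \ nb G x).card := card_biUnion_le
                _ ≤ ∑ x ∈ Y i, b := sum_le_sum fun x hx =>
                    hb i j (fun h => hjn (h ▸ hi)) hlj x ((hY1 i hi).1 hx)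
                _ = s * b := by rw [sum_const, (hY1 i hi).2, smul_eq_mul]
          _ = (insert l J).card * (s * b) := by rw [sum_const, smul_eq_mul]
          _ ≤ r * (s * b) := Nat.mul_le_mul_right _ (by simpa using card_le_univ (insert l J))
          _ = s * r * b := by ring
      have hs : s ≤ (R j \ Bad).card := by
        have h1 := hR j hlj
        have h2 := le_card_sdiff Bad (R j)
        omega
      obtain ⟨Y', h1, h2⟩ := Finset.exists_subset_card_eq hs
      have hadj : ∀ i ∈ insert l J, ∀ x ∈ Y i, ∀ y ∈ Y', G.Adj x y := by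
        intro i hi x hx y hy
        have hy' := mem_sdiff.1 (h1 hy)
        by_contra hn
        exact hy'.2 (mem_biUnion.2 ⟨i, hi, mem_biUnion.2 ⟨x, hx, mem_sdiff.2 ⟨hy'.1, by simpa using hn⟩⟩⟩)
      have hmem : ∀ i, i ∈ insert l (insert j J) → i = j ∨ i ∈ insert l J := by
        intro i hi
        simp only [mem_insert] at hi ⊢
        tauto
      refine ⟨Function.update Y j Y', ?_, ?_⟩
      · intro i hi
        by_cases hij : i = j
        · subst hij
          rw [update_self]
          exact ⟨h1.trans sdiff_subset, h2⟩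
        · rw [update_of_ne hij]
          exact hY1 i ((hmem i hi).resolve_left hij)
      · intro i hi i' hi' hne x hx y hy
        by_cases hij : i = j
        · have hij' : i' ≠ j := fun h => hne (hij.trans h.symm)
          subst hij
          rw [update_self] at hx
          rw [update_of_ne hij'] at hy
          exact (hadj i' ((hmem i' hi').resolve_left hij') y hy x hx).symm
        · rw [update_of_ne hij] at hx
          by_cases hij' : i' = j
          · subst hij'
            rw [update_self] at hy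
            exact hadj i ((hmem i hi).resolve_left hij) x hx y hy
          · rw [update_of_ne hij'] at hy
            exact hY2 i ((hmem i hi).resolve_left hij) i' ((hmem i' hi').resolve_left hij') hne x hx y hy
  obtain ⟨Y, h1, h2⟩ := key (univ.erase l) (by simp)
  have hm : ∀ i, i ∈ insert l (univ.erase l) := by
    intro i; by_cases h : i = l <;> simp [h]
  exact ⟨Y, fun j => h1 j (hm j), fun i j hij => h2 i (hm i) j (hm j) hij⟩

/-- `g` is a complete `r`-partite graph with parts of size `s` in the neighbourhood of `u`. -/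
def IsCone (G : SimpleGraph V) (r s : ℕ) (u : V) (g : Fin r × Fin s → V) : Prop :=
  Injective g ∧ (∀ p, G.Adj u (g p)) ∧ ∀ p q, p.1 ≠ q.1 → G.Adj (g p) (g q)

lemma cone_of [Fintype V] (G : SimpleGraph V) {r : ℕ} (s b : ℕ) (u : V) (S : Finset V)
    (R : Fin r → Finset V) (l : Fin r)
    (hl : s ≤ ((nb G u ∩ R l) \ S).card)
    (hb : ∀ i j, i ≠ j → j ≠ l → ∀ x ∈ R i, (R j \ nb G x).card ≤ b)
    (hR : ∀ j, j ≠ l → s * r * b + s + S.card ≤ (nb G u ∩ R j).card) :
    ∃ g, IsCone G r s u g ∧ ∀ p, g p ∉ S := by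
  obtain ⟨Y, h1, h2⟩ := grow G s b (fun j => (nb G u ∩ R j) \ S) l hl
    (by
      intro i j hij hj x hx
      refine le_trans (card_le_card ?_) (hb i j hij hj x (mem_inter.1 (mem_sdiff.1 hx).1).2)
      exact sdiff_subset_sdiff (sdiff_subset.trans inter_subset_right) subset_rfl)
    (by
      intro j hj
      have h1 := hR j hj
      have h2 := le_card_sdiff S (nb G u ∩ R j)
      omega)
  let e : ∀ j, Fin s ≃ Y j := fun j => ((Y j).equivFinOfCardEq (h1 j).2).symm
  have hm : ∀ p : Fin r × Fin s, (e p.1 p.2 : V) ∈ (nb G u ∩ R p.1) \ S :=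
    fun p => (h1 p.1).1 (e p.1 p.2).2
  have hadj : ∀ p q : Fin r × Fin s, p.1 ≠ q.1 → G.Adj (e p.1 p.2 : V) (e q.1 q.2 : V) :=
    fun p q h => h2 _ _ h _ (e p.1 p.2).2 _ (e q.1 q.2).2
  refine ⟨fun p => (e p.1 p.2 : V), ⟨?_, ?_, hadj⟩, fun p => (mem_sdiff.1 (hm p)).2⟩
  · rintro ⟨i, a⟩ ⟨j, c⟩ h
    by_cases hij : i = j
    · subst hij
      have : e i a = e i c := Subtype.ext h
      rw [(e i).injective this]
    · exact absurd h (hadj (i, a) (j, c) hij).ne
  · intro p
    simpa using (mem_inter.1 (mem_sdiff.1 (hm p)).1).1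

lemma pick {β : Type} [Fintype β] (N : ℕ) (P : Fin N → (β → V) → Prop) (S0 : Finset V)
    (h : ∀ i (S : Finset V), S.card ≤ S0.card + N * Fintype.card β → ∃ g, P i g ∧ ∀ b, g b ∉ S) :
    ∃ g : Fin N → β → V, (∀ i, P i (g i) ∧ ∀ b, g i b ∉ S0) ∧
      ∀ i j, i ≠ j → ∀ b b', g i b ≠ g j b' := by
  have key : ∀ J : Finset (Fin N), ∃ g : Fin N → β → V, (∀ i, P i (g i) ∧ ∀ b, g i b ∉ S0) ∧
      ∀ i ∈ J, ∀ j ∈ J, i ≠ j → ∀ b b', g i b ≠ g j b' := by
    intro J
    induction J using Finset.induction_on with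
    | empty =>
      choose g hg using fun i => h i S0 (by omega)
      exact ⟨g, hg, by simp⟩
    | insert j J hj ih =>
      obtain ⟨g, h1, h2⟩ := ih
      have hc : (S0 ∪ J.biUnion (fun i => univ.image (g i))).card ≤ S0.card + N * Fintype.card β := by
        refine (card_union_le _ _).trans (Nat.add_le_add_left ?_ _)
        calc _ ≤ ∑ i ∈ J, (univ.image (g i)).card := card_biUnion_le
          _ ≤ ∑ i ∈ J, Fintype.card β := sum_le_sum fun i _ => card_image_le.trans (by simp)
          _ = J.card * Fintype.card β := by rw [sum_const, smul_eq_mul]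
          _ ≤ N * Fintype.card β := Nat.mul_le_mul_right _ (by simpa using card_le_univ J)
      obtain ⟨g', hP, hS⟩ := h j _ hc
      have hne : ∀ i ∈ J, ∀ b b', g i b ≠ g' b' := by
        intro i hi b b' he
        exact hS b' (mem_union_right _ (mem_biUnion.2 ⟨i, hi, mem_image.2 ⟨b, mem_univ _, he⟩⟩))
      refine ⟨Function.update g j g', ?_, ?_⟩
      · intro i
        by_cases hij : i = j
        · subst hij
          rw [update_self]
          exact ⟨hP, fun b hb => hS b (mem_union_left _ hb)⟩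
        · rw [update_of_ne hij]; exact h1 i
      · intro i hi i' hi' hii b b'
        by_cases hij : i = j
        · have hij' : i' ≠ j := fun h => hii (hij.trans h.symm)
          subst hij
          rw [update_self, update_of_ne hij']
          exact (hne i' ((mem_insert.1 hi').resolve_left hij') b' b).symm
        · rw [update_of_ne hij]
          by_cases hij' : i' = j
          · subst hij'
            rw [update_self]
            exact hne i ((mem_insert.1 hi).resolve_left hij) b b'
          · rw [update_of_ne hij']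
            exact h2 i ((mem_insert.1 hi).resolve_left hij) i' ((mem_insert.1 hi').resolve_left hij') hii b b'
  obtain ⟨g, h1, h2⟩ := key univ
  exact ⟨g, h1, fun i j hij => h2 i (mem_univ _) j (mem_univ _) hij⟩

lemma contF (G : SimpleGraph V) {r k : ℕ} (c0 : (F2 r).Copy G) (c : Fin k → Option (Fin r) → V)
    (hc : ∀ j x y, x ≠ y → G.Adj (c j x) (c j y)) (h0 : ∀ j x w, c j x ≠ c0 w)
    (h1 : ∀ i j, i ≠ j → ∀ x y, c i x ≠ c j y) : FF r k ⊑ G := by
  refine ⟨⟨⟨Sum.elim c0 (fun p => c p.1 p.2), ?_⟩, ?_⟩⟩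
  · rintro (x | x) (y | y) h
    · exact c0.toHom.map_adj (by simpa [FF] using h)
    · simp [FF] at h
    · simp [FF] at h
    · have h' : (KK r k).Adj x y := by simpa [FF] using h
      obtain ⟨i, a⟩ := x
      obtain ⟨j, b⟩ := y
      obtain ⟨h1, h2⟩ := h'
      simp only at h1 h2
      subst h1
      exact hc i a b h2
  · rintro (x | x) (y | y) h
    · exact congrArg _ (c0.injective h)
    · exact absurd h.symm (h0 _ _ _)
    · exact absurd h (h0 _ _ _)
    · obtain ⟨i, a⟩ := x
      obtain ⟨j, b⟩ := y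
      have h' : c i a = c j b := h
      by_cases hij : i = j
      · subst hij
        by_cases hab : a = b
        · rw [hab]
        · exact absurd h' (hc i a b hab).ne
      · exact absurd h' (h1 i j hij a b)

def coneCopy {G : SimpleGraph V} {r : ℕ} {u : V} {g : Fin r × Fin 6 → V} (h : IsCone G r 6 u g) :
    (F2 r).Copy G where
  toHom := ⟨fun x => x.elim u g, by
    rintro (_ | x) (_ | y) hxy
    · exact absurd rfl hxy
    · exact h.2.1 y
    · exact (h.2.1 x).symm
    · exact h.2.2 x y (by simpa [F2] using hxy)⟩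
  injective' := by
    rintro (_ | x) (_ | y) hxy
    · rfl
    · exact absurd hxy (h.2.1 y).ne
    · exact absurd hxy (h.2.1 x).ne'
    · exact congrArg _ (h.1 hxy)

lemma cone_clique {G : SimpleGraph V} {r s : ℕ} {u : V} {g : Fin r × Fin (s + 1) → V}
    (h : IsCone G r (s + 1) u g) (x y : Option (Fin r)) (hxy : x ≠ y) :
    G.Adj (x.elim u (fun i => g (i, 0))) (y.elim u (fun i => g (i, 0))) := by
  rcases x with _ | x <;> rcases y with _ | y
  · exact absurd rfl hxy
  · exact h.2.1 _
  · exact (h.2.1 _).symm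
  · exact h.2.2 _ _ (by simpa using hxy)

lemma pack (G : SimpleGraph V) {r k : ℕ} (hF : (FF r k).Free G) (A : Finset V)
    (h : ∀ u ∈ A, ∀ S : Finset V, S.card ≤ (k + 1) * (6 * r + 1) →
      ∃ g, IsCone G r 6 u g ∧ ∀ p, g p ∉ S) : A.card ≤ k := by
  by_contra hA
  obtain ⟨A', h1, h2⟩ := Finset.exists_subset_card_eq (show k + 1 ≤ A.card by omega)
  let e : Fin (k + 1) ≃ A' := (A'.equivFinOfCardEq h2).symm
  obtain ⟨g, hg1, hg2⟩ := pick (β := Fin r × Fin 6) (k + 1) (fun i g => IsCone G r 6 (e i) g) A'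
    (by
      intro i S hS
      refine h _ (h1 (e i).2) S (hS.trans (le_of_eq ?_))
      simp only [h2, Fintype.card_prod, Fintype.card_fin]
      ring)
  have he : ∀ i j, i ≠ j → (e i : V) ≠ e j := fun i j hij h => hij (e.injective (Subtype.ext h))
  have he' : ∀ i j p, (e i : V) ≠ g j p := fun i j p h => (hg1 j).2 p (h ▸ (e i).2)
  refine hF (contF G (coneCopy (hg1 0).1)
    (fun j x => x.elim (e j.succ : V) (fun i => g j.succ (i, 0)))
    (fun j x y hxy => cone_clique (s := 5) (hg1 j.succ).1 x y hxy) ?_ ?_)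
  · rintro j (_ | x) (_ | w)
    · exact he _ _ (Fin.succ_ne_zero j)
    · exact he' _ _ _
    · exact (he' _ _ _).symm
    · exact hg2 _ _ (Fin.succ_ne_zero j) _ _
  · rintro i j hij (_ | x) (_ | w)
    · exact he _ _ (by simpa using hij)
    · exact he' _ _ _
    · exact (he' _ _ _).symm
    · exact hg2 _ _ (by simpa using hij) _ _

lemma cover (G : SimpleGraph V) {r k : ℕ} (hF : (FF r k).Free G) (h2 : F2 r ⊑ G) :
    ∃ S : Finset V, S.card ≤ (k + 1) * (6 * r + 1) ∧
      ∀ c : Option (Fin r) → V, (∀ x y, x ≠ y → G.Adj (c x) (c y)) → ∃ x, c x ∈ S := by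
  by_contra hn
  push Not at hn
  obtain ⟨c0⟩ := h2
  obtain ⟨g, hg1, hg2⟩ := pick (β := Option (Fin r)) k
    (fun _ c => ∀ x y, x ≠ y → G.Adj (c x) (c y)) (univ.image c0)
    (by
      intro i S hS
      refine hn S (hS.trans ?_)
      have : (univ.image c0).card ≤ 6 * r + 1 := card_image_le.trans (by simp; omega)
      simp only [Fintype.card_option, Fintype.card_fin]
      nlinarith)
  exact hF (contF G c0 g (fun j => (hg1 j).1)
    (fun j x w h => (hg1 j).2 x (mem_image.2 ⟨w, mem_univ _, h.symm⟩)) hg2)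

end Pool.Agent.H6.CEx
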