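import Pool.Agent.H6.CExA

namespace Pool.Agent.H6.CEx
open Finset SimpleGraph Function
open scoped Classical

variable {V : Type}

lemma sd (A B : Finset V) : ((A \ B).card : ℝ) = A.card - (B ∩ A).card := by
  have := card_sdiff_add_card_inter A B
  rw [inter_comm] at this
  rw [← this]; push_cast; ring

lemma two [Fintype V] (A B C : Finset V) (h : Disjoint A B) :
    ((A \ C).card : ℝ) + (B \ C).card ≤ Fintype.card V - C.card := by
  have h1 : ((A \ C) ∪ (B \ C)).card = (A \ C).card + (B \ C).card :=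
    card_union_of_disjoint (h.mono sdiff_subset sdiff_subset)
  have h2 : ((A \ C) ∪ (B \ C)).card ≤ (univ \ C).card :=
    card_le_card (union_subset (sdiff_subset_sdiff (subset_univ _) subset_rfl)
      (sdiff_subset_sdiff (subset_univ _) subset_rfl))
  have h3 := sd univ C
  rw [inter_univ, card_univ] at h3
  rw [← h3]
  exact_mod_cast h1 ▸ h2

lemma own_sum [Fintype V] (G : SimpleGraph V) (U S : Finset V) (b : ℕ)
    (h1 : ∀ v ∈ U, (nb G v ∩ U).card ≤ b)
    (h2 : ∀ v ∈ U, ∀ w ∈ U, G.Adj v w → v ∈ S ∨ w ∈ S) :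
    ∑ v ∈ U, (nb G v ∩ U).card ≤ 2 * S.card * b := by
  have e1 : ∑ v ∈ U ∩ S, (nb G v ∩ U).card ≤ S.card * b := by
    calc _ ≤ ∑ v ∈ U ∩ S, b := sum_le_sum fun v hv => h1 v (mem_inter.1 hv).1
      _ = (U ∩ S).card * b := by rw [sum_const, smul_eq_mul]
      _ ≤ S.card * b := Nat.mul_le_mul_right _ (card_le_card inter_subset_right)
  have e2 : ∑ v ∈ U \ S, (nb G v ∩ U).card ≤ ∑ w ∈ U ∩ S, (nb G w ∩ U).card := by
    calc _ ≤ ∑ v ∈ U \ S, ((U ∩ S).bipartiteAbove G.Adj v).card := by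
          refine sum_le_sum fun v hv => card_le_card fun w hw => ?_
          have hw' := mem_inter.1 hw
          have ha : G.Adj v w := by simpa using hw'.1
          rw [mem_bipartiteAbove]
          exact ⟨mem_inter.2 ⟨hw'.2, (h2 v (mem_sdiff.1 hv).1 w hw'.2 ha).resolve_left (mem_sdiff.1 hv).2⟩, ha⟩
      _ = ∑ w ∈ U ∩ S, ((U \ S).bipartiteBelow G.Adj w).card :=
          sum_card_bipartiteAbove_eq_sum_card_bipartiteBelow _
      _ ≤ _ := by
          refine sum_le_sum fun w _ => card_le_card fun v hv => ?_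
          rw [mem_bipartiteBelow] at hv
          exact mem_inter.2 ⟨by simpa using hv.2.symm, (mem_sdiff.1 hv.1).1⟩
  have e3 := sum_inter_add_sum_sdiff U S (fun v => (nb G v ∩ U).card)
  have : 2 * S.card * b = S.card * b + S.card * b := by ring
  omega

lemma stage2 [Fintype V] (G : SimpleGraph V) {r k : ℕ} (hr : 0 < r) (hF : (FF r k).Free G)
    (n : ℝ) (hn : (Fintype.card V : ℝ) = n) (e : ℝ) (b f g : ℕ) (hf : f = (k + 1) * (6 * r + 1))
    (hg : g = f + 6)
    (hdeg : ∀ v, n - (nb G v).card ≤ n / r + 1 / 2)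
    (W : Fin r → Finset V)
    (hdis : ∀ i j, i ≠ j → Disjoint (W i) (W j))
    (hW : ∀ i, n / r - e ≤ (W i).card)
    (hown : ∀ i, ∀ x ∈ W i, (nb G x ∩ W i).card < g)
    (hD : ((univ \ univ.biUnion W).card : ℝ) ≤ e)
    (hb : e + g + 1 ≤ b)
    (hN : 2 * (e + (6 * r + 1) * b + g) + 1 ≤ n / r) :
    (∑ v, ((nb G v).card : ℝ) ≤ (1 - 1 / r) * n ^ 2 + 2 * n * k / r + 2 * r * f * b) ∨
    ((∑ v, ((nb G v).card : ℝ) ≤ (1 - 1 / r) * n ^ 2 + 5 * n) ∧
      ∀ v, ((nb G v).card : ℝ) ≤ n - n / r + e + 5) := by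
  have hrR : (0 : ℝ) < r := by exact_mod_cast hr
  have hn0 : 0 ≤ n := hn ▸ Nat.cast_nonneg _
  have he0 : 0 ≤ e := le_trans (Nat.cast_nonneg _) hD
  have hb0 : (0 : ℝ) ≤ b := Nat.cast_nonneg _
  have hg0 : (0 : ℝ) ≤ g := Nat.cast_nonneg _
  have hrb : (0 : ℝ) ≤ r * b := by positivity
  have hgf : (g : ℝ) = f + 6 := by rw [hg]; push_cast; ring
  set U : Fin r → Finset V := fun i => univ.filter (fun v => (nb G v ∩ W i).card < g) with hU
  set Z : Finset V := univ.filter (fun v => ∀ i, g ≤ (nb G v ∩ W i).card) with hZ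
  have mU : ∀ i v, v ∈ U i ↔ (nb G v ∩ W i).card < g := by simp [hU]
  have mZ : ∀ v, v ∈ Z ↔ ∀ i, g ≤ (nb G v ∩ W i).card := by simp [hZ]
  have T2 : ∀ v i j, i ≠ j → ((W i).card : ℝ) - (nb G v ∩ W i).card +
      ((W j).card - (nb G v ∩ W j).card) ≤ n / r + 1 / 2 := by
    intro v i j hij
    have := two (W i) (W j) (nb G v) (hdis i j hij)
    rw [sd, sd, hn] at this
    linarith [hdeg v]
  have P1 : ∀ i j, i ≠ j → ∀ v ∈ U i, (W j \ nb G v).card ≤ b := by
    intro i j hij v hv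
    have h1 : ((nb G v ∩ W i).card : ℝ) < g := by exact_mod_cast (mU i v).1 hv
    have h2 := T2 v i j hij
    have h3 := sd (W j) (nb G v)
    have : ((W j \ nb G v).card : ℝ) ≤ b := by linarith [hW i]
    exact_mod_cast this
  have P2 : ∀ i j, ∀ v ∈ U i, v ∈ U j → i = j := by
    intro i j v hi hj
    by_contra hij
    have h1 : ((nb G v ∩ W i).card : ℝ) < g := by exact_mod_cast (mU i v).1 hi
    have h2 : ((nb G v ∩ W j).card : ℝ) < g := by exact_mod_cast (mU j v).1 hj
    have h3 := T2 v i j hij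
    nlinarith [hW i, hW j]
  have WU : ∀ i, W i ⊆ U i := fun i x hx => (mU i x).2 (hown i x hx)
  have P3 : ∀ i, ∀ v ∈ U i, (nb G v ∩ U i).card ≤ b := by
    intro i v hv
    have h1 : nb G v ∩ U i ⊆ (nb G v ∩ W i) ∪ (univ \ univ.biUnion W) := by
      intro w hw
      have hw' := mem_inter.1 hw
      by_cases h : w ∈ univ.biUnion W
      · obtain ⟨j, -, hj⟩ := mem_biUnion.1 h
        have := P2 i j w hw'.2 (WU j hj)
        subst this
        exact mem_union_left _ (mem_inter.2 ⟨hw'.1, hj⟩)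
      · exact mem_union_right _ (mem_sdiff.2 ⟨mem_univ _, h⟩)
    have h2 : ((nb G v ∩ U i).card : ℝ) ≤ (nb G v ∩ W i).card + (univ \ univ.biUnion W).card := by
      exact_mod_cast (card_le_card h1).trans (card_union_le _ _)
    have h3 : ((nb G v ∩ W i).card : ℝ) < g := by exact_mod_cast (mU i v).1 hv
    have : ((nb G v ∩ U i).card : ℝ) ≤ b := by linarith
    exact_mod_cast this
  have P4 : ∀ i, ∀ v ∈ U i, ∀ s, s ≤ 6 → ∀ S : Finset V, S.card ≤ f →
      s ≤ ((nb G v ∩ U i) \ S).card → ∃ c, IsCone G r s v c ∧ ∀ p, c p ∉ S := by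
    intro i v hv s hs S hS h
    refine cone_of G s b v S (fun j => if j = i then U i else W j) i (by simpa using h) ?_ ?_
    · intro i' j hij hj x hx
      rw [if_neg hj]
      by_cases hi : i' = i
      · subst hi
        exact P1 i' j hij x (by simpa using hx)
      · exact P1 i' j hij x (WU i' (by simpa [hi] using hx))
    · intro j hj
      rw [if_neg hj]
      have h1 : ((W j \ nb G v).card : ℝ) ≤ b := by exact_mod_cast P1 i j (Ne.symm hj) v hv
      rw [sd] at h1
      have h2 : (s : ℝ) ≤ 6 := by exact_mod_cast hs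
      have h3 : (S.card : ℝ) ≤ f := by exact_mod_cast hS
      have h4 : (s : ℝ) * (r * b) ≤ 6 * (r * b) := mul_le_mul_of_nonneg_right h2 hrb
      have : ((s * r * b + s + S.card : ℕ) : ℝ) ≤ (nb G v ∩ W j).card := by
        push_cast
        nlinarith [hW j]
      exact_mod_cast this
  have P5 : ∀ u ∈ Z, ∀ S : Finset V, S.card ≤ f → ∃ c, IsCone G r 6 u c ∧ ∀ p, c p ∉ S := by
    intro u hu S hS
    obtain ⟨l, hl⟩ : ∃ l : Fin r, ∀ j, j ≠ l → 6 * r * b + g ≤ (nb G u ∩ W j).card := by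
      by_cases h : ∃ l, (nb G u ∩ W l).card < 6 * r * b + g
      · obtain ⟨l, hl⟩ := h
        refine ⟨l, fun j hj => ?_⟩
        by_contra hc
        have h1 : ((nb G u ∩ W l).card : ℝ) < 6 * r * b + g := by exact_mod_cast hl
        have h2 : ((nb G u ∩ W j).card : ℝ) < 6 * r * b + g := by exact_mod_cast not_le.1 hc
        have h3 := T2 u j l hj
        nlinarith [hW j, hW l]
      · push Not at h
        exact ⟨⟨0, hr⟩, fun j _ => h j⟩
    refine cone_of G 6 b u S W l ?_ (fun i j hij _ x hx => P1 i j hij x (WU i hx)) ?_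
    · have h1 := (mZ u).1 hu l
      have h2 := le_card_sdiff S (nb G u ∩ W l)
      omega
    · intro j hj
      have := hl j hj
      omega
  have hz : Z.card ≤ k := pack G hF Z (fun u hu S hS => P5 u hu S (hf ▸ hS))
  have hsplit : ∀ φ : V → ℝ, ∑ v, φ v = ∑ v ∈ Z, φ v + ∑ i, ∑ v ∈ U i, φ v := by
    intro φ
    have h1 : (univ : Finset V) = Z ∪ univ.biUnion U := by
      ext v
      simp only [mem_univ, mem_union, mem_biUnion, true_and, mU, mZ, true_iff]
      by_cases h : ∀ i, g ≤ (nb G v ∩ W i).card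
      · exact Or.inl h
      · push Not at h; exact Or.inr h
    have h2 : Disjoint Z (univ.biUnion U) := by
      rw [Finset.disjoint_left]
      intro v hv hv'
      obtain ⟨i, -, hi⟩ := mem_biUnion.1 hv'
      exact absurd ((mU i v).1 hi) (not_lt.2 ((mZ v).1 hv i))
    have h3 : ((univ : Finset (Fin r)) : Set (Fin r)).PairwiseDisjoint U := by
      intro i _ j _ hij
      exact Finset.disjoint_left.2 fun v hi hj => hij (P2 i j v hi hj)
    rw [h1, sum_union h2, sum_biUnion h3]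
  have hcard : n = Z.card + ∑ i, ((U i).card : ℝ) := by
    have := hsplit (fun _ => 1)
    simpa [hn] using this
  have P6 : ∀ i, ∀ v, ((nb G v).card : ℝ) ≤ n - (U i).card + (nb G v ∩ U i).card := by
    intro i v
    have h1 := two (U i) ∅ (nb G v) (by simp)
    rw [sd, hn] at h1
    simp only [empty_sdiff, card_empty, Nat.cast_zero] at h1
    linarith
  have hsum : ∑ v, ((nb G v).card : ℝ) ≤ (1 - 1 / r) * n ^ 2 + 2 * n * Z.card / r +
      ∑ i, ∑ v ∈ U i, ((nb G v ∩ U i).card : ℝ) := by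
    have h1 : ∑ v ∈ Z, ((nb G v).card : ℝ) ≤ Z.card * n := by
      calc _ ≤ ∑ v ∈ Z, n := sum_le_sum fun v _ => by
            rw [← hn]; exact_mod_cast card_le_univ _
        _ = _ := by rw [sum_const, nsmul_eq_mul]
    have h2 : ∀ i, ∑ v ∈ U i, ((nb G v).card : ℝ) ≤
        (U i).card * n - ((U i).card : ℝ) ^ 2 + ∑ v ∈ U i, ((nb G v ∩ U i).card : ℝ) := by
      intro i
      calc _ ≤ ∑ v ∈ U i, (n - (U i).card + (nb G v ∩ U i).card) := sum_le_sum fun v _ => P6 i v
        _ = _ := by rw [sum_add_distrib, sum_const, nsmul_eq_mul]; ring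
    have h3 : (∑ i, ((U i).card : ℝ)) ^ 2 ≤ r * ∑ i, ((U i).card : ℝ) ^ 2 := by
      simpa using sq_sum_le_card_mul_sum_sq (s := (univ : Finset (Fin r))) (f := fun i => ((U i).card : ℝ))
    have h4 : ∑ i, ∑ v ∈ U i, ((nb G v).card : ℝ) ≤ (∑ i, ((U i).card : ℝ)) * n -
        ∑ i, ((U i).card : ℝ) ^ 2 + ∑ i, ∑ v ∈ U i, ((nb G v ∩ U i).card : ℝ) := by
      rw [sum_mul, ← sum_sub_distrib, ← sum_add_distrib]
      exact sum_le_sum fun i _ => h2 i
    have h5 : (∑ i, ((U i).card : ℝ)) = n - Z.card := by linarith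
    rw [h5] at h3 h4
    have h6 : (n ^ 2 - 2 * n * Z.card) / r ≤ ∑ i, ((U i).card : ℝ) ^ 2 := by
      rw [div_le_iff₀ hrR]; nlinarith [sq_nonneg (Z.card : ℝ)]
    rw [hsplit]
    have : (1 - 1 / r) * n ^ 2 + 2 * n * Z.card / r = n ^ 2 - (n ^ 2 - 2 * n * Z.card) / r := by
      field_simp; ring
    rw [this]
    nlinarith
  by_cases h2 : F2 r ⊑ G
  · left
    obtain ⟨S, hS, hc⟩ := cover G hF h2
    rw [← hf] at hS
    have h3 : ∀ i, ∑ v ∈ U i, ((nb G v ∩ U i).card : ℝ) ≤ 2 * f * b := by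
      intro i
      have := own_sum G (U i) S b (P3 i) (by
        intro v hv w hw hvw
        by_contra hcon
        push Not at hcon
        obtain ⟨c, hc1, hc2⟩ := P4 i v hv 1 (by norm_num) S hS
          (card_pos.2 ⟨w, mem_sdiff.2 ⟨mem_inter.2 ⟨by simpa using hvw, hw⟩, hcon.2⟩⟩)
        obtain ⟨x, hx⟩ := hc _ (cone_clique (s := 0) hc1)
        rcases x with _ | x
        · exact hcon.1 hx
        · exact hc2 _ hx)
      have h' : ∑ v ∈ U i, (nb G v ∩ U i).card ≤ 2 * f * b :=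
        this.trans (Nat.mul_le_mul_right _ (Nat.mul_le_mul_left _ hS))
      exact_mod_cast h'
    have h4 : ∑ i, ∑ v ∈ U i, ((nb G v ∩ U i).card : ℝ) ≤ r * (2 * f * b) := by
      calc _ ≤ ∑ i : Fin r, (2 * f * b : ℝ) := sum_le_sum fun i _ => h3 i
        _ = _ := by simp
    have h5 : 2 * n * Z.card / r ≤ 2 * n * k / r := by
      gcongr
    nlinarith
  · right
    have hZ0 : Z = ∅ := by
      rw [eq_empty_iff_forall_notMem]
      intro u hu
      obtain ⟨c, hc, -⟩ := P5 u hu ∅ (by simp)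
      exact h2 ⟨coneCopy hc⟩
    have h5 : ∀ i, ∀ v ∈ U i, ((nb G v ∩ U i).card : ℝ) ≤ 5 := by
      intro i v hv
      by_contra hc
      have : 6 ≤ (nb G v ∩ U i).card := by
        have : (5 : ℝ) < (nb G v ∩ U i).card := not_le.1 hc
        exact_mod_cast this
      obtain ⟨c, hc, -⟩ := P4 i v hv 6 le_rfl ∅ (by simp) (by simpa using this)
      exact h2 ⟨coneCopy hc⟩
    constructor
    · have h6 : ∑ i, ∑ v ∈ U i, ((nb G v ∩ U i).card : ℝ) ≤ 5 * ∑ i, ((U i).card : ℝ) := by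
        rw [mul_sum]
        refine sum_le_sum fun i _ => ?_
        calc _ ≤ ∑ v ∈ U i, (5 : ℝ) := sum_le_sum (h5 i)
          _ = _ := by rw [sum_const, nsmul_eq_mul, mul_comm]
      rw [hZ0] at hsum hcard
      simp only [card_empty, Nat.cast_zero, mul_zero, zero_div, add_zero, zero_add] at hsum hcard
      linarith
    · intro v
      have hv : v ∉ Z := by simp [hZ0]
      rw [mZ] at hv
      push Not at hv
      obtain ⟨i, hi⟩ := hv
      have h7 := h5 i v ((mU i v).2 hi)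
      have h8 : ((W i).card : ℝ) ≤ (U i).card := by exact_mod_cast card_le_card (WU i)
      linarith [P6 i v, hW i]

end Pool.Agent.H6.CEx
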