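import Pool.Agent.H6.CExB

namespace Pool.Agent.H6.CEx
open Finset SimpleGraph Function
open scoped Classical

variable {V : Type}

lemma dbl [Fintype V] (G : SimpleGraph V) (U : Finset V) :
    ∑ v, ((U \ nb G v).card : ℝ) = ∑ u ∈ U, ((Fintype.card V : ℝ) - (nb G u).card) := by
  have h := sum_card_bipartiteAbove_eq_sum_card_bipartiteBelow (s := (univ : Finset V)) (t := U)
    (fun v u => ¬ G.Adj v u)
  have h1 : ∀ v, U.bipartiteAbove (fun v u => ¬ G.Adj v u) v = U \ nb G v := by
    intro v; ext u; simp [mem_bipartiteAbove]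
  have h2 : ∀ u, (univ : Finset V).bipartiteBelow (fun v u => ¬ G.Adj v u) u = univ \ nb G u := by
    intro u; ext v; simp [mem_bipartiteBelow, G.adj_comm]
  simp only [h1, h2] at h
  have h3 : ∑ v, ((U \ nb G v).card : ℝ) = ∑ u ∈ U, ((univ \ nb G u).card : ℝ) := by exact_mod_cast h
  rw [h3]
  refine sum_congr rfl fun u _ => ?_
  rw [sd, inter_univ, card_univ]

lemma stage1 [Fintype V] (G : SimpleGraph V) {r k : ℕ} (hr : 0 < r) (hF : (FF r k).Free G)
    (n : ℝ) (hn : (Fintype.card V : ℝ) = n) (L b0 T f g : ℕ) (hf : f = (k + 1) * (6 * r + 1))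
    (hg : g = f + 6) (hL : 0 < L) (hb0 : b0 = g * L) (hT : T = (6 * r + 1) * b0 + g)
    (hdeg : ∀ v, n - (nb G v).card ≤ n / r + 1 / 2)
    (φ : (completeEquipartiteGraph r T).Copy G) (C : ℝ)
    (hC : C = r * T + (T + b0) * k + k + r * (g + 1)) :
    ∃ W : Fin r → Finset V, (∀ i j, i ≠ j → Disjoint (W i) (W j)) ∧
      (∀ i, n / r - (n / L + C) ≤ (W i).card) ∧
      (∀ i, ∀ x ∈ W i, (nb G x ∩ W i).card < g) ∧
      ((univ \ univ.biUnion W).card : ℝ) ≤ n / L + C := by
  have hrR : (0 : ℝ) < r := by exact_mod_cast hr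
  have hLR : (0 : ℝ) < L := by exact_mod_cast hL
  have hn0 : 0 ≤ n := hn ▸ Nat.cast_nonneg _
  have hg1 : 0 < g := by omega
  have hb1 : 1 ≤ b0 := by rw [hb0]; exact Nat.mul_pos hg1 hL
  set U : Fin r → Finset V := fun j => univ.image (fun a : Fin T => φ (j, a)) with hU
  have cU : ∀ j, (U j).card = T := by
    intro j
    rw [hU, card_image_of_injective _ (fun a b h => by simpa using φ.injective h)]
    simp
  have aU : ∀ i j, i ≠ j → ∀ x ∈ U i, (U j \ nb G x) = ∅ := by
    intro i j hij x hx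
    obtain ⟨a, -, rfl⟩ := mem_image.1 hx
    rw [sdiff_eq_empty_iff_subset]
    intro y hy
    obtain ⟨c, -, rfl⟩ := mem_image.1 hy
    exact mem_nb.2 (φ.toHom.map_adj (v := (i, a)) (w := (j, c)) hij)
  have sU : ∀ j v, (U j \ nb G v).card + (nb G v ∩ U j).card = T := by
    intro j v
    rw [inter_comm, card_sdiff_add_card_inter, cU]
  set Full : Finset V := univ.filter (fun v => ∀ i, g ≤ (nb G v ∩ U i).card) with hFull
  have cFull : Full.card ≤ k := by
    refine pack G hF Full fun u hu S hS => ?_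
    have hu' : ∀ i, g ≤ (nb G u ∩ U i).card := by simpa [hFull] using hu
    refine cone_of G 6 0 u S U ⟨0, hr⟩ ?_ (fun i j hij _ x hx => by rw [aU i j hij x hx]; simp) ?_
    · have h1 := hu' ⟨0, hr⟩
      have h2 := le_card_sdiff S (nb G u ∩ U ⟨0, hr⟩)
      omega
    · intro j _
      have := hu' j
      omega
  set W0 : Fin r → Finset V := fun i => univ.filter
    (fun v => (nb G v ∩ U i).card < g ∧ ∀ j, j ≠ i → (U j \ nb G v).card ≤ b0) with hW0
  have mW0 : ∀ i v, v ∈ W0 i ↔ (nb G v ∩ U i).card < g ∧ ∀ j, j ≠ i → (U j \ nb G v).card ≤ b0 := by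
    simp [hW0]
  have dW0 : ∀ i j, i ≠ j → Disjoint (W0 i) (W0 j) := by
    intro i j hij
    refine Finset.disjoint_left.2 fun v hi hj => ?_
    have h1 := ((mW0 i v).1 hi).1
    have h2 := ((mW0 j v).1 hj).2 i hij
    have h3 := sU i v
    have : b0 ≤ (6 * r + 1) * b0 := Nat.le_mul_of_pos_left _ (by omega)
    omega
  set At : Finset V := univ \ univ.biUnion W0 with hAt
  have cAt : (At.card : ℝ) ≤ n / L + (r * T + (T + b0) * k) := by
    have h1 : ∑ v, ∑ j, ((U j \ nb G v).card : ℝ) ≤ T * n + r * T := by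
      rw [sum_comm]
      calc _ ≤ ∑ j : Fin r, (T * (n / r + 1 / 2) : ℝ) := by
            refine sum_le_sum fun j _ => ?_
            rw [dbl, hn]
            calc _ ≤ ∑ u ∈ U j, (n / r + 1 / 2 : ℝ) := sum_le_sum fun u _ => hdeg u
              _ = _ := by rw [sum_const, cU, nsmul_eq_mul]
        _ = T * n + r * T / 2 := by simp; field_simp
        _ ≤ _ := by have : (0 : ℝ) ≤ r * T := by positivity
                    linarith
    have h2 : ∀ v, ((T : ℝ) - g) + (if v ∈ At then (b0 : ℝ) else 0) -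
        (if v ∈ Full then ((T : ℝ) + b0) else 0) ≤ ∑ j, ((U j \ nb G v).card : ℝ) := by
      intro v
      have h0 : (0 : ℝ) ≤ ∑ j, ((U j \ nb G v).card : ℝ) := sum_nonneg fun _ _ => Nat.cast_nonneg _
      have hb : (0 : ℝ) ≤ b0 := Nat.cast_nonneg _
      have hg' : (0 : ℝ) ≤ g := Nat.cast_nonneg _
      by_cases hv : v ∈ Full
      · rw [if_pos hv]
        split_ifs <;> linarith
      · rw [if_neg hv]
        have hv' : ∃ i, (nb G v ∩ U i).card < g := by simpa [hFull] using hv
        obtain ⟨i, hi⟩ := hv'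
        have e1 : (T : ℝ) - g ≤ (U i \ nb G v).card := by
          have := sU i v
          have : T ≤ (U i \ nb G v).card + g := by omega
          have : (T : ℝ) ≤ (U i \ nb G v).card + g := by exact_mod_cast this
          linarith
        split_ifs with ha
        · have hni : v ∉ W0 i := fun h =>
            (mem_sdiff.1 ha).2 (mem_biUnion.2 ⟨i, mem_univ _, h⟩)
          rw [mW0] at hni
          push Not at hni
          obtain ⟨j, hj, hj'⟩ := hni hi
          have e2 : (b0 : ℝ) ≤ (U j \ nb G v).card := by exact_mod_cast hj'.le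
          have e3 : ∑ j' ∈ ({i, j} : Finset (Fin r)), ((U j' \ nb G v).card : ℝ) ≤
              ∑ j, ((U j \ nb G v).card : ℝ) :=
            sum_le_sum_of_subset_of_nonneg (subset_univ _) fun _ _ _ => Nat.cast_nonneg _
          rw [sum_pair hj.symm] at e3
          linarith
        · have e3 := single_le_sum (f := fun j => ((U j \ nb G v).card : ℝ))
            (fun _ _ => Nat.cast_nonneg _) (mem_univ i)
          linarith
    have h3 := sum_le_sum (s := univ) fun v _ => h2 v
    rw [sum_sub_distrib, sum_add_distrib, sum_ite_mem, sum_ite_mem, univ_inter, univ_inter,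
      sum_const, sum_const, sum_const, card_univ, nsmul_eq_mul, nsmul_eq_mul, nsmul_eq_mul, hn] at h3
    have h4 : (Full.card : ℝ) * (T + b0) ≤ k * (T + b0) := by
      gcongr
    have hbR : (b0 : ℝ) = g * L := by rw [hb0]; push_cast; ring
    have hb1R : (1 : ℝ) ≤ b0 := by exact_mod_cast hb1
    have h5 : (At.card : ℝ) * b0 ≤ g * n + (r * T + (T + b0) * k) := by linarith
    have h6 : (0 : ℝ) ≤ r * T + (T + b0) * k := by positivity
    have h7 : (g : ℝ) * n = n / L * b0 := by rw [hbR]; field_simp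
    have h8 : (At.card : ℝ) * b0 ≤ (n / L + (r * T + (T + b0) * k)) * b0 := by nlinarith
    exact le_of_mul_le_mul_right h8 (by linarith)
  set Big : Finset V := univ.filter (fun x => ∃ i, x ∈ W0 i ∧ g ≤ (nb G x ∩ W0 i).card) with hBig
  have cBig : Big.card ≤ k := by
    refine pack G hF Big fun u hu S hS => ?_
    obtain ⟨i, hi, hi'⟩ : ∃ i, u ∈ W0 i ∧ g ≤ (nb G u ∩ W0 i).card := by simpa [hBig] using hu
    refine cone_of G 6 b0 u S (fun j => if j = i then W0 i else U j) i ?_ ?_ ?_
    · have h2 := le_card_sdiff S (nb G u ∩ W0 i)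
      rw [if_pos rfl]
      omega
    · intro i' j hij hj x hx
      rw [if_neg hj]
      by_cases hi : i' = i
      · subst hi
        exact ((mW0 i' x).1 (by simpa using hx)).2 j hj
      · rw [aU i' j hij x (by simpa [hi] using hx)]; simp
    · intro j hj
      rw [if_neg hj]
      have h1 := ((mW0 i u).1 hi).2 j hj
      have h2 := sU j u
      have : (6 * r + 1) * b0 = 6 * r * b0 + b0 := by ring
      omega
  have hown : ∀ i, ∀ x ∈ W0 i \ Big, (nb G x ∩ (W0 i \ Big)).card < g := by
    intro i x hx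
    have hx' := mem_sdiff.1 hx
    have : (nb G x ∩ W0 i).card < g := by
      by_contra hc
      exact hx'.2 (by simp only [hBig, mem_filter, mem_univ, true_and]; exact ⟨i, hx'.1, not_lt.1 hc⟩)
    exact lt_of_le_of_lt (card_le_card (inter_subset_inter subset_rfl sdiff_subset)) this
  have hdis : ∀ i j, i ≠ j → Disjoint (W0 i \ Big) (W0 j \ Big) :=
    fun i j hij => (dW0 i j hij).mono sdiff_subset sdiff_subset
  have hD : ((univ \ univ.biUnion (fun i => W0 i \ Big)).card : ℝ) ≤
      n / L + (r * T + (T + b0) * k) + k := by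
    have h1 : univ \ univ.biUnion (fun i => W0 i \ Big) ⊆ At ∪ Big := by
      intro v hv
      by_cases hb : v ∈ Big
      · exact mem_union_right _ hb
      · refine mem_union_left _ (mem_sdiff.2 ⟨mem_univ _, fun h => (mem_sdiff.1 hv).2 ?_⟩)
        obtain ⟨i, -, hi⟩ := mem_biUnion.1 h
        exact mem_biUnion.2 ⟨i, mem_univ _, mem_sdiff.2 ⟨hi, hb⟩⟩
    have h2 : ((univ \ univ.biUnion (fun i => W0 i \ Big)).card : ℝ) ≤ At.card + Big.card := by
      exact_mod_cast (card_le_card h1).trans (card_union_le _ _)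
    have h3 : (Big.card : ℝ) ≤ k := by exact_mod_cast cBig
    linarith
  have hup : ∀ i, ((W0 i \ Big).card : ℝ) ≤ n / r + (g + 1) := by
    intro i
    rcases (W0 i \ Big).eq_empty_or_nonempty with h | ⟨x, hx⟩
    · rw [h]; simp; positivity
    · have h1 := two (W0 i \ Big) ∅ (nb G x) (by simp)
      rw [sd, hn] at h1
      simp only [empty_sdiff, card_empty, Nat.cast_zero] at h1
      have h2 : ((nb G x ∩ (W0 i \ Big)).card : ℝ) < g := by exact_mod_cast hown i x hx
      linarith [hdeg x]
  have hrg : (0 : ℝ) ≤ r * (g + 1) := by positivity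
  refine ⟨fun i => W0 i \ Big, hdis, fun i => ?_, hown, by linarith⟩
  have h1 : ((univ.biUnion (fun i => W0 i \ Big)).card : ℝ) = ∑ j, ((W0 j \ Big).card : ℝ) := by
    rw [card_biUnion (fun i _ j _ hij => hdis i j hij)]; push_cast; rfl
  have h2 := sd univ (univ.biUnion (fun i => W0 i \ Big))
  rw [inter_univ, card_univ, hn, h1, ← add_sum_erase _ _ (mem_univ i)] at h2
  have h3 : ∑ j ∈ univ.erase i, ((W0 j \ Big).card : ℝ) ≤ (r - 1) * (n / r + (g + 1)) := by
    calc _ ≤ ∑ j ∈ univ.erase i, (n / r + (g + 1) : ℝ) := sum_le_sum fun j _ => hup j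
      _ = _ := by
        rw [sum_const, card_erase_of_mem (mem_univ _), card_univ, Fintype.card_fin, nsmul_eq_mul,
          Nat.cast_sub hr, Nat.cast_one]
  have h4 : (r - 1 : ℝ) * (n / r + (g + 1)) = n - n / r + r * (g + 1) - (g + 1) := by
    field_simp; ring
  have hg' : (0 : ℝ) ≤ g := Nat.cast_nonneg _
  linarith

end Pool.Agent.H6.CEx
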