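import Pool.Agent.H6.CExC

namespace Pool.Agent.H6.CEx
open Finset SimpleGraph Function Filter
open scoped Classical

variable {V : Type}

lemma deg_eq [Fintype V] (G : SimpleGraph V) (v : V) [Fintype (G.neighborSet v)] :
    G.degree v = (nb G v).card := by
  rw [← card_neighborFinset_eq_degree]
  congr 1
  ext w; simp

lemma ev (c C : ℝ) (hc : 0 < c) : ∀ᶠ n : ℕ in atTop, C ≤ c * n :=
  (tendsto_natCast_atTop_atTop.const_mul_atTop hc).eventually_ge_atTop C

lemma main (r' k : ℕ) (hr' : 0 < r') (η : ℝ) (hη : 0 < η) (r : ℕ) (hr : r = r' + 1) :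
    ∀ᶠ n : ℕ in atTop, ∀ G : SimpleGraph (Fin n), (FF r k).Free G →
      (∀ v, (n : ℝ) - (nb G v).card ≤ n / r + 1 / 2) →
      (∑ v, ((nb G v).card : ℝ) ≤ (1 - 1 / r) * n ^ 2 + 2 * n * k / r + η * n) ∨
      ((∑ v, ((nb G v).card : ℝ) ≤ (1 - 1 / r) * n ^ 2 + 5 * n) ∧
        ∀ v, ((nb G v).card : ℝ) ≤ n - n / r + η * n) := by
  have hr0 : 0 < r := by omega
  have hrR : (0 : ℝ) < r := by exact_mod_cast hr0
  have hrR' : (0 : ℝ) < r' := by exact_mod_cast hr'
  have hrr : (r : ℝ) = r' + 1 := by rw [hr]; push_cast; ring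
  obtain ⟨f, hf⟩ : ∃ f, f = (k + 1) * (6 * r + 1) := ⟨_, rfl⟩
  obtain ⟨g, hg⟩ : ∃ g, g = f + 6 := ⟨_, rfl⟩
  obtain ⟨L, hL⟩ := exists_nat_gt (4 * r * f / η + 2 / η + 4 * r * (6 * r + 2))
  have a1 : (0 : ℝ) ≤ 4 * r * f / η := by positivity
  have a2 : (0 : ℝ) < 2 / η := by positivity
  have a3 : (0 : ℝ) ≤ 4 * r * (6 * r + 2) := by positivity
  have hLR : (0 : ℝ) < L := by linarith
  have hL0 : 0 < L := by exact_mod_cast hLR
  have d1 : 2 * r * f * (1 / L : ℝ) ≤ η / 2 := by
    have : 4 * r * f / η ≤ (L : ℝ) := by linarith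
    rw [div_le_iff₀ hη] at this
    rw [mul_one_div, div_le_iff₀ hLR]; linarith
  have d2 : (1 / L : ℝ) ≤ η / 2 := by
    have : 2 / η ≤ (L : ℝ) := by linarith
    rw [div_le_iff₀ hη] at this
    rw [div_le_iff₀ hLR]; linarith
  have d3 : 2 * (6 * r + 2) * (1 / L : ℝ) ≤ 1 / (2 * r) := by
    rw [mul_one_div, div_le_div_iff₀ hLR (by positivity)]; linarith
  obtain ⟨b0, hb0⟩ : ∃ b0, b0 = g * L := ⟨_, rfl⟩
  obtain ⟨T, hT⟩ : ∃ T, T = (6 * r + 1) * b0 + g := ⟨_, rfl⟩
  obtain ⟨C, hC⟩ : ∃ C : ℝ, C = r * T + (T + b0) * k + k + r * (g + 1) := ⟨_, rfl⟩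
  have hC0 : 0 ≤ C := by rw [hC]; positivity
  have hε : (0 : ℝ) < 1 / (2 * r' * r) := by positivity
  filter_upwards [eventually_completeEquipartiteGraph_isContained_of_minDegree hε r' T,
    ev _ (1 / 2) hε, ev (η / 2) (2 * r * f * (C + g + 2)) (by positivity),
    ev (η / 2) (C + 5) (by positivity),
    ev (1 / (2 * r)) (2 * (C + (6 * r + 1) * (C + g + 2) + g) + 1) (by positivity),
    eventually_gt_atTop 0] with n h1 h2 h3 h4 h5 h6 G hF hdeg
  have hn0 : (0 : ℝ) ≤ n := Nat.cast_nonneg _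
  have : Nonempty (Fin n) := ⟨⟨0, h6⟩⟩
  have hcon : completeEquipartiteGraph (r' + 1) T ⊑ G := by
    refine h1 ?_
    obtain ⟨v, hv⟩ := G.exists_minimal_degree_vertex
    rw [hv, deg_eq]
    have e1 : (1 - 1 / r' + 1 / (2 * r' * r) : ℝ) * n = n - n / r - 1 / (2 * r' * r) * n := by
      rw [hrr]; field_simp; ring
    rw [ge_iff_le, e1]
    linarith [hdeg v]
  rw [← hr] at hcon
  obtain ⟨φ⟩ := hcon
  obtain ⟨W, w1, w2, w3, w4⟩ := stage1 G hr0 hF n (by simp) L b0 T f g hf hg hL0 hb0 hT hdeg φ C hC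
  have he0 : (0 : ℝ) ≤ n / L + C := by positivity
  have hb1 : (n / L + C : ℝ) + g + 1 ≤ ((⌈(n / L + C : ℝ)⌉₊ + g + 1 : ℕ) : ℝ) := by
    push_cast; linarith [Nat.le_ceil (n / L + C : ℝ)]
  have hb2 : ((⌈(n / L + C : ℝ)⌉₊ + g + 1 : ℕ) : ℝ) ≤ 1 / L * n + (C + g + 2) := by
    push_cast
    have := Nat.ceil_lt_add_one he0
    have e : (n / L : ℝ) = 1 / L * n := by ring
    linarith
  generalize (⌈(n / L + C : ℝ)⌉₊ + g + 1 : ℕ) = b at hb1 hb2
  have e0 : (n / L : ℝ) = 1 / L * n := by ring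
  have m1 := mul_le_mul_of_nonneg_right d1 hn0
  have m2 := mul_le_mul_of_nonneg_right d2 hn0
  have m3 := mul_le_mul_of_nonneg_right d3 hn0
  have m4 : (6 * r + 1 : ℝ) * b ≤ (6 * r + 1) * (1 / L * n + (C + g + 2)) := by gcongr
  have m5 : (2 * r * f : ℝ) * b ≤ (2 * r * f) * (1 / L * n + (C + g + 2)) := by gcongr
  have e2 : (n / r : ℝ) = 1 / (2 * r) * n + 1 / (2 * r) * n := by field_simp; ring
  rcases stage2 G hr0 hF n (by simp) (n / L + C) b f g hf hg hdeg W w1 w2 w3 w4 hb1
    (by rw [e2, e0]; nlinarith) with h | ⟨h, h'⟩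
  · left; nlinarith
  · right
    refine ⟨h, fun v => ?_⟩
    have := h' v
    linarith

/-! ### Constructions -/

noncomputable def PP (n r k i : ℕ) : Finset (Fin n) := univ.filter (fun y => k ≤ y.val ∧ y.val % r = i)

lemma PP_le (n r k i : ℕ) (hr : 0 < r) (hk : k ≤ n) : ((PP n r k i).card : ℝ) ≤ (n - k) / r + 1 := by
  have h1 : (PP n r k i).card ≤ (range ((n - k) / r + 1)).card := by
    refine card_le_card_of_injOn (fun y => (y.val - k) / r) ?_ ?_
    · intro y hy
      simp only [coe_range, Set.mem_Iio]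
      exact Nat.lt_succ_of_le (Nat.div_le_div_right (by have := y.2; omega))
    · intro y hy z hz h
      simp only [PP, coe_filter, mem_univ, true_and, Set.mem_ofPred_eq] at hy hz
      have h' : (y.val - k) / r = (z.val - k) / r := h
      have h2 : (y.val - k) ≡ (z.val - k) [MOD r] := by
        refine Nat.ModEq.add_right_cancel' k ?_
        rw [Nat.sub_add_cancel hy.1, Nat.sub_add_cancel hz.1]
        exact hy.2.trans hz.2.symm
      have h3 := Nat.div_add_mod (y.val - k) r
      have h4 := Nat.div_add_mod (z.val - k) r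
      rw [h', h2] at h3
      exact Fin.ext (by omega)
  rw [card_range] at h1
  have h2 : (((n - k) / r : ℕ) : ℝ) ≤ ((n - k : ℕ) : ℝ) / r := Nat.cast_div_le
  rw [Nat.cast_sub hk] at h2
  have h3 : ((PP n r k i).card : ℝ) ≤ ((n - k) / r : ℕ) + 1 := by exact_mod_cast h1
  linarith

lemma PP_sum (n r k : ℕ) (hr : 0 < r) (φ : Fin n → ℝ) :
    ∑ y ∈ univ.filter (fun y : Fin n => k ≤ y.val), φ y = ∑ i ∈ range r, ∑ y ∈ PP n r k i, φ y := by
  rw [← sum_fiberwise_of_maps_to (s := univ.filter (fun y : Fin n => k ≤ y.val)) (t := range r)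
    (g := fun y => y.val % r) (fun y _ => mem_range.2 (Nat.mod_lt _ hr))]
  refine sum_congr rfl fun i _ => sum_congr ?_ fun _ _ => rfl
  ext y; simp [PP]

lemma card_lt (n k : ℕ) (hk : k ≤ n) : (univ.filter (fun y : Fin n => y.val < k)).card = k := by
  rw [Fin.card_filter_val_lt]; omega

lemma card_ge (n k : ℕ) (hk : k ≤ n) :
    ((univ.filter (fun y : Fin n => k ≤ y.val)).card : ℝ) = n - k := by
  have h := card_filter_add_card_filter_not (s := (univ : Finset (Fin n))) (fun y => y.val < k)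
  rw [card_lt n k hk, card_univ, Fintype.card_fin] at h
  simp only [not_lt] at h
  have h' : (k : ℝ) + (univ.filter (fun y : Fin n => k ≤ y.val)).card = n := by exact_mod_cast h
  linarith

lemma PP_sq (n r k : ℕ) (hr : 0 < r) (hk : k ≤ n) :
    ∑ y ∈ univ.filter (fun y : Fin n => k ≤ y.val), ((PP n r k (y.val % r)).card : ℝ) ≤
      (n - k) ^ 2 / r + r ^ 3 := by
  have hrR : (0 : ℝ) < r := by exact_mod_cast hr
  have hr1 : (1 : ℝ) ≤ r := by exact_mod_cast hr
  have h1 : ∑ i ∈ range r, ((PP n r k i).card : ℝ) = n - k := by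
    have := PP_sum n r k hr (fun _ => 1)
    simp only [sum_const, nsmul_eq_mul, mul_one] at this
    rw [← this, card_ge n k hk]
  have h2 : ∑ y ∈ univ.filter (fun y : Fin n => k ≤ y.val), ((PP n r k (y.val % r)).card : ℝ) =
      ∑ i ∈ range r, ((PP n r k i).card : ℝ) ^ 2 := by
    rw [PP_sum n r k hr]
    refine sum_congr rfl fun i _ => ?_
    rw [sum_congr rfl (g := fun _ => ((PP n r k i).card : ℝ)), sum_const, nsmul_eq_mul, sq]
    intro y hy
    have : y.val % r = i := by simp only [PP, mem_filter] at hy; exact hy.2.2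
    rw [this]
  rw [h2]
  set μ : ℝ := (n - k) / r with hμ
  have hμr : (n - k : ℝ) = μ * r := by rw [hμ]; field_simp
  have h3 : ∀ i ∈ range r, μ - r ≤ ((PP n r k i).card : ℝ) := by
    intro i hi
    rw [← add_sum_erase _ _ hi] at h1
    have : ∑ j ∈ (range r).erase i, ((PP n r k j).card : ℝ) ≤ (r - 1) * (μ + 1) := by
      calc _ ≤ ∑ j ∈ (range r).erase i, (μ + 1) := sum_le_sum fun j _ => PP_le n r k j hr hk
        _ = _ := by
          rw [sum_const, card_erase_of_mem hi, card_range, nsmul_eq_mul, Nat.cast_sub hr, Nat.cast_one]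
    nlinarith
  have h4 : ∀ i ∈ range r, ((PP n r k i).card : ℝ) ^ 2 ≤
      r ^ 2 + 2 * μ * (PP n r k i).card - μ ^ 2 := by
    intro i hi
    have a := h3 i hi
    have b := PP_le n r k i hr hk
    have : (((PP n r k i).card : ℝ) - μ) ^ 2 ≤ r ^ 2 := sq_le_sq' (by linarith) (by linarith)
    nlinarith
  have h5 := sum_le_sum h4
  rw [sum_sub_distrib, sum_add_distrib, ← mul_sum, h1, sum_const, sum_const, card_range,
    nsmul_eq_mul, nsmul_eq_mul] at h5
  have : (n - k : ℝ) ^ 2 / r = μ ^ 2 * r := by rw [hμr]; field_simp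
  rw [this]
  rw [hμr] at h5
  nlinarith

def GA (n r k : ℕ) : SimpleGraph (Fin n) where
  Adj x y := x ≠ y ∧ (x.val < k ∨ y.val < k ∨ x.val % r ≠ y.val % r)
  symm := ⟨fun x y h => ⟨h.1.symm, by have := h.2; omega⟩⟩
  loopless := ⟨fun _ h => h.1 rfl⟩

def GB (n r : ℕ) : SimpleGraph (Fin n) where
  Adj x y := x ≠ y ∧ (x.val % r ≠ y.val % r ∨ x.val / r / 6 = y.val / r / 6)
  symm := ⟨fun x y h => ⟨h.1.symm, by have := h.2; omega⟩⟩
  loopless := ⟨fun _ h => h.1 rfl⟩

lemma GA_free (n r k : ℕ) (hr : 0 < r) : (FF r k).Free (GA n r k) := by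
  rintro ⟨φ⟩
  let c : Option (Fin k) → Option (Fin r) → Option (Fin r × Fin 6) ⊕ Fin k × Option (Fin r) :=
    fun j x => j.elim (Sum.inl (x.map fun i => (i, 0))) (fun j => Sum.inr (j, x))
  have hc : ∀ j x y, x ≠ y → (FF r k).Adj (c j x) (c j y) := by
    rintro (_ | j) x y h
    · rcases x with _ | x <;> rcases y with _ | y <;> simp_all [c, FF, F2]
    · simp [c, FF, KK, h]
  have hc' : ∀ i j x y, c i x = c j y → i = j := by
    rintro (_ | i) (_ | j) x y h <;> simp_all [c]
  have h1 : ∀ j, ∃ x, (φ (c j x)).val < k := by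
    intro j
    by_contra hn
    push Not at hn
    have : Injective (fun x : Option (Fin r) => (⟨(φ (c j x)).val % r, Nat.mod_lt _ hr⟩ : Fin r)) := by
      intro x y h
      by_contra hxy
      have h2 : (GA n r k).Adj (φ (c j x)) (φ (c j y)) := φ.toHom.map_adj (hc j x y hxy)
      have h3 := h2.2
      have := hn x
      have := hn y
      have : (φ (c j x)).val % r = (φ (c j y)).val % r := congrArg Fin.val h
      omega
    have := Fintype.card_le_of_injective _ this
    simp at this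
  choose x hx using h1
  have : Injective (fun j : Option (Fin k) => (⟨(φ (c j (x j))).val, hx j⟩ : Fin k)) := by
    intro i j h
    have h' : (φ (c i (x i))).val = (φ (c j (x j))).val := by simpa using Fin.ext_iff.1 h
    exact hc' _ _ _ _ (φ.injective (Fin.ext h'))
  have := Fintype.card_le_of_injective _ this
  simp at this

lemma GB_free (n r k : ℕ) (hr : 0 < r) : (FF r k).Free (GB n r) := by
  rintro ⟨φ⟩
  let ψ : Option (Fin r × Fin 6) → Fin n := fun w => φ (Sum.inl w)
  have hψ : Injective ψ := fun a b h => Sum.inl_injective (φ.injective h)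
  have ha : ∀ a b, a.map Prod.fst ≠ b.map Prod.fst → (GB n r).Adj (ψ a) (ψ b) :=
    fun a b h => φ.toHom.map_adj (by simpa [FF, F2] using h)
  have h1 : ∀ i ∈ range r, (univ.filter (fun w => (ψ w).val % r = i)).card ≤ 6 := by
    intro i _
    set S := univ.filter (fun w => (ψ w).val % r = i) with hS
    have mS : ∀ w, w ∈ S ↔ (ψ w).val % r = i := by simp [hS]
    by_cases h : ∃ a ∈ S, ∃ b ∈ S, a.map Prod.fst ≠ b.map Prod.fst
    · obtain ⟨a, haS, b, hbS, hab⟩ := h
      have hq : ∀ a ∈ S, ∀ b ∈ S, a.map Prod.fst ≠ b.map Prod.fst →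
          (ψ a).val / r / 6 = (ψ b).val / r / 6 := by
        intro a h1 b h2 h
        have := (ha a b h).2
        have := (mS a).1 h1
        have := (mS b).1 h2
        omega
      have hq' : ∀ w ∈ S, (ψ w).val / r / 6 = (ψ a).val / r / 6 := by
        intro w hw
        by_cases h : w.map Prod.fst = a.map Prod.fst
        · rw [hq a haS b hbS hab]
          exact hq w hw b hbS (h ▸ hab)
        · exact hq w hw a haS h
      calc S.card ≤ (range 6).card := by
            refine card_le_card_of_injOn (fun w => (ψ w).val / r % 6) ?_ ?_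
            · intro w _
              simp only [coe_range, Set.mem_Iio]
              omega
            · intro w hw w' hw' h
              have h' : (ψ w).val / r % 6 = (ψ w').val / r % 6 := h
              have e1 := hq' w hw
              have e2 := hq' w' hw'
              have e3 : (ψ w).val / r = (ψ w').val / r := by omega
              have e4 := Nat.div_add_mod (ψ w).val r
              have e5 := Nat.div_add_mod (ψ w').val r
              rw [e3, (mS w).1 hw] at e4
              rw [(mS w').1 hw'] at e5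
              exact hψ (Fin.ext (by omega))
        _ = 6 := by simp
    · push Not at h
      calc S.card ≤ (univ : Finset (Fin 6)).card := by
            refine card_le_card_of_injOn (fun w => w.elim 0 Prod.snd) (fun _ _ => by simp) ?_
            intro w hw w' hw' h'
            have := h w hw w' hw'
            rcases w with _ | w <;> rcases w' with _ | w' <;> simp_all [Prod.ext_iff]
        _ = 6 := by simp
  have h2 := card_le_mul_card_image_of_maps_to (s := (univ : Finset (Option (Fin r × Fin 6))))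
    (t := range r) (f := fun w => (ψ w).val % r) (fun w _ => mem_range.2 (Nat.mod_lt _ hr)) 6 h1
  simp at h2
  omega

end Pool.Agent.H6.CEx
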