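import Pool.Agent.H6.CExD

namespace Pool.Agent.H6.CEx
open Finset SimpleGraph Function Filter
open scoped Classical

variable {V : Type}

lemma sdF (n : ℕ) (B : Finset (Fin n)) : ((univ \ B).card : ℝ) = n - B.card := by
  rw [card_univ_sdiff, Fintype.card_fin, Nat.cast_sub (by simpa using card_le_univ B)]

lemma GA_hi (n r k : ℕ) (x : Fin n) (hx : x.val < k) : ((nb (GA n r k) x).card : ℝ) = n - 1 := by
  have : nb (GA n r k) x = univ.erase x := by
    ext y
    simp only [mem_nb, GA, mem_erase, mem_univ, and_true]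
    exact ⟨fun h => h.1.symm, fun h => ⟨h.symm, Or.inl hx⟩⟩
  rw [this, card_erase_of_mem (mem_univ _), card_univ, Fintype.card_fin,
    Nat.cast_sub (by have := x.2; omega), Nat.cast_one]

lemma GA_lo (n r k : ℕ) (x : Fin n) (hx : k ≤ x.val) :
    (n : ℝ) - (PP n r k (x.val % r)).card ≤ (nb (GA n r k) x).card := by
  have h1 : univ \ PP n r k (x.val % r) ⊆ nb (GA n r k) x := by
    intro y hy
    replace hy : k ≤ y.val → ¬ y.val % r = x.val % r := by
      intro h1 h2
      exact (Finset.mem_sdiff.1 hy).2 (Finset.mem_filter.2 ⟨mem_univ _, h1, h2⟩)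
    simp only [mem_nb, GA]
    refine ⟨fun h => ?_, by omega⟩
    subst h
    exact hy hx rfl
  have h2 := sdF n (PP n r k (x.val % r))
  rw [← h2]
  exact_mod_cast card_le_card h1

lemma GA_sum (n r k : ℕ) (hr : 0 < r) (hk : k ≤ n) :
    (1 - 1 / r) * (n : ℝ) ^ 2 + 2 * n * k / r - (k + k ^ 2 + r ^ 3) ≤
      ∑ x, ((nb (GA n r k) x).card : ℝ) := by
  have hrR : (0 : ℝ) < r := by exact_mod_cast hr
  have hr1 : (1 : ℝ) ≤ r := by exact_mod_cast hr
  rw [← sum_filter_add_sum_filter_not univ (fun y : Fin n => y.val < k)]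
  simp only [not_lt]
  have h1 : ∑ x ∈ univ.filter (fun y : Fin n => y.val < k), ((nb (GA n r k) x).card : ℝ) =
      k * (n - 1) := by
    rw [sum_congr rfl (g := fun _ => (n - 1 : ℝ)) (fun x hx => GA_hi n r k x (mem_filter.1 hx).2),
      sum_const, card_lt n k hk, nsmul_eq_mul]
  have h2 := sum_le_sum (s := univ.filter (fun y : Fin n => k ≤ y.val))
    (fun x hx => GA_lo n r k x (mem_filter.1 hx).2)
  rw [sum_sub_distrib, sum_const, nsmul_eq_mul, card_ge n k hk] at h2
  have h3 := PP_sq n r k hr hk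
  have h4 : ((n : ℝ) - k) ^ 2 / r = 1 / r * n ^ 2 - 2 * n * k / r + k ^ 2 / r := by ring
  have h5 : (k : ℝ) ^ 2 / r ≤ k ^ 2 := div_le_self (by positivity) hr1
  rw [h1]
  nlinarith

lemma GB_lo (n r : ℕ) (hr : 0 < r) (x : Fin n) :
    (n : ℝ) - (PP n r 0 (x.val % r)).card + (if x.val < n - 6 * r then 5 else 0) ≤
      (nb (GB n r) x).card := by
  have h1 : univ \ PP n r 0 (x.val % r) ⊆ nb (GB n r) x := by
    intro y hy
    replace hy : ¬ y.val % r = x.val % r := by
      intro h2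
      exact (Finset.mem_sdiff.1 hy).2 (Finset.mem_filter.2 ⟨mem_univ _, Nat.zero_le _, h2⟩)
    simp only [mem_nb, GB]
    refine ⟨fun h => ?_, by omega⟩
    subst h
    exact hy rfl
  have h2 := sdF n (PP n r 0 (x.val % r))
  rw [← h2]
  split_ifs with hx
  · have hlt : ∀ a : Fin 6, r * (6 * (x.val / r / 6) + a.val) + x.val % r < n := by
      intro a
      have e1 := Nat.div_add_mod x.val r
      have e2 : 6 * (x.val / r / 6) + a.val ≤ x.val / r + 5 := by have := a.2; omega
      have e3 := Nat.mul_le_mul_left r e2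
      have e4 : r * (x.val / r + 5) = r * (x.val / r) + 5 * r := by ring
      omega
    let y : Fin 6 → Fin n := fun a => ⟨_, hlt a⟩
    have hm : x.val % r < r := Nat.mod_lt _ hr
    have y1 : ∀ a, (y a).val % r = x.val % r := by
      intro a
      simp only [y]
      rw [Nat.mul_add_mod, Nat.mod_mod]
    have y2 : ∀ a, (y a).val / r = 6 * (x.val / r / 6) + a.val := by
      intro a
      simp only [y]
      rw [Nat.mul_add_div hr, Nat.div_eq_of_lt hm, add_zero]
    have hy : Injective y := by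
      intro a b h
      have := y2 a
      rw [h, y2 b] at this
      exact Fin.ext (by omega)
    have h3 : (univ.image y).erase x ⊆ nb (GB n r) x := by
      intro z hz
      obtain ⟨hz1, hz2⟩ := mem_erase.1 hz
      obtain ⟨a, -, rfl⟩ := mem_image.1 hz2
      simp only [mem_nb, GB]
      refine ⟨hz1.symm, Or.inr ?_⟩
      rw [y2]; have := a.2; omega
    have h4 : 5 ≤ ((univ.image y).erase x).card := by
      have := pred_card_le_card_erase (s := univ.image y) (a := x)
      rw [card_image_of_injective _ hy] at this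
      simpa using this
    have h5 : Disjoint (univ \ PP n r 0 (x.val % r)) ((univ.image y).erase x) := by
      refine Finset.disjoint_left.2 fun z hz hz' => ?_
      obtain ⟨a, -, rfl⟩ := mem_image.1 (mem_erase.1 hz').2
      exact (mem_sdiff.1 hz).2 (by simp [PP, y1 a])
    have h6 := card_le_card (union_subset h1 h3)
    rw [card_union_of_disjoint h5] at h6
    have : (univ \ PP n r 0 (x.val % r)).card + 5 ≤ (nb (GB n r) x).card := by omega
    exact_mod_cast this
  · rw [add_zero]; exact_mod_cast card_le_card h1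

lemma GB_sum (n r : ℕ) (hr : 0 < r) :
    (1 - 1 / r) * (n : ℝ) ^ 2 + 5 * n - (30 * r + r ^ 3) ≤ ∑ x, ((nb (GB n r) x).card : ℝ) := by
  have h2 := sum_le_sum (s := (univ : Finset (Fin n))) (fun x _ => GB_lo n r hr x)
  have h3 := PP_sq n r 0 hr (Nat.zero_le _)
  simp only [zero_le, filter_true, Nat.cast_zero, sub_zero] at h3
  rw [sum_add_distrib, sum_sub_distrib, sum_const, card_univ, Fintype.card_fin, nsmul_eq_mul,
    ← sum_filter, sum_const, card_lt n _ (Nat.sub_le _ _), nsmul_eq_mul] at h2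
  have h4 : (n : ℝ) - 6 * r ≤ ((n - 6 * r : ℕ) : ℝ) := by
    rcases le_total (6 * r) n with h | h
    · rw [Nat.cast_sub h]; push_cast; rfl
    · have : (n : ℝ) ≤ 6 * r := by exact_mod_cast h
      have : (0 : ℝ) ≤ ((n - 6 * r : ℕ) : ℝ) := Nat.cast_nonneg _
      linarith
  have h5 : (n : ℝ) ^ 2 / r = 1 / r * n ^ 2 := by ring
  nlinarith

/-! ### Counting paths on three vertices -/

def cherry (G : SimpleGraph V) (p : (v : V) × {s : Finset V // ∀ w ∈ s, G.Adj v w}) : G.Subgraph where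
  verts := insert p.1 (p.2.1 : Set V)
  Adj x y := (x = p.1 ∧ y ∈ p.2.1) ∨ (y = p.1 ∧ x ∈ p.2.1)
  adj_sub := by
    rintro x y (⟨rfl, h⟩ | ⟨rfl, h⟩)
    · exact p.2.2 _ h
    · exact (p.2.2 _ h).symm
  edge_vert := by
    rintro x y (⟨rfl, _⟩ | ⟨_, h⟩)
    · simp
    · simp [h]
  symm := ⟨fun _ _ h => h.symm⟩

lemma cherry_copy (G : SimpleGraph V) (φ : (pathGraph 3).Copy G)
    (h : ∀ w ∈ ({φ 0, φ 2} : Finset V), G.Adj (φ 1) w) :
    φ.toSubgraph = cherry G ⟨φ 1, ⟨{φ 0, φ 2}, h⟩⟩ := by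
  ext x y
  · simp only [Copy.toSubgraph, Subgraph.map_verts, Subgraph.verts_top, Set.image_univ,
      Set.mem_range, cherry, coe_insert, coe_singleton, Set.mem_insert_iff, Set.mem_singleton_iff]
    constructor
    · rintro ⟨i, rfl⟩
      fin_cases i <;> simp
    · rintro (rfl | rfl | rfl)
      exacts [⟨1, rfl⟩, ⟨0, rfl⟩, ⟨2, rfl⟩]
  · simp only [Copy.toSubgraph, Subgraph.map_adj, Relation.Map, Subgraph.top_adj, cherry,
      mem_insert, mem_singleton]
    constructor
    · rintro ⟨a, b, hab, rfl, rfl⟩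
      rw [pathGraph_adj] at hab
      fin_cases a <;> fin_cases b <;> simp_all
    · rintro (⟨rfl, rfl | rfl⟩ | ⟨rfl, rfl | rfl⟩)
      · exact ⟨1, 0, by simp [pathGraph_adj], rfl, rfl⟩
      · exact ⟨1, 2, by simp [pathGraph_adj], rfl, rfl⟩
      · exact ⟨0, 1, by simp [pathGraph_adj], rfl, rfl⟩
      · exact ⟨2, 1, by simp [pathGraph_adj], rfl, rfl⟩

lemma count_P3 [Fintype V] (G : SimpleGraph V) :
    G.copyCount (pathGraph 3) = ∑ v, (nb G v).card.choose 2 := by
  rw [copyCount_eq_card_image_copyToSubgraph]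
  have h1 : ∑ v, (nb G v).card.choose 2 =
      ((univ : Finset V).sigma (fun v => powersetCard 2 (nb G v))).card := by
    rw [card_sigma]; simp
  rw [h1]
  symm
  refine card_bij (fun p hp => cherry G ⟨p.1, ⟨p.2, fun w hw =>
    mem_nb.1 ((mem_powersetCard.1 (mem_sigma.1 hp).2).1 hw)⟩⟩) ?_ ?_ ?_
  · rintro ⟨v, s⟩ hp
    obtain ⟨hs, hc⟩ := mem_powersetCard.1 (mem_sigma.1 hp).2
    obtain ⟨a, b, hab, rfl⟩ := card_eq_two.1 hc
    have ha : G.Adj v a := mem_nb.1 (hs (by simp))
    have hb : G.Adj v b := mem_nb.1 (hs (by simp))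
    let φ : (pathGraph 3).Copy G := ⟨⟨![a, v, b], by
      intro i j h
      rw [pathGraph_adj] at h
      fin_cases i <;> fin_cases j <;> simp_all [G.adj_comm]⟩, by
      have := ha.ne
      have := hb.ne
      have := ha.ne'
      have := hb.ne'
      have := hab.symm
      intro i j h
      fin_cases i <;> fin_cases j <;> simp_all⟩
    exact mem_image.2 ⟨φ, mem_univ _, cherry_copy G φ _⟩
  · rintro ⟨v, s⟩ hp ⟨w, t⟩ hq h
    obtain ⟨hs, hc⟩ := mem_powersetCard.1 (mem_sigma.1 hp).2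
    obtain ⟨ht, -⟩ := mem_powersetCard.1 (mem_sigma.1 hq).2
    have hA : ∀ x y, ((x = v ∧ y ∈ s) ∨ (y = v ∧ x ∈ s)) ↔ ((x = w ∧ y ∈ t) ∨ (y = w ∧ x ∈ t)) :=
      fun x y => iff_of_eq (congrFun (congrFun (congrArg Subgraph.Adj h) x) y)
    have hvw : v = w := by
      by_contra hn
      obtain ⟨a, b, hab, rfl⟩ := card_eq_two.1 hc
      have e1 := (hA v a).1 (Or.inl ⟨rfl, by simp⟩)
      have e2 := (hA v b).1 (Or.inl ⟨rfl, by simp⟩)
      exact hab ((e1.resolve_left (fun h => hn h.1)).1.trans (e2.resolve_left (fun h => hn h.1)).1.symm)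
    subst hvw
    have hvs : v ∉ s := fun h => (mem_nb.1 (hs h)).ne rfl
    have hvt : v ∉ t := fun h => (mem_nb.1 (ht h)).ne rfl
    have : s = t := by
      ext y
      have := hA v y
      simpa [hvs, hvt] using this
    subst this
    rfl
  · intro H hH
    obtain ⟨φ, -, rfl⟩ := mem_image.1 hH
    have h0 : G.Adj (φ 1) (φ 0) := φ.toHom.map_adj (by simp [pathGraph_adj])
    have h2 : G.Adj (φ 1) (φ 2) := φ.toHom.map_adj (by simp [pathGraph_adj])
    refine ⟨⟨φ 1, {φ 0, φ 2}⟩, mem_sigma.2 ⟨mem_univ _, mem_powersetCard.2 ⟨?_, ?_⟩⟩,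
      (cherry_copy G φ _).symm⟩
    · intro w hw
      rcases mem_insert.1 hw with rfl | hw
      · exact mem_nb.2 h0
      · rw [mem_singleton.1 hw]; exact mem_nb.2 h2
    · exact card_pair (fun h => by simpa using φ.injective h)

lemma count_P3' [Fintype V] (G : SimpleGraph V) (D : ℝ) :
    2 * (G.copyCount (pathGraph 3) : ℝ) = ∑ v, (((nb G v).card : ℝ) - D) ^ 2 +
      (2 * D - 1) * ∑ v, ((nb G v).card : ℝ) - Fintype.card V * D ^ 2 := by
  rw [count_P3, Nat.cast_sum, mul_sum, mul_sum, ← card_univ, ← nsmul_eq_mul, ← sum_const,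
    ← sum_add_distrib, ← sum_sub_distrib]
  refine sum_congr rfl fun v _ => ?_
  rw [Nat.cast_choose_two]; ring

lemma sum_deg [Fintype V] (G : SimpleGraph V) :
    ∑ v, ((nb G v).card : ℝ) = 2 * G.edgeSet.ncard := by
  have h := G.sum_degrees_eq_twice_card_edges
  simp only [deg_eq] at h
  rw [Set.ncard_eq_toFinset_card']
  exact_mod_cast h

end Pool.Agent.H6.CEx
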