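import Pool.Agent.H6.CExE

namespace Pool.Agent.H6.CEx
open Finset SimpleGraph Function Filter
open scoped Classical

lemma incr (a : ℕ → ℝ) (c : ℝ) (h : ∀ n : ℕ, 5 * n - c ≤ a n) (N : ℕ) : ∃ n ≥ N, a n < a (n + 1) := by
  by_contra hn
  push Not at hn
  have h1 : ∀ n, N ≤ n → a n ≤ a N := by
    intro n hn'
    induction n, hn' using Nat.le_induction with
    | base => exact le_rfl
    | succ n h' ih => exact (hn n h').trans ih
  obtain ⟨n, h2, h3⟩ := ((ev 5 (a N + c + 1) (by norm_num)).and (eventually_ge_atTop N)).exists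
  linarith [h1 n h3, h n]

lemma ncard_eq {n : ℕ} (G : SimpleGraph (Fin n)) [Fintype G.edgeSet] :
    G.edgeSet.ncard = G.edgeFinset.card := by
  rw [Set.ncard_eq_toFinset_card']; rfl

theorem final (r R k : ℕ) (hR : R = 2 * r + 3) (hk : k = 5 * r + 7) (N : ℕ) :
    ∃ n ≥ N, ¬ ∃ G : SimpleGraph (Fin n), (FF R k).Free G ∧
      (∀ G' : SimpleGraph (Fin n), (FF R k).Free G' →
        G'.copyCount (pathGraph 3) ≤ G.copyCount (pathGraph 3)) ∧
      (∀ G' : SimpleGraph (Fin n), (FF R k).Free G' → G'.edgeSet.ncard ≤ G.edgeSet.ncard) := by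
  have hR0 : 0 < R := by omega
  have hRR : (0 : ℝ) < R := by exact_mod_cast hR0
  have hR1 : (1 : ℝ) ≤ R := by exact_mod_cast hR0
  have hR2 : (2 : ℝ) ≤ R := by exact_mod_cast (show 2 ≤ R by omega)
  have hkR : (k : ℝ) = (5 * R - 1) / 2 := by rw [hk, hR]; push_cast; ring
  obtain ⟨cA, hcA⟩ : ∃ c : ℝ, c = k + k ^ 2 + R ^ 3 := ⟨_, rfl⟩
  obtain ⟨cB, hcB⟩ : ∃ c : ℝ, c = 30 * R + R ^ 3 := ⟨_, rfl⟩
  have hcA0 : 0 ≤ cA := by rw [hcA]; positivity
  obtain ⟨N1, hN1⟩ := eventually_atTop.1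
    ((main (2 * r + 2) k (by omega) (1 / (24 * R)) (by positivity) R (by omega)).and
      ((ev (1 / (2 * R)) (cB + 1) (by positivity)).and
        ((ev (1 / (4 * R)) (2 * cA + 7 + 2 * k) (by positivity)).and (eventually_ge_atTop k))))
  obtain ⟨n, hn, hlt⟩ := incr (fun n => 2 * (extremalNumber n (FF R k) : ℝ) - (1 - 1 / R) * n ^ 2) cB
    (by
      intro n
      have h1 := GB_sum n R hR0
      rw [sum_deg, ncard_eq] at h1
      have h2 := card_edgeFinset_le_extremalNumber (GB_free n R k hR0)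
      rw [Fintype.card_fin] at h2
      have h3 : (((GB n R).edgeFinset.card : ℕ) : ℝ) ≤ extremalNumber n (FF R k) := by
        exact_mod_cast h2
      linarith) (max N N1)
  refine ⟨n + 1, by have := le_max_left N N1; omega, ?_⟩
  obtain ⟨h1, h2, h3, h4⟩ := hN1 (n + 1) (by have := le_max_right N N1; omega)
  rintro ⟨G, hF, hP, hE⟩
  have hex : extremalNumber (n + 1) (FF R k) ≤ G.edgeFinset.card := by
    have := (extremalNumber_le_iff (V := Fin (n + 1)) (FF R k) G.edgeFinset.card).2 (by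
      intro G' _ h
      have := hE G' h
      rwa [ncard_eq, ncard_eq] at this)
    rwa [Fintype.card_fin] at this
  obtain ⟨m, hm⟩ : ∃ m : ℝ, m = ((n + 1 : ℕ) : ℝ) := ⟨_, rfl⟩
  have hm1 : m = n + 1 := by rw [hm]; push_cast; ring
  have hm0 : 1 ≤ m := by rw [hm1]; linarith [(Nat.cast_nonneg n : (0 : ℝ) ≤ n)]
  obtain ⟨y, hy⟩ : ∃ y : ℝ, y = m / R := ⟨_, rfl⟩
  have hmy : m = R * y := by rw [hy]; field_simp
  have hy0 : 0 < y := by rw [hy]; positivity
  have hdeg : ∀ v, m - (nb G v).card ≤ m / R + 1 / 2 := by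
    intro v
    have e1 := card_edgeFinset_deleteIncidenceSet_le_extremalNumber hF v
    rw [card_edgeFinset_deleteIncidenceSet, Fintype.card_fin, Nat.add_sub_cancel, deg_eq] at e1
    have e2 : extremalNumber (n + 1) (FF R k) ≤ extremalNumber n (FF R k) + (nb G v).card := by
      omega
    have e3 : (extremalNumber (n + 1) (FF R k) : ℝ) ≤ extremalNumber n (FF R k) + (nb G v).card := by
      exact_mod_cast e2
    simp only [← hm] at hlt
    have e4 : (n : ℝ) = m - 1 := by linarith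
    rw [e4] at hlt
    have e5 : (1 - 1 / R : ℝ) * m ^ 2 - (1 - 1 / R) * (m - 1) ^ 2 = 2 * m - 2 * (m / R) - 1 + 1 / R := by
      ring
    have e6 : (0 : ℝ) < 1 / R := by positivity
    linarith
  rw [← hm] at h1 h2 h3
  have k1 : 2 * m * k / R = 5 * m - y := by rw [hkR, hy]; field_simp
  have k2 : 1 / (24 * R) * m = y / 24 := by rw [hy]; field_simp
  have k3 : 1 / (2 * R) * m = y / 2 := by rw [hy]; field_simp
  have k4 : 1 / (4 * R) * m = y / 4 := by rw [hy]; field_simp
  have k5 : (1 - 1 / R) * m ^ 2 = m * (m - y) := by rw [hy]; ring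
  rcases h1 G hF hdeg with h | ⟨h, h'⟩
  · have e1 := GB_sum (n + 1) R hR0
    rw [sum_deg, ← hm, ← hcB] at e1
    rw [sum_deg] at h
    have e2 : ((GB (n + 1) R).edgeSet.ncard : ℝ) ≤ G.edgeSet.ncard := by
      exact_mod_cast hE _ (GB_free _ R k hR0)
    linarith
  · have e1 := GA_sum (n + 1) R k hR0 h4
    rw [← hm, ← hcA, k1, k5] at e1
    have e2 : ((GA (n + 1) R k).copyCount (pathGraph 3) : ℝ) ≤ G.copyCount (pathGraph 3) := by
      exact_mod_cast hP _ (GA_free _ R k hR0)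
    have e3 := count_P3' G (m - y)
    have e4 := count_P3' (GA (n + 1) R k) (m - y)
    rw [Fintype.card_fin, ← hm] at e3 e4
    rw [← hy] at h' hdeg
    rw [k2] at h'
    rw [k5] at h
    rw [k4] at h3
    have e5 : k * (y - 1) ^ 2 ≤ ∑ v, (((nb (GA (n + 1) R k) v).card : ℝ) - (m - y)) ^ 2 := by
      calc _ = ∑ v ∈ univ.filter (fun y : Fin (n + 1) => y.val < k),
            (((nb (GA (n + 1) R k) v).card : ℝ) - (m - y)) ^ 2 := by
            rw [sum_congr rfl (g := fun _ => (y - 1) ^ 2), sum_const, card_lt _ k h4, nsmul_eq_mul]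
            intro v hv
            rw [GA_hi _ R k v (mem_filter.1 hv).2, ← hm]; ring
        _ ≤ _ := sum_le_sum_of_subset_of_nonneg (subset_univ _) fun _ _ _ => sq_nonneg _
    have e6 : ∑ v, (((nb G v).card : ℝ) - (m - y)) ^ 2 ≤
        ∑ v, ((y / 24 + 1) * (((nb G v).card : ℝ) - (m - y) + 1 / 2) + 1 / 4) := by
      refine sum_le_sum fun v _ => ?_
      have a := hdeg v
      have b := h' v
      nlinarith [mul_nonneg (show 0 ≤ ((nb G v).card : ℝ) - (m - y) + 1 / 2 by linarith)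
        (show 0 ≤ y / 24 + 1 - (((nb G v).card : ℝ) - (m - y) + 1 / 2) by linarith)]
    rw [sum_add_distrib, ← mul_sum, sum_add_distrib, sum_sub_distrib] at e6
    simp only [sum_const, card_univ, Fintype.card_fin, nsmul_eq_mul, ← hm] at e6
    have e7 : (y / 24 + 1) * (∑ v, ((nb G v).card : ℝ) - m * (m - y) + m * (1 / 2)) ≤
        (y / 24 + 1) * (11 / 2 * m) := mul_le_mul_of_nonneg_left (by linarith) (by positivity)
    have hD : 0 ≤ 2 * (m - y) - 1 := by nlinarith
    have e8 := mul_le_mul_of_nonneg_left h hD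
    have e9 := mul_le_mul_of_nonneg_left e1 hD
    have e10 : k * (y - 1) ^ 2 ≤ (y / 24 + 1) * (11 / 2 * m) + m * (1 / 4) +
        (2 * (m - y) - 1) * (y + cA) := by nlinarith
    have e11 : (2 * (m - y) - 1) * (y + cA) ≤ 2 * m * y - 2 * y ^ 2 + 2 * m * cA := by nlinarith
    have e12 : 5 / 2 * m * y - y ^ 2 / 2 - 2 * k * y ≤ k * (y - 1) ^ 2 := by
      have : (k : ℝ) * y ^ 2 = 5 / 2 * m * y - y ^ 2 / 2 := by rw [hkR, hmy]; ring
      have : (0 : ℝ) ≤ k := Nat.cast_nonneg _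
      nlinarith
    have e13 : (k : ℝ) * y ≤ k * m := by
      refine mul_le_mul_of_nonneg_left ?_ (Nat.cast_nonneg _)
      nlinarith
    have e14 := mul_le_mul_of_nonneg_left h3 (show 0 ≤ m by linarith)
    nlinarith [mul_pos hy0 hy0, mul_pos hy0 (show 0 < m by linarith)]

lemma chi (R k : ℕ) : ((R + 1 : ℕ) : ℕ∞) ≤ (FF R k).chromaticNumber := by
  refine le_chromaticNumber_of_pairwise_adj (ι := Option (Fin R)) (by simp)
    (fun x => Sum.inl (x.map fun i => (i, 0))) ?_
  intro x y h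
  rcases x with _ | x <;> rcases y with _ | y <;> simp_all [FF, F2]

end Pool.Agent.H6.CEx
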