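import Pool.Agent.H6.CSDefs

namespace Pool.Agent.H6.CS

open Matrix
open scoped MatrixOrder

lemma psd_mul_zero {n : Type} [Fintype n] [DecidableEq n] {P Q : Matrix n n ℝ}
    (hP : P.PosSemidef) (hQ : Q.PosSemidef) (h : (P * Q).trace = 0) : P * Q = 0 := by
  obtain ⟨C, rfl⟩ := CStarAlgebra.nonneg_iff_eq_star_mul_self.1 hP.nonneg
  obtain ⟨D, rfl⟩ := CStarAlgebra.nonneg_iff_eq_star_mul_self.1 hQ.nonneg
  have h1 : ((C * star D)ᴴ * (C * star D)).trace = 0 := by
    rw [← h, conjTranspose_mul, star_eq_conjTranspose, star_eq_conjTranspose,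
      conjTranspose_conjTranspose]
    rw [Matrix.mul_assoc D, trace_mul_comm D]
    simp only [Matrix.mul_assoc]
  have h2 := trace_conjTranspose_mul_self_eq_zero_iff.1 h1
  calc star C * C * (star D * D) = star C * (C * star D) * D := by simp only [Matrix.mul_assoc]
    _ = 0 := by rw [h2]; simp

/-- A strong homomorphism yields idempotents on a nonzero finite-dimensional space. -/
theorem strong_idem {A B : Type} [Fintype B] [Nonempty A] (X : SimpleGraph A) (Y : SimpleGraph B)
    (h : Strong X Y) :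
    ∃ (W : Type) (_ : AddCommGroup W) (_ : Module ℝ W) (_ : FiniteDimensional ℝ W) (_ : Nontrivial W)
      (E : A → B → Module.End ℝ W), (∀ x y, E x y * E x y = E x y) ∧ (∀ x, ∑ y, E x y = 1) ∧
      (∀ x x' y y', X.Adj x x' → ¬ Y.Adj y y' → E x y * E x' y' = 0) ∧
      ∀ x y y', y ≠ y' → E x y * E x y' = 0 := by
  classical
  obtain ⟨H, ⟨d, -, ρ, hρ, hH⟩, h1, h2, h3⟩ := h
  let σ : A → Matrix (Fin d) (Fin d) ℝ := fun x => ∑ y, ρ (x, y)
  have hσ : ∀ x x', (σ x * σ x').trace = 1 := by
    intro x x'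
    rw [← h1 x x']
    simp only [σ, Finset.sum_mul_sum, trace_sum, hH]
  have hσh : ∀ x, (σ x).IsHermitian := fun x => by
    simp only [σ, IsHermitian, conjTranspose_sum]
    exact Finset.sum_congr rfl fun y _ => (hρ (x, y)).isHermitian
  obtain ⟨x0⟩ := ‹Nonempty A›
  have hσe : ∀ x, σ x = σ x0 := by
    intro x
    have : ((σ x - σ x0)ᴴ * (σ x - σ x0)).trace = 0 := by
      rw [conjTranspose_sub, (hσh x).eq, (hσh x0).eq]
      simp only [Matrix.sub_mul, Matrix.mul_sub, trace_sub, hσ]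
      norm_num
    exact sub_eq_zero.1 (trace_conjTranspose_mul_self_eq_zero_iff.1 this)
  have z2 : ∀ x x' y y', X.Adj x x' → ¬ Y.Adj y y' → ρ (x, y) * ρ (x', y') = 0 :=
    fun x x' y y' a b => psd_mul_zero (hρ _) (hρ _) (by rw [← hH]; exact h2 x x' y y' a b)
  have z3 : ∀ x y y', y ≠ y' → ρ (x, y) * ρ (x, y') = 0 :=
    fun x y y' a => psd_mul_zero (hρ _) (hρ _) (by rw [← hH]; exact h3 x y y' a)
  have l1 : ∀ x y, ρ (x, y) * σ x0 = ρ (x, y) * ρ (x, y) := by
    intro x y
    rw [← hσe x]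
    simp only [σ, Finset.mul_sum]
    exact Finset.sum_eq_single y (fun y' _ h => z3 x y y' h.symm) (by simp)
  have l2 : ∀ x y, σ x0 * ρ (x, y) = ρ (x, y) * ρ (x, y) := by
    intro x y
    rw [← hσe x]
    simp only [σ, Finset.sum_mul]
    exact Finset.sum_eq_single y (fun y' _ h => z3 x y' y h) (by simp)
  have hne : σ x0 ≠ 0 := fun h => by simpa [h] using hσ x0 x0
  obtain ⟨v, t, ht, hv, hvt⟩ := (hσh x0).exists_eigenvector_of_ne_zero hne
  let W : Submodule ℝ (Fin d → ℝ) := Module.End.eigenspace (Matrix.toLin' (σ x0)) t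
  have hW : ∀ w, w ∈ W ↔ σ x0 *ᵥ w = t • w := fun w => by
    simp [W, Module.End.mem_eigenspace_iff]
  have hmap : ∀ x y, ∀ w ∈ W, Matrix.toLin' (ρ (x, y)) w ∈ W := by
    intro x y w hw
    rw [hW] at hw ⊢
    simp only [toLin'_apply, mulVec_mulVec]
    rw [l2, ← l1, ← mulVec_mulVec, hw, mulVec_smul]
  let E : A → B → Module.End ℝ W := fun x y => t⁻¹ • (Matrix.toLin' (ρ (x, y))).restrict (hmap x y)
  have hE : ∀ x y (w : W), (E x y w : Fin d → ℝ) = t⁻¹ • (ρ (x, y) *ᵥ w) := by
    intro x y w; simp [E]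
  have hEE : ∀ x y x' y' (w : W), ((E x y * E x' y') w : Fin d → ℝ) =
      t⁻¹ • t⁻¹ • ((ρ (x, y) * ρ (x', y')) *ᵥ w) := by
    intro x y x' y' w
    rw [Module.End.mul_apply, hE, hE, mulVec_smul, mulVec_mulVec]
  refine ⟨W, inferInstance, inferInstance, inferInstance,
    ⟨⟨⟨v, (hW v).2 hvt⟩, 0, fun h => hv (congrArg Subtype.val h)⟩⟩, E, ?_, ?_, ?_, ?_⟩
  · intro x y
    ext1 w
    apply Subtype.ext
    rw [hEE, hE, ← l1, ← mulVec_mulVec, (hW w).1 w.2, mulVec_smul, smul_smul t⁻¹ t,
      inv_mul_cancel₀ ht, one_smul]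
  · intro x
    ext1 w
    apply Subtype.ext
    rw [LinearMap.sum_apply, Submodule.coe_sum]
    simp only [hE]
    rw [← Finset.smul_sum, ← sum_mulVec]
    change t⁻¹ • (σ x *ᵥ w) = w
    rw [hσe x, (hW w).1 w.2, smul_smul, inv_mul_cancel₀ ht, one_smul]
  · intro x x' y y' a b
    ext1 w
    apply Subtype.ext
    rw [hEE, z2 x x' y y' a b]; simp
  · intro x y y' a
    ext1 w
    apply Subtype.ext
    rw [hEE, z3 x y y' a]; simp

section
variable {W : Type} [AddCommGroup W] [Module ℝ W] [FiniteDimensional ℝ W]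

lemma tr_nonneg {e : Module.End ℝ W} (he : e * e = e) : 0 ≤ LinearMap.trace ℝ W e := by
  rw [(LinearMap.IsIdempotentElem.isProj_range e he).trace]
  positivity

lemma tr_zero {e : Module.End ℝ W} (he : e * e = e) (h : LinearMap.trace ℝ W e = 0) : e = 0 :=
  (LinearMap.IsIdempotentElem.trace_eq_zero_iff he).1 h

/-- From a strong homomorphism `K_n → Y` with `Y` covered by `n` independent fibres. -/
lemma fibres {A B : Type} [Fintype A] [Fintype B] [DecidableEq A] (Y : SimpleGraph B) (φ : B → A)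
    (hφ : ∀ y y', φ y = φ y' → ¬ Y.Adj y y') (E : A → B → Module.End ℝ W)
    (h1 : ∀ x y, E x y * E x y = E x y) (h2 : ∀ x, ∑ y, E x y = 1)
    (h3 : ∀ x x' y y', (⊤ : SimpleGraph A).Adj x x' → ¬ Y.Adj y y' → E x y * E x' y' = 0)
    (h4 : ∀ x y y', y ≠ y' → E x y * E x y' = 0) :
    ∃ P : B → Module.End ℝ W, (∀ y, P y * P y = P y) ∧
      (∀ y y', y ≠ y' → ¬ Y.Adj y y' → P y * P y' = 0) ∧
      ∀ x, ∑ y ∈ Finset.univ.filter (fun y => φ y = x), P y = 1 := by
  let P : B → Module.End ℝ W := fun y => ∑ x, E x y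
  have p1 : ∀ y, P y * P y = P y := by
    intro y
    simp only [P, Finset.sum_mul_sum]
    refine Finset.sum_congr rfl fun x _ => ?_
    rw [Finset.sum_eq_single x (fun x' _ h => h3 x x' y y (by simpa using h.symm) (by simp)) (by simp),
      h1]
  have p2 : ∀ y y', y ≠ y' → ¬ Y.Adj y y' → P y * P y' = 0 := by
    intro y y' a b
    simp only [P, Finset.sum_mul_sum]
    refine Finset.sum_eq_zero fun x _ => Finset.sum_eq_zero fun x' _ => ?_
    by_cases e : x = x'
    · subst e; exact h4 x y y' a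
    · exact h3 x x' y y' (by simpa using e) b
  refine ⟨P, p1, p2, ?_⟩
  let S : A → Module.End ℝ W := fun x => ∑ y ∈ Finset.univ.filter (fun y => φ y = x), P y
  have s1 : ∀ x, S x * S x = S x := by
    intro x
    simp only [S, Finset.sum_mul_sum]
    refine Finset.sum_congr rfl fun y hy => ?_
    rw [Finset.sum_eq_single y (fun y' hy' h => p2 y y' h.symm (hφ y y' (by
      rw [(Finset.mem_filter.1 hy).2, (Finset.mem_filter.1 hy').2]))) (fun h => absurd hy h), p1]
  have s2 : ∀ x, (1 - S x) * (1 - S x) = 1 - S x := by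
    intro x; rw [sub_mul, one_mul, mul_sub, mul_one, s1]; simp
  have s3 : ∑ x, LinearMap.trace ℝ W (1 - S x) = 0 := by
    rw [← map_sum, Finset.sum_sub_distrib]
    have : ∑ x, S x = ∑ x : A, (1 : Module.End ℝ W) := by
      simp only [S]
      rw [Finset.sum_fiberwise (s := Finset.univ) (g := φ) (f := P)]
      simp only [P]
      rw [Finset.sum_comm]
      exact Finset.sum_congr rfl fun x _ => h2 x
    rw [this]; simp
  intro x
  have := (Finset.sum_eq_zero_iff_of_nonneg fun x _ => tr_nonneg (s2 x)).1 s3 x (Finset.mem_univ x)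
  exact (sub_eq_zero.1 (tr_zero (s2 x) this)).symm

/-- two orthogonal idempotents below two non-orthogonal equivalent idempotents -/
lemma pair {E F a b : Module.End ℝ W} (hE : E * E = E) (ha : a * a = a) (hb : b * b = b)
    (ea : E * a = a) (ae : a * E = a) (fb : F * b = b) (bf : b * F = b)
    (ab : a * b = 0) (ba : b * a = 0) (hF : F * E * F = (1 / 4 : ℝ) • F) :
    LinearMap.trace ℝ W a + LinearMap.trace ℝ W b ≤ LinearMap.trace ℝ W E := by
  have beb : b * E * b = (1 / 4 : ℝ) • b := by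
    calc b * E * b = (b * F) * E * (F * b) := by rw [bf, fb]
      _ = b * (F * E * F) * b := by simp only [mul_assoc]
      _ = (1 / 4 : ℝ) • b := by rw [hF, mul_smul_comm, smul_mul_assoc, bf, hb]
  let c : Module.End ℝ W := (4 : ℝ) • (E * b * E)
  have cc : c * c = c := by
    simp only [c, smul_mul_assoc, mul_smul_comm]
    have : E * b * E * (E * b * E) = E * (b * E * b) * E := by
      calc E * b * E * (E * b * E) = E * b * (E * E) * b * E := by simp only [mul_assoc]
        _ = E * (b * E * b) * E := by rw [hE]; simp only [mul_assoc]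
    rw [this, beb, mul_smul_comm, smul_mul_assoc, smul_smul, smul_smul]
    norm_num
  have ac : a * c = 0 := by
    simp only [c, mul_smul_comm, ← mul_assoc, ae, ab]; simp
  have ca : c * a = 0 := by
    simp only [c, smul_mul_assoc, mul_assoc, ea, ba]; simp
  have ec : E * c = c := by simp only [c, mul_smul_comm, ← mul_assoc, hE]
  have ce : c * E = c := by simp only [c, smul_mul_assoc, mul_assoc, hE]
  have tc : LinearMap.trace ℝ W c = LinearMap.trace ℝ W b := by
    have : LinearMap.trace ℝ W (E * b * E) = LinearMap.trace ℝ W (b * E * b) := by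
      calc LinearMap.trace ℝ W (E * b * E) = LinearMap.trace ℝ W (E * (E * b)) :=
            LinearMap.trace_mul_comm ℝ _ _
        _ = LinearMap.trace ℝ W ((E * b) * b) := by rw [← mul_assoc, hE, mul_assoc, hb]
        _ = LinearMap.trace ℝ W (b * (E * b)) := LinearMap.trace_mul_comm ℝ _ _
        _ = _ := by rw [mul_assoc]
    simp only [c, map_smul, this, beb, smul_eq_mul]
    ring
  have := tr_nonneg (e := E - a - c) (by
    simp only [sub_mul, mul_sub, hE, ea, ae, ec, ce, ha, ac, ca, cc]; abel)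
  simp only [map_sub] at this
  linarith

end

end Pool.Agent.H6.CS
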