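import Pool.Agent.H6.CSA

namespace Pool.Agent.H6.CS

open Matrix

abbrev Ctx := Bool × Fin 3
abbrev Vx := (Ctx × Fin 4) ⊕ Ctx

def fib : Vx → Option Ctx
  | .inl (c, _) => some c
  | .inr _ => none

def sg : Ctx → Fin 4 → Fin 3 → ℤ
  | (false, i) => ![![![-1, -1, 1], ![1, 1, 1], ![1, -1, -1], ![-1, 1, -1]],
      ![![1, 1, 1], ![-1, 1, -1], ![1, -1, -1], ![-1, -1, 1]],
      ![![1, 1, 1], ![1, -1, -1], ![-1, 1, -1], ![-1, -1, 1]]] i
  | (true, i) => ![![![1, -1, -1], ![1, 1, 1], ![-1, 1, -1], ![-1, -1, 1]],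
      ![![1, -1, -1], ![1, 1, 1], ![-1, 1, -1], ![-1, -1, 1]],
      ![![-1, -1, -1], ![-1, 1, 1], ![1, 1, -1], ![1, -1, 1]]] i

def vec : Ctx → Fin 4 → Fin 4 → ℤ
  | (false, i) => ![![![0, 0, 0, 1], ![1, 0, 0, 0], ![0, 1, 0, 0], ![0, 0, 1, 0]],
      ![![1, 1, 1, 1], ![1, -1, 1, -1], ![1, 1, -1, -1], ![1, -1, -1, 1]],
      ![![1, 1, 1, -1], ![1, 1, -1, 1], ![1, -1, 1, 1], ![-1, 1, 1, 1]]] i
  | (true, i) => ![![![1, -1, 0, 0], ![1, 1, 0, 0], ![0, 0, 1, 1], ![0, 0, 1, -1]],
      ![![1, 0, -1, 0], ![1, 0, 1, 0], ![0, 1, 0, 1], ![0, 1, 0, -1]],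
      ![![0, 1, -1, 0], ![0, 1, 1, 0], ![1, 0, 0, 1], ![1, 0, 0, -1]]] i

def eps (c : Ctx) : ℤ := if c = (true, 2) then -1 else 1

def N0 : Vx → Vx → Bool
  | .inl ((false, i), a), .inl ((true, j), b) => sg (false, i) a j != sg (true, j) b i
  | .inr c, .inl (c', b) => c == c' && b != 0
  | _, _ => false

def NN (y y' : Vx) : Bool := fib y == fib y' || N0 y y' || N0 y' y

def Y : SimpleGraph Vx where
  Adj y y' := NN y y' = false
  symm := ⟨by
    intro y y' h
    simp only [NN, Bool.or_eq_false_iff, beq_eq_false_iff_ne] at h ⊢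
    exact ⟨⟨h.1.1.symm, h.2⟩, h.1.2⟩⟩
  loopless := ⟨by intro y; simp [NN]⟩

lemma nadj (y y' : Vx) : ¬ Y.Adj y y' ↔ NN y y' = true := by simp [Y]

def vv : Vx → Fin 4 → ℤ
  | .inl (c, a) => vec c a
  | .inr c => vec c 0

def wz : Vx → ℕ
  | .inl (c, _) => if c.1 then 6 else if c.2 = 0 then 12 else 3
  | .inr c => if c.1 then 4 else if c.2 = 0 then 8 else 2

lemma wsum : ∀ (x : Option Ctx) (i j : Fin 4),
    ∑ y, (if fib y = x then (wz y : ℤ) * (vv y i * vv y j) else 0) = if i = j then 12 else 0 := by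
  decide +kernel

lemma vorth : ∀ y y' : Vx, fib y ≠ fib y' → NN y y' = true → ∑ i, vv y i * vv y' i = 0 := by
  decide +kernel

theorem weak : Weak (⊤ : SimpleGraph (Option Ctx)) Y := by
  let u : Vx → Fin 4 → ℝ := fun y i => vv y i
  let ρ : Option Ctx × Vx → Matrix (Fin 4) (Fin 4) ℝ := fun p =>
    if fib p.2 = p.1 then ((wz p.2 : ℝ) / 24) • vecMulVec (u p.2) (u p.2) else 0
  have hsum : ∀ x, ∑ y, ρ (x, y) = (1 / 2 : ℝ) • (1 : Matrix (Fin 4) (Fin 4) ℝ) := by
    intro x
    ext i j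
    have := congrArg (fun z : ℤ => (z : ℝ) / 24) (wsum x i j)
    simp only [Int.cast_sum, Finset.sum_div] at this
    rw [Matrix.sum_apply]
    convert this using 2 with y
    · simp only [ρ]
      split_ifs
      · simp [u, vecMulVec_apply]; ring
      · simp
    · simp only [Matrix.smul_apply, Matrix.one_apply]
      split_ifs <;> norm_num
  refine ⟨fun p q => (ρ p * ρ q).trace, ⟨4, by norm_num, ρ, fun p => ?_, fun _ _ => rfl⟩, ?_, ?_⟩
  · simp only [ρ]
    split_ifs
    · exact (by simpa using posSemidef_vecMulVec_self_star (u p.2) :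
        (vecMulVec (u p.2) (u p.2)).PosSemidef).smul (by positivity)
    · exact PosSemidef.zero
  · intro x x'
    simp only [← trace_sum, ← Finset.sum_mul_sum, hsum]
    simp
    norm_num
  · intro x x' y y' a b
    simp only [ρ]
    split_ifs with h1 h2
    · have := vorth y y' (by rw [h1, h2]; exact a.ne) ((nadj _ _).1 b)
      have h3 : u y ⬝ᵥ u y' = 0 := by
        simp only [dotProduct, u]; exact_mod_cast this
      simp [vecMulVec_mul_vecMulVec, h3]
    · simp
    · simp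
    · simp

lemma sg_sq : ∀ c a k, sg c a k * sg c a k = 1 := by decide
lemma sg_prod : ∀ c a k k', k ≠ k' → sg c a k * sg c a k' = eps c * sg c a (-(k + k')) := by decide
lemma sg_inv : ∀ c a b, 1 + ∑ k, sg c a k * sg c b k = if b = a then 4 else 0 := by decide
lemma eps_id : ∀ (t : Bool) (i i' j j' : Fin 3), i ≠ i' → j ≠ j' →
    eps (t, i) * eps (t, i') * eps (!t, -(j + j')) =
      -(eps (!t, j) * eps (!t, j') * eps (t, -(i + i'))) := by decide

section
variable {W : Type} [AddCommGroup W] [Module ℝ W] [FiniteDimensional ℝ W]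
  (P : Ctx → Fin 4 → Module.End ℝ W)

def Ob (c : Ctx) (k : Fin 3) : Module.End ℝ W := ∑ a, (sg c a k : ℝ) • P c a

structure MS : Prop where
  idem : ∀ c a, P c a * P c a = P c a
  orth : ∀ c a b, a ≠ b → P c a * P c b = 0
  sum : ∀ c, ∑ a, P c a = 1
  rc : ∀ i j a b, sg (false, i) a j ≠ sg (true, j) b i → P (false, i) a * P (true, j) b = 0

variable {P}

omit [FiniteDimensional ℝ W] in
lemma MS.mulO (h : MS P) (c a k) : P c a * Ob P c k = (sg c a k : ℝ) • P c a := by
  simp only [Ob, Finset.mul_sum, mul_smul_comm]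
  rw [Finset.sum_eq_single a (fun b _ e => by rw [h.orth c a b e.symm, smul_zero]) (by simp), h.idem]

omit [FiniteDimensional ℝ W] in
lemma MS.Omul (h : MS P) (c a k) : Ob P c k * P c a = (sg c a k : ℝ) • P c a := by
  simp only [Ob, Finset.sum_mul, smul_mul_assoc]
  rw [Finset.sum_eq_single a (fun b _ e => by rw [h.orth c b a e, smul_zero]) (by simp), h.idem]

omit [FiniteDimensional ℝ W] in
lemma MS.OO (h : MS P) (c k k') :
    Ob P c k * Ob P c k' = ∑ a, ((sg c a k * sg c a k' : ℤ) : ℝ) • P c a := by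
  conv_lhs => rw [Ob]
  simp only [Finset.sum_mul, smul_mul_assoc, h.mulO, smul_smul, Int.cast_mul]

omit [FiniteDimensional ℝ W] in
lemma MS.sq (h : MS P) (c k) : Ob P c k * Ob P c k = 1 := by
  simp only [h.OO, sg_sq, Int.cast_one, one_smul, h.sum]

omit [FiniteDimensional ℝ W] in
lemma MS.prod (h : MS P) (c k k') (e : k ≠ k') :
    Ob P c k * Ob P c k' = (eps c : ℝ) • Ob P c (-(k + k')) := by
  rw [h.OO]
  simp only [sg_prod c _ k k' e, Ob, Finset.smul_sum, smul_smul, Int.cast_mul]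

omit [FiniteDimensional ℝ W] in
lemma MS.tr0 (h : MS P) (i j) : Ob P (false, i) j = Ob P (true, j) i := by
  have e1 : Ob P (false, i) j = ∑ a, ∑ b, (sg (false, i) a j : ℝ) • (P (false, i) a * P (true, j) b) := by
    simp only [Ob, ← Finset.smul_sum, ← Finset.mul_sum, h.sum, mul_one]
  have e2 : Ob P (true, j) i = ∑ a, ∑ b, (sg (true, j) b i : ℝ) • (P (false, i) a * P (true, j) b) := by
    rw [Finset.sum_comm]
    simp only [Ob, ← Finset.smul_sum, ← Finset.sum_mul, h.sum, one_mul]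
  rw [e1, e2]
  refine Finset.sum_congr rfl fun a _ => Finset.sum_congr rfl fun b _ => ?_
  by_cases e : sg (false, i) a j = sg (true, j) b i
  · rw [e]
  · rw [h.rc i j a b e, smul_zero, smul_zero]

omit [FiniteDimensional ℝ W] in
lemma MS.tr (h : MS P) (t i j) : Ob P (t, i) j = Ob P (!t, j) i := by
  cases t
  · exact h.tr0 i j
  · exact (h.tr0 j i).symm

omit [FiniteDimensional ℝ W] in
lemma MS.anti (h : MS P) (t : Bool) (i i' j j' : Fin 3) (hi : i ≠ i') (hj : j ≠ j') :
    Ob P (t, i) j' * Ob P (t, i') j = -(Ob P (t, i') j * Ob P (t, i) j') := by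
  have e1 : Ob P (t, i) j * Ob P (t, i) j' * (Ob P (t, i') j * Ob P (t, i') j') =
      ((eps (t, i) * eps (t, i') * eps (!t, -(j + j')) : ℤ) : ℝ) •
        Ob P (t, -(i + i')) (-(j + j')) := by
    rw [h.prod _ _ _ hj, h.prod _ _ _ hj, smul_mul_assoc, mul_smul_comm, h.tr t i, h.tr t i',
      h.prod _ _ _ hi, ← h.tr t, smul_smul, smul_smul]
    push_cast; rfl
  have e2 : Ob P (t, i) j * Ob P (t, i') j * (Ob P (t, i) j' * Ob P (t, i') j') =
      ((eps (!t, j) * eps (!t, j') * eps (t, -(i + i')) : ℤ) : ℝ) •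
        Ob P (t, -(i + i')) (-(j + j')) := by
    rw [h.tr t i, h.tr t i', h.tr t i, h.tr t i', h.prod _ _ _ hi, h.prod _ _ _ hi, smul_mul_assoc,
      mul_smul_comm, ← h.tr t, ← h.tr t, h.prod _ _ _ hj, smul_smul, smul_smul]
    push_cast; rfl
  rw [eps_id t i i' j j' hi hj, Int.cast_neg, neg_smul, ← e2] at e1
  have a := h.sq (t, i) j
  have b := h.sq (t, i') j'
  generalize Ob P (t, i) j = A at *
  generalize Ob P (t, i) j' = B at *
  generalize Ob P (t, i') j = C at *
  generalize Ob P (t, i') j' = D at *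
  calc B * C = (A * A) * B * C * (D * D) := by rw [a, b]; simp
    _ = A * (A * B * (C * D)) * D := by simp only [mul_assoc]
    _ = -((A * A) * C * B * (D * D)) := by rw [e1]; simp only [mul_assoc, mul_neg, neg_mul]
    _ = -(C * B) := by rw [a, b]; simp

omit [FiniteDimensional ℝ W] in
lemma MS.inv (h : MS P) (c a) :
    P c a = (1 / 4 : ℝ) • (1 + ∑ k, (sg c a k : ℝ) • Ob P c k) := by
  have : 1 + ∑ k, (sg c a k : ℝ) • Ob P c k =
      ∑ b, ((1 + ∑ k, sg c a k * sg c b k : ℤ) : ℝ) • P c b := by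
    simp only [Ob, Finset.smul_sum, smul_smul]
    rw [Finset.sum_comm, ← h.sum c, ← Finset.sum_add_distrib]
    refine Finset.sum_congr rfl fun b _ => ?_
    push_cast
    rw [add_smul, one_smul, Finset.sum_smul]
  rw [this]
  simp only [sg_inv]
  rw [Finset.sum_eq_single a (fun b _ e => by simp [e]) (by simp)]
  simp [smul_smul]

omit [FiniteDimensional ℝ W] in
lemma MS.kill (h : MS P) (t : Bool) (i i' j : Fin 3) (hi : i ≠ i') (a) :
    P (t, i) a * Ob P (t, i') j * P (t, i) a = 0 := by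
  have hj : j ≠ j + 1 := by revert j; decide
  have e := h.anti t i i' j (j + 1) hi hj
  have e1 : (sg (t, i) a (j + 1) : ℝ) • (P (t, i) a * Ob P (t, i') j * P (t, i) a) =
      -((sg (t, i) a (j + 1) : ℝ) • (P (t, i) a * Ob P (t, i') j * P (t, i) a)) := by
    calc (sg (t, i) a (j + 1) : ℝ) • (P (t, i) a * Ob P (t, i') j * P (t, i) a)
        = P (t, i) a * (Ob P (t, i) (j + 1) * Ob P (t, i') j) * P (t, i) a := by
          rw [← mul_assoc, h.mulO, smul_mul_assoc, smul_mul_assoc]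
      _ = -(P (t, i) a * Ob P (t, i') j * (Ob P (t, i) (j + 1) * P (t, i) a)) := by
          rw [e]; simp only [mul_assoc, mul_neg, neg_mul]
      _ = _ := by rw [h.Omul, mul_smul_comm]
  have e2 : ((2 * sg (t, i) a (j + 1) : ℝ)) • (P (t, i) a * Ob P (t, i') j * P (t, i) a) = 0 := by
    rw [two_mul, add_smul]
    nth_rewrite 1 [e1]
    simp
  have e3 : (sg (t, i) a (j + 1) : ℝ) ≠ 0 := by
    intro h0
    have := sg_sq (t, i) a (j + 1)
    have h1 : sg (t, i) a (j + 1) = 0 := by exact_mod_cast h0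
    rw [h1] at this; simp at this
  exact (smul_eq_zero.1 e2).resolve_left (mul_ne_zero two_ne_zero e3)

omit [FiniteDimensional ℝ W] in
lemma MS.rel (h : MS P) (t : Bool) (i i' : Fin 3) (hi : i ≠ i') (a b) :
    P (t, i) a * P (t, i') b * P (t, i) a = (1 / 4 : ℝ) • P (t, i) a := by
  rw [h.inv (t, i') b]
  simp only [mul_smul_comm, smul_mul_assoc, mul_add, add_mul, mul_one, h.idem, Finset.mul_sum,
    Finset.sum_mul, h.kill t i i' _ hi, smul_zero, Finset.sum_const_zero, add_zero]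

omit [FiniteDimensional ℝ W] in
lemma MS.trace (h : MS P) (c b) :
    LinearMap.trace ℝ W (P c b) = (1 / 4 : ℝ) * LinearMap.trace ℝ W 1 := by
  obtain ⟨t, i'⟩ := c
  have hi : i' + 1 ≠ i' := by revert i'; decide
  calc LinearMap.trace ℝ W (P (t, i') b)
      = LinearMap.trace ℝ W ((∑ a, P (t, i' + 1) a) * P (t, i') b) := by rw [h.sum, one_mul]
    _ = ∑ a, LinearMap.trace ℝ W (P (t, i' + 1) a * P (t, i') b * P (t, i' + 1) a) := by
        rw [Finset.sum_mul, map_sum]
        refine Finset.sum_congr rfl fun a _ => ?_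
        rw [LinearMap.trace_mul_comm ℝ (P (t, i' + 1) a * P (t, i') b), ← mul_assoc, h.idem]
    _ = _ := by
        simp only [h.rel t _ _ hi, map_smul, smul_eq_mul]
        rw [← Finset.mul_sum, ← map_sum, h.sum]

end

theorem not_strong : ¬ Strong (⊤ : SimpleGraph (Option Ctx)) Y := by
  intro hs
  obtain ⟨W, _, _, _, _, E, h1, h2, h3, h4⟩ := strong_idem _ _ hs
  obtain ⟨Q, q1, q2, q3⟩ := fibres Y fib (fun y y' h => by rw [nadj]; simp [NN, h]) E h1 h2 h3 h4
  let P : Ctx → Fin 4 → Module.End ℝ W := fun c a => Q (.inl (c, a))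
  let A : Ctx → Module.End ℝ W := fun c => Q (.inr c)
  have hP : MS P := by
    refine ⟨fun c a => q1 _, fun c a b e => q2 _ _ (by simpa using e) ?_, fun c => ?_,
      fun i j a b e => q2 _ _ (by simp) ?_⟩
    · rw [nadj]; simp [NN, fib]
    · rw [← q3 (some c), Finset.sum_filter, Fintype.sum_sum_type, Fintype.sum_prod_type,
        Finset.sum_eq_single c (fun c' _ e => by simp [fib, e]) (by simp)]
      simp [fib, P]
    · rw [nadj]; simp [NN, N0, e]
  have hA : ∑ c, A c = 1 := by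
    rw [← q3 none, Finset.sum_filter, Fintype.sum_sum_type]
    simp [fib, A]
  have ae : ∀ c, A c * P c 0 = A c := by
    intro c
    conv_rhs => rw [← mul_one (A c), ← hP.sum c, Finset.mul_sum]
    rw [Finset.sum_eq_single 0 (fun b _ e => q2 _ _ (by simp) (by rw [nadj]; simp [NN, N0, e]))
      (by simp)]
  have ea : ∀ c, P c 0 * A c = A c := by
    intro c
    conv_rhs => rw [← one_mul (A c), ← hP.sum c, Finset.sum_mul]
    rw [Finset.sum_eq_single 0 (fun b _ e => q2 _ _ (by simp) (by rw [nadj]; simp [NN, N0, e]))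
      (by simp)]
  have aa : ∀ c c', c ≠ c' → A c * A c' = 0 := fun c c' e =>
    q2 _ _ (by simpa using e) (by rw [nadj]; simp [NN, fib])
  have hp : ∀ (t : Bool) (i i' : Fin 3), i ≠ i' →
      LinearMap.trace ℝ W (A (t, i)) + LinearMap.trace ℝ W (A (t, i')) ≤
        (1 / 4 : ℝ) * LinearMap.trace ℝ W 1 := by
    intro t i i' e
    rw [← hP.trace (t, i) 0]
    exact pair (hP.idem _ _) (q1 _) (q1 _) (ea _) (ae _) (ea _) (ae _) (aa _ _ (by simpa using e))
      (aa _ _ (by simpa using e.symm)) (hP.rel t i' i e.symm 0 0)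
  have h0 : 0 < LinearMap.trace ℝ W 1 := by
    rw [LinearMap.trace_one]; exact_mod_cast Module.finrank_pos
  have h5 := congrArg (LinearMap.trace ℝ W) hA
  rw [map_sum, Fintype.sum_prod_type, Fintype.sum_bool, Fin.sum_univ_three, Fin.sum_univ_three] at h5
  linarith [hp true 0 1 (by decide), hp true 1 2 (by decide), hp true 0 2 (by decide),
    hp false 0 1 (by decide), hp false 1 2 (by decide), hp false 0 2 (by decide)]

end Pool.Agent.H6.CS
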