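import Mathlib

/-! Strong and weak completely positive semidefinite graph homomorphisms. -/

namespace Pool.Agent.H6.CS

/-- Membership in the completely positive semidefinite cone. -/
def CSplus {ι : Type} (M : Matrix ι ι ℝ) : Prop :=
  ∃ d : ℕ, 1 ≤ d ∧ ∃ ρ : ι → Matrix (Fin d) (Fin d) ℝ,
    (∀ i, (ρ i).PosSemidef) ∧ ∀ i j, M i j = (ρ i * ρ j).trace

variable {A B : Type} [Fintype B]

/-- Condition (C1). -/
def C1 (H : Matrix (A × B) (A × B) ℝ) : Prop := ∀ x x' : A, ∑ y, ∑ y', H (x, y) (x', y') = 1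

/-- Condition (C2). -/
def C2 (X : SimpleGraph A) (Y : SimpleGraph B) (H : Matrix (A × B) (A × B) ℝ) : Prop :=
  ∀ x x' y y', X.Adj x x' → ¬ Y.Adj y y' → H (x, y) (x', y') = 0

/-- Condition (C3). -/
def C3 (H : Matrix (A × B) (A × B) ℝ) : Prop := ∀ x y y', y ≠ y' → H (x, y) (x, y') = 0

/-- Weak homomorphism for the completely positive semidefinite cone. -/
def Weak (X : SimpleGraph A) (Y : SimpleGraph B) : Prop :=
  ∃ H : Matrix (A × B) (A × B) ℝ, CSplus H ∧ C1 H ∧ C2 X Y H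

/-- Strong homomorphism for the completely positive semidefinite cone. -/
def Strong (X : SimpleGraph A) (Y : SimpleGraph B) : Prop :=
  ∃ H : Matrix (A × B) (A × B) ℝ, CSplus H ∧ C1 H ∧ C2 X Y H ∧ C3 H

end Pool.Agent.H6.CS
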