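import Mathlib

/-! Window counting for two Sidon sets in the plane without a common difference. -/

open Finset

namespace Pool.Agent.H6.Cs

open Classical in
/-- Pairs of window points whose difference is a difference of two distinct points of `P`. -/
noncomputable def hit (P W : Finset (ℤ × ℤ)) : Finset ((ℤ × ℤ) × ℤ × ℤ) :=
  (W ×ˢ W).filter fun w => ∃ p ∈ P, ∃ p' ∈ P, p ≠ p' ∧ p - p' = w.2 - w.1

theorem energy_le (P W : Finset (ℤ × ℤ))
    (hP : ∀ p ∈ P, ∀ p' ∈ P, ∀ q ∈ P, ∀ q' ∈ P, p ≠ p' → q ≠ q' → p - p' = q - q' → p = q ∧ p' = q') :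
    addEnergy P W ≤ #P * #W + #(hit P W) := by
  classical
  rw [addEnergy, ← card_filter_add_card_filter_not fun x => x.1.1 = x.1.2, ← card_product]
  refine add_le_add (card_le_card_of_injOn (fun x => (x.1.1, x.2.1)) (fun x hx => ?_) ?_)
    (card_le_card_of_injOn (fun x => x.2) (fun x hx => ?_) ?_)
  · simp only [coe_filter, mem_filter, mem_product, Set.mem_ofPred_eq] at hx
    exact mem_coe.2 (mem_product.2 ⟨hx.1.1.1.1, hx.1.1.2.1⟩)
  · rintro ⟨⟨a, b⟩, c, d⟩ hx ⟨⟨a', b'⟩, c', d'⟩ hy e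
    simp only [coe_filter, mem_filter, mem_product, Set.mem_ofPred_eq, Prod.mk.injEq] at hx hy e
    obtain ⟨rfl, rfl⟩ := e
    obtain ⟨⟨-, h1⟩, rfl⟩ := hx
    obtain ⟨⟨-, h2⟩, rfl⟩ := hy
    rw [← add_left_cancel h1, ← add_left_cancel h2]
  · simp only [coe_filter, mem_filter, mem_product, Set.mem_ofPred_eq] at hx
    refine mem_coe.2 (mem_filter.2 ⟨mem_product.2 hx.1.1.2, _, hx.1.1.1.1, _, hx.1.1.1.2, hx.2, ?_⟩)
    rw [sub_eq_sub_iff_add_eq_add, hx.1.2, add_comm]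
  · rintro ⟨⟨a, b⟩, c, d⟩ hx ⟨⟨a', b'⟩, c', d'⟩ hy e
    simp only [coe_filter, mem_filter, mem_product, Set.mem_ofPred_eq, Prod.mk.injEq] at hx hy e
    obtain ⟨rfl, rfl⟩ := e
    obtain ⟨rfl, rfl⟩ := hP a hx.1.1.1.1 b hx.1.1.1.2 a' hy.1.1.1.1 b' hy.1.1.1.2 hx.2 hy.2 (by
      rw [eq_sub_of_add_eq hx.1.2, eq_sub_of_add_eq hy.1.2]; abel)
    rfl

/-- The square window of side `a`. -/
noncomputable def box (a : ℕ) : Finset (ℤ × ℤ) := Ico (0 : ℤ) a ×ˢ Ico (0 : ℤ) a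

theorem card_box (a : ℕ) : #(box a) = a ^ 2 := by simp [box, sq]

theorem low {n : ℕ} (a : ℕ) {P : Finset (ℤ × ℤ)} (hc : #P = n) (hb : P ⊆ box n)
    (hP : ∀ p ∈ P, ∀ p' ∈ P, ∀ q ∈ P, ∀ q' ∈ P, p ≠ p' → q ≠ q' → p - p' = q - q' → p = q ∧ p' = q') :
    (n * a ^ 2) ^ 2 ≤ (n + a) ^ 2 * (n * a ^ 2 + #(hit P (box a))) := by
  have h := card_sq_le_card_mul_addEnergy P (box a) (box (n + a))
  rw [filter_eq_self.2, card_product, hc, card_box, card_box] at h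
  · have := energy_le P (box a) hP
    rw [hc, card_box] at this
    exact h.trans (Nat.mul_le_mul_left _ this)
  · intro x hx
    have h1 := hb (mem_product.1 hx).1
    have h2 := (mem_product.1 hx).2
    simp only [box, mem_product, mem_Ico, Prod.fst_add, Prod.snd_add, Nat.cast_add] at h1 h2 ⊢
    omega

theorem key {n m a : ℕ} (ha : 0 < a) {P Q : Finset (ℤ × ℤ)} (hc : #P = n) (hb : P ⊆ box n)
    (hP : ∀ p ∈ P, ∀ p' ∈ P, ∀ q ∈ P, ∀ q' ∈ P, p ≠ p' → q ≠ q' → p - p' = q - q' → p = q ∧ p' = q')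
    (hc' : #Q = m) (hb' : Q ⊆ box m)
    (hQ : ∀ p ∈ Q, ∀ p' ∈ Q, ∀ q ∈ Q, ∀ q' ∈ Q, p ≠ p' → q ≠ q' → p - p' = q - q' → p = q ∧ p' = q')
    (h : ∀ p ∈ P, ∀ p' ∈ P, ∀ q ∈ Q, ∀ q' ∈ Q, p ≠ p' → q ≠ q' → p - p' ≠ q - q') :
    ((n : ℝ) / (n + a)) ^ 2 + ((m : ℝ) / (m + a)) ^ 2 ≤ 1 + (n + m) / (a : ℝ) ^ 2 := by
  have a0 : (0 : ℝ) < a := Nat.cast_pos.2 ha
  have s : #(hit P (box a)) + #(hit Q (box a)) ≤ a ^ 2 * a ^ 2 := by
    classical
    rw [← card_union_of_disjoint, ← card_box, ← card_product]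
    · exact card_le_card (union_subset (filter_subset _ _) (filter_subset _ _))
    · refine disjoint_left.2 fun w h1 h2 => ?_
      obtain ⟨p, hp, p', hp', e, r⟩ := (mem_filter.1 h1).2
      obtain ⟨q, hq, q', hq', e', r'⟩ := (mem_filter.1 h2).2
      exact h p hp p' hp' q hq q' hq' e e' (r.trans r'.symm)
  have conv : ∀ n E : ℕ, (n * a ^ 2) ^ 2 ≤ (n + a) ^ 2 * (n * a ^ 2 + E) →
      ((n : ℝ) / (n + a)) ^ 2 ≤ n / (a : ℝ) ^ 2 + E / ((a : ℝ) ^ 2 * a ^ 2) := fun n E q => by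
    have q : ((n : ℝ) * a ^ 2) ^ 2 ≤ (n + a) ^ 2 * (n * a ^ 2 + E) := by exact_mod_cast q
    have e : n / (a : ℝ) ^ 2 + E / ((a : ℝ) ^ 2 * a ^ 2) = (n * a ^ 2 + E) / (a ^ 2 * a ^ 2) := by
      field_simp
    rw [e, div_pow, div_le_div_iff₀ (by positivity) (by positivity)]
    nlinarith
  have h1 := conv _ _ (low a hc hb hP)
  have h2 := conv _ _ (low a hc' hb' hQ)
  have s : (#(hit P (box a)) + #(hit Q (box a)) : ℝ) / ((a : ℝ) ^ 2 * a ^ 2) ≤ 1 :=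
    (div_le_one (by positivity)).2 (by exact_mod_cast s)
  rw [add_div] at s ⊢
  linarith

theorem arith {c : ℝ} (hc : c < 1) : ∃ N : ℕ, ∀ n m : ℕ, N ≤ n → n ≤ m → (m : ℝ) ≤ c * n ^ 2 →
    ∃ a : ℕ, 0 < a ∧
      1 + (n + m) / (a : ℝ) ^ 2 < ((n : ℝ) / (n + a)) ^ 2 + ((m : ℝ) / (m + a)) ^ 2 := by
  obtain ⟨K, hK⟩ := exists_nat_gt (max 1 (2 / (1 - c)))
  have K1 : (1 : ℝ) < K := (le_max_left _ _).trans_lt hK
  have K2 : 2 < K * (1 - c) := (div_lt_iff₀ (by linarith)).1 ((le_max_right _ _).trans_lt hK)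
  obtain ⟨η, hη⟩ : ∃ η : ℝ, η = (1 / (1 + K)) ^ 2 - c / K ^ 2 := ⟨_, rfl⟩
  have η0 : 0 < η := by
    rw [hη, sub_pos, div_pow, div_lt_div_iff₀ (by positivity) (by positivity)]
    have : c * K < K - 2 := by linarith
    have : c * K * (1 + K) ^ 2 < (K - 2) * (1 + K) ^ 2 := mul_lt_mul_of_pos_right this (by positivity)
    refine lt_of_mul_lt_mul_left (a := (K : ℝ)) ?_ (by linarith)
    nlinarith
  obtain ⟨N, hN⟩ := exists_nat_gt (max 100 ((256 * K + 1) / η))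
  refine ⟨N, fun n m h1 h2 h3 => ?_⟩
  have h1 : (N : ℝ) ≤ n := by exact_mod_cast h1
  have h2 : (n : ℝ) ≤ m := by exact_mod_cast h2
  have n1 : (100 : ℝ) < n := ((le_max_left _ _).trans_lt hN).trans_le h1
  have n2 : 256 * K + 1 < n * η :=
    (div_lt_iff₀ η0).1 (((le_max_right _ _).trans_lt hN).trans_le h1)
  by_cases q : (n + m : ℝ) ≤ n ^ 2 / 64
  · refine ⟨n / 4 + 1, Nat.succ_pos _, ?_⟩
    obtain ⟨a, ha⟩ : ∃ a : ℕ, a = n / 4 + 1 := ⟨_, rfl⟩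
    rw [← ha]
    have b1 : (n : ℝ) ≤ 4 * a := by exact_mod_cast (by omega : n ≤ 4 * a)
    have b2 : (4 * a : ℝ) ≤ n + 4 := by exact_mod_cast (by omega : 4 * a ≤ n + 4)
    have c1 : (n + m) / (a : ℝ) ^ 2 ≤ 1 / 4 := by
      rw [div_le_iff₀ (by nlinarith)]; nlinarith
    have c2 : (50 / 63 : ℝ) ≤ n / (n + a) := by rw [le_div_iff₀ (by linarith)]; linarith
    have c3 : (50 / 63 : ℝ) ≤ m / (m + a) := by rw [le_div_iff₀ (by linarith)]; linarith
    nlinarith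
  · have K0 : 0 < K := by exact_mod_cast (by linarith : (0 : ℝ) < K)
    have n0 : 0 < n := by exact_mod_cast (by linarith : (0 : ℝ) < n)
    refine ⟨K * n, Nat.mul_pos K0 n0, ?_⟩
    push_cast
    have e1 : (n : ℝ) / (n + K * n) = 1 / (1 + K) := by field_simp
    have c1 : (n + m) / ((K : ℝ) * n) ^ 2 ≤ 1 / n + c / K ^ 2 := by
      rw [div_le_iff₀ (by positivity)]
      have : (1 / n + c / K ^ 2) * ((K : ℝ) * n) ^ 2 = K ^ 2 * n + c * n ^ 2 := by field_simp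
      rw [this]
      nlinarith [mul_le_mul_of_nonneg_right (one_le_pow₀ (n := 2) K1.le) (by linarith : (0 : ℝ) ≤ n)]
    have c2 : 1 - 128 * K / n ≤ (m : ℝ) / (m + K * n) := by
      have e : (m : ℝ) / (m + K * n) = 1 - K * n / (m + K * n) := by field_simp; ring
      have : (K : ℝ) * n / (m + K * n) ≤ 128 * K / n := by
        rw [div_le_div_iff₀ (by positivity) (by positivity)]
        have : (n : ℝ) ^ 2 ≤ 128 * m := by linarith
        nlinarith [mul_le_mul_of_nonneg_left this (by linarith : (0 : ℝ) ≤ K),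
          mul_nonneg (mul_nonneg (by linarith : (0 : ℝ) ≤ K) (by linarith : (0 : ℝ) ≤ K))
            (by linarith : (0 : ℝ) ≤ n)]
      linarith
    have c3 : 1 - 256 * K / n ≤ ((m : ℝ) / (m + K * n)) ^ 2 := by
      have : (256 : ℝ) * K / n = 2 * (128 * K / n) := by ring
      nlinarith [sq_nonneg ((m : ℝ) / (m + K * n) - 1)]
    have c4 : 256 * K / n + 1 / n < η := by
      rw [← add_div, div_lt_iff₀ (by linarith)]; linarith
    rw [e1]
    linarith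

end Pool.Agent.H6.Cs
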