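import Mathlib

/-! Strong colourings of hypergraphs whose derived graphs have bounded chromatic number. -/

namespace Pool.Agent.H6.Derived
open Finset

variable {V ι : Type} [Fintype V] [Fintype ι] [DecidableEq V] [DecidableEq ι]

/-- every choice of pairs from some of the edges can be properly coloured -/
def Good (e : ι → Finset V) (d : ℕ) : Prop :=
  ∀ (I : Finset ι) (p : ι → V × V), (∀ i ∈ I, (p i).1 ∈ e i ∧ (p i).2 ∈ e i ∧ (p i).1 ≠ (p i).2) →
    ∃ c : V → Fin d, ∀ i ∈ I, c (p i).1 ≠ c (p i).2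

lemma shrink {d : ℕ} (hd : 0 < d) (A : Finset V) (hA : d + 1 ≤ A.card) (S : Finset (V → Fin d)) :
    ∃ a ∈ A, ∃ b ∈ A, a ≠ b ∧
      (d + 1) ^ 2 * (S.filter fun c => c a ≠ c b).card ≤ ((d + 1) ^ 2 - 1) * S.card := by
  obtain ⟨B, hB, hc⟩ := exists_subset_card_eq hA
  have hcov : S ⊆ B.offDiag.biUnion fun ab => S.filter fun c => c ab.1 = c ab.2 := by
    intro c hcS
    obtain ⟨a, ha, b, hb, hab, e⟩ := exists_ne_map_eq_of_card_lt_of_maps_to
      (s := B) (t := (univ : Finset (Fin d))) (f := c) (by simp [hc]) (fun _ _ => by simp)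
    exact mem_biUnion.2 ⟨(a, b), mem_offDiag.2 ⟨ha, hb, hab⟩, mem_filter.2 ⟨hcS, e⟩⟩
  by_cases hne : B.offDiag.Nonempty
  · obtain ⟨⟨a, b⟩, hab, hmax⟩ := exists_max_image B.offDiag
      (fun ab : V × V => (S.filter fun c : V → Fin d => c ab.1 = c ab.2).card) hne
    have h1 : S.card ≤ B.offDiag.card * (S.filter fun c => c a = c b).card :=
      (card_le_card hcov).trans (card_biUnion_le_card_mul _ _ _ hmax)
    have h2 : B.offDiag.card ≤ (d + 1) ^ 2 := by
      rw [offDiag_card, hc, sq]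
      omega
    have h3 := card_filter_add_card_filter_not (s := S) (fun c => c a = c b)
    rw [mem_offDiag] at hab
    refine ⟨a, hB hab.1, b, hB hab.2.1, hab.2.2, ?_⟩
    have h4 : S.card ≤ (d + 1) ^ 2 * (S.filter fun c => c a = c b).card :=
      h1.trans (Nat.mul_le_mul_right _ h2)
    have h5 : 1 ≤ (d + 1) ^ 2 := Nat.one_le_pow _ _ (by omega)
    obtain ⟨Q, hQ⟩ := Nat.exists_eq_add_of_le' h5
    rw [hQ] at h4 ⊢
    simp only [ne_eq, Nat.add_sub_cancel]
    rw [← h3] at h4 ⊢
    nlinarith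
  · exfalso
    rw [not_nonempty_iff_eq_empty, ← card_eq_zero, offDiag_card, hc] at hne
    have : (d + 1) * (d + 1) = (d + 1) * d + (d + 1) := by ring
    have : 0 < (d + 1) * d := Nat.mul_pos (by omega) hd
    omega

lemma greedy [Nonempty V] {d : ℕ} (hd : 0 < d) (e : ι → Finset V) (U : Finset V)
    (S : Finset (V → Fin d)) (I : Finset ι) (hI : ∀ i ∈ I, d + 1 ≤ (e i ∩ U).card) :
    ∃ p : ι → V × V, (∀ i ∈ I, (p i).1 ∈ e i ∩ U ∧ (p i).2 ∈ e i ∩ U ∧ (p i).1 ≠ (p i).2) ∧
      ((d + 1) ^ 2) ^ I.card * (S.filter fun c => ∀ i ∈ I, c (p i).1 ≠ c (p i).2).card ≤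
        ((d + 1) ^ 2 - 1) ^ I.card * S.card := by
  induction I using Finset.induction_on with
  | empty => exact ⟨fun _ => Classical.arbitrary _, by simp, by simp⟩
  | insert j I hj ih =>
    obtain ⟨p, hp, hc⟩ := ih (fun i hi => hI i (mem_insert_of_mem hi))
    obtain ⟨a, ha, b, hb, hab, h⟩ := shrink hd _ (hI j (mem_insert_self _ _))
      (S.filter fun c => ∀ i ∈ I, c (p i).1 ≠ c (p i).2)
    have hup : ∀ i ∈ I, Function.update p j (a, b) i = p i := fun i hi =>
      Function.update_of_ne (by rintro rfl; exact hj hi) _ _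
    refine ⟨Function.update p j (a, b), ?_, ?_⟩
    · intro i hi
      rcases mem_insert.1 hi with rfl | hi
      · simpa using ⟨by simpa using ha, by simpa using hb, hab⟩
      · rw [hup i hi]
        exact hp i hi
    · have e1 : (S.filter fun c => ∀ i ∈ insert j I, c (Function.update p j (a, b) i).1 ≠
          c (Function.update p j (a, b) i).2) =
          (S.filter fun c => ∀ i ∈ I, c (p i).1 ≠ c (p i).2).filter fun c => c a ≠ c b := by
        ext c
        simp only [mem_filter, forall_mem_insert, Function.update_self]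
        constructor
        · rintro ⟨h1, h2, h3⟩
          exact ⟨⟨h1, fun i hi => hup i hi ▸ h3 i hi⟩, h2⟩
        · rintro ⟨⟨h1, h3⟩, h2⟩
          exact ⟨h1, h2, fun i hi => (hup i hi).symm ▸ h3 i hi⟩
      rw [e1, card_insert_of_notMem hj, pow_succ _ I.card, pow_succ _ I.card]
      calc _ = ((d + 1) ^ 2) ^ I.card * ((d + 1) ^ 2 * _) := by ring
        _ ≤ ((d + 1) ^ 2) ^ I.card * (((d + 1) ^ 2 - 1) * _) := Nat.mul_le_mul_left _ h
        _ = ((d + 1) ^ 2 - 1) * (((d + 1) ^ 2) ^ I.card * _) := by ring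
        _ ≤ ((d + 1) ^ 2 - 1) * (((d + 1) ^ 2 - 1) ^ I.card * S.card) := Nat.mul_le_mul_left _ hc
        _ = _ := by ring

lemma bern (Q : ℕ) (hQ : 0 < Q) : 2 * Q ^ Q ≤ (Q + 1) ^ Q := by
  obtain ⟨n, rfl⟩ := Nat.exists_eq_add_of_le' hQ
  have : ∀ k : ℕ, (n + 1) ^ (k + 1) + (k + 1) * (n + 1) ^ k ≤ (n + 1 + 1) ^ (k + 1) := by
    intro k
    induction k with
    | zero => simp
    | succ k ih =>
      rw [pow_succ (n + 1 + 1) (k + 1), pow_succ (n + 1) (k + 1), pow_succ (n + 1) k] at *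
      nlinarith [Nat.mul_le_mul_right (n + 1 + 1) ih, Nat.zero_le ((n + 1) ^ k)]
  have h := this n
  rw [pow_succ (n + 1) n] at h ⊢
  nlinarith

lemma numA {Q d u m : ℕ} (hQ : 0 < Q) (hu : 0 < u) (h : (Q + 1) ^ m ≤ Q ^ m * d ^ u) :
    m ≤ Q * d * u := by
  by_contra hcon
  obtain ⟨t, ht⟩ := Nat.exists_eq_add_of_le (not_le.1 hcon).le
  have h1 : d ^ u < 2 ^ (d * u) := by
    rw [pow_mul]
    exact Nat.pow_lt_pow_left Nat.lt_two_pow_self (by omega)
  have h2 : (2 * Q ^ Q) ^ (d * u) ≤ ((Q + 1) ^ Q) ^ (d * u) := Nat.pow_le_pow_left (bern Q hQ) _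
  have h3 : Q ^ t ≤ (Q + 1) ^ t := Nat.pow_le_pow_left (by omega) _
  have h4 : 2 ^ (d * u) * Q ^ m ≤ (Q + 1) ^ m := by
    rw [ht, pow_add, pow_add, mul_assoc Q, pow_mul Q, pow_mul (Q + 1), ← mul_assoc, ← mul_pow]
    exact Nat.mul_le_mul h2 h3
  have h5 : 0 < Q ^ m := pow_pos hQ _
  nlinarith

lemma sparse [Nonempty V] {d : ℕ} (hd : 0 < d) {e : ι → Finset V} (hg : Good e d) (U : Finset V)
    (I : Finset ι) (hI : ∀ i ∈ I, d + 1 ≤ (e i ∩ U).card) :
    I.card ≤ (d + 1) ^ 2 * d * U.card := by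
  rcases Nat.eq_zero_or_pos U.card with h0 | hu
  · rw [card_eq_zero] at h0
    subst h0
    rcases I.eq_empty_or_nonempty with rfl | ⟨i, hi⟩
    · simp
    · simpa using hI i hi
  let z : Fin d := ⟨0, hd⟩
  let S : Finset (V → Fin d) := Fintype.piFinset fun v => if v ∈ U then univ else {z}
  have hS : S.card = d ^ U.card := by
    simp only [S, Fintype.card_piFinset, apply_ite card, card_univ, Fintype.card_fin,
      card_singleton]
    rw [prod_ite_mem, univ_inter, prod_const]
  obtain ⟨p, hp, hc⟩ := greedy hd e U S I hI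
  obtain ⟨c, hcc⟩ := hg I p (fun i hi =>
    ⟨(mem_inter.1 (hp i hi).1).1, (mem_inter.1 (hp i hi).2.1).1, (hp i hi).2.2⟩)
  have hne : 1 ≤ (S.filter fun c => ∀ i ∈ I, c (p i).1 ≠ c (p i).2).card := by
    refine card_pos.2 ⟨fun v => if v ∈ U then c v else z, mem_filter.2 ⟨?_, fun i hi => ?_⟩⟩
    · simp only [S, Fintype.mem_piFinset]
      intro v
      split_ifs <;> simp
    · simp only [(mem_inter.1 (hp i hi).1).2, (mem_inter.1 (hp i hi).2.1).2, if_true]
      exact hcc i hi
  have h5 : 2 ≤ (d + 1) ^ 2 := by nlinarith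
  obtain ⟨Q, hQ⟩ := Nat.exists_eq_add_of_le' (show 1 ≤ (d + 1) ^ 2 by omega)
  rw [hQ, hS, Nat.add_sub_cancel] at hc
  have := numA (Q := Q) (d := d) (m := I.card) (by omega) hu (by nlinarith [pow_pos (show 0 < Q + 1 by omega) I.card])
  rw [hQ]
  nlinarith

lemma scale [Nonempty V] {d : ℕ} (hd : 0 < d) {e : ι → Finset V} (hg : Good e d) (W : Finset V)
    (j : ℕ) (hj : 0 < j) (I : Finset ι) (hI : ∀ i ∈ I, d + j ≤ (e i ∩ W).card) :
    I.card * j ≤ 4 * ((d + 1) ^ 2 * d) * (d + 1) * W.card := by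
  rcases Nat.eq_zero_or_pos I.card with h0 | hm
  · simp [h0]
  have hW : 0 < W.card := by
    obtain ⟨i, hi⟩ := card_pos.1 hm
    have := hI i hi
    have := card_le_card (inter_subset_right (s₁ := e i) (s₂ := W))
    omega
  let g : Finset V → ℤ := fun U =>
    2 * W.card * (∑ i ∈ I, min (d + 1) (e i ∩ U).card : ℕ) - I.card * j * U.card
  obtain ⟨U, hU, hmax⟩ := exists_max_image W.powerset g ⟨∅, by simp⟩
  rw [mem_powerset] at hU
  have h1 : j * U.card ≤ 2 * W.card * (d + 1) := by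
    have h := hmax ∅ (by simp)
    have h2 : ∑ i ∈ I, min (d + 1) (e i ∩ U).card ≤ I.card * (d + 1) := by
      simpa using sum_le_card_nsmul I _ (d + 1) (fun i _ => min_le_left _ _)
    simp only [g, inter_empty, card_empty, Nat.zero_le, inf_of_le_right, sum_const_zero,
      Nat.cast_zero, mul_zero, sub_zero] at h
    have h3 : I.card * j * U.card ≤ 2 * W.card * ∑ i ∈ I, min (d + 1) (e i ∩ U).card := by
      zify
      push_cast at h
      linarith
    have h4 : I.card * (j * U.card) ≤ I.card * (2 * W.card * (d + 1)) := by nlinarith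
    exact Nat.le_of_mul_le_mul_left h4 hm
  let D := I.filter fun i => (e i ∩ U).card ≤ d
  have h2 : ∀ v ∈ W \ U, 2 * W.card * (D.filter fun i => v ∈ e i).card ≤ I.card * j := by
    intro v hv
    rw [mem_sdiff] at hv
    have h := hmax (insert v U) (mem_powerset.2 (insert_subset hv.1 hU))
    have h3 : ∑ i ∈ I, min (d + 1) (e i ∩ U).card + (D.filter fun i => v ∈ e i).card ≤
        ∑ i ∈ I, min (d + 1) (e i ∩ insert v U).card := by
      rw [filter_filter, card_filter, ← sum_add_distrib]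
      refine sum_le_sum fun i _ => ?_
      by_cases hv' : v ∈ e i
      · rw [inter_insert_of_mem hv', card_insert_of_notMem (by simp [hv.2])]
        split_ifs <;> omega
      · rw [inter_insert_of_notMem hv']
        simp [hv']
    simp only [g, card_insert_of_notMem hv.2] at h
    zify at h3 ⊢
    push_cast at h h3
    nlinarith
  have h3 : D.card * j ≤ ∑ v ∈ W \ U, (D.filter fun i => v ∈ e i).card := by
    simp only [card_filter]
    rw [sum_comm]
    refine card_nsmul_le_sum D _ j fun i hi => ?_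
    rw [← card_filter]
    have a1 := hI i (mem_filter.1 hi).1
    have a2 := (mem_filter.1 hi).2
    have a3 : e i ∩ W ⊆ (e i ∩ U) ∪ (W \ U).filter fun v => v ∈ e i := by
      intro v
      simp only [mem_inter, mem_union, mem_filter, mem_sdiff]
      tauto
    have a4 := (card_le_card a3).trans (card_union_le _ _)
    omega
  have h4 : 2 * W.card * (D.card * j) ≤ W.card * (I.card * j) := by
    calc _ ≤ 2 * W.card * ∑ v ∈ W \ U, (D.filter fun i => v ∈ e i).card :=
          Nat.mul_le_mul_left _ h3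
      _ = ∑ v ∈ W \ U, 2 * W.card * (D.filter fun i => v ∈ e i).card := mul_sum _ _ _
      _ ≤ (W \ U).card * (I.card * j) := by simpa using sum_le_card_nsmul _ _ _ h2
      _ ≤ _ := Nat.mul_le_mul_right _ (card_le_card sdiff_subset)
  have h5 : 2 * D.card ≤ I.card := by
    have : (W.card * j) * (2 * D.card) ≤ (W.card * j) * I.card := by nlinarith
    exact Nat.le_of_mul_le_mul_left this (Nat.mul_pos hW hj)
  have h6 := card_filter_add_card_filter_not (s := I) (fun i => (e i ∩ U).card ≤ d)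
  have h7 := sparse hd hg U (I.filter fun i => ¬ (e i ∩ U).card ≤ d) (fun i hi => by
    have := (mem_filter.1 hi).2
    omega)
  have h8 : I.card ≤ 2 * ((d + 1) ^ 2 * d * U.card) := by
    change D.card + _ = _ at h6
    omega
  calc I.card * j ≤ 2 * ((d + 1) ^ 2 * d * U.card) * j := Nat.mul_le_mul_right _ h8
    _ = 2 * ((d + 1) ^ 2 * d) * (j * U.card) := by ring
    _ ≤ 2 * ((d + 1) ^ 2 * d) * (2 * W.card * (d + 1)) := Nat.mul_le_mul_left _ h1
    _ = _ := by ring

/-- the constant of the degeneracy bound -/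
def CC (d : ℕ) : ℕ := 2 * (d + 1) ^ 2 * (4 * ((d + 1) ^ 2 * d) * (d + 1))

lemma sq_le (d s r : ℕ) (h1 : d + 1 ≤ s) (h2 : s ≤ r) :
    s * s ≤ 2 * (d + 1) ^ 2 * ∑ j ∈ range r, if d + (j + 1) ≤ s then j + 1 else 0 := by
  obtain ⟨t, rfl⟩ := Nat.exists_eq_add_of_le (show d ≤ s by omega)
  have a1 : ∑ j ∈ range t, (j + 1) ≤ ∑ j ∈ range r, if d + (j + 1) ≤ d + t then j + 1 else 0 := by
    rw [← sum_filter]
    refine sum_le_sum_of_subset fun j hj => ?_
    simp only [mem_range, mem_filter] at hj ⊢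
    omega
  have a2 : ∀ n : ℕ, n * n ≤ 2 * ∑ j ∈ range n, (j + 1) := by
    intro n
    induction n with
    | zero => simp
    | succ n ih => rw [sum_range_succ]; nlinarith
  have a3 : d + t ≤ (d + 1) * t := by nlinarith
  have a4 := Nat.mul_le_mul a3 a3
  have a5 := a2 t
  nlinarith [Nat.mul_le_mul_left ((d + 1) ^ 2) (a5.trans (Nat.mul_le_mul_left 2 a1))]

lemma low [Nonempty V] {d r : ℕ} (hd : 0 < d) {e : ι → Finset V} (hg : Good e d)
    (hr : ∀ i, (e i).card ≤ r) (W : Finset V) (hW : W.Nonempty) :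
    ∃ v ∈ W, ∑ i ∈ univ.filter (fun i => v ∈ e i ∧ d + 1 ≤ (e i ∩ W).card), (e i ∩ W).card ≤
      CC d * r := by
  apply exists_le_of_sum_le hW
  let J := univ.filter fun i => d + 1 ≤ (e i ∩ W).card
  have e1 : ∑ v ∈ W, ∑ i ∈ univ.filter (fun i => v ∈ e i ∧ d + 1 ≤ (e i ∩ W).card),
      (e i ∩ W).card = ∑ i ∈ J, (e i ∩ W).card * (e i ∩ W).card := by
    simp only [J, sum_filter]
    rw [sum_comm]
    refine sum_congr rfl fun i _ => ?_
    split_ifs with h
    · simp only [h, and_true]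
      rw [← sum_filter, sum_const, smul_eq_mul, filter_mem_eq_inter, inter_comm]
    · simp [h]
  rw [e1]
  calc _ ≤ ∑ i ∈ J, 2 * (d + 1) ^ 2 *
        ∑ j ∈ range r, if d + (j + 1) ≤ (e i ∩ W).card then j + 1 else 0 :=
        sum_le_sum fun i hi => sq_le _ _ _ (mem_filter.1 hi).2
          ((card_le_card inter_subset_left).trans (hr i))
    _ = 2 * (d + 1) ^ 2 * ∑ j ∈ range r,
        (J.filter fun i => d + (j + 1) ≤ (e i ∩ W).card).card * (j + 1) := by
        rw [← mul_sum, sum_comm]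
        congr 1
        refine sum_congr rfl fun j _ => ?_
        rw [← sum_filter, sum_const, smul_eq_mul]
    _ ≤ 2 * (d + 1) ^ 2 * (r * (4 * ((d + 1) ^ 2 * d) * (d + 1) * W.card)) := by
        refine Nat.mul_le_mul_left _ ?_
        simpa using sum_le_card_nsmul (range r) _ _ (fun j _ =>
          scale hd hg W (j + 1) (by omega) (J.filter fun i => d + (j + 1) ≤ (e i ∩ W).card)
            (fun i hi => (mem_filter.1 hi).2))
    _ = _ := by
        rw [sum_const, smul_eq_mul, CC]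
        ring

lemma split [Nonempty V] {d r : ℕ} (hd : 0 < d) {e : ι → Finset V} (hg : Good e d)
    (hr : ∀ i, (e i).card ≤ r) (W : Finset V) :
    ∃ φ : V → Fin (CC d * r + 1), ∀ i x, ((e i ∩ W).filter fun v => φ v = x).card ≤ d := by
  induction' hn : W.card with n ih generalizing W
  · rw [card_eq_zero] at hn
    subst hn
    exact ⟨fun _ => 0, by simp⟩
  · obtain ⟨v, hv, hl⟩ := low hd hg hr W (card_pos.1 (by omega))
    obtain ⟨φ, hφ⟩ := ih (W.erase v) (by rw [card_erase_of_mem hv]; omega)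
    let N := (univ.filter fun i => v ∈ e i ∧ d + 1 ≤ (e i ∩ W).card).biUnion fun i => e i ∩ W
    have hN : (N.image φ).card < (univ : Finset (Fin (CC d * r + 1))).card := by
      have := (card_image_le (s := N) (f := φ)).trans (card_biUnion_le.trans hl)
      simp only [card_univ, Fintype.card_fin]
      omega
    obtain ⟨x0, -, hx0⟩ := exists_mem_notMem_of_card_lt_card hN
    refine ⟨Function.update φ v x0, fun i x => ?_⟩
    by_cases h1 : v ∈ e i ∧ x0 = x
    · by_cases h2 : d + 1 ≤ (e i ∩ W).card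
      · refine (card_le_card (t := {v}) fun u hu => ?_).trans (by simp; omega)
        rw [mem_filter] at hu
        rw [mem_singleton]
        by_contra huv
        rw [Function.update_of_ne huv] at hu
        exact hx0 (mem_image.2 ⟨u, mem_biUnion.2 ⟨i, mem_filter.2 ⟨mem_univ _, h1.1, h2⟩, hu.1⟩,
          hu.2.trans h1.2.symm⟩)
      · have := card_filter_le (e i ∩ W) fun u => Function.update φ v x0 u = x
        omega
    · refine (card_le_card fun u hu => ?_).trans (hφ i x)
      simp only [mem_filter, mem_inter, mem_erase] at hu ⊢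
      have huv : u ≠ v := by
        rintro rfl
        rw [Function.update_self] at hu
        exact h1 ⟨hu.1.1, hu.2⟩
      rw [Function.update_of_ne huv] at hu
      exact ⟨⟨hu.1.1, huv, hu.1.2⟩, hu.2⟩

theorem main [Nonempty V] {d r : ℕ} (hd : 0 < d) {e : ι → Finset V} (hg : Good e d)
    (hr : ∀ i, (e i).card ≤ r) :
    ∃ c : V → Fin (CC d * r + 1) × (Fin d × Fin d → Fin d), ∀ i, Set.InjOn c (e i : Set V) := by
  obtain ⟨φ, hφ⟩ := split hd hg hr univ
  have hen : ∀ i x, ∃ g : Fin d → V, ∀ u ∈ e i, φ u = x → ∃ a, g a = u := by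
    intro i x
    have h := hφ i x
    rw [inter_univ] at h
    let l := ((e i).filter fun v => φ v = x).toList
    refine ⟨fun a => l.getD a (Classical.arbitrary V), fun u hu hx => ?_⟩
    have hm : u ∈ l := by simp [l, hu, hx]
    obtain ⟨k, hk, rfl⟩ := List.getElem_of_mem hm
    have : l.length ≤ d := by simpa [l] using h
    exact ⟨⟨k, by omega⟩, by simp [List.getD, hk]⟩
  choose g hgg using hen
  have hc : ∀ (x : Fin (CC d * r + 1)) (ab : Fin d × Fin d), ∃ c : V → Fin d, ∀ i,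
      g i x ab.1 ∈ e i → g i x ab.2 ∈ e i → g i x ab.1 ≠ g i x ab.2 →
      c (g i x ab.1) ≠ c (g i x ab.2) := by
    intro x ab
    obtain ⟨c, hc⟩ := hg (univ.filter fun i => g i x ab.1 ∈ e i ∧ g i x ab.2 ∈ e i ∧
      g i x ab.1 ≠ g i x ab.2) (fun i => (g i x ab.1, g i x ab.2)) (fun i hi => (mem_filter.1 hi).2)
    exact ⟨c, fun i h1 h2 h3 => hc i (mem_filter.2 ⟨mem_univ _, h1, h2, h3⟩)⟩
  choose c hc using hc
  refine ⟨fun v => (φ v, fun ab => c (φ v) ab v), fun i u hu w hw h => ?_⟩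
  simp only [Prod.mk.injEq] at h
  by_contra huw
  obtain ⟨a, ha⟩ := hgg i (φ u) u hu rfl
  obtain ⟨b, hb⟩ := hgg i (φ u) w hw h.1.symm
  have h1 := hc (φ u) (a, b) i (by rw [ha]; exact hu) (by rw [hb]; exact hw)
    (by rw [ha, hb]; exact huw)
  have h2 := congrFun h.2 (a, b)
  simp only [ha, hb] at h1
  rw [← h.1] at h2
  exact h1 h2

end Pool.Agent.H6.Derived
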