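import Mathlib

/-! Weighted intersecting families of triples with fractional matching number close to 7/3. -/

namespace Pool.Agent.H6.Diam
open Finset

variable {V : Type*} [DecidableEq V]

lemma link6 (F : Set (Finset V)) (h3 : ∀ T ∈ F, T.card = 3)
    (hi : ∀ T ∈ F, ∀ S ∈ F, (T ∩ S).Nonempty) (ht : ∀ p q, ∃ T ∈ F, p ∉ T ∧ q ∉ T) (p : V) :
    ∃ U : Finset V, U.card ≤ 6 ∧ p ∉ U ∧ ∀ T ∈ F, p ∈ T → T.erase p ⊆ U := by
  have key : ∃ U : Finset V, U.card ≤ 6 ∧ p ∉ U ∧ ∀ r, ∃ S ∈ F, S ⊆ U ∧ r ∉ S := by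
    by_cases h : ∃ T1 ∈ F, ∃ T2 ∈ F, p ∉ T1 ∧ p ∉ T2 ∧ (T1 ∩ T2).card = 1
    · obtain ⟨T1, h1, T2, h2, p1, p2, hc⟩ := h
      obtain ⟨c, hc'⟩ := card_eq_one.1 hc
      obtain ⟨T3, h3', p3, c3⟩ := ht p c
      obtain ⟨a, ha⟩ := hi T3 h3' T1 h1
      obtain ⟨b, hb⟩ := hi T3 h3' T2 h2
      rw [mem_inter] at ha hb
      have hab : a ≠ b := by
        rintro rfl
        have : a ∈ T1 ∩ T2 := mem_inter.2 ⟨ha.2, hb.2⟩
        rw [hc', mem_singleton] at this
        exact c3 (this ▸ ha.1)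
      refine ⟨(T1 ∪ T2) ∪ (T3 \ {a, b}), ?_, ?_, ?_⟩
      · have e1 := card_union_add_card_inter T1 T2
        have e2 : (T3 \ {a, b}).card = 1 := by
          rw [card_sdiff_of_subset (by intro x hx; simp at hx; rcases hx with rfl | rfl; exacts [ha.1, hb.1]),
            h3 T3 h3', card_pair hab]
        have e3 := card_union_le (T1 ∪ T2) (T3 \ {a, b})
        rw [h3 T1 h1, h3 T2 h2] at e1
        omega
      · simp [p1, p2, p3]
      · intro r
        by_cases r1 : r ∈ T1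
        · by_cases r2 : r ∈ T2
          · have : r ∈ T1 ∩ T2 := mem_inter.2 ⟨r1, r2⟩
            rw [hc', mem_singleton] at this
            refine ⟨T3, h3', ?_, this ▸ c3⟩
            intro x hx
            by_cases hxa : x = a
            · subst hxa; simp [ha.2]
            by_cases hxb : x = b
            · subst hxb; simp [hb.2]
            simp [hx, hxa, hxb]
          · exact ⟨T2, h2, fun x hx => by simp [hx], r2⟩
        · exact ⟨T1, h1, fun x hx => by simp [hx], r1⟩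
    · push Not at h
      choose f hf hp hr using ht p
      obtain ⟨T1, h1, p1⟩ : ∃ T1 ∈ F, p ∉ T1 := ⟨f p, hf p, hp p⟩
      refine ⟨T1 ∪ T1.biUnion (fun r => f r \ T1), ?_, ?_, ?_⟩
      · have e1 := card_union_le T1 (T1.biUnion (fun r => f r \ T1))
        have e2 : (T1.biUnion (fun r => f r \ T1)).card ≤ T1.card * 1 := by
          apply card_biUnion_le_card_mul
          intro r _
          have a1 := card_sdiff_add_card_inter (f r) T1
          have a2 := h (f r) (hf r) T1 h1 (hp r) p1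
          have a3 := (hi (f r) (hf r) T1 h1).card_pos
          rw [h3 _ (hf r)] at a1
          omega
        rw [h3 T1 h1] at e1 e2
        omega
      · simp [p1, hp]
      · intro r
        by_cases r1 : r ∈ T1
        · refine ⟨f r, hf r, ?_, hr r⟩
          intro x hx
          by_cases hx1 : x ∈ T1
          · simp [hx1]
          · simp only [mem_union, mem_biUnion, mem_sdiff]
            exact Or.inr ⟨r, r1, hx, hx1⟩
        · exact ⟨T1, h1, subset_union_left, r1⟩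
  obtain ⟨U, hU, pU, hr⟩ := key
  refine ⟨U, hU, pU, ?_⟩
  intro T hT pT q hq
  by_contra qU
  have c1 : ((T.erase p).erase q).card = 1 := by
    rw [card_erase_of_mem hq, card_erase_of_mem pT, h3 T hT]
  obtain ⟨r, hr'⟩ := card_eq_one.1 c1
  obtain ⟨S, hS, SU, rS⟩ := hr r
  obtain ⟨z, hz⟩ := hi T hT S hS
  rw [mem_inter] at hz
  have : z ∈ (T.erase p).erase q := by
    simp only [mem_erase]
    exact ⟨fun e => qU (e ▸ SU hz.2), fun e => pU (e ▸ SU hz.2), hz.1⟩
  rw [hr', mem_singleton] at this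
  exact rS (this ▸ hz.2)

/-- indicator -/
def ind (T : Finset V) (q : V) : ℝ := if q ∈ T then 1 else 0

lemma sum_ind_mul (T S U : Finset V) : ∑ q ∈ U, ind T q * ind S q = ((T ∩ S ∩ U).card : ℝ) := by
  have : ∀ q, ind T q * ind S q = if q ∈ T ∩ S then 1 else 0 := by
    intro q; unfold ind; by_cases h1 : q ∈ T <;> by_cases h2 : q ∈ S <;> simp [h1, h2]
  simp_rw [this]
  rw [sum_boole]
  congr 2
  ext q; simp only [mem_filter, mem_inter]; tauto

lemma second_moment [Fintype V] {ι : Type*} (A : Finset ι) (N : ι → Finset V)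
    (h3 : ∀ x ∈ A, (N x).card = 3) (hi : ∀ x ∈ A, ∀ y ∈ A, (N x ∩ N y).Nonempty)
    (ht : ∀ p q, ∃ x ∈ A, p ∉ N x ∧ q ∉ N x) :
    0 ≤ ∑ x ∈ A, ∑ y ∈ A, ((N x ∩ N y).card : ℝ) * (3 * (N x ∩ N y).card - 5) := by
  have per : ∀ p, 0 ≤ ∑ x ∈ A, ∑ y ∈ A, ind (N x) p * ind (N y) p * (3 * (N x ∩ N y).card - 5) := by
    intro p
    obtain ⟨U, hU, pU, hT⟩ := link6 {T | ∃ x ∈ A, N x = T}
      (by rintro T ⟨x, hx, rfl⟩; exact h3 x hx)
      (by rintro T ⟨x, hx, rfl⟩ S ⟨y, hy, rfl⟩; exact hi x hx y hy)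
      (by intro p q; obtain ⟨x, hx, h⟩ := ht p q; exact ⟨N x, ⟨x, hx, rfl⟩, h⟩) p
    have e0 : ∀ x ∈ A, ∀ y ∈ A, ind (N x) p * ind (N y) p * ((N x ∩ N y ∩ U).card : ℝ)
        = ind (N x) p * ind (N y) p * ((N x ∩ N y).card - 1) := by
      intro x hx y hy
      by_cases h1 : p ∈ N x
      · by_cases h2 : p ∈ N y
        · have : N x ∩ N y ∩ U = (N x ∩ N y).erase p := by
            ext q
            simp only [mem_inter, mem_erase]
            constructor
            · rintro ⟨⟨a, b⟩, c⟩; exact ⟨fun e => pU (e ▸ c), a, b⟩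
            · rintro ⟨a, b, c⟩; exact ⟨⟨b, c⟩, hT _ ⟨x, hx, rfl⟩ h1 (mem_erase.2 ⟨a, b⟩)⟩
          rw [this, cast_card_erase_of_mem (mem_inter.2 ⟨h1, h2⟩)]
        · simp [ind, h2]
      · simp [ind, h1]
    set c : V → ℝ := fun q => ∑ x ∈ A, ind (N x) p * ind (N x) q with hc
    set d : ℝ := ∑ x ∈ A, ind (N x) p with hd
    have e1 : ∑ q ∈ U, c q = 2 * d := by
      rw [hc, hd, sum_comm, mul_sum]
      refine sum_congr rfl fun x hx => ?_
      have a1 := e0 x hx x hx
      have a2 := sum_ind_mul (N x) (N x) U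
      have a3 : ∀ q, ind (N x) q * ind (N x) q = ind (N x) q := by
        intro q; unfold ind; split_ifs <;> simp
      simp_rw [a3] at a1 a2
      rw [← mul_sum, a2, a1, inter_self, h3 x hx]; push_cast; ring
    have e2 : ∑ q ∈ U, c q ^ 2 = ∑ x ∈ A, ∑ y ∈ A, ind (N x) p * ind (N y) p * ((N x ∩ N y).card - 1) := by
      simp_rw [hc, sq, sum_mul_sum]
      rw [sum_comm]
      refine sum_congr rfl fun x hx => ?_
      rw [sum_comm]
      refine sum_congr rfl fun y hy => ?_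
      rw [← e0 x hx y hy, ← sum_ind_mul, mul_sum]
      exact sum_congr rfl fun q _ => by ring
    have e3 : d ^ 2 = ∑ x ∈ A, ∑ y ∈ A, ind (N x) p * ind (N y) p := by
      rw [hd, sq, sum_mul_sum]
    have e4 := sq_sum_le_card_mul_sum_sq (s := U) (f := c)
    have e5 : 0 ≤ ∑ q ∈ U, c q ^ 2 := sum_nonneg fun q _ => sq_nonneg _
    have e6 : (U.card : ℝ) ≤ 6 := by exact_mod_cast hU
    have e7 : ∑ x ∈ A, ∑ y ∈ A, ind (N x) p * ind (N y) p * (3 * (N x ∩ N y).card - 5)
        = 3 * ∑ q ∈ U, c q ^ 2 - 2 * d ^ 2 := by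
      rw [e2, e3, mul_sum, mul_sum, ← sum_sub_distrib]
      refine sum_congr rfl fun x hx => ?_
      rw [mul_sum, mul_sum, ← sum_sub_distrib]
      exact sum_congr rfl fun y _ => by ring
    rw [e7]
    rw [e1] at e4
    nlinarith
  have := sum_nonneg (s := (univ : Finset V)) fun p _ => per p
  rw [sum_comm] at this
  refine this.trans_eq (sum_congr rfl fun x _ => ?_)
  rw [sum_comm]
  refine sum_congr rfl fun y _ => ?_
  rw [← sum_mul, sum_ind_mul, inter_univ]

lemma fano [Fintype V] {ι : Type*} [DecidableEq ι] (A : Finset ι) (N : ι → Finset V) (D : ℝ)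
    (h3 : ∀ x ∈ A, (N x).card = 3) (hi : ∀ x ∈ A, ∀ y ∈ A, (N x ∩ N y).Nonempty)
    (hd : ∀ p, ((A.filter (fun x => p ∈ N x)).card : ℝ) ≤ D) (hW : 0 < A.card)
    (hD : 7000 * D ≤ 3001 * A.card) :
    ∃ H : Finset (Finset V), (∀ T ∈ H, ∃ x ∈ A, N x = T) ∧ 7 ≤ H.card ∧
      (∀ T ∈ H, ∀ S ∈ H, T ≠ S → (T ∩ S).card ≤ 1) ∧ ∀ p, (H.filter (fun T => p ∈ T)).card ≤ 3 := by
  set W : ℝ := (A.card : ℝ) with hWd
  have W0 : 0 < W := by rw [hWd]; exact_mod_cast hW
  have ht : ∀ p q, ∃ x ∈ A, p ∉ N x ∧ q ∉ N x := by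
    intro p q
    by_contra h
    push Not at h
    have : A ⊆ A.filter (fun x => p ∈ N x) ∪ A.filter (fun x => q ∈ N x) := by
      intro x hx
      by_cases hp : p ∈ N x
      · simp [hx, hp]
      · simp [hx, h x hx hp]
    have a1 : (A.card : ℝ) ≤ (A.filter (fun x => p ∈ N x)).card + (A.filter (fun x => q ∈ N x)).card := by
      exact_mod_cast (card_le_card this).trans (card_union_le _ _)
    have := hd p
    have := hd q
    linarith
  have hs := second_moment A N h3 hi ht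
  set m : Finset V → ℝ := fun T => ∑ y ∈ A, if N y = T then 1 else 0 with hm
  have m0 : ∀ T, 0 ≤ m T := fun T => sum_nonneg fun y _ => by split_ifs <;> norm_num
  have sig : ∀ x ∈ A, ∑ y ∈ A, ((N x ∩ N y).card : ℝ) ≤ 3 * D := by
    intro x hx
    have a1 : ∀ y, ((N x ∩ N y).card : ℝ) = ∑ q ∈ N x, if q ∈ N y then 1 else 0 := by
      intro y; rw [sum_boole, filter_mem_eq_inter]
    simp_rw [a1]
    rw [sum_comm]
    calc _ ≤ ∑ q ∈ N x, D := sum_le_sum fun q _ => by rw [sum_boole]; exact hd q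
      _ = 3 * D := by rw [sum_const, h3 x hx]; simp
  have cases3 : ∀ x ∈ A, ∀ y ∈ A, (N y ≠ N x ∧ (N x ∩ N y).card = 1) ∨ (N y ≠ N x ∧ (N x ∩ N y).card = 2)
      ∨ (N y = N x ∧ (N x ∩ N y).card = 3) := by
    intro x hx y hy
    by_cases e : N y = N x
    · right; right; exact ⟨e, by rw [e, inter_self, h3 x hx]⟩
    · have a1 := (hi x hx y hy).card_pos
      have a2 : (N x ∩ N y).card ≤ 3 := h3 x hx ▸ card_le_card inter_subset_left
      have a3 : (N x ∩ N y).card ≠ 3 := by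
        intro h
        apply e
        have b1 := eq_of_subset_of_card_le (inter_subset_left (s₁ := N x) (s₂ := N y)) (by rw [h, h3 x hx])
        have b2 := eq_of_subset_of_card_le (inter_subset_right (s₁ := N x) (s₂ := N y)) (by rw [h, h3 y hy])
        rw [← b2, b1]
      by_cases a4 : (N x ∩ N y).card = 1
      · exact Or.inl ⟨e, a4⟩
      · exact Or.inr (Or.inl ⟨e, by omega⟩)
  have sumc : ∀ r : ℝ, ∑ _y ∈ A, r = W * r := fun r => by rw [sum_const, nsmul_eq_mul]
  have mup : ∀ x ∈ A, W + 2 * m (N x) ≤ 3 * D := by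
    intro x hx
    refine le_trans ?_ (sig x hx)
    have : W + 2 * m (N x) = ∑ y ∈ A, (1 + 2 * if N y = N x then (1:ℝ) else 0) := by
      rw [sum_add_distrib, sumc, ← mul_sum, mul_one]
    rw [this]
    refine sum_le_sum fun y hy => ?_
    rcases cases3 x hx y hy with ⟨e, h⟩ | ⟨e, h⟩ | ⟨e, h⟩ <;> rw [h] <;> simp [e] <;> norm_num
  have mlow : W * (W - 2 * D) ≤ ∑ x ∈ A, m (N x) := by
    have a1 : ∀ x ∈ A, ∑ y ∈ A, ((N x ∩ N y).card : ℝ) * (3 * (N x ∩ N y).card - 5)
        ≤ 12 * D - 6 * W + 6 * m (N x) := by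
      intro x hx
      have a2 : ∑ y ∈ A, ((N x ∩ N y).card : ℝ) * (3 * (N x ∩ N y).card - 5) ≤
          ∑ y ∈ A, (4 * ((N x ∩ N y).card : ℝ) - 6 + 6 * if N y = N x then (1:ℝ) else 0) := by
        refine sum_le_sum fun y hy => ?_
        rcases cases3 x hx y hy with ⟨e, h⟩ | ⟨e, h⟩ | ⟨e, h⟩ <;> rw [h] <;> simp [e] <;> norm_num
      rw [sum_add_distrib, sum_sub_distrib, sumc, ← mul_sum, ← mul_sum] at a2
      have := sig x hx
      change _ ≤ _ + 6 * m (N x) at a2
      linarith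
    have a3 := hs.trans (sum_le_sum a1)
    rw [sum_add_distrib, sumc, ← mul_sum] at a3
    linarith
  have fib : ∀ K : Finset (Finset V), ∑ T ∈ K, m T = ∑ y ∈ A, if N y ∈ K then (1:ℝ) else 0 := by
    intro K
    rw [hm, sum_comm]
    refine sum_congr rfl fun y _ => ?_
    rw [sum_ite_eq]
  set H := (A.image N).filter (fun T => 9 * W ≤ 70 * m T) with hH
  have hH1 : ∀ T ∈ H, ∃ x ∈ A, N x = T := fun T hT => mem_image.1 (mem_filter.1 hT).1
  have hH2 : ∀ T ∈ H, 9 * W ≤ 70 * m T := fun T hT => (mem_filter.1 hT).2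
  refine ⟨H, hH1, ?_, ?_, ?_⟩
  · by_contra h
    have h6 : (H.card : ℝ) ≤ 6 := by exact_mod_cast (by omega : H.card ≤ 6)
    have a1 : ∑ T ∈ H, m T ≤ 6 * (2003 * W / 14000) := by
      calc _ ≤ ∑ T ∈ H, (2003 * W / 14000) := by
            refine sum_le_sum fun T hT => ?_
            obtain ⟨x, hx, rfl⟩ := hH1 T hT
            have := mup x hx
            linarith
        _ ≤ _ := by
            rw [sum_const, nsmul_eq_mul]
            exact mul_le_mul_of_nonneg_right h6 (by positivity)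
    have a2 : ∑ x ∈ A, m (N x) ≤ ∑ x ∈ A, (9 * W / 70 + (203 * W / 14000) * if N x ∈ H then (1:ℝ) else 0) := by
      refine sum_le_sum fun x hx => ?_
      by_cases e : N x ∈ H
      · have := mup x hx
        simp only [e, if_true]; linarith
      · have : ¬ 9 * W ≤ 70 * m (N x) := fun h' => e (mem_filter.2 ⟨mem_image_of_mem N hx, h'⟩)
        simp only [e, if_false]; linarith
    rw [sum_add_distrib, sumc, ← mul_sum, ← fib] at a2
    have a3 : (203 * W / 14000) * ∑ T ∈ H, m T ≤ (203 * W / 14000) * (6 * (2003 * W / 14000)) :=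
      mul_le_mul_of_nonneg_left a1 (by positivity)
    have a4 : W * (998 * W / 7000) ≤ W * (W - 2 * D) := mul_le_mul_of_nonneg_left (by linarith) W0.le
    nlinarith
  · intro T hT S hS hne
    obtain ⟨x, hx, rfl⟩ := hH1 T hT
    obtain ⟨z, hz, rfl⟩ := hH1 S hS
    by_contra h
    have a0 : W + 2 * m (N x) + m (N z) ≤ 3 * D := by
      refine le_trans ?_ (sig x hx)
      have : W + 2 * m (N x) + m (N z) = ∑ y ∈ A, (1 + 2 * (if N y = N x then (1:ℝ) else 0)
          + if N y = N z then (1:ℝ) else 0) := by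
        rw [sum_add_distrib, sum_add_distrib, sumc, ← mul_sum, mul_one]
      rw [this]
      refine sum_le_sum fun y hy => ?_
      by_cases e2 : N y = N z
      · have : (2:ℝ) ≤ (N x ∩ N y).card := by rw [e2]; exact_mod_cast (by omega : 2 ≤ (N x ∩ N z).card)
        have e3 : N y ≠ N x := fun e => hne (e.symm.trans e2)
        rw [if_pos e2, if_neg e3]; linarith
      · rw [if_neg e2]
        rcases cases3 x hx y hy with ⟨e, h⟩ | ⟨e, h⟩ | ⟨e, h⟩ <;> rw [h] <;> simp [e] <;> norm_num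
    have := hH2 _ hT
    have := hH2 _ hS
    linarith
  · intro p
    by_contra h
    have h4 : (4:ℝ) ≤ (H.filter (fun T => p ∈ T)).card := by
      exact_mod_cast (by omega : 4 ≤ (H.filter (fun T => p ∈ T)).card)
    have a1 : ∑ T ∈ H.filter (fun T => p ∈ T), (9 * W / 70) ≤ ∑ T ∈ H.filter (fun T => p ∈ T), m T :=
      sum_le_sum fun T hT => by have := hH2 T (mem_filter.1 hT).1; linarith
    rw [fib, sum_const, nsmul_eq_mul] at a1
    have a2 : ∑ y ∈ A, (if N y ∈ H.filter (fun T => p ∈ T) then (1:ℝ) else 0)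
        ≤ ∑ y ∈ A, if p ∈ N y then (1:ℝ) else 0 := by
      refine sum_le_sum fun y _ => ?_
      by_cases e : p ∈ N y
      · rw [if_pos e]; split_ifs <;> norm_num
      · have e' : N y ∉ H.filter (fun T => p ∈ T) := fun h' => e (mem_filter.1 h').2
        rw [if_neg e, if_neg e']
    rw [sum_boole (p := fun y => p ∈ N y)] at a2
    have := hd p
    nlinarith

end Pool.Agent.H6.Diam
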