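import Pool.Agent.H6.DiamA

/-! Sparse graphs of diameter two with maximum degree at most (3n-6)/7 do not exist. -/

namespace Pool.Agent.H6.Diam
open Finset

variable {V : Type*} [DecidableEq V]

lemma dc (H : Finset (Finset V)) (B : Finset V) :
    ∑ p ∈ B, (H.filter (fun T => p ∈ T)).card = ∑ S ∈ H, (B ∩ S).card := by
  simp_rw [card_filter]
  rw [sum_comm]
  refine sum_congr rfl fun S _ => ?_
  rw [← card_filter, filter_mem_eq_inter]

lemma plane [Fintype V] (G : SimpleGraph V) [DecidableRel G.Adj] (D : ℕ) (hD : ∀ v, G.degree v ≤ D)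
    (H : Finset (Finset V)) (h3 : ∀ T ∈ H, T.card = 3)
    (hi : ∀ T ∈ H, ∀ S ∈ H, (T ∩ S).Nonempty) (h7 : 7 ≤ H.card)
    (h1 : ∀ T ∈ H, ∀ S ∈ H, T ≠ S → (T ∩ S).card ≤ 1)
    (hp : ∀ p, (H.filter (fun T => p ∈ T)).card ≤ 3)
    (hb : ∀ v, ∀ T ∈ H, v ∈ T ∨ ∃ q ∈ T, G.Adj v q) : 3 * Fintype.card V ≤ 7 * D + 5 := by
  set g : V → ℕ := fun p => (H.filter (fun T => p ∈ T)).card with hg
  have a1 : ∀ T ∈ H, H.card + 2 ≤ ∑ p ∈ T, g p := by
    intro T hT
    rw [hg, dc, ← add_sum_erase _ _ hT, inter_self, h3 T hT]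
    have : (H.erase T).card * 1 ≤ ∑ S ∈ H.erase T, (T ∩ S).card := by
      rw [← smul_eq_mul]
      exact card_nsmul_le_sum _ _ _ fun S hS => (hi T hT S (mem_of_mem_erase hS)).card_pos
    rw [card_erase_of_mem hT] at this
    omega
  have a2 : ∀ T ∈ H, ∀ p ∈ T, g p = 3 ∧ H.card = 7 := by
    intro T hT p hpT
    have b1 := a1 T hT
    rw [← add_sum_erase _ _ hpT] at b1
    have b2 : ∑ q ∈ T.erase p, g q ≤ (T.erase p).card * 3 := by
      rw [← smul_eq_mul]; exact sum_le_card_nsmul _ _ _ fun q _ => hp q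
    rw [card_erase_of_mem hpT, h3 T hT] at b2
    have : g p ≤ 3 := hp p
    omega
  set P : Finset V := H.biUnion id with hP
  have memP : ∀ p, p ∈ P ↔ ∃ T ∈ H, p ∈ T := fun p => by simp [hP]
  have gP : ∀ p ∈ P, g p = 3 := fun p h => by
    obtain ⟨T, hT, hpT⟩ := (memP p).1 h; exact (a2 T hT p hpT).1
  have H7 : H.card = 7 := by
    obtain ⟨T, hT⟩ : H.Nonempty := card_pos.1 (by omega)
    obtain ⟨p, hpT⟩ : T.Nonempty := card_pos.1 (by rw [h3 T hT]; norm_num)
    exact (a2 T hT p hpT).2
  have sumB : ∀ B ⊆ P, ∑ S ∈ H, (B ∩ S).card = 3 * B.card := by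
    intro B hB
    rw [← dc, sum_congr rfl (fun p h => gP p (hB h)), sum_const, smul_eq_mul, mul_comm]
  have P7 : P.card = 7 := by
    have b1 := sumB P subset_rfl
    have b2 : ∑ S ∈ H, (P ∩ S).card = ∑ S ∈ H, 3 := by
      refine sum_congr rfl fun S hS => ?_
      rw [inter_eq_right.2 (fun p h => (memP p).2 ⟨S, hS, h⟩), h3 S hS]
    rw [b2, sum_const, H7, smul_eq_mul] at b1
    omega
  have two : ∀ T ∈ H, ∀ S ∈ H, ∀ a b, a ≠ b → a ∈ T → b ∈ T → a ∈ S → b ∈ S → T = S := by
    intro T hT S hS a b hab aT bT aS bS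
    by_contra hne
    have := h1 T hT S hS hne
    have c : ({a, b} : Finset V).card ≤ (T ∩ S).card :=
      card_le_card (by intro x hx; simp at hx; rcases hx with rfl | rfl <;> simp [*])
    rw [card_pair hab] at c
    omega
  have pairs : ∀ p ∈ P, ∀ q ∈ P, ∃ T ∈ H, p ∈ T ∧ q ∈ T := by
    intro p hpP q hqP
    by_contra h
    push Not at h
    obtain ⟨S, hS, pS⟩ := (memP p).1 hpP
    have ch : ∀ T, T ∈ H → ∃ x, x ∈ T ∩ S := fun T hT => hi T hT S hS
    have : Nonempty V := ⟨p⟩
    choose! f hf using ch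
    have lt : (S.erase p).card < (H.filter (fun T => q ∈ T)).card := by
      rw [card_erase_of_mem pS, h3 S hS]; have := gP q hqP; simp only [hg] at this; omega
    obtain ⟨T, hT, T', hT', hne, e⟩ := exists_ne_map_eq_of_card_lt_of_maps_to lt (f := f) (by
      intro T hT
      have hT := mem_filter.1 (mem_coe.1 hT)
      have := mem_inter.1 (hf T hT.1)
      exact mem_coe.2 (mem_erase.2 ⟨fun e => h T hT.1 (e ▸ this.1) hT.2, this.2⟩))
    have hT := mem_filter.1 hT
    have hT' := mem_filter.1 hT'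
    have c1 := mem_inter.1 (hf T hT.1)
    have c2 := mem_inter.1 (hf T' hT'.1)
    exact hne (two T hT.1 T' hT'.1 q (f T) (fun e' => h S hS pS (e' ▸ c1.2)) hT.2 c1.1 hT'.2 (e ▸ c2.1))
  have tr3 : ∀ B ⊆ P, (∀ T ∈ H, (B ∩ T).Nonempty) → 3 ≤ B.card := by
    intro B hB hT
    have b1 := sumB B hB
    have b2 : H.card * 1 ≤ ∑ S ∈ H, (B ∩ S).card := by
      rw [← smul_eq_mul]; exact card_nsmul_le_sum _ _ _ fun S hS => (hT S hS).card_pos
    omega
  have line : ∀ B ⊆ P, (∀ T ∈ H, (B ∩ T).Nonempty) → B.card = 3 → B ∈ H := by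
    intro B hB hT hc
    by_contra hn
    obtain ⟨a, b, c, hab, hac, hbc, rfl⟩ := card_eq_three.1 hc
    have aP : a ∈ P := hB (by simp)
    have bP : b ∈ P := hB (by simp)
    have cP : c ∈ P := hB (by simp)
    obtain ⟨S1, s1, a1, b1⟩ := pairs a aP b bP
    obtain ⟨S2, s2, a2, c2⟩ := pairs a aP c cP
    obtain ⟨S3, s3, b3, c3⟩ := pairs b bP c cP
    have no : ∀ S ∈ H, a ∈ S → b ∈ S → c ∈ S → False := by
      intro S hS x y z
      apply hn
      have : ({a, b, c} : Finset V) = S := eq_of_subset_of_card_le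
        (by intro t ht; simp at ht; rcases ht with rfl | rfl | rfl <;> assumption) (by rw [hc, h3 S hS])
      rwa [this]
    have n12 : S1 ≠ S2 := fun e => no S1 s1 a1 b1 (e ▸ c2)
    have n13 : S1 ≠ S3 := fun e => no S1 s1 a1 b1 (e ▸ c3)
    have n23 : S2 ≠ S3 := fun e => no S2 s2 a2 (e ▸ b3) c2
    have sub : ({S1, S2, S3} : Finset (Finset V)) ⊆ H := by
      intro t ht; simp at ht; rcases ht with rfl | rfl | rfl <;> assumption
    have c3' : ({S1, S2, S3} : Finset (Finset V)).card = 3 := card_eq_three.2 ⟨_, _, _, n12, n13, n23, rfl⟩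
    have e1 := sumB _ hB
    rw [← sum_sdiff sub] at e1
    have e2 : (H \ {S1, S2, S3}).card * 1 ≤ ∑ S ∈ H \ {S1, S2, S3}, (({a, b, c} : Finset V) ∩ S).card := by
      rw [← smul_eq_mul]; exact card_nsmul_le_sum _ _ _ fun S hS => (hT S (mem_sdiff.1 hS).1).card_pos
    have e3 : ({S1, S2, S3} : Finset (Finset V)).card * 2 ≤
        ∑ S ∈ {S1, S2, S3}, (({a, b, c} : Finset V) ∩ S).card := by
      rw [← smul_eq_mul]
      refine card_nsmul_le_sum _ _ _ fun S hS => ?_
      simp only [mem_insert, mem_singleton] at hS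
      rcases hS with rfl | rfl | rfl
      · rw [← card_pair hab]
        exact card_le_card (by intro t ht; simp at ht; rcases ht with rfl | rfl <;> simp [*])
      · rw [← card_pair hac]
        exact card_le_card (by intro t ht; simp at ht; rcases ht with rfl | rfl <;> simp [*])
      · rw [← card_pair hbc]
        exact card_le_card (by intro t ht; simp at ht; rcases ht with rfl | rfl <;> simp [*])
    rw [card_sdiff_of_subset sub, c3', H7] at e2
    rw [c3'] at e3
    omega
  set k : V → ℕ := fun v => (G.neighborFinset v ∩ P).card with hk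
  have out : ∀ v ∉ P, 3 ≤ k v := by
    intro v hv
    refine tr3 _ inter_subset_right fun T hT => ?_
    rcases hb v T hT with h | ⟨q, hq, h⟩
    · exact absurd ((memP v).2 ⟨T, hT, h⟩) hv
    · exact ⟨q, by simp only [mem_inter, SimpleGraph.mem_neighborFinset]; exact ⟨⟨h, (memP q).2 ⟨T, hT, hq⟩⟩, hq⟩⟩
  set B : V → Finset V := fun v => insert v (G.neighborFinset v ∩ P) with hB
  have Bc : ∀ v, (B v).card = k v + 1 := fun v => card_insert_of_notMem (by simp)
  have BP : ∀ v ∈ P, B v ⊆ P := fun v hv => insert_subset hv inter_subset_right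
  have Bt : ∀ v, ∀ T ∈ H, (B v ∩ T).Nonempty := by
    intro v T hT
    rcases hb v T hT with h | ⟨q, hq, h⟩
    · exact ⟨v, by simp [hB, h]⟩
    · exact ⟨q, by simp [hB, h, hq, (memP q).2 ⟨T, hT, hq⟩]⟩
  have inn : ∀ v ∈ P, 2 ≤ k v := fun v hv => by
    have := tr3 _ (BP v hv) (Bt v); rw [Bc] at this; omega
  have big : ∃ z ∈ P, 3 ≤ k z := by
    by_contra h
    push Not at h
    have L : ∀ v ∈ P, B v ∈ H := fun v hv => line _ (BP v hv) (Bt v) (by
      have := inn v hv; have := h v hv; rw [Bc]; omega)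
    have self : ∀ v, v ∈ B v := fun v => mem_insert_self _ _
    have eqB : ∀ u ∈ P, ∀ v ∈ B u, B v = B u := by
      intro u hu v hv
      by_cases e : v = u
      · rw [e]
      have hv' := hv
      simp only [hB, mem_insert, mem_inter, SimpleGraph.mem_neighborFinset, e, false_or] at hv'
      exact two _ (L v hv'.2) _ (L u hu) v u e (self v) (by simp [hB, hv'.1.symm, hu]) hv (self u)
    obtain ⟨p, hpP⟩ : P.Nonempty := card_pos.1 (by omega)
    obtain ⟨q, hqP, hq⟩ : ∃ q ∈ P, q ∉ B p := by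
      by_contra h'
      push Not at h'
      have := card_le_card (show P ⊆ B p from h')
      rw [h3 _ (L p hpP)] at this; omega
    obtain ⟨r, hr⟩ := hi _ (L p hpP) _ (L q hqP)
    rw [mem_inter] at hr
    exact hq ((eqB p hpP r hr.1) ▸ (eqB q hqP r hr.2).symm ▸ self q)
  have ev : Even (∑ v ∈ P, k v) := by
    let G' : SimpleGraph V := ⟨fun u v => G.Adj u v ∧ u ∈ P ∧ v ∈ P,
      ⟨fun u v h => ⟨h.1.symm, h.2.2, h.2.1⟩⟩, ⟨fun u h => G.loopless.irrefl u h.1⟩⟩
    let _ : DecidableRel G'.Adj := fun u v => inferInstanceAs (Decidable (G.Adj u v ∧ u ∈ P ∧ v ∈ P))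
    have e1 := G'.sum_degrees_eq_twice_card_edges
    have e2 : ∑ v, G'.degree v = ∑ v ∈ P, k v := by
      rw [← sum_subset (subset_univ P)]
      · refine sum_congr rfl fun v hv => ?_
        rw [← SimpleGraph.card_neighborFinset_eq_degree]
        congr 1; ext u; simp [G', hv]
      · intro v _ hv
        rw [← SimpleGraph.card_neighborFinset_eq_degree, card_eq_zero]
        ext u; simp [G', hv]
    exact ⟨G'.edgeFinset.card, by rw [← e2, e1, two_mul]⟩
  have s16 : 16 ≤ ∑ v ∈ P, k v := by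
    obtain ⟨z, hz, hz3⟩ := big
    obtain ⟨t, ht⟩ := ev
    have b1 := add_sum_erase P k hz
    have b2 : (P.erase z).card * 2 ≤ ∑ v ∈ P.erase z, k v := by
      rw [← smul_eq_mul]; exact card_nsmul_le_sum _ _ _ fun v hv => inn v (mem_of_mem_erase hv)
    rw [card_erase_of_mem hz, P7] at b2
    omega
  have tot : ∑ v, k v = ∑ p ∈ P, G.degree p := by
    have : ∀ v, k v = ∑ p ∈ P, if G.Adj p v then 1 else 0 := by
      intro v; rw [← card_filter]; simp only [hk]; congr 1; ext u; simp [G.adj_comm, and_comm]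
    simp_rw [this]
    rw [sum_comm]
    refine sum_congr rfl fun p _ => ?_
    rw [← card_filter, ← SimpleGraph.card_neighborFinset_eq_degree]; congr 1; ext u; simp
  have f1 : ∑ p ∈ P, G.degree p ≤ P.card * D := by
    rw [← smul_eq_mul]; exact sum_le_card_nsmul _ _ _ fun p _ => hD p
  have f2 : (univ \ P).card * 3 ≤ ∑ v ∈ univ \ P, k v := by
    rw [← smul_eq_mul]; exact card_nsmul_le_sum _ _ _ fun v hv => out v (mem_sdiff.1 hv).2
  have f3 := sum_sdiff (f := k) (subset_univ P)
  have f4 := card_sdiff_add_card_eq_card (subset_univ P)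
  rw [card_univ] at f4
  rw [P7] at f1 f4
  omega

lemma lower [Fintype V] (G : SimpleGraph V) [DecidableRel G.Adj] (D : ℕ) (hD : ∀ v, G.degree v ≤ D)
    (hdi : ∀ u v, u = v ∨ G.Adj u v ∨ ∃ w, G.Adj u w ∧ G.Adj w v)
    (hn : 100000000 ≤ Fintype.card V) (h7 : 7 * D + 6 ≤ 3 * Fintype.card V) :
    30001 * Fintype.card V < 10000 * G.edgeFinset.card := by
  by_contra he
  push Not at he
  set n := Fintype.card V with hn'
  have hs := G.sum_degrees_eq_twice_card_edges
  have reach : ∀ x, n ≤ ∑ y ∈ G.neighborFinset x, G.degree y + 1 := by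
    intro x
    have a1 : univ.erase x ⊆ (G.neighborFinset x).biUnion
        (fun y => insert y ((G.neighborFinset y).erase x)) := by
      intro v hv
      have hv := (mem_erase.1 hv).1
      simp only [mem_biUnion, SimpleGraph.mem_neighborFinset, mem_insert, mem_erase]
      rcases hdi x v with h | h | ⟨w, h1, h2⟩
      · exact absurd h.symm hv
      · exact ⟨v, h, Or.inl rfl⟩
      · exact ⟨w, h1, Or.inr ⟨hv, h2⟩⟩
    have a2 := (card_le_card a1).trans card_biUnion_le
    have a3 : ∑ y ∈ G.neighborFinset x, (insert y ((G.neighborFinset y).erase x)).card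
        ≤ ∑ y ∈ G.neighborFinset x, G.degree y := by
      refine sum_le_sum fun y hy => ?_
      have hx : x ∈ G.neighborFinset y := by simpa [G.adj_comm] using hy
      have b1 := card_insert_le y ((G.neighborFinset y).erase x)
      have b2 := card_erase_add_one hx
      rw [SimpleGraph.card_neighborFinset_eq_degree] at b2
      omega
    rw [card_erase_of_mem (mem_univ x), card_univ] at a2
    omega
  set H : Finset V := univ.filter (fun y => n ≤ 49 * G.degree y) with hH
  have Hc : H.card ≤ 343 := by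
    have a1 : H.card * n ≤ ∑ y ∈ H, 49 * G.degree y := by
      rw [← smul_eq_mul]; exact card_nsmul_le_sum _ _ _ fun y hy => (mem_filter.1 hy).2
    have a2 : ∑ y ∈ H, G.degree y ≤ ∑ y, G.degree y := sum_le_sum_of_subset (subset_univ _)
    rw [← mul_sum] at a1
    by_contra h
    have : 344 * n ≤ H.card * n := Nat.mul_le_mul_right _ (by omega)
    omega
  set k : V → ℕ := fun v => (G.neighborFinset v ∩ H).card with hk
  have kle : ∀ v, k v ≤ G.degree v := fun v => card_le_card inter_subset_left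
  have k3 : ∀ x, G.degree x ≤ 6 → 3 ≤ k x := by
    intro x hx
    by_contra h
    have a1 := reach x
    rw [← sum_inter_add_sum_sdiff (G.neighborFinset x) H] at a1
    have a2 : ∑ y ∈ G.neighborFinset x ∩ H, G.degree y ≤ k x * D := by
      rw [← smul_eq_mul]; exact sum_le_card_nsmul _ _ _ fun y _ => hD y
    have a3 : ∑ y ∈ G.neighborFinset x \ H, 49 * G.degree y ≤ (G.neighborFinset x \ H).card * n := by
      rw [← smul_eq_mul]
      refine sum_le_card_nsmul _ _ _ fun y hy => ?_
      have := (mem_sdiff.1 hy).2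
      simp only [hH, mem_filter, mem_univ, true_and] at this
      omega
    rw [← mul_sum] at a3
    have a4 : (G.neighborFinset x \ H).card * n ≤ 6 * n :=
      Nat.mul_le_mul_right _ ((card_le_card sdiff_subset).trans hx)
    have a5 : k x * D ≤ 2 * D := Nat.mul_le_mul_right _ (by omega)
    omega
  set A : Finset V := univ.filter (fun x => G.degree x = 3) with hA
  have tot : ∑ v, k v = ∑ p ∈ H, G.degree p := by
    have : ∀ v, k v = ∑ p ∈ H, if G.Adj p v then 1 else 0 := by
      intro v; rw [← card_filter]; simp only [hk]; congr 1; ext u; simp [G.adj_comm, and_comm]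
    simp_rw [this]
    rw [sum_comm]
    refine sum_congr rfl fun p _ => ?_
    rw [← card_filter, ← SimpleGraph.card_neighborFinset_eq_degree]; congr 1; ext u; simp
  have Ac : 7 * n ≤ 2 * G.edgeFinset.card + A.card + 2401 := by
    have a1 : (univ \ H).card * 7 ≤
        ∑ x ∈ univ \ H, (G.degree x + k x + if G.degree x = 3 then 1 else 0) := by
      rw [← smul_eq_mul]
      refine card_nsmul_le_sum _ _ _ fun x _ => ?_
      have := k3 x
      have := kle x
      split_ifs <;> omega
    rw [sum_add_distrib, sum_add_distrib] at a1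
    have a2 : ∑ x ∈ univ \ H, k x ≤ ∑ x, k x := sum_le_sum_of_subset sdiff_subset
    have a3 : ∑ x ∈ univ \ H, (if G.degree x = 3 then 1 else 0) ≤ A.card := by
      rw [hA, card_filter]; exact sum_le_sum_of_subset sdiff_subset
    have a4 := sum_sdiff (f := fun v => G.degree v) (subset_univ H)
    have a5 := card_sdiff_add_card_eq_card (subset_univ H)
    rw [card_univ] at a5
    omega
  have A3 : ∀ x ∈ A, (G.neighborFinset x).card = 3 := fun x hx => (mem_filter.1 hx).2
  have blk : ∀ x ∈ A, ∀ v, v ∈ G.neighborFinset x ∨ ∃ q ∈ G.neighborFinset x, G.Adj v q := by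
    intro x hx v
    rcases hdi v x with h | h | ⟨w, h1, h2⟩
    · obtain ⟨q, hq⟩ : (G.neighborFinset x).Nonempty := card_pos.1 (by rw [A3 x hx]; norm_num)
      exact Or.inr ⟨q, hq, by rw [h]; simpa using hq⟩
    · exact Or.inl (by simpa using h.symm)
    · exact Or.inr ⟨w, by simpa using h2.symm, h1⟩
  have inter : ∀ x ∈ A, ∀ y ∈ A, (G.neighborFinset x ∩ G.neighborFinset y).Nonempty := by
    intro x hx y hy
    rcases blk x hx y with h | ⟨q, h1, h2⟩
    · exfalso
      have d3 : G.degree x = 3 := (mem_filter.1 hx).2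
      have e : G.neighborFinset x ∩ H = G.neighborFinset x :=
        eq_of_subset_of_card_le inter_subset_left (by rw [A3 x hx]; exact k3 x (by omega))
      rw [← e] at h
      have b1 : n ≤ 49 * G.degree y := (mem_filter.1 (mem_inter.1 h).2).2
      have b2 : G.degree y = 3 := (mem_filter.1 hy).2
      omega
    · exact ⟨q, mem_inter.2 ⟨h1, by simpa using h2⟩⟩
  obtain ⟨K, K1, K2, K3, K4⟩ := fano A (fun x => G.neighborFinset x) (D : ℝ) A3 inter (by
    intro p
    have : (A.filter (fun x => p ∈ G.neighborFinset x)).card ≤ G.degree p :=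
      card_le_card (fun x hx => by simpa [G.adj_comm] using (mem_filter.1 hx).2)
    exact_mod_cast this.trans (hD p)) (by omega) (by
      have : 7000 * D ≤ 3001 * A.card := by omega
      exact_mod_cast this)
  have := plane G D hD K (fun T hT => by obtain ⟨x, hx, rfl⟩ := K1 T hT; exact A3 x hx)
    (fun T hT S hS => by
      obtain ⟨x, hx, rfl⟩ := K1 T hT; obtain ⟨y, hy, rfl⟩ := K1 S hS; exact inter x hx y hy)
    K2 K3 K4 (fun v T hT => by obtain ⟨x, hx, rfl⟩ := K1 T hT; exact blk x hx v)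
  omega

end Pool.Agent.H6.Diam
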