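import Pool.Agent.H6.TreeMet

/-! Rigidity of path representations in a tree: pins and localisation of overlaps. -/

namespace Pool.Agent.H6.EPT
open Pool.Agent.H6.TreeMet

variable {V : Type*} {d : V → V → ℕ}

/-- extreme points of `B` along the coordinate of `A` -/
lemma extremes [Finite V] (h : TM d) {A B : Set V} {e0 e1 : V}
    (he : ∀ x ∈ A, d e0 x + d x e1 = d e0 e1) (ho : Ov d A B) :
    ∃ L R, L ∈ A ∧ L ∈ B ∧ R ∈ A ∧ R ∈ B ∧ d e0 L + 4 ≤ d e0 R ∧
      ∀ z ∈ A, z ∈ B → d e0 L ≤ d e0 z ∧ d e0 z ≤ d e0 R := by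
  obtain ⟨x, y, h1, h2, h3, h4, h5⟩ := ho
  obtain ⟨L, hL, mL⟩ := Set.exists_min_image (A ∩ B) (fun z => d e0 z) (Set.toFinite _)
    ⟨x, h1, h2⟩
  obtain ⟨R, hR, mR⟩ := Set.exists_max_image (A ∩ B) (fun z => d e0 z) (Set.toFinite _)
    ⟨x, h1, h2⟩
  refine ⟨L, R, hL.1, hL.2, hR.1, hR.2, ?_, fun z z1 z2 => ⟨mL z ⟨z1, z2⟩, mR z ⟨z1, z2⟩⟩⟩
  have := h.seg (he x h1) (he y h3)
  have := mL x ⟨h1, h2⟩
  have := mL y ⟨h3, h4⟩
  have := mR x ⟨h1, h2⟩
  have := mR y ⟨h3, h4⟩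
  omega

lemma btw (h : TM d) {e0 e1 f g z : V} (hf : d e0 f + d f e1 = d e0 e1)
    (hg : d e0 g + d g e1 = d e0 e1) (hz : d e0 z + d z e1 = d e0 e1)
    (h1 : min (d e0 f) (d e0 g) ≤ d e0 z) (h2 : d e0 z ≤ max (d e0 f) (d e0 g)) :
    d f z + d z g = d f g := by
  have := h.seg hf hz
  have := h.seg hz hg
  have := h.seg hf hg
  omega

lemma turn (h : TM d) {A B t : Set V} (hA : Line d A) (hB : Line d B) (ht : Line d t) {e0 e1 : V}
    (h0 : e0 ∈ A) (h1 : e1 ∈ A) (he : ∀ x ∈ A, d e0 x + d x e1 = d e0 e1)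
    {L R U W : V} (LA : L ∈ A) (Lt : L ∈ t) (RA : R ∈ A) (Rt : R ∈ t) (LR : d e0 L + 4 ≤ d e0 R)
    (ext : ∀ z ∈ A, z ∈ t → d e0 L ≤ d e0 z ∧ d e0 z ≤ d e0 R)
    (UA : U ∈ A) (UB : U ∈ B) (WA : W ∈ A) (WB : W ∈ B) (UW : d e0 U + 4 ≤ d e0 W)
    (exB : ∀ z ∈ A, z ∈ B → d e0 U ≤ d e0 z ∧ d e0 z ≤ d e0 W) (ho : Ov d t B) :
    (d e0 U + 4 ≤ d e0 R ∧ d e0 L + 4 ≤ d e0 W) ∨ d e0 R = d e0 U ∨ d e0 L = d e0 W := by
  have key : ∀ z ∈ t, z ∈ B → (z ∈ A ∨ ∃ p, (p = d e0 L ∨ p = d e0 R) ∧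
      (p = d e0 U ∨ p = d e0 W)) := by
    intro z zt zB
    obtain ⟨q, q1, -, q3⟩ := h.gate e0 e1 z
    have qA : q ∈ A := hA.conv e0 h0 e1 h1 q q1
    have qt : q ∈ t := ht.conv z zt L Lt q (q3 L (he L LA))
    have qB : q ∈ B := hB.conv z zB U UB q (q3 U (he U UA))
    by_cases hz : d z q = 0
    · left
      exact h.eq0 z q hz ▸ qA
    right
    have a1 := ext q qA qt
    have a2 := exB q qA qB
    have b1 := q3 L (he L LA)
    have b2 := q3 R (he R RA)
    have b3 := q3 U (he U UA)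
    have b4 := q3 W (he W WA)
    have c1 : d q L + d e0 L = d e0 q := by have := h.seg q1 (he L LA); omega
    have c2 : d q R + d e0 q = d e0 R := by have := h.seg q1 (he R RA); omega
    have c3 : d q U + d e0 U = d e0 q := by have := h.seg q1 (he U UA); omega
    have c4 : d q W + d e0 q = d e0 W := by have := h.seg q1 (he W WA); omega
    have c5 : d L R + d e0 L = d e0 R := by have := h.seg (he L LA) (he R RA); omega
    have c6 : d U W + d e0 U = d e0 W := by have := h.seg (he U UA) (he W WA); omega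
    refine ⟨d e0 q, ?_, ?_⟩
    · have k1 := ht.col z zt L Lt R Rt
      have s1 := h.symm L z
      have s3 := h.symm L R
      omega
    · have k2 := hB.col z zB U UB W WB
      have s2 := h.symm U z
      have s4 := h.symm U W
      omega
  obtain ⟨x, y, x1, x2, y1, y2, xy⟩ := ho
  rcases key x x1 x2 with xA | ⟨p, p1, p2⟩
  · rcases key y y1 y2 with yA | ⟨p, p1, p2⟩
    · have := ext x xA x1
      have := ext y yA y1
      have := exB x xA x2
      have := exB y yA y2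
      have := h.seg (he x xA) (he y yA)
      omega
    · omega
  · omega

lemma numeric_pin (l r : Fin 6 → ℕ) (h4 : ∀ i, l i + 4 ≤ r i)
    (h3 : ∀ i j, i ≠ j → min (r i) (r j) ≤ max (l i) (l j) + 3) :
    ∃ s, ∀ j1 j2, j1 + 4 ≤ j2 →
      (∀ i, (j1 + 4 ≤ r i ∧ l i + 4 ≤ j2) ∨ r i = j1 ∨ l i = j2) → j1 ≤ s ∧ s + 7 ≤ j2 := by
  let σ := Tuple.sort l
  have m : Monotone (l ∘ σ) := Tuple.monotone_sort l
  have m01 : l (σ 0) ≤ l (σ 1) := m (by decide : (0 : Fin 6) ≤ 1)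
  have m12 : l (σ 1) ≤ l (σ 2) := m (by decide : (1 : Fin 6) ≤ 2)
  have m23 : l (σ 2) ≤ l (σ 3) := m (by decide : (2 : Fin 6) ≤ 3)
  have m34 : l (σ 3) ≤ l (σ 4) := m (by decide : (3 : Fin 6) ≤ 4)
  have m45 : l (σ 4) ≤ l (σ 5) := m (by decide : (4 : Fin 6) ≤ 5)
  have n01 := h3 (σ 0) (σ 1) (σ.injective.ne (by decide))
  have n12 := h3 (σ 1) (σ 2) (σ.injective.ne (by decide))
  have n23 := h3 (σ 2) (σ 3) (σ.injective.ne (by decide))
  have n34 := h3 (σ 3) (σ 4) (σ.injective.ne (by decide))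
  have n45 := h3 (σ 4) (σ 5) (σ.injective.ne (by decide))
  have f0 := h4 (σ 0)
  have f1 := h4 (σ 1)
  have f2 := h4 (σ 2)
  have f3 := h4 (σ 3)
  have f4 := h4 (σ 4)
  have f5 := h4 (σ 5)
  have r0 : r (σ 0) ≤ l (σ 1) + 3 := by omega
  have r1 : r (σ 1) ≤ l (σ 2) + 3 := by omega
  have r2 : r (σ 2) ≤ l (σ 3) + 3 := by omega
  have r3 : r (σ 3) ≤ l (σ 4) + 3 := by omega
  have r4 : r (σ 4) ≤ l (σ 5) + 3 := by omega
  clear n01 n12 n23 n34 n45
  refine ⟨r (σ 1) - 4, fun j1 j2 hj H => ?_⟩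
  have g0 := H (σ 0)
  have g1 := H (σ 1)
  have g4 := H (σ 4)
  have g5 := H (σ 5)
  omega

lemma pin [Finite V] (h : TM d) {A : Set V} (hA : Line d A) (t : Fin 6 → Set V)
    (ht : ∀ i, Line d (t i)) (hAt : ∀ i, Ov d A (t i)) (htt : ∀ i j, i ≠ j → ¬ Ov d (t i) (t j)) :
    ∃ u w, d u w = 7 ∧ u ∈ A ∧ w ∈ A ∧
      ∀ B, Line d B → Ov d A B → (∀ i, Ov d (t i) B) → u ∈ B ∧ w ∈ B := by
  obtain ⟨e0, h0, e1, h1, he⟩ := hA.ends h (by obtain ⟨x, -, hx, -⟩ := hAt 0; exact ⟨x, hx⟩)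
  choose L R LA Lt RA Rt LR ext using fun i => extremes h he (hAt i)
  obtain ⟨s, hs⟩ := numeric_pin (fun i => d e0 (L i)) (fun i => d e0 (R i)) LR (by
    intro i j hij
    by_contra hcon
    apply htt i j hij
    have := LR i
    have := LR j
    have d1 := he _ (RA i)
    obtain ⟨x, x1, x2⟩ := h.geo e0 e1 (max (d e0 (L i)) (d e0 (L j))) (by omega)
    obtain ⟨y, y1, y2⟩ := h.geo e0 e1 (min (d e0 (R i)) (d e0 (R j))) (by omega)
    have xe : d e0 x + d x e1 = d e0 e1 := by omega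
    have ye : d e0 y + d y e1 = d e0 e1 := by omega
    refine ⟨x, y, ?_, ?_, ?_, ?_, ?_⟩
    · exact (ht i).conv _ (Lt i) _ (Rt i) x
        (btw h (he _ (LA i)) (he _ (RA i)) xe (by omega) (by omega))
    · exact (ht j).conv _ (Lt j) _ (Rt j) x
        (btw h (he _ (LA j)) (he _ (RA j)) xe (by omega) (by omega))
    · exact (ht i).conv _ (Lt i) _ (Rt i) y
        (btw h (he _ (LA i)) (he _ (RA i)) ye (by omega) (by omega))
    · exact (ht j).conv _ (Lt j) _ (Rt j) y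
        (btw h (he _ (LA j)) (he _ (RA j)) ye (by omega) (by omega))
    · have := h.seg xe ye
      omega)
  have hD := hs 0 (d e0 e1) (by have := LR 0; have := he _ (RA 0); omega) (fun i => by
    have := LR i
    have := he _ (RA i)
    left
    constructor <;> omega)
  obtain ⟨u, u1, u2⟩ := h.geo e0 e1 s (by omega)
  obtain ⟨w, w1, w2⟩ := h.geo e0 e1 (s + 7) (by omega)
  have ue : d e0 u + d u e1 = d e0 e1 := by omega
  have we : d e0 w + d w e1 = d e0 e1 := by omega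
  refine ⟨u, w, by have := h.seg ue we; omega, hA.conv _ h0 _ h1 _ ue, hA.conv _ h0 _ h1 _ we,
    fun B hB hAB htB => ?_⟩
  obtain ⟨U, W, UA, UB, WA, WB, UW, exB⟩ := extremes h he hAB
  have := hs (d e0 U) (d e0 W) UW (fun i =>
    turn h hA hB (ht i) h0 h1 he (LA i) (Lt i) (RA i) (Rt i) (LR i) (ext i) UA UB WA WB UW exB
      (htB i))
  exact ⟨hB.conv _ UB _ WB u (btw h (he _ UA) (he _ WA) ue (by omega) (by omega)),
    hB.conv _ UB _ WB w (btw h (he _ UA) (he _ WA) we (by omega) (by omega))⟩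

/-- numeric form of a missing overlap -/
lemma short (h : TM d) {B C : Set V} (hB : Line d B) (hC : Line d C) (hn : ¬ Ov d B C)
    {e0 e1 f g u w : V} (fB : f ∈ B) (gB : g ∈ B) (uC : u ∈ C) (wC : w ∈ C)
    (hf : d e0 f + d f e1 = d e0 e1) (hg : d e0 g + d g e1 = d e0 e1)
    (hu : d e0 u + d u e1 = d e0 e1) (hw : d e0 w + d w e1 = d e0 e1) :
    min (max (d e0 f) (d e0 g)) (max (d e0 u) (d e0 w)) ≤
      max (min (d e0 f) (d e0 g)) (min (d e0 u) (d e0 w)) + 3 := by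
  by_contra hcon
  apply hn
  obtain ⟨x, x1, x2⟩ := h.geo e0 e1 (max (min (d e0 f) (d e0 g)) (min (d e0 u) (d e0 w)))
    (by omega)
  obtain ⟨y, y1, y2⟩ := h.geo e0 e1 (min (max (d e0 f) (d e0 g)) (max (d e0 u) (d e0 w)))
    (by omega)
  have xe : d e0 x + d x e1 = d e0 e1 := by omega
  have ye : d e0 y + d y e1 = d e0 e1 := by omega
  refine ⟨x, y, ?_, ?_, ?_, ?_, ?_⟩
  · exact hB.conv _ fB _ gB x (btw h hf hg xe (by omega) (by omega))
  · exact hC.conv _ uC _ wC x (btw h hu hw xe (by omega) (by omega))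
  · exact hB.conv _ fB _ gB y (btw h hf hg ye (by omega) (by omega))
  · exact hC.conv _ uC _ wC y (btw h hu hw ye (by omega) (by omega))
  · have := h.seg xe ye
    omega

/-- an overlap of `A` with `B` does not reach beyond the pin `p` -/
lemma loc [Finite V] (h : TM d) {A B C N M : Set V} (hA : Line d A) (hB : Line d B)
    (hC : Line d C) (hN : Line d N) (hM : Line d M) {u w p u' w' p' b x y : V}
    (uw : d u w = 7) (up : d u p = 3) (pw : d p w = 4)
    (uw' : d u' w' = 7) (up' : d u' p' = 3) (pw' : d p' w' = 4)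
    (uA : u ∈ A) (wA : w ∈ A) (uA' : u' ∈ A) (wA' : w' ∈ A)
    (uC : u' ∈ C) (wC : w' ∈ C) (bB : b ∈ B) (bC : b ∈ C)
    (uN : u ∈ N) (wN : w ∈ N) (nN : ¬ Ov d B N) (uM : u ∈ M) (wM : w ∈ M) (nM : ¬ Ov d C M)
    (xA : x ∈ A) (xB : x ∈ B) (yA : y ∈ A) (yB : y ∈ B) (xy : 4 ≤ d x y)
    (hx : d x p + d p p' = d x p') : d x p = 0 := by
  obtain ⟨e0, h0, e1, h1, he⟩ := hA.ends h ⟨u, uA⟩
  have pA : p ∈ A := hA.conv u uA w wA p (by omega)
  have pA' : p' ∈ A := hA.conv u' uA' w' wA' p' (by omega)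
  have pC : p' ∈ C := hC.conv u' uC w' wC p' (by omega)
  obtain ⟨q, q1, -, q3⟩ := h.gate e0 e1 b
  have qB : q ∈ B := hB.conv b bB x xB q (q3 x (he x xA))
  have qC : q ∈ C := hC.conv b bC p' pC q (q3 p' (he p' pA'))
  have a1 := short h hB hN nN xB yB uN wN (he x xA) (he y yA) (he u uA) (he w wA)
  have a2 := short h hB hN nN xB qB uN wN (he x xA) q1 (he u uA) (he w wA)
  have a3 := short h hB hN nN yB qB uN wN (he y yA) q1 (he u uA) (he w wA)
  have a4 := short h hC hM nM qC pC uM wM q1 (he p' pA') (he u uA) (he w wA)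
  have a5 := short h hC hM nM uC wC uM wM (he u' uA') (he w' wA') (he u uA) (he w wA)
  have b1 := h.seg (he u uA) (he w wA)
  have b2 := h.seg (he u uA) (he p pA)
  have b3 := h.seg (he p pA) (he w wA)
  have b4 := h.seg (he u' uA') (he w' wA')
  have b5 := h.seg (he u' uA') (he p' pA')
  have b6 := h.seg (he p' pA') (he w' wA')
  have b7 := h.seg (he x xA) (he y yA)
  have b8 := h.seg (he x xA) (he p pA)
  have b9 := h.seg (he p pA) (he p' pA')
  have b10 := h.seg (he x xA) (he p' pA')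
  rw [uw] at b1
  rw [up] at b2
  rw [pw] at b3
  rw [uw'] at b4
  rw [up'] at b5
  rw [pw'] at b6
  rw [b7] at xy
  rw [b8, b9, b10] at hx
  rw [b8]
  generalize d e0 u = cu at *
  generalize d e0 w = cw at *
  generalize d e0 p = cp at *
  generalize d e0 u' = cu' at *
  generalize d e0 w' = cw' at *
  generalize d e0 p' = cp' at *
  generalize d e0 x = cx at *
  generalize d e0 y = cy at *
  generalize d e0 q = cq at *
  clear b7 b8 b9 b10 q1
  obtain ⟨a, e1, e2, e3⟩ : ∃ a, min cu cw = a ∧ max cu cw = a + 7 ∧ (cp = a + 3 ∨ cp = a + 4) :=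
    ⟨_, rfl, by clear * - b1; omega, by clear * - b1 b2 b3; omega⟩
  obtain ⟨c, e4, e5, e6⟩ : ∃ c, min cu' cw' = c ∧ max cu' cw' = c + 7 ∧
      (cp' = c + 3 ∨ cp' = c + 4) :=
    ⟨_, rfl, by clear * - b4; omega, by clear * - b4 b5 b6; omega⟩
  rw [e1, e2] at a1 a2 a3 a4 a5
  rw [e4, e5] at a5
  have o3 : cx + 4 ≤ cy ∨ cy + 4 ≤ cx := by clear * - xy; omega
  have o4 : cx = cp ∨ (cx < cp ∧ cp ≤ cp') ∨ (cp < cx ∧ cp' ≤ cp) := by clear * - hx; omega
  rcases o4 with o4 | o4 | o4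
  · clear * - o4; omega
  · exfalso
    have n1 : a + 7 ≤ cp' := by clear * - a5 e3 e6 o4; omega
    have n2 : a + 4 ≤ cq := by clear * - a4 n1; omega
    have n3 : cx ≤ a + 3 := by clear * - e3 o4; omega
    rcases o3 with o3 | o3
    · have n4 : cx < a := by clear * - a1 o3 n3; omega
      clear * - a2 n2 n4; omega
    · clear * - a3 n2 n3 o3; omega
  · exfalso
    have n1 : cp' ≤ a := by clear * - a5 e3 e6 o4; omega
    have n2 : cq ≤ a + 3 := by clear * - a4 n1; omega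
    have n3 : a + 4 ≤ cx := by clear * - e3 o4; omega
    rcases o3 with o3 | o3
    · clear * - a3 n2 n3 o3; omega
    · have n4 : a + 7 < cx := by clear * - a1 o3 n3; omega
      clear * - a2 n2 n4; omega

lemma ov_of_far (h : TM d) {A B : Set V} (hA : Line d A) (hB : Line d B) {a c b e : V}
    (aA : a ∈ A) (cA : c ∈ A) (bB : b ∈ B) (eB : e ∈ B)
    (hf : d a b + d c e + 8 ≤ d a c + d b e) : Ov d A B := by
  obtain ⟨x, x1, x2, x3⟩ := h.gate a c b
  obtain ⟨y, y1, y2, y3⟩ := h.gate a c e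
  have s1 := h.symm c e
  have s2 := h.symm b c
  have f1 : d a c + d b e ≤ d a e + d b c := by have := h.four a c b e; omega
  have f2 : d a e + d b c ≤ d a c + d b e := by
    have := h.four a e b c
    have := h.symm b e
    omega
  have k : d x y + d a x = d a y ∧ 4 ≤ d x y := by
    have := h.seg x1 y1
    omega
  have g1 : d b x + d a x = d a b := by
    have := x3 a (by rw [h.self]; omega)
    have := h.symm a b
    have := h.symm a x
    omega
  have g2 : d y e + d a y = d a e := by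
    have := y3 a (by rw [h.self]; omega)
    have := h.symm a e
    have := h.symm a y
    have := h.symm y e
    omega
  have g3 := x3 y y1
  have g4 : d y e + d x y = d x e := by
    have := y3 x x1
    have := h.symm x y
    have := h.symm x e
    have := h.symm y e
    omega
  exact ⟨x, y, hA.conv a aA c cA x x1, hB.conv b bB e eB x (by omega), hA.conv a aA c cA y y1,
    hB.conv b bB e eB y (by omega), k.2⟩

lemma far_of_btw (h : TM d) {a c b e x y : V} (x1 : d a x + d x c = d a c)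
    (y1 : d a y + d y c = d a c) (x2 : d b x + d x e = d b e) (y2 : d b y + d y e = d b e)
    (xy : 4 ≤ d x y) :
    d a b + d c e + 8 ≤ d a c + d b e ∨ d a e + d c b + 8 ≤ d a c + d b e := by
  have k1 := h.seg x1 y1
  have k2 := h.seg x2 y2
  have t1 := h.tri a x b
  have t2 := h.tri a y b
  have t3 := h.tri a x e
  have t4 := h.tri a y e
  have t5 := h.tri c x b
  have t6 := h.tri c y b
  have t7 := h.tri c x e
  have t8 := h.tri c y e
  have s1 := h.symm x b
  have s2 := h.symm y b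
  have s3 := h.symm x c
  have s4 := h.symm y c
  omega

end Pool.Agent.H6.EPT
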