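import Pool.Agent.H6.EPT

/-! A graph represented by paths in a tree with threshold 4 but not with threshold 5. -/

namespace Pool.Agent.H6.EPT
open Pool.Agent.H6.TreeMet SimpleGraph

lemma final (g : Fin 10 → Fin 10 → ℕ) (sy : ∀ p q, g p q = g q p) (z : ∀ p, g 8 p = 0)
    (th : ∀ p q s, g p s ≤ g p q ∨ g q s ≤ g p q)
    (l1 : g 0 8 + g 1 9 + 4 ≤ g 0 1 + g 8 9) (l2 : g 1 8 + g 0 9 + 4 ≤ g 1 0 + g 8 9)
    (l3 : g 2 8 + g 3 9 + 4 ≤ g 2 3 + g 8 9) (l4 : g 3 8 + g 2 9 + 4 ≤ g 3 2 + g 8 9)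
    (l5 : g 4 8 + g 5 9 + 4 ≤ g 4 5 + g 8 9) (l6 : g 5 8 + g 4 9 + 4 ≤ g 5 4 + g 8 9)
    (l7 : g 6 8 + g 7 9 + 4 ≤ g 6 7 + g 8 9) (l8 : g 7 8 + g 6 9 + 4 ≤ g 7 6 + g 8 9)
    (n : ∀ a p : Fin 10, a.val < 8 → p.val < 8 → a.val / 2 ≠ p.val / 2 →
      g a p + g 8 9 ≤ g a 8 + g p 9 + 3)
    (m1 : g 0 1 + g 2 3 ≤ g 0 2 + g 1 3 + 3) (m2 : g 4 5 + g 6 7 ≤ g 4 6 + g 5 7 + 3)
    (k1 : g 0 1 + g 8 4 ≤ g 0 8 + g 1 4 + 3) (k2 : g 0 1 + g 8 6 ≤ g 0 8 + g 1 6 + 3)
    (k3 : g 2 3 + g 8 4 ≤ g 2 8 + g 3 4 + 3) (k4 : g 2 3 + g 8 6 ≤ g 2 8 + g 3 6 + 3)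
    (w1 : g 0 4 + g 1 6 + 4 ≤ g 0 1 + g 4 6) (w2 : g 2 4 + g 3 6 + 4 ≤ g 2 3 + g 4 6)
    (v1 : g 0 2 + g 4 6 ≤ g 0 4 + g 2 6 + 3) (v2 : g 0 2 + g 6 4 ≤ g 0 6 + g 2 4 + 3) :
    False := by
  have z' : ∀ p, g p 8 = 0 := fun p => by rw [sy, z]
  simp only [z, z'] at *
  rw [sy 1 0] at l2
  rw [sy 3 2] at l4
  rw [sy 5 4] at l6
  rw [sy 7 6] at l8
  rw [sy 6 4] at v2
  have cl : ∀ a b p : Fin 10, a.val < 8 → b.val < 8 → p.val < 8 → a.val / 2 ≠ p.val / 2 →
      b.val / 2 ≠ p.val / 2 → g a 9 + 4 ≤ g a b → g b 9 + 4 ≤ g a b → g b p = g a p := by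
    intro a b p ha hb hp h1 h2 h3 h4
    have := n p a hp ha h1.symm
    have := n p b hp hb h2.symm
    have := th a p b
    have := th b p a
    have := sy a b
    have := sy p a
    have := sy p b
    omega
  have e13 : g 1 3 = g 0 2 := by
    rw [cl 0 1 3 (by decide) (by decide) (by decide) (by decide) (by decide) (by omega) (by omega),
      sy 0 3, cl 2 3 0 (by decide) (by decide) (by decide) (by decide) (by decide) (by omega)
      (by omega), sy 2 0]
  have e57 : g 5 7 = g 4 6 := by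
    rw [cl 4 5 7 (by decide) (by decide) (by decide) (by decide) (by decide) (by omega) (by omega),
      sy 4 7, cl 6 7 4 (by decide) (by decide) (by decide) (by decide) (by decide) (by omega)
      (by omega), sy 6 4]
  have e14 := cl 0 1 4 (by decide) (by decide) (by decide) (by decide) (by decide) (by omega)
    (by omega)
  have e16 := cl 0 1 6 (by decide) (by decide) (by decide) (by decide) (by decide) (by omega)
    (by omega)
  have e34 := cl 2 3 4 (by decide) (by decide) (by decide) (by decide) (by decide) (by omega)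
    (by omega)
  have e36 := cl 2 3 6 (by decide) (by decide) (by decide) (by decide) (by decide) (by omega)
    (by omega)
  have n1 := n 0 2 (by decide) (by decide) (by decide)
  have n2 := n 4 6 (by decide) (by decide) (by decide)
  have q1 : g 0 9 = g 2 9 ∧ g 0 2 = g 0 9 + 3 := by
    have := th 0 9 2
    have := th 2 9 0
    have := sy 9 2
    have := sy 9 0
    have := sy 2 0
    omega
  have q2 : g 4 9 = g 6 9 ∧ g 4 6 = g 4 9 + 3 := by
    have := th 4 9 6
    have := th 6 9 4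
    have := sy 9 6
    have := sy 9 4
    have := sy 6 4
    omega
  have q3 : g 0 9 = g 4 9 := by
    have := th 0 9 4
    have := th 4 9 0
    have := th 0 4 9
    have := sy 9 4
    have := sy 9 0
    have := sy 4 0
    have := n 0 4 (by decide) (by decide) (by decide)
    omega
  have t1 := th 0 4 2
  have t2 := th 2 4 0
  have t3 := th 0 6 2
  have t4 := th 2 6 0
  have t5 := th 0 4 6
  have t6 := th 0 6 4
  have s1 := sy 4 2
  have s2 := sy 4 0
  have s3 := sy 2 0
  have s4 := sy 6 2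
  have s5 := sy 6 0
  have s6 := sy 6 4
  omega

def par (x : ℕ) : ℕ :=
  if x < 4 then 0 else if x < 8 then (x - 2) / 2 else
    if x % 8 = 0 then (if x < 72 then 4 + (x - 8) / 16 else 3) else x - 1

def adjN (x y : ℕ) : Bool := x != y && (par x == y || par y == x)

def tail (a : ℕ) : List ℕ := (List.range 8).map fun k => 15 + 8 * a - k

def att (a : ℕ) : ℕ := if a < 8 then 4 + a / 2 else 3

def mid (x y : ℕ) : List ℕ :=
  if x = y then [x] else if par x = par y then [x, par x, y]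
  else if x = 3 then [3, 0, par y, y] else if y = 3 then [x, par x, 0, 3]
  else [x, par x, 0, par y, y]

def pth (v : ℕ) : List ℕ :=
  if v < 100 then
    (if v / 10 = v % 10 then tail (v / 10) ++ [att (v / 10)]
     else tail (v / 10) ++ mid (att (v / 10)) (att (v % 10)) ++ (tail (v % 10)).reverse)
  else ((tail ((v - 100) / 6) ++ [att ((v - 100) / 6)]).drop ((v - 100) % 6)).take 4

def T0 : SimpleGraph (Fin 88) where
  Adj x y := adjN x y = true
  symm := ⟨fun x y h => by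
    simp only [adjN, Bool.and_eq_true, bne_iff_ne, ne_eq, Bool.or_eq_true, beq_iff_eq] at h ⊢
    exact ⟨fun e => h.1 e.symm, h.2.symm⟩⟩
  loopless := ⟨fun x h => by simp [adjN] at h⟩

instance : DecidableRel T0.Adj := fun x y => inferInstanceAs (Decidable (adjN x y = true))

def S0 (v : Fin 160) : Set (Fin 88) := {w | w.val ∈ pth v}

def adjB (u v : ℕ) : Bool := decide (4 ≤ ((pth u).filter fun x => decide (x ∈ pth v)).length)

lemma T0_tree : T0.IsTree := by
  rw [isTree_iff_connected_and_card]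
  constructor
  · have hp : ∀ x : Fin 88, x ≠ 0 → ∃ y : Fin 88, y < x ∧ T0.Adj y x := by decide +kernel
    have : ∀ n, ∀ x : Fin 88, x.val = n → T0.Reachable 0 x := by
      intro n
      induction n using Nat.strong_induction_on with
      | _ n ih =>
        intro x hx
        by_cases h0 : x = 0
        · rw [h0]
        · obtain ⟨y, h1, h2⟩ := hp x h0
          exact (ih y (hx ▸ h1) y rfl).trans h2.reachable
    exact ⟨fun x y => (this _ x rfl).symm.trans (this _ y rfl)⟩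
  · have h1 := T0.sum_degrees_eq_twice_card_edges
    have h2 : ∑ v, T0.degree v = 174 := by
      simp only [← card_neighborFinset_eq_degree, neighborFinset_eq_filter]
      decide +kernel
    rw [Nat.card_eq_fintype_card, Nat.card_eq_fintype_card, ← edgeFinset_card, Fintype.card_fin]
    omega

lemma ncard_list (l : List ℕ) (h1 : l.Nodup) (h2 : ∀ x ∈ l, x < 88) :
    ({w : Fin 88 | w.val ∈ l}).ncard = l.length := by
  rw [← Set.ncard_image_of_injective _ Fin.val_injective, ← List.toFinset_card_of_nodup h1,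
    ← Set.ncard_coe_finset]
  congr 1
  ext x
  simp only [Set.mem_image, Set.mem_setOf_eq, List.coe_toFinset]
  exact ⟨fun ⟨w, hw, e⟩ => e ▸ hw, fun hx => ⟨⟨x, h2 x hx⟩, hx, rfl⟩⟩

lemma pth_ok : ∀ v : Fin 160, (pth v).Nodup ∧ (∀ x ∈ pth v, x < 88) ∧ pth v ≠ [] ∧
    List.IsChain (fun x y => adjN x y = true) (pth v) ∧
    ∀ w ∈ pth v, ((pth v).filter fun x => adjN w x).length ≤ 2 := by decide +kernel

lemma conn_list (l : List ℕ) (h2 : ∀ x ∈ l, x < 88) (hne : l ≠ [])
    (hc : List.IsChain (fun x y => adjN x y = true) l) :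
    (T0.induce {w : Fin 88 | w.val ∈ l}).Connected := by
  obtain ⟨a, l', rfl⟩ := List.exists_cons_of_ne_nil hne
  have key : ∀ (m : List ℕ) (b : ℕ) (hb : b ∈ a :: l') (_ : ∀ x ∈ m, x ∈ a :: l'),
      List.IsChain (fun x y => adjN x y = true) (b :: m) →
      ∀ x (hx : x ∈ a :: l'), x ∈ b :: m → (T0.induce {w : Fin 88 | w.val ∈ a :: l'}).Reachable
        ⟨⟨b, h2 b hb⟩, hb⟩ ⟨⟨x, h2 x hx⟩, hx⟩ := by
    intro m
    induction m with
    | nil =>
      intro b hb _ _ x hx e
      simp only [List.mem_singleton] at e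
      subst e
      rfl
    | cons c m ih =>
      intro b hb hm hch x hx e
      rw [List.isChain_cons_cons] at hch
      rcases List.mem_cons.1 e with rfl | e
      · rfl
      · have hc' : c ∈ a :: l' := hm c List.mem_cons_self
        refine Reachable.trans (Adj.reachable ?_)
          (ih c hc' (fun y hy => hm y (List.mem_cons_of_mem _ hy)) hch.2 x hx e)
        exact hch.1
  haveI : Nonempty {w : Fin 88 | w.val ∈ a :: l'} :=
    ⟨⟨⟨a, h2 a List.mem_cons_self⟩, List.mem_cons_self⟩⟩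
  refine ⟨fun x y => ?_⟩
  exact (key l' a List.mem_cons_self (fun y hy => List.mem_cons_of_mem _ hy) hc x.1 x.2 x.2).symm.trans
    (key l' a List.mem_cons_self (fun y hy => List.mem_cons_of_mem _ hy) hc y.1 y.2 y.2)

lemma inter_card (u v : Fin 160) : 4 ≤ (S0 u ∩ S0 v).ncard ↔ adjB u v = true := by
  have : S0 u ∩ S0 v = {w : Fin 88 | w.val ∈ (pth u).filter fun x => decide (x ∈ pth v)} := by
    ext w
    simp [S0]
  rw [this, ncard_list _ ((pth_ok u).1.filter _)
    (fun x hx => (pth_ok u).2.1 x (List.mem_of_mem_filter hx)), adjB, decide_eq_true_iff]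

def G0 : SimpleGraph (Fin 160) where
  Adj u v := u ≠ v ∧ 4 ≤ (S0 u ∩ S0 v).ncard
  symm := ⟨fun u v h => ⟨h.1.symm, Set.inter_comm (S0 u) (S0 v) ▸ h.2⟩⟩
  loopless := ⟨fun _ h => h.1 rfl⟩

lemma deg_ok (v : Fin 160) (w : Fin 88) (hw : w ∈ S0 v) :
    (T0.neighborSet w ∩ S0 v).ncard ≤ 2 := by
  have : T0.neighborSet w ∩ S0 v =
      {x : Fin 88 | x.val ∈ (pth v).filter fun x => adjN w x} := by
    ext x
    simp only [S0, Set.mem_inter_iff, mem_neighborSet, Set.mem_setOf_eq, List.mem_filter]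
    exact and_comm
  rw [this, ncard_list _ ((pth_ok v).1.filter _)
    (fun x hx => (pth_ok v).2.1 x (List.mem_of_mem_filter hx))]
  exact (pth_ok v).2.2.2.2 w hw

def li (a b : Fin 10) : Fin 160 := ⟨10 * a + b, by omega⟩
def ti (a : Fin 10) (i : Fin 6) : Fin 160 := ⟨100 + 6 * a + i, by omega⟩

lemma f1 : ∀ a b : Fin 10, a ≠ b → li a a ≠ li a b ∧ li a a ≠ li b a ∧
    adjB (li a a) (li a b) = true ∧ adjB (li a a) (li b a) = true := by decide +kernel
lemma f2 : ∀ (a b : Fin 10) (i : Fin 6), ti a i ≠ li a b ∧ ti a i ≠ li b a ∧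
    adjB (ti a i) (li a b) = true ∧ adjB (ti a i) (li b a) = true ∧
    adjB (li a a) (ti a i) = true := by decide +kernel
lemma f3 : ∀ (a : Fin 10) (i j : Fin 6), i ≠ j → ti a i ≠ ti a j ∧
    adjB (ti a i) (ti a j) = false := by decide +kernel
lemma f4 : ∀ a b e : Fin 10, a ≠ b → a ≠ e → li b e ≠ li a a ∧
    adjB (li b e) (li a a) = false := by decide +kernel
lemma f5 : ∀ a p : Fin 10, a.val < 8 → p.val < 8 → a.val / 2 ≠ p.val / 2 →
    li a 8 ≠ li p 9 ∧ adjB (li a 8) (li p 9) = false := by decide +kernel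

theorem no_rep {V : Type*} [Finite V] {d : V → V → ℕ} (h : TM d) (S : Fin 160 → Set V)
    (hS : ∀ v, Line d (S v)) (hG : ∀ u v : Fin 160, u ≠ v → (adjB u v = true ↔ Ov d (S u) (S v))) :
    False := by
  have no : ∀ u v : Fin 160, u ≠ v ∧ adjB u v = false → ¬ Ov d (S u) (S v) := fun u v h1 h2 => by
    have := (hG u v h1.1).2 h2
    rw [h1.2] at this
    exact Bool.false_ne_true this
  have pins : ∀ a : Fin 10, ∃ u w p, d u w = 7 ∧ d u p = 3 ∧ d p w = 4 ∧
      ∀ b, (u ∈ S (li a b) ∧ w ∈ S (li a b)) ∧ (u ∈ S (li b a) ∧ w ∈ S (li b a)) := by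
    intro a
    obtain ⟨u, w, h1, h2, h3, h4⟩ := pin h (hS (li a a)) (fun i => S (ti a i)) (fun i => hS _)
      (fun i => (hG _ _ (f2 a a i).1.symm).1 (f2 a a i).2.2.2.2)
      (fun i j hij => no _ _ (f3 a i j hij))
    obtain ⟨p, p1, p2⟩ := h.geo u w 3 (by omega)
    refine ⟨u, w, p, h1, p1, by omega, fun b => ?_⟩
    by_cases hab : a = b
    · subst hab
      exact ⟨⟨h2, h3⟩, h2, h3⟩
    · exact ⟨h4 _ (hS _) ((hG _ _ (f1 a b hab).1).1 (f1 a b hab).2.2.1)
        (fun i => (hG _ _ (f2 a b i).1).1 (f2 a b i).2.2.1),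
        h4 _ (hS _) ((hG _ _ (f1 a b hab).2.1).1 (f1 a b hab).2.2.2)
        (fun i => (hG _ _ (f2 a b i).2.1).1 (f2 a b i).2.2.2.1)⟩
  choose u w p uw up pw mem using pins
  have pl : ∀ a b, p a ∈ S (li a b) := fun a b =>
    (hS _).conv _ (mem a b).1.1 _ (mem a b).1.2 _ (by rw [up, pw, uw])
  have pr : ∀ a b, p a ∈ S (li b a) := fun a b =>
    (hS _).conv _ (mem a b).2.1 _ (mem a b).2.2 _ (by rw [up, pw, uw])
  have inside : ∀ a c b e : Fin 10, a ≠ c → a ≠ b → a ≠ e → c ≠ b → c ≠ e →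
      ∀ x y, x ∈ S (li a c) → x ∈ S (li b e) → y ∈ S (li a c) → y ∈ S (li b e) → 4 ≤ d x y →
      d (p a) x + d x (p c) = d (p a) (p c) := by
    intro a c b e ac ab ae cb ce x y x1 x2 y1 y2 xy
    have s1 := h.symm x (p a)
    have s2 := h.symm x (p c)
    have s3 := h.symm (p a) (p c)
    rcases (hS (li a c)).col _ (pl a c) x x1 _ (pr c a) with k | k | k
    · exact k
    · have := loc h (hS (li a c)) (hS (li b e)) (hS (li c b)) (hS (li a a)) (hS (li a a))
        (uw a) (up a) (pw a) (uw c) (up c) (pw c) (mem a c).1.1 (mem a c).1.2 (mem c a).2.1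
        (mem c a).2.2 (mem c b).1.1 (mem c b).1.2 (pl b e) (pr b c) (mem a a).1.1 (mem a a).1.2
        (no _ _ (f4 a b e ab ae)) (mem a a).1.1 (mem a a).1.2 (no _ _ (f4 a c b ac ab))
        x1 x2 y1 y2 xy k
      omega
    · have := loc h (hS (li a c)) (hS (li b e)) (hS (li a b)) (hS (li c c)) (hS (li c c))
        (uw c) (up c) (pw c) (uw a) (up a) (pw a) (mem c a).2.1 (mem c a).2.2 (mem a c).1.1
        (mem a c).1.2 (mem a b).1.1 (mem a b).1.2 (pl b e) (pr b a) (mem c c).1.1 (mem c c).1.2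
        (no _ _ (f4 c b e cb ce)) (mem c c).1.1 (mem c c).1.2 (no _ _ (f4 c a b ac.symm cb))
        x1 x2 y1 y2 xy (by omega)
      omega
  have far : ∀ a c b e : Fin 10, (a ≠ c ∧ a ≠ b ∧ a ≠ e ∧ c ≠ b ∧ c ≠ e ∧ b ≠ e ∧
      li a c ≠ li b e ∧ adjB (li a c) (li b e) = true) →
      d (p a) (p b) + d (p c) (p e) + 8 ≤ d (p a) (p c) + d (p b) (p e) ∨
      d (p a) (p e) + d (p c) (p b) + 8 ≤ d (p a) (p c) + d (p b) (p e) := by
    rintro a c b e ⟨ac, ab, ae, cb, ce, be, hne, hadj⟩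
    obtain ⟨x, y, x1, x2, y1, y2, xy⟩ := (hG _ _ hne).1 hadj
    have yx : 4 ≤ d y x := by rw [h.symm]; exact xy
    exact far_of_btw h (inside a c b e ac ab ae cb ce x y x1 x2 y1 y2 xy)
      (inside a c b e ac ab ae cb ce y x y1 y2 x1 x2 yx)
      (inside b e a c be ab.symm cb.symm ae.symm ce.symm x y x2 x1 y2 y1 xy)
      (inside b e a c be ab.symm cb.symm ae.symm ce.symm y x y2 y1 x2 x1 yx) xy
  have hg : ∀ a b : Fin 10, ∃ g, 2 * g + d (p a) (p b) = d (p 8) (p a) + d (p 8) (p b) := by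
    intro a b
    have := h.par (p 8) (p a) (p b)
    have := h.tri (p a) (p 8) (p b)
    have := h.symm (p a) (p 8)
    exact ⟨(d (p 8) (p a) + d (p 8) (p b) - d (p a) (p b)) / 2, by omega⟩
  choose g hg using hg
  have near : ∀ a c b e : Fin 10, (li a c ≠ li b e ∧ adjB (li a c) (li b e) = false) →
      g a b + g c e ≤ g a c + g b e + 3 := by
    intro a c b e hn
    by_contra hcon
    refine no _ _ hn (ov_of_far h (hS _) (hS _) (pl a c) (pr c a) (pl b e) (pr e b) ?_)
    have := hg a b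
    have := hg c e
    have := hg a c
    have := hg b e
    omega
  have low : ∀ a b c e : Fin 10, ((a ≠ c ∧ a ≠ b ∧ a ≠ e ∧ c ≠ b ∧ c ≠ e ∧ b ≠ e ∧
      li a c ≠ li b e ∧ adjB (li a c) (li b e) = true) ∧
      (a ≠ e ∧ a ≠ b ∧ a ≠ c ∧ e ≠ b ∧ e ≠ c ∧ b ≠ c ∧
      li a e ≠ li b c ∧ adjB (li a e) (li b c) = true)) →
      g a c + g b e + 4 ≤ g a b + g c e := by
    intro a b c e hh
    have k1 := far a c b e hh.1
    have k2 := far a e b c hh.2
    have k3 := h.four (p a) (p c) (p b) (p e)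
    have := h.symm (p c) (p e)
    have := h.symm (p c) (p b)
    have := h.symm (p e) (p b)
    have := hg a b
    have := hg c e
    have := hg a c
    have := hg b e
    omega
  refine final g (fun a b => ?_) (fun a => ?_) (fun a b c => ?_)
    (low 0 1 8 9 (by decide +kernel)) (low 1 0 8 9 (by decide +kernel))
    (low 2 3 8 9 (by decide +kernel)) (low 3 2 8 9 (by decide +kernel))
    (low 4 5 8 9 (by decide +kernel)) (low 5 4 8 9 (by decide +kernel))
    (low 6 7 8 9 (by decide +kernel)) (low 7 6 8 9 (by decide +kernel))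
    (fun a q h1 h2 h3 => near a 8 q 9 (f5 a q h1 h2 h3))
    (near 0 2 1 3 (by decide +kernel)) (near 4 6 5 7 (by decide +kernel))
    (near 0 8 1 4 (by decide +kernel)) (near 0 8 1 6 (by decide +kernel))
    (near 2 8 3 4 (by decide +kernel)) (near 2 8 3 6 (by decide +kernel))
    (low 0 1 4 6 (by decide +kernel)) (low 2 3 4 6 (by decide +kernel))
    (near 0 4 2 6 (by decide +kernel)) (near 0 6 2 4 (by decide +kernel))
  · have := hg a b
    have := hg b a
    have := h.symm (p a) (p b)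
    omega
  · have := hg 8 a
    have := h.self (p 8)
    omega
  · have := h.four (p 8) (p c) (p a) (p b)
    have := hg a b
    have := hg a c
    have := hg b c
    have := h.symm (p c) (p a)
    have := h.symm (p c) (p b)
    omega

end Pool.Agent.H6.EPT
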