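import Mathlib

set_option autoImplicit false

namespace Pool.Agent.H6.Eternal

open Finset

abbrev R := Fin 32 × Bool
abbrev I := Fin 63

def fl (s : R) : R := (s.1, !s.2)

@[simp] lemma fl_fl (s : R) : fl (fl s) = s := by simp [fl]
@[simp] lemma fl_fst (s : R) : (fl s).1 = s.1 := rfl
lemma fl_ne (s : R) : fl s ≠ s := by
  obtain ⟨j, b⟩ := s; cases b <;> simp [fl]
lemma eq_or_fl {s t : R} (h : s.1 = t.1) : t = s ∨ t = fl s := by
  obtain ⟨j, b⟩ := s; obtain ⟨j', b'⟩ := t
  simp only at h; subst h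
  cases b <;> cases b' <;> simp [fl]

structure Good (H : R → Finset I) : Prop where
  hc : ∀ s x, x ∈ H (fl s) ↔ x ∉ H s
  h1 : ∀ s, 31 ≤ #(H s)
  h2 : ∀ s t : R, s.1 ≠ t.1 → #(H s ∩ H t) ≤ 16
  h3 : ∀ s t u : R, s.1 ≠ t.1 → s.1 ≠ u.1 → t.1 ≠ u.1 → #(H s ∩ H t ∩ H u) ≤ 8

def dbl (T : Finset R) : Finset (Fin 32) := univ.filter (fun j => (j, true) ∈ T ∧ (j, false) ∈ T)

lemma mem_dbl {T : Finset R} {s : R} : s.1 ∈ dbl T ↔ s ∈ T ∧ fl s ∈ T := by
  obtain ⟨j, b⟩ := s; cases b <;> simp [dbl, fl, and_comm]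

lemma card_eq (T : Finset R) : #T = #(T.image Prod.fst) + #(dbl T) := by
  have h1 := card_filter_add_card_filter_not (s := T) (fun s => s.2 = true)
  have h2 : #(T.filter (fun s => s.2 = true)) = #(univ.filter (fun j : Fin 32 => (j, true) ∈ T)) := by
    refine card_bij (fun s _ => s.1) ?_ ?_ ?_
    · rintro ⟨j, b⟩ h; simp only [mem_filter] at h ⊢; obtain ⟨h, rfl⟩ := h; simpa using h
    · rintro ⟨j, b⟩ h ⟨j', b'⟩ h' e; simp only [mem_filter] at h h' e
      exact Prod.ext e (h.2.trans h'.2.symm)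
    · intro j h; exact ⟨(j, true), by simpa using h, rfl⟩
  have h3 : #(T.filter (fun s => ¬ s.2 = true)) =
      #(univ.filter (fun j : Fin 32 => (j, false) ∈ T)) := by
    refine card_bij (fun s _ => s.1) ?_ ?_ ?_
    · rintro ⟨j, b⟩ h; simp only [mem_filter, Bool.not_eq_true] at h ⊢
      obtain ⟨h, rfl⟩ := h; simpa using h
    · rintro ⟨j, b⟩ h ⟨j', b'⟩ h' e; simp only [mem_filter, Bool.not_eq_true] at h h' e
      simp_all
    · intro j h; exact ⟨(j, false), by simpa using h, rfl⟩
  have h4 := card_union_add_card_inter (univ.filter (fun j : Fin 32 => (j, true) ∈ T))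
    (univ.filter (fun j : Fin 32 => (j, false) ∈ T))
  have h5 : univ.filter (fun j : Fin 32 => (j, true) ∈ T) ∪
      univ.filter (fun j : Fin 32 => (j, false) ∈ T) = T.image Prod.fst := by
    ext j; simp [or_comm]
  have h6 : univ.filter (fun j : Fin 32 => (j, true) ∈ T) ∩
      univ.filter (fun j : Fin 32 => (j, false) ∈ T) = dbl T := by
    ext j; simp [dbl]
  rw [h5, h6] at h4
  omega

lemma dbl_sub (T : Finset R) : dbl T ⊆ T.image Prod.fst := by
  intro j hj
  simp only [dbl, mem_filter] at hj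
  exact mem_image.2 ⟨_, hj.2.1, rfl⟩

lemma dbl_mono {T T' : Finset R} (h : T ⊆ T') : dbl T ⊆ dbl T' := by
  intro j hj
  simp only [dbl, mem_filter] at hj ⊢
  exact ⟨hj.1, h hj.2.1, h hj.2.2⟩

lemma dbl_erase {T : Finset R} {t : R} : dbl (T.erase t) ⊆ (dbl T).erase t.1 := by
  intro j hj
  refine mem_erase.2 ⟨?_, dbl_mono (erase_subset _ _) hj⟩
  rintro rfl
  simp [mem_dbl] at hj

lemma dbl_insert {T : Finset R} {t : R} : dbl (insert t T) ⊆ insert t.1 (dbl T) := by
  intro j hj
  by_cases h : j = t.1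
  · simp [h]
  · simp only [dbl, mem_filter, mem_insert, mem_univ, true_and] at hj ⊢
    right
    rcases hj with ⟨h1 | h1, h2 | h2⟩
    · exact absurd (congrArg Prod.fst h1) h
    · exact absurd (congrArg Prod.fst h1) h
    · exact absurd (congrArg Prod.fst h2) h
    · exact ⟨h1, h2⟩

variable {H : R → Finset I}

def PM (H : R → Finset I) (T : Finset R) (S : Finset I) : Prop :=
  #T = #S ∧ ∃ f : R → I, Set.InjOn f T ∧ ∀ t ∈ T, f t ∈ S ∧ f t ∈ H t

lemma hall (G : Good H) {T : Finset R} {S : Finset I} (hc : #T = #S)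
    (h1 : ∀ t ∈ T, ∃ x ∈ S, x ∈ H t) (h2 : 18 ≤ #S) (h3 : 8 ≤ #(dbl T)) : PM H T S := by
  refine ⟨hc, ?_⟩
  have key : ∀ U ⊆ T, #U ≤ #(U.biUnion (fun t => S ∩ H t)) := by
    intro U hU
    set N := U.biUnion (fun t => S ∩ H t) with hN
    have hNS : N ⊆ S := biUnion_subset.2 fun _ _ => inter_subset_left
    have hout : ∀ t ∈ U, S \ N ⊆ H (fl t) := by
      intro t ht x hx
      rw [mem_sdiff] at hx
      exact (G.hc t x).2 fun h => hx.2 (mem_biUnion.2 ⟨t, ht, mem_inter.2 ⟨hx.1, h⟩⟩)
    have hsd := card_sdiff_add_card_eq_card hNS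
    by_cases hd : ∃ s ∈ U, fl s ∈ U
    · obtain ⟨s, hs, hs'⟩ := hd
      have : S \ N = ∅ := by
        refine eq_empty_of_forall_notMem fun x hx => ?_
        have a := hout s hs hx
        have b := hout _ hs' hx
        rw [fl_fl] at b
        exact (G.hc s x).1 a b
      rw [this] at hsd
      have := card_le_card hU
      simp at hsd; omega
    push Not at hd
    have inj : ∀ s ∈ U, ∀ t ∈ U, s ≠ t → (fl s).1 ≠ (fl t).1 := by
      intro s hs t ht hne e
      rcases eq_or_fl (show s.1 = t.1 from e) with h | h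
      · exact hne h.symm
      · exact hd s hs (h ▸ ht)
    by_cases c3 : 2 < #U
    · obtain ⟨a, b, c, ha, hb, hc', hab, hac, hbc⟩ := two_lt_card_iff.1 c3
      have e1 := G.h3 _ _ _ (inj a ha b hb hab) (inj a ha c hc' hac) (inj b hb c hc' hbc)
      have e2 : #(S \ N) ≤ #(H (fl a) ∩ H (fl b) ∩ H (fl c)) :=
        card_le_card (subset_inter (subset_inter (hout a ha) (hout b hb)) (hout c hc'))
      have e3 : #U = #(U.image Prod.fst) := by
        refine (card_image_of_injOn fun s hs t ht e => ?_).symm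
        by_contra hne
        exact inj s hs t ht hne e
      have e4 : #(U.image Prod.fst) ≤ #(T.image Prod.fst) := card_le_card (image_subset_image hU)
      have := card_eq T
      omega
    by_cases c2 : 1 < #U
    · obtain ⟨a, ha, b, hb, hab⟩ := one_lt_card.1 c2
      have e1 := G.h2 _ _ (inj a ha b hb hab)
      have e2 : #(S \ N) ≤ #(H (fl a) ∩ H (fl b)) :=
        card_le_card (subset_inter (hout a ha) (hout b hb))
      omega
    by_cases c1 : 0 < #U
    · obtain ⟨a, ha⟩ := card_pos.1 c1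
      obtain ⟨x, hx, hx'⟩ := h1 a (hU ha)
      have : 0 < #N := card_pos.2 ⟨x, mem_biUnion.2 ⟨a, ha, mem_inter.2 ⟨hx, hx'⟩⟩⟩
      omega
    omega
  obtain ⟨f, f1, f2⟩ := (all_card_le_biUnion_card_iff_exists_injective
    (fun t : T => S ∩ H t.1)).1 (fun U => by
      have := key (U.map (Function.Embedding.subtype _)) (fun x hx => by
        obtain ⟨a, -, rfl⟩ := mem_map.1 hx; exact a.2)
      rw [card_map] at this
      refine this.trans (card_le_card fun x hx => ?_)
      obtain ⟨t, ht, hx⟩ := mem_biUnion.1 hx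
      obtain ⟨a, ha, rfl⟩ := mem_map.1 ht
      exact mem_biUnion.2 ⟨a, ha, hx⟩)
  refine ⟨fun t => if h : t ∈ T then f ⟨t, h⟩ else 0, fun s hs t ht e => ?_, fun t ht => ?_⟩
  · have hs : s ∈ T := hs
    have ht : t ∈ T := ht
    simp only [hs, ht, dif_pos] at e
    exact congrArg Subtype.val (f1 e)
  · simpa [ht] using f2 ⟨t, ht⟩

lemma PM.add {T : Finset R} {S : Finset I} (h : PM H T S) {s : R} {u : I} (hs : s ∉ T)
    (hu : u ∉ S) (hus : u ∈ H s) : PM H (insert s T) (insert u S) := by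
  obtain ⟨hc, f, f1, f2⟩ := h
  refine ⟨by rw [card_insert_of_notMem hs, card_insert_of_notMem hu, hc],
    Function.update f s u, ?_, ?_⟩
  · intro a ha b hb e
    have ha := mem_insert.1 ha
    have hb := mem_insert.1 hb
    by_cases h1 : a = s <;> by_cases h2 : b = s
    · rw [h1, h2]
    · rw [h1, Function.update_self, Function.update_of_ne h2] at e
      exact absurd (e ▸ (f2 b (hb.resolve_left h2)).1) hu
    · rw [h2, Function.update_self, Function.update_of_ne h1] at e
      exact absurd (e ▸ (f2 a (ha.resolve_left h1)).1) hu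
    · rw [Function.update_of_ne h1, Function.update_of_ne h2] at e
      exact f1 (ha.resolve_left h1) (hb.resolve_left h2) e
  · intro t ht
    by_cases h1 : t = s
    · subst h1; simp [hus]
    · rw [Function.update_of_ne h1]
      have := f2 t ((mem_insert.1 ht).resolve_left h1)
      exact ⟨mem_insert_of_mem this.1, this.2⟩

lemma PM.rem {T : Finset R} {S : Finset I} (h : PM H T S) {w : I} (hw : w ∈ S) :
    ∃ t ∈ T, w ∈ H t ∧ PM H (T.erase t) (S.erase w) := by
  obtain ⟨hc, f, f1, f2⟩ := h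
  obtain ⟨t, ht, rfl⟩ := surjOn_of_injOn_of_card_le f (fun t ht => (f2 t ht).1) f1 hc.ge hw
  have ht : t ∈ T := ht
  refine ⟨t, ht, (f2 t ht).2, by rw [card_erase_of_mem ht, card_erase_of_mem hw, hc], f,
    f1.mono (by simp), fun a ha => ?_⟩
  obtain ⟨h1, h2⟩ := mem_erase.1 ha
  exact ⟨mem_erase.2 ⟨fun e => h1 (f1 h2 ht e), (f2 a h2).1⟩, (f2 a h2).2⟩

lemma PM.nbr {T : Finset R} {S : Finset I} (h : PM H T S) : ∀ t ∈ T, ∃ x ∈ S, x ∈ H t := by
  obtain ⟨-, f, -, f2⟩ := h
  exact fun t ht => ⟨f t, f2 t ht⟩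

lemma two_unc (G : Good H) {S : Finset I} (hS : #S ≤ 42) {s t : R} (h : s ≠ t) :
    5 ≤ #(H s \ S) + #(H t \ S) := by
  have e1 : H s ∪ H t ⊆ (H s \ S ∪ H t \ S) ∪ S := by
    intro x hx
    by_cases hxS : x ∈ S
    · simp [hxS]
    · simpa [hxS] using hx
  have e2 := (card_le_card e1).trans (card_union_le _ _)
  have e3 := card_union_le (H s \ S) (H t \ S)
  have e4 : #(H s ∪ H t) + #(H (fl s) ∩ H (fl t)) = 63 := by
    have : H (fl s) ∩ H (fl t) = (H s ∪ H t)ᶜ := by ext x; simp [G.hc]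
    rw [this, card_add_card_compl]; rfl
  by_cases e : s.1 = t.1
  · rcases eq_or_fl e with h' | h'
    · exact absurd h'.symm h
    · have : H (fl s) ∩ H (fl t) = ∅ := by
        subst h'; ext x; simp [G.hc]
      rw [this] at e4; simp at e4; omega
  · have := G.h2 (fl s) (fl t) e
    omega

lemma pick (G : Good H) {S : Finset I} (hS : #S ≤ 42) {s : R} (hs : 1 ≤ #(H s \ S)) :
    ∃ u, u ∉ S ∧ u ∈ H s ∧ ∀ t, t ≠ s → ∀ c ≤ 2, c ≤ #(H t \ S) → c ≤ #(H t \ insert u S) := by
  have step : ∀ u t, (u ∈ H t → 3 ≤ #(H t \ S)) → ∀ c ≤ 2, c ≤ #(H t \ S) →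
      c ≤ #(H t \ insert u S) := by
    intro u t h c hc hc'
    rw [sdiff_insert]
    by_cases hu : u ∈ H t
    · have := h hu
      have := pred_card_le_card_erase (s := H t \ S) (a := u)
      omega
    · rwa [erase_eq_of_notMem (by simp [hu])]
  by_cases hex : ∃ t, t ≠ s ∧ #(H t \ S) ≤ 2
  · obtain ⟨t, hts, ht⟩ := hex
    have h3 := two_unc G hS hts
    obtain ⟨u, hu, hu'⟩ := exists_mem_notMem_of_card_lt_card
      (show #(H t \ S) < #(H s \ S) by omega)
    rw [mem_sdiff] at hu hu'
    refine ⟨u, hu.2, hu.1, fun t' _ => step u t' fun h => ?_⟩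
    by_cases e : t' = t
    · exact absurd ⟨e ▸ h, hu.2⟩ hu'
    · have := two_unc G hS e
      omega
  · push Not at hex
    obtain ⟨u, hu⟩ := card_pos.1 hs
    rw [mem_sdiff] at hu
    exact ⟨u, hu.2, hu.1, fun t' ht' => step u t' fun _ => hex t' ht'⟩

def NR (H : R → Finset I) (T : Finset R) (S : Finset I) (s : R) : Prop :=
  2 ≤ #(S ∩ H s) ∧ 1 ≤ #(H s \ S) ∧ (s ∉ T → fl s ∉ T → 2 ≤ #(H s \ S))

def Inv (H : R → Finset I) (T : Finset R) (S : Finset I) : Prop :=
  PM H T S ∧ (∀ s, s ∉ T → 1 ≤ #(H s \ S)) ∧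
    (#(dbl T) ≤ 9 ∨ (#(dbl T) ≤ 10 ∧ ∀ s : R, s.1 ∉ dbl T → NR H T S s))

lemma Inv.size {T : Finset R} {S : Finset I} (h : Inv H T S) : #S ≤ 42 := by
  have h1 := card_eq T
  have h2 : #(T.image Prod.fst) ≤ 32 := (card_le_univ _).trans (by simp)
  have h3 := h.1.1
  rcases h.2.2 with h4 | h4 <;> omega

lemma uniq (G : Good H) {S : Finset I} (h1 : 19 ≤ #S) (h2 : #S ≤ 42) {s t : R} (e : s.1 ≠ t.1)
    (hs : #(S ∩ H s) ≤ 1 ∨ #(H s \ S) ≤ 1) : 2 ≤ #(S ∩ H t) ∧ 2 ≤ #(H t \ S) := by
  have th : ∀ s t : R, s.1 ≠ t.1 → #(S ∩ H s) ≤ 1 → 2 ≤ #(H t \ S) := by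
    intro s t e h
    have e1 : H t ⊆ (H t \ S ∪ S ∩ H s) ∪ (H (fl s) ∩ H t) := by
      intro x hx
      by_cases a : x ∈ S <;> by_cases b : x ∈ H s <;> simp [hx, a, b, G.hc]
    have e2 := (card_le_card e1).trans (card_union_le _ _)
    have e3 := card_union_le (H t \ S) (S ∩ H s)
    have e4 := G.h2 (fl s) t e
    have := G.h1 t
    omega
  rcases hs with hs | hs
  · refine ⟨?_, th s t e hs⟩
    have e1 : S ⊆ (S ∩ H s ∪ S ∩ H t) ∪ (H (fl s) ∩ H (fl t)) := by
      intro x hx
      by_cases a : x ∈ H t <;> by_cases b : x ∈ H s <;> simp [hx, a, b, G.hc]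
    have e2 := (card_le_card e1).trans (card_union_le _ _)
    have e3 := card_union_le (S ∩ H s) (S ∩ H t)
    have e4 := G.h2 (fl s) (fl t) e
    omega
  · constructor
    · by_contra h
      have := th t s e.symm (by omega)
      omega
    · have := two_unc G h2 (show s ≠ t from fun h => e (h ▸ rfl))
      omega

lemma unc_erase {T : Finset R} {S : Finset I} (h : ∀ s, s ∉ T → 1 ≤ #(H s \ S)) {t : R} {w : I}
    (hw : w ∈ H t) : ∀ s, s ∉ T.erase t → 1 ≤ #(H s \ S.erase w) := by
  intro s hs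
  by_cases e : s = t
  · exact card_pos.2 ⟨w, by simp [e, hw]⟩
  · exact (h s fun h' => hs (mem_erase.2 ⟨e, h'⟩)).trans
      (card_le_card (sdiff_subset_sdiff (Subset.refl _) (erase_subset _ _)))

lemma stepA (G : Good H) {T : Finset R} {S : Finset I} (h : Inv H T S) {w : I} (hw : w ∈ S) :
    ∃ t ∈ T, w ∈ H t ∧ Inv H (T.erase t) (S.erase w) := by
  obtain ⟨t, ht, hwt, pm⟩ := h.1.rem hw
  have sub : ∀ t : R, #(dbl (T.erase t)) ≤ #(dbl T) := fun t =>
    card_le_card (dbl_mono (erase_subset _ _))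
  have dec : ∀ t : R, t.1 ∈ dbl T → #(dbl (T.erase t)) + 1 ≤ #(dbl T) := fun t ht => by
    have := card_le_card (dbl_erase (T := T) (t := t))
    have := card_erase_add_one ht
    omega
  by_cases h9 : #(dbl T) ≤ 9
  · exact ⟨t, ht, hwt, pm, unc_erase h.2.1 hwt, Or.inl ((sub t).trans h9)⟩
  obtain ⟨h10, nr⟩ := h.2.2.resolve_left h9
  by_cases htd : t.1 ∈ dbl T
  · exact ⟨t, ht, hwt, pm, unc_erase h.2.1 hwt, Or.inl (by have := dec t htd; omega)⟩
  obtain ⟨j, hj⟩ := card_pos.1 (show 0 < #(dbl T) by omega)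
  obtain ⟨y, hy, hwy⟩ : ∃ y : R, y.1 = j ∧ w ∈ H y := by
    by_cases a : w ∈ H (j, true)
    · exact ⟨_, rfl, a⟩
    · exact ⟨fl (j, true), rfl, (G.hc _ _).2 a⟩
  subst hy
  have hyT := (mem_dbl.1 hj).1
  refine ⟨y, hyT, hwy, ?_, unc_erase h.2.1 hwy, Or.inl (by have := dec y hj; omega)⟩
  have c1 := card_eq T
  have c2 := card_le_card (dbl_sub T)
  have c3 := h.1.1
  have c4 := card_erase_add_one hw
  refine hall G (by rw [card_erase_of_mem hyT, card_erase_of_mem hw, c3]) (fun a ha => ?_)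
    (by omega) ?_
  · by_cases e : a = t
    · subst e
      obtain ⟨x, hx, hx'⟩ := exists_mem_notMem_of_card_lt_card
        (show #({w} : Finset I) < #(S ∩ H a) by have := (nr a htd).1; simp; omega)
      rw [mem_inter] at hx
      exact ⟨x, mem_erase.2 ⟨by simpa using hx', hx.1⟩, hx.2⟩
    · exact pm.nbr a (mem_erase.2 ⟨e, (mem_erase.1 ha).2⟩)
  · have e1 := card_le_card (dbl_insert (T := T.erase y) (t := y))
    rw [insert_erase hyT] at e1
    have := card_insert_le y.1 (dbl (T.erase y))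
    omega

lemma stepB (G : Good H) {T : Finset R} {S : Finset I} (h : Inv H T S) {s : R} (hs : s ∉ T) :
    (∃ u, u ∉ S ∧ u ∈ H s ∧ Inv H (insert s T) (insert u S)) ∨
      (fl s ∈ T ∧ Inv H (insert s (T.erase (fl s))) S) := by
  obtain ⟨u, hu, hus, pk⟩ := pick G h.size (h.2.1 s hs)
  have pm := h.1.add hs hu hus
  have i2 : ∀ t, t ∉ insert s T → 1 ≤ #(H t \ insert u S) := fun t ht => by
    rw [mem_insert, not_or] at ht
    exact pk t ht.1 1 (by omega) (h.2.1 t ht.2)
  have grow : ∀ t, #(S ∩ H t) ≤ #(insert u S ∩ H t) := fun t =>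
    card_le_card (inter_subset_inter (subset_insert _ _) (Subset.refl _))
  have di := card_le_card (dbl_insert (T := T) (t := s))
  have di' := card_insert_le s.1 (dbl T)
  by_cases hf : fl s ∈ T
  · by_cases h8 : #(dbl T) ≤ 8
    · exact Or.inl ⟨u, hu, hus, pm, i2, Or.inl (by omega)⟩
    have hsd : s.1 ∉ dbl T := fun a => hs (mem_dbl.1 a).1
    have c1 := card_eq T
    have c2 : #(insert s.1 (dbl T)) ≤ #(T.image Prod.fst) :=
      card_le_card (insert_subset (mem_image.2 ⟨_, hf, rfl⟩) (dbl_sub T))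
    rw [card_insert_of_notMem hsd] at c2
    have c3 := h.1.1
    by_cases ok : 1 ≤ #(S ∩ H s) ∧ 1 ≤ #(H (fl s) \ S)
    · right
      have ed : dbl (insert s (T.erase (fl s))) = dbl T := by
        ext j
        by_cases e : j = s.1
        · subst e
          simp [mem_dbl, hs, fl_ne]
        · have a : ∀ b, (j, b) ≠ s := fun b h => e (h ▸ rfl)
          have a' : ∀ b, (j, b) ≠ fl s := fun b h => e (congrArg Prod.fst h)
          simp [dbl, a, a']
      refine ⟨hf, hall G ?_ (fun a ha => ?_) (by omega) (by rw [ed]; omega), fun t ht => ?_, ?_⟩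
      · rw [card_insert_of_notMem (fun a => hs (mem_erase.1 a).2), card_erase_add_one hf, c3]
      · rcases mem_insert.1 ha with rfl | ha
        · obtain ⟨x, hx⟩ := card_pos.1 ok.1
          exact ⟨x, mem_inter.1 hx⟩
        · exact h.1.nbr a (mem_erase.1 ha).2
      · by_cases e : t = fl s
        · exact e ▸ ok.2
        · exact h.2.1 t fun a => ht (mem_insert_of_mem (mem_erase.2 ⟨e, a⟩))
      · rw [ed]
        refine h.2.2.imp id fun a => ⟨a.1, fun t ht => ⟨(a.2 t ht).1, (a.2 t ht).2.1, ?_⟩⟩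
        intro b1 b2
        have e1 : t ≠ fl s := fun e => b2 (by simp [e])
        have e2 : fl t ≠ fl s := fun e => b1 (by
          have := congrArg fl e; simp only [fl_fl] at this; simp [this])
        exact (a.2 t ht).2.2 (fun c => b1 (mem_insert_of_mem (mem_erase.2 ⟨e1, c⟩)))
          (fun c => b2 (mem_insert_of_mem (mem_erase.2 ⟨e2, c⟩)))
    · have h9 : #(dbl T) ≤ 9 := by
        rcases h.2.2 with a | a
        · exact a
        · exact absurd ⟨by have := (a.2 s hsd).1; omega, (a.2 (fl s) hsd).2.1⟩ ok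
      refine Or.inl ⟨u, hu, hus, pm, i2, Or.inr ⟨by omega, fun t ht => ?_⟩⟩
      have e : s.1 ≠ t.1 := fun e => ht (e ▸ mem_dbl.2 ⟨by simp, mem_insert_of_mem hf⟩)
      have q : 2 ≤ #(S ∩ H t) ∧ 2 ≤ #(H t \ S) := by
        by_cases a : 1 ≤ #(S ∩ H s)
        · exact uniq G (by omega) h.size (s := fl s) e (Or.inr (by
            have : ¬ 1 ≤ #(H (fl s) \ S) := fun b => ok ⟨a, b⟩
            omega))
        · exact uniq G (by omega) h.size e (Or.inl (by omega))
      have q2 := pk t (fun a => e (a ▸ rfl)) 2 le_rfl q.2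
      exact ⟨q.1.trans (grow t), by omega, fun _ _ => q2⟩
  · have ed : dbl (insert s T) = dbl T := by
      refine Subset.antisymm (fun j hj => ?_) (dbl_mono (subset_insert _ _))
      rcases mem_insert.1 (dbl_insert hj) with e | e
      · subst e
        have := (mem_dbl.1 hj).2
        simp [fl_ne, hf] at this
      · exact e
    refine Or.inl ⟨u, hu, hus, pm, i2, ?_⟩
    rw [ed]
    refine h.2.2.imp id fun a => ⟨a.1, fun t ht => ⟨(a.2 t ht).1.trans (grow t), ?_, ?_⟩⟩
    · by_cases e : t = s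
      · subst e
        have := (a.2 t ht).2.2 hs hf
        rw [sdiff_insert]
        have := pred_card_le_card_erase (s := H t \ S) (a := u)
        omega
      · exact pk t e 1 (by omega) (a.2 t ht).2.1
    · intro b1 b2
      rw [mem_insert, not_or] at b1 b2
      exact pk t b1.1 2 le_rfl ((a.2 t ht).2.2 b1.2 b2.2)

def mT : List ℕ := [9223372034707292160, 3074457346334086485, 1844674408659445350, 5534023221683368755,
  542551298180413560, 5968064258509712685, 7053166850575572510, 3797859074377993035,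
  35888609278066560, 6136951821477161685, 7357164463916980710, 3696526536597523635,
  8649154320617965560, 3265863251030528685, 2189205037113041310, 5419179678865503435,
  140737488322560, 6148867778740409685, 7378613186990827110, 3689376962239574835,
  8680696560432445560, 3255349171092368685, 2170279693224353310, 5425488126828399435,
  9187343787452530560, 3086466762085673685, 1866291357012302310, 5526817572232416435,
  574340928111085560, 5957467715199488685, 7034093072617169310, 3804217000364127435]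

def mF : List ℕ := [2147483647, 6148914690520689322, 7378697628195330457, 3689348815171407052,
  8680820738674362247, 3255307778345063122, 2170205186279203297, 5425512962476782772,
  9187483427576709247, 3086420215377614122, 1866207572937795097, 5526845500257252172,
  574217716236810247, 5957508785824247122, 7034166999741734497, 3804192357989272372,
  9223231299366453247, 3074504258114366122, 1844758849863948697, 5533995074615200972,
  542675476422330247, 5968022865762407122, 7053092343630422497, 3797883910026376372,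
  36028249402245247, 6136905274769102122, 7357080679842473497, 3696554464622359372,
  8649031108743690247, 3265904321655287122, 2189278964237606497, 5419155036490648372]

def M (j : ℕ) (b : Bool) : ℕ := (if b then mT else mF).getD j 0

def pc : ℕ → ℕ → ℕ
  | 0, _ => 0
  | n + 1, m => pc n (m / 2) + m % 2

lemma card_pc (n m : ℕ) : #(univ.filter (fun x : Fin n => m.testBit x = true)) = pc n m := by
  induction n generalizing m with
  | zero => simp [pc]
  | succ n ih =>
    rw [card_filter, Fin.sum_univ_succ, pc, ← ih, card_filter]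
    simp only [Fin.val_succ, Nat.testBit_succ, Fin.val_zero, Nat.testBit_zero, decide_eq_true_eq]
    rcases Nat.mod_two_eq_zero_or_one m with h | h <;> simp [h, add_comm]

def TB : ℕ := 95125173855764218123276304889944061997689682402263585766959741291920687686033329201817409157123347502415384089435969498586180241031507595463600295898153685276653211633572815512294064538494957912327413386667662218713394765509704508661031522276467630197481635010039778342554499416459730172574551513689147646224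

def p8 (m : ℕ) : ℕ := (TB >>> (4 * (m % 256))) % 16

lemma p8_chk : (List.range 256).all (fun i => p8 i == pc 8 i) = true := by decide +kernel

lemma pc_add (a b m : ℕ) : pc (b + a) m = pc b (m / 2 ^ a) + pc a m := by
  induction a generalizing m with
  | zero => simp [pc]
  | succ a ih => rw [← add_assoc, pc, ih, pc, Nat.div_div_eq_div_mul, pow_succ', add_assoc]

lemma pc_mod (a m : ℕ) : pc a (m % 2 ^ a) = pc a m := by
  induction a generalizing m with
  | zero => simp [pc]
  | succ a ih =>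
    rw [pc, pc, pow_succ', Nat.mod_mul_right_div_self, ih, Nat.mod_mul_right_mod]

lemma p8_eq (m : ℕ) : p8 m = pc 8 m := by
  have := p8_chk
  simp only [List.all_eq_true, List.mem_range, beq_iff_eq] at this
  rw [← pc_mod, ← this (m % 2 ^ 8) (Nat.mod_lt _ (by norm_num))]
  simp [p8]

def q16 (m : ℕ) : ℕ := p8 (m / 256) + p8 m
def q32 (m : ℕ) : ℕ := q16 (m / 65536) + q16 m
def q64 (m : ℕ) : ℕ := q32 (m / 4294967296) + q32 m

lemma q64_eq (m : ℕ) : pc 63 m ≤ q64 m := by
  have a : ∀ m, q16 m = pc 16 m := fun m => by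
    rw [q16, p8_eq, p8_eq]; exact (pc_add 8 8 m).symm
  have b : ∀ m, q32 m = pc 32 m := fun m => by rw [q32, a, a]; exact (pc_add 16 16 m).symm
  have c : q64 m = pc 64 m := by rw [q64, b, b]; exact (pc_add 32 32 m).symm
  rw [c, show 64 = 1 + 63 from rfl, pc_add]
  omega

def H0 (s : R) : Finset I := univ.filter (fun x => (M s.1 s.2).testBit x = true)

def bb : List Bool := [true, false]

def chk1 : Bool := (List.range 32).all fun j => (List.range 63).all fun x =>
  (M j true).testBit x != (M j false).testBit x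

def chk2 : Bool := (List.range 32).all fun j => bb.all fun b => decide (31 ≤ pc 63 (M j b)) &&
  (List.range j).all fun i => bb.all fun a => Nat.ble (q64 (M i a &&& M j b)) 16

def chk3 : Bool := (List.range 32).all fun l => (List.range l).all fun j =>
  bb.all fun c => bb.all fun b => (fun m => (List.range j).all fun i => bb.all fun a =>
    Nat.ble (q64 (M i a &&& m)) 8) (M j b &&& M l c)

lemma chk1_true : chk1 = true := by decide +kernel
lemma chk2_true : chk2 = true := by decide +kernel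
lemma chk3_true : chk3 = true := by decide +kernel

lemma mem_bb (b : Bool) : b ∈ bb := by cases b <;> simp [bb]

lemma good : Good H0 := by
  have k1 := chk1_true
  have k2 := chk2_true
  have k3 := chk3_true
  simp only [chk1, chk2, chk3, List.all_eq_true, List.mem_range, Bool.and_eq_true,
    decide_eq_true_eq, Nat.ble_eq] at k1 k2 k3
  have p2 : ∀ s t : R, s.1 < t.1 → #(H0 s ∩ H0 t) ≤ 16 := by
    intro s t h
    have := (q64_eq _).trans ((k2 t.1 t.1.2 t.2 (mem_bb _)).2 s.1 h s.2 (mem_bb _))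
    rw [← card_pc] at this
    refine le_trans (le_of_eq (congrArg card ?_)) this
    ext x; simp [H0]
  have p3 : ∀ s t u : R, s.1 < t.1 → t.1 < u.1 → #(H0 s ∩ H0 t ∩ H0 u) ≤ 8 := by
    intro s t u h h'
    have := (q64_eq _).trans
      (k3 u.1 u.1.2 t.1 h' u.2 (mem_bb _) t.2 (mem_bb _) s.1 h s.2 (mem_bb _))
    rw [← card_pc] at this
    refine le_trans (le_of_eq (congrArg card ?_)) this
    ext x; simp [H0]
  have p3' : ∀ s t u : R, s.1 < t.1 → s.1 ≠ u.1 → t.1 ≠ u.1 → #(H0 s ∩ H0 t ∩ H0 u) ≤ 8 := by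
    intro s t u h h1 h2
    rcases lt_or_gt_of_ne h2 with a | a
    · exact p3 s t u h a
    rcases lt_or_gt_of_ne h1 with b | b
    · rw [inter_right_comm]; exact p3 s u t b a
    · rw [inter_comm, ← inter_assoc]; exact p3 u s t b h
  refine ⟨?_, fun s => ?_, fun s t h => ?_, fun s t u h h1 h2 => ?_⟩
  · rintro ⟨j, b⟩ x
    have := k1 j j.2 x x.2
    cases b <;> simp only [H0, fl, mem_filter, mem_univ, true_and, Bool.not_false,
      Bool.not_true] <;> revert this <;> cases (M j true).testBit x <;>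
      cases (M j false).testBit x <;> simp
  · have := (k2 s.1 s.1.2 s.2 (mem_bb _)).1
    rwa [← card_pc] at this
  · rcases lt_or_gt_of_ne h with a | a
    · exact p2 s t a
    · rw [inter_comm]; exact p2 t s a
  · rcases lt_or_gt_of_ne h with a | a
    · exact p3' s t u a h1 h2
    · rw [inter_comm (H0 s)]; exact p3' t s u a h2 h1

def Gr (H : R → Finset I) : SimpleGraph (I ⊕ R) where
  Adj a b := match a, b with
    | .inl _, .inl _ => False
    | .inl x, .inr s => x ∈ H s
    | .inr s, .inl x => x ∈ H s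
    | .inr s, .inr t => t = fl s
  symm := ⟨by
    rintro (x | s) (y | t) h
    · exact h
    · exact h
    · exact h
    · have h : t = fl s := h
      show s = fl t
      simp [h]⟩
  loopless := ⟨by
    rintro (x | s) h
    · exact h
    · exact fl_ne s (Eq.symm h)⟩

lemma tri (G : Good H) {a b c : I ⊕ R} (h1 : (Gr H).Adj a b) (h2 : (Gr H).Adj a c)
    (h3 : (Gr H).Adj b c) : False := by
  rcases a with x | s <;> rcases b with y | t <;> rcases c with z | u <;>
    simp only [Gr] at h1 h2 h3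
  · subst h3; exact (G.hc _ _).1 h2 h1
  · subst h2; exact (G.hc _ _).1 h3 h1
  · subst h1; exact (G.hc _ _).1 h3 h2
  · subst h1 h2; exact fl_ne _ h3.symm

lemma ind_le {V : Type} [DecidableEq V] (G : SimpleGraph V) {k : ℕ} {F : Set (Finset V)}
    (hF : F.Nonempty) (h : ∀ D ∈ F, D.card = k ∧
      ∀ v : V, ∃ u ∈ D, (u = v ∨ G.Adj u v) ∧ insert v (D.erase u) ∈ F)
    (J : Finset V) (hJ : G.IsIndepSet J) : #J ≤ k := by
  have key : ∀ K : Finset V, K ⊆ J → ∃ D ∈ F, K ⊆ D := by
    intro K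
    induction K using Finset.induction_on with
    | empty => exact fun _ => ⟨_, hF.some_mem, empty_subset _⟩
    | insert v K hv ih =>
      intro hK
      obtain ⟨D, hD, hKD⟩ := ih ((subset_insert _ _).trans hK)
      obtain ⟨u, -, hu, hF'⟩ := (h D hD).2 v
      refine ⟨_, hF', insert_subset_insert _ fun x hx => mem_erase.2 ⟨?_, hKD hx⟩⟩
      rintro rfl
      rcases hu with hu | hu
      · exact hv (hu ▸ hx)
      · exact hJ (hK (mem_insert_of_mem hx)) (hK (mem_insert_self _ _)) hu.ne hu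
  obtain ⟨D, hD, hJD⟩ := key J (Subset.refl _)
  exact (card_le_card hJD).trans (h D hD).1.le

def Fam (H : R → Finset I) : Set (Finset (I ⊕ R)) := {D | ∃ T S, Inv H T S ∧ D = Sᶜ.disjSum T}

lemma fam (G : Good H) : (Fam H).Nonempty ∧ ∀ D ∈ Fam H, D.card = 63 ∧
      ∀ v, ∃ u ∈ D, (u = v ∨ (Gr H).Adj u v) ∧ insert v (D.erase u) ∈ Fam H := by
  constructor
  · refine ⟨_, ∅, ∅, ⟨⟨rfl, fun _ => 0, by simp, by simp⟩, fun s _ => ?_, Or.inl ?_⟩, rfl⟩
    · have := G.h1 s; rw [sdiff_empty]; omega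
    · simp [dbl]
  rintro D ⟨T, S, h, rfl⟩
  constructor
  · have := card_add_card_compl S
    rw [card_disjSum, h.1.1]
    simp only [Fintype.card_fin] at this
    omega
  intro v
  by_cases hv : v ∈ Sᶜ.disjSum T
  · exact ⟨v, hv, Or.inl rfl, by rw [insert_erase hv]; exact ⟨T, S, h, rfl⟩⟩
  rcases v with w | s
  · have hw : w ∈ S := by simpa using hv
    obtain ⟨t, ht, hwt, hi⟩ := stepA G h hw
    refine ⟨.inr t, by simpa using ht, Or.inr hwt, _, _, hi, ?_⟩
    ext (x | r) <;> simp
  · have hs : s ∉ T := by simpa using hv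
    rcases stepB G h hs with ⟨u, hu, hus, hi⟩ | ⟨hf, hi⟩
    · refine ⟨.inl u, by simpa using hu, Or.inr hus, _, _, hi, ?_⟩
      ext (x | r) <;> simp
    · refine ⟨.inr (fl s), by simpa using hf, Or.inr (fl_fl s).symm, _, _, hi, ?_⟩
      ext (x | r) <;> simp

lemma alpha (G : Good H) : (Gr H).indepNum = 63 := by
  apply le_antisymm
  · obtain ⟨s, hs⟩ := (Gr H).exists_isNIndepSet_indepNum
    rw [← hs.card_eq]
    exact ind_le _ (fam G).1 (fam G).2 s hs.isIndepSet
  · have : (Gr H).IsIndepSet ((univ : Finset I).map Function.Embedding.inl : Finset (I ⊕ R)) := by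
      intro a ha b hb _ h
      simp only [coe_map, Set.mem_image] at ha hb
      obtain ⟨x, -, rfl⟩ := ha
      obtain ⟨y, -, rfl⟩ := hb
      exact h
    simpa using this.card_le_indepNum

lemma chi (G : Good H) : ((63 : ℕ) : ℕ∞) < (Gr H)ᶜ.chromaticNumber := by
  by_contra h
  rw [not_lt, SimpleGraph.chromaticNumber_le_iff_colorable] at h
  obtain ⟨c⟩ := h
  obtain ⟨y, -, hy⟩ := exists_lt_card_fiber_of_mul_lt_card_of_maps_to (f := c) (n := 2)
    (s := (univ : Finset (I ⊕ R))) (t := univ) (fun _ _ => mem_univ _) (by simp)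
  obtain ⟨a, b, d, ha, hb, hd, hab, had, hbd⟩ := two_lt_card_iff.1 hy
  have adj : ∀ a b, a ≠ b → c a = y → c b = y → (Gr H).Adj a b := by
    intro a b hab ha hb
    by_contra hn
    exact c.valid ((SimpleGraph.compl_adj _ _ _).2 ⟨hab, hn⟩) (ha.trans hb.symm)
  simp only [mem_filter, mem_univ, true_and] at ha hb hd
  exact tri G (adj a b hab ha hb) (adj a d had ha hd) (adj b d hbd hb hd)

theorem main : (Gr H0).CliqueFree 3 ∧
    (∃ F : Set (Finset (I ⊕ R)), F.Nonempty ∧ ∀ D ∈ F, D.card = (Gr H0).indepNum ∧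
        ∀ v, ∃ u ∈ D, (u = v ∨ (Gr H0).Adj u v) ∧ insert v (D.erase u) ∈ F) ∧
    (∀ k : ℕ, k < (Gr H0).indepNum → ¬ ∃ F : Set (Finset (I ⊕ R)), F.Nonempty ∧
        ∀ D ∈ F, D.card = k ∧
        ∀ v, ∃ u ∈ D, (u = v ∨ (Gr H0).Adj u v) ∧ insert v (D.erase u) ∈ F) ∧
    (((Gr H0).indepNum : ℕ∞) < (Gr H0)ᶜ.chromaticNumber) := by
  refine ⟨?_, ?_, ?_, ?_⟩
  · intro s hs
    obtain ⟨a, b, c, h1, h2, h3, -⟩ := SimpleGraph.is3Clique_iff.1 hs
    exact tri good h1 h2 h3
  · rw [alpha good]; exact ⟨_, fam good⟩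
  · rintro k hk ⟨F, hF, h⟩
    obtain ⟨s, hs⟩ := (Gr H0).exists_isNIndepSet_indepNum
    have := ind_le _ hF h s hs.isIndepSet
    rw [hs.card_eq] at this
    omega
  · rw [alpha good]; exact chi good

end Pool.Agent.H6.Eternal
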