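import Pool.Agent.H6.ExtSE

/-! Isometries fixing the origin: moment identities. -/

namespace Pool.Agent.H6.Ext

open Filter Complex

lemma cj_inj : Function.Injective cj := fun a b h => by rw [← cj_cj a, h, cj_cj]

lemma cj_ne {z : ℂ} (h : z ≠ 0) : cj z ≠ 0 := fun h' => h (by rw [← cj_cj z, h', map_zero])

lemma norm_cj (z : ℂ) : ‖cj z‖ = ‖z‖ := by simp [cj]

/-- the map `z ↦ l * conj z + b` as a permutation -/
noncomputable def refP (l b : ℂ) (hl : l ≠ 0) : Equiv.Perm ℂ :=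
  (Function.Involutive.toPerm cj cj_cj).trans (rotP l b hl)

@[simp] lemma refP_apply (l b : ℂ) (hl : l ≠ 0) (z : ℂ) : refP l b hl z = l * cj z + b := rfl

noncomputable def Dr (c : ℂ → ZMod 2) (α : ℂ) (h : Alm c (fun z => α * z)) : ℂ →₀ ℂ :=
  Finsupp.ofSupportFinite (fun z => val (c (α * z)) - val (c z)) (by
    refine (eventually_cofinite.mp h).subset fun z hz => ?_
    intro h'
    apply hz
    simp only at h' ⊢
    rw [h', sub_self])

lemma Dr_apply (c : ℂ → ZMod 2) (α : ℂ) (h : Alm c (fun z => α * z)) (z : ℂ) :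
    Dr c α h z = val (c (α * z)) - val (c z) := rfl

lemma I_smul (δ : ℂ →₀ ℂ) (p q : ℂ → ℂ) (e : ℂ) (h : ∀ z, p z = e * q z) :
    I p δ = e * I q δ := by
  rw [I_lin δ p q q q q q q e 0 0 0 0 0 (fun z => by rw [h]; ring)]; ring

lemma mom_rot (δ : ℂ →₀ ℂ) {l : ℂ} (hl : ‖l‖ = 1) (h1 : l ≠ 1) (h : ∀ z, δ (l * z) = δ z) :
    I (fun z => z) δ = 0 ∧ I cj δ = 0 := by
  have hl0 := ne_zero_of_norm hl
  have hll := mul_cj hl
  have h1' : cj l ≠ 1 := by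
    intro h; rw [h, mul_one] at hll; exact h1 hll
  have key : ∀ (p : ℂ → ℂ) (e : ℂ), e ≠ 1 → (∀ z, p (l * z) = e * p z) → I p δ = 0 := by
    intro p e he hp
    have := I_inv p δ (rotP l 0 hl0) 1 one_ne_zero (by simpa using h)
    simp only [rotP_apply, one_mul, add_zero] at this
    rw [I_smul δ (fun z => p (l * z)) p e hp] at this
    have h2 : (1 - e) * I p δ = 0 := by linear_combination this
    exact (mul_eq_zero.mp h2).resolve_left (sub_ne_zero.mpr (Ne.symm he))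
  exact ⟨key _ l h1 fun _ => rfl, key _ (cj l) h1' fun z => map_mul _ _ _⟩

lemma mom_ref (δ : ℂ →₀ ℂ) {l : ℂ} (hl : ‖l‖ = 1) (h : ∀ z, δ (l * cj z) = -δ z) :
    I (fun z => z) δ = -l * I cj δ ∧
    I (fun z => z ^ 2 * cj z) δ = -l * I (fun z => z * cj z ^ 2) δ ∧
    I (fun z => z ^ 2) δ = -l ^ 2 * I (fun z => cj z ^ 2) δ := by
  have hl0 := ne_zero_of_norm hl
  have hll := mul_cj hl
  have key : ∀ (p q : ℂ → ℂ) (e : ℂ), (∀ z, p (l * cj z) = e * q z) → I p δ = -e * I q δ := by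
    intro p q e hp
    have := I_inv p δ (refP l 0 hl0) (-1) (by norm_num) (by simpa using h)
    simp only [refP_apply, add_zero] at this
    rw [I_smul δ (fun z => p (l * cj z)) q e hp] at this
    rw [this]; ring
  refine ⟨key _ _ l fun _ => rfl, key _ _ l fun z => ?_, key _ _ (l ^ 2) fun z => by ring⟩
  simp only [map_mul, cj_cj]
  linear_combination (l * z * cj z ^ 2) * hll

/-- a non-trivial symmetry fixing the origin; `P` restricts the reflections -/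
def Sym0 (P : ℂ → Prop) (f : ℂ → ZMod 2) : Prop :=
  ∃ l : ℂ, ‖l‖ = 1 ∧ ((l ≠ 1 ∧ ∀ z, f (l * z) = f z) ∨ (P l ∧ ∀ z, f (l * cj z) = f z))

lemma mom_sym {P : ℂ → Prop} {f : ℂ → ZMod 2} {α : ℂ} (hα : ‖α‖ = 1)
    (h : Alm f (fun z => α * z)) (hs : Sym0 P f) :
    (I (fun z => z) (Dr f α h) = 0 ∧ I cj (Dr f α h) = 0) ∨ ∃ l, P l ∧
      I (fun z => z) (Dr f α h) = -(l * cj α) * I cj (Dr f α h) ∧
      I (fun z => z ^ 2 * cj z) (Dr f α h) = -(l * cj α) * I (fun z => z * cj z ^ 2) (Dr f α h) ∧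
      I (fun z => z ^ 2) (Dr f α h) = -(l * cj α) ^ 2 * I (fun z => cj z ^ 2) (Dr f α h) := by
  obtain ⟨l, hl, ⟨h1, h2⟩ | ⟨h1, h2⟩⟩ := hs
  · left
    exact mom_rot _ hl h1 fun z => by rw [Dr_apply, Dr_apply, mul_left_comm, h2, h2]
  · right
    refine ⟨l, h1, mom_ref _ (by simp [hl, norm_cj, hα]) fun z => ?_⟩
    have hαα := mul_cj hα
    rw [Dr_apply, Dr_apply, show α * (l * cj α * cj z) = l * cj z by
      linear_combination (l * cj z) * hαα, h2, mul_assoc, ← map_mul, h2]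
    ring

lemma Dr_upd3 {c : ℂ → ZMod 2} {α : ℂ} (hα : ‖α‖ = 1) {w1 w2 w3 : ℂ}
    (h12 : w1 ≠ w2) (h13 : w1 ≠ w3) (h23 : w2 ≠ w3)
    (hA : ∀ a1 a2 a3, Alm (upd3 c w1 w2 w3 a1 a2 a3) (fun z => α * z)) (a1 a2 a3 : ZMod 2) :
    Dr _ α (hA a1 a2 a3) = Dr _ α (hA 0 0 0) +
      (Finsupp.single (cj α * w1) (val a1) - Finsupp.single w1 (val a1)) +
      (Finsupp.single (cj α * w2) (val a2) - Finsupp.single w2 (val a2)) +
      (Finsupp.single (cj α * w3) (val a3) - Finsupp.single w3 (val a3)) := by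
  have hαα := mul_cj hα
  have hs : ∀ (w a z : ℂ), Finsupp.single w a (α * z) = Finsupp.single (cj α * w) a z := by
    classical
    intro w a z
    have : w = α * z ↔ cj α * w = z := by
      constructor
      · rintro rfl; linear_combination z * hαα
      · rintro rfl; linear_combination -w * hαα
    simp only [Finsupp.single_apply, this]
  ext z
  simp only [Finsupp.add_apply, Finsupp.sub_apply, Dr_apply, ← hs]
  rw [val_upd3 c h12 h13 h23 a1 a2 a3, val_upd3 c h12 h13 h23 a1 a2 a3 z]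
  ring

lemma cen3 {c : ℂ → ZMod 2} {α : ℂ} (hα : ‖α‖ = 1) (h1 : α ≠ 1) (h2 : α ≠ -1)
    (hc : Alm c (fun z => α * z)) {w1 w2 w3 : ℂ} (h12 : w1 ≠ w2) (h13 : w1 ≠ w3) (h23 : w2 ≠ w3)
    (hsym : ∀ f : ℂ → ZMod 2, (∀ z, z ∉ ({w1, w2, w3} : Set ℂ) → f z = c z) →
      Sym0 (fun _ => True) f) :
    (w1 * cj w2 - w2 * cj w1) * (w2 * cj w2 - w1 * cj w1) = 0 ∧
    (w1 ^ 2 * cj w2 * cj w3 + w2 ^ 2 * cj w1 * cj w3 + w3 ^ 2 * cj w1 * cj w2) -
      (cj w1 ^ 2 * w2 * w3 + cj w2 ^ 2 * w1 * w3 + cj w3 ^ 2 * w1 * w2) = 0 := by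
  have hα0 := ne_zero_of_norm hα
  have hαα := mul_cj hα
  have hA : ∀ a1 a2 a3, Alm (upd3 c w1 w2 w3 a1 a2 a3) (fun z => α * z) := fun a1 a2 a3 =>
    hc.congr (mul_right_injective₀ hα0) (upd3_cof c w1 w2 w3 a1 a2 a3)
  have key : ∀ a1 a2 a3,
      I (fun z => z) (Dr _ α (hA a1 a2 a3)) * I (fun z => z * cj z ^ 2) (Dr _ α (hA a1 a2 a3)) -
        I cj (Dr _ α (hA a1 a2 a3)) * I (fun z => z ^ 2 * cj z) (Dr _ α (hA a1 a2 a3)) = 0 ∧
      I (fun z => z ^ 2) (Dr _ α (hA a1 a2 a3)) * I cj (Dr _ α (hA a1 a2 a3)) ^ 2 +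
        I (fun z => cj z ^ 2) (Dr _ α (hA a1 a2 a3)) * I (fun z => z) (Dr _ α (hA a1 a2 a3)) ^ 2
        = 0 := by
    intro a1 a2 a3
    rcases mom_sym hα (hA a1 a2 a3) (hsym _ (upd3_out c w1 w2 w3 a1 a2 a3)) with
      ⟨e1, e2⟩ | ⟨l, -, e1, e2, e3⟩
    · rw [e1, e2]; constructor <;> ring
    · rw [e1, e2, e3]; constructor <;> ring
  have k1 := key 0 0 0
  have k2 := key 1 0 0
  have k3 := key 0 1 0
  have k4 := key 0 0 1
  have k5 := key 1 1 0
  have k6 := key 1 0 1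
  have k7 := key 0 1 1
  have k8 := key 1 1 1
  rw [Dr_upd3 hα h12 h13 h23 hA] at k2 k3 k4 k5 k6 k7 k8
  simp only [map_add, map_sub, I_single, val_zero, val_one, map_mul, cj_cj]
    at k1 k2 k3 k4 k5 k6 k7 k8
  have hβ : cj α = α⁻¹ := (inv_eq_of_mul_eq_one_right hαα).symm
  have n1 : α - 1 ≠ 0 := sub_ne_zero.mpr h1
  have n2 : α + 1 ≠ 0 := fun h => h2 (by linear_combination h)
  constructor
  · have A := k1.1; have B := k2.1; have C := k3.1; have D := k5.1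
    rw [hβ] at B C D
    have : (α - 1) ^ 2 * ((w1 * cj w2 - w2 * cj w1) * (w2 * cj w2 - w1 * cj w1)) = 0 := by
      have E : _ := congrArg₂ (· + ·) (congrArg₂ (· - ·) A B) (congrArg₂ (· - ·) D C)
      field_simp at E
      linear_combination -E
    simpa [n1] using this
  · have A1 := k1.2; have A2 := k2.2; have A3 := k3.2; have A4 := k4.2
    have A5 := k5.2; have A6 := k6.2; have A7 := k7.2; have A8 := k8.2
    have E : (cj α ^ 2 - 1) * (α - 1) ^ 2 *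
        (w1 ^ 2 * cj w2 * cj w3 + w2 ^ 2 * cj w1 * cj w3 + w3 ^ 2 * cj w1 * cj w2) +
        (α ^ 2 - 1) * (cj α - 1) ^ 2 *
        (cj w1 ^ 2 * w2 * w3 + cj w2 ^ 2 * w1 * w3 + cj w3 ^ 2 * w1 * w2) = 0 := by
      linear_combination -(A1 - A2 - A3 - A4 + A5 + A6 + A7 - A8) / 2
    rw [hβ] at E
    field_simp at E
    have : (α - 1) ^ 3 * (α + 1) *
        ((w1 ^ 2 * cj w2 * cj w3 + w2 ^ 2 * cj w1 * cj w3 + w3 ^ 2 * cj w1 * cj w2) -
        (cj w1 ^ 2 * w2 * w3 + cj w2 ^ 2 * w1 * w3 + cj w3 ^ 2 * w1 * w2)) = 0 := by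
      linear_combination -E
    simpa [n1, n2] using this

end Pool.Agent.H6.Ext
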