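import Pool.Agent.H6.ExtCen

/-! Isometries fixing the origin: structure of the free set. -/

namespace Pool.Agent.H6.Ext

open Filter Complex

lemma cenL {c : ℂ → ZMod 2} {α l0 : ℂ} (hα : ‖α‖ = 1) (h1 : α ≠ 1) (hl0 : ‖l0‖ = 1)
    (hc : Alm c (fun z => α * z)) {w1 w2 w3 : ℂ} (h12 : w1 ≠ w2) (h13 : w1 ≠ w3) (h23 : w2 ≠ w3)
    (n1 : w1 ≠ 0) (n2 : w2 ≠ 0) (n12 : w1 ≠ -w2) (r1 : l0 * cj w1 = w1) (r2 : l0 * cj w2 = w2)
    (hsym : ∀ f : ℂ → ZMod 2, (∀ z, z ∉ ({w1, w2, w3} : Set ℂ) → f z = c z) →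
      Sym0 (fun l => l ≠ l0) f) : False := by
  have hα0 := ne_zero_of_norm hα
  have hαα := mul_cj hα
  have hll := mul_cj hl0
  have hA : ∀ a1 a2 a3, Alm (upd3 c w1 w2 w3 a1 a2 a3) (fun z => α * z) := fun a1 a2 a3 =>
    hc.congr (mul_right_injective₀ hα0) (upd3_cof c w1 w2 w3 a1 a2 a3)
  have key := fun a1 a2 a3 =>
    mom_sym hα (hA a1 a2 a3) (hsym _ (upd3_out c w1 w2 w3 a1 a2 a3))
  have key2 : ∀ a1 a2 a3,
      I (fun z => z) (Dr _ α (hA a1 a2 a3)) * I (fun z => z * cj z ^ 2) (Dr _ α (hA a1 a2 a3)) -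
        I cj (Dr _ α (hA a1 a2 a3)) * I (fun z => z ^ 2 * cj z) (Dr _ α (hA a1 a2 a3)) = 0 := by
    intro a1 a2 a3
    rcases key a1 a2 a3 with ⟨e1, e2⟩ | ⟨l, -, e1, e2, e3⟩
    · rw [e1, e2]; ring
    · rw [e1, e2]; ring
  have k1 := key2 0 0 0
  have k2 := key2 1 0 0
  have k3 := key2 0 1 0
  have j1 := key 0 0 0
  have j2 := key 1 0 0
  rw [Dr_upd3 hα h12 h13 h23 hA] at k2 k3 j2
  simp only [map_add, map_sub, I_single, val_zero, val_one, map_mul, cj_cj] at k1 k2 k3 j1 j2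
  have c1 : cj w1 = cj l0 * w1 := by linear_combination cj l0 * r1 - cj w1 * hll
  have c2 : cj w2 = cj l0 * w2 := by linear_combination cj l0 * r2 - cj w2 * hll
  set M10 := I (fun z => z) (Dr _ α (hA 0 0 0))
  set M01 := I cj (Dr _ α (hA 0 0 0))
  set M21 := I (fun z => z ^ 2 * cj z) (Dr _ α (hA 0 0 0))
  set M12 := I (fun z => z * cj z ^ 2) (Dr _ α (hA 0 0 0))
  set η := cj l0
  set β := cj α
  have hη : η ≠ 0 := by rintro h; rw [h] at hll; simp at hll
  have hβ1 : β - 1 ≠ 0 := by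
    intro h; apply h1; linear_combination hαα - α * h
  rw [c1] at k2 j2
  rw [c2] at k3
  have e1 : w1 * (((β - 1) * M12 - (α - 1) * η * M21) +
      η * w1 ^ 2 * ((α - 1) * η * M10 - (β - 1) * M01)) = 0 := by
    linear_combination k2 - k1 - (M10 * α * η ^ 2 * w1 ^ 3 - M01 * β * η * w1 ^ 3 +
      η ^ 2 * w1 ^ 4 * (β - α)) * hαα
  have e2 : w2 * (((β - 1) * M12 - (α - 1) * η * M21) +
      η * w2 ^ 2 * ((α - 1) * η * M10 - (β - 1) * M01)) = 0 := by
    linear_combination k3 - k1 - (M10 * α * η ^ 2 * w2 ^ 3 - M01 * β * η * w2 ^ 3 +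
      η ^ 2 * w2 ^ 4 * (β - α)) * hαα
  have e3 : η * ((w1 - w2) * (w1 + w2)) * ((α - 1) * η * M10 - (β - 1) * M01) = 0 := by
    linear_combination (mul_eq_zero.mp e1).resolve_left n1 - (mul_eq_zero.mp e2).resolve_left n2
  have e4 : (α - 1) * η * M10 - (β - 1) * M01 = 0 :=
    (mul_eq_zero.mp e3).resolve_left (mul_ne_zero hη (mul_ne_zero (sub_ne_zero.mpr h12)
      (fun h => n12 (by linear_combination h))))
  have fin : ∀ m10 m01 l : ℂ, (α - 1) * η * m10 - (β - 1) * m01 = 0 → l ≠ l0 →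
      m10 = -(l * β) * m01 → m10 = 0 := by
    intro m10 m01 l a hl b
    have : (β - 1) * ((l - l0) * η) * m10 = 0 := by
      linear_combination (-(β - 1)) * b - (l * β) * a - (β - 1) * m10 * hll + l * η * m10 * hαα
    exact (mul_eq_zero.mp this).resolve_left (mul_ne_zero hβ1 (mul_ne_zero (sub_ne_zero.mpr hl) hη))
  have z1 : M10 = 0 := by
    rcases j1 with ⟨h, -⟩ | ⟨l, hl, h, -⟩
    · exact h
    · exact fin _ _ l e4 hl h
  have z2 : M10 + (β - 1) * w1 = 0 := by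
    rcases j2 with ⟨h, -⟩ | ⟨l, hl, h, -⟩
    · linear_combination h
    · refine fin _ (M01 + (α - 1) * η * w1) l (by linear_combination e4) hl ?_
      linear_combination h
  exact mul_ne_zero hβ1 n1 (by linear_combination z2 - z1)

lemma iso_card (S : Finset ℂ) (a : ℂ) (h0 : ∀ x ∈ S, x ≠ 0) (ha : a ≠ 0)
    (h : ∀ x ∈ S, ∀ y ∈ S, x ≠ y → a ^ 2 = x * y ∨ x ^ 2 = a * y ∨ y ^ 2 = a * x) :
    S.card ≤ 4 := by
  classical
  have sub : S.offDiag ⊆ (S.image fun x => (x, a ^ 2 / x)) ∪ (S.image fun x => (x, x ^ 2 / a)) ∪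
      (S.image fun x => (x ^ 2 / a, x)) := by
    rintro ⟨x, y⟩ hxy
    obtain ⟨hx, hy, hne⟩ := Finset.mem_offDiag.mp hxy
    simp only [Finset.mem_union, Finset.mem_image, Prod.mk.injEq]
    have := h0 x hx
    rcases h x hx y hy hne with e | e | e
    · exact Or.inl (Or.inl ⟨x, hx, rfl, by rw [e]; field_simp⟩)
    · exact Or.inl (Or.inr ⟨x, hx, rfl, by rw [e]; field_simp⟩)
    · exact Or.inr ⟨y, hy, by rw [e]; field_simp, rfl⟩
  have c1 := Finset.card_le_card sub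
  rw [Finset.offDiag_card] at c1
  have c2 := c1.trans ((Finset.card_union_le _ _).trans (Nat.add_le_add
    ((Finset.card_union_le _ _).trans (Nat.add_le_add Finset.card_image_le Finset.card_image_le))
    Finset.card_image_le))
  by_contra hh
  have : 5 ≤ S.card := by omega
  have : 5 * S.card ≤ S.card * S.card := Nat.mul_le_mul_right _ this
  omega

lemma cenA {c : ℂ → ZMod 2} {α : ℂ} (hα : ‖α‖ = 1) (h1 : α ≠ 1) (h2 : α ≠ -1)
    (hc : Alm c (fun z => α * z)) (W : Finset ℂ) (hW : 7 ≤ W.card)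
    (hsym : ∀ f : ℂ → ZMod 2, (∀ z, z ∉ W → f z = c z) → Sym0 (fun _ => True) f) :
    ∀ u ∈ W, ∀ v ∈ W, u * cj v = v * cj u := by
  classical
  have T := fun (w1 w2 w3 : ℂ) (m1 : w1 ∈ W) (m2 : w2 ∈ W) (m3 : w3 ∈ W) (h12 : w1 ≠ w2)
      (h13 : w1 ≠ w3) (h23 : w2 ≠ w3) => cen3 hα h1 h2 hc h12 h13 h23 (fun f hf => hsym f
        fun z hz => hf z (by rintro (rfl | rfl | rfl) <;> contradiction))
  have P : ∀ u ∈ W, ∀ v ∈ W, u * cj v ≠ v * cj u → v * cj v = u * cj u := by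
    intro u hu v hv h
    have huv : u ≠ v := by rintro rfl; exact h rfl
    obtain ⟨w, hw, hw'⟩ : ∃ w ∈ W, w ∉ ({u, v} : Finset ℂ) :=
      Finset.exists_mem_notMem_of_card_lt_card (lt_of_le_of_lt Finset.card_le_two (by omega))
    simp only [Finset.mem_insert, Finset.mem_singleton, not_or] at hw'
    have := (T u v w hu hv hw huv (Ne.symm hw'.1) (Ne.symm hw'.2)).1
    exact sub_eq_zero.mp ((mul_eq_zero.mp this).resolve_left (sub_ne_zero.mpr h))
  intro u hu v hv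
  by_contra h
  have u0 : u ≠ 0 := by rintro rfl; simp at h
  have R : ∀ w ∈ W, w ≠ 0 → w * cj w = u * cj u := by
    intro w hw w0
    by_cases a : u * cj w = w * cj u
    · by_cases b : v * cj w = w * cj v
      · exfalso
        apply h
        have : w * cj w * (u * cj v - v * cj u) = 0 := by
          linear_combination (w * cj v) * a - (w * cj u) * b
        exact sub_eq_zero.mp ((mul_eq_zero.mp this).resolve_left (mul_ne_zero w0 (cj_ne w0)))
      · rw [P v hv w hw b, P u hu v hv h]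
    · exact P u hu w hw a
  have := iso_card ((W.erase 0).erase u) u (fun x hx => by simp at hx; tauto) u0 (by
    intro x hx y hy hxy
    simp only [Finset.mem_erase] at hx hy
    have E := (T u x y hu hx.2.2 hy.2.2 (Ne.symm hx.1) (Ne.symm hy.1) hxy).2
    have ex : cj x = u * cj u / x := by rw [← R x hx.2.2 hx.2.1]; field_simp [hx.2.1]
    have ey : cj y = u * cj u / y := by rw [← R y hy.2.2 hy.2.1]; field_simp [hy.2.1]
    have x0 := hx.2.1
    have y0 := hy.2.1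
    have cu := cj_ne u0
    rw [ex, ey] at E
    field_simp at E
    have : (u ^ 2 - x * y) * (x ^ 2 - u * y) * (y ^ 2 - u * x) = 0 :=
      mul_left_cancel₀ (pow_ne_zero 2 cu) (by linear_combination E)
    simp only [mul_eq_zero, sub_eq_zero] at this
    tauto)
  have c1 := Finset.pred_card_le_card_erase (s := W) (a := 0)
  have c2 := Finset.pred_card_le_card_erase (s := W.erase 0) (a := u)
  omega

end Pool.Agent.H6.Ext
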