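import Pool.Agent.H6.ExtDefs

/-! Almost invariant colourings of the plane `ℂ`. -/

namespace Pool.Agent.H6.Ext

open Filter Complex

/-- `c` is almost invariant under `g`. -/
def Alm (c : ℂ → ZMod 2) (g : ℂ → ℂ) : Prop := ∀ᶠ z in cofinite, c (g z) = c z

lemma Alm.comp {c : ℂ → ZMod 2} {g h : ℂ → ℂ} (hg : Alm c g) (hh : Alm c h)
    (hi : Function.Injective h) : Alm c (fun z => g (h z)) := by
  have := hi.tendsto_cofinite.eventually hg
  filter_upwards [this, hh] with z h1 h2 using h1.trans h2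

lemma Alm.inv {c : ℂ → ZMod 2} {g g' : ℂ → ℂ} (hg : Alm c g) (hi : Function.Injective g')
    (hgg : ∀ z, g (g' z) = z) : Alm c g' := by
  have := hi.tendsto_cofinite.eventually hg
  filter_upwards [this] with z h1
  rw [hgg] at h1; exact h1.symm

lemma Alm.congr {c c' : ℂ → ZMod 2} {g : ℂ → ℂ} (hg : Alm c g) (hi : Function.Injective g)
    (h : ∀ᶠ z in cofinite, c' z = c z) : Alm c' g := by
  have := hi.tendsto_cofinite.eventually h
  filter_upwards [this, hg, h] with z h1 h2 h3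
  rw [h1, h2, h3]

lemma alm_of_inv {W : Set ℂ} (hW : W.Finite) {c f : ℂ → ZMod 2} {g : ℂ → ℂ}
    (hi : Function.Injective g) (hf : ∀ z, z ∉ W → f z = c z) (hinv : ∀ z, f (g z) = f z) :
    Alm c g := by
  have h1 : Alm f g := Eventually.of_forall hinv
  refine h1.congr hi ?_
  filter_upwards [hW.compl_mem_cofinite] with z hz using (hf z hz).symm

/-- conjugating an almost translation -/
lemma Alm.conj {c : ℂ → ZMod 2} (g : Equiv.Perm ℂ) (hg : Alm c g) {t t' : ℂ}
    (ht : Alm c (fun z => z + t)) (h : ∀ z, g (z + t) = g z + t') :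
    Alm c (fun z => z + t') := by
  have h1 : Alm c g.symm := hg.inv g.symm.injective (by simp)
  have h2 := (hg.comp ht (add_left_injective t)).comp h1 g.symm.injective
  have : (fun z => g (g.symm z + t)) = fun z => z + t' := by
    funext z; rw [h]; simp
  rwa [this] at h2

lemma ray_inj {τ : ℂ} (hτ : τ ≠ 0) (x : ℂ) : Function.Injective fun n : ℕ => x + n * τ := by
  intro a b h
  simpa [hτ] using h

lemma ray_tendsto {τ : ℂ} (hτ : τ ≠ 0) (x : ℂ) :
    Tendsto (fun n : ℕ => x + n * τ) atTop cofinite := by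
  rw [← Nat.cofinite_eq_atTop]; exact (ray_inj hτ x).tendsto_cofinite

lemma exists_lim {c : ℂ → ZMod 2} {τ : ℂ} (hτ : τ ≠ 0) (h : Alm c (fun z => z + τ)) (x : ℂ) :
    ∃ v, ∀ᶠ n : ℕ in atTop, c (x + n * τ) = v := by
  obtain ⟨N, hN⟩ := eventually_atTop.mp ((ray_tendsto hτ x).eventually h)
  refine ⟨c (x + N * τ), eventually_atTop.mpr ⟨N, fun n hn => ?_⟩⟩
  induction n, hn using Nat.le_induction with
  | base => rfl
  | succ n hn ih =>
    rw [← ih, ← hN n hn]; congr 1; push_cast; ring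

lemma eq_of_inv {τ : ℂ} (hτ : τ ≠ 0) {a b : ℂ → ZMod 2} (ha : ∀ z, a (z + τ) = a z)
    (hb : ∀ z, b (z + τ) = b z) (h : ∀ᶠ z in cofinite, a z = b z) (x : ℂ) : a x = b x := by
  obtain ⟨n, hn⟩ := ((ray_tendsto hτ x).eventually h).exists
  have k : ∀ (a : ℂ → ZMod 2), (∀ z, a (z + τ) = a z) → ∀ n : ℕ, a (x + n * τ) = a x := by
    intro a ha n
    induction n with
    | zero => simp
    | succ n ih => rw [← ih, ← ha (x + n * τ)]; congr 1; push_cast; ring
  rw [← k a ha n, ← k b hb n]; exact hn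

/-- Two independent almost translations give an exactly invariant colouring. -/
lemma exists_star {c : ℂ → ZMod 2} {τ σ : ℂ} (hτ : Alm c (fun z => z + τ))
    (hσ : Alm c (fun z => z + σ)) (hind : (σ * (starRingEnd ℂ) τ).im ≠ 0) :
    ∃ d : ℂ → ZMod 2, (∀ᶠ z in cofinite, d z = c z) ∧
      ∀ t, Alm c (fun z => z + t) → ∀ z, d (z + t) = d z := by
  have hτ0 : τ ≠ 0 := by rintro rfl; simp at hind
  have hσ0 : σ ≠ 0 := by rintro rfl; simp at hind
  choose d hd using exists_lim hτ0 hτ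
  have hinv : ∀ t, Alm c (fun z => z + t) → ∀ z, d (z + t) = d z := by
    intro t ht z
    obtain ⟨n, h1, h2, h3⟩ := ((hd (z + t)).and ((hd z).and
      ((ray_tendsto hτ0 z).eventually ht))).exists
    rw [← h1, ← h2, ← h3]; congr 1; ring
  refine ⟨d, ?_, hinv⟩
  -- the exceptional set
  set F : Set ℂ := {z | ¬ c (z + τ) = c z} ∪ {z | ¬ c (z + σ) = c z} with hF
  have hFf : F.Finite := (eventually_cofinite.mp hτ).union (eventually_cofinite.mp hσ)
  have ray : ∀ (t : ℂ) (x : ℂ), (∀ n : ℕ, c (x + n * t + t) = c (x + n * t)) →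
      ∀ n : ℕ, c (x + n * t) = c x := by
    intro t x h n
    induction n with
    | zero => simp
    | succ n ih => rw [← ih, ← h n]; congr 1; push_cast; ring
  have hA : ∀ x, (∀ n : ℕ, x + n * τ ∉ F) → d x = c x := by
    intro x hx
    obtain ⟨n, hn⟩ := (hd x).exists
    rw [← hn]
    apply ray τ x
    intro n
    by_contra h
    exact hx n (Or.inl h)
  have uniq : ∀ (m m' n n' : ℕ) (x x' : ℂ), x + m * σ = x' + m' * σ → x + n * τ = x' + n' * τ →
      x = x' := by
    intro m m' n n' x x' h1 h2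
    have e : ((m : ℂ) - m') * σ = ((n : ℂ) - n') * τ := by linear_combination h1 - h2
    have e2 : (((m : ℂ) - m') * σ * (starRingEnd ℂ) τ).im = 0 := by
      rw [e, mul_assoc, mul_conj]; simp
    rw [mul_assoc] at e2
    have e3 : ((m : ℝ) - m') * (σ * (starRingEnd ℂ) τ).im = 0 := by
      rw [← e2]; simp
    have e4 : (m : ℝ) - m' = 0 := by
      rcases mul_eq_zero.mp e3 with h | h
      · exact h
      · exact absurd h hind
    have e5 : m = m' := by exact_mod_cast sub_eq_zero.mp e4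
    subst e5
    exact add_right_cancel h1
  have hB : ∀ x, (∀ n : ℕ, x + n * σ ∉ F) → d x = c x := by
    intro x hx
    have h1 : ∀ n : ℕ, c (x + n * σ) = c x := by
      apply ray σ x
      intro n
      by_contra h
      exact hx n (Or.inr h)
    have h2 : ∀ n : ℕ, d (x + n * σ) = d x := by
      intro n
      induction n with
      | zero => simp
      | succ n ih => rw [← ih, ← hinv σ hσ (x + n * σ)]; congr 1; push_cast; ring
    -- some `m` whose `τ`-ray avoids `F`
    have h3 : {m : ℕ | ∃ n : ℕ, x + m * σ + n * τ ∈ F}.Finite := by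
      have : {m : ℕ | ∃ n : ℕ, x + m * σ + n * τ ∈ F} ⊆
          ⋃ f ∈ F, {m : ℕ | ∃ n : ℕ, x + m * σ + n * τ = f} := by
        rintro m ⟨n, hn⟩
        simp only [Set.mem_iUnion]
        exact ⟨_, hn, n, rfl⟩
      refine (hFf.biUnion fun f _ => Set.Subsingleton.finite ?_).subset this
      rintro m ⟨n, hn⟩ m' ⟨n', hn'⟩
      have := uniq m' m n n' (x + m * σ) (x + m' * σ) (by ring) (hn.trans hn'.symm)
      exact ray_inj hσ0 x this
    obtain ⟨m, hm⟩ := h3.exists_notMem
    rw [← h1 m, ← h2 m]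
    apply hA
    intro n hn
    exact hm ⟨n, hn⟩
  rw [eventually_cofinite]
  have : {z | ¬ d z = c z} ⊆ ⋃ f ∈ F, ⋃ f' ∈ F,
      {x | ∃ m n : ℕ, x + m * σ = f ∧ x + n * τ = f'} := by
    intro z hz
    have h1 : ¬ ∀ n : ℕ, z + n * σ ∉ F := fun h => hz (hB z h)
    have h2 : ¬ ∀ n : ℕ, z + n * τ ∉ F := fun h => hz (hA z h)
    push Not at h1 h2
    obtain ⟨m, hm⟩ := h1
    obtain ⟨n, hn⟩ := h2
    simp only [Set.mem_iUnion]
    exact ⟨_, hm, _, hn, m, n, rfl, rfl⟩
  refine (hFf.biUnion fun f _ => hFf.biUnion fun f' _ => Set.Subsingleton.finite ?_).subset this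
  rintro x ⟨m, n, h1, h2⟩ x' ⟨m', n', h1', h2'⟩
  exact uniq m m' n n' x x' (h1.trans h1'.symm) (h2.trans h2'.symm)

/-- the invariant colouring is invariant under all almost symmetries normalising translations -/
lemma star_inv {c d : ℂ → ZMod 2} {τ : ℂ} (hτ0 : τ ≠ 0) (hτ : Alm c (fun z => z + τ))
    (hd : ∀ᶠ z in cofinite, d z = c z)
    (hinv : ∀ t, Alm c (fun z => z + t) → ∀ z, d (z + t) = d z)
    (g : Equiv.Perm ℂ) (hg : Alm c g) {t' : ℂ} (h : ∀ z, g (z + τ) = g z + t') (z : ℂ) :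
    d (g z) = d z := by
  have h1 := hg.conj g hτ h
  refine eq_of_inv hτ0 (a := fun z => d (g z)) (b := d) (fun z => ?_) (hinv τ hτ) ?_ z
  · simp only [h]; exact hinv t' h1 _
  · exact hg.congr g.injective hd

lemma zmod2_ne {a b : ZMod 2} (h : a ≠ b) : a = b + 1 := by
  revert a b; decide

/-- Adjacent colourings cannot both be invariant under commuting maps moving `w` freely. -/
lemma adj_rot {c c' : ℂ → ZMod 2} {w l m : ℂ} (hw : w ≠ 0) (hl : l ≠ 1) (hm : m ≠ 1)
    (hc : ∀ z, c (l * z) = c z) (hc' : ∀ z, c' (m * z) = c' z)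
    (h1 : ∀ z, z ≠ w → c' z = c z) (h2 : c' w ≠ c w) : False := by
  have hmw : m * w ≠ w := fun h => hm (by simpa [hw] using h)
  have hlw : l * w ≠ w := fun h => hl (by simpa [hw] using h)
  have e1 : c (m * w) ≠ c w := by rw [← h1 _ hmw, hc']; exact h2
  have e2 : c (m * (l * w)) ≠ c (l * w) := by
    rw [mul_left_comm, hc, hc]; exact e1
  have e3 : m * (l * w) = w := by
    by_contra h
    apply e2
    rw [← h1 _ h, hc', h1 _ hlw]
  have e4 : c' (l * w) = c' w := by
    rw [← hc' (l * w), e3]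
  rw [h1 _ hlw, hc] at e4
  exact h2 e4.symm

end Pool.Agent.H6.Ext
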