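import Mathlib

/-!
Distinguishing colourings and the precolouring extension property, for a group `Γ` of
permutations of a set `X` (given as a subgroup of `Equiv.Perm X`, so the action is faithful).
-/

namespace Pool.Agent.H6.Ext

variable {X : Type} (Γ : Subgroup (Equiv.Perm X))

/-- `c` is `Γ`-distinguishing: only the identity of `Γ` preserves it. -/
def IsDist {k : ℕ} (c : X → Fin k) : Prop :=
  ∀ γ ∈ Γ, (∀ x, c (γ x) = c x) → γ = 1

/-- The distinguishing number `D_Γ(X)`. -/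
noncomputable def distNum : ℕ := sInf {k | ∃ c : X → Fin k, IsDist Γ c}

/-- `W` has trivial pointwise stabilizer in `Γ`. -/
def Admissible (W : Set X) : Prop := ∀ γ ∈ Γ, (∀ w ∈ W, γ w = w) → γ = 1

/-- Every `k`-colouring of `X \ W` extends to a distinguishing `k`-colouring of `X`. -/
def Pk (k : ℕ) (W : Set X) : Prop :=
  ∀ c : {x // x ∉ W} → Fin k, ∃ c' : X → Fin k,
    (∀ x (h : x ∉ W), c' x = c ⟨x, h⟩) ∧ IsDist Γ c'

/-- The precolouring extension property `P(W, Γ)`, with `k = D_Γ(X)` colours. -/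
def P (W : Set X) : Prop := Pk Γ (distNum Γ) W

/-- `P(W)` holds for every admissible `W` (finite or infinite) with at least `n` points. -/
def ExtBound (n : ℕ) : Prop :=
  ∀ W : Set X, Admissible Γ W → (n : ℕ∞) ≤ W.encard → P Γ W

/-- The distinguishing extension number: the least `n` with `ExtBound n`, and `⊤` if none. -/
noncomputable def ext : ℕ∞ := ⨅ (n : ℕ) (_ : ExtBound Γ n), (n : ℕ∞)

/-- Every recolouring of `c` on `W` is preserved by a non-identity element of `Γ`. -/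
def Hyp (W : Set X) (c : X → ZMod 2) : Prop :=
  ∀ f : X → ZMod 2, (∀ z, z ∉ W → f z = c z) → ∃ γ ∈ Γ, γ ≠ 1 ∧ ∀ z, f (γ z) = f z

lemma Hyp.mono {W W' : Set X} {c c' : X → ZMod 2} (h : Hyp Γ W c) (hW : W' ⊆ W)
    (hc : ∀ z, z ∉ W → c' z = c z) : Hyp Γ W' c' := by
  intro f hf
  exact h f fun z hz => (hf z fun h' => hz (hW h')).trans (hc z hz)

lemma pk_two_iff (W : Set X) : Pk Γ 2 W ↔ ∀ c, ¬ Hyp Γ W c := by
  classical
  constructor
  · intro h c hc
    obtain ⟨c', h1, h2⟩ := h fun x => c x.1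
    obtain ⟨γ, hγ, hne, hinv⟩ := hc c' fun z hz => h1 z hz
    exact hne (h2 γ hγ hinv)
  · intro h c
    have := h fun x => if hx : x ∈ W then 0 else c ⟨x, hx⟩
    unfold Hyp at this
    push Not at this
    obtain ⟨f, hf, hf'⟩ := this
    refine ⟨f, fun x hx => (hf x hx).trans (dif_neg hx), fun γ hγ hinv => ?_⟩
    by_contra hne
    obtain ⟨z, hz⟩ := hf' γ hγ hne
    exact hz (hinv z)

lemma distNum_eq_two [Nonempty X] (hne : ∃ γ ∈ Γ, γ ≠ 1) (h : Pk Γ 2 Set.univ) :
    distNum Γ = 2 := by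
  have h2 : 2 ∈ {k | ∃ c : X → Fin k, IsDist Γ c} := by
    obtain ⟨c, -, hc⟩ := h fun x => absurd (Set.mem_univ _) x.2
    exact ⟨c, hc⟩
  apply le_antisymm (Nat.sInf_le h2)
  apply le_csInf ⟨2, h2⟩
  rintro k ⟨c, hc⟩
  by_contra hk
  obtain ⟨γ, hγ, hne⟩ := hne
  apply hne
  apply hc γ hγ
  intro x
  have h1 := (c (γ x)).2
  have h2 := (c x).2
  ext; omega

end Pool.Agent.H6.Ext
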