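import Pool.Agent.H6.ExtCen2

/-! Finitely supported colourings: the smallest enclosing disc. -/

namespace Pool.Agent.H6.Ext

open Filter Complex

lemma disc_aux (S : Finset ℂ) (hS : S.Nonempty) : ∃ (p : ℂ) (U : Finset ℂ), U ⊆ S ∧ U.card ≤ 3 ∧
    ∃ R : ℝ, (∀ s ∈ S, dist p s ≤ R) ∧ ∀ q, (∀ s ∈ U, dist q s ≤ R) → q = p := by
  classical
  set r : ℂ → ℝ := fun x => S.sup' hS (fun s => dist x s) with hr
  have hc : Continuous r := Continuous.finset_sup'_apply hS fun s _ => by fun_prop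
  obtain ⟨s0, hs0⟩ := hS
  have ht : Tendsto r (cocompact ℂ) atTop :=
    tendsto_atTop_mono (fun x => Finset.le_sup' (fun s => dist x s) hs0)
      (tendsto_dist_right_cocompact_atTop s0)
  obtain ⟨p, hp⟩ := hc.exists_forall_le ht
  have hle : ∀ s ∈ S, dist p s ≤ r p := fun s hs => Finset.le_sup' (fun s => dist p s) hs
  have : ¬ ∀ I ⊆ S, I.card ≤ Module.finrank ℝ ℂ + 1 →
      (⋂ i ∈ I, Metric.ball i (r p)).Nonempty := by
    intro h
    obtain ⟨x, hx⟩ := Convex.helly_theorem' (𝕜 := ℝ) (fun i _ => convex_ball i (r p)) h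
    simp only [Set.mem_iInter, Metric.mem_ball] at hx
    exact absurd (hp x) (not_le.mpr ((Finset.sup'_lt_iff _).mpr hx))
  push Not at this
  obtain ⟨U, hU, hcard, hemp⟩ := this
  refine ⟨p, U, hU, by simpa using hcard, r p, hle, fun q hq => ?_⟩
  by_contra hne
  have : (1 / 2 : ℝ) • q + (1 / 2 : ℝ) • p ∈ ⋂ i ∈ U, Metric.ball i (r p) := by
    simp only [Set.mem_iInter]
    intro s hs
    exact combo_mem_ball_of_ne (hq s hs) (hle s (hU hs)) hne (by norm_num) (by norm_num)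
      (by norm_num)
  rw [hemp] at this
  exact this

lemma disc {c : ℂ → ZMod 2} (hc : ∀ᶠ z in cofinite, c z = 0) (V : Finset ℂ) (hV : V.Nonempty) :
    ∃ (p : ℂ) (c1 : ℂ → ZMod 2) (V1 : Finset ℂ), V1 ⊆ V ∧ V.card ≤ V1.card + 3 ∧
      (∀ z, z ∉ V → c1 z = c z) ∧ ∀ f : ℂ → ZMod 2, (∀ z, z ∉ V1 → f z = c1 z) →
        ∀ γ : Equiv.Perm ℂ, (∀ x y, dist (γ x) (γ y) = dist x y) → (∀ z, f (γ z) = f z) →
          γ p = p := by
  classical
  have hfin := eventually_cofinite.mp hc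
  obtain ⟨p, U, hU, hcard, R, hR, huniq⟩ := disc_aux (hfin.toFinset ∪ V)
    (hV.mono Finset.subset_union_right)
  have one : ∀ a : ZMod 2, a ≠ 0 → a = 1 := by decide
  refine ⟨p, fun z => if z ∈ U then 1 else c z, V \ U, Finset.sdiff_subset, ?_, ?_, ?_⟩
  · have := Finset.le_card_sdiff U V; omega
  · intro z hz
    beta_reduce
    split_ifs with h
    · have := hU h
      simp only [Finset.mem_union, Set.Finite.mem_toFinset, Set.mem_ofPred_eq, hz, or_false] at this
      exact (one _ this).symm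
    · rfl
  · intro f hf γ hγ hinv
    beta_reduce at hf
    apply huniq
    intro s hs
    have h1 : f (γ.symm s) = 1 := by
      rw [← hinv, Equiv.apply_symm_apply, hf s (by simp [hs]), if_pos hs]
    have h2 : γ.symm s ∈ hfin.toFinset ∪ V := by
      by_contra h
      simp only [Finset.mem_union, Set.Finite.mem_toFinset, Set.mem_ofPred_eq, not_or,
        not_not] at h
      have h3 : γ.symm s ∉ U := fun h' => by
        have := hU h'
        simp [h.1, h.2] at this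
      rw [hf _ (by simp [h.2]), if_neg h3, h.1] at h1
      exact absurd h1 (by decide)
    have := hR _ h2
    rwa [← hγ, Equiv.apply_symm_apply] at this

/-- a non-trivial symmetry; `P` restricts the orientation reversing ones -/
def SymE (P : ℂ → ℂ → Prop) (f : ℂ → ZMod 2) : Prop :=
  ∃ l b : ℂ, ‖l‖ = 1 ∧ (((l ≠ 1 ∨ b ≠ 0) ∧ ∀ z, f (l * z + b) = f z) ∨
    (P l b ∧ ∀ z, f (l * cj z + b) = f z))

lemma sym0_of {P : ℂ → ℂ → Prop} {f : ℂ → ZMod 2} {p : ℂ} (hs : SymE P f)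
    (hp : ∀ l b, ‖l‖ = 1 → (∀ z, f (l * z + b) = f z) → l * p + b = p)
    (hp' : ∀ l b, ‖l‖ = 1 → (∀ z, f (l * cj z + b) = f z) → l * cj p + b = p) :
    Sym0 (fun l => P l (p - l * cj p)) (fun z => f (z + p)) := by
  obtain ⟨l, b, hl, ⟨h1, h2⟩ | ⟨h1, h2⟩⟩ := hs
  · have := hp l b hl h2
    refine ⟨l, hl, Or.inl ⟨?_, fun z => ?_⟩⟩
    · rintro rfl
      exact h1.resolve_left (by simp) (by linear_combination this)
    · simp only; rw [← h2 (z + p)]; congr 1; linear_combination -this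
  · have := hp' l b hl h2
    refine ⟨l, hl, Or.inr ⟨?_, fun z => ?_⟩⟩
    · simp only; rw [show p - l * cj p = b by linear_combination -this]; exact h1
    · simp only; rw [← h2 (z + p), map_add]; congr 1; linear_combination -this

lemma shift_alm {c : ℂ → ZMod 2} {α b p : ℂ} (hc : Alm c (fun z => α * z + b))
    (hp : α * p + b = p) : Alm (fun z => c (z + p)) (fun z => α * z) := by
  filter_upwards [(add_left_injective p).tendsto_cofinite.eventually hc] with z hz
  rw [← hz]; congr 1; linear_combination -hp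

lemma cenA_p {c : ℂ → ZMod 2} {α p : ℂ} (hα : ‖α‖ = 1) (h1 : α ≠ 1) (h2 : α ≠ -1)
    (hc : Alm (fun z => c (z + p)) (fun z => α * z)) (W : Finset ℂ) (hW : 7 ≤ W.card)
    (hsym : ∀ f : ℂ → ZMod 2, (∀ z, z ∉ W → f z = c z) →
      Sym0 (fun _ => True) (fun z => f (z + p))) :
    ∃ l b : ℂ, ‖l‖ = 1 ∧ ∀ w ∈ W, l * cj w + b = w := by
  classical
  have key := cenA hα h1 h2 hc (W.image (· - p))
    (by rwa [Finset.card_image_of_injective _ sub_left_injective]) (fun f hf => by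
      have := hsym (fun z => f (z - p)) (fun z hz => by
        rw [hf _ (by simpa using hz), sub_add_cancel])
      simpa using this)
  obtain ⟨w0, hw0, hp⟩ := Finset.exists_mem_ne (s := W) (by omega) p
  have e0 : w0 - p ≠ 0 := sub_ne_zero.mpr hp
  have e1 := cj_ne e0
  refine ⟨(w0 - p) / cj (w0 - p), p - (w0 - p) / cj (w0 - p) * cj p, ?_, fun w hw => ?_⟩
  · rw [norm_div, norm_cj, div_self (norm_ne_zero_iff.mpr e0)]
  · have := key _ (Finset.mem_image_of_mem _ hw0) _ (Finset.mem_image_of_mem _ hw)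
    rw [map_sub cj w p] at this
    field_simp
    linear_combination this

lemma kill (c : ℂ → ZMod 2) (W : Finset ℂ) {w w' : ℂ} (hw : w ∈ W) (hne : w' ≠ w) :
    ∃ c1 : ℂ → ZMod 2, (∀ z, z ∉ W → c1 z = c z) ∧ ∀ V : Set ℂ, w ∉ V → w' ∉ V →
      ∀ f : ℂ → ZMod 2, (∀ z, z ∉ V → f z = c1 z) → f w' ≠ f w := by
  classical
  refine ⟨Function.update c w (c w' + 1), fun z hz =>
    Function.update_of_ne (by rintro rfl; exact hz hw) _ _, fun V h1 h2 f hf => ?_⟩
  rw [hf w h1, hf w' h2, Function.update_self, Function.update_of_ne hne]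
  simp

lemma rot_dist {l : ℂ} (b : ℂ) (hl : ‖l‖ = 1) (x y : ℂ) :
    dist (rotP l b (ne_zero_of_norm hl) x) (rotP l b (ne_zero_of_norm hl) y) = dist x y := by
  simp only [rotP_apply, dist_eq_norm]
  rw [show l * x + b - (l * y + b) = l * (x - y) by ring, norm_mul, hl, one_mul]

lemma ref_dist {l : ℂ} (b : ℂ) (hl : ‖l‖ = 1) (x y : ℂ) :
    dist (refP l b (ne_zero_of_norm hl) x) (refP l b (ne_zero_of_norm hl) y) = dist x y := by
  simp only [refP_apply, dist_eq_norm]
  rw [show l * cj x + b - (l * cj y + b) = l * cj (x - y) by rw [map_sub]; ring, norm_mul, hl,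
    one_mul, norm_cj]

lemma cof_of {c f : ℂ → ZMod 2} (hc : ∀ᶠ z in cofinite, c z = 0) (W : Finset ℂ)
    (h : ∀ z, z ∉ W → f z = c z) : ∀ᶠ z in cofinite, f z = 0 := by
  filter_upwards [hc, W.finite_toSet.compl_mem_cofinite] with z h1 h2
  rw [h z h2, h1]

lemma alm_of_cof {c : ℂ → ZMod 2} (hc : ∀ᶠ z in cofinite, c z = 0) (p : ℂ) :
    Alm (fun z => c (z + p)) (fun z => Complex.I * z) := by
  have h1 := (add_left_injective p).tendsto_cofinite.eventually hc
  have h2 := (mul_right_injective₀ I_ne_zero).tendsto_cofinite.eventually h1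
  filter_upwards [h1, h2] with z a b
  exact b.trans a.symm

theorem caseC_E {c : ℂ → ZMod 2} (hc : ∀ᶠ z in cofinite, c z = 0) (W : Finset ℂ)
    (hW : 10 ≤ W.card) (NC : ∀ l b : ℂ, ‖l‖ = 1 → ∃ w ∈ W, l * cj w + b ≠ w)
    (H : ∀ f : ℂ → ZMod 2, (∀ z, z ∉ W → f z = c z) → SymE (fun _ _ => True) f) : False := by
  classical
  have i1 : Complex.I ≠ 1 := fun h => by simpa using congrArg Complex.re h
  have i2 : Complex.I ≠ -1 := fun h => by simpa using congrArg Complex.re h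
  obtain ⟨p, c1, V1, hV1, hcard, hc1, hfix⟩ := disc hc W (Finset.card_pos.mp (by omega))
  obtain ⟨l0, b0, hl0, hL⟩ := cenA_p (p := p) norm_I i1 i2 (alm_of_cof (cof_of hc W hc1) p) V1
    (by omega) (fun f hf => sym0_of
      (H f fun z hz => (hf z fun h => hz (hV1 h)).trans (hc1 z hz))
      (fun l b hl h => hfix f hf (rotP l b (ne_zero_of_norm hl)) (rot_dist b hl) h)
      (fun l b hl h => hfix f hf (refP l b (ne_zero_of_norm hl)) (ref_dist b hl) h))
  obtain ⟨w0, hw0, hm⟩ := NC l0 b0 hl0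
  obtain ⟨c2, hc2, hkill⟩ := kill c W hw0 hm
  have a1 : w0 ∉ V1 := fun h => hm (hL _ h)
  have a2 : l0 * cj w0 + b0 ∉ V1 := fun h =>
    hm ((refP l0 b0 (ne_zero_of_norm hl0)).injective (hL _ h))
  obtain ⟨q, c3, V2, hV2, hcard2, hc3, hfix2⟩ := disc (cof_of hc W hc2) V1
    (Finset.card_pos.mp (by omega))
  have hA := alm_of_cof (cof_of (cof_of hc W hc2) V1 hc3) q
  have HS : ∀ f : ℂ → ZMod 2, (∀ z, z ∉ V2 → f z = c3 z) →
      Sym0 (fun l => ¬ (l = l0 ∧ q - l * cj q = b0)) (fun z => f (z + q)) := by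
    intro f hf
    have hf1 : ∀ z, z ∉ V1 → f z = c2 z := fun z hz =>
      (hf z fun h => hz (hV2 h)).trans (hc3 z hz)
    refine sym0_of (P := fun l b => ¬ (l = l0 ∧ b = b0)) ?_
      (fun l b hl h => hfix2 f hf (rotP l b (ne_zero_of_norm hl)) (rot_dist b hl) h)
      (fun l b hl h => hfix2 f hf (refP l b (ne_zero_of_norm hl)) (ref_dist b hl) h)
    obtain ⟨l, b, hl, h | ⟨-, h⟩⟩ := H f fun z hz => (hf1 z fun h => hz (hV1 h)).trans (hc2 z hz)
    · exact ⟨l, b, hl, Or.inl h⟩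
    · refine ⟨l, b, hl, Or.inr ⟨?_, h⟩⟩
      rintro ⟨rfl, rfl⟩
      exact hkill V1 a1 a2 f hf1 (h w0)
  have HS3 : ∀ {w1 w2 w3 : ℂ}, w1 ∈ V2 → w2 ∈ V2 → w3 ∈ V2 → ∀ f : ℂ → ZMod 2,
      (∀ z, z ∉ ({w1 - q, w2 - q, w3 - q} : Set ℂ) → f z = c3 (z + q)) →
      Sym0 (fun l => ¬ (l = l0 ∧ q - l * cj q = b0)) f := by
    intro w1 w2 w3 m1 m2 m3 f hf
    have := HS (fun z => f (z - q)) (fun z hz => by
      rw [hf _ (by
        simp only [Set.mem_insert_iff, sub_left_inj, Set.mem_singleton_iff]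
        rintro (rfl | rfl | rfl) <;> contradiction), sub_add_cancel])
    simpa using this
  have hll := mul_cj hl0
  by_cases hq : q - l0 * cj q = b0
  · obtain ⟨w1, m1, n1⟩ := Finset.exists_mem_ne (s := V2) (by omega) q
    obtain ⟨w2, m2, n2⟩ : ∃ w ∈ V2, w ∉ ({q, w1, 2 * q - w1} : Finset ℂ) :=
      Finset.exists_mem_notMem_of_card_lt_card (lt_of_le_of_lt Finset.card_le_three (by omega))
    obtain ⟨w3, m3, n3⟩ : ∃ w ∈ V2, w ∉ ({w1, w2} : Finset ℂ) :=
      Finset.exists_mem_notMem_of_card_lt_card (lt_of_le_of_lt Finset.card_le_two (by omega))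
    simp only [Finset.mem_insert, Finset.mem_singleton, not_or] at n2 n3
    refine cenL (w1 := w1 - q) (w2 := w2 - q) (w3 := w3 - q) norm_I i1 hl0 hA
      (by simpa using Ne.symm n2.2.1) (by simpa using Ne.symm n3.1) (by simpa using Ne.symm n3.2)
      (sub_ne_zero.mpr n1) (sub_ne_zero.mpr n2.1) (fun h => n2.2.2 (by linear_combination h))
      (by rw [map_sub]; linear_combination hL _ (hV2 m1) + hq)
      (by rw [map_sub]; linear_combination hL _ (hV2 m2) + hq) (fun f hf => ?_)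
    obtain ⟨l, hl, h | ⟨h, h'⟩⟩ := HS3 m1 m2 m3 f hf
    · exact ⟨l, hl, Or.inl h⟩
    · exact ⟨l, hl, Or.inr ⟨by rintro rfl; exact h ⟨rfl, hq⟩, h'⟩⟩
  · obtain ⟨w1, w2, w3, m1, m2, m3, h12, h13, h23⟩ := Finset.two_lt_card_iff.mp
      (show 2 < V2.card by omega)
    have key : ∀ {u v w : ℂ}, u ∈ V2 → v ∈ V2 → w ∈ V2 → u ≠ v → u ≠ w → v ≠ w →
        u + v - 2 * q = b0 - (q - l0 * cj q) := by
      intro u v w mu mv mw huv huw hvw
      have := (cen3 (w1 := u - q) (w2 := v - q) (w3 := w - q) norm_I i1 i2 hA (by simpa using huv)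
        (by simpa using huw) (by simpa using hvw) (fun f hf => by
          obtain ⟨l, hl, h | ⟨-, h'⟩⟩ := HS3 mu mv mw f hf
          · exact ⟨l, hl, Or.inl h⟩
          · exact ⟨l, hl, Or.inr ⟨trivial, h'⟩⟩)).1
      obtain ⟨β, hβ⟩ : ∃ β, β = b0 - (q - l0 * cj q) := ⟨_, rfl⟩
      have β0 : β ≠ 0 := by rw [hβ]; exact sub_ne_zero.mpr (Ne.symm hq)
      have cu : cj (u - q) = cj l0 * (u - q - β) := by
        rw [map_sub, hβ]; linear_combination cj l0 * hL _ (hV2 mu) - (cj u - cj q) * hll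
      have cv : cj (v - q) = cj l0 * (v - q - β) := by
        rw [map_sub, hβ]; linear_combination cj l0 * hL _ (hV2 mv) - (cj v - cj q) * hll
      rw [cu, cv] at this
      rw [← hβ]
      have e : (cj l0 ^ 2 * β * (v - u) ^ 2) * (u + v - 2 * q - β) = 0 := by
        linear_combination this
      exact sub_eq_zero.mp ((mul_eq_zero.mp e).resolve_left (mul_ne_zero (mul_ne_zero
        (pow_ne_zero 2 (cj_ne (ne_zero_of_norm hl0))) β0)
        (pow_ne_zero 2 (sub_ne_zero.mpr huv.symm))))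
    exact h23 (by linear_combination key m1 m2 m3 h12 h13 h23 - key m1 m3 m2 h13 h12 h23.symm)

end Pool.Agent.H6.Ext
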