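import Pool.Agent.H6.ExtDisc

/-! The group `E(2)`: ten free points not on a line always suffice. -/

namespace Pool.Agent.H6.Ext

open Filter Complex

lemma ap_const (φ : ℂ → ℂ) (V : Finset ℂ) (hV : 4 ≤ V.card)
    (h : ∀ a ∈ V, ∀ b ∈ V, ∀ d ∈ V, a ≠ b → a ≠ d → b ≠ d →
      (2 * φ a - φ b - φ d) * (2 * φ b - φ a - φ d) * (2 * φ d - φ a - φ b) = 0) :
    ∀ u ∈ V, ∀ v ∈ V, φ u = φ v := by
  classical
  intro u hu v hv
  by_contra hne
  have huv : u ≠ v := by rintro rfl; exact hne rfl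
  obtain ⟨w, mw, nw⟩ : ∃ w ∈ V, w ∉ ({u, v} : Finset ℂ) :=
    Finset.exists_mem_notMem_of_card_lt_card (lt_of_le_of_lt Finset.card_le_two (by omega))
  obtain ⟨x, mx, nx⟩ : ∃ x ∈ V, x ∉ ({u, v, w} : Finset ℂ) :=
    Finset.exists_mem_notMem_of_card_lt_card (lt_of_le_of_lt Finset.card_le_three (by omega))
  simp only [Finset.mem_insert, Finset.mem_singleton, not_or] at nw nx
  have h1 := h u hu v hv w mw huv (Ne.symm nw.1) (Ne.symm nw.2)
  have h2 := h u hu v hv x mx huv (Ne.symm nx.1) (Ne.symm nx.2.1)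
  have h3 := h u hu w mw x mx (Ne.symm nw.1) (Ne.symm nx.1) (Ne.symm nx.2.2)
  have h4 := h v hv w mw x mx (Ne.symm nw.2) (Ne.symm nx.2.1) (Ne.symm nx.2.2)
  simp only [mul_eq_zero] at h1 h2 h3 h4
  rcases h1 with (h1 | h1) | h1 <;> rcases h2 with (h2 | h2) | h2 <;>
    rcases h3 with (h3 | h3) | h3 <;> rcases h4 with (h4 | h4) | h4 <;> grind

lemma two_kill {c : ℂ → ZMod 2} (W : Finset ℂ) (hW : 8 ≤ W.card) (g1 g2 : ℂ → ℂ) {w1 w2 : ℂ}
    (m1 : w1 ∈ W) (m2 : w2 ∈ W) (n1 : g1 w1 ≠ w1) (n2 : g2 w2 ≠ w2) (a1 : w2 ≠ w1)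
    (a2 : w2 ≠ g1 w1)
    (H : ∀ f : ℂ → ZMod 2, (∀ z, z ∉ W → f z = c z) →
      (∃ l b : ℂ, ‖l‖ = 1 ∧ (l ≠ 1 ∨ b ≠ 0) ∧ ∀ z, f (l * z + b) = f z) ∨
        (∀ z, f (g1 z) = f z) ∨ ∀ z, f (g2 z) = f z) : False := by
  classical
  obtain ⟨c1, hc1, k1⟩ := kill c W m1 n1
  obtain ⟨c2, hc2, k2⟩ := kill c1 (W \ {w1, g1 w1}) (w := w2) (by simp [m2, a1, a2]) n2
  set V := (W \ {w1, g1 w1}) \ {w2, g2 w2} with hV
  have hcard : (4 : ℕ∞) ≤ (V : Set ℂ).encard := by
    rw [Set.encard_coe_eq_coe_finsetCard]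
    have e1 := Finset.le_card_sdiff {w1, g1 w1} W
    have e2 := Finset.le_card_sdiff {w2, g2 w2} (W \ {w1, g1 w1})
    have e3 := Finset.card_le_two (a := w1) (b := g1 w1)
    have e4 := Finset.card_le_two (a := w2) (b := g2 w2)
    exact_mod_cast (show 4 ≤ V.card by rw [hV]; omega)
  obtain ⟨x1, x2, x3, x4, y1, y2, y3, y4, h12, h13, h14, h23, h24, h34⟩ := four_of_encard hcard
  refine se2_core (c := c2) V.finite_toSet y1 y2 y3 y4 h12 h13 h14 h23 h24 h34 fun f hf => ?_
  have hf1 : ∀ z, z ∉ W \ {w1, g1 w1} → f z = c1 z := fun z hz =>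
    (hf z fun h => hz (Finset.mem_sdiff.mp h).1).trans (hc2 z hz)
  rcases H f (fun z hz => (hf1 z fun h => hz (Finset.mem_sdiff.mp h).1).trans (hc1 z hz)) with
    h | h | h
  · exact h
  · exact absurd (h w1) (k1 (↑(W \ {w1, g1 w1})) (by simp) (by simp) f hf1)
  · exact absurd (h w2) (k2 V (by simp [hV]) (by simp [hV]) f hf)

lemma alm_ref_comp {c : ℂ → ZMod 2} {l b l' b' : ℂ} (hl' : ‖l'‖ = 1)
    (h : Alm c (fun z => l * cj z + b)) (h' : Alm c (fun z => l' * cj z + b')) :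
    Alm c (fun z => l * cj l' * z + (l * cj b' + b)) := by
  have := h.comp h' (refP l' b' (ne_zero_of_norm hl')).injective
  convert this using 2 with z
  simp only [map_add, map_mul, cj_cj]; ring

theorem e2_core {c : ℂ → ZMod 2} (W : Finset ℂ) (hW : 10 ≤ W.card)
    (NC : ∀ l b : ℂ, ‖l‖ = 1 → ∃ w ∈ W, l * cj w + b ≠ w)
    (H : ∀ f : ℂ → ZMod 2, (∀ z, z ∉ W → f z = c z) → SymE (fun _ _ => True) f) : False := by
  classical
  have AR : ∀ {f : ℂ → ZMod 2} {l b : ℂ}, (∀ z, z ∉ W → f z = c z) → ‖l‖ = 1 →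
      (∀ z, f (l * z + b) = f z) → Alm c (fun z => l * z + b) := fun hf hl h =>
    alm_of_inv W.finite_toSet (rotP _ _ (ne_zero_of_norm hl)).injective hf h
  have AF : ∀ {f : ℂ → ZMod 2} {l b : ℂ}, (∀ z, z ∉ W → f z = c z) → ‖l‖ = 1 →
      (∀ z, f (l * cj z + b) = f z) → Alm c (fun z => l * cj z + b) := fun hf hl h =>
    alm_of_inv W.finite_toSet (refP _ _ (ne_zero_of_norm hl)).injective hf h
  by_cases hC : ∃ τ σ, Alm c (fun z => z + τ) ∧ Alm c (fun z => z + σ) ∧
      (σ * (starRingEnd ℂ) τ).im ≠ 0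
  · obtain ⟨τ, σ, hτ, hσ, hind⟩ := hC
    have hτ0 : τ ≠ 0 := by rintro rfl; simp at hind
    obtain ⟨d, hd, hinv⟩ := exists_star hτ hσ hind
    refine caseC_E (c := fun z => c z + d z) ?_ W hW NC fun f hf => ?_
    · filter_upwards [hd] with z hz
      rw [hz, zmod2_add_self]
    · have hf' : ∀ z, z ∉ W → f z + d z = c z := fun z hz => by
        rw [hf z hz, add_assoc, zmod2_add_self, add_zero]
      obtain ⟨l, t, hl, ⟨hne, h⟩ | ⟨-, h⟩⟩ := H _ hf'
      · refine ⟨l, t, hl, Or.inl ⟨hne, fun z => ?_⟩⟩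
        have e := star_inv hτ0 hτ hd hinv (rotP l t (ne_zero_of_norm hl)) (AR hf' hl h)
          (t' := l * τ) (fun z => by simp; ring) z
        have := h z
        rw [rotP_apply] at e
        simp only [e] at this
        exact add_right_cancel this
      · refine ⟨l, t, hl, Or.inr ⟨trivial, fun z => ?_⟩⟩
        have e := star_inv hτ0 hτ hd hinv (refP l t (ne_zero_of_norm hl)) (AF hf' hl h)
          (t' := l * cj τ) (fun z => by simp; ring) z
        have := h z
        rw [refP_apply] at e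
        simp only [e] at this
        exact add_right_cancel this
  push Not at hC
  by_cases hL : ∀ l b : ℂ, ‖l‖ = 1 → Alm c (fun z => l * z + b) → l = 1 ∨ l = -1
  swap
  · push Not at hL
    obtain ⟨α, b0, hα, a1, h1, h2⟩ := hL
    have hα0 := ne_zero_of_norm hα
    have hT : ∀ τ, Alm c (fun z => z + τ) → τ = 0 := by
      intro τ hτ
      have := hC τ (α * τ) hτ (Alm.conj (rotP α b0 hα0) a1 hτ (fun z => by simp; ring))
      rw [mul_assoc, mul_conj] at this
      simpa [im_ne_zero hα h1 h2] using this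
    obtain ⟨p, hp⟩ : ∃ p, α * p + b0 = p :=
      ⟨b0 / (1 - α), by have : 1 - α ≠ 0 := sub_ne_zero.mpr (Ne.symm h1); field_simp; ring⟩
    obtain ⟨l, b, hl, h⟩ := cenA_p (p := p) hα h1 h2 (shift_alm a1 hp) W (by omega)
      (fun f hf => sym0_of (H f hf)
        (fun l b hl h => comm_center hT hα0 (ne_zero_of_norm hl) a1 (AR hf hl h) h1 hp)
        (fun l b hl h => by
          have g := AF hf hl h
          have hll := mul_cj hl
          have e1 : l * cj b + b = 0 := hT _ (by simpa [hll] using alm_ref_comp hl g g)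
          have g2 : Alm c (fun z => (α * l) * cj z + (α * b + b0)) := by
            convert a1.comp g (refP l b (ne_zero_of_norm hl)).injective using 2 with z
            ring
          have g3 := alm_ref_comp (by simp [hα, hl]) g g2
          have e2 := congrArg cj (comm_center hT hα0 (by
            simp [ne_zero_of_norm hl, cj_ne hα0, cj_ne (ne_zero_of_norm hl)]) a1 g3 h1 hp)
          have e3 := congrArg cj e1
          simp only [map_add, map_mul, cj_cj, map_zero] at e2 e3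
          have : (α - 1) * (l * cj p + b - p) = 0 := by
            linear_combination l * e2 - l * e3 - hp - (α * l * cj p + α * b + b0 - b) * hll
          exact sub_eq_zero.mp ((mul_eq_zero.mp this).resolve_left (sub_ne_zero.mpr h1))))
    obtain ⟨w, hw, hne⟩ := NC l b hl
    exact hne (h w hw)
  by_cases hT : ∀ τ, Alm c (fun z => z + τ) → τ = 0
  · have uniq : ∀ l : ℂ, ‖l‖ = 1 → ∃ b0, ∀ b, Alm c (fun z => l * cj z + b) → b = b0 := by
      intro l hl
      by_cases h : ∃ b0, Alm c (fun z => l * cj z + b0)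
      · obtain ⟨b0, h0⟩ := h
        refine ⟨b0, fun b hb => ?_⟩
        have e1 : l * cj b0 + b0 = 0 := hT _ (by simpa [mul_cj hl] using alm_ref_comp hl h0 h0)
        have e2 : l * cj b0 + b = 0 := hT _ (by simpa [mul_cj hl] using alm_ref_comp hl hb h0)
        linear_combination e2 - e1
      · exact ⟨0, fun b hb => absurd ⟨b, hb⟩ h⟩
    obtain ⟨l0, hl0, hl⟩ : ∃ l0 : ℂ, ‖l0‖ = 1 ∧ ∀ l b : ℂ, ‖l‖ = 1 →
        Alm c (fun z => l * cj z + b) → l = l0 ∨ l = -l0 := by
      by_cases h : ∃ l0 b0 : ℂ, ‖l0‖ = 1 ∧ Alm c (fun z => l0 * cj z + b0)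
      · obtain ⟨l0, b0, hl0, h0⟩ := h
        refine ⟨l0, hl0, fun l b hl hb => ?_⟩
        have hll := mul_cj hl0
        rcases hL _ _ (by simp [hl, hl0, norm_cj]) (alm_ref_comp hl0 hb h0) with e | e
        · left; linear_combination l0 * e - l * hll
        · right; linear_combination l0 * e - l * hll
      · exact ⟨1, by simp, fun l b hl hb => absurd ⟨l, b, hl, hb⟩ h⟩
    obtain ⟨b1, hb1⟩ := uniq l0 hl0
    obtain ⟨b2, hb2⟩ := uniq (-l0) (by simpa using hl0)
    have H' : ∀ f : ℂ → ZMod 2, (∀ z, z ∉ W → f z = c z) →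
        (∃ l b : ℂ, ‖l‖ = 1 ∧ (l ≠ 1 ∨ b ≠ 0) ∧ ∀ z, f (l * z + b) = f z) ∨
          (∀ z, f (l0 * cj z + b1) = f z) ∨ ∀ z, f (-l0 * cj z + b2) = f z := by
      intro f hf
      obtain ⟨l, b, hl', h | ⟨-, h⟩⟩ := H f hf
      · exact Or.inl ⟨l, b, hl', h⟩
      · have g := AF hf hl' h
        rcases hl l b hl' g with rfl | rfl
        · rw [← hb1 b g]; exact Or.inr (Or.inl h)
        · rw [← hb2 b g]; exact Or.inr (Or.inr h)
    obtain ⟨w1, m1, n1⟩ := NC l0 b1 hl0
    by_cases hw : ∃ w2 ∈ W \ {w1, l0 * cj w1 + b1}, -l0 * cj w2 + b2 ≠ w2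
    · obtain ⟨w2, m2, n2⟩ := hw
      simp only [Finset.mem_sdiff, Finset.mem_insert, Finset.mem_singleton, not_or] at m2
      exact two_kill W (by omega) (fun z => l0 * cj z + b1) (fun z => -l0 * cj z + b2) m1 m2.1 n1
        n2 m2.2.1 m2.2.2 H'
    · push Not at hw
      obtain ⟨u, mu, nu⟩ := NC (-l0) b2 (by simpa using hl0)
      obtain ⟨v, mv, nv⟩ : ∃ v ∈ W, v ∉ insert ((b1 + b2) / 2)
          ({w1, l0 * cj w1 + b1, u, -l0 * cj u + b2} : Finset ℂ) :=
        Finset.exists_mem_notMem_of_card_lt_card (lt_of_le_of_lt ((Finset.card_insert_le _ _).trans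
          (Nat.succ_le_succ Finset.card_le_four)) (by omega))
      simp only [Finset.mem_insert, Finset.mem_singleton, not_or] at nv
      have := hw v (by simp [mv, nv.2.1, nv.2.2.1])
      exact two_kill W (by omega) (fun z => -l0 * cj z + b2) (fun z => l0 * cj z + b1) mu mv nu
        (fun h => nv.1 (by linear_combination -(h + this) / 2)) nv.2.2.2.1 nv.2.2.2.2
        (fun f hf => (H' f hf).imp_right Or.symm)
  push Not at hT
  obtain ⟨τ, hτ, hτ0⟩ := hT
  have cτ := cj_ne hτ0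
  obtain ⟨η, hη⟩ : ∃ η, η = τ / cj τ := ⟨_, rfl⟩
  have hη1 : ‖η‖ = 1 := by rw [hη, norm_div, norm_cj, div_self (norm_ne_zero_iff.mpr hτ0)]
  have hη2 : η * cj τ = τ := by rw [hη]; field_simp
  have hη3 : cj η * τ = cj τ := by simpa [cj_cj] using congrArg cj hη2
  have par : ∀ t, Alm c (fun z => z + t) → t * cj τ = cj t * τ := by
    intro t ht
    have := conj_eq_iff_im.mpr (hC τ t hτ ht)
    simp only [map_mul, conj_conj] at this
    exact this.symm
  have pm : ∀ l b : ℂ, ‖l‖ = 1 → Alm c (fun z => l * cj z + b) → l = η ∨ l = -η := by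
    intro l b hl h
    have := par (l * cj τ) (Alm.conj (refP l b (ne_zero_of_norm hl)) h hτ (fun z => by simp; ring))
    simp only [map_mul, cj_cj] at this
    have e : cj τ ^ 2 * ((l - η) * (l + η)) = 0 := by
      linear_combination l * this + τ ^ 2 * mul_cj hl - (η * cj τ + τ) * hη2
    rcases mul_eq_zero.mp ((mul_eq_zero.mp e).resolve_left (pow_ne_zero 2 cτ)) with e | e
    · left; linear_combination e
    · right; linear_combination e
  obtain ⟨b0, hb0, hb⟩ : ∃ b0, η * cj b0 + b0 = 0 ∧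
      ∀ b, Alm c (fun z => η * cj z + b) → η * cj b + b = 0 → b = b0 := by
    by_cases h : ∃ b0, Alm c (fun z => η * cj z + b0) ∧ η * cj b0 + b0 = 0
    · obtain ⟨b0, h0, h1⟩ := h
      refine ⟨b0, h1, fun b hb hb' => ?_⟩
      have := par (η * cj b0 + b) (by simpa [mul_cj hη1] using alm_ref_comp hη1 hb h0)
      rw [show η * cj b0 + b = b - b0 by linear_combination h1, map_sub] at this
      have e : 2 * cj τ * (b - b0) = 0 := by
        linear_combination this + cj τ * (hb' - h1) - (cj b - cj b0) * hη2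
      exact sub_eq_zero.mp ((mul_eq_zero.mp e).resolve_left (mul_ne_zero two_ne_zero cτ))
    · exact ⟨0, by simp, fun b h1 h2 => absurd ⟨b, h1, h2⟩ h⟩
  set φ : ℂ → ℂ := fun z => z * cj τ + cj z * τ with hφ
  have step : ∀ w ∈ W, η * cj w + b0 ≠ w → ∀ u ∈ W \ {w, η * cj w + b0},
      ∀ v ∈ W \ {w, η * cj w + b0}, φ u = φ v := by
    intro w hw hne
    obtain ⟨c1, hc1, k1⟩ := kill c W hw hne
    have e1 := Finset.le_card_sdiff {w, η * cj w + b0} W
    have e3 := Finset.card_le_two (a := w) (b := η * cj w + b0)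
    refine ap_const φ _ (by omega) fun x hx y hy u hu hxy hxu hyu => ?_
    have hτ1 : Alm c1 (fun z => z + τ) := hτ.congr (add_left_injective τ) (by
      filter_upwards [W.finite_toSet.compl_mem_cofinite] with z hz using hc1 z hz)
    refine caseB (κ := 2 * (τ * cj τ)) (mul_ne_zero two_ne_zero (mul_ne_zero hτ0 cτ)) φ
      (fun z => by simp only [hφ, map_add]; ring) hτ1 hxy hxu hyu fun f hf => ?_
    have hf1 : ∀ z, z ∉ W \ {w, η * cj w + b0} → f z = c1 z := fun z hz =>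
      hf z (by rintro (rfl | rfl | rfl) <;> contradiction)
    have hf' : ∀ z, z ∉ W → f z = c z := fun z hz =>
      (hf1 z fun h => hz (Finset.mem_sdiff.mp h).1).trans (hc1 z hz)
    obtain ⟨l, b, hl, ⟨h0, h⟩ | ⟨-, h⟩⟩ := H f hf'
    · rcases hL l b hl (AR hf' hl h) with rfl | rfl
      · exact Or.inl ⟨b, h0.resolve_left (by simp), by simpa using h⟩
      · exact Or.inr ⟨rotP (-1) b (by simp), φ b, h, fun z => by simp; ring,
          fun z => by simp [hφ]; ring⟩
    · have g := AF hf' hl h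
      rcases pm l b hl g with rfl | rfl
      · by_cases e : l * cj b + b = 0
        · rw [hb b g e] at h
          exact absurd (h w) (k1 (↑(W \ {w, l * cj w + b0})) (by simp) (by simp) f hf1)
        · refine Or.inl ⟨_, e, fun z => ?_⟩
          rw [← h z, ← h (l * cj z + b)]
          congr 1
          simp only [map_add, map_mul, cj_cj]
          linear_combination -z * mul_cj hl
      · refine Or.inr ⟨refP (-η) b (ne_zero_of_norm hl), φ b, h, fun z => ?_, fun z => ?_⟩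
        · simp only [refP_apply, map_add]; linear_combination -hη2
        · simp only [refP_apply, hφ, map_add, map_mul, map_neg, cj_cj]
          linear_combination -cj z * hη2 - z * hη3
  obtain ⟨w0, m0, n0⟩ := NC η b0 hη1
  have e1 := Finset.le_card_sdiff {w0, η * cj w0 + b0} W
  have e3 := Finset.card_le_two (a := w0) (b := η * cj w0 + b0)
  obtain ⟨x, hx⟩ := Finset.card_pos.mp (show 0 < (W \ {w0, η * cj w0 + b0}).card by omega)
  obtain ⟨u, mu, nu⟩ := NC (-η) (φ x / cj τ) (by simpa using hη1)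
  have fx : ∀ z, φ z = φ x → -η * cj z + φ x / cj τ = z := by
    intro z hz
    rw [← hz]; simp only [hφ]; field_simp; linear_combination -cj z * hη2
  obtain ⟨w1, m1, n1⟩ := Finset.exists_mem_ne (s := W \ {w0, η * cj w0 + b0}) (by omega)
    ((b0 + φ x / cj τ) / 2)
  have p1 := step w0 m0 n0 w1 m1 x hx
  have q1 : η * cj w1 + b0 ≠ w1 := fun h => n1 (by linear_combination -(h + fx w1 p1) / 2)
  obtain ⟨v, mv, nv⟩ : ∃ v ∈ W, v ∉ ({w0, η * cj w0 + b0, w1, η * cj w1 + b0} : Finset ℂ) :=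
    Finset.exists_mem_notMem_of_card_lt_card (lt_of_le_of_lt Finset.card_le_four (by omega))
  simp only [Finset.mem_insert, Finset.mem_singleton, not_or] at nv
  have p2 := step w0 m0 n0 v (by simp [mv, nv.1, nv.2.1]) x hx
  have nu' : φ u ≠ φ x := fun h => nu (fx u h)
  have p3 : φ (η * cj w1 + b0) = φ x := by
    rw [← p1]; simp only [hφ, map_add, map_mul, cj_cj]
    linear_combination cj w1 * hη2 + w1 * hη3 + cj τ * hb0 - cj b0 * hη2
  refine nu' ((step w1 (Finset.mem_sdiff.mp m1).1 q1 u ?_ v (by simp [mv, nv.2.2.1, nv.2.2.2])).trans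
    p2)
  simp only [Finset.mem_sdiff, Finset.mem_insert, Finset.mem_singleton, not_or]
  exact ⟨mu, by rintro rfl; exact nu' p1, by rintro rfl; exact nu' p3⟩

/-- `E(2)`: all isometries of the Euclidean plane `ℂ`. -/
def E2 : Subgroup (Equiv.Perm ℂ) where
  carrier := {γ | Isometry γ}
  one_mem' := isometry_id
  mul_mem' := fun {a b} h h' => Isometry.comp (f := b) (g := a) h h'
  inv_mem' := by
    intro γ h
    refine Isometry.of_dist_eq fun x y => ?_
    rw [← Isometry.dist_eq h]; simp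

lemma e2_form {γ : Equiv.Perm ℂ} (h : γ ∈ E2) :
    ∃ l b : ℂ, ‖l‖ = 1 ∧ ((∀ z, γ z = l * z + b) ∨ ∀ z, γ z = l * cj z + b) := by
  let e : ℂ ≃ᵢ ℂ := ⟨γ, h⟩
  obtain ⟨a, ha⟩ := linear_isometry_complex e.toRealLinearIsometryEquiv
  have key : ∀ z, γ z = e.toRealLinearIsometryEquiv z + γ 0 := by
    intro z
    rw [IsometryEquiv.toRealLinearIsometryEquiv_apply]
    simp [e]
  refine ⟨a, γ 0, by simp, ?_⟩
  rcases ha with ha | ha
  · left; intro z; rw [key z, ha]; simp
  · right; intro z; rw [key z, ha]; simp [cj]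

lemma ref_mem {l : ℂ} (b : ℂ) (hl : ‖l‖ = 1) : refP l b (ne_zero_of_norm hl) ∈ E2 :=
  Isometry.of_dist_eq (ref_dist b hl)

lemma ref_ne {l : ℂ} (b : ℂ) (hl : ‖l‖ = 1) : refP l b (ne_zero_of_norm hl) ≠ 1 := by
  intro h
  have h0 := congrArg (fun γ : Equiv.Perm ℂ => γ 0) h
  have h1 := congrArg (fun γ : Equiv.Perm ℂ => γ 1) h
  have h2 := congrArg (fun γ : Equiv.Perm ℂ => γ Complex.I) h
  simp only [refP_apply, Equiv.Perm.coe_one, id, map_zero, map_one] at h0 h1 h2
  rw [show cj Complex.I = -Complex.I by simp [cj]] at h2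
  have : 2 * Complex.I = 0 := by linear_combination (-Complex.I) * h1 + (1 + Complex.I) * h0 - h2
  simp at this

theorem e2_pk {W : Set ℂ} (hA : Admissible E2 W) (h : (10 : ℕ∞) ≤ W.encard) : Pk E2 2 W := by
  classical
  rw [pk_two_iff]
  intro c hc
  obtain ⟨T, hT, hh⟩ := Set.exists_subset_encard_eq h
  have hfin : T.Finite := Set.finite_of_encard_eq_coe hh
  lift T to Finset ℂ using hfin
  rw [Set.encard_coe_eq_coe_finsetCard] at hh
  have hcard : T.card = 10 := by exact_mod_cast hh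
  obtain ⟨V, hV, hVc, NC⟩ : ∃ V : Finset ℂ, (V : Set ℂ) ⊆ W ∧ 10 ≤ V.card ∧
      ∀ l b : ℂ, ‖l‖ = 1 → ∃ w ∈ V, l * cj w + b ≠ w := by
    by_cases hN : ∀ l b : ℂ, ‖l‖ = 1 → ∃ w ∈ T, l * cj w + b ≠ w
    · exact ⟨T, hT, hcard.ge, hN⟩
    push Not at hN
    obtain ⟨l0, b0, hl0, h0⟩ := hN
    obtain ⟨w, hw, hne⟩ : ∃ w ∈ W, l0 * cj w + b0 ≠ w := by
      by_contra hh
      push Not at hh
      exact ref_ne b0 hl0 (hA _ (ref_mem b0 hl0) hh)
    refine ⟨insert w T, by simpa [Set.insert_subset_iff] using ⟨hw, hT⟩,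
      hcard.ge.trans (Finset.card_le_card (Finset.subset_insert _ _)), fun l b hl => ?_⟩
    by_contra hh
    push Not at hh
    obtain ⟨x, y, hx, hy, hxy⟩ := Finset.one_lt_card_iff.mp (show 1 < T.card by omega)
    have a1 := hh x (by simp [hx])
    have a2 := hh y (by simp [hy])
    have e : (l - l0) * cj (x - y) = 0 := by
      rw [map_sub]; linear_combination a1 - a2 - h0 x hx + h0 y hy
    have e1 := sub_eq_zero.mp ((mul_eq_zero.mp e).resolve_right (cj_ne (sub_ne_zero.mpr hxy)))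
    subst e1
    have e2 : b = b0 := by linear_combination a1 - h0 x hx
    subst e2
    exact hne (hh w (by simp))
  have hc' := Hyp.mono E2 hc hV (fun _ _ => rfl)
  refine e2_core (c := c) V hVc NC fun f hf => ?_
  obtain ⟨γ, hγ, hne, hinv⟩ := hc' f hf
  obtain ⟨l, b, hl, hγ | hγ⟩ := e2_form hγ
  · refine ⟨l, b, hl, Or.inl ⟨?_, fun z => by rw [← hγ, hinv]⟩⟩
    by_contra hh
    push Not at hh
    apply hne
    ext1 z
    rw [hγ, hh.1, hh.2]; simp
  · exact ⟨l, b, hl, Or.inr ⟨trivial, fun z => by rw [← hγ, hinv]⟩⟩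

lemma e2_distNum : distNum E2 = 2 :=
  distNum_eq_two E2 ⟨_, ref_mem 0 norm_one, ref_ne 0 norm_one⟩
    (e2_pk (fun γ _ h => Equiv.ext fun z => h z trivial) (by simp))

theorem e2_ext : ext E2 ≤ 10 := by
  refine iInf₂_le_of_le 10 (fun W hA h => ?_) (by simp)
  unfold P; rw [e2_distNum]; exact e2_pk hA (by simpa using h)

end Pool.Agent.H6.Ext
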