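import Pool.Agent.H6.ExtCore

/-! Moment identities for symmetric finite configurations. -/

namespace Pool.Agent.H6.Ext

open Filter Complex

noncomputable def val (a : ZMod 2) : ℂ := if a = 0 then 0 else 1

@[simp] lemma val_zero : val 0 = 0 := by simp [val]
@[simp] lemma val_one : val 1 = 1 := by simp [val]
lemma val_eq_zero {a : ZMod 2} : val a = 0 ↔ a = 0 := by
  unfold val; split_ifs with h <;> simp [h]

noncomputable def I (p : ℂ → ℂ) : (ℂ →₀ ℂ) →ₗ[ℂ] ℂ := Finsupp.linearCombination ℂ p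

lemma I_apply (p : ℂ → ℂ) (δ : ℂ →₀ ℂ) : I p δ = ∑ z ∈ δ.support, δ z * p z := by
  simp [I, Finsupp.linearCombination_apply, Finsupp.sum]

@[simp] lemma I_single (p : ℂ → ℂ) (w a : ℂ) : I p (Finsupp.single w a) = a * p w := by
  simp [I]

lemma I_inv (p : ℂ → ℂ) (δ : ℂ →₀ ℂ) (g : Equiv.Perm ℂ) (e : ℂ) (he : e ≠ 0)
    (h : ∀ z, δ (g z) = e * δ z) : I p δ = e * I (fun z => p (g z)) δ := by
  rw [I_apply, I_apply, Finset.mul_sum]
  symm
  apply Finset.sum_equiv g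
  · intro z; simp [h, he]
  · intro z _; rw [h]; ring

lemma I_lin (δ : ℂ →₀ ℂ) (p p0 p1 p2 p3 p4 p5 : ℂ → ℂ) (a0 a1 a2 a3 a4 a5 : ℂ)
    (h : ∀ z, p z = a0 * p0 z + a1 * p1 z + a2 * p2 z + a3 * p3 z + a4 * p4 z + a5 * p5 z) :
    I p δ = a0 * I p0 δ + a1 * I p1 δ + a2 * I p2 δ + a3 * I p3 δ + a4 * I p4 δ
      + a5 * I p5 δ := by
  simp only [I_apply, Finset.mul_sum, ← Finset.sum_add_distrib]
  exact Finset.sum_congr rfl fun z _ => by rw [h]; ring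

lemma zero_of_transl (δ : ℂ →₀ ℂ) {t : ℂ} (ht : t ≠ 0) (h : ∀ z, δ (z + t) = δ z) : δ = 0 := by
  ext x
  have h1 : ∀ n : ℕ, δ (x + n * t) = δ x := by
    intro n
    induction n with
    | zero => simp
    | succ n ih => rw [← ih, ← h (x + n * t)]; congr 1; push_cast; ring
  have h2 : ∀ᶠ z in cofinite, δ z = 0 := by
    rw [eventually_cofinite]
    exact δ.support.finite_toSet.subset fun z hz => by simpa using hz
  obtain ⟨n, hn⟩ := ((ray_tendsto ht x).eventually h2).exists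
  rw [← h1 n, hn]; rfl

/-- cubic form for the one-dimensional case -/
def PhiB (m1 m2 m3 m4 : ℂ) : ℂ := m1 ^ 2 * m4 - 2 * m1 * m2 * m3 + m2 ^ 3

lemma phiB_of_anti (δ : ℂ →₀ ℂ) (φ : ℂ → ℂ) (g : Equiv.Perm ℂ) (b : ℂ)
    (h : ∀ z, δ (g z) = -δ z) (hφ : ∀ z, φ (g z) = 2 * b - φ z) :
    PhiB (I φ δ) (I (fun z => φ z ^ 2) δ) (I (fun z => φ z ^ 3) δ) (I (fun z => φ z ^ 4) δ)
      = 0 := by
  have key : ∀ j : ℕ, I (fun z => ((φ z - b) ^ 2) ^ j) δ = 0 := by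
    intro j
    have := I_inv (fun z => ((φ z - b) ^ 2) ^ j) δ g (-1) (by norm_num) (by simpa using h)
    have e : (fun z => ((φ (g z) - b) ^ 2) ^ j) = fun z => ((φ z - b) ^ 2) ^ j := by
      funext z; rw [hφ]; congr 1; ring
    simp only [e] at this
    linear_combination this / 2
  have k0 := key 0
  have k1 := key 1
  have k2 := key 2
  simp only [pow_zero] at k0
  rw [I_lin δ _ (fun _ => 1) φ (fun z => φ z ^ 2) (fun z => φ z ^ 3) (fun z => φ z ^ 4) φ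
    (b ^ 2) (-2 * b) 1 0 0 0 (fun z => by ring)] at k1
  rw [I_lin δ _ (fun _ => 1) φ (fun z => φ z ^ 2) (fun z => φ z ^ 3) (fun z => φ z ^ 4) φ
    (b ^ 4) (-4 * b ^ 3) (6 * b ^ 2) (-4 * b) 1 0 (fun z => by ring)] at k2
  rw [k0] at k1 k2
  set m1 := I φ δ
  set m2 := I (fun z => φ z ^ 2) δ
  set m3 := I (fun z => φ z ^ 3) δ
  set m4 := I (fun z => φ z ^ 4) δ
  have e2 : m2 = 2 * b * m1 := by linear_combination k1
  have e4 : m4 = 4 * b * m3 - 8 * b ^ 3 * m1 := by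
    rw [e2] at k2; linear_combination k2
  unfold PhiB
  rw [e2, e4]; ring

/-- recolouring three points -/
noncomputable def upd3 (c : ℂ → ZMod 2) (w1 w2 w3 : ℂ) (a1 a2 a3 : ZMod 2) : ℂ → ZMod 2 :=
  fun z => if z = w1 then a1 else if z = w2 then a2 else if z = w3 then a3 else c z

lemma upd3_out (c : ℂ → ZMod 2) (w1 w2 w3 : ℂ) (a1 a2 a3 : ZMod 2) (z : ℂ)
    (h : z ∉ ({w1, w2, w3} : Set ℂ)) : upd3 c w1 w2 w3 a1 a2 a3 z = c z := by
  simp only [Set.mem_insert_iff, Set.mem_singleton_iff, not_or] at h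
  simp [upd3, h.1, h.2.1, h.2.2]

lemma upd3_cof (c : ℂ → ZMod 2) (w1 w2 w3 : ℂ) (a1 a2 a3 : ZMod 2) :
    ∀ᶠ z in cofinite, upd3 c w1 w2 w3 a1 a2 a3 z = c z := by
  filter_upwards [(Set.toFinite ({w1, w2, w3} : Set ℂ)).compl_mem_cofinite] with z hz
  exact upd3_out c w1 w2 w3 a1 a2 a3 z hz

lemma val_upd3 (c : ℂ → ZMod 2) {w1 w2 w3 : ℂ} (h12 : w1 ≠ w2) (h13 : w1 ≠ w3) (h23 : w2 ≠ w3)
    (a1 a2 a3 : ZMod 2) (z : ℂ) :
    val (upd3 c w1 w2 w3 a1 a2 a3 z) = val (upd3 c w1 w2 w3 0 0 0 z) +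
      Finsupp.single w1 (val a1) z + Finsupp.single w2 (val a2) z
      + Finsupp.single w3 (val a3) z := by
  classical
  simp only [upd3, Finsupp.single_apply]
  by_cases h1 : z = w1
  · subst h1; simp [h12.symm, h13.symm]
  by_cases h2 : z = w2
  · subst h2; simp [h1, h12, h23.symm]
  by_cases h3 : z = w3
  · subst h3; simp [h1, h2, h13, h23]
  simp [h1, h2, h3, Ne.symm h1, Ne.symm h2, Ne.symm h3]

noncomputable def Dl (c : ℂ → ZMod 2) (τ : ℂ) (h : Alm c (fun z => z + τ)) : ℂ →₀ ℂ :=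
  Finsupp.ofSupportFinite (fun z => val (c (z + τ)) - val (c z)) (by
    refine (eventually_cofinite.mp h).subset fun z hz => ?_
    intro h'
    apply hz
    simp only at h' ⊢
    rw [h', sub_self])

lemma Dl_apply (c : ℂ → ZMod 2) (τ : ℂ) (h : Alm c (fun z => z + τ)) (z : ℂ) :
    Dl c τ h z = val (c (z + τ)) - val (c z) := rfl

/-- The one-dimensional case: three points must be in arithmetic progression. -/
lemma caseB {c : ℂ → ZMod 2} {τ κ : ℂ} (hκ : κ ≠ 0) (φ : ℂ → ℂ)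
    (hφ : ∀ z, φ (z + τ) = φ z + κ) (hτ : Alm c (fun z => z + τ)) {w1 w2 w3 : ℂ}
    (h12 : w1 ≠ w2) (h13 : w1 ≠ w3) (h23 : w2 ≠ w3)
    (hsym : ∀ f : ℂ → ZMod 2, (∀ z, z ∉ ({w1, w2, w3} : Set ℂ) → f z = c z) →
      (∃ t ≠ 0, ∀ z, f (z + t) = f z) ∨ ∃ (g : Equiv.Perm ℂ) (b : ℂ), (∀ z, f (g z) = f z) ∧
        (∀ z, g (z + τ) = g z - τ) ∧ ∀ z, φ (g z) = b - φ z) :
    (2 * φ w1 - φ w2 - φ w3) * (2 * φ w2 - φ w1 - φ w3) * (2 * φ w3 - φ w1 - φ w2) = 0 := by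
  have hA : ∀ a1 a2 a3, Alm (upd3 c w1 w2 w3 a1 a2 a3) (fun z => z + τ) := fun a1 a2 a3 =>
    hτ.congr (add_left_injective τ) (upd3_cof c w1 w2 w3 a1 a2 a3)
  have hs : ∀ (w a z : ℂ), Finsupp.single w a (z + τ) = Finsupp.single (w - τ) a z := by
    classical
    intro w a z
    simp only [Finsupp.single_apply, sub_eq_iff_eq_add]
  have hφ' : ∀ w, φ (w - τ) = φ w - κ := fun w => by
    have := hφ (w - τ); rw [sub_add_cancel] at this; rw [this]; ring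
  have hD : ∀ a1 a2 a3, Dl _ τ (hA a1 a2 a3) = Dl _ τ (hA 0 0 0) +
      (Finsupp.single (w1 - τ) (val a1) - Finsupp.single w1 (val a1)) +
      (Finsupp.single (w2 - τ) (val a2) - Finsupp.single w2 (val a2)) +
      (Finsupp.single (w3 - τ) (val a3) - Finsupp.single w3 (val a3)) := by
    intro a1 a2 a3
    ext z
    simp only [Finsupp.add_apply, Finsupp.sub_apply, Dl_apply, ← hs]
    rw [val_upd3 c h12 h13 h23 a1 a2 a3, val_upd3 c h12 h13 h23 a1 a2 a3 z]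
    ring
  have key : ∀ a1 a2 a3, PhiB (I φ (Dl _ τ (hA a1 a2 a3)))
      (I (fun z => φ z ^ 2) (Dl _ τ (hA a1 a2 a3))) (I (fun z => φ z ^ 3) (Dl _ τ (hA a1 a2 a3)))
      (I (fun z => φ z ^ 4) (Dl _ τ (hA a1 a2 a3))) = 0 := by
    intro a1 a2 a3
    rcases hsym _ (upd3_out c w1 w2 w3 a1 a2 a3) with ⟨t, ht, h⟩ | ⟨g, b, h1, h2, h3⟩
    · rw [zero_of_transl (Dl _ τ (hA a1 a2 a3)) ht fun z => by
        rw [Dl_apply, Dl_apply, h, add_right_comm, h]]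
      simp [PhiB]
    · refine phiB_of_anti _ φ (g.trans (Equiv.subRight τ)) ((b - κ) / 2) (fun z => ?_)
        (fun z => ?_)
      · simp only [Equiv.trans_apply, Equiv.subRight_apply, Dl_apply, sub_add_cancel]
        rw [← h2, h1, h1]; ring
      · simp only [Equiv.trans_apply, Equiv.subRight_apply]
        rw [hφ', h3]; ring
  have k1 := key 0 0 0
  have k2 := key 1 0 0
  have k3 := key 0 1 0
  have k4 := key 0 0 1
  have k5 := key 1 1 0
  have k6 := key 1 0 1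
  have k7 := key 0 1 1
  have k8 := key 1 1 1
  rw [hD] at k2 k3 k4 k5 k6 k7 k8
  simp only [map_add, map_sub, I_single, val_zero, val_one, hφ', PhiB] at k1 k2 k3 k4 k5 k6 k7 k8
  have : κ ^ 3 * ((2 * φ w1 - φ w2 - φ w3) * (2 * φ w2 - φ w1 - φ w3) *
      (2 * φ w3 - φ w1 - φ w2)) = 0 := by
    linear_combination (k1 - k2 - k3 - k4 + k5 + k6 + k7 - k8) / 4
  simpa [hκ] using this


def PhiC (n m10 m01 m11 m20 m21 : ℂ) : ℂ :=
  n ^ 2 * m21 - 2 * n * m10 * m11 - n * m01 * m20 + 2 * m10 ^ 2 * m01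

/-- equilateral or arithmetic progression -/
def EE (a b c : ℂ) : ℂ := (2 * a - b - c) * (2 * b - a - c) * (2 * c - a - b) *
  (a ^ 2 + b ^ 2 + c ^ 2 - a * b - a * c - b * c)

noncomputable def cj : ℂ →+* ℂ := starRingEnd ℂ

lemma cj_cj (z : ℂ) : cj (cj z) = z := by simp [cj]

lemma mul_cj {l : ℂ} (hl : ‖l‖ = 1) : l * cj l = 1 := by
  simp [cj, mul_conj, normSq_eq_norm_sq, hl]

/-- the affine map `z ↦ l z + b` as a permutation -/
noncomputable def rotP (l b : ℂ) (hl : l ≠ 0) : Equiv.Perm ℂ :=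
  (Equiv.mulLeft₀ l hl).trans (Equiv.addRight b)

@[simp] lemma rotP_apply (l b : ℂ) (hl : l ≠ 0) (z : ℂ) : rotP l b hl z = l * z + b := rfl

lemma phiC_of_rot (δ : ℂ →₀ ℂ) (l b : ℂ) (hl : ‖l‖ = 1) (hne : l ≠ 1 ∨ b ≠ 0)
    (h : ∀ z, δ (l * z + b) = δ z) :
    PhiC (I (fun _ => 1) δ) (I (fun z => z) δ) (I cj δ) (I (fun z => z * cj z) δ)
      (I (fun z => z ^ 2) δ) (I (fun z => z ^ 2 * cj z) δ) = 0 := by
  by_cases h1 : l = 1
  · subst h1
    rw [zero_of_transl δ (hne.resolve_left (by simp)) (by simpa using h)]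
    simp [PhiC]
  have hl0 : l ≠ 0 := by rintro rfl; simp at hl
  have hll := mul_cj hl
  have h1' : cj l ≠ 1 := by
    intro h; rw [h, mul_one] at hll; exact h1 hll
  obtain ⟨a, ha⟩ : ∃ a, b = a - l * a :=
    ⟨b / (1 - l), by have : 1 - l ≠ 0 := sub_ne_zero.mpr (Ne.symm h1); field_simp⟩
  have key : ∀ (p : ℂ → ℂ) (e : ℂ), e ≠ 1 → (∀ z, p (l * z + b) = e * p z) → I p δ = 0 := by
    intro p e he hp
    have := I_inv p δ (rotP l b hl0) 1 one_ne_zero (by simpa using h)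
    simp only [rotP_apply, one_mul] at this
    rw [I_lin δ (fun z => p (l * z + b)) p p p p p p e 0 0 0 0 0 (fun z => by rw [hp]; ring)]
      at this
    have h2 : (1 - e) * I p δ = 0 := by linear_combination this
    exact (mul_eq_zero.mp h2).resolve_left (sub_ne_zero.mpr (Ne.symm he))
  have k1 := key (fun z => z - a) l h1 (fun z => by rw [ha]; ring)
  have k2 := key (fun z => cj (z - a)) (cj l) h1' (fun z => by
    rw [← map_mul]; congr 1; rw [ha]; ring)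
  have k3 := key (fun z => (z - a) ^ 2 * cj (z - a)) l h1 (fun z => by
    have : l * z + b - a = l * (z - a) := by rw [ha]; ring
    simp only [this, map_mul]
    linear_combination (l * (z - a) ^ 2 * cj (z - a)) * hll)
  rw [I_lin δ _ (fun _ => 1) (fun z => z) cj (fun z => z * cj z) (fun z => z ^ 2)
    (fun z => z ^ 2 * cj z) (-a) 1 0 0 0 0 (fun z => by ring)] at k1
  rw [I_lin δ _ (fun _ => 1) (fun z => z) cj (fun z => z * cj z) (fun z => z ^ 2)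
    (fun z => z ^ 2 * cj z) (-cj a) 0 1 0 0 0 (fun z => by rw [map_sub]; ring)] at k2
  rw [I_lin δ _ (fun _ => 1) (fun z => z) cj (fun z => z * cj z) (fun z => z ^ 2)
    (fun z => z ^ 2 * cj z) (-a ^ 2 * cj a) (2 * a * cj a) (a ^ 2) (-2 * a) (-cj a) 1
    (fun z => by rw [map_sub]; ring)] at k3
  set n := I (fun _ => 1) δ
  set m10 := I (fun z => z) δ
  set m01 := I cj δ
  have e1 : m10 = a * n := by linear_combination k1
  have e2 : m01 = cj a * n := by linear_combination k2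
  unfold PhiC
  rw [e1, e2] at k3 ⊢
  linear_combination n ^ 2 * k3

noncomputable def Fs (c : ℂ → ZMod 2) (h : ∀ᶠ z in cofinite, c z = 0) : ℂ →₀ ℂ :=
  Finsupp.ofSupportFinite (fun z => val (c z)) (by
    refine (eventually_cofinite.mp h).subset fun z hz => ?_
    intro h'
    apply hz
    simp only at h' ⊢
    rw [h', val_zero])

lemma Fs_apply (c : ℂ → ZMod 2) (h : ∀ᶠ z in cofinite, c z = 0) (z : ℂ) :
    Fs c h z = val (c z) := rfl

lemma caseC {c : ℂ → ZMod 2} (hc : ∀ᶠ z in cofinite, c z = 0) {w1 w2 w3 : ℂ}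
    (h12 : w1 ≠ w2) (h13 : w1 ≠ w3) (h23 : w2 ≠ w3)
    (hsym : ∀ f : ℂ → ZMod 2, (∀ z, z ∉ ({w1, w2, w3} : Set ℂ) → f z = c z) →
      ∃ l b : ℂ, ‖l‖ = 1 ∧ (l ≠ 1 ∨ b ≠ 0) ∧ ∀ z, f (l * z + b) = f z) :
    EE w1 w2 w3 = 0 := by
  have hA : ∀ a1 a2 a3, ∀ᶠ z in cofinite, upd3 c w1 w2 w3 a1 a2 a3 z = 0 := fun a1 a2 a3 => by
    filter_upwards [hc, upd3_cof c w1 w2 w3 a1 a2 a3] with z h1 h2 using h2.trans h1
  have hD : ∀ a1 a2 a3, Fs _ (hA a1 a2 a3) = Fs _ (hA 0 0 0) + Finsupp.single w1 (val a1) +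
      Finsupp.single w2 (val a2) + Finsupp.single w3 (val a3) := by
    intro a1 a2 a3
    ext z
    simp only [Finsupp.add_apply, Fs_apply]
    rw [val_upd3 c h12 h13 h23 a1 a2 a3]
  have key : ∀ a1 a2 a3, PhiC (I (fun _ => 1) (Fs _ (hA a1 a2 a3)))
      (I (fun z => z) (Fs _ (hA a1 a2 a3))) (I cj (Fs _ (hA a1 a2 a3)))
      (I (fun z => z * cj z) (Fs _ (hA a1 a2 a3))) (I (fun z => z ^ 2) (Fs _ (hA a1 a2 a3)))
      (I (fun z => z ^ 2 * cj z) (Fs _ (hA a1 a2 a3))) = 0 := fun a1 a2 a3 => by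
    obtain ⟨l, b, hl, hne, h⟩ := hsym _ (upd3_out c w1 w2 w3 a1 a2 a3)
    exact phiC_of_rot (Fs _ (hA a1 a2 a3)) l b hl hne (fun z => by rw [Fs_apply, Fs_apply, h])
  have k1 := key 0 0 0
  have k2 := key 1 0 0
  have k3 := key 0 1 0
  have k4 := key 0 0 1
  have k5 := key 1 1 0
  have k6 := key 1 0 1
  have k7 := key 0 1 1
  have k8 := key 1 1 1
  rw [hD] at k2 k3 k4 k5 k6 k7 k8
  simp only [map_add, I_single, val_zero, val_one, PhiC] at k1 k2 k3 k4 k5 k6 k7 k8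
  obtain ⟨v1, hv1⟩ : ∃ v, v = 2 * w1 - w2 - w3 := ⟨_, rfl⟩
  obtain ⟨v2, hv2⟩ : ∃ v, v = 2 * w2 - w1 - w3 := ⟨_, rfl⟩
  have A : cj v1 * (v2 * (2 * v1 + v2)) + cj v2 * (v1 * (v1 + 2 * v2)) = 0 := by
    rw [hv1, hv2]
    simp only [map_sub, map_mul, map_ofNat]
    linear_combination 3 * (k1 - k2 - k3 - k4 + k5 + k6 + k7 - k8)
  have B := congrArg cj A
  simp only [map_add, map_mul, map_ofNat, cj_cj, map_zero] at B
  have C : cj v1 ^ 2 * (v1 * v2 * (v1 + v2) * (v1 ^ 2 + v1 * v2 + v2 ^ 2)) = 0 := by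
    linear_combination (-1 / 3) * ((v1 * (v1 + 2 * v2)) ^ 2 * B - (v1 * (2 * cj v1 *
      (v1 * (v1 + 2 * v2)) + cj v2 * (v1 * (v1 + 2 * v2)) - cj v1 * (v2 * (2 * v1 + v2))) +
      2 * v2 * cj v1 * (v1 * (v1 + 2 * v2))) * A)
  have D : v1 * v2 * (v1 + v2) * (v1 ^ 2 + v1 * v2 + v2 ^ 2) = 0 := by
    rcases mul_eq_zero.mp C with h | h
    · have : v1 = 0 := by rw [← cj_cj v1, pow_eq_zero_iff two_ne_zero |>.mp h, map_zero]
      rw [this]; ring
    · exact h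
  unfold EE
  rw [hv1, hv2] at D
  linear_combination (-1 / 3) * D

lemma four_pts {a b c d : ℂ} (hab : a ≠ b) (hac : a ≠ c) (had : a ≠ d) (hbc : b ≠ c)
    (hbd : b ≠ d) (hcd : c ≠ d) (h1 : EE a b c = 0) (h2 : EE a b d = 0) (h3 : EE a c d = 0)
    (h4 : EE b c d = 0) : False := by
  unfold EE at h1 h2 h3 h4
  simp only [mul_eq_zero] at h1 h2 h3 h4
  rcases h1 with ((h1 | h1) | h1) | h1 <;> rcases h2 with ((h2 | h2) | h2) | h2 <;>
    rcases h3 with ((h3 | h3) | h3) | h3 <;> rcases h4 with ((h4 | h4) | h4) | h4 <;> grind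

end Pool.Agent.H6.Ext
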