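import Pool.Agent.H6.ExtMom

/-! The group `SE(2)`: four free points always suffice. -/

namespace Pool.Agent.H6.Ext

open Filter Complex

/-- `SE(2)`: the maps `z ↦ l z + b` of the plane `ℂ` with `|l| = 1`
(translations and rotations). -/
def SE2 : Subgroup (Equiv.Perm ℂ) where
  carrier := {γ | ∃ l b : ℂ, ‖l‖ = 1 ∧ ∀ z, γ z = l * z + b}
  one_mem' := ⟨1, 0, by simp, by simp⟩
  mul_mem' := by
    rintro γ γ' ⟨l, b, hl, h⟩ ⟨l', b', hl', h'⟩
    exact ⟨l * l', l * b' + b, by simp [hl, hl'], fun z => by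
      rw [Equiv.Perm.mul_apply, h, h']; ring⟩
  inv_mem' := by
    rintro γ ⟨l, b, hl, h⟩
    have hl0 : l ≠ 0 := by rintro rfl; simp at hl
    refine ⟨l⁻¹, -(l⁻¹ * b), by simp [hl], fun z => ?_⟩
    rw [Equiv.Perm.inv_eq_iff_eq, h]; field_simp; ring

lemma ne_zero_of_norm {l : ℂ} (hl : ‖l‖ = 1) : l ≠ 0 := by rintro rfl; simp at hl

lemma comm_center {c : ℂ → ZMod 2} (hT : ∀ τ, Alm c (fun z => z + τ) → τ = 0)
    {l b l' b' p : ℂ} (hl : l ≠ 0) (hl' : l' ≠ 0) (h : Alm c (fun z => l * z + b))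
    (h' : Alm c (fun z => l' * z + b')) (h1 : l ≠ 1) (hp : l * p + b = p) : l' * p + b' = p := by
  have a1 := h.comp h' (rotP l' b' hl').injective
  have a2 := h'.comp h (rotP l b hl).injective
  set G := rotP (l' * l) (l' * b + b') (mul_ne_zero hl' hl) with hG
  have a3 : Alm c G := by
    have : (G : ℂ → ℂ) = fun z => l' * (l * z + b) + b' := by funext z; simp [hG]; ring
    rw [this]; exact a2
  have a4 := a1.comp (a3.inv G.symm.injective (by simp)) G.symm.injective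
  have e : (fun z => l * (l' * G.symm z + b') + b) = fun z => z + (l * b' + b - l' * b - b') := by
    funext z
    have : z = G (G.symm z) := by simp
    rw [hG, rotP_apply, ← hG] at this
    linear_combination -this
  rw [e] at a4
  have t0 := hT _ a4
  have : (l - 1) * (l' * p + b' - p) = 0 := by linear_combination t0 + (l' - 1) * hp
  exact sub_eq_zero.mp ((mul_eq_zero.mp this).resolve_left (sub_ne_zero.mpr h1))

lemma im_ne_zero {l : ℂ} (hl : ‖l‖ = 1) (h1 : l ≠ 1) (h2 : l ≠ -1) : l.im ≠ 0 := by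
  intro h
  have e : l = (l.re : ℂ) := by apply Complex.ext <;> simp [h]
  rw [e, Complex.norm_real, Real.norm_eq_abs] at hl
  rcases abs_eq zero_le_one |>.mp hl with h3 | h3
  · exact h1 (by rw [e, h3]; simp)
  · exact h2 (by rw [e, h3]; simp)

lemma zmod2_add_self (a : ZMod 2) : a + a = 0 := by revert a; decide

lemma upd_ne (c : ℂ → ZMod 2) (w : ℂ) : Function.update c w (c w + 1) w ≠ c w := by simp

theorem se2_core {c : ℂ → ZMod 2} {W : Set ℂ} (hW : W.Finite) {w1 w2 w3 w4 : ℂ}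
    (m1 : w1 ∈ W) (m2 : w2 ∈ W) (m3 : w3 ∈ W) (m4 : w4 ∈ W)
    (h12 : w1 ≠ w2) (h13 : w1 ≠ w3) (h14 : w1 ≠ w4) (h23 : w2 ≠ w3) (h24 : w2 ≠ w4)
    (h34 : w3 ≠ w4)
    (H : ∀ f : ℂ → ZMod 2, (∀ z, z ∉ W → f z = c z) →
      ∃ l b : ℂ, ‖l‖ = 1 ∧ (l ≠ 1 ∨ b ≠ 0) ∧ ∀ z, f (l * z + b) = f z) : False := by
  have sub3 : ∀ {a b d : ℂ}, a ∈ W → b ∈ W → d ∈ W → ∀ z, z ∉ W → z ∉ ({a, b, d} : Set ℂ) := by
    intro a b d ha hb hd z hz h
    rcases h with rfl | rfl | rfl <;> contradiction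
  have fin : (∀ {a b d : ℂ}, a ∈ W → b ∈ W → d ∈ W → a ≠ b → a ≠ d → b ≠ d → EE a b d = 0) →
      False := fun h => four_pts h12 h13 h14 h23 h24 h34 (h m1 m2 m3 h12 h13 h23)
        (h m1 m2 m4 h12 h14 h24) (h m1 m3 m4 h13 h14 h34) (h m2 m3 m4 h23 h24 h34)
  by_cases hT : ∀ τ, Alm c (fun z => z + τ) → τ = 0
  · obtain ⟨l, b, hl, hne, h⟩ := H c fun _ _ => rfl
    have a1 : Alm c (fun z => l * z + b) := Eventually.of_forall h
    have nt : ∀ {l b : ℂ}, (l ≠ 1 ∨ b ≠ 0) → Alm c (fun z => l * z + b) → l ≠ 1 := by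
      intro l b hne a h1
      subst h1
      exact hne.resolve_left (by simp) (hT b (by simpa using a))
    have h1 := nt hne a1
    obtain ⟨p, hp⟩ : ∃ p, l * p + b = p :=
      ⟨b / (1 - l), by have : 1 - l ≠ 0 := sub_ne_zero.mpr (Ne.symm h1); field_simp; ring⟩
    obtain ⟨w, hw, hwp⟩ : ∃ w ∈ W, w ≠ p := by
      by_cases e : w1 = p
      · exact ⟨w2, m2, fun e' => h12 (e.trans e'.symm)⟩
      · exact ⟨w1, m1, e⟩
    have hf : ∀ z, z ∉ W → Function.update c w (c w + 1) z = c z := fun z hz =>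
      Function.update_of_ne (by rintro rfl; exact hz hw) _ _
    obtain ⟨l', b', hl', hne', h'⟩ := H _ hf
    have a2 : Alm c (fun z => l' * z + b') :=
      alm_of_inv hW (rotP l' b' (ne_zero_of_norm hl')).injective hf h'
    have hp' := comm_center hT (ne_zero_of_norm hl) (ne_zero_of_norm hl') a1 a2 h1 hp
    refine adj_rot (c := fun z => c (z + p)) (c' := fun z => Function.update c w (c w + 1) (z + p))
      (w := w - p) (sub_ne_zero.mpr hwp) h1 (nt hne' a2) (fun z => ?_) (fun z => ?_)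
      (fun z hz => ?_) ?_
    · rw [← h (z + p)]; congr 1; linear_combination -hp
    · rw [← h' (z + p)]; congr 1; linear_combination -hp'
    · exact Function.update_of_ne (fun e => hz (by rw [← e]; ring)) _ _
    · simp
  push Not at hT
  obtain ⟨τ, hτ, hτ0⟩ := hT
  by_cases hL : ∀ l b : ℂ, ‖l‖ = 1 → Alm c (fun z => l * z + b) → l = 1 ∨ l = -1
  · apply fin
    intro a b d ha hb hd hab had hbd
    have := caseB hτ0 (fun z => z) (fun _ => rfl) hτ hab had hbd (fun f hf => by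
      have hf' : ∀ z, z ∉ W → f z = c z := fun z hz => hf z (sub3 ha hb hd z hz)
      obtain ⟨l, t, hl, hne, h⟩ := H f hf'
      rcases hL l t hl (alm_of_inv hW (rotP l t (ne_zero_of_norm hl)).injective hf' h) with
        rfl | rfl
      · exact Or.inl ⟨t, hne.resolve_left (by simp), by simpa using h⟩
      · exact Or.inr ⟨rotP (-1) t (by simp), t, h, fun z => by simp; ring,
          fun z => by simp; ring⟩)
    unfold EE; rw [this, zero_mul]
  push Not at hL
  obtain ⟨l, b, hl, a1, h1, h2⟩ := hL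
  have hσ : Alm c (fun z => z + l * τ) :=
    Alm.conj (rotP l b (ne_zero_of_norm hl)) a1 hτ (fun z => by simp; ring)
  obtain ⟨d, hd, hinv⟩ := exists_star hτ hσ (by
    rw [mul_assoc, mul_conj]
    simpa [im_ne_zero hl h1 h2] using hτ0)
  apply fin
  intro x y u hx hy hu hxy hxu hyu
  refine caseC (c := fun z => c z + d z) ?_ hxy hxu hyu fun f hf => ?_
  · filter_upwards [hd] with z hz
    rw [hz, zmod2_add_self]
  · have hf' : ∀ z, z ∉ W → f z + d z = c z := fun z hz => by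
      rw [hf z (sub3 hx hy hu z hz), add_assoc, zmod2_add_self, add_zero]
    obtain ⟨l, t, hl, hne, h⟩ := H _ hf'
    refine ⟨l, t, hl, hne, fun z => ?_⟩
    have e := star_inv hτ0 hτ hd hinv (rotP l t (ne_zero_of_norm hl))
      (alm_of_inv hW (rotP l t (ne_zero_of_norm hl)).injective hf' h) (t' := l * τ)
      (fun z => by simp; ring) z
    have := h z
    rw [rotP_apply] at e
    simp only [e] at this
    exact add_right_cancel this

lemma four_of_encard {W : Set ℂ} (h : (4 : ℕ∞) ≤ W.encard) :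
    ∃ w1 w2 w3 w4, w1 ∈ W ∧ w2 ∈ W ∧ w3 ∈ W ∧ w4 ∈ W ∧ w1 ≠ w2 ∧ w1 ≠ w3 ∧ w1 ≠ w4 ∧ w2 ≠ w3 ∧
      w2 ≠ w4 ∧ w3 ≠ w4 := by
  obtain ⟨T, hT, hh⟩ := Set.exists_subset_encard_eq h
  obtain ⟨a, b, c, d, h1, h2, h3, h4, h5, h6, rfl⟩ := Set.encard_eq_four.mp hh
  exact ⟨a, b, c, d, hT (by simp), hT (by simp), hT (by simp), hT (by simp), h1, h2, h3, h4, h5, h6⟩

theorem se2_pk {W : Set ℂ} (h : (4 : ℕ∞) ≤ W.encard) : Pk SE2 2 W := by
  rw [pk_two_iff]
  intro c hc
  obtain ⟨w1, w2, w3, w4, m1, m2, m3, m4, h12, h13, h14, h23, h24, h34⟩ := four_of_encard h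
  have hs : ({w1, w2, w3, w4} : Set ℂ) ⊆ W := by
    rintro z (rfl | rfl | rfl | rfl) <;> assumption
  have hc' := Hyp.mono SE2 hc hs (fun _ _ => rfl)
  refine se2_core (c := c) (Set.toFinite ({w1, w2, w3, w4} : Set ℂ)) (by simp) (by simp) (by simp)
    (by simp) h12 h13 h14 h23 h24 h34 fun f hf => ?_
  obtain ⟨γ, ⟨l, b, hl, hγ⟩, hne, hinv⟩ := hc' f hf
  refine ⟨l, b, hl, ?_, fun z => by rw [← hγ, hinv]⟩
  by_contra hh
  push Not at hh
  apply hne
  ext1 z
  rw [hγ, hh.1, hh.2]; simp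

lemma half_mem (b : ℂ) : rotP (-1) b (by simp) ∈ SE2 := ⟨-1, b, by simp, fun _ => rfl⟩

lemma half_ne (b : ℂ) : rotP (-1) b (by simp) ≠ 1 := by
  intro h
  have h1 := congrArg (fun γ : Equiv.Perm ℂ => γ 0) h
  have h2 := congrArg (fun γ : Equiv.Perm ℂ => γ 1) h
  simp only [rotP_apply, Equiv.Perm.coe_one, id] at h1 h2
  have : (2 : ℂ) = 0 := by linear_combination h1 - h2
  norm_num at this

lemma se2_distNum : distNum SE2 = 2 :=
  distNum_eq_two SE2 ⟨_, half_mem 0, half_ne 0⟩ (se2_pk (by simp))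

lemma se2_three : ¬ Pk SE2 2 ({0, 1, 2} : Set ℂ) := by
  rw [pk_two_iff]
  push Not
  refine ⟨fun _ => 0, fun f hf => ?_⟩
  have key : ∀ b : ℂ, f (b - 0) = f 0 → f (b - 1) = f 1 → f (b - 2) = f 2 →
      ∃ γ ∈ SE2, γ ≠ 1 ∧ ∀ z, f (γ z) = f z := by
    intro b h0 h1 h2
    refine ⟨_, half_mem b, half_ne b, fun z => ?_⟩
    rw [rotP_apply, show -1 * z + b = b - z by ring]
    have hW : ∀ z ∈ ({0, 1, 2} : Set ℂ), f (b - z) = f z := by
      rintro z (rfl | rfl | rfl) <;> assumption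
    by_cases hz : z ∈ ({0, 1, 2} : Set ℂ)
    · exact hW z hz
    by_cases hz' : b - z ∈ ({0, 1, 2} : Set ℂ)
    · rw [← hW _ hz', sub_sub_cancel]
    · rw [hf _ hz, hf _ hz']
  have o1 : f (-1) = 0 := hf _ (by norm_num)
  have o2 : f (-2) = 0 := hf _ (by norm_num)
  have o3 : f 3 = 0 := hf _ (by norm_num)
  have o4 : f 4 = 0 := hf _ (by norm_num)
  have z01 : ∀ a : ZMod 2, a = 0 ∨ a = 1 := by decide
  rcases z01 (f 0) with a | a <;> rcases z01 (f 1) with b | b <;> rcases z01 (f 2) with d | d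
  · apply key 2 <;> norm_num [a, b, d]
  · apply key 4 <;> norm_num [a, b, d, o3, o4]
  · apply key 2 <;> norm_num [a, b, d]
  · apply key 3 <;> norm_num [a, b, d, o3]
  · apply key 0 <;> norm_num [a, b, d, o1, o2]
  · apply key 2 <;> norm_num [a, b, d]
  · apply key 1 <;> norm_num [a, b, d, o1]
  · apply key 2 <;> norm_num [a, b, d]

theorem se2_ext : ext SE2 = 4 := by
  apply le_antisymm
  · refine iInf₂_le_of_le 4 (fun W _ h => ?_) (by simp)
    unfold P; rw [se2_distNum]; exact se2_pk (by simpa using h)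
  · refine le_iInf₂ fun n hn => ?_
    by_contra h
    have h3 : n ≤ 3 := by
      have : (n : ℕ∞) < (4 : ℕ) := by simpa using h
      have := ENat.natCast_lt_natCast.mp this
      omega
    have := hn {0, 1, 2} ?_ ?_
    · unfold P at this; rw [se2_distNum] at this; exact se2_three this
    · rintro γ ⟨l, b, -, hγ⟩ hfix
      have h0 := hfix 0 (by simp)
      have h1 := hfix 1 (by simp)
      rw [hγ] at h0 h1
      ext1 z
      have hb : b = 0 := by simpa using h0
      have hl : l = 1 := by simpa [hb] using h1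
      simp [hγ, hb, hl]
    · rw [Set.encard_eq_three.mpr ⟨0, 1, 2, by norm_num, by norm_num, by norm_num, rfl⟩]
      exact_mod_cast h3

end Pool.Agent.H6.Ext
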