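import Mathlib

/-! Harborth's theorem and the structure of extremal sequences for `(ℤ/2^k)^d`. -/

open Multiset

namespace Pool.Agent.H6.Ez

theorem le_map {α β : Type*} (f : α → β) (T : Multiset β) :
    ∀ P : Multiset α, T ≤ P.map f → ∃ Q ≤ P, Q.map f = T := by
  induction T using Multiset.induction_on with
  | empty => exact fun P _ => ⟨0, Multiset.zero_le _, rfl⟩
  | cons a T ih =>
    intro P h
    obtain ⟨p, hp, rfl⟩ := mem_map.1 (mem_of_le h (mem_cons_self _ _))
    obtain ⟨P, rfl⟩ := exists_cons_of_mem hp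
    rw [map_cons, cons_le_cons_iff] at h
    obtain ⟨Q, h1, rfl⟩ := ih P h
    exact ⟨p ::ₘ Q, cons_le_cons _ h1, map_cons _ _ _⟩

variable {d : ℕ}

def par (x : Fin d → ℤ) : Fin d → ZMod 2 := fun i => (x i : ZMod 2)

def half (p : (Fin d → ℤ) × (Fin d → ℤ)) : Fin d → ℤ := fun i => (p.1 i + p.2 i) / 2

def Good (n : ℕ) (S : Multiset (Fin d → ℤ)) : Prop :=
  ∃ T ≤ S, card T = n ∧ ∀ i, (n : ℤ) ∣ T.sum i

def Dec (S : Multiset (Fin d → ℤ)) (P : Multiset ((Fin d → ℤ) × (Fin d → ℤ)))
    (R : Multiset (Fin d → ℤ)) : Prop :=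
  S = P.map Prod.fst + P.map Prod.snd + R ∧ (∀ p ∈ P, par p.1 = par p.2) ∧ (R.map par).Nodup

theorem par_eq {x y : Fin d → ℤ} (h : par x = par y) (i : Fin d) : (2 : ℤ) ∣ x i - y i :=
  (ZMod.intCast_eq_intCast_iff_dvd_sub _ _ 2).1 (congrFun h i).symm

theorem exists_dec (S : Multiset (Fin d → ℤ)) : ∃ P R, Dec S P R := by
  induction S using Multiset.induction_on with
  | empty => exact ⟨0, 0, by simp, by simp, by simp⟩
  | cons a S ih =>
    obtain ⟨P, R, rfl, h1, h2⟩ := ih
    by_cases h : par a ∈ R.map par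
    · obtain ⟨b, hb, e⟩ := mem_map.1 h
      obtain ⟨R, rfl⟩ := exists_cons_of_mem hb
      refine ⟨(a, b) ::ₘ P, R, by simp only [map_cons]; simp only [← singleton_add]; abel, ?_, ?_⟩
      · simpa [e] using h1
      · rw [map_cons] at h2; exact h2.of_cons
    · exact ⟨P, a ::ₘ R, by simp only [← singleton_add]; abel, h1,
        by rw [map_cons]; exact h2.cons h⟩

theorem Dec.good {S P R} (h : Dec (d := d) S P R) {m : ℕ} (g : Good m (P.map half)) :
    Good (2 * m) S := by
  obtain ⟨T, h1, h2, h3⟩ := g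
  obtain ⟨Q, q, rfl⟩ := le_map half T P h1
  refine ⟨Q.map Prod.fst + Q.map Prod.snd, ?_, by simp at h2 ⊢; omega, fun i => ?_⟩
  · rw [h.1]
    exact (add_le_add (map_le_map q) (map_le_map q)).trans (Multiset.le_add_right _ _)
  · have : (Q.map Prod.fst + Q.map Prod.snd).sum i = 2 * (Q.map half).sum i := by
      have hq : ∀ p ∈ Q, par p.1 = par p.2 := fun p hp => h.2.1 p (mem_of_le q hp)
      clear h1 h2 h3 q
      induction Q using Multiset.induction_on with
      | empty => simp
      | cons a Q ih =>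
        have := ih fun p hp => hq p (mem_cons_of_mem hp)
        have := par_eq (hq a (mem_cons_self _ _)) i
        simp only [map_cons, sum_add, sum_cons, Pi.add_apply, half] at *
        omega
    rw [this]
    push_cast
    exact mul_dvd_mul_left 2 (h3 i)

theorem Dec.card {S P R} (h : Dec (d := d) S P R) :
    card S = 2 * card P + card R ∧ card R ≤ 2 ^ d := by
  refine ⟨by rw [h.1]; simp; omega, ?_⟩
  have := Finset.card_le_univ (⟨_, h.2.2⟩ : Finset (Fin d → ZMod 2))
  simpa using this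

theorem harb (k : ℕ) : ∀ m, 2 ^ k = m + 1 → ∀ S : Multiset (Fin d → ℤ), 2 ^ d * m < card S →
    Good (m + 1) S := by
  induction k with
  | zero =>
    intro m hm S h
    obtain rfl : m = 0 := by omega
    obtain ⟨a, ha⟩ := card_pos_iff_exists_mem.1 (by omega : 0 < card S)
    exact ⟨{a}, singleton_le.2 ha, rfl, by simp⟩
  | succ k ih =>
    intro m' hm S h
    obtain ⟨m, e⟩ : ∃ m, 2 ^ k = m + 1 := ⟨2 ^ k - 1, by have := Nat.two_pow_pos k; omega⟩
    obtain rfl : m' = 2 * m + 1 := by omega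
    obtain ⟨P, R, hd⟩ := exists_dec S
    have := hd.card
    exact hd.good (ih m e _ (by rw [card_map]; nlinarith))

theorem sum_cong {n : ℤ} (t : (Fin d → ZMod 2) → Fin d → ℤ) (i : Fin d) (U : Multiset (Fin d → ℤ))
    (h : ∀ x ∈ U, n ∣ x i - t (par x) i) : n ∣ U.sum i - ((U.map par).map t).sum i := by
  induction U using Multiset.induction_on with
  | empty => simp
  | cons a U ih =>
    have := dvd_add (h a (mem_cons_self _ _)) (ih fun x hx => h x (mem_cons_of_mem hx))
    simp only [map_cons, sum_cons, Pi.add_apply] at *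
    rwa [← add_sub_add_comm] at this

theorem propD (k : ℕ) : ∀ m, 2 ^ k = m + 1 → ∀ S : Multiset (Fin d → ℤ), card S = 2 ^ d * m →
    ¬ Good (m + 1) S → (∀ c, count c (S.map par) = m) ∧
      ∃ t : (Fin d → ZMod 2) → Fin d → ℤ, ∀ x ∈ S, ∀ i, ((m + 1 : ℕ) : ℤ) ∣ x i - t (par x) i := by
  induction k with
  | zero =>
    intro m hm S h _
    obtain rfl : m = 0 := by omega
    obtain rfl : S = 0 := by simpa using h
    simp
  | succ k ih =>
    intro m' hm S h hg
    obtain ⟨m, e⟩ : ∃ m, 2 ^ k = m + 1 := ⟨2 ^ k - 1, by have := Nat.two_pow_pos k; omega⟩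
    obtain rfl : m' = 2 * m + 1 := by omega
    have A : ∀ P R, Dec S P R → card R = 2 ^ d ∧ card (P.map half) = 2 ^ d * m ∧
        ¬ Good (m + 1) (P.map half) := fun P R hd => by
      have a : ¬ Good (m + 1) (P.map half) := fun q => hg (hd.good q)
      have b := not_lt.1 (mt (harb k m e _) a)
      have c := hd.card
      rw [card_map] at b ⊢
      exact ⟨by nlinarith, by nlinarith, a⟩
    have B : ∀ x y P r R, Dec S ((x, y) ::ₘ P) (r ::ₘ R) → par r = par x →
        ∀ i, ((2 * m + 1 + 1 : ℕ) : ℤ) ∣ x i - r i := fun x y P r R hd hr i => by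
      have hxy : par x = par y := hd.2.1 _ (mem_cons_self _ _)
      have hd' : Dec S ((r, y) ::ₘ P) (x ::ₘ R) := by
        refine ⟨by rw [hd.1]; simp only [map_cons]; simp only [← singleton_add]; abel, fun p hp => ?_, ?_⟩
        · rcases mem_cons.1 hp with rfl | hp
          · exact hr.trans hxy
          · exact hd.2.1 p (mem_cons_of_mem hp)
        · have := hd.2.2
          rwa [map_cons, hr, ← map_cons] at this
      obtain ⟨c1, t1, d1⟩ := ih m e _ (A _ _ hd).2.1 (A _ _ hd).2.2
      obtain ⟨c2, t2, d2⟩ := ih m e _ (A _ _ hd').2.1 (A _ _ hd').2.2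
      have a1 := c1 (par (half (x, y)))
      have a2 := c2 (par (half (x, y)))
      simp only [map_cons, count_cons, if_true] at a1 a2 d1 d2
      have pe : par (half (x, y)) = par (half (r, y)) := by
        by_contra q
        rw [if_neg q] at a2
        omega
      have key : ((m + 1 : ℕ) : ℤ) ∣ half (x, y) i - half (r, y) i := by
        by_cases q : m = 1
        · subst q; exact par_eq pe i
        · have := (show 0 < m - 1 by omega).trans_eq (Nat.eq_sub_of_add_eq a1).symm
          obtain ⟨w, hw, ew⟩ := mem_map.1 (count_pos.1 this)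
          have f1 := dvd_sub (d1 _ (mem_cons_self _ _) i) (d1 w (mem_cons_of_mem hw) i)
          have f2 := dvd_sub (d2 _ (mem_cons_self _ _) i) (d2 w (mem_cons_of_mem hw) i)
          rw [ew, sub_sub_sub_cancel_right] at f1
          rw [ew, pe, sub_sub_sub_cancel_right] at f2
          simpa using dvd_sub f1 f2
      have p1 := par_eq hxy i
      have p2 := par_eq hr i
      have : x i - r i = 2 * (half (x, y) i - half (r, y) i) := by simp only [half]; omega
      rw [this, show 2 * m + 1 + 1 = 2 * (m + 1) by ring, Nat.cast_mul]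
      exact mul_dvd_mul_left 2 key
    obtain ⟨P, R, hd⟩ := exists_dec S
    have U : ∀ c, ∃ r ∈ R, par r = c := fun c => mem_map.1 (by
      have := Finset.eq_univ_of_card (⟨_, hd.2.2⟩ : Finset (Fin d → ZMod 2))
        (by simp [(A _ _ hd).1])
      exact (Finset.eq_univ_iff_forall.1 this) c)
    choose t t1 t2 using U
    have C : ∀ x ∈ S, ∀ i, ((2 * m + 1 + 1 : ℕ) : ℤ) ∣ x i - t (par x) i := by
      intro x hx
      obtain ⟨R', hR⟩ := exists_cons_of_mem (t1 (par x))
      rw [hd.1, mem_add, mem_add, mem_map, mem_map] at hx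
      rcases hx with (⟨⟨a, b⟩, hp, rfl⟩ | ⟨⟨a, b⟩, hp, rfl⟩) | hx
      · obtain ⟨P, rfl⟩ := exists_cons_of_mem hp
        exact B a b P _ R' (hR ▸ hd) (t2 _)
      · obtain ⟨P, rfl⟩ := exists_cons_of_mem hp
        refine B b a P _ R' (hR ▸ ⟨?_, fun p q => ?_, hd.2.2⟩) (t2 _)
        · rw [hd.1]; simp only [map_cons]; simp only [← singleton_add]; abel
        · rcases mem_cons.1 q with rfl | q
          · exact (hd.2.1 _ hp).symm
          · exact hd.2.1 p (mem_cons_of_mem q)
      · rw [inj_on_of_nodup_map hd.2.2 _ (t1 _) x hx (t2 _)]; simp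
    refine ⟨?_, t, C⟩
    have D : ∀ c, count c (S.map par) ≤ 2 * m + 1 := fun c => by
      by_contra q
      obtain ⟨T, h1, h2⟩ := le_map par _ S (le_count_iff_replicate_le.1 (not_le.1 q))
      refine hg ⟨T, h1, by simpa using congrArg card h2, fun i => ?_⟩
      have := sum_cong t i T fun x hx => C x (mem_of_le h1 hx) i
      rw [h2, map_replicate, sum_replicate, Pi.smul_apply, nsmul_eq_mul] at this
      exact (dvd_sub_left (dvd_mul_right _ _)).1 this
    have E := Multiset.sum_count_eq_card (m := S.map par) (s := Finset.univ) fun _ _ => Finset.mem_univ _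
    exact fun c => (Finset.sum_eq_sum_iff_of_le (s := Finset.univ) fun c _ => D c).1
      (by rw [E]; simp [h]) c (Finset.mem_univ c)

theorem upper {k m : ℕ} (e : 2 ^ k = m + 1) (h0 : 0 < d) (hd : d ≤ k) (S : Multiset (Fin d → ℤ))
    (h : 2 ^ d * m ≤ card S) (hs : ∀ i, ((m + 1 : ℕ) : ℤ) ∣ S.sum i) : Good (m + 1) S := by
  by_contra hg
  obtain ⟨c, t, ht⟩ := propD k m e S (le_antisymm (not_lt.1 (mt (harb k m e S) hg)) h) hg
  obtain ⟨q, hq⟩ : 2 ^ d ∣ m + 1 := e ▸ pow_dvd_pow 2 hd
  have d2 : 2 ≤ 2 ^ d := Nat.le_self_pow h0.ne' 2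
  have e1 : S.map par = m • (Finset.univ : Finset (Fin d → ZMod 2)).val := by
    ext a; simp [c]
  obtain ⟨T, h1, h2⟩ := le_map par (q • (Finset.univ : Finset (Fin d → ZMod 2)).val) S (by
    rw [e1]; exact nsmul_le_nsmul_left (Multiset.zero_le _) (by nlinarith))
  refine hg ⟨T, h1, by simpa [hq, mul_comm] using congrArg card h2, fun i => ?_⟩
  have a := sum_cong t i T fun x hx => ht x (mem_of_le h1 hx) i
  have b := sum_cong t i S fun x hx => ht x hx i
  rw [h2, Multiset.map_nsmul, sum_nsmul, Pi.smul_apply, nsmul_eq_mul] at a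
  rw [e1, Multiset.map_nsmul, sum_nsmul, Pi.smul_apply, nsmul_eq_mul] at b
  have b := (dvd_sub_right (hs i)).1 b
  have f := dvd_sub (dvd_mul_right ((m + 1 : ℕ) : ℤ) ((map t Finset.univ.val).sum i)) b
  rw [← sub_mul, Nat.cast_succ, add_sub_cancel_left, one_mul, ← Nat.cast_succ] at f
  exact (dvd_sub_left (f.mul_left _)).1 a

end Pool.Agent.H6.Ez
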