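import Pool.Agent.H6.EzA

open Multiset

namespace Pool.Agent.H6.Ez

variable {d : ℕ}

def red (n : ℕ) : (Fin d → ℤ) →+ (Fin d → ZMod n) where
  toFun x i := (x i : ZMod n)
  map_zero' := by ext; simp
  map_add' x y := by ext; simp

theorem transfer {n : ℕ} (S : Multiset (Fin d → ZMod n))
    (h : ∀ S' : Multiset (Fin d → ℤ), card S' = card S → (S.sum = 0 → ∀ i, (n : ℤ) ∣ S'.sum i) →
      Good n S') : ∃ T ≤ S, card T = n ∧ T.sum = 0 := by
  obtain ⟨S, rfl⟩ : ∃ S' : Multiset (Fin d → ℤ), S'.map (red n) = S :=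
    ⟨S.map fun x i => ZMod.cast (x i), by
      rw [map_map]
      exact (map_congr rfl fun x _ => funext fun i => ZMod.intCast_zmod_cast (x i)).trans (map_id _)⟩
  obtain ⟨T, h1, h2, h3⟩ := h S (by simp) fun q i => by
    rw [← map_multiset_sum] at q
    exact (ZMod.intCast_zmod_eq_zero_iff_dvd _ _).1 (congrFun q i)
  refine ⟨T.map (red n), map_le_map h1, by simpa, ?_⟩
  rw [← map_multiset_sum]
  exact funext fun i => (ZMod.intCast_zmod_eq_zero_iff_dvd _ _).2 (h3 i)

def cube (n : ℕ) (c : Fin d → Fin 2) : Fin d → ZMod n := fun i => ((c i : ℕ) : ZMod n)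

theorem cube_sum (n : ℕ) (i : Fin d) (T : Multiset (Fin d → Fin 2)) :
    (T.map (cube n)).sum i = (countP (fun c => c i = 1) T : ℕ) := by
  induction T using Multiset.induction_on with
  | empty => simp
  | cons a T ih =>
    rw [map_cons, sum_cons, Pi.add_apply, ih, countP_cons, add_comm]
    rcases Fin.exists_fin_two.1 ⟨a i, rfl⟩ with h | h <;> simp [cube, h]

theorem no_sub (m : ℕ) (T : Multiset (Fin d → ZMod (m + 1)))
    (h : T ≤ (m • (Finset.univ : Finset (Fin d → Fin 2)).val).map (cube (m + 1)))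
    (hc : card T = m + 1) : T.sum ≠ 0 := by
  intro hs
  obtain ⟨T, h1, rfl⟩ := le_map _ T _ h
  rw [card_map] at hc
  obtain ⟨a, ha⟩ := card_pos_iff_exists_mem.1 (by omega : 0 < card T)
  have : ∀ b ∈ T, a = b := fun b hb => funext fun i => by
    have q := congrFun hs i
    rw [cube_sum, Pi.zero_apply, ZMod.natCast_eq_zero_iff] at q
    rcases Nat.eq_zero_or_pos (countP (fun c => c i = 1) T) with z | z
    · have := countP_eq_zero.1 z a ha
      have := countP_eq_zero.1 z b hb
      omega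
    · have e := countP_eq_card.1 (le_antisymm (countP_le_card _ T) (hc ▸ Nat.le_of_dvd z q))
      exact (e a ha).trans (e b hb).symm
  have c1 := count_eq_card.2 this
  have c2 := count_le_of_le a h1
  simp at c2
  omega

theorem cube_total (n : ℕ) (i : Fin d) :
    ((Finset.univ : Finset (Fin d → Fin 2)).val.map (cube n)).sum i = ((2 ^ (d - 1) : ℕ) : ZMod n) := by
  change (∑ c : Fin d → Fin 2, cube n c) i = _
  rw [Finset.sum_apply, ← (Equiv.funSplitAt i (Fin 2)).symm.sum_comp, Fintype.sum_prod_type]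
  simp [cube, Equiv.funSplitAt, Equiv.piSplitAt]

end Pool.Agent.H6.Ez
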