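import Mathlib

/-! Potentials for a max-sum matching, and a common point of the dilated ellipsoids. -/

namespace Pool.Agent.H6.Finger

open Filter Topology

section pot
variable {ι : Type} [Fintype ι] [DecidableEq ι] (w : ι → ι → ℝ)

/-- weight of a walk starting at `a` -/
def wt : ι → List ι → ℝ
  | _, [] => 0
  | a, b :: l => w a b + wt b l

omit [Fintype ι] [DecidableEq ι] in
lemma wt_append (a z : ι) (q r : List ι) : wt w a (q ++ z :: r) = wt w a (q ++ [z]) + wt w z r := by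
  induction q generalizing a with
  | nil => simp [wt]
  | cons b q ih => simp only [List.cons_append, wt, ih b]; ring

omit [Fintype ι] [DecidableEq ι] in
lemma wt_map (g : ι → ι) (a z : ι) (q : List ι) (h : (a :: q).map g = q ++ [z]) :
    wt w a (q ++ [z]) = ((a :: q).map fun x => w x (g x)).sum := by
  induction q generalizing a with
  | nil => simp at h; simp [wt, h]
  | cons b q ih =>
    simp only [List.map_cons, List.cons_append, List.cons.injEq] at h
    rw [List.cons_append, wt, ih b (by simpa using h.2)]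
    simp [h.1]

lemma wt_cyc (h0 : ∀ i, w i i = 0) (hσ : ∀ σ : Equiv.Perm ι, ∑ i, w i (σ i) ≤ 0) (a : ι)
    (q : List ι) (hn : (a :: q).Nodup) : wt w a (q ++ [a]) ≤ 0 := by
  have e : (a :: q).map (a :: q).formPerm = q ++ [a] := by
    have : q ++ [a] = (a :: q).rotate 1 := by simp
    rw [this]
    apply List.ext_getElem (by simp)
    intro i h1 h2
    rw [List.getElem_map, List.formPerm_apply_getElem _ hn, List.getElem_rotate]
  rw [wt_map w _ a a q e, ← List.sum_toFinset _ hn]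
  refine le_of_eq_of_le ?_ (hσ (a :: q).formPerm)
  apply Finset.sum_subset (Finset.subset_univ _)
  intro x _ hx
  rw [List.formPerm_apply_of_notMem (by simpa using hx), h0]

lemma wt_nodup (h0 : ∀ i, w i i = 0) (hσ : ∀ σ : Equiv.Perm ι, ∑ i, w i (σ i) ≤ 0) (l : List ι) :
    ∀ a, ∃ l', (a :: l').Nodup ∧ wt w a l ≤ wt w a l' := by
  induction l with
  | nil => intro a; exact ⟨[], by simp, le_rfl⟩
  | cons b m ih =>
    intro a
    obtain ⟨m', hm, hle⟩ := ih b
    by_cases ha : a ∈ b :: m'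
    · obtain ⟨q, r, hqr⟩ := List.append_of_mem ha
      have h1 : wt w a (b :: m) ≤ wt w a (b :: m') := by simp only [wt]; linarith
      rw [hqr] at hm h1
      rw [wt_append] at h1
      have h2 : (a :: q).Nodup := by
        rw [List.nodup_middle] at hm
        exact hm.sublist (List.cons_sublist_cons.mpr (List.sublist_append_left q r))
      have := wt_cyc w h0 hσ a q h2
      exact ⟨r, hm.sublist (List.sublist_append_right q _), by linarith⟩
    · exact ⟨b :: m', List.nodup_cons.mpr ⟨ha, hm⟩, by simp only [wt]; linarith⟩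

lemma exists_pot (h0 : ∀ i, w i i = 0) (hσ : ∀ σ : Equiv.Perm ι, ∑ i, w i (σ i) ≤ 0) :
    ∃ v : ι → ℝ, ∀ a b, w a b + v b ≤ v a := by
  have hb : ∀ a, BddAbove (Set.range (wt w a)) := by
    intro a
    have hfin : {l : List ι | l.Nodup}.Finite :=
      Set.finite_coe_iff.mp (inferInstanceAs (Finite {l : List ι // l.Nodup}))
    obtain ⟨B, hB⟩ := (hfin.image (wt w a)).bddAbove
    refine ⟨B, ?_⟩
    rintro _ ⟨l, rfl⟩
    obtain ⟨l', h1, h2⟩ := wt_nodup w h0 hσ l a
    exact h2.trans (hB ⟨l', (List.nodup_cons.mp h1).2, rfl⟩)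
  refine ⟨fun a => ⨆ l, wt w a l, fun a b => ?_⟩
  rw [← le_sub_iff_add_le']
  refine ciSup_le fun l => ?_
  rw [le_sub_iff_add_le']
  exact le_ciSup (hb a) (b :: l)

end pot

variable {E : Type*} [NormedAddCommGroup E] [InnerProductSpace ℝ E]

lemma exists_dir (X Y : Set E) (hX : X.Finite) (hY : Y.Finite) (nX : X.Nonempty) (nY : Y.Nonempty)
    (h : ∀ x ∈ X, ∀ y ∈ Y, 0 < inner ℝ x y) :
    ∃ d ∈ convexHull ℝ (X ∪ Y), ∀ z ∈ X ∪ Y, 0 < inner ℝ z d := by
  have hK := (hX.union hY).isCompact_convexHull ℝ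
  obtain ⟨d, hd, hmin⟩ := hK.exists_isMinOn (f := fun z => ‖(0 : E) - z‖)
    (nX.inl.convexHull) (by fun_prop)
  have h1 : ∀ p ∈ convexHull ℝ X, ∀ q ∈ convexHull ℝ Y, 0 < inner ℝ p q := by
    intro p hp q hq
    have a : ∀ y ∈ Y, 0 < inner ℝ p y := fun y hy =>
      convexHull_min (t := {p | 0 < inner ℝ y p}) (fun x hx => by
        simpa [real_inner_comm] using h x hx y hy)
        (convex_halfSpace_gt (innerₛₗ ℝ y).isLinear 0) hp |>.trans_eq (real_inner_comm _ _)
    exact convexHull_min (t := {q | 0 < inner ℝ p q}) a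
      (convex_halfSpace_gt (innerₛₗ ℝ p).isLinear 0) hq
  have d0 : d ≠ 0 := by
    rintro rfl
    rw [convexHull_union nX nY, mem_convexJoin] at hd
    obtain ⟨p, hp, q, hq, a, b, ha, hb, hab, e⟩ := hd
    have := h1 p hp q hq
    have e1 := congrArg (fun z => inner ℝ p z) e
    have e2 := congrArg (fun z => inner ℝ z q) e
    simp only [inner_add_right, inner_add_left, inner_smul_right, inner_smul_left, inner_zero_right,
      inner_zero_left, conj_trivial] at e1 e2
    have := real_inner_self_nonneg (x := p)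
    have := real_inner_self_nonneg (x := q)
    have hb0 : b ≤ 0 := by nlinarith
    have ha0 : a ≤ 0 := by nlinarith
    linarith
  refine ⟨d, hd, fun z hz => ?_⟩
  have : Nonempty (convexHull ℝ (X ∪ Y)) := ⟨⟨d, hd⟩⟩
  have key := (norm_eq_iInf_iff_real_inner_le_zero (convex_convexHull ℝ (X ∪ Y)) (u := 0) hd).mp
    (le_antisymm (le_ciInf fun z => hmin z.2)
      (ciInf_le (f := fun z : convexHull ℝ (X ∪ Y) => ‖(0 : E) - z‖) ⟨0, by
        rintro _ ⟨z, rfl⟩; exact norm_nonneg _⟩ ⟨d, hd⟩)) z (subset_convexHull ℝ _ hz)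
  rw [zero_sub, inner_neg_left, inner_sub_right] at key
  have := real_inner_self_pos.mpr d0
  rw [real_inner_comm]; linarith

lemma closer (x d : E) (h : 0 < inner ℝ x d) : ∀ᶠ ε in 𝓝[>] (0 : ℝ), ‖x - ε • d‖ < ‖x‖ := by
  have h1 : ∀ᶠ ε in 𝓝 (0 : ℝ), ε * ‖d‖ ^ 2 < 2 * inner ℝ x d :=
    (by fun_prop : Continuous fun ε : ℝ => ε * ‖d‖ ^ 2).continuousAt.eventually_lt
      continuousAt_const (by simpa using h)
  filter_upwards [nhdsWithin_le_nhds h1, self_mem_nhdsWithin] with ε h2 (h3 : 0 < ε)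
  apply lt_of_pow_lt_pow_left₀ 2 (norm_nonneg _)
  rw [norm_sub_sq_real, inner_smul_right, norm_smul, Real.norm_eq_abs, mul_pow, sq_abs]
  nlinarith

lemma desc {n : ℕ} (p : Fin n → E) (A : Fin n → ℝ) (o d : E) (M : ℝ)
    (hM : ∀ i, ‖p i - o‖ - A i ≤ M) (hd : ∀ i, ‖p i - o‖ - A i = M → 0 < inner ℝ (p i - o) d) :
    ∀ᶠ ε in 𝓝[>] (0 : ℝ), ∀ i, ‖p i - (o + ε • d)‖ - A i < M := by
  rw [eventually_all]
  intro i
  rcases (hM i).eq_or_lt with h | h
  · filter_upwards [closer _ d (hd i h)] with ε hε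
    rw [← sub_sub]; linarith
  · refine nhdsWithin_le_nhds ?_
    exact (by fun_prop : Continuous fun ε : ℝ => ‖p i - (o + ε • d)‖ - A i).continuousAt.eventually_lt
      continuousAt_const (by simpa using h)

theorem main {n : ℕ} (hn : 1 ≤ n) (r b : Fin n → E)
    (hmax : ∀ σ : Equiv.Perm (Fin n), ∑ i, ‖r i - b (σ i)‖ ≤ ∑ i, ‖r i - b i‖) :
    ∃ o : E, ∀ i, ‖r i - o‖ + ‖b i - o‖ ≤ √2 * ‖r i - b i‖ := by
  obtain ⟨v, hv⟩ := exists_pot (fun i j => ‖r i - b j‖ - ‖r i - b i‖) (fun i => sub_self _)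
    (fun σ => by rw [Finset.sum_sub_distrib]; linarith [hmax σ])
  have : Nonempty (Fin n) := ⟨⟨0, hn⟩⟩
  have hu : (Finset.univ : Finset (Fin n)).Nonempty := Finset.univ_nonempty
  set A : Fin n → ℝ := fun i => √2 * (‖r i - b i‖ + v i) with hA
  set B : Fin n → ℝ := fun j => √2 * (-v j) with hB
  have hAB : ∀ i j, √2 * ‖r i - b j‖ ≤ A i + B j := by
    intro i j
    have := hv i j
    simp only [hA, hB]
    rw [← mul_add]
    exact mul_le_mul_of_nonneg_left (by linarith) (Real.sqrt_nonneg _)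
  set F : E → ℝ := fun o => Finset.univ.sup' hu fun i => ‖r i - o‖ - A i with hF
  set G : E → ℝ := fun o => Finset.univ.sup' hu fun i => ‖b i - o‖ - B i with hG
  have cF : Continuous F := Continuous.finset_sup'_apply hu fun i _ => by fun_prop
  have cG : Continuous G := Continuous.finset_sup'_apply hu fun i _ => by fun_prop
  have hK := ((Set.finite_range r).union (Set.finite_range b)).isCompact_convexHull ℝ
  obtain ⟨o, ho, hmin⟩ := hK.exists_isMinOn (f := fun o => F o + G o)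
    (Set.range_nonempty r).inl.convexHull (cF.add cG).continuousOn
  have lF : ∀ i, ‖r i - o‖ - A i ≤ F o := fun i =>
    Finset.le_sup' (fun i => ‖r i - o‖ - A i) (Finset.mem_univ i)
  have lG : ∀ i, ‖b i - o‖ - B i ≤ G o := fun i =>
    Finset.le_sup' (fun i => ‖b i - o‖ - B i) (Finset.mem_univ i)
  suffices h : F o + G o ≤ 0 by
    refine ⟨o, fun i => ?_⟩
    have := lF i
    have := lG i
    have : A i + B i = √2 * ‖r i - b i‖ := by simp only [hA, hB]; ring
    linarith
  by_contra hpos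
  push Not at hpos
  have pos : ∀ i j, ‖r i - o‖ - A i = F o → ‖b j - o‖ - B j = G o →
      0 < inner ℝ (r i - o) (b j - o) := by
    intro i j hi hj
    by_contra hh
    push Not at hh
    have e := norm_sub_sq_real (r i - o) (b j - o)
    rw [sub_sub_sub_cancel_right] at e
    have h1 : (‖r i - o‖ + ‖b j - o‖) ^ 2 ≤ (√2 * ‖r i - b j‖) ^ 2 := by
      rw [mul_pow, Real.sq_sqrt (by norm_num)]
      nlinarith [sq_nonneg (‖r i - o‖ - ‖b j - o‖)]
    have h2 := le_of_pow_le_pow_left₀ two_ne_zero (by positivity) h1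
    have := hAB i j
    linarith
  obtain ⟨i0, -, hi0⟩ := Finset.exists_mem_eq_sup' hu fun i => ‖r i - o‖ - A i
  obtain ⟨j0, -, hj0⟩ := Finset.exists_mem_eq_sup' hu fun i => ‖b i - o‖ - B i
  obtain ⟨d, hd, hpd⟩ := exists_dir ((fun i => r i - o) '' {i | ‖r i - o‖ - A i = F o})
    ((fun i => b i - o) '' {i | ‖b i - o‖ - B i = G o}) (Set.toFinite _) (Set.toFinite _)
    ⟨_, i0, hi0.symm, rfl⟩ ⟨_, j0, hj0.symm, rfl⟩ (by
      rintro _ ⟨i, hi, rfl⟩ _ ⟨j, hj, rfl⟩
      exact pos i j hi hj)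
  have hod : o + d ∈ convexHull ℝ (Set.range r ∪ Set.range b) := by
    refine convexHull_min (t := {d | o + d ∈ convexHull ℝ (Set.range r ∪ Set.range b)}) ?_
      ((convex_convexHull ℝ _).translate_preimage_right o) hd
    rintro _ (⟨i, -, rfl⟩ | ⟨i, -, rfl⟩) <;> exact subset_convexHull ℝ _ (by simp)
  have e1 := desc r A o d _ lF fun i hi => hpd _ (Or.inl ⟨i, hi, rfl⟩)
  have e2 := desc b B o d _ lG fun i hi => hpd _ (Or.inr ⟨i, hi, rfl⟩)
  have e3 : ∀ᶠ ε in 𝓝[>] (0 : ℝ), ε ∈ Set.Ioo (0 : ℝ) 1 := Ioo_mem_nhdsGT one_pos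
  obtain ⟨ε, h1, h2, h3⟩ := (e1.and (e2.and e3)).exists
  have m : o + ε • d ∈ convexHull ℝ (Set.range r ∪ Set.range b) :=
    (convex_convexHull ℝ _).add_smul_mem ho hod ⟨h3.1.le, h3.2.le⟩
  have a1 : F (o + ε • d) < F o := (Finset.sup'_lt_iff hu).mpr fun i _ => h1 i
  have a2 : G (o + ε • d) < G o := (Finset.sup'_lt_iff hu).mpr fun i _ => h2 i
  have : F o + G o ≤ F (o + ε • d) + G (o + ε • d) := hmin m
  linarith

end Pool.Agent.H6.Finger
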