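import Mathlib

namespace Pool.Agent.H6.FranklWilson

open Finset

variable {n : ℕ} {K : Type} [Field K]

def eps (K : Type) [Ring K] (i : Fin n) (B : Finset (Fin n)) : K := if i ∈ B then -1 else 1

def chi (K : Type) [CommRing K] (S : Finset (Fin n)) : Finset (Fin n) → K :=
  fun B => ∏ i ∈ S, eps K i B

lemma eps_sq {R : Type} [Ring R] (i : Fin n) (B : Finset (Fin n)) : eps R i B * eps R i B = 1 := by
  unfold eps; split_ifs <;> simp

def V (K : Type) [Field K] (n k : ℕ) : Submodule K (Finset (Fin n) → K) :=
  Submodule.span K ((chi K) '' {S : Finset (Fin n) | S.card ≤ k})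

lemma V_mono {k l : ℕ} (h : k ≤ l) : V K n k ≤ V K n l :=
  Submodule.span_mono (Set.image_mono fun _ hS => le_trans hS h)

lemma mul_mem {k : ℕ} (i : Fin n) {g : Finset (Fin n) → K} (hg : g ∈ V K n k) :
    (fun B => eps K i B * g B) ∈ V K n (k + 1) := by
  induction hg using Submodule.span_induction with
  | mem g hg =>
    obtain ⟨S, hS, rfl⟩ := hg
    apply Submodule.subset_span
    by_cases hi : i ∈ S
    · refine ⟨S.erase i, ?_, ?_⟩
      · have := card_erase_le (s := S) (a := i)
        simp only [Set.mem_ofPred_eq] at hS ⊢; omega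
      · funext B
        simp only [chi]
        rw [← mul_prod_erase S _ hi, ← mul_assoc, eps_sq, one_mul]
    · refine ⟨insert i S, ?_, ?_⟩
      · simp only [Set.mem_ofPred_eq] at hS ⊢
        rw [card_insert_of_notMem hi]; omega
      · funext B
        simp only [chi]
        rw [prod_insert hi]
  | zero => convert (V K n (k + 1)).zero_mem using 1; funext B; simp
  | add x y _ _ hx hy =>
    convert (V K n (k + 1)).add_mem hx hy using 1; funext B; simp [mul_add]
  | smul a x _ hx =>
    convert (V K n (k + 1)).smul_mem a hx using 1; funext B; simp; ring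

def ip (R : Type) [Ring R] (A B : Finset (Fin n)) : R := ∑ i, eps R i A * eps R i B

lemma one_mem : (fun _ => (1 : K)) ∈ V K n 0 :=
  Submodule.subset_span ⟨∅, by simp, by funext B; simp [chi]⟩

lemma pow_mem (A : Finset (Fin n)) (k : ℕ) : (fun B => ip K A B ^ k) ∈ V K n k := by
  induction k with
  | zero => simpa using one_mem
  | succ k ih =>
    have := (V K n (k + 1)).sum_mem (t := univ)
      (f := fun i => eps K i A • fun B => eps K i B * ip K A B ^ k)
      (fun i _ => (V K n (k + 1)).smul_mem _ (mul_mem i ih))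
    convert this using 1
    funext B
    simp only [Finset.sum_apply, Pi.smul_apply, smul_eq_mul]
    rw [pow_succ', ip, sum_mul]
    refine sum_congr rfl fun i _ => by ring

lemma finrank_V (k : ℕ) : Module.finrank K (V K n k) ≤ ∑ j ∈ range (k + 1), n.choose j := by
  classical
  have h1 : V K n k = Submodule.span K
      (((univ.filter fun S : Finset (Fin n) => S.card ≤ k).image (chi K) : Finset _) : Set _) := by
    unfold V; congr 1; ext f; simp
  rw [h1]
  refine (finrank_span_finset_le_card _).trans (card_image_le.trans ?_)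
  have : (univ.filter fun S : Finset (Fin n) => S.card ≤ k) ⊆
      (range (k + 1)).biUnion (fun j => powersetCard j univ) := by
    intro S hS
    simp only [mem_filter, mem_univ, true_and] at hS
    simp only [mem_biUnion, mem_range, mem_powersetCard]
    exact ⟨S.card, by omega, subset_univ _, rfl⟩
  refine (card_le_card this).trans (card_biUnion_le.trans ?_)
  simp

lemma ip_cast (R : Type) [Ring R] (A B : Finset (Fin n)) : ((ip ℤ A B : ℤ) : R) = ip R A B := by
  unfold ip eps
  push_cast
  rfl

theorem fw (p : ℕ) [hp : Fact p.Prime] (F : Finset (Finset (Fin n)))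
    (h0 : ∀ A ∈ F, (p : ℤ) ∣ ip ℤ A A)
    (h : ∀ A ∈ F, ∀ B ∈ F, A ≠ B → ¬ (p : ℤ) ∣ ip ℤ A B) :
    F.card ≤ ∑ j ∈ range p, n.choose j := by
  classical
  have hp1 : p - 1 + 1 = p := Nat.sub_add_cancel hp.out.one_le
  let f : F → V (ZMod p) n (p - 1) := fun A =>
    ⟨fun B => 1 - ip (ZMod p) A B ^ (p - 1),
      (V (ZMod p) n (p - 1)).sub_mem (V_mono (Nat.zero_le _) one_mem) (pow_mem A.1 _)⟩
  have hf : ∀ A B : F, (f A).1 B.1 = if A = B then 1 else 0 := by
    intro A B
    simp only [f]
    rw [← ip_cast]
    split_ifs with e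
    · subst e
      rw [(ZMod.intCast_zmod_eq_zero_iff_dvd _ _).2 (h0 _ A.2),
        zero_pow (by have := hp.out.two_le; omega), sub_zero]
    · rw [ZMod.pow_card_sub_one_eq_one, sub_self]
      intro hz
      exact h _ A.2 _ B.2 (fun e' => e (Subtype.ext e'))
        ((ZMod.intCast_zmod_eq_zero_iff_dvd _ _).1 hz)
  have hli : LinearIndependent (ZMod p) f := by
    rw [Fintype.linearIndependent_iff]
    intro g hg B
    have := congrArg (fun v : V (ZMod p) n (p - 1) => v.1 B.1) hg
    simp only [Submodule.coe_sum, Submodule.coe_smul, Finset.sum_apply, Pi.smul_apply, hf,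
      smul_eq_mul, mul_ite, mul_one, mul_zero, sum_ite_eq', mem_univ, if_true] at this
    simpa using this
  have := hli.fintype_card_le_finrank
  rw [Fintype.card_coe] at this
  have h2 := finrank_V (K := ZMod p) (n := n) (p - 1)
  rw [hp1] at h2
  exact this.trans h2

lemma ip_eq (A B : Finset (Fin n)) : ip ℤ A B = n - 2 * ((symmDiff A B).card : ℤ) := by
  have : ∀ i, eps ℤ i A * eps ℤ i B = 1 - 2 * (if i ∈ symmDiff A B then 1 else 0) := by
    intro i
    unfold eps
    by_cases hA : i ∈ A <;> by_cases hB : i ∈ B <;> simp [hA, hB, mem_symmDiff]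
  unfold ip
  simp only [this, sum_sub_distrib, ← mul_sum]
  simp

lemma card_symmDiff_parity (A B : Finset (Fin n)) (h : A.card % 2 = B.card % 2) :
    (symmDiff A B).card % 2 = 0 := by
  have h1 : (symmDiff A B).card = (A \ B).card + (B \ A).card := by
    rw [symmDiff_def, sup_eq_union, card_union_of_disjoint disjoint_sdiff_sdiff]
  have h2 := card_sdiff_add_card_inter A B
  have h3 := card_sdiff_add_card_inter B A
  rw [inter_comm] at h3
  omega

/-- orthogonality-free families -/
theorem fw4 (p : ℕ) [hp : Fact p.Prime] (hp2 : p ≠ 2) (hn : n = 4 * p) (z : Fin n)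
    (F : Finset (Finset (Fin n))) (hz : ∀ A ∈ F, z ∉ A)
    (hpar : ∀ A ∈ F, ∀ B ∈ F, A.card % 2 = B.card % 2)
    (h : ∀ A ∈ F, ∀ B ∈ F, ip ℤ A B ≠ 0) : F.card ≤ ∑ j ∈ range p, n.choose j := by
  refine fw p F (fun A _ => ?_) (fun A hA B hB hne hd => ?_)
  · rw [ip_eq]; simp [hn]
  · have h1 := h A hA B hB
    have h2 := card_symmDiff_parity A B (hpar A hA B hB)
    rw [ip_eq] at h1 hd
    have h3 : 0 < (symmDiff A B).card := by
      rw [card_pos, nonempty_iff_ne_empty]
      intro e
      exact hne (symmDiff_eq_bot.1 e)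
    have h4 : (symmDiff A B).card < n := by
      have : symmDiff A B ⊂ univ := by
        refine ⟨subset_univ _, fun hh => ?_⟩
        have := hh (mem_univ z)
        rw [mem_symmDiff] at this
        rcases this with t | t
        · exact hz A hA t.1
        · exact hz B hB t.1
      simpa using card_lt_card this
    obtain ⟨c, hc⟩ : ∃ c, (symmDiff A B).card = 2 * c := ⟨(symmDiff A B).card / 2, by omega⟩
    rw [hc] at h1 hd h3 h4
    have h5 : (p : ℤ) ∣ 4 * (c : ℤ) := by
      have : (4 * c : ℤ) = 4 * p - (n - 2 * ((2 * c : ℕ) : ℤ)) := by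
        rw [hn]; push_cast; ring
      rw [this]
      exact dvd_sub (Dvd.intro_left _ rfl) hd
    have h6 : p ∣ 4 * c := by exact_mod_cast h5
    have h7 : p ∣ c := by
      rcases (Nat.Prime.dvd_mul hp.out).1 h6 with t | t
      · have : p ∣ 2 := hp.out.dvd_of_dvd_pow (n := 2) (by simpa using t)
        exact absurd ((Nat.prime_dvd_prime_iff_eq hp.out Nat.prime_two).1 this) hp2
      · exact t
    obtain ⟨e, rfl⟩ := h7
    have : e = 1 := by
      have hp0 := hp.out.pos
      have : 0 < e := by
        rcases Nat.eq_zero_or_pos e with rfl | t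
        · simp at h3
        · exact t
      by_contra hne1
      have : 2 ≤ e := by omega
      nlinarith
    subst this
    apply h1
    rw [hn]; push_cast; ring

end Pool.Agent.H6.FranklWilson
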