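import Mathlib

namespace Pool.Agent.H6.GPCover

open Filter

/-- `F` is a `k`-term geometric progression of positive integers `a, a r, ..., a r^(k-1)`
whose common ratio `r` lies in the set `R` of allowed ratios. -/
def IsGP (R : Set ℚ) (k : ℕ) (F : Finset ℚ) : Prop :=
  ∃ (a : ℕ) (r : ℚ), 0 < a ∧ r ∈ R ∧
    F = (Finset.range k).image (fun i => (a : ℚ) * r ^ i) ∧ ∀ x ∈ F, ∃ n : ℕ, x = n

/-- `C` is a finite family of `k`-term geometric progressions covering `{1, ..., N}`. -/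
def IsCover (R : Set ℚ) (k N : ℕ) (C : Finset (Finset ℚ)) : Prop :=
  (∀ F ∈ C, IsGP R k F) ∧ ∀ n : ℕ, 1 ≤ n → n ≤ N → ∃ F ∈ C, (n : ℚ) ∈ F

/-- The least size `m_k(N)` of a cover of `{1, ..., N}`. -/
noncomputable def minCover (R : Set ℚ) (k N : ℕ) : ℕ :=
  sInf {c : ℕ | ∃ C, IsCover R k N C ∧ C.card = c}

/-- `liminf_N m_k(N) / N`. -/
noncomputable def gammaLow (R : Set ℚ) (k : ℕ) : ℝ :=
  liminf (fun N : ℕ => (minCover R k N : ℝ) / N) atTop

/-- `limsup_N m_k(N) / N`. -/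
noncomputable def gammaUp (R : Set ℚ) (k : ℕ) : ℝ :=
  limsup (fun N : ℕ => (minCover R k N : ℝ) / N) atTop

end Pool.Agent.H6.GPCover
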