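import Mathlib
import Pool.Agent.H6.GPCoverDefs

namespace Pool.Agent.H6.GPCover

open Filter Finset Topology

def gp2 (k a : ℕ) : Finset ℚ := (Finset.range k).image (fun i => (a : ℚ) * (2 : ℚ) ^ i)

lemma gp2_isGP {R : Set ℚ} (h2 : (2 : ℚ) ∈ R) (k a : ℕ) (ha : 0 < a) : IsGP R k (gp2 k a) := by
  refine ⟨a, 2, ha, h2, rfl, ?_⟩
  intro x hx
  simp only [gp2, mem_image] at hx
  obtain ⟨i, -, rfl⟩ := hx
  exact ⟨a * 2 ^ i, by push_cast; ring⟩

lemma upper {R : Set ℚ} (h2 : (2 : ℚ) ∈ R) (k N : ℕ) (hk : 1 ≤ k) :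
    ∃ C, IsCover R k N C ∧ C.card ≤ (N + 1) / 2 + N / 2 ^ k := by
  classical
  let S : Finset ℕ := ((range ((N + 1) / 2)).image (fun j => 2 * j + 1)) ∪
    ((range (N / 2 ^ k)).image (fun j => 2 ^ k * (j + 1)))
  refine ⟨S.image (gp2 k), ⟨?_, ?_⟩, ?_⟩
  · intro F hF
    obtain ⟨a, ha, rfl⟩ := mem_image.1 hF
    apply gp2_isGP h2
    simp only [S, mem_union, mem_image] at ha
    rcases ha with ⟨j, -, rfl⟩ | ⟨j, -, rfl⟩ <;> positivity
  · intro n h1 hN
    by_cases hd : 2 ^ k ∣ n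
    · obtain ⟨c, rfl⟩ := hd
      have hc : 0 < c := by
        rcases Nat.eq_zero_or_pos c with rfl | h
        · simp at h1
        · exact h
      refine ⟨gp2 k (2 ^ k * c), mem_image_of_mem _ ?_, ?_⟩
      · simp only [S, mem_union, mem_image, mem_range]
        right
        refine ⟨c - 1, ?_, by rw [Nat.sub_add_cancel hc]⟩
        have : c ≤ N / 2 ^ k := by
          rw [Nat.le_div_iff_mul_le (by positivity)]; linarith
        omega
      · simp only [gp2, mem_image, mem_range]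
        exact ⟨0, hk, by simp⟩
    · obtain ⟨t, b, hb, rfl⟩ := Nat.exists_eq_two_pow_mul_odd (n := n) (by omega)
      have ht : t < k := by
        by_contra h
        exact hd (Dvd.dvd.mul_right (pow_dvd_pow 2 (by omega)) _)
      obtain ⟨j, rfl⟩ := hb
      refine ⟨gp2 k (2 * j + 1), mem_image_of_mem _ ?_, ?_⟩
      · simp only [S, mem_union, mem_image, mem_range]
        left
        refine ⟨j, ?_, rfl⟩
        have : 2 * j + 1 ≤ 2 ^ t * (2 * j + 1) := Nat.le_mul_of_pos_left _ (by positivity)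
        omega
      · simp only [gp2, mem_image, mem_range]
        exact ⟨t, ht, by push_cast; ring⟩
  · refine card_image_le.trans ((card_union_le _ _).trans ?_)
    gcongr
    · exact card_image_le.trans (by simp)
    · exact card_image_le.trans (by simp)

/-- terms of a progression with non-integral ratio are divisible by a high power -/
lemma term_dvd {k a : ℕ} {r : ℚ} (hr : 1 < r) (hq : r.den ≠ 1)
    (hint : ∀ i < k, ∃ n : ℕ, (a : ℚ) * r ^ i = n) {i n : ℕ} (hi : i < k)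
    (hn : (a : ℚ) * r ^ i = n) : ∃ d : ℕ, 2 ≤ d ∧ d ^ (k / 2) ∣ n := by
  have hp0 : 0 < r.num := Rat.num_pos.2 (by linarith)
  obtain ⟨p, hp⟩ : ∃ p : ℕ, r.num = p := ⟨r.num.toNat, (Int.toNat_of_nonneg hp0.le).symm⟩
  have hcop : Nat.Coprime p r.den := by
    have := r.reduced
    rwa [hp, Int.natAbs_natCast] at this
  have hq0 : (0 : ℚ) < r.den := by exact_mod_cast r.den_pos
  have hrr : r = (p : ℚ) / r.den := by
    conv_lhs => rw [← Rat.num_div_den r, hp]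
    simp
  have key : ∀ j m : ℕ, (a : ℚ) * r ^ j = m → a * p ^ j = m * r.den ^ j := by
    intro j m h
    rw [hrr, div_pow, ← mul_div_assoc, div_eq_iff (by positivity)] at h
    exact_mod_cast h
  have hq2 : 2 ≤ r.den := by have := r.den_pos; omega
  have hp2 : 2 ≤ p := by
    have : (r.den : ℚ) < p := by
      rw [hrr, lt_div_iff₀ hq0] at hr; linarith
    have : r.den < p := by exact_mod_cast this
    omega
  by_cases hcase : k / 2 ≤ i
  · refine ⟨p, hp2, (pow_dvd_pow p hcase).trans ?_⟩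
    have h1 := key i n hn
    have : p ^ i ∣ n * r.den ^ i := ⟨a, by rw [← h1]; ring⟩
    exact (Nat.Coprime.pow i i hcop).dvd_of_dvd_mul_right this
  · refine ⟨r.den, hq2, ?_⟩
    obtain ⟨m, hm⟩ := hint (k - 1) (by omega)
    have h1 := key _ _ hm
    have h2 : r.den ^ (k - 1) ∣ a := by
      have : r.den ^ (k - 1) ∣ a * p ^ (k - 1) := ⟨m, by rw [h1]; ring⟩
      exact (Nat.Coprime.pow _ _ hcop.symm).dvd_of_dvd_mul_right this
    obtain ⟨c, hc⟩ := h2
    have h3 := key i n hn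
    have h4 : r.den ^ (k - 1) = r.den ^ (k - 1 - i) * r.den ^ i := by
      rw [← pow_add]; congr 1; omega
    have h5 : n = r.den ^ (k - 1 - i) * (c * p ^ i) := by
      have : n * r.den ^ i = (r.den ^ (k - 1 - i) * (c * p ^ i)) * r.den ^ i := by
        rw [← h3, hc, h4]; ring
      exact Nat.eq_of_mul_eq_mul_right (pow_pos r.den_pos _) this
    rw [h5]
    exact Dvd.dvd.mul_right (pow_dvd_pow _ (by omega)) _

open Classical in
lemma lower_card {R : Set ℚ} (hR : ∀ r ∈ R, 1 < r) {k N : ℕ} {C : Finset (Finset ℚ)}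
    (hC : IsCover R k N C) :
    ((Ioc (N / 2) N).filter (fun n => ∀ d, 2 ≤ d → ¬ d ^ (k / 2) ∣ n)).card ≤ C.card := by
  classical
  set G := (Ioc (N / 2) N).filter (fun n => ∀ d, 2 ≤ d → ¬ d ^ (k / 2) ∣ n)
  have hex : ∀ n ∈ G, ∃ F ∈ C, (n : ℚ) ∈ F := by
    intro n hn
    simp only [G, mem_filter, mem_Ioc] at hn
    exact hC.2 n (by omega) hn.1.2
  choose! f hf using hex
  refine card_le_card_of_injOn f (fun n hn => (hf n hn).1) ?_
  intro n hn n' hn' hff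
  have hn1 := hf n hn
  have hn2 := hf n' hn'
  rw [← hff] at hn2
  obtain ⟨a, r, ha, hr, hF, hint⟩ := hC.1 _ hn1.1
  have hr1 := hR r hr
  have hint' : ∀ i < k, ∃ n : ℕ, (a : ℚ) * r ^ i = n := fun i hi =>
    hint _ (by rw [hF]; exact mem_image.2 ⟨i, mem_range.2 hi, rfl⟩)
  have m1 := hn1.2
  have m2 := hn2.2
  rw [hF] at m1 m2
  obtain ⟨i, hi, ei⟩ := mem_image.1 m1
  obtain ⟨j, hj, ej⟩ := mem_image.1 m2
  have hG1 : n ∈ G := hn
  have hG2 : n' ∈ G := hn'
  simp only [G, mem_filter, mem_Ioc] at hG1 hG2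
  by_cases hq : r.den = 1
  · have hr2 : (2 : ℚ) ≤ r := by
      have e : r = r.num := (Rat.coe_int_num_of_den_eq_one hq).symm
      rw [e] at hr1 ⊢
      have : (1 : ℤ) < r.num := by exact_mod_cast hr1
      exact_mod_cast this
    have aux : ∀ (i j n n' : ℕ), (a : ℚ) * r ^ i = n → (a : ℚ) * r ^ j = n' → i < j →
        N / 2 < n → n' ≤ N → False := by
      intro i j n n' ei ej hij h1 h2
      have : (2 : ℚ) * n ≤ n' := by
        rw [← ei, ← ej]
        have h3 : r ^ (i + 1) ≤ r ^ j := pow_le_pow_right₀ hr1.le hij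
        have h4 : (0 : ℚ) < r ^ i := by positivity
        have h5 : (0 : ℚ) < a := by exact_mod_cast ha
        rw [pow_succ] at h3
        nlinarith [mul_le_mul_of_nonneg_left hr2 h4.le]
      have : 2 * n ≤ n' := by exact_mod_cast this
      omega
    rcases lt_trichotomy i j with h | h | h
    · exact (aux i j n n' ei ej h hG1.1.1 hG2.1.2).elim
    · subst h; rw [ei] at ej; exact_mod_cast ej
    · exact (aux j i n' n ej ei h hG2.1.1 hG1.1.2).elim
  · obtain ⟨d, hd, hdd⟩ := term_dvd hr1 hq hint' (mem_range.1 hi) ei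
    exact (hG1.2 d hd hdd).elim

open Classical in
lemma good_card (h N : ℕ) :
    (N : ℝ) / 2 - N / 2 ^ h ≤
      ((Ioc (N / 2) N).filter (fun n => ∀ d, 2 ≤ d → ¬ d ^ (h + 2) ∣ n)).card := by
  classical
  set G := (Ioc (N / 2) N).filter (fun n => ∀ d, 2 ≤ d → ¬ d ^ (h + 2) ∣ n)
  have hsub : Ioc (N / 2) N ⊆ G ∪ (Ioc 1 N).biUnion
      (fun d => (Ioc 0 N).filter (fun n => d ^ (h + 2) ∣ n)) := by
    intro n hn
    by_cases hg : n ∈ G
    · exact mem_union_left _ hg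
    · apply mem_union_right
      simp only [G, mem_filter, hn, true_and, not_forall, not_not] at hg
      obtain ⟨d, hd, hdd⟩ := hg
      rw [mem_Ioc] at hn
      have hn0 : 0 < n := by omega
      have : d ≤ n := (Nat.le_self_pow (by omega) d).trans (Nat.le_of_dvd hn0 hdd)
      simp only [mem_biUnion, mem_filter, mem_Ioc]
      exact ⟨d, ⟨by omega, by omega⟩, ⟨hn0, hn.2⟩, hdd⟩
  have h1 := (card_le_card hsub).trans ((card_union_le _ _).trans
    (Nat.add_le_add_left card_biUnion_le _))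
  simp only [Nat.card_Ioc, Nat.Ioc_filter_dvd_card_eq_div] at h1
  have h2 : ((N - N / 2 : ℕ) : ℝ) ≤ G.card + ∑ d ∈ Ioc 1 N, ((N / d ^ (h + 2) : ℕ) : ℝ) := by
    exact_mod_cast h1
  have h3 : (N : ℝ) / 2 ≤ ((N - N / 2 : ℕ) : ℝ) := by
    have : N ≤ 2 * (N - N / 2) := by omega
    have : (N : ℝ) ≤ 2 * ((N - N / 2 : ℕ) : ℝ) := by exact_mod_cast this
    linarith
  have h4 : ∑ d ∈ Ioc 1 N, ((N / d ^ (h + 2) : ℕ) : ℝ) ≤
      ∑ d ∈ Ioc 1 N, (N : ℝ) / 2 ^ h * ((d : ℝ) ^ 2)⁻¹ := by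
    refine sum_le_sum fun d hd => Nat.cast_div_le.trans ?_
    rw [mem_Ioc] at hd
    have hd2 : (2 : ℝ) ≤ d := by exact_mod_cast hd.1
    push_cast
    rw [pow_add, ← div_div, div_eq_mul_inv _ ((d : ℝ) ^ 2)]
    gcongr
  have h5 : ∑ d ∈ Ioc 1 N, ((d : ℝ) ^ 2)⁻¹ ≤ 1 := by
    rcases Nat.eq_zero_or_pos N with rfl | hN
    · simp
    · have := sum_Ioc_inv_sq_le_sub (α := ℝ) (k := 1) (n := N) one_ne_zero hN
      have h0 : (0 : ℝ) ≤ (N : ℝ)⁻¹ := by positivity
      simp only [Nat.cast_one, inv_one] at this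
      linarith
  rw [← mul_sum] at h4
  have h6 : (N : ℝ) / 2 ^ h * ∑ d ∈ Ioc 1 N, ((d : ℝ) ^ 2)⁻¹ ≤ N / 2 ^ h :=
    mul_le_of_le_one_right (by positivity) h5
  linarith

lemma bounds {R : Set ℚ} (hR : ∀ r ∈ R, 1 < r) (h2 : (2 : ℚ) ∈ R) {k : ℕ} (hk : 4 ≤ k)
    {N : ℕ} (hN : 0 < N) :
    1 / 2 - 1 / 2 ^ (k / 2 - 2) ≤ (minCover R k N : ℝ) / N ∧
      (minCover R k N : ℝ) / N ≤ 1 / 2 + 1 / 2 ^ k + 1 / N := by
  obtain ⟨C, hC, hc⟩ := upper h2 k N (by omega)
  have hN' : (0 : ℝ) < N := by exact_mod_cast hN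
  constructor
  · have hne : {c : ℕ | ∃ C, IsCover R k N C ∧ C.card = c}.Nonempty := ⟨_, C, hC, rfl⟩
    obtain ⟨C', hC', e⟩ := Nat.sInf_mem hne
    have h1 := lower_card hR hC'
    have h3 := good_card (k / 2 - 2) N
    rw [show k / 2 - 2 + 2 = k / 2 by omega] at h3
    have h4 : (N : ℝ) / 2 - N / 2 ^ (k / 2 - 2) ≤ minCover R k N := by
      refine h3.trans ?_
      unfold minCover
      rw [← e]
      exact_mod_cast h1
    rw [le_div_iff₀ hN']
    calc _ = (N : ℝ) / 2 - N / 2 ^ (k / 2 - 2) := by ring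
      _ ≤ _ := h4
  · have h1 : minCover R k N ≤ (N + 1) / 2 + N / 2 ^ k :=
      (Nat.sInf_le (s := {c : ℕ | ∃ C, IsCover R k N C ∧ C.card = c}) ⟨C, hC, rfl⟩).trans hc
    have h3 : (minCover R k N : ℝ) ≤ ((N + 1) / 2 : ℕ) + ((N / 2 ^ k : ℕ) : ℝ) := by
      exact_mod_cast h1
    have h4 : (((N + 1) / 2 : ℕ) : ℝ) ≤ (N + 1) / 2 := by
      simpa using Nat.cast_div_le (α := ℝ) (m := N + 1) (n := 2)
    have h5 : ((N / 2 ^ k : ℕ) : ℝ) ≤ N / 2 ^ k := by
      simpa using Nat.cast_div_le (α := ℝ) (m := N) (n := 2 ^ k)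
    rw [div_le_iff₀ hN']
    have : (1 / 2 + 1 / 2 ^ k + 1 / N : ℝ) * N = N / 2 + N / 2 ^ k + 1 := by
      field_simp
    linarith

theorem main {R : Set ℚ} (hR : ∀ r ∈ R, 1 < r) (h2 : (2 : ℚ) ∈ R) :
    Tendsto (gammaLow R) atTop (𝓝 (1 / 2)) ∧ Tendsto (gammaUp R) atTop (𝓝 (1 / 2)) := by
  have key : ∀ k, 4 ≤ k → 1 / 2 - 1 / 2 ^ (k / 2 - 2) ≤ gammaLow R k ∧
      gammaLow R k ≤ gammaUp R k ∧ gammaUp R k ≤ 1 / 2 + 1 / 2 ^ k := by
    intro k hk
    have lo : ∀ᶠ N : ℕ in atTop, 1 / 2 - 1 / 2 ^ (k / 2 - 2) ≤ (minCover R k N : ℝ) / N :=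
      (eventually_gt_atTop 0).mono fun N hN => (bounds hR h2 hk hN).1
    have up : ∀ᶠ N : ℕ in atTop, (minCover R k N : ℝ) / N ≤ 1 / 2 + 1 / 2 ^ k + 1 / N :=
      (eventually_gt_atTop 0).mono fun N hN => (bounds hR h2 hk hN).2
    have up' : ∀ᶠ N : ℕ in atTop, (minCover R k N : ℝ) / N ≤ 1 / 2 + 1 / 2 ^ k + 1 := by
      filter_upwards [up, eventually_gt_atTop 0] with N h hN
      have : (1 : ℝ) / N ≤ 1 := by
        rw [div_le_one (by exact_mod_cast hN)]; exact_mod_cast hN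
      linarith
    have bA : IsBoundedUnder (· ≤ ·) atTop (fun N : ℕ => (minCover R k N : ℝ) / N) := ⟨_, up'⟩
    have bB : IsBoundedUnder (· ≥ ·) atTop (fun N : ℕ => (minCover R k N : ℝ) / N) := ⟨_, lo⟩
    refine ⟨le_liminf_of_le bA.isCoboundedUnder_ge lo, liminf_le_limsup bA bB, ?_⟩
    have ht : Tendsto (fun N : ℕ => (1 / 2 + 1 / 2 ^ k + 1 / N : ℝ)) atTop
        (𝓝 (1 / 2 + 1 / 2 ^ k + 0)) :=
      tendsto_const_nhds.add tendsto_one_div_atTop_nhds_zero_nat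
    have := limsup_le_limsup up bB.isCoboundedUnder_le ht.isBoundedUnder_le
    rw [ht.limsup_eq, add_zero] at this
    exact this
  have t0 : Tendsto (fun k : ℕ => (1 : ℝ) / 2 ^ k) atTop (𝓝 0) := by
    simpa using tendsto_pow_atTop_nhds_zero_of_lt_one (r := (1 / 2 : ℝ)) (by norm_num) (by norm_num)
  have t1 : Tendsto (fun k : ℕ => (1 / 2 : ℝ) - 1 / 2 ^ (k / 2 - 2)) atTop (𝓝 (1 / 2)) := by
    have : Tendsto (fun k : ℕ => k / 2 - 2) atTop atTop := by
      refine tendsto_atTop_atTop.2 fun b => ⟨2 * b + 4, fun k hk => by omega⟩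
    simpa using (tendsto_const_nhds (x := (1 / 2 : ℝ))).sub (t0.comp this)
  have t2 : Tendsto (fun k : ℕ => (1 / 2 : ℝ) + 1 / 2 ^ k) atTop (𝓝 (1 / 2)) := by
    simpa using (tendsto_const_nhds (x := (1 / 2 : ℝ))).add t0
  constructor
  · refine tendsto_of_tendsto_of_tendsto_of_le_of_le' t1 t2 ?_ ?_
    · exact (eventually_ge_atTop 4).mono fun k hk => (key k hk).1
    · exact (eventually_ge_atTop 4).mono fun k hk => (key k hk).2.1.trans (key k hk).2.2
  · refine tendsto_of_tendsto_of_tendsto_of_le_of_le' t1 t2 ?_ ?_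
    · exact (eventually_ge_atTop 4).mono fun k hk => (key k hk).1.trans (key k hk).2.1
    · exact (eventually_ge_atTop 4).mono fun k hk => (key k hk).2.2

end Pool.Agent.H6.GPCover
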