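import Mathlib

namespace Pool.Agent.H6.Gupta

open Finset

lemma sum_range_card_le (s : Finset ℕ) : ∑ j ∈ range s.card, j ≤ ∑ x ∈ s, x := by
  induction s using Finset.induction_on_max with
  | empty => simp
  | insert a s ha ih =>
    have h1 : a ∉ s := fun h => lt_irrefl _ (ha a h)
    have h2 : s.card ≤ a := by
      simpa using card_le_card (show s ⊆ range a from fun x hx => mem_range.2 (ha x hx))
    rw [card_insert_of_notMem h1, sum_range_succ, sum_insert h1]
    omega

lemma exists_small (n c : ℕ) (v : ℕ → ℕ) (s : Finset ℕ) (hs : s.card = n) (hn : 0 < n)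
    (hinj : Set.InjOn v s) (hsum : ∑ j ∈ s, v j ≤ n * c + ∑ j ∈ range n, j) :
    ∃ j ∈ s, v j ≤ c := by
  by_contra h
  push Not at h
  have h1 : ∑ j ∈ range n, j ≤ ∑ x ∈ s.image (fun j => v j - (c + 1)), x := by
    have hinj' : Set.InjOn (fun j => v j - (c + 1)) s := by
      intro a ha b hb hab
      have := h a ha
      have := h b hb
      apply hinj ha hb
      simp only at hab
      omega
    have := sum_range_card_le (s.image (fun j => v j - (c + 1)))
    rwa [card_image_of_injOn hinj', hs] at this
  have h2 : ∑ x ∈ s.image (fun j => v j - (c + 1)), x ≤ ∑ j ∈ s, (v j - (c + 1)) :=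
    sum_image_le_of_nonneg (f := fun x => x) (by simp)
  have h3 : ∑ j ∈ s, (v j - (c + 1)) + ∑ _j ∈ s, (c + 1) = ∑ j ∈ s, v j := by
    rw [← sum_add_distrib]
    exact sum_congr rfl fun j hj => by have := h j hj; omega
  simp only [sum_const, smul_eq_mul, hs] at h3
  nlinarith

section
variable (n : ℕ) (p : ℕ → ℕ)

def d (t : ℕ) : ℕ := ∑ s ∈ range t, if p (s + 1) < p s then 1 else 0

lemma d_succ (t : ℕ) : d p (t + 1) = d p t + if p (t + 1) < p t then 1 else 0 := sum_range_succ _ _

lemma d_mono {s t : ℕ} (h : s ≤ t) : d p s ≤ d p t ∧ d p t + s ≤ d p s + t := by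
  induction t, h using Nat.le_induction with
  | base => simp
  | succ t _ ih => rw [d_succ]; split_ifs <;> omega

lemma d_per (hp : ∀ t, p (t + n) = p t) (t : ℕ) : d p (t + n) = d p t + d p n := by
  induction t with
  | zero => simp [d]
  | succ t ih =>
    rw [show t + 1 + n = t + n + 1 by ring, d_succ, d_succ, ih, hp,
      show t + n + 1 = t + 1 + n by ring, hp]
    ring

lemma sum_shift (hp : ∀ t, p (t + n) = p t) (a : ℕ) :
    ∑ i ∈ range n, d p (i + a) = ∑ i ∈ range n, d p i + a * d p n := by
  induction a with
  | zero => simp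
  | succ a ih =>
    have h1 := sum_range_succ' (fun i => d p (i + a)) n
    have h2 := sum_range_succ (fun i => d p (i + a)) n
    have h3 := d_per n p hp a
    simp only [zero_add, add_comm n a] at h1 h2
    have h4 : ∑ i ∈ range n, d p (i + (a + 1)) = ∑ i ∈ range n, d p (i + 1 + a) :=
      sum_congr rfl fun i _ => by congr 1; ring
    rw [h4]
    nlinarith

theorem exists_pos (hn2 : 2 ≤ n) (hp : ∀ t, p (t + n) = p t) (hlt : ∀ t, p t < n)
    (hinj : ∀ s t, s < t → t < s + n → p s ≠ p t) :
    ∃ i < n, ∃ pos : ℕ → ℕ, (∀ t, i ≤ t → t + 1 < i + n → pos t < pos (t + 1)) ∧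
      ∀ t, i ≤ t → t < i + n → pos t < 2 * (n ^ 2 / 4) ∧
        (if pos t ≤ n ^ 2 / 4 then pos t else 2 * (n ^ 2 / 4) - pos t) % n = p t := by
  have hn : 0 < n := by omega
  have hd0 : d p 0 = 0 := rfl
  have hD1 : 1 ≤ d p n := by
    by_contra hD0
    have key : ∀ s, s ≤ n → p 0 + s ≤ p s := by
      intro s b2
      induction s with
      | zero => simp
      | succ s ih =>
        have c0 := ih (by omega)
        have c1 := d_succ p s
        have c3 := (d_mono p b2).1
        have c4 := hinj s (s + 1) (by omega) (by omega)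
        split_ifs at c1 <;> omega
    have h1 := key n le_rfl
    have h2 := hp 0
    rw [zero_add] at h2
    omega
  have hDn : d p n ≤ n := by have := (d_mono p (Nat.zero_le n)).2; omega
  obtain ⟨D, hD⟩ : ∃ D, D = d p n := ⟨_, rfl⟩
  rw [← hD] at hD1 hDn
  obtain ⟨A, hA⟩ : ∃ A, n = A + D := ⟨n - D, by omega⟩
  have hM : A * D ≤ n ^ 2 / 4 := by
    rw [Nat.le_div_iff_mul_le (by norm_num), hA]
    nlinarith [sq_nonneg ((A : ℤ) - D)]
  have hinj2 : Set.InjOn (fun i => p (i + A)) (range n) := by
    intro a ha b hb hab
    simp only [coe_range, Set.mem_Iio] at ha hb hab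
    rcases lt_trichotomy a b with h | h | h
    · exact absurd hab (hinj _ _ (by omega) (by omega))
    · exact h
    · exact absurd hab.symm (hinj _ _ (by omega) (by omega))
  have himg : (range n).image (fun i => p (i + A)) = range n := by
    apply eq_of_subset_of_card_le
    · intro x hx
      obtain ⟨i, -, rfl⟩ := mem_image.1 hx
      exact mem_range.2 (hlt _)
    · rw [card_image_of_injOn hinj2]
  obtain ⟨i, hi, hv⟩ := exists_small n (A * D)
    (fun i => n * (d p (i + A) - d p i) + p (i + A)) (range n) (by simp) hn
    (by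
      intro a ha b hb hab
      apply hinj2 ha hb
      have := congrArg (· % n) hab
      simpa [Nat.mul_add_mod, Nat.mod_eq_of_lt (hlt _)] using this)
    (by
      rw [sum_add_distrib, ← mul_sum]
      have h1 : ∑ i ∈ range n, (d p (i + A) - d p i) + ∑ i ∈ range n, d p i =
          ∑ i ∈ range n, d p (i + A) := by
        rw [← sum_add_distrib]
        exact sum_congr rfl fun i _ => by have := (d_mono p (Nat.le_add_right i A)).1; omega
      rw [sum_shift n p hp, ← hD] at h1
      have h2 : ∑ i ∈ range n, (d p (i + A) - d p i) = A * D := by omega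
      have h3 : ∑ i ∈ range n, p (i + A) = ∑ j ∈ range n, j := by
        conv_rhs => rw [← himg, sum_image hinj2]
      rw [h2, h3])
  rw [mem_range] at hi
  set M := n ^ 2 / 4 with hMd
  set x : ℕ → ℕ := fun t => n * (d p t - d p i) + p t with hx
  set y : ℕ → ℕ := fun t => n * (i + n - t - (d p (i + n) - d p t)) + p t with hy
  have hxs : ∀ t, i ≤ t → t + 1 < i + n → x t < x (t + 1) := by
    intro t h1 h2
    have a1 := (d_mono p h1).1
    have a2 := hinj t (t + 1) (by omega) (by omega)
    have a3 := hlt t
    simp only [hx, d_succ]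
    split_ifs with h
    · rw [show d p t + 1 - d p i = d p t - d p i + 1 by omega, mul_add]; omega
    · simp only [add_zero]; omega
  have hys : ∀ t, i ≤ t → t < i + n → 1 < n → y (t + 1) < y t := by
    intro t h1 h2 h3
    have a1 := d_mono p (show t + 1 ≤ i + n by omega)
    have a2 := hinj t (t + 1) (by omega) (by omega)
    have a3 := hlt (t + 1)
    have a4 := d_succ p t
    simp only [hy]
    split_ifs at a4 with h
    · rw [show i + n - (t + 1) - (d p (i + n) - d p (t + 1)) = i + n - t - (d p (i + n) - d p t) by
        omega]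
      omega
    · rw [show i + n - t - (d p (i + n) - d p t) =
        i + n - (t + 1) - (d p (i + n) - d p (t + 1)) + 1 by omega, mul_add]
      omega
  have hxy : y (i + A) = x (i + A) := by
    have a1 := d_per n p hp i
    have a2 := d_mono p (Nat.le_add_right i A)
    have a3 := d_mono p (show i + A ≤ i + n by omega)
    simp only [hx, hy]
    congr 2
    omega
  have hxM : ∀ t, i ≤ t → t ≤ i + A → t < i + n → x t ≤ M := by
    intro t h1 h2 h3
    have : x t ≤ x (i + A) := by
      induction h2 using Nat.decreasingInduction with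
      | self => exact le_rfl
      | of_succ s hs ih => exact (hxs s h1 (by omega)).le.trans (ih (by omega) (by omega))
    exact this.trans (hv.trans hM)
  have hyM : ∀ t, i + A < t → t < i + n → y t < M ∧ 1 ≤ y t := by
    intro t h1 h2
    constructor
    · have : ∀ s, i + A ≤ s → s < i + n → y (s + 1) < y (i + A) := by
        intro s b1 b2
        induction s, b1 using Nat.le_induction with
        | base => exact hys _ (by omega) b2 (by omega)
        | succ s b3 ih => exact (hys _ (by omega) b2 (by omega)).trans (ih (by omega))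
      have h3 := this (t - 1) (by omega) (by omega)
      rw [show t - 1 + 1 = t by omega, hxy] at h3
      exact h3.trans_le (hxM _ (by omega) le_rfl (by omega))
    · have := hys t (by omega) h2 (by omega)
      omega
  refine ⟨i, hi, fun t => if t ≤ i + A then x t else 2 * M - y t, ?_, ?_⟩
  · intro t h1 h2
    simp only
    split_ifs with a1 a2 a2
    · exact hxs t h1 h2
    · have := hxM t h1 a1 (by omega)
      have := hyM (t + 1) (by omega) h2
      omega
    · omega
    · have := hyM (t + 1) (by omega) h2
      have := hyM t (by omega) (by omega)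
      have := hys t h1 (by omega) (by omega)
      omega
  · intro t h1 h2
    simp only
    by_cases a1 : t ≤ i + A
    · have b1 := hxM t h1 a1 h2
      rw [if_pos a1, if_pos b1]
      refine ⟨?_, by simp [hx, Nat.mod_eq_of_lt (hlt _)]⟩
      have : 1 ≤ M := by
        rw [hMd, Nat.le_div_iff_mul_le (by norm_num)]
        nlinarith
      omega
    · have b1 := hyM t (by omega) h2
      rw [if_neg a1, if_neg (by omega : ¬ 2 * M - y t ≤ M)]
      refine ⟨by omega, ?_⟩
      rw [show 2 * M - (2 * M - y t) = y t by omega]
      simp [hy, Nat.mod_eq_of_lt (hlt _)]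

end

theorem main (n : ℕ) (hn : 2 ≤ n) : ∃ l : List (Fin n), l.length ≤ n ^ 2 / 2 ∧
    ∀ σ : Equiv.Perm (Fin n), ∃ k : ℕ, List.Sublist (List.ofFn (⇑σ)) (l.rotate k) := by
  have hn0 : 0 < n := by omega
  set M := n ^ 2 / 4 with hM
  set w : ℕ → Fin n := fun u => ⟨(if u ≤ M then u else 2 * M - u) % n, Nat.mod_lt _ hn0⟩ with hw
  refine ⟨(List.range (2 * M)).map w, by simp only [List.length_map, List.length_range]; omega,
    fun σ => ?_⟩
  set q : ℕ → Fin n := fun t => σ ⟨t % n, Nat.mod_lt _ hn0⟩ with hq
  obtain ⟨i, hi, pos, h1, h2⟩ := exists_pos n (fun t => (q t : ℕ)) hn (fun t => by simp [hq])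
    (fun t => (q t).2) (fun s t a1 a2 h => by
      have h3 := σ.injective (Fin.ext h)
      simp only [Fin.mk.injEq] at h3
      have h4 := (Nat.modEq_iff_dvd' a1.le).1 h3
      have := Nat.le_of_dvd (by omega) h4
      omega)
  have hmono : ∀ s t, i ≤ s → s < t → t < i + n → pos s < pos t := by
    intro s t a1 a2 a3
    induction t, a2 using Nat.le_induction with
    | base => exact h1 s a1 a3
    | succ t b1 ih => exact (ih (by omega)).trans (h1 t (by omega) a3)
  have hpw : ((List.range' i n).map pos).Pairwise (· < ·) := by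
    rw [List.pairwise_map]
    refine List.Pairwise.imp_of_mem ?_ List.pairwise_lt_range'
    intro a b ha hb hab
    rw [List.mem_range'_1] at ha hb
    exact hmono a b ha.1 hab hb.2
  have hsub : List.Sublist ((List.range' i n).map pos) (List.range (2 * M)) := by
    refine List.sublist_of_subperm_of_pairwise (List.subperm_of_subset hpw.nodup ?_) hpw
      List.pairwise_lt_range
    intro u hu
    obtain ⟨t, ht, rfl⟩ := List.mem_map.1 hu
    rw [List.mem_range'_1] at ht
    exact List.mem_range.2 (h2 t ht.1 ht.2).1
  have hsub2 := hsub.map w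
  rw [List.map_map] at hsub2
  have e1 : (List.range' i n).map (w ∘ pos) = (List.range' i n).map q := by
    refine List.map_congr_left fun t ht => ?_
    rw [List.mem_range'_1] at ht
    exact Fin.ext (h2 t ht.1 ht.2).2
  have e2 : (List.range' i n).map q = (List.range' i (n - i)).map q ++ (List.range' 0 i).map q := by
    have : List.range' i n = List.range' i (n - i) ++ List.range' (i + (n - i)) i := by
      rw [List.range'_append_1]; congr 1; omega
    rw [this, List.map_append, show i + (n - i) = n + 0 by omega, ← List.map_add_range',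
      List.map_map]
    congr 1
    refine List.map_congr_left fun t _ => ?_
    simp [hq]
  have e3 : List.ofFn σ = (List.range' 0 i).map q ++ (List.range' i (n - i)).map q := by
    have := @List.range'_append_1 0 i (n - i)
    rw [zero_add] at this
    rw [← List.map_append, this, show i + (n - i) = n by omega]
    refine List.ext_getElem (by simp) fun t a1 a2 => ?_
    simp only [List.length_ofFn] at a1
    simp [hq, Nat.mod_eq_of_lt a1]
  rw [e1, e2, List.append_sublist_iff] at hsub2
  obtain ⟨l1, l2, e4, s1, s2⟩ := hsub2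
  refine ⟨l1.length, ?_⟩
  rw [e4, List.rotate_append_length_eq, e3]
  exact s2.append s1

end Pool.Agent.H6.Gupta
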