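import Pool.Agent.H6.HalinDefs
import Pool.Agent.H6.HalinData

namespace Pool.Agent.H6.Halin
open BT

def m (c : ℕ) : ℕ := (mT >>> (6 * c)) % 64
def pi (a c : ℕ) : ℕ := (pT >>> (4 * (a * 15 + c))) % 16
def sg (a c : ℕ) : ℕ := (sT >>> (4 * (a * 15 + c))) % 16
def dis (a b : ℕ) : Prop := a < 15 ∧ b < 15 ∧ m a &&& m b = 0
instance : DecidableRel dis := fun a b => by unfold dis; infer_instance
def ok (c x y z : ℕ) : Prop := dis c x ∧ dis c y ∧ dis c z ∧ x ≠ y ∧ x ≠ z ∧ y ≠ z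
instance (c x y z) : Decidable (ok c x y z) := by unfold ok; infer_instance

def Good : (t : BT) → (t.Pos → ℕ) → ℕ → ℕ → ℕ → Prop
  | .leaf, f, p, l, r => ok (f ()) p l r
  | .node a b, f, p, l, r => ok (f none) (f (some (.inl a.root))) (f (some (.inr b.root))) p ∧
      Good a (fun x => f (some (.inl x))) (f none) l (f (some (.inr b.left))) ∧
      Good b (fun x => f (some (.inr x))) (f none) (f (some (.inl a.right))) r

lemma okm {a c x y z} (ha : a < 15) (h : ok c x y z) : ok (sg a c) (sg a x) (sg a y) (sg a z) := by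
  have d : ∀ a < 15, ∀ x < 15, ∀ y < 15,
      (dis x y → dis (sg a x) (sg a y)) ∧ (x ≠ y → sg a x ≠ sg a y) := by decide +kernel
  obtain ⟨h1, h2, h3, h4, h5, h6⟩ := h
  exact ⟨(d a ha _ h1.1 _ h1.2.1).1 h1, (d a ha _ h2.1 _ h2.2.1).1 h2,
    (d a ha _ h3.1 _ h3.2.1).1 h3, (d a ha _ h1.2.1 _ h2.2.1).2 h4,
    (d a ha _ h1.2.1 _ h3.2.1).2 h5, (d a ha _ h2.2.1 _ h3.2.1).2 h6⟩

lemma Good.map {a} (ha : a < 15) : ∀ {t f p l r}, Good t f p l r →
    Good t (fun x => sg a (f x)) (sg a p) (sg a l) (sg a r)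
  | .leaf, _, _, _, _, h => okm ha h
  | .node _ _, _, _, _, _, h => ⟨okm ha h.1, h.2.1.map ha, h.2.2.map ha⟩

def R (t : BT) (v p l l' r r' : ℕ) : Prop :=
  ∃ f, f t.root = v ∧ f t.left = l ∧ f t.right = r ∧ Good t f p l' r'

def S (t : BT) (s : ℕ) : Prop := R t 0 9 (s / 3375 % 15) (s / 225 % 15) (s / 15 % 15) (s % 15)

def code (a l l' r r' : ℕ) : ℕ := ((pi a l * 15 + pi a l') * 15 + pi a r) * 15 + pi a r'

lemma den {t a l l' r r'} (ha : dis 0 a) (hl : l < 15) (hl' : l' < 15) (hr : r < 15)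
    (hr' : r' < 15) (h : S t (code a l l' r r')) : R t a 0 l l' r r' := by
  have d : ∀ a < 15, ∀ c < 15, pi a c < 15 ∧ sg a (pi a c) = c := by decide +kernel
  have e : ∀ a < 15, dis 0 a → sg a 0 = a ∧ sg a 9 = 0 := by decide +kernel
  have h1 := d a ha.2.1 l hl
  have h2 := d a ha.2.1 l' hl'
  have h3 := d a ha.2.1 r hr
  have h4 := d a ha.2.1 r' hr'
  obtain ⟨f, q1, q2, q3, q4⟩ := h
  have := q4.map ha.2.1
  rw [show code a l l' r r' / 225 % 15 = pi a l' by unfold code; omega,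
    show code a l l' r r' % 15 = pi a r' by unfold code; omega, h2.2, h4.2,
    (e a ha.2.1 ha).2] at this
  refine ⟨_, by rw [q1, (e a ha.2.1 ha).1], ?_, ?_, this⟩
  · rw [q2, show code a l l' r r' / 3375 % 15 = pi a l by unfold code; omega, h1.2]
  · rw [q3, show code a l l' r r' / 15 % 15 = pi a r by unfold code; omega, h3.2]

def unp : ℕ → ℕ → List ℕ
  | 0, _ => []
  | k + 1, n => n % 65536 :: unp k (n / 65536)

def N (k : ℕ) : List ℕ := unp (NN.getD k (0, 0)).1 (NN.getD k (0, 0)).2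

def one (A B s w : ℕ) : Bool :=
  decide (ok 0 (w / 3375 % 15) (w / 225 % 15) 9) &&
    A.testBit (code (w / 3375 % 15) (s / 3375 % 15) (s / 225 % 15) (w / 15 % 15) (w % 15)) &&
    B.testBit (code (w / 225 % 15) (w % 15) (w / 15 % 15) (s / 15 % 15) (s % 15))

def chk (A B : ℕ) : List ℕ → ℕ → Bool
  | [], _ => true
  | s :: l, w => one A B s (w % 65536) && chk A B l (w / 65536)

lemma chk_ok {A B a b} (hA : ∀ s, A.testBit s → S a s) (hB : ∀ s, B.testBit s → S b s) :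
    ∀ l w, chk A B l w → ∀ s ∈ l, S (.node a b) s
  | [], _, _, _, h => by simp at h
  | s :: l, w, h, s', h' => by
    simp only [chk, Bool.and_eq_true] at h
    rcases List.mem_cons.1 h' with rfl | h'
    swap
    · exact chk_ok hA hB l _ h.2 s' h'
    simp only [one, Bool.and_eq_true, decide_eq_true_eq] at h
    obtain ⟨⟨⟨h1, h2⟩, h3⟩, -⟩ := h
    have q : ∀ n, n % 15 < 15 := fun n => Nat.mod_lt _ (by decide)
    obtain ⟨f, f1, f2, f3, f4⟩ := den h1.1 (q _) (q _) (q _) (q _) (hA _ h2)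
    obtain ⟨g, g1, g2, g3, g4⟩ := den h1.2.1 (q _) (q _) (q _) (q _) (hB _ h3)
    exact ⟨fun x => Option.elim x 0 (Sum.elim f g), rfl, f2, g3, by
      simp only [Good, Option.elim, Sum.elim_inl, Sum.elim_inr, f1, g1, g2, f3]
      exact ⟨h1, f4, g4⟩⟩

def bits (l : List ℕ) : ℕ := l.foldr (fun s a => 2 ^ s ||| a) 0

lemma mem_bits {l s} (h : (bits l).testBit s) : s ∈ l := by
  induction l with
  | nil => simp [bits] at h
  | cons x l ih =>
    simp only [bits, List.foldr_cons, Nat.testBit_or, Nat.testBit_two_pow, Bool.or_eq_true,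
      decide_eq_true_eq] at h
    exact List.mem_cons.2 (h.imp Eq.symm ih)

def T (i j : ℕ) : ℕ := (tg.getD i []).getD j 0

lemma c1 : ∀ i < 9, ∀ j < 9, chk (NL.getD i 0) (NR.getD j 0) (N (T i j))
    ((WW.getD i []).getD j 0) := by decide +kernel

lemma c2 : ∀ k < 17, lg.getD k 0 < 9 ∧ rg.getD k 0 < 9 ∧
    NL.getD (lg.getD k 0) 0 &&& bits (N k) = NL.getD (lg.getD k 0) 0 ∧
    NR.getD (rg.getD k 0) 0 &&& bits (N k) = NR.getD (rg.getD k 0) 0 := by decide +kernel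

lemma c3 : ∀ k < 17, ∀ k' < 17, 0 < T (lg.getD k 0) (rg.getD k' 0) ∧
    T (lg.getD k 0) (rg.getD k' 0) < 17 ∧
    (T (lg.getD k 0) (rg.getD k' 0) = 1 → k = 0 ∧ k' = 0) := by decide +kernel

lemma c4 : ∀ k < 17, 2 ≤ k → ∃ s ∈ N k, s / 225 % 15 = 9 ∧ s % 15 = 9 ∧
    ok 9 0 (s / 3375 % 15) (s / 15 % 15) := by decide +kernel

lemma inv : ∀ t : BT, ∃ k < 17, (∀ s ∈ N k, S t s) ∧ (k = 0 → t.leaves = 1) ∧
    (k = 1 → t.leaves = 2)
  | .leaf => ⟨0, by decide, fun s h => by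
      obtain ⟨a, b, c⟩ := (by decide +kernel : ∀ s ∈ N 0, s / 3375 % 15 = 0 ∧ s / 15 % 15 = 0 ∧
        ok 0 9 (s / 225 % 15) (s % 15)) s h
      exact ⟨fun _ => 0, rfl, a.symm, b.symm, c⟩, fun _ => rfl, by decide⟩
  | .node a b => by
    obtain ⟨k, hk, h1, h2, -⟩ := inv a
    obtain ⟨k', hk', h1', h2', -⟩ := inv b
    obtain ⟨p1, -, p2, -⟩ := c2 k hk
    obtain ⟨-, p3, -, p4⟩ := c2 k' hk'
    obtain ⟨q1, q2, q3⟩ := c3 k hk k' hk'
    refine ⟨_, q2, chk_ok (fun s h => h1 s (mem_bits ?_)) (fun s h => h1' s (mem_bits ?_)) _ _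
      (c1 _ p1 _ p3), by omega, fun h => by simp [leaves, h2 (q3 h).1, h2' (q3 h).2]⟩
    · rw [← p2, Nat.testBit_and, Bool.and_eq_true] at h; exact h.2
    · rw [← p4, Nat.testBit_and, Bool.and_eq_true] at h; exact h.2

lemma nb {α : Type} (f : α → ℕ) : ∀ (t : BT) (e : t.Pos → α) (P L R : α),
    Good t (fun x => f (e x)) (f P) (f L) (f R) → ∀ x, ∃ a b c, ok (f (e x)) (f a) (f b) (f c) ∧
      ∀ z, ((∃ y, (t.E x y ∨ t.E y x) ∧ e y = z) ∨ x = t.root ∧ P = z ∨ x = t.left ∧ L = z ∨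
        x = t.right ∧ R = z) → z = a ∨ z = b ∨ z = c
  | .leaf, e, P, L, R, h, x => ⟨P, L, R, h, by simp [E]; grind⟩
  | .node a b, e, P, L, R, h, none => ⟨_, _, P, h.1, by
      rintro z (⟨_ | y | y, q, rfl⟩ | q | q | q) <;> simp_all [E, left, right]⟩
  | .node a b, e, P, L, R, h, some (.inl x) => by
    obtain ⟨u, v, w, h1, h2⟩ := nb f a _ _ _ _ h.2.1 x
    refine ⟨u, v, w, h1, fun z q => h2 z ?_⟩
    rcases q with ⟨_ | y | y, q, rfl⟩ | q | q | q
    · simp_all [E]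
    · exact .inl ⟨y, q, rfl⟩
    · simp_all [E]
    · simp [root] at q
    · exact .inr (.inr (.inl ⟨Sum.inl.inj (Option.some.inj q.1), q.2⟩))
    · exact nomatch Option.some.inj q.1
  | .node a b, e, P, L, R, h, some (.inr x) => by
    obtain ⟨u, v, w, h1, h2⟩ := nb f b _ _ _ _ h.2.2 x
    refine ⟨u, v, w, h1, fun z q => h2 z ?_⟩
    rcases q with ⟨_ | y | y, q, rfl⟩ | q | q | q
    · simp_all [E]
    · simp_all [E]
    · exact .inl ⟨y, q, rfl⟩
    · simp [root] at q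
    · exact nomatch Option.some.inj q.1
    · exact .inr (.inr (.inr ⟨Sum.inr.inj (Option.some.inj q.1), q.2⟩))

theorem main (t : BT) (h : 3 ≤ t.leaves) : ∃ f : Option t.Pos → ℕ, ∀ x, ∃ a b c,
    ok (f x) (f a) (f b) (f c) ∧ ∀ z, t.halin.Adj x z → z = a ∨ z = b ∨ z = c := by
  obtain ⟨k, hk, h1, h2, h3⟩ := inv t
  obtain ⟨s, hs, e1, e2, e3⟩ := c4 k hk (by omega)
  obtain ⟨f, f1, f2, f3, f4⟩ := h1 s hs
  rw [e1, e2] at f4
  refine ⟨fun x => x.elim 9 f, ?_⟩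
  rintro (_ | x)
  · refine ⟨some t.root, some t.left, some t.right, by simpa [f1, f2, f3] using e3, ?_⟩
    rintro (_ | z) <;> simp [halin]
  · obtain ⟨a, b, c, q1, q2⟩ := nb (fun x : Option t.Pos => x.elim 9 f) t some none none none f4 x
    refine ⟨a, b, c, q1, fun z q => q2 z ?_⟩
    rcases z with _ | z <;> simp [halin] at q ⊢ <;> tauto

end Pool.Agent.H6.Halin
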