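import Mathlib

namespace Pool.Agent.H6.Halin

/-- Plane binary trees. -/
inductive BT
  | leaf
  | node (a b : BT)

namespace BT

/-- The vertices of a tree. -/
def Pos : BT → Type
  | leaf => Unit
  | node a b => Option (a.Pos ⊕ b.Pos)

/-- The root. -/
def root : (t : BT) → t.Pos
  | leaf => ()
  | node _ _ => none

/-- The leftmost leaf. -/
def left : (t : BT) → t.Pos
  | leaf => ()
  | node a _ => some (.inl a.left)

/-- The rightmost leaf. -/
def right : (t : BT) → t.Pos
  | leaf => ()
  | node _ b => some (.inr b.right)

/-- The number of leaves. -/
def leaves : BT → ℕ
  | leaf => 1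
  | node a b => a.leaves + b.leaves

/-- Tree edges (parent to child) and edges between consecutive leaves (left to right). -/
def E : (t : BT) → t.Pos → t.Pos → Prop
  | leaf, _, _ => False
  | node a _, none, some (.inl y) => y = a.root
  | node _ b, none, some (.inr y) => y = b.root
  | node a _, some (.inl x), some (.inl y) => a.E x y
  | node _ b, some (.inr x), some (.inr y) => b.E x y
  | node a b, some (.inl x), some (.inr y) => x = a.right ∧ y = b.left
  | node _ _, _, _ => False

/-- The cubic Halin graph of `t`: one more leaf `none` is attached to the root of `t`, and it
closes the cycle of leaves. -/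
def halin (t : BT) : SimpleGraph (Option t.Pos) :=
  SimpleGraph.fromRel fun u v => match u, v with
    | some x, some y => t.E x y
    | none, some y => y = t.root ∨ y = t.left ∨ y = t.right
    | _, none => False

end BT

end Pool.Agent.H6.Halin
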