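import Pool.Agent.H6.HtDefs

namespace Pool.Agent.H6.Ht

open Finset

variable {n : ℕ}

/-- An ordered collapse: free faces `F`, matched faces `t`, rank `ρ`. -/
def Valid (d : ℕ) (F : Finset (Finset (Fin n))) (t : Finset (Fin n) → Finset (Fin n))
    (ρ : Finset (Fin n) → ℕ) : Prop :=
  (∀ e ∈ F, e.card = d ∧ e ⊆ t e ∧ (t e).card = d + 1) ∧
    ∀ e ∈ F, ∀ e' ∈ F, e' ⊆ t e → e' ≠ e → ρ e' < ρ e

theorem Valid.inj {d F t ρ} (h : Valid (n := n) d F t ρ) {e e'} (he : e ∈ F) (he' : e' ∈ F)
    (q : t e = t e') : e = e' := by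
  by_contra hne
  have a := h.2 e he e' he' (q ▸ (h.1 e' he').2.1) (Ne.symm hne)
  have b := h.2 e' he' e he (q ▸ (h.1 e he).2.1) hne
  omega

theorem Valid.card {d F t ρ} (h : Valid (n := n) d F t ρ) : (F.image t).card = F.card :=
  card_image_of_injOn fun _ a _ b q => h.inj a b q

theorem exists_valid {d : ℕ} {T : Finset (Finset (Fin n))} (h : Collapsible d T)
    (hc : ∀ σ ∈ T, σ.card = d + 1) : ∃ F t ρ, Valid d F t ρ ∧ T = F.image t := by
  induction h with
  | empty => exact ⟨∅, id, fun _ => 0, ⟨by simp, by simp⟩, by simp⟩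
  | step T σ f hσ hf hfs hu _ ih =>
    obtain ⟨F, t, ρ, hv, hT⟩ := ih fun τ hτ => hc τ (mem_of_mem_erase hτ)
    have key : ∀ e ∈ F, ¬ f ⊆ t e := fun e he q => by
      have : t e ∈ T.erase σ := hT ▸ mem_image_of_mem t he
      exact (mem_erase.1 this).1 (hu _ (mem_erase.1 this).2 q)
    have hfF : f ∉ F := fun q => key f q (hv.1 f q).2.1
    have ne : ∀ e ∈ F, e ≠ f := fun e he q => hfF (q ▸ he)
    refine ⟨insert f F, Function.update t f σ, Function.update ρ f (F.sup ρ + 1), ⟨?_, ?_⟩, ?_⟩
    · intro e he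
      rcases mem_insert.1 he with rfl | he
      · simp [hf, hfs, hc σ hσ]
      · rw [Function.update_of_ne (ne e he)]; exact hv.1 e he
    · intro e he e' he' hs hne
      rcases mem_insert.1 he with rfl | h1
      · have he' : e' ∈ F := (mem_insert.1 he').resolve_left hne
        rw [Function.update_of_ne hne, Function.update_self]
        exact Nat.lt_succ_of_le (le_sup (f := ρ) he')
      · rw [Function.update_of_ne (ne e h1)] at hs ⊢
        rcases mem_insert.1 he' with rfl | h2
        · exact absurd hs (key e h1)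
        · rw [Function.update_of_ne (ne e' h2)]; exact hv.2 e h1 e' h2 hs hne
    · rw [image_insert, Function.update_self,
        image_congr (g := t) fun e he => Function.update_of_ne (ne e he) _ _, ← hT,
        insert_erase hσ]

theorem Valid.coll {d : ℕ} {t ρ} (F : Finset (Finset (Fin n))) (h : Valid d F t ρ) :
    Collapsible d (F.image t) := by
  induction F using Finset.strongInduction with
  | H F ih =>
    rcases F.eq_empty_or_nonempty with rfl | hne
    · simpa using Collapsible.empty
    obtain ⟨e, he, hm⟩ := exists_max_image F ρ hne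
    refine Collapsible.step _ (t e) e (mem_image_of_mem t he) (h.1 e he).1 (h.1 e he).2.1 ?_ ?_
    · intro τ hτ hs
      obtain ⟨e', he', rfl⟩ := mem_image.1 hτ
      by_contra q
      have := h.2 e' he' e he hs fun r => q (r ▸ rfl)
      have := hm e' he'
      omega
    · have : (F.image t).erase (t e) = (F.erase e).image t := by
        ext τ
        simp only [mem_erase, mem_image]
        constructor
        · rintro ⟨a, e', he', rfl⟩
          exact ⟨e', ⟨fun r => a (r ▸ rfl), he'⟩, rfl⟩
        · rintro ⟨e', ⟨a, he'⟩, rfl⟩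
          exact ⟨fun r => a (h.inj he' he r), e', he', rfl⟩
      rw [this]
      exact ih _ (erase_ssubset he) ⟨fun a b => h.1 a (mem_of_mem_erase b),
        fun a b c e => h.2 a (mem_of_mem_erase b) c (mem_of_mem_erase e)⟩

theorem bd_zero {σ f : Finset (Fin n)} (h : ¬ f ⊆ σ) : bd σ f = 0 :=
  sum_eq_zero fun x _ => if_neg fun (q : f = σ.erase x) => h (q ▸ erase_subset x σ)

theorem bd_ne {σ f : Finset (Fin n)} (h : f ⊆ σ) (hc : σ.card = f.card + 1) : bd σ f ≠ 0 := by
  have h1 : (σ \ f).card = 1 := by rw [card_sdiff_of_subset h]; omega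
  obtain ⟨x, hx⟩ := card_eq_one.1 h1
  have hx1 : x ∈ σ \ f := hx ▸ mem_singleton_self x
  have e : f = σ.erase x := by
    ext y
    simp only [mem_erase]
    constructor
    · intro hy
      exact ⟨fun q => (mem_sdiff.1 hx1).2 (q ▸ hy), h hy⟩
    · rintro ⟨a, b⟩
      by_contra c
      exact a (mem_singleton.1 (hx ▸ mem_sdiff.2 ⟨b, c⟩))
  unfold bd
  rw [sum_eq_single x, if_pos e]
  · exact pow_ne_zero _ (by norm_num)
  · intro y hy hyx
    refine if_neg fun q => ?_
    have : x ∈ σ.erase y := mem_erase.2 ⟨hyx.symm, (mem_sdiff.1 hx1).1⟩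
    exact (mem_sdiff.1 hx1).2 (q ▸ this)
  · intro q; exact absurd (mem_sdiff.1 hx1).1 q

theorem Valid.hyper {d F t ρ} (h : Valid (n := n) d F t ρ) (hc : F.card = (n - 1).choose d) :
    IsHypertree d (F.image t) := by
  refine ⟨fun σ hσ => ?_, ?_, h.card.trans hc⟩
  · obtain ⟨e, he, rfl⟩ := mem_image.1 hσ
    exact (h.1 e he).2.2
  · rw [Fintype.linearIndependent_iff]
    intro g hg
    by_contra hn
    have hne : (F.attach.filter fun e => g ⟨t e.1, mem_image_of_mem t e.2⟩ ≠ 0).Nonempty := by
      obtain ⟨⟨σ, hσ⟩, q⟩ := not_forall.1 hn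
      obtain ⟨e, he, rfl⟩ := mem_image.1 hσ
      exact ⟨⟨e, he⟩, mem_filter.2 ⟨mem_attach _ _, q⟩⟩
    obtain ⟨⟨e, he⟩, h1, hm⟩ := exists_max_image _ (fun e => ρ e.1) hne
    have h2 := congrFun hg e
    rw [Finset.sum_apply, sum_eq_single ⟨t e, mem_image_of_mem t he⟩] at h2
    · have := bd_ne (h.1 e he).2.1 (by rw [(h.1 e he).2.2, (h.1 e he).1])
      simp only [Pi.smul_apply, smul_eq_mul, Pi.zero_apply, mul_eq_zero] at h2
      exact h2.elim (mem_filter.1 h1).2 this
    · rintro ⟨σ, hσ⟩ - q
      obtain ⟨e', he', rfl⟩ := mem_image.1 hσ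
      by_cases z : g ⟨t e', hσ⟩ = 0
      · simp [z]
      · have hb : ¬ e ⊆ t e' := fun s => by
          have a := h.2 e' he' e he s fun r => q (by subst r; rfl)
          have b := hm ⟨e', he'⟩ (mem_filter.2 ⟨mem_attach _ _, z⟩)
          simp only at b
          omega
        simp [bd_zero hb]
    · simp

theorem Valid.exch {d F t ρ t' ρ'} (h : Valid (n := n) d F t ρ) (h' : Valid d F t' ρ')
    (hc : F.card = (n - 1).choose d) {f} (hf : f ∈ F) (hne : t f ≠ t' f)
    (hq : ∀ e ∈ F, e ≠ f → t e = t' e) : Exch d (F.image t) (F.image t') := by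
  refine ⟨h.hyper hc, h.coll F, h'.hyper hc, h'.coll F, t' f, t f, ?_, mem_image_of_mem t hf, ?_⟩
  · intro q
    obtain ⟨e, he, r⟩ := mem_image.1 q
    by_cases z : e = f
    · exact hne (z ▸ r)
    · exact z (h'.inj he hf ((hq e he z).symm.trans r))
  · ext τ
    simp only [mem_insert, mem_erase, mem_image]
    constructor
    · rintro ⟨e, he, rfl⟩
      by_cases z : e = f
      · exact Or.inl (z ▸ rfl)
      · exact Or.inr ⟨fun r => z (h.inj he hf ((hq e he z).trans r)), e, he, hq e he z⟩
    · rintro (rfl | ⟨a, e, he, rfl⟩)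
      · exact ⟨f, hf, rfl⟩
      · exact ⟨e, he, (hq e he fun r => a (r ▸ rfl)).symm⟩

/-- With the free faces fixed, any two ordered collapses are joined by exchanges. -/
theorem Valid.conn {d F t' ρ'} (h' : Valid (n := n) d F t' ρ') (hc : F.card = (n - 1).choose d)
    (k : ℕ) : ∀ t ρ, Valid d F t ρ → (F.filter fun e => t e ≠ t' e).card = k →
      Relation.ReflTransGen (Exch d) (F.image t) (F.image t') := by
  induction k with
  | zero =>
    intro t ρ _ hk
    rw [image_congr (g := t') fun e he => by
      by_contra q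
      exact (card_eq_zero.1 hk ▸ notMem_empty e : e ∉ _) (mem_filter.2 ⟨he, q⟩)]
  | succ k ih =>
    intro t ρ h hk
    obtain ⟨f, hf, hm⟩ := exists_min_image _ ρ' (card_pos.1 (by rw [hk]; exact Nat.succ_pos k) :
      (F.filter fun e => t e ≠ t' e).Nonempty)
    obtain ⟨hf, hne⟩ := mem_filter.1 hf
    have hs : ∀ e ∈ F, (ρ' e < ρ' f ∨ e = f) → Function.update t f (t' f) e = t' e := by
      intro e he q
      by_cases z : e = f
      · subst z; simp
      · rw [Function.update_of_ne z]
        by_contra r
        have := hm e (mem_filter.2 ⟨he, r⟩)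
        have := q.resolve_right z
        omega
    have hv : Valid d F (Function.update t f (t' f))
        fun e => if ρ' e < ρ' f ∨ e = f then ρ' e else ρ' f + 1 + ρ e := by
      refine ⟨fun e he => ?_, fun e he e' he' s z => ?_⟩
      · by_cases z : e = f
        · subst z; simpa using h'.1 e he
        · rw [Function.update_of_ne z]; exact h.1 e he
      · by_cases q : ρ' e < ρ' f ∨ e = f
        · rw [hs e he q] at s
          have a := h'.2 e he e' he' s z
          have b : ρ' e ≤ ρ' f := q.elim le_of_lt fun r => r ▸ le_rfl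
          simp only
          rw [if_pos q, if_pos (Or.inl (by omega))]
          exact a
        · rw [Function.update_of_ne fun r => q (Or.inr r)] at s
          have a := h.2 e he e' he' s z
          simp only
          rw [if_neg q]
          split_ifs with r
          · have b : ρ' e' ≤ ρ' f := r.elim le_of_lt fun r => r ▸ le_rfl
            omega
          · omega
    refine Relation.ReflTransGen.head (h.exch hv hc hf (by simpa using hne)
      fun e _ z => (Function.update_of_ne z _ _).symm) (ih _ _ hv ?_)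
    have : (F.filter fun e => Function.update t f (t' f) e ≠ t' e) =
        (F.filter fun e => t e ≠ t' e).erase f := by
      ext e
      by_cases z : e = f
      · subst z; simp
      · simp [z]
    rw [this, card_erase_of_mem (mem_filter.2 ⟨hf, hne⟩), hk]
    rfl

end Pool.Agent.H6.Ht
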