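import Pool.Agent.H6.HtA

namespace Pool.Agent.H6.Ht

open Finset

variable {n : ℕ}

/-- Changing the free face of a simplex all of whose other faces are kept. -/
theorem Valid.swap {d F t ρ} (h : Valid (n := n) d F t ρ) {f g σ} (hf : f ∈ F) (hfs : f ⊆ σ)
    (hσ : σ.card = d + 1) (hu : ∀ e ∈ F, e ⊆ σ → e = f) (hg : g ⊆ σ) (hgc : g.card = d)
    (hgf : g ≠ f) : ∃ t1 t2 ρ2, Valid d F t1 ρ ∧ Valid d (insert g (F.erase f)) t2 ρ2 ∧
      F.image t1 = (insert g (F.erase f)).image t2 := by
  have hgF : g ∉ F := fun q => hgf (hu g q hg)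
  have ne : ∀ e ∈ F.erase f, e ≠ g := fun e he q => hgF (q ▸ mem_of_mem_erase he)
  refine ⟨Function.update t f σ, Function.update t g σ, fun e => if e = g then 0 else ρ e + 1,
    ⟨fun e he => ?_, fun e he e' he' s z => ?_⟩, ⟨fun e he => ?_, fun e he e' he' s z => ?_⟩, ?_⟩
  · by_cases z : e = f
    · subst z; simp [hfs, hσ, (h.1 e he).1]
    · rw [Function.update_of_ne z]; exact h.1 e he
  · by_cases q : e = f
    · subst q
      rw [Function.update_self] at s
      exact absurd (hu e' he' s) z
    · rw [Function.update_of_ne q] at s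
      exact h.2 e he e' he' s z
  · rcases mem_insert.1 he with rfl | h1
    · simp [hg, hσ, hgc]
    · rw [Function.update_of_ne (ne e h1)]; exact h.1 e (mem_of_mem_erase h1)
  · rcases mem_insert.1 he with rfl | h1
    · rw [Function.update_self] at s
      have h2 := (mem_insert.1 he').resolve_left z
      exact absurd (hu e' (mem_of_mem_erase h2) s) (mem_erase.1 h2).1
    · rw [Function.update_of_ne (ne e h1)] at s
      simp only
      rw [if_neg (ne e h1)]
      split_ifs with r
      · omega
      · have := h.2 e (mem_of_mem_erase h1) e'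
          (mem_of_mem_erase ((mem_insert.1 he').resolve_left r)) s z
        omega
  · rw [image_insert, Function.update_self,
      image_congr (s := F.erase f) (g := t) fun e he => Function.update_of_ne (ne e he) _ _]
    conv_lhs => rw [← insert_erase hf]
    rw [image_insert, Function.update_self,
      image_congr (s := F.erase f) (g := t) fun e he =>
        Function.update_of_ne (mem_erase.1 he).1 _ _]

theorem pair_sub {v a b : Fin n} {e : Finset (Fin n)} (hc : e.card = 2) (hs : e ⊆ {v, a, b}) :
    e = {v, a} ∨ e = {a, b} ∨ e = {v, b} := by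
  obtain ⟨x, y, hxy, rfl⟩ := card_eq_two.1 hc
  have hx := hs (mem_insert_self x _)
  have hy := hs (mem_insert_of_mem (mem_singleton_self y))
  simp only [mem_insert, mem_singleton] at hx hy
  rcases hx with rfl | rfl | rfl <;> rcases hy with rfl | rfl | rfl <;>
    simp [pair_comm] at hxy ⊢

/-- The kept edges form a connected graph: some kept edge crosses any nontrivial cut. -/
theorem Valid.cross {F t ρ} (h : Valid (n := n) 2 F t ρ) (S : Fin n → Prop) {x y : Fin n}
    (hx : S x) (hy : ¬ S y) : ∃ a b, S a ∧ ¬ S b ∧ ({a, b} : Finset (Fin n)) ∉ F := by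
  by_contra hn
  push Not at hn
  have key : ∀ k, ∀ a b, S a → ¬ S b → ρ {a, b} = k → False := by
    intro k
    induction k using Nat.strong_induction_on with
    | _ k ih =>
      intro a b ha hb hk
      have hab : a ≠ b := fun q => hb (q ▸ ha)
      obtain ⟨h1, h2, h3⟩ := h.1 _ (hn a b ha hb)
      obtain ⟨c, hc⟩ : (t {a, b} \ {a, b}).Nonempty :=
        card_pos.1 (by rw [card_sdiff_of_subset h2]; omega)
      obtain ⟨c1, c2⟩ := mem_sdiff.1 hc
      have ma := h2 (mem_insert_self a _)
      have mb := h2 (mem_insert_of_mem (mem_singleton_self b))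
      by_cases q : S c
      · refine ih _ (hk ▸ h.2 _ (hn a b ha hb) _ (hn c b q hb) ?_ fun r => c2 ?_) c b q hb rfl
        · simp [insert_subset_iff, c1, mb]
        · rw [← r]; simp
      · refine ih _ (hk ▸ h.2 _ (hn a b ha hb) _ (hn a c ha q) ?_ fun r => c2 ?_) a c ha q rfl
        · simp [insert_subset_iff, c1, ma]
        · rw [← r]; simp
  exact key _ x y hx hy rfl

theorem to_star (v : Fin n) (k : ℕ) : ∀ F t ρ, Valid (n := n) 2 F t ρ →
    F.card = (n - 1).choose 2 → (F.filter (v ∈ ·)).card = k →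
    Relation.ReflTransGen (Exch 2) (F.image t)
      ((powersetCard 2 (univ.erase v)).image (insert v)) := by
  induction k with
  | zero =>
    intro F t ρ h hc hk
    have hv : ∀ e ∈ F, v ∉ e := fun e he q =>
      (card_eq_zero.1 hk ▸ notMem_empty e : e ∉ _) (mem_filter.2 ⟨he, q⟩)
    have hF : F = powersetCard 2 (univ.erase v) := by
      refine eq_of_subset_of_card_le (fun e he => mem_powersetCard.2 ⟨fun x hx => ?_, (h.1 e he).1⟩)
        (by simp [hc])
      exact mem_erase.2 ⟨fun q => hv e he (q ▸ hx), mem_univ _⟩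
    rw [← hF]
    refine Valid.conn (ρ' := ρ) ⟨fun e he => ⟨(h.1 e he).1, subset_insert _ _, ?_⟩,
      fun e he e' he' s z => absurd ?_ z⟩ hc _ t ρ h rfl
    · rw [card_insert_of_notMem (hv e he), (h.1 e he).1]
    · exact eq_of_subset_of_card_le ((subset_insert_iff_of_notMem (hv e' he')).1 s)
        (by rw [(h.1 e he).1, (h.1 e' he').1])
  | succ k ih =>
    intro F t ρ h hc hk
    obtain ⟨e, he⟩ : (F.filter (v ∈ ·)).Nonempty := card_pos.1 (by omega)
    obtain ⟨he, hve⟩ := mem_filter.1 he
    obtain ⟨y, hy, rfl⟩ : ∃ y, y ≠ v ∧ e = {v, y} := by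
      obtain ⟨a, b, hab, rfl⟩ := card_eq_two.1 (h.1 e he).1
      rcases mem_insert.1 hve with rfl | q
      · exact ⟨b, hab.symm, rfl⟩
      · obtain rfl := mem_singleton.1 q
        exact ⟨a, hab, pair_comm _ _⟩
    obtain ⟨a, b, ha, hb, hab⟩ := h.cross (fun x => x = v ∨ ({v, x} : Finset (Fin n)) ∉ F)
      (x := v) (y := y) (Or.inl rfl) (by simp [hy, he])
    obtain ⟨hbv, hb⟩ := not_or.1 hb
    have hb : ({v, b} : Finset (Fin n)) ∈ F := not_not.1 hb
    have hav : a ≠ v := fun q => hab (q ▸ hb)
    have ha : ({v, a} : Finset (Fin n)) ∉ F := ha.resolve_left hav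
    have hne : a ≠ b := fun q => ha (q ▸ hb)
    have hvab : v ∉ ({a, b} : Finset (Fin n)) := by simp [hav.symm, Ne.symm hbv]
    obtain ⟨t1, t2, ρ2, v1, v2, q⟩ := h.swap (σ := {v, a, b}) (g := {a, b}) hb
      (by simp [insert_subset_iff])
      (by rw [card_insert_of_notMem hvab, card_pair hne])
      (fun e he s => by
        rcases pair_sub (h.1 e he).1 s with r | r | r
        · exact absurd (r ▸ he) ha
        · exact absurd (r ▸ he) hab
        · exact r)
      (subset_insert _ _) (card_pair hne) fun r => hab (r ▸ hb)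
    have hab' : ({a, b} : Finset (Fin n)) ∉ F.erase {v, b} := fun r => hab (mem_of_mem_erase r)
    refine (v1.conn hc _ t ρ h rfl).trans (q ▸ ih _ t2 ρ2 v2 ?_ ?_)
    · have := card_pos.2 ⟨_, hb⟩
      rw [card_insert_of_notMem hab', card_erase_of_mem hb]; omega
    · rw [filter_insert, if_neg hvab, filter_erase,
        card_erase_of_mem (s := F.filter (v ∈ ·)) (mem_filter.2 ⟨hb, mem_insert_self _ _⟩), hk]
      rfl

theorem Exch.symm {d : ℕ} {T T' : Finset (Finset (Fin n))} (h : Exch d T T') : Exch d T' T := by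
  obtain ⟨a, b, c, e, σ, τ, h1, h2, rfl⟩ := h
  have hne : σ ≠ τ := fun q => h1 (q ▸ h2)
  refine ⟨c, e, a, b, τ, σ, by simp [hne.symm], mem_insert_self _ _, ?_⟩
  rw [erase_insert fun q => h1 (mem_of_mem_erase q), insert_erase h2]

theorem conn_symm {d : ℕ} {T T' : Finset (Finset (Fin n))}
    (h : Relation.ReflTransGen (Exch d) T T') : Relation.ReflTransGen (Exch d) T' T := by
  induction h with
  | refl => rfl
  | tail _ b ih => exact ih.head b.symm

theorem two (v : Fin n) {T : Finset (Finset (Fin n))} (h : IsHypertree 2 T)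
    (hc : Collapsible 2 T) : Relation.ReflTransGen (Exch 2) T
      ((powersetCard 2 (univ.erase v)).image (insert v)) := by
  obtain ⟨F, t, ρ, hv, rfl⟩ := exists_valid hc h.1
  exact to_star v _ F t ρ hv (hv.card.symm.trans h.2.2) rfl

end Pool.Agent.H6.Ht
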