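import Mathlib

/-! Simplicial hypertrees, collapsibility and the restricted exchange step. -/

namespace Pool.Agent.H6.Ht

variable {n : ℕ}

/-- The rational boundary of the simplex `σ` (vertices in increasing order), as a function on
faces: the coefficient of `σ \ {x}` is `(-1)^(number of vertices of σ below x)`. -/
def bd (σ : Finset (Fin n)) : Finset (Fin n) → ℚ := fun f =>
  ∑ x ∈ σ, if f = σ.erase x then (-1 : ℚ) ^ (σ.filter (· < x)).card else 0

/-- `T` is a set of `d`-faces with independent boundaries and `C(n-1,d)` elements. -/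
def IsHypertree (d : ℕ) (T : Finset (Finset (Fin n))) : Prop :=
  (∀ σ ∈ T, σ.card = d + 1) ∧ LinearIndependent ℚ (fun σ : T => bd σ.1) ∧
    T.card = (n - 1).choose d

/-- `d`-collapsibility: repeatedly delete a `d`-face that is the only one containing some
`(d-1)`-face `f`, until nothing is left. -/
inductive Collapsible (d : ℕ) : Finset (Finset (Fin n)) → Prop
  | empty : Collapsible d ∅
  | step (T : Finset (Finset (Fin n))) (σ f : Finset (Fin n)) : σ ∈ T → f.card = d → f ⊆ σ →
      (∀ τ ∈ T, f ⊆ τ → τ = σ) → Collapsible d (T.erase σ) → Collapsible d T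

/-- One exchange `T → T \ {τ} ∪ {σ}` between `d`-collapsible `d`-hypertrees. -/
def Exch (d : ℕ) (T T' : Finset (Finset (Fin n))) : Prop :=
  IsHypertree d T ∧ Collapsible d T ∧ IsHypertree d T' ∧ Collapsible d T' ∧
    ∃ σ τ, σ ∉ T ∧ τ ∈ T ∧ T' = insert σ (T.erase τ)

end Pool.Agent.H6.Ht
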