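import Mathlib

/-! Rounding fractional colourings with the local lemma (the lemma `lll` is copied from
`Pool.Agent.H31.Lop`, with universe-polymorphic types). -/

open Finset Function

namespace Pool.Agent.H6.Is

open Classical in
/-- Lopsided local lemma, counting form. -/
theorem lll {Ω ι : Type*} [Fintype Ω] [Nonempty Ω] (I : Finset ι) (A : ι → Ω → Prop) (conf : ι → ι → Prop)
    (D : ℕ) (D0 : 0 < D) (lop : ∀ i ∈ I, ∀ S ⊆ I, (∀ j ∈ S, ¬conf i j) →
      4 * D * #(univ.filter fun ω => A i ω ∧ ∀ j ∈ S, ¬A j ω) ≤ #(univ.filter fun ω => ∀ j ∈ S, ¬A j ω))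
    (deg : ∀ i ∈ I, #(I.filter (conf i)) ≤ D) : ∃ ω, ∀ i ∈ I, ¬A i ω := by
  have key : ∀ S ⊆ I, ∀ i ∈ I, 2 * D * #(univ.filter fun ω => A i ω ∧ ∀ j ∈ S, ¬A j ω) ≤
      #(univ.filter fun ω => ∀ j ∈ S, ¬A j ω) := by
    intro S
    induction S using Finset.strongInduction with
    | _ S ih =>
      intro hS i hi
      by_cases c : ∀ j ∈ S, ¬conf i j
      · exact (Nat.mul_le_mul_right _ (by omega)).trans (lop i hi S hS c)
      obtain ⟨T, hT⟩ : ∃ T, T = S.filter fun j => ¬conf i j := ⟨_, rfl⟩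
      have t1 : T ⊂ S := hT ▸ filter_ssubset.mpr (by simpa using c)
      have a1 := lop i hi T (t1.1.trans hS) fun j hj => by rw [hT] at hj; exact (mem_filter.mp hj).2
      have a2 : #(univ.filter fun ω => A i ω ∧ ∀ j ∈ S, ¬A j ω) ≤
          #(univ.filter fun ω => A i ω ∧ ∀ j ∈ T, ¬A j ω) :=
        card_le_card (monotone_filter_right _ fun ω _ h => ⟨h.1, fun j hj => h.2 j (t1.1 hj)⟩)
      have a3 : #(univ.filter fun ω => ∀ j ∈ T, ¬A j ω) ≤ #(univ.filter fun ω => ∀ j ∈ S, ¬A j ω) +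
          ∑ k ∈ S.filter (conf i), #(univ.filter fun ω => A k ω ∧ ∀ j ∈ T, ¬A j ω) := by
        refine le_trans (card_le_card fun ω h => ?_) ((card_union_le _ _).trans (add_le_add_right card_biUnion_le _))
        simp only [mem_union, mem_filter, mem_univ, true_and, mem_biUnion] at h ⊢
        by_contra! c
        obtain ⟨⟨j, j1, j2⟩, c⟩ := c
        by_cases d : conf i j
        · obtain ⟨k, k1, k2⟩ := c j ⟨j1, d⟩ j2
          exact h k k1 k2
        · exact h j (hT ▸ mem_filter.mpr ⟨j1, d⟩) j2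
      have a4 : 2 * D * ∑ k ∈ S.filter (conf i), #(univ.filter fun ω => A k ω ∧ ∀ j ∈ T, ¬A j ω) ≤
          D * #(univ.filter fun ω => ∀ j ∈ T, ¬A j ω) := by
        rw [mul_sum]
        exact (sum_le_card_nsmul _ _ _ fun k hk => ih T t1 (t1.1.trans hS) k (hS (mem_filter.mp hk).1)).trans
          (Nat.mul_le_mul_right _ ((card_le_card (filter_subset_filter _ hS)).trans (deg i hi)))
      have a5 := Nat.le_of_mul_le_mul_left ((mul_assoc _ _ _).symm.le.trans (mul_comm 2 D ▸ a4)) D0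
      nlinarith
  have pos : ∀ S ⊆ I, 0 < #(univ.filter fun ω => ∀ j ∈ S, ¬A j ω) := by
    intro S
    induction S using Finset.induction_on with
    | empty => simp [Fintype.card_pos]
    | insert i S _ ih =>
      intro h
      have a := ih ((subset_insert _ _).trans h)
      have b := key S ((subset_insert _ _).trans h) i (h (mem_insert_self _ _))
      have c : #(univ.filter fun ω => ∀ j ∈ S, ¬A j ω) ≤ #(univ.filter fun ω => ∀ j ∈ insert i S, ¬A j ω) +
          #(univ.filter fun ω => A i ω ∧ ∀ j ∈ S, ¬A j ω) :=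
        (card_le_card fun ω => by simp; tauto).trans (card_union_le _ _)
      nlinarith
  obtain ⟨ω, h⟩ := card_pos.mp (pos I Subset.rfl)
  exact ⟨ω, (mem_filter.mp h).2⟩


theorem avg1 {X : Type*} [Fintype X] [DecidableEq X] {M : ℕ} (H : (X → Fin M) → ℝ) (x : X)
    (hH : ∀ ω t, H (update ω x t) = H ω) (φ : Fin M → ℝ) :
    (M : ℝ) * ∑ ω, H ω * φ (ω x) = (∑ ω, H ω) * ∑ t, φ t := by
  have inv : Involutive fun q : (X → Fin M) × Fin M => (update q.1 x q.2, q.1 x) := by
    rintro ⟨ω, t⟩; simp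
  have := Fintype.sum_equiv inv.toPerm (fun q => H q.1 * φ q.2) (fun q => H q.1 * φ (q.1 x))
    fun q => by simp [hH]
  rw [sum_mul_sum, ← Fintype.sum_prod_type', this, Fintype.sum_prod_type]
  simp [mul_sum]

theorem chern {X κ : Type*} [Fintype X] [DecidableEq X] [DecidableEq κ] {M : ℕ} (hM : 0 < M)
    (pos : κ → X) (hinj : Injective pos) (φ : κ → Fin M → ℝ) (ψ : κ → ℝ)
    (hφ : ∀ k t, 0 ≤ φ k t) (hψ : ∀ k, 0 ≤ ψ k) (h : ∀ k, ∑ t, φ k t ≤ M * ψ k)
    (H : (X → Fin M) → ℝ) (H0 : ∀ ω, 0 ≤ H ω) (hH : ∀ k ω t, H (update ω (pos k) t) = H ω)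
    (S : Finset κ) : ∑ ω, H ω * ∏ k ∈ S, φ k (ω (pos k)) ≤ (∑ ω, H ω) * ∏ k ∈ S, ψ k := by
  induction S using Finset.induction_on with
  | empty => simp
  | insert k S hk ih =>
    have a := avg1 (fun ω => H ω * ∏ k ∈ S, φ k (ω (pos k))) (pos k) (fun ω t => by
      rw [hH]
      congr 1
      exact prod_congr rfl fun k' hk' => by
        rw [update_of_ne fun (q : pos k' = pos k) => hk (hinj q ▸ hk')]) (φ k)
    have b : 0 ≤ ∑ ω, H ω * ∏ k ∈ S, φ k (ω (pos k)) :=
      sum_nonneg fun ω _ => mul_nonneg (H0 ω) (prod_nonneg fun _ _ => hφ _ _)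
    have m : (0 : ℝ) < M := Nat.cast_pos.2 hM
    simp only [prod_insert hk]
    refine le_of_mul_le_mul_left ?_ m
    calc _ = (M : ℝ) * ∑ ω, (H ω * ∏ k ∈ S, φ k (ω (pos k))) * φ k (ω (pos k)) := by
          congr 1; exact sum_congr rfl fun _ _ => by ring
      _ ≤ (∑ ω, H ω * ∏ k ∈ S, φ k (ω (pos k))) * (M * ψ k) := by
          rw [a]; exact mul_le_mul_of_nonneg_left (h k) b
      _ ≤ ((∑ ω, H ω) * ∏ k ∈ S, ψ k) * (M * ψ k) :=
          mul_le_mul_of_nonneg_right ih (mul_nonneg m.le (hψ k))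
      _ = _ := by ring

open Classical in
theorem fin_round {X ι : Type*} [Fintype X] {M N n D : ℕ} (hM : 0 < M) (hD : 0 < D)
    (col : X → Fin M → Fin n) (r : X → Fin n → ℝ)
    (hr : ∀ x j, (∑ t, if col x t = j then (1 : ℝ) else 0) ≤ M * r x j)
    (I : Finset ι) (pos : ι → Fin N → X) (jj : ι → Fin n) (hinj : ∀ e ∈ I, Injective (pos e))
    (conf : ι → ι → Prop) (hc : ∀ e ∈ I, ∀ e' ∈ I, ¬conf e e' → ∀ t t', pos e t ≠ pos e' t')
    (deg : ∀ e ∈ I, #(I.filter (conf e)) ≤ D) {l : ℝ} (l0 : 0 < l) (l1 : l ≤ 1)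
    (hN : 4 * (D : ℝ) ≤ Real.exp (l ^ 2 * N)) :
    ∃ ω : X → Fin M, ∀ e ∈ I, (∑ t, if col (pos e t) (ω (pos e t)) = jj e then (1 : ℝ) else 0) ≤
      ∑ t, r (pos e t) (jj e) + 2 * l * N := by
  have : Nonempty (Fin M) := ⟨⟨0, hM⟩⟩
  obtain ⟨A, hA⟩ : ∃ A : ι → (X → Fin M) → Prop, A = fun e ω => ∑ t, r (pos e t) (jj e) + 2 * l * N <
    (∑ t, if col (pos e t) (ω (pos e t)) = jj e then (1 : ℝ) else 0) := ⟨_, rfl⟩
  obtain ⟨ω, h⟩ := lll I A conf D hD (fun e he S hS hd => by
    have key := chern hM (pos e) (hinj e he)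
      (fun k t => Real.exp (l * if col (pos e k) t = jj e then 1 else 0))
      (fun k => Real.exp (l * r (pos e k) (jj e) + l ^ 2)) (fun _ _ => (Real.exp_pos _).le)
      (fun _ => (Real.exp_pos _).le) (fun k => by
        have a : ∀ t, Real.exp (l * if col (pos e k) t = jj e then 1 else 0) ≤
            1 + l ^ 2 + l * if col (pos e k) t = jj e then 1 else 0 := fun t => by
          split_ifs
          · have := (abs_le.1 (Real.abs_exp_sub_one_sub_id_le (x := l) (abs_le.2 ⟨by linarith, l1⟩))).2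
            rw [mul_one]; linarith
          · simp [sq_nonneg]
        have b := Real.add_one_le_exp (l * r (pos e k) (jj e) + l ^ 2)
        have c := mul_le_mul_of_nonneg_left (hr (pos e k) (jj e)) l0.le
        have d := mul_le_mul_of_nonneg_left b (Nat.cast_nonneg (α := ℝ) M)
        refine (sum_le_sum fun t _ => a t).trans ?_
        rw [sum_add_distrib, ← mul_sum]
        simp only [sum_const, card_univ, Fintype.card_fin, nsmul_eq_mul]
        nlinarith)
      (fun ω => if ∀ j ∈ S, ¬A j ω then 1 else 0) (fun ω => by split_ifs <;> norm_num)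
      (fun k ω t => by
        refine if_congr (forall₂_congr fun j hj => not_congr ?_) rfl rfl
        have : ∀ t', update ω (pos e k) t (pos j t') = ω (pos j t') := fun t' =>
          update_of_ne (hc e he j (hS hj) (hd j hj) k t').symm _ _
        simp only [hA, this]) univ
    have low : (#(univ.filter fun ω => A e ω ∧ ∀ j ∈ S, ¬A j ω) : ℝ) *
        Real.exp (l * (∑ t, r (pos e t) (jj e) + 2 * l * N)) ≤
        ∑ ω : X → Fin M, (if ∀ j ∈ S, ¬A j ω then (1 : ℝ) else 0) *
          ∏ k, Real.exp (l * if col (pos e k) (ω (pos e k)) = jj e then 1 else 0) := by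
      rw [← nsmul_eq_mul, ← sum_const, sum_filter]
      refine sum_le_sum fun ω _ => ?_
      by_cases q : A e ω ∧ ∀ j ∈ S, ¬A j ω
      · rw [if_pos q, if_pos q.2, one_mul, ← Real.exp_sum, ← mul_sum]
        have := q.1
        rw [hA] at this
        exact Real.exp_le_exp.2 (mul_le_mul_of_nonneg_left this.le l0.le)
      · rw [if_neg q]
        exact mul_nonneg (by split_ifs <;> norm_num) (prod_nonneg fun _ _ => (Real.exp_pos _).le)
    rw [← Real.exp_sum, sum_add_distrib, ← mul_sum, sum_boole] at key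
    simp only [sum_const, card_univ, Fintype.card_fin, nsmul_eq_mul] at key
    have e1 : l * (∑ t, r (pos e t) (jj e) + 2 * l * N) =
      l ^ 2 * N + (l * ∑ t, r (pos e t) (jj e) + N * l ^ 2) := by ring
    rw [e1, Real.exp_add, ← mul_assoc] at low
    have z := le_of_mul_le_mul_right (low.trans key) (Real.exp_pos _)
    have z2 := mul_le_mul_of_nonneg_left hN
      (Nat.cast_nonneg (α := ℝ) #(univ.filter fun ω => A e ω ∧ ∀ j ∈ S, ¬A j ω))
    exact_mod_cast (mul_comm _ _).le.trans (z2.trans z)) deg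
  exact ⟨ω, fun e he => by have := h e he; rw [hA] at this; exact not_lt.1 this⟩

end Pool.Agent.H6.Is
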