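import Pool.Agent.H6.IsA

open Finset Function

namespace Pool.Agent.H6.Is

theorem exists_col {X : Type*} (M : ℕ) {n : ℕ} (p : X → Fin n → ℝ) (p0 : ∀ x j, 0 ≤ p x j)
    (p1 : ∀ x, 1 ≤ ∑ j, p x j) : ∃ col : X → Fin M → Fin n,
      ∀ x j, (∑ t, if col x t = j then (1 : ℝ) else 0) ≤ M * p x j + 1 := by
  have key : ∀ x, ∃ c : Fin M → Fin n,
      ∀ j, (∑ t, if c t = j then (1 : ℝ) else 0) ≤ M * p x j + 1 := by
    intro x
    have h : Fintype.card (Fin M) ≤
        #(univ.sigma fun j : Fin n => range ⌈M * p x j⌉₊ : Finset (Σ _ : Fin n, ℕ)) := by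
      rw [card_sigma, Fintype.card_fin]
      have a : (M : ℝ) ≤ ∑ j, (⌈M * p x j⌉₊ : ℝ) := by
        refine le_trans ?_ (sum_le_sum fun j _ => Nat.le_ceil _)
        rw [← mul_sum]
        exact le_mul_of_one_le_right (Nat.cast_nonneg _) (p1 x)
      simp only [card_range]
      exact_mod_cast a
    obtain ⟨f, hf⟩ := Embedding.exists_of_card_le_finset h
    refine ⟨fun t => (f t).1, fun j => ?_⟩
    rw [sum_boole]
    refine le_trans ?_ (Nat.ceil_lt_add_one (mul_nonneg (Nat.cast_nonneg _) (p0 x j))).le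
    rw [Nat.cast_le, ← card_range ⌈_⌉₊]
    refine card_le_card_of_injOn (fun t => (f t).2) (fun t ht => ?_) fun t ht t' ht' q => ?_
    · have := (mem_sigma.1 (mem_coe.1 (hf ⟨t, rfl⟩))).2
      have e : (f t).1 = j := (mem_filter.1 (mem_coe.1 ht)).2
      rwa [e] at this
    · exact f.injective (Sigma.ext ((mem_filter.1 (mem_coe.1 ht)).2.trans
        (mem_filter.1 (mem_coe.1 ht')).2.symm) (heq_of_eq q))
  choose col h using key
  exact ⟨col, h⟩

theorem round {G κ : Type*} [Group G] [Infinite G] [Fintype κ] {n : ℕ} (p : G → Fin n → ℝ)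
    (p0 : ∀ x j, 0 ≤ p x j) (p1 : ∀ x, 1 ≤ ∑ j, p x j) (a : κ → G) (jj : κ → Fin n) {l : ℝ}
    (l0 : 0 < l) (l1 : l ≤ 1) : ∃ (N : ℕ) (b : Fin N → G) (c : G → Fin n), 0 < N ∧ ∀ k g,
      (∑ t, if c (a k * b t * g) = jj k then (1 : ℝ) else 0) ≤
        ∑ t, p (a k * b t * g) (jj k) + 3 * l * N := by
  classical
  obtain ⟨M, hM⟩ := exists_nat_gt (1 / l)
  have M0 : (0 : ℝ) < M := lt_trans (by positivity) hM
  obtain ⟨N, hN⟩ := exists_nat_gt (24 * (Fintype.card κ + 1) / l ^ 6 : ℝ)
  have N0 : (0 : ℝ) < N := lt_trans (by positivity) hN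
  obtain ⟨col, hcol⟩ := exists_col M p p0 p1
  obtain ⟨b, hb⟩ : ∃ b : Fin N → G, Injective b :=
    ⟨fun t => Infinite.natEmbedding G t, (Infinite.natEmbedding G).injective.comp Fin.val_injective⟩
  refine ⟨N, b, ?_⟩
  obtain ⟨c, -, hc⟩ := (isCompact_univ (X := G → Fin n)).inter_iInter_nonempty
    (fun e : κ × G => {c | (∑ t, if c (a e.1 * b t * e.2) = jj e.1 then (1 : ℝ) else 0) ≤
      ∑ t, p (a e.1 * b t * e.2) (jj e.1) + 3 * l * N})
    (fun e => isClosed_le (continuous_finsetSum _ fun t _ =>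
      (continuous_of_discreteTopology (f := fun s : Fin n => if s = jj e.1 then (1 : ℝ) else 0)).comp
        (continuous_apply _)) continuous_const) fun I => by
    obtain ⟨U, u1, hU⟩ : ∃ U : Finset G, 1 ∈ U ∧ ∀ e ∈ I, ∀ t, a e.1 * b t * e.2 ∈ U :=
      ⟨insert 1 (I.biUnion fun e => univ.image fun t => a e.1 * b t * e.2), mem_insert_self _ _,
        fun e he t => mem_insert_of_mem (mem_biUnion.2 ⟨e, he, mem_image_of_mem _ (mem_univ t)⟩)⟩
    obtain ⟨ρ, hρ⟩ : ∃ ρ : G → U, ∀ x ∈ U, (ρ x : G) = x :=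
      ⟨fun x => if h : x ∈ U then ⟨x, h⟩ else ⟨1, u1⟩, fun x h => by simp [h]⟩
    obtain ⟨ω, h⟩ := fin_round (X := U) (M := M) (D := (Fintype.card κ + 1) * N ^ 2)
      (Nat.cast_pos.1 M0) (by have := Nat.cast_pos.1 N0; positivity) (fun x => col x)
      (fun x j => p x j + 1 / M) (fun x j => by
        rw [mul_add, mul_one_div_cancel M0.ne']; exact hcol x j) I
      (fun e t => ρ (a e.1 * b t * e.2)) (fun e => jj e.1)
      (fun e he t t' q => by
        have := congrArg Subtype.val q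
        simp only [hρ _ (hU e he _)] at this
        exact hb (mul_left_cancel (mul_right_cancel this)))
      (fun e e' => ∃ t t', a e.1 * b t * e.2 = a e'.1 * b t' * e'.2)
      (fun e he e' he' q t t' r => q ⟨t, t', by
        have := congrArg Subtype.val r
        simpa only [hρ _ (hU e he _), hρ _ (hU e' he' _)] using this⟩)
      (fun e he => by
        refine le_trans (card_le_card (t := univ.image fun q : κ × Fin N × Fin N =>
          (q.1, (a q.1 * b q.2.2)⁻¹ * (a e.1 * b q.2.1 * e.2))) fun e' he' => ?_)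
          (card_image_le.trans ?_)
        · simp only [mem_filter] at he'
          obtain ⟨t, t', q⟩ := he'.2
          exact mem_image.2 ⟨(e'.1, t, t'), mem_univ _, by simp only [q, inv_mul_cancel_left]⟩
        · simp only [card_univ, Fintype.card_prod, Fintype.card_fin]
          nlinarith) l0 l1 (by
        refine le_trans ?_ (Real.pow_div_factorial_le_exp _ (by positivity) 3)
        rw [div_lt_iff₀ (by positivity)] at hN
        have := mul_le_mul_of_nonneg_right hN.le (sq_nonneg (N : ℝ))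
        simp only [Nat.factorial]
        push_cast
        nlinarith)
    refine ⟨fun x => col x (ω (ρ x)), Set.mem_univ _, Set.mem_iInter₂.2 fun e he => ?_⟩
    have := h e he
    simp only [hρ _ (hU e he _), sum_add_distrib, sum_const, card_univ, Fintype.card_fin,
      nsmul_eq_mul] at this
    have z : 1 / (M : ℝ) ≤ l := by
      rw [div_lt_iff₀ l0] at hM
      rw [div_le_iff₀ M0]; linarith
    have := mul_le_mul_of_nonneg_left z N0.le
    simp only [Set.mem_ofPred_eq]
    linarith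
  exact ⟨c, Nat.cast_pos.1 N0, fun k g => Set.mem_iInter.1 hc (k, g)⟩

end Pool.Agent.H6.Is
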