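import Mathlib

/-! The density `is₁₂` and amenability of a discrete group. -/

namespace Pool.Agent.H6.Is

open Classical in
/-- `is₁₂(A) = inf_μ sup_y μ(A y)`, over finitely supported probability measures
`μ = ∑ αᵢ δ_{aᵢ}`. -/
noncomputable def is12 {G : Type*} [Group G] (A : Set G) : ℝ :=
  sInf {s | ∃ (ι : Type) (_ : Fintype ι) (a : ι → G) (α : ι → ℝ), (∀ i, 0 ≤ α i) ∧ ∑ i, α i = 1 ∧
    s = ⨆ y : G, ∑ i, if a i ∈ (· * y) '' A then α i else 0}

/-- There is a left-invariant finitely additive probability measure on all subsets. -/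
def Amenable (G : Type*) [Group G] : Prop :=
  ∃ m : Set G → ℝ, (∀ A, 0 ≤ m A) ∧ m Set.univ = 1 ∧
    (∀ A B, Disjoint A B → m (A ∪ B) = m A + m B) ∧ ∀ (g : G) (A : Set G), m ((g * ·) '' A) = m A

end Pool.Agent.H6.Is
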