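import Pool.Agent.H6.IsB
import Pool.Agent.H6.IsDefs

open Finset Function

namespace Pool.Agent.H6.Is

variable {G : Type*} [Group G]

/-- Nonnegative up to a finite sum of coboundaries. -/
def P (f : G → ℝ) : Prop := ∃ (ι : Type) (_ : Fintype ι) (h : ι → G → ℝ) (s : ι → G) (B : ℝ),
  (∀ j x, |h j x| ≤ B) ∧ ∀ x, 0 ≤ f x + ∑ j, (h j x - h j (s j * x))

theorem P_add {f g : G → ℝ} (a : P f) (b : P g) : P (f + g) := by
  obtain ⟨ι, _, h, s, B, h1, h2⟩ := a
  obtain ⟨ι', _, h', s', B', h1', h2'⟩ := b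
  refine ⟨ι ⊕ ι', inferInstance, Sum.elim h h', Sum.elim s s', max B B', ?_, fun x => ?_⟩
  · rintro (j | j) x
    · exact (h1 j x).trans (le_max_left _ _)
    · exact (h1' j x).trans (le_max_right _ _)
  · have := h2 x
    have := h2' x
    simp only [Fintype.sum_sum_type, Sum.elim_inl, Sum.elim_inr, Pi.add_apply]
    linarith

theorem P_smul {f : G → ℝ} (a : P f) {c : ℝ} (hc : 0 ≤ c) : P (c • f) := by
  obtain ⟨ι, _, h, s, B, h1, h2⟩ := a
  refine ⟨ι, inferInstance, fun j x => c * h j x, s, c * B, fun j x => ?_, fun x => ?_⟩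
  · rw [abs_mul, abs_of_nonneg hc]; exact mul_le_mul_of_nonneg_left (h1 j x) hc
  · simp only [← mul_sub, ← mul_sum, Pi.smul_apply, smul_eq_mul, ← mul_add]
    exact mul_nonneg hc (h2 x)

theorem P_pos {f : G → ℝ} (a : ∀ x, 0 ≤ f x) : P f :=
  ⟨Empty, inferInstance, fun _ _ => 0, fun _ => 1, 0, by simp, by simpa using a⟩

theorem P_inv {f h : G → ℝ} {B : ℝ} (a : ∀ x, |h x| ≤ B) (s : G) (e : ∀ x, f x = h (s * x) - h x) :
    P f := ⟨Unit, inferInstance, fun _ => h, fun _ => s, B, fun _ => a, by simp [e]⟩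

/-- Bounded functions. -/
def Bd (G : Type*) : Submodule ℝ (G → ℝ) where
  carrier := {f | ∃ B, ∀ x, |f x| ≤ B}
  add_mem' := fun ⟨B, a⟩ ⟨C, b⟩ => ⟨B + C, fun x => (abs_add_le _ _).trans (add_le_add (a x) (b x))⟩
  zero_mem' := ⟨0, by simp⟩
  smul_mem' := fun c _ ⟨B, a⟩ => ⟨|c| * B, fun x => by
    rw [Pi.smul_apply, smul_eq_mul, abs_mul]; exact mul_le_mul_of_nonneg_left (a x) (abs_nonneg c)⟩

theorem ind_le (A : Set G) (x : G) : |A.indicator (1 : G → ℝ) x| ≤ 1 := by
  by_cases h : x ∈ A <;> simp [h]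

theorem amenable_of (H : ∀ c : ℝ, P (fun _ : G => c) → 0 ≤ c) : Amenable G := by
  let s : PointedCone ℝ (Bd G) :=
    { carrier := {f | P f.1}
      add_mem' := fun a b => P_add a b
      zero_mem' := P_pos fun _ => le_rfl
      smul_mem' := fun c _ a => P_smul a c.2 }
  let I : Set G → Bd G := fun A => ⟨A.indicator 1, 1, ind_le A⟩
  let ev : Bd G →ₗ[ℝ] ℝ := (LinearMap.proj (1 : G)).comp (Bd G).subtype
  obtain ⟨g, g1, g2⟩ := riesz_extension s (ev.toPMap (ℝ ∙ I Set.univ)) (by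
    rintro ⟨x, hx⟩ q
    obtain ⟨c, rfl⟩ := Submodule.mem_span_singleton.1 hx
    have e : (c • I Set.univ).1 = fun _ => c := by ext x; simp [I]
    have q : P (c • I Set.univ).1 := q
    rw [e] at q
    simpa [ev, I] using H c q) (by
    rintro ⟨y, B, hB⟩
    refine ⟨⟨B • I Set.univ, Submodule.mem_span_singleton.2 ⟨B, rfl⟩⟩, P_pos fun x => ?_⟩
    have := (abs_le.1 (hB x)).1
    simp [I]
    linarith)
  refine ⟨fun A => g (I A), fun A => g2 _ (P_pos fun x => Set.indicator_nonneg (by simp) x), ?_,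
    fun A B h => ?_, fun t A => ?_⟩
  · simpa [ev, I] using g1 ⟨I Set.univ, Submodule.mem_span_singleton_self _⟩
  · have e : I (A ∪ B) = I A + I B := Subtype.ext (Set.indicator_union_of_disjoint h 1)
    simp only
    rw [e, map_add]
  · have e : ∀ x, ((t * ·) '' A).indicator (1 : G → ℝ) x = A.indicator 1 (t⁻¹ * x) := fun x => by
      by_cases h : t⁻¹ * x ∈ A <;> simp [h]
    have a := g2 (I ((t * ·) '' A) - I A) (P_inv (ind_le A) t⁻¹ fun x => by simp only [I, ← e]; rfl)
    have b := g2 (I A - I ((t * ·) '' A)) (P_inv (h := fun x => -A.indicator 1 x) (B := 1)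
      (fun x => by rw [abs_neg]; exact ind_le A x) t⁻¹ fun x => by
        simp only [I, ← e, neg_sub_neg]; rfl)
    rw [map_sub] at a b
    simp only
    linarith

theorem is12_le {A : Set G} {ι : Type} [Fintype ι] [Nonempty ι] (a : ι → G) {q : ℝ}
    [DecidablePred (· ∈ A)]
    (h : ∀ g, (∑ i, if a i * g ∈ A then (1 : ℝ) else 0) ≤ q * Fintype.card ι) : is12 A ≤ q := by
  classical
  have c : (0 : ℝ) < Fintype.card ι := Nat.cast_pos.2 Fintype.card_pos
  refine csInf_le_of_le ⟨0, ?_⟩ ⟨ι, inferInstance, a, fun _ => 1 / Fintype.card ι,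
    fun _ => by positivity, by simp [c.ne'], rfl⟩ (ciSup_le fun y => ?_)
  · rintro _ ⟨ι, _, a, α, h0, -, rfl⟩
    exact Real.iSup_nonneg fun y => sum_nonneg fun i _ => by split_ifs; exacts [h0 i, le_rfl]
  · refine le_trans (le_of_eq ?_) ((div_le_iff₀ c).2 (h y⁻¹))
    rw [sum_div]
    exact sum_congr rfl fun i _ => by by_cases q : a i * y⁻¹ ∈ A <;> simp [q]

theorem low (H : ¬ Amenable G) :
    ∃ (n : ℕ) (c : G → Fin n), ∀ j, is12 (c ⁻¹' {j}) < 1 / n := by
  classical
  obtain ⟨c', hc⟩ := not_forall.1 (mt amenable_of H)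
  obtain ⟨⟨ι, _, h', s', B, h1', h2'⟩, c0⟩ := Classical.not_imp.1 hc
  obtain ⟨n, h, s, c, c0, h1, h2⟩ : ∃ (n : ℕ) (h : Fin n → G → ℝ) (s : Fin n → G) (c : ℝ), 0 < c ∧
      (∀ j x, |h j x| ≤ B) ∧ ∀ x, c ≤ ∑ j, (h j x - h j (s j * x)) :=
    ⟨_, h' ∘ (Fintype.equivFin ι).symm, s' ∘ (Fintype.equivFin ι).symm, -c', by linarith,
      fun _ _ => h1' _ _, fun x => by
        have := h2' x
        rw [← (Fintype.equivFin ι).symm.sum_comp] at this
        simp only [comp_apply]
        linarith⟩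
  have n0 : 0 < n := Nat.pos_of_ne_zero fun q => by
    subst q
    have := h2 1
    simp only [univ_eq_empty, sum_empty] at this
    linarith
  have B0 : 0 ≤ B := (abs_nonneg _).trans (h1 ⟨0, n0⟩ 1)
  have n1 : (1 : ℝ) ≤ n := by exact_mod_cast n0
  cases finite_or_infinite G with
  | inl _ =>
    have := Fintype.ofFinite G
    have a := sum_le_sum fun x (_ : x ∈ univ) => h2 x
    have z : ∑ j, ∑ x, (h j x - h j (s j * x)) = 0 := sum_eq_zero fun j _ => by
      rw [sum_sub_distrib, sub_eq_zero]; exact (Equiv.sum_comp (Equiv.mulLeft (s j)) (h j)).symm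
    rw [sum_comm, z] at a
    exact absurd (sum_pos (fun _ _ => c0) univ_nonempty) (not_lt.2 a)
  | inr _ =>
    obtain ⟨C, hC⟩ : ∃ C, C = c + n * (2 * B) := ⟨_, rfl⟩
    have C0 : 0 < C := by rw [hC]; positivity
    obtain ⟨l, hl⟩ : ∃ l, l = c / (n * C) / 9 := ⟨_, rfl⟩
    have l0 : 0 < l := by rw [hl]; positivity
    have e1 : 2 * B / C + 9 * l = 1 / n := by
      rw [hl]; field_simp; rw [hC]; ring
    have l1 : l ≤ 1 := by
      have : 0 ≤ 2 * B / C := by positivity
      have : 1 / (n : ℝ) ≤ 1 := (div_le_one (by linarith)).2 n1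
      linarith
    obtain ⟨K, hK⟩ := exists_nat_gt (2 * B / C / l)
    have K0 : (0 : ℝ) < K := lt_of_le_of_lt (by positivity) hK
    rw [div_lt_iff₀ l0] at hK
    obtain ⟨N, b, col, N0, hN⟩ := round (fun x j => (h j x - h j (s j * x) + 2 * B) / C)
      (fun x j => div_nonneg (by
        have := abs_le.1 (h1 j x)
        have := abs_le.1 (h1 j (s j * x))
        linarith) C0.le)
      (fun x => by
        rw [← sum_div, one_le_div C0, sum_add_distrib, hC]
        simpa using h2 x)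
      (fun k : Fin n × Fin K => s k.1 ^ (k.2 : ℕ)) Prod.fst l0 l1
    refine ⟨n, col, fun j => ?_⟩
    have : Nonempty (Fin K × Fin N) := ⟨⟨0, Nat.cast_pos.1 K0⟩, ⟨0, N0⟩⟩
    refine lt_of_le_of_lt (is12_le (q := 2 * B / C + 4 * l)
      (fun k : Fin K × Fin N => s j ^ (k.1 : ℕ) * b k.2) fun g => ?_) (by linarith)
    have tel : ∀ x, ∑ i : Fin K, (h j (s j ^ (i : ℕ) * x) - h j (s j * (s j ^ (i : ℕ) * x)) + 2 * B) / C ≤
        (2 * B / C + l) * K := fun x => by
      rw [← sum_div, sum_add_distrib,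
        Fin.sum_univ_eq_sum_range (fun i => h j (s j ^ i * x) - h j (s j * (s j ^ i * x))) K]
      simp only [← mul_assoc, ← pow_succ']
      rw [sum_range_sub' (fun i => h j (s j ^ i * x)) K]
      have := abs_le.1 (h1 j (s j ^ 0 * x))
      have := abs_le.1 (h1 j (s j ^ K * x))
      simp only [sum_const, card_univ, Fintype.card_fin, nsmul_eq_mul]
      have e : (2 * B / C + l) * K = (2 * B * K) / C + K * l := by ring
      rw [e, ← sub_le_iff_le_add', ← sub_div]
      exact le_trans (div_le_div_of_nonneg_right (by linarith) C0.le) hK.le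
    rw [Fintype.sum_prod_type]
    simp only [Set.mem_preimage, Set.mem_singleton_iff]
    refine (sum_le_sum fun i _ => hN (j, i) g).trans ?_
    rw [sum_add_distrib, sum_comm]
    simp only [mul_assoc _ (b _) g]
    have := sum_le_sum fun t (_ : t ∈ univ) => tel (b t * g)
    simp only [sum_const, card_univ, Fintype.card_fin, nsmul_eq_mul, Fintype.card_prod,
      Nat.cast_mul] at this ⊢
    linarith

end Pool.Agent.H6.Is
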