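import Mathlib

namespace Pool.Agent.H6.Transf
open Cardinal Set

/-- Transfinite construction of length continuum. -/
theorem transf {X T : Type} [Nonempty T] (hT : #T ≤ continuum) (Good : Set X → Prop)
    (Done : T → Set X → Prop) (mono : ∀ t G G', G ⊆ G' → Done t G → Done t G')
    (dir : ∀ (ι : Type) (s : ι → Set X), Directed (· ⊆ ·) s → (∀ i, Good (s i)) → Good (⋃ i, s i))
    (ext : ∀ G t, Good G → #G < continuum →
      ∃ G', G ⊆ G' ∧ (G' \ G).Finite ∧ Good G' ∧ Done t G') :
    ∃ G, Good G ∧ ∀ t, Done t G := by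
  classical
  let I := continuum.{0}.ord.ToType
  obtain ⟨e⟩ : Nonempty (T ↪ I) := by
    rw [← Cardinal.le_def, mk_ord_toType]; exact hT
  choose! nx hnx using ext
  let F : I → Set X := WellFounded.fix wellFounded_lt fun i f =>
    nx (⋃ j : Iio i, f j j.2) (Function.invFun e i)
  have hF : ∀ i, F i = nx (⋃ j : Iio i, F j) (Function.invFun e i) := fun i =>
    WellFounded.fix_eq _ _ i
  have key : ∀ i, (⋃ j : Iio i, F j) ⊆ F i ∧ (F i \ ⋃ j : Iio i, F j).Finite ∧ Good (F i) ∧
      Done (Function.invFun e i) (F i) := by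
    intro i
    induction i using WellFoundedLT.induction with
    | ind i ih =>
    have m : ∀ j k : Iio i, j ≤ k → F j ⊆ F k := fun j k h => by
      rcases h.lt_or_eq with h | rfl
      · exact (subset_iUnion (fun l : Iio (k : I) => F l) ⟨j, h⟩).trans (ih k k.2).1
      · exact subset_rfl
    have g := dir _ (fun j : Iio i => F j) (Monotone.directed_le m) fun j => (ih j j.2).2.2.1
    have s : (⋃ j : Iio i, F j) ⊆ ⋃ j : Iio i, (F j \ ⋃ l : Iio (j : I), F l) := by
      intro x hx
      obtain ⟨j, hj, hm⟩ := WellFounded.has_min wellFounded_lt {j : Iio i | x ∈ F j}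
        (mem_iUnion.1 hx)
      refine mem_iUnion.2 ⟨j, hj, fun h => ?_⟩
      obtain ⟨l, hl⟩ := mem_iUnion.1 h
      exact hm ⟨l, lt_trans (mem_Iio.1 l.2) (mem_Iio.1 j.2)⟩ hl (mem_Iio.1 l.2)
    have c : #(⋃ j : Iio i, F j) < continuum := by
      refine ((mk_le_mk_of_subset s).trans (mk_iUnion_le _)).trans_lt
        (mul_lt_of_lt aleph0_le_continuum (mk_Iio_toType_ord_lt i) ?_)
      exact (ciSup_le' fun j : Iio i => (lt_aleph0_iff_set_finite.2 (ih j j.2).2.1).le).trans_lt
        aleph0_lt_continuum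
    rw [hF i]
    exact hnx _ _ g c
  have m : ∀ j k : I, j ≤ k → F j ⊆ F k := fun j k h => by
    rcases h.lt_or_eq with h | rfl
    · exact (subset_iUnion (fun l : Iio k => F l) ⟨j, h⟩).trans (key k).1
    · exact subset_rfl
  refine ⟨⋃ i, F i, dir _ F (Monotone.directed_le m) fun i => (key i).2.2.1, fun t => ?_⟩
  have := (key (e t)).2.2.2
  rw [Function.leftInverse_invFun e.injective t] at this
  exact mono _ _ _ (subset_iUnion F _) this

/-- A real number generic over a small set. -/
theorem gen (S : Set ℝ) (hS : #S < continuum) : ∃ K : Subfield ℝ, S ⊆ K ∧ ∃ t : ℝ,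
    ∀ a ∈ K, ∀ b ∈ K, ∀ c ∈ K, a * t ^ 2 + b * t + c = 0 → a = 0 ∧ b = 0 ∧ c = 0 := by
  refine ⟨Subfield.closure S, Subfield.subset_closure, ?_⟩
  set K := Subfield.closure S
  have hK : #K < continuum :=
    (Subfield.cardinalMk_closure_le_max S).trans_lt (max_lt hS aleph0_lt_continuum)
  obtain ⟨t, ht⟩ : ∃ t : ℝ, Transcendental K t := by
    by_contra h
    push Not at h
    haveI : Algebra.IsAlgebraic K ℝ := ⟨fun x => by simpa [Transcendental] using h x⟩
    have := (Algebra.IsAlgebraic.cardinalMk_le_max K ℝ).trans_lt (max_lt hK aleph0_lt_continuum)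
    rw [mk_real] at this
    exact lt_irrefl _ this
  refine ⟨t, fun a ha b hb c hc h => ?_⟩
  have := transcendental_iff.1 ht (Polynomial.C (⟨a, ha⟩ : K) * Polynomial.X ^ 2 +
    Polynomial.C ⟨b, hb⟩ * Polynomial.X + Polynomial.C ⟨c, hc⟩) (by simp; exact h)
  have h2 := congrArg (Polynomial.coeff · 2) this
  have h1 := congrArg (Polynomial.coeff · 1) this
  have h0 := congrArg (Polynomial.coeff · 0) this
  simp [Polynomial.coeff_X, Polynomial.coeff_C] at h2 h1 h0
  exact ⟨congrArg Subtype.val h2, congrArg Subtype.val h1, congrArg Subtype.val h0⟩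

end Pool.Agent.H6.Transf
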