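import Pool.Agent.H6.MazurDefs
import Pool.Agent.H6.Transf

namespace Pool.Agent.H6.Mazur
open Cardinal Set Pool.Agent.H6.Transf Submodule

abbrev V := ℝ × ℝ
abbrev Pt := V × (ℝ → Bool)

noncomputable def ph (θ : ℝ) (p : V) : ℝ := Real.cos θ * p.1 - Real.sin θ * p.2
def cr (x y z : V) : ℝ := (y.1 - x.1) * (z.2 - x.2) - (y.2 - x.2) * (z.1 - x.1)
def cls (G : Set Pt) (θ : ℝ) (i : Bool) : Set V := Prod.fst '' {x ∈ G | x.2 θ = i}

structure Good (G : Set Pt) : Prop where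
  fn : ∀ x ∈ G, ∀ y ∈ G, x.1 = y.1 → x = y
  col : ∀ x ∈ G, ∀ y ∈ G, ∀ z ∈ G, cr x.1 y.1 z.1 = 0 → x = y ∨ x = z ∨ y = z
  spl : ∀ x ∈ G, ∀ y ∈ G, ∀ θ, ph θ x.1 = ph θ y.1 → x.2 θ = y.2 θ → x = y
  ind : ∀ θ i, LinearIndepOn ℚ id (cls G θ i)

lemma cls_mono {G G' : Set Pt} (h : G ⊆ G') (θ : ℝ) (i : Bool) : cls G θ i ⊆ cls G' θ i :=
  image_mono fun _ hx => ⟨h hx.1, hx.2⟩

lemma good_dir (ι : Type) (s : ι → Set Pt) (d : Directed (· ⊆ ·) s) (h : ∀ i, Good (s i)) :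
    Good (⋃ i, s i) := by
  have two : ∀ x ∈ ⋃ i, s i, ∀ y ∈ ⋃ i, s i, ∃ k, x ∈ s k ∧ y ∈ s k := by
    intro x hx y hy
    obtain ⟨i, hi⟩ := mem_iUnion.1 hx
    obtain ⟨j, hj⟩ := mem_iUnion.1 hy
    obtain ⟨k, h1, h2⟩ := d i j
    exact ⟨k, h1 hi, h2 hj⟩
  refine ⟨fun x hx y hy => ?_, fun x hx y hy z hz => ?_, fun x hx y hy => ?_, fun θ b => ?_⟩
  · obtain ⟨k, h1, h2⟩ := two x hx y hy; exact (h k).fn x h1 y h2
  · obtain ⟨k, h1, h2⟩ := two x hx y hy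
    obtain ⟨j, hj⟩ := mem_iUnion.1 hz
    obtain ⟨l, h3, h4⟩ := d k j
    exact (h l).col x (h3 h1) y (h3 h2) z (h4 hj)
  · obtain ⟨k, h1, h2⟩ := two x hx y hy; exact (h k).spl x h1 y h2
  · have : cls (⋃ i, s i) θ b = ⋃ i, cls (s i) θ b := by
      ext v; simp only [cls, mem_image, mem_iUnion, mem_ofPred_eq]; tauto
    rw [this]
    refine linearIndepOn_iUnion_of_directed (fun i j => ?_) fun i => (h i).ind θ b
    obtain ⟨k, h1, h2⟩ := d i j
    exact ⟨k, cls_mono h1 _ _, cls_mono h2 _ _⟩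

lemma cls_insert (G : Set Pt) (x : Pt) (θ : ℝ) (i : Bool) :
    cls (insert x G) θ i = if x.2 θ = i then insert x.1 (cls G θ i) else cls G θ i := by
  split_ifs with h
  · rw [cls, cls, ← image_insert_eq]; congr 1; ext y
    simp only [mem_ofPred_eq, mem_insert_iff]
    exact ⟨fun a => a.1.imp_right fun b => ⟨b, a.2⟩,
      fun a => a.elim (fun b => ⟨Or.inl b, b ▸ h⟩) fun b => ⟨Or.inr b.1, b.2⟩⟩
  · rw [cls, cls]; congr 1; ext y
    simp only [mem_ofPred_eq, mem_insert_iff]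
    exact ⟨fun a => ⟨a.1.resolve_left fun b => h (b ▸ a.2), a.2⟩, fun a => ⟨Or.inr a.1, a.2⟩⟩

lemma Good.ins {G : Set Pt} (g : Good G) (p : V) (c : ℝ → Bool) (h0 : ∀ x ∈ G, x.1 ≠ p)
    (h1 : ∀ x ∈ G, ∀ y ∈ G, cr x.1 y.1 p = 0 → x = y)
    (h2 : ∀ y ∈ G, ∀ θ, ph θ y.1 = ph θ p → y.2 θ ≠ c θ)
    (h3 : ∀ θ, p ∉ span ℚ (cls G θ (c θ))) : Good (insert (p, c) G) := by
  refine ⟨?_, ?_, ?_, fun θ i => ?_⟩
  · rintro x (rfl | hx) y (rfl | hy) e
    exacts [rfl, absurd e.symm (h0 y hy), absurd e (h0 x hx), g.fn x hx y hy e]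
  · rintro x (rfl | hx) y (rfl | hy) z (rfl | hz) e
    any_goals simp only [true_or, or_true]
    · exact Or.inr (Or.inr (h1 y hy z hz (by simp only [cr] at e ⊢; linear_combination e)))
    · exact Or.inr (Or.inl (h1 x hx z hz (by simp only [cr] at e ⊢; linear_combination -e)))
    · exact Or.inl (h1 x hx y hy e)
    · exact g.col x hx y hy z hz e
  · rintro x (rfl | hx) y (rfl | hy) θ e e'
    exacts [rfl, absurd e'.symm (h2 y hy θ e.symm), absurd e' (h2 x hx θ e),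
      g.spl x hx y hy θ e e']
  · rw [cls_insert]
    split_ifs with h
    · exact (g.ind θ i).id_insert (h ▸ h3 θ)
    · exact g.ind θ i

lemma crz {θ : ℝ} {u v : V} (hu : ph θ u = 0) (hv : ph θ v = 0) : u.1 * v.2 - u.2 * v.1 = 0 := by
  simp only [ph] at hu hv
  linear_combination (Real.cos θ * v.2 + Real.sin θ * v.1) * hu -
    (Real.cos θ * u.2 + Real.sin θ * u.1) * hv -
    (u.1 * v.2 - u.2 * v.1) * Real.cos_sq_add_sin_sq θ

lemma ph_sub (θ : ℝ) (u v : V) : ph θ (u - v) = ph θ u - ph θ v := by simp [ph]; ring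

def InK (K : Subfield ℝ) (v : V) : Prop := v.1 ∈ K ∧ v.2 ∈ K

lemma spanK {K : Subfield ℝ} {s : Set V} (h : ∀ v ∈ s, InK K v) : ∀ v ∈ span ℚ s, InK K v := by
  intro v hv
  induction hv using span_induction with
  | mem x hx => exact h x hx
  | zero => exact ⟨K.zero_mem, K.zero_mem⟩
  | add x y _ _ a b => exact ⟨K.add_mem a.1 b.1, K.add_mem a.2 b.2⟩
  | smul r x _ a =>
    exact ⟨by rw [Prod.smul_fst, Rat.smul_def]; exact K.mul_mem (SubfieldClass.ratCast_mem K r) a.1,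
      by rw [Prod.smul_snd, Rat.smul_def]; exact K.mul_mem (SubfieldClass.ratCast_mem K r) a.2⟩

lemma clsK {K : Subfield ℝ} {G : Set Pt} (h : ∀ x ∈ G, InK K x.1) (θ : ℝ) (i : Bool) :
    ∀ v ∈ cls G θ i, InK K v := by
  rintro _ ⟨x, hx, rfl⟩; exact h x hx.1

lemma genG (G : Set Pt) (hG : #G < continuum) (l : List ℝ) : ∃ K : Subfield ℝ,
    (∀ x ∈ G, InK K x.1) ∧ (∀ r ∈ l, r ∈ K) ∧ ∃ t : ℝ,
    ∀ a ∈ K, ∀ b ∈ K, ∀ c ∈ K, a * t ^ 2 + b * t + c = 0 → a = 0 ∧ b = 0 ∧ c = 0 := by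
  obtain ⟨K, hK, ht⟩ := gen ((fun x : Pt => x.1.1) '' G ∪ ((fun x : Pt => x.1.2) '' G ∪ {r | r ∈ l}))
    ((mk_union_le _ _).trans_lt (add_lt_of_lt aleph0_le_continuum (mk_image_le.trans_lt hG)
      ((mk_union_le _ _).trans_lt (add_lt_of_lt aleph0_le_continuum (mk_image_le.trans_lt hG)
        ((lt_aleph0_iff_set_finite.2 l.finite_toSet).trans aleph0_lt_continuum)))))
  exact ⟨K, fun x hx => ⟨hK (Or.inl ⟨x, hx, rfl⟩), hK (Or.inr (Or.inl ⟨x, hx, rfl⟩))⟩,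
    fun r hr => hK (Or.inr (Or.inr hr)), ht⟩

lemma Good.single {G : Set Pt} (g : Good G) {K : Subfield ℝ} (hK : ∀ x ∈ G, InK K x.1) {p : V}
    (hp : ¬ InK K p) (h1 : ∀ x ∈ G, ∀ y ∈ G, cr x.1 y.1 p = 0 → x = y) (d : ℝ → Bool) :
    ∃ c, Good (insert (p, c) G) ∧ ∀ θ, (∀ y ∈ G, ph θ y.1 ≠ ph θ p) → c θ = d θ := by
  classical
  refine ⟨fun θ => if h : ∃ y ∈ G, ph θ y.1 = ph θ p then !(h.choose.2 θ) else d θ,
    g.ins p _ (fun x hx e => hp (e ▸ hK x hx)) h1 (fun y hy θ e => ?_)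
      fun θ h => hp (spanK (clsK hK _ _) p h), fun θ h => dif_neg (by simpa using h)⟩
  have h : ∃ y ∈ G, ph θ y.1 = ph θ p := ⟨y, hy, e⟩
  have : h.choose = y := h1 _ h.choose_spec.1 y hy
    (crz (θ := θ) (u := y.1 - h.choose.1) (v := p - h.choose.1)
      (by rw [ph_sub, e, h.choose_spec.2, sub_self]) (by rw [ph_sub, h.choose_spec.2, sub_self]))
  simp only [dif_pos h, this]
  cases y.2 θ <;> simp

def On (a b e : ℝ) (x : Pt) : Prop := a * x.1.1 + b * x.1.2 = e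
def Two (a b e : ℝ) (G : Set Pt) : Prop := ∃ x ∈ G, ∃ y ∈ G, x ≠ y ∧ On a b e x ∧ On a b e y

lemma small {G : Set Pt} (hG : #G < continuum) (x : Pt) : #(insert x G : Set Pt) < continuum :=
  mk_insert_le.trans_lt (add_lt_of_lt aleph0_le_continuum hG (one_lt_aleph0.trans aleph0_lt_continuum))

lemma line1 {G : Set Pt} (g : Good G) (hG : #G < continuum) {a b e : ℝ} (hab : a ≠ 0 ∨ b ≠ 0)
    (h : ¬ Two a b e G) : ∃ x ∉ G, On a b e x ∧ Good (insert x G) := by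
  obtain ⟨u, v, huv⟩ : ∃ u v, a * u + b * v = e := by
    rcases hab with h | h
    · exact ⟨e / a, 0, by field_simp; simp⟩
    · exact ⟨0, e / b, by field_simp; simp⟩
  obtain ⟨K, hK, hl, t, ht⟩ := genG G hG [a, b, u, v]
  simp only [List.mem_cons, List.not_mem_nil, or_false, forall_eq_or_imp, forall_eq] at hl
  obtain ⟨ka, kb, ku, kv⟩ := hl
  have hp : ¬ InK K (u - b * t, v + a * t) := fun ⟨k1, k2⟩ => by
    have e1 := ht 0 K.zero_mem b kb _ (K.sub_mem k1 ku) (by simp)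
    have e2 := ht 0 K.zero_mem a ka _ (K.sub_mem kv k2) (by simp)
    tauto
  suffices hcol : ∀ x ∈ G, ∀ y ∈ G, cr x.1 y.1 (u - b * t, v + a * t) = 0 → x = y by
    obtain ⟨c, hc, -⟩ := g.single hK hp hcol fun _ => true
    exact ⟨(_, c), fun hx => hp (hK _ hx), by simp only [On]; linear_combination huv, hc⟩
  intro x hx y hy hxy
  obtain ⟨x1, x2⟩ := hK x hx
  obtain ⟨y1, y2⟩ := hK y hy
  obtain ⟨-, e1, e2⟩ := ht 0 K.zero_mem (a * (y.1.1 - x.1.1) + b * (y.1.2 - x.1.2))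
    (K.add_mem (K.mul_mem ka (K.sub_mem y1 x1)) (K.mul_mem kb (K.sub_mem y2 x2))) (cr x.1 y.1 (u, v))
    (by apply_rules [K.mul_mem, K.sub_mem])
    (by simp only [cr] at hxy ⊢; linear_combination hxy)
  by_contra hne
  have hx0 : On a b e x := by
    by_contra h0
    simp only [cr] at e2
    have h0' : e - (a * x.1.1 + b * x.1.2) ≠ 0 := fun z => h0 (by simp only [On]; linarith)
    refine hne (g.fn x hx y hy (Prod.ext ?_ ?_))
    · have : (e - (a * x.1.1 + b * x.1.2)) * (y.1.1 - x.1.1) = 0 := by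
        linear_combination (u - x.1.1) * e1 + b * e2 - (y.1.1 - x.1.1) * huv
      linarith [(mul_eq_zero.1 this).resolve_left h0']
    · have : (e - (a * x.1.1 + b * x.1.2)) * (y.1.2 - x.1.2) = 0 := by
        linear_combination (v - x.1.2) * e1 - a * e2 - (y.1.2 - x.1.2) * huv
      linarith [(mul_eq_zero.1 this).resolve_left h0']
  exact h ⟨x, hx, y, hy, hne, hx0, by simp only [On] at hx0 ⊢; linear_combination hx0 + e1⟩

lemma fin1 (G : Set Pt) (x : Pt) : (insert x G \ G).Finite :=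
  (finite_singleton x).subset fun y hy => hy.1.resolve_right hy.2

lemma fin2 {G G' : Set Pt} (h : (G' \ G).Finite) (x : Pt) : (insert x G' \ G).Finite :=
  (h.insert x).subset fun y hy => hy.1.imp_right fun a => ⟨a, hy.2⟩

lemma line2 {G : Set Pt} (g : Good G) (hG : #G < continuum) {a b e : ℝ} (hab : a ≠ 0 ∨ b ≠ 0) :
    ∃ G', G ⊆ G' ∧ (G' \ G).Finite ∧ Good G' ∧ Two a b e G' := by
  by_cases h : Two a b e G
  · exact ⟨G, subset_rfl, by simp, g, h⟩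
  obtain ⟨x, -, hx, g1⟩ := line1 g hG hab h
  by_cases h1 : Two a b e (insert x G)
  · exact ⟨_, subset_insert _ _, fin1 G x, g1, h1⟩
  obtain ⟨y, hy0, hy, g2⟩ := line1 g1 (small hG x) hab h1
  exact ⟨_, (subset_insert _ _).trans (subset_insert _ _), fin2 (fin1 G x) y, g2,
    y, mem_insert _ _, x, Or.inr (mem_insert _ _), fun e => hy0 (e ▸ mem_insert _ _), hy, hx⟩

lemma para {G : Set Pt} (g : Good G) {K : Subfield ℝ} (hK : ∀ x ∈ G, InK K x.1) {t : ℝ}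
    (ht : ∀ a ∈ K, ∀ b ∈ K, ∀ c ∈ K, a * t ^ 2 + b * t + c = 0 → a = 0 ∧ b = 0 ∧ c = 0)
    {θ : ℝ} (kc : Real.cos θ ∈ K) (ks : Real.sin θ ∈ K) {w : V} (kw : InK K w) {s : ℝ}
    (hs : s ∈ K) (s0 : s ≠ 0) : ¬ InK K (w.1 + s * t, w.2 + s * t ^ 2) ∧
    (∀ x ∈ G, ∀ y ∈ G, cr x.1 y.1 (w.1 + s * t, w.2 + s * t ^ 2) = 0 → x = y) ∧
    ∀ y, InK K y → ph θ y ≠ ph θ (w.1 + s * t, w.2 + s * t ^ 2) := by
  obtain ⟨w1, w2⟩ := kw
  refine ⟨fun ⟨k1, _⟩ => s0 (ht 0 K.zero_mem s hs _ (K.sub_mem w1 k1) (by simp)).2.1,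
    fun x hx y hy h => ?_, fun y ⟨y1, y2⟩ h => ?_⟩
  · obtain ⟨x1, x2⟩ := hK x hx
    obtain ⟨y1, y2⟩ := hK y hy
    obtain ⟨e1, e2, -⟩ := ht (s * (y.1.1 - x.1.1)) (by apply_rules [K.mul_mem, K.sub_mem])
      (s * (x.1.2 - y.1.2)) (by apply_rules [K.mul_mem, K.sub_mem]) (cr x.1 y.1 w)
      (by apply_rules [K.mul_mem, K.sub_mem]) (by simp only [cr] at h ⊢; linear_combination h)
    exact g.fn x hx y hy (Prod.ext (by linarith [(mul_eq_zero.1 e1).resolve_left s0])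
      (by linarith [(mul_eq_zero.1 e2).resolve_left s0]))
  · obtain ⟨e1, e2, -⟩ := ht (s * Real.sin θ) (K.mul_mem hs ks) (-(s * Real.cos θ))
      (K.neg_mem (K.mul_mem hs kc)) (ph θ y - ph θ w) (by apply_rules [K.mul_mem, K.sub_mem])
      (by simp only [ph] at h ⊢; linear_combination h)
    have := Real.cos_sq_add_sin_sq θ
    rw [(mul_eq_zero.1 e1).resolve_left s0,
      (mul_eq_zero.1 (neg_eq_zero.1 e2)).resolve_left s0] at this
    simp at this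

lemma twin {G : Set Pt} (g : Good G) (hG : #G < continuum) (θ : ℝ) (i : Bool) (w : V)
    (hw : ∀ x ∈ G, ∀ y ∈ G, w ≠ x.1 + y.1) :
    ∃ G', G ⊆ G' ∧ (G' \ G).Finite ∧ Good G' ∧ w ∈ span ℚ (cls G' θ i) := by
  classical
  by_cases h : w ∈ span ℚ (cls G θ i)
  · exact ⟨G, subset_rfl, by simp, g, h⟩
  obtain ⟨K, hK, hl, t, ht⟩ := genG G hG [w.1, w.2, Real.cos θ, Real.sin θ]
  simp only [List.mem_cons, List.not_mem_nil, or_false, forall_eq_or_imp, forall_eq] at hl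
  obtain ⟨w1, w2, kc, ks⟩ := hl
  obtain ⟨p1, p2, p3⟩ := para g hK ht kc ks (w := 0) ⟨K.zero_mem, K.zero_mem⟩ K.one_mem one_ne_zero
  obtain ⟨q1, q2, q3⟩ := para g hK ht kc ks (w := w) ⟨w1, w2⟩ (K.neg_mem K.one_mem)
    (neg_ne_zero.2 one_ne_zero)
  have h2 : (2 : ℝ) ∈ K := by exact_mod_cast natCast_mem K 2
  obtain ⟨r1, -, r3⟩ := para g hK ht kc ks (w := -w) ⟨K.neg_mem w1, K.neg_mem w2⟩ h2 two_ne_zero
  set p : V := ((0 : V).1 + 1 * t, (0 : V).2 + 1 * t ^ 2) with hp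
  set q : V := (w.1 + -1 * t, w.2 + -1 * t ^ 2) with hq
  have pq : p + q = w := by ext <;> simp [hp, hq]
  have np : ∀ x ∈ G, ∀ y ∈ G,
      (p - x.1).1 * (q - y.1).2 - (p - x.1).2 * (q - y.1).1 ≠ 0 := by
    intro x hx y hy e
    obtain ⟨x1, x2⟩ := hK x hx
    obtain ⟨y1, y2⟩ := hK y hy
    obtain ⟨e1, e2, -⟩ := ht (-(w.1 - x.1.1 - y.1.1)) (by apply_rules [K.neg_mem, K.sub_mem])
      (w.2 - x.1.2 - y.1.2) (by apply_rules [K.sub_mem])
      (x.1.2 * (w.1 - y.1.1) - x.1.1 * (w.2 - y.1.2)) (by apply_rules [K.mul_mem, K.sub_mem])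
      (by simp only [hp, hq, Prod.fst_sub, Prod.snd_sub, Prod.fst_zero, Prod.snd_zero] at e
          linear_combination e)
    exact hw x hx y hy (Prod.ext (by simp; linarith) (by simp; linarith))
  obtain ⟨c, g1, hc⟩ := g.single hK p1 p2 fun δ => if δ = θ then i else
    if h : ∃ y ∈ G, ph δ y.1 = ph δ q then h.choose.2 δ else true
  have cθ : c θ = i := by rw [hc θ fun y hy => p3 _ (hK y hy), if_pos rfl]
  have pq' : ph θ p ≠ ph θ q := fun e => r3 0 ⟨K.zero_mem, K.zero_mem⟩ (by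
    simp only [ph, hp, hq, Prod.fst_zero, Prod.snd_zero, Prod.fst_neg, Prod.snd_neg] at e ⊢
    linear_combination -e)
  have g2 := g1.ins q (fun δ => if δ = θ then i else !c δ) ?_ ?_ ?_ ?_
  · refine ⟨_, (subset_insert _ _).trans (subset_insert _ _), fin2 (fin1 G _) _, g2, ?_⟩
    rw [← pq]
    exact add_mem (subset_span ⟨(p, c), ⟨Or.inr (mem_insert _ _), cθ⟩, rfl⟩)
      (subset_span ⟨(q, _), ⟨mem_insert _ _, if_pos rfl⟩, rfl⟩)
  · rintro x (rfl | hx) e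
    · exact pq' (congrArg _ e)
    · exact q1 (e ▸ hK x hx)
  · rintro x (rfl | hx) y (rfl | hy) e
    · rfl
    · exact absurd (by simp only [cr, Prod.fst_sub, Prod.snd_sub] at e ⊢; linear_combination -e)
        (np y hy y hy)
    · exact absurd e (np x hx x hx)
    · exact q2 x hx y hy e
  · rintro y (rfl | hy) δ e
    · rw [if_neg fun (z : δ = θ) => pq' (z ▸ e)]; simp
    · have z : δ ≠ θ := fun z => q3 _ (hK y hy) (z ▸ e)
      have ex : ∃ y ∈ G, ph δ y.1 = ph δ q := ⟨y, hy, e⟩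
      have : ex.choose = y := q2 _ ex.choose_spec.1 y hy
        (crz (θ := δ) (u := y.1 - ex.choose.1) (v := q - ex.choose.1)
          (by rw [ph_sub, e, ex.choose_spec.2, sub_self])
          (by rw [ph_sub, ex.choose_spec.2, sub_self]))
      rw [if_neg z, hc δ fun x hx e' => np x hx y hy (crz (θ := δ) (by rw [ph_sub, e', sub_self])
        (by rw [ph_sub, e, sub_self])), if_neg z, dif_pos ex, this]
      simp
  · intro δ hq'
    rw [cls_insert] at hq'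
    by_cases z : δ = θ
    · subst z
      simp only [cθ, if_true] at hq'
      have : w ∈ span ℚ (insert p (cls G δ i)) :=
        pq ▸ add_mem (subset_span (mem_insert _ _)) hq'
      exact p1 (spanK (s := insert w (cls G δ i)) (by
        rintro v (rfl | hv)
        exacts [⟨w1, w2⟩, clsK hK _ _ v hv]) p (mem_span_insert_exchange this h))
    · rw [if_neg z, if_neg (by simp)] at hq'
      exact q1 (spanK (clsK hK _ _) q hq')

lemma spanT {G : Set Pt} (g : Good G) (hG : #G < continuum) (θ : ℝ) (i : Bool) (v : V) :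
    ∃ G', G ⊆ G' ∧ (G' \ G).Finite ∧ Good G' ∧ v ∈ span ℚ (cls G' θ i) := by
  obtain ⟨K, hK, hl, t, ht⟩ := genG G hG [v.1, v.2, Real.cos θ, Real.sin θ]
  simp only [List.mem_cons, List.not_mem_nil, or_false, forall_eq_or_imp, forall_eq] at hl
  obtain ⟨w1, w2, kc, ks⟩ := hl
  obtain ⟨p1, p2, p3⟩ := para g hK ht kc ks (w := 0) ⟨K.zero_mem, K.zero_mem⟩ K.one_mem one_ne_zero
  obtain ⟨c, g1, hc⟩ := g.single hK p1 p2 fun _ => i
  set p : V := ((0 : V).1 + 1 * t, (0 : V).2 + 1 * t ^ 2) with hp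
  have h2 : (2 : ℝ) ∈ K := by exact_mod_cast natCast_mem K 2
  have h3 : (3 : ℝ) ∈ K := by exact_mod_cast natCast_mem K 3
  obtain ⟨G', a1, a2, a3, a4⟩ := twin g1 (small hG _) θ i (v - p) (by
    rintro x (rfl | hx) y (rfl | hy) e <;> have e1 := congrArg Prod.fst e <;>
      simp only [hp, Prod.fst_sub, Prod.fst_add, Prod.fst_zero] at e1
    · simpa using (ht 0 K.zero_mem 3 h3 _ (K.neg_mem w1) (by linear_combination -e1)).2.1
    · simpa using (ht 0 K.zero_mem 2 h2 _ (K.sub_mem (hK y hy).1 w1)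
        (by linear_combination -e1)).2.1
    · simpa using (ht 0 K.zero_mem 2 h2 _ (K.sub_mem (hK x hx).1 w1)
        (by linear_combination -e1)).2.1
    · simpa using (ht 0 K.zero_mem 1 K.one_mem _ (K.sub_mem (K.add_mem (hK x hx).1 (hK y hy).1) w1)
        (by linear_combination -e1)).2.1)
  refine ⟨G', (subset_insert _ _).trans a1, (a2.insert (p, c)).subset fun y hy => ?_, a3, ?_⟩
  · by_cases e : y = (p, c)
    · exact Or.inl e
    · exact Or.inr ⟨hy.1, fun z => z.elim e hy.2⟩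
  · rw [← sub_add_cancel v p]
    exact add_mem a4 (subset_span ⟨(p, c), ⟨a1 (mem_insert _ _),
      hc θ fun y hy => p3 _ (hK y hy)⟩, rfl⟩)

theorem exG : ∃ G, Good G ∧ (∀ a b e, (a ≠ 0 ∨ b ≠ 0) → Two a b e G) ∧
    ∀ θ i v, v ∈ span ℚ (cls G θ i) := by
  obtain ⟨G, g, h⟩ := transf (T := (ℝ × ℝ × ℝ) × ℝ × Bool × V) (by simp [mk_real]) Good
    (fun t G => ((t.1.1 ≠ 0 ∨ t.1.2.1 ≠ 0) → Two t.1.1 t.1.2.1 t.1.2.2 G) ∧
      t.2.2.2 ∈ span ℚ (cls G t.2.1 t.2.2.1))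
    (fun t G G' s h => ⟨fun z => let ⟨x, hx, y, hy, r⟩ := h.1 z; ⟨x, s hx, y, s hy, r⟩,
      span_mono (cls_mono s _ _) h.2⟩) good_dir (by
      rintro G ⟨⟨a, b, e⟩, θ, i, v⟩ g hG
      obtain ⟨G1, a1, a2, a3, a4⟩ := spanT g hG θ i v
      by_cases z : a ≠ 0 ∨ b ≠ 0
      · obtain ⟨G2, b1, b2, b3, b4⟩ := line2 (e := e) a3 ((mk_le_mk_of_subset
          (subset_sdiff_union G1 G)).trans_lt ((mk_union_le _ _).trans_lt
          (add_lt_of_lt aleph0_le_continuum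
            ((lt_aleph0_iff_set_finite.2 a2).trans aleph0_lt_continuum) hG))) z
        exact ⟨G2, a1.trans b1, (b2.union a2).subset fun y hy => by
          by_cases y ∈ G1 <;> simp_all, b3, fun _ => b4, span_mono (cls_mono b1 _ _) a4⟩
      · exact ⟨G1, a1, a2, a3, fun h => absurd h z, a4⟩)
  exact ⟨G, g, fun a b e => (h ((a, b, e), 0, true, 0)).1, fun θ i v => (h (0, θ, i, v)).2⟩

noncomputable def rotE (θ : ℝ) : V ≃ₗ[ℚ] V where
  toFun := rot θ
  invFun := rot (-θ)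
  map_add' x y := by ext <;> simp [rot] <;> ring
  map_smul' r x := by ext <;> simp [rot, Rat.smul_def] <;> ring
  left_inv x := by
    ext <;> simp [rot]
    · linear_combination x.1 * Real.cos_sq_add_sin_sq θ
    · linear_combination x.2 * Real.cos_sq_add_sin_sq θ
  right_inv x := by
    ext <;> simp [rot]
    · linear_combination x.1 * Real.cos_sq_add_sin_sq θ
    · linear_combination x.2 * Real.cos_sq_add_sin_sq θ

theorem main : ∃ M, IsMaz M ∧ ∀ θ, ∃ f g, IsHamel f ∧ IsHamel g ∧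
    rot θ '' M = graph f ∪ graph g := by
  obtain ⟨G, g, h1, h2⟩ := exG
  refine ⟨Prod.fst '' G, fun a b e hab => ?_, fun θ => ?_⟩
  · obtain ⟨x, hx, y, hy, ne, ox, oy⟩ := h1 a b e hab
    refine encard_eq_two.2 ⟨x.1, y.1, fun z => ne (g.fn x hx y hy z), subset_antisymm ?_ ?_⟩
    · rintro _ ⟨⟨z, hz, rfl⟩, oz⟩
      have : cr x.1 y.1 z.1 = 0 := by
        simp only [On, mem_ofPred_eq] at ox oy oz
        rcases hab with h | h
        · refine mul_left_cancel₀ h ?_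
          simp only [cr]; linear_combination (z.1.2 - x.1.2) * (oy - ox) - (y.1.2 - x.1.2) * (oz - ox)
        · refine mul_left_cancel₀ h ?_
          simp only [cr]; linear_combination (y.1.1 - x.1.1) * (oz - ox) - (z.1.1 - x.1.1) * (oy - ox)
      rcases g.col x hx y hy z hz this with h | rfl | rfl
      exacts [absurd h ne, Or.inl rfl, Or.inr rfl]
    · rintro _ (rfl | rfl)
      exacts [⟨⟨x, hx, rfl⟩, ox⟩, ⟨⟨y, hy, rfl⟩, oy⟩]
  have ex : ∀ i s, ∃ x ∈ G, x.2 θ = i ∧ ph θ x.1 = s := by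
    intro i s
    obtain ⟨x, hx, y, hy, ne, ox, oy⟩ := h1 (Real.cos θ) (-Real.sin θ) s (by
      by_contra z
      push Not at z
      have := Real.cos_sq_add_sin_sq θ
      rw [z.1, neg_eq_zero.1 z.2] at this; simp at this)
    have ox' : ph θ x.1 = s := by simp only [On, ph] at ox ⊢; linarith
    have oy' : ph θ y.1 = s := by simp only [On, ph] at oy ⊢; linarith
    by_cases z : x.2 θ = i
    · exact ⟨x, hx, z, ox'⟩
    · refine ⟨y, hy, by_contra fun z' => ne (g.spl x hx y hy θ (ox'.trans oy'.symm) ?_), oy'⟩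
      revert z z'; cases x.2 θ <;> cases y.2 θ <;> cases i <;> simp
  choose F f1 f2 f3 using ex
  have gr : ∀ i, graph (fun s => (rot θ (F i s).1).2) = rotE θ '' cls G θ i := by
    intro i
    ext p
    constructor
    · intro hp
      exact ⟨_, ⟨F i p.1, ⟨f1 _ _, f2 _ _⟩, rfl⟩, Prod.ext (f3 i p.1) hp.symm⟩
    · rintro ⟨_, ⟨x, hx, rfl⟩, rfl⟩
      have := g.spl x hx.1 _ (f1 i (ph θ x.1)) θ (f3 _ _).symm (hx.2.trans (f2 _ _).symm)
      exact congrArg (fun y : Pt => (rot θ y.1).2) this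
  have ham : ∀ i, IsHamel fun s => (rot θ (F i s).1).2 := fun i => by
    rw [IsHamel, gr]
    refine ⟨((g.ind θ i).map_injOn (rotE θ).toLinearMap (rotE θ).injective.injOn).id_image, ?_⟩
    refine (span_image (rotE θ).toLinearMap).trans ?_
    rw [(eq_top_iff'.2 (h2 θ i) : span ℚ (cls G θ i) = ⊤), Submodule.map_top, LinearEquiv.range]
  refine ⟨_, _, ham true, ham false, ?_⟩
  rw [gr, gr, ← image_union]
  congr 1
  ext v
  constructor
  · rintro ⟨x, hx, rfl⟩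
    cases h : x.2 θ
    exacts [Or.inr ⟨x, ⟨hx, h⟩, rfl⟩, Or.inl ⟨x, ⟨hx, h⟩, rfl⟩]
  · rintro (⟨x, hx, rfl⟩ | ⟨x, hx, rfl⟩) <;> exact ⟨x, hx.1, rfl⟩

end Pool.Agent.H6.Mazur
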