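import Mathlib

namespace Pool.Agent.H6.Mazur

/-- A Mazurkiewicz set: it meets every line `a x + b y = c` in exactly two points. -/
def IsMaz (M : Set (ℝ × ℝ)) : Prop :=
  ∀ a b c : ℝ, (a ≠ 0 ∨ b ≠ 0) → (M ∩ {p | a * p.1 + b * p.2 = c}).encard = 2

/-- The graph of a real function. -/
def graph (h : ℝ → ℝ) : Set (ℝ × ℝ) := {p | p.2 = h p.1}

/-- A Hamel function: its graph is a basis of the plane over the rationals. -/
def IsHamel (h : ℝ → ℝ) : Prop :=
  LinearIndepOn ℚ id (graph h) ∧ Submodule.span ℚ (graph h) = ⊤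

/-- The counterclockwise rotation by the angle `θ` about the origin. -/
noncomputable def rot (θ : ℝ) (p : ℝ × ℝ) : ℝ × ℝ :=
  (Real.cos θ * p.1 - Real.sin θ * p.2, Real.sin θ * p.1 + Real.cos θ * p.2)

end Pool.Agent.H6.Mazur
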