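import Mathlib
import Pool.Agent.H6.FranklWilson

namespace Pool.Agent.H6.MetricPolytope

open Finset Pool.Agent.H6.FranklWilson

lemma pt (x y z : ℝ) (hx : 0 ≤ x) (hy : 0 ≤ y) (hxz : x ≤ z) (hyz : y ≤ z) (hz : z ≤ 1)
    (h : x + y + z ≤ 2) : x ^ 2 + y ^ 2 ≤ 1 := by
  rcases le_total x y with t | t <;> nlinarith

lemma pow_le_pow_left₀_aux {a b : ℝ} (_ha : 0 ≤ a) (hb : 0 ≤ b) (h : a ^ 2 ≤ b ^ 2) : a ≤ b := by
  by_contra hh
  nlinarith

/-- a weighted Mantel theorem -/
lemma mantel {ι : Type} [DecidableEq ι] (δ : ι → ι → ℝ) (h0 : ∀ i j, 0 ≤ δ i j)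
    (h1 : ∀ i j, δ i j ≤ 1) (hd : ∀ i, δ i i = 0)
    (h3 : ∀ i j k, i ≠ j → i ≠ k → j ≠ k → δ i j + δ i k + δ j k ≤ 2) (s : Finset ι) :
    ∑ i ∈ s, ∑ j ∈ s, δ i j ^ 2 ≤ (s.card : ℝ) ^ 2 / 2 := by
  induction s using Finset.strongInduction with
  | H s ih =>
    by_cases hs : s.offDiag.Nonempty
    · obtain ⟨⟨a, b⟩, hab, hmax⟩ := exists_max_image s.offDiag (fun q => δ q.1 q.2) hs
      simp only [mem_offDiag] at hab
      obtain ⟨ha, hb, hne⟩ := hab
      set t := (s.erase a).erase b with ht
      have hbt : b ∉ t := by simp [t]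
      have hat : a ∉ insert b t := by simp [t, hne]
      have hst : s = insert a (insert b t) := by
        rw [ht, insert_erase (mem_erase.2 ⟨hne.symm, hb⟩), insert_erase ha]
      have hts : t ⊂ s := by
        rw [hst]
        exact (ssubset_insert hbt).trans (ssubset_insert hat)
      have hcard : (s.card : ℝ) = t.card + 2 := by
        rw [hst, card_insert_of_notMem hat, card_insert_of_notMem hbt]; push_cast; ring
      have iht := ih t hts
      have hk : ∀ k ∈ t, δ a k ^ 2 + δ b k ^ 2 + (δ k a ^ 2 + δ k b ^ 2) ≤ 2 := by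
        intro k hk
        have hks : k ∈ s := hts.subset hk
        have hka : k ≠ a := by rintro rfl; exact hat (mem_insert_of_mem hk)
        have hkb : k ≠ b := by rintro rfl; exact hbt hk
        have m : ∀ i j, i ∈ s → j ∈ s → i ≠ j → δ i j ≤ δ a b := fun i j hi hj hij =>
          hmax (i, j) (mem_offDiag.2 ⟨hi, hj, hij⟩)
        have e1 := pt _ _ _ (h0 a k) (h0 b k) (m a k ha hks hka.symm) (m b k hb hks hkb.symm)
          (h1 a b) (by have := h3 a b k hne hka.symm hkb.symm; linarith)
        have e2 := pt _ _ _ (h0 k a) (h0 k b) (m k a hks ha hka) (m k b hks hb hkb)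
          (h1 a b) (by have := h3 k a b hka hkb hne; linarith)
        linarith
      have hsum := sum_le_card_nsmul t _ 2 hk
      simp only [sum_add_distrib, nsmul_eq_mul] at hsum
      have q1 : δ a b ^ 2 ≤ 1 := by have := h0 a b; have := h1 a b; nlinarith
      have q2 : δ b a ^ 2 ≤ 1 := by have := h0 b a; have := h1 b a; nlinarith
      rw [hcard]
      conv_lhs => rw [hst]
      simp only [sum_insert hat, sum_insert hbt, sum_add_distrib, hd]
      nlinarith
    · have : ∑ i ∈ s, ∑ j ∈ s, δ i j ^ 2 = 0 := by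
        refine sum_eq_zero fun i hi => sum_eq_zero fun j hj => ?_
        by_cases e : i = j
        · subst e; simp [hd]
        · exact absurd ⟨(i, j), mem_offDiag.2 ⟨hi, hj, e⟩⟩ hs
      rw [this]; positivity

abbrev N : ℕ := 116
abbrev Pairs : Type := {q : Fin N × Fin N // q.1 ≠ q.2}
abbrev Cons : Type := (Fin N × Fin N × Fin N) × Bool × Bool
noncomputable def d : ℕ := Fintype.card Pairs
noncomputable def m : ℕ := Fintype.card Cons
noncomputable def e : Pairs ≃ Fin d := Fintype.equivFin _
noncomputable def ec : Cons ≃ Fin m := Fintype.equivFin _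
lemma card_m : m = 116 ^ 3 * 4 := by
  simp [m, Cons, N]
lemma one_le_d : 1 ≤ d := Fintype.card_pos_iff.2 ⟨⟨(0, 1), by decide⟩⟩
attribute [irreducible] e ec d m
abbrev E : Type := EuclideanSpace ℝ (Fin d)

def sg (b : Bool) : ℝ := if b then 1 else -1

noncomputable def M (x : E) (i j : Fin N) : ℝ := if h : i ≠ j then x (e ⟨(i, j), h⟩) else 1

noncomputable def u (i j : Fin N) : E :=
  if h : i ≠ j then EuclideanSpace.single (e ⟨(i, j), h⟩) 1 else 0

noncomputable def av (c : Cons) : E :=
  if c.1.1 ≠ c.1.2.1 ∧ c.1.1 ≠ c.1.2.2 ∧ c.1.2.1 ≠ c.1.2.2 then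
    -(sg c.2.1 • u c.1.1 c.1.2.1 + sg c.2.2 • u c.1.1 c.1.2.2 +
      (sg c.2.1 * sg c.2.2) • u c.1.2.1 c.1.2.2)
  else 0

lemma inner_u {i j : Fin N} (h : i ≠ j) (x : E) : inner ℝ (u i j) x = M x i j := by
  simp [u, M, h, EuclideanSpace.inner_single_left]

noncomputable def P : Set E := ⋂ c : Fin m, {x : E | inner ℝ (av (ec.symm c)) x ≤ (1 : ℝ)}

lemma mem_P {x : E} : x ∈ P ↔ ∀ i j k, i ≠ j → i ≠ k → j ≠ k → ∀ s t : Bool,
    0 ≤ 1 + sg s * M x i j + sg t * M x i k + sg s * sg t * M x j k := by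
  simp only [P, Set.mem_iInter, Set.mem_ofPred_eq]
  constructor
  · intro h i j k hij hik hjk s t
    have := h (ec ((i, j, k), s, t))
    simp only [Equiv.symm_apply_apply, av, hij, hik, hjk, ne_eq, not_false_eq_true, and_self,
      if_true, inner_neg_left, inner_add_left, real_inner_smul_left, inner_u hij, inner_u hik,
      inner_u hjk] at this
    linarith
  · intro h c
    obtain ⟨⟨⟨i, j, k⟩, s, t⟩, rfl⟩ := ec.surjective c
    simp only [Equiv.symm_apply_apply, av]
    split_ifs with hh
    · obtain ⟨hij, hik, hjk⟩ := hh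
      have := h i j k hij hik hjk s t
      simp only [inner_neg_left, inner_add_left, real_inner_smul_left, inner_u hij, inner_u hik,
        inner_u hjk]
      linarith
    · simp

lemma third (i j : Fin N) : ∃ k, i ≠ k ∧ j ≠ k := by
  have : ({i, j} : Finset (Fin N)).card < (univ : Finset (Fin N)).card :=
    lt_of_le_of_lt card_le_two (by simp [N])
  obtain ⟨k, -, hk⟩ := exists_mem_notMem_of_card_lt_card this
  simp only [mem_insert, mem_singleton, not_or] at hk
  exact ⟨k, Ne.symm hk.1, Ne.symm hk.2⟩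

lemma abs_M {x : E} (hx : x ∈ P) (i j : Fin N) : -1 ≤ M x i j ∧ M x i j ≤ 1 := by
  by_cases hij : i = j
  · simp [M, hij]
  · obtain ⟨k, hik, hjk⟩ := third i j
    have h := mem_P.1 hx i j k hij hik hjk
    have a := h true true
    have b := h true false
    have c := h false true
    have f := h false false
    simp only [sg, if_true, Bool.false_eq_true, if_false] at a b c f
    constructor <;> linarith

lemma dist_sq (x y : E) : dist x y ^ 2 = ∑ i, ∑ j, (M x i j - M y i j) ^ 2 := by
  rw [EuclideanSpace.dist_eq, Real.sq_sqrt (by positivity), ← e.sum_comp, ← Fintype.sum_prod_type']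
  rw [← Fintype.sum_subtype_add_sum_subtype (fun q : Fin N × Fin N => q.1 ≠ q.2)]
  have : ∑ q : {q : Fin N × Fin N // ¬ q.1 ≠ q.2},
      (M x q.1.1 q.1.2 - M y q.1.1 q.1.2) ^ 2 = 0 := by
    refine sum_eq_zero fun q _ => ?_
    have := q.2
    simp only [ne_eq, not_not] at this
    simp [M, this]
  rw [this, add_zero]
  refine sum_congr rfl fun q _ => ?_
  rw [Real.dist_eq, sq_abs]
  simp only [M, dif_pos q.2]

lemma dist_le {x y : E} (hx : x ∈ P) (hy : y ∈ P) : dist x y ^ 2 ≤ 2 * (N : ℝ) ^ 2 := by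
  have hm := mantel (fun i j => (1 - M x i j * M y i j) / 2)
    (fun i j => by have := abs_M hx i j; have := abs_M hy i j; nlinarith)
    (fun i j => by have := abs_M hx i j; have := abs_M hy i j; nlinarith)
    (fun i => by simp [M])
    (fun i j k hij hik hjk => by
      have h := mem_P.1 hx i j k hij hik hjk
      have h' := mem_P.1 hy i j k hij hik hjk
      have a := mul_nonneg (h true true) (h' true true)
      have b := mul_nonneg (h true false) (h' true false)
      have c := mul_nonneg (h false true) (h' false true)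
      have f := mul_nonneg (h false false) (h' false false)
      simp only [sg, if_true, Bool.false_eq_true, if_false] at a b c f
      nlinarith) univ
  rw [dist_sq]
  have : ∑ i, ∑ j, (M x i j - M y i j) ^ 2 ≤
      ∑ i, ∑ j, 4 * ((1 - M x i j * M y i j) / 2) ^ 2 := by
    refine sum_le_sum fun i _ => sum_le_sum fun j _ => ?_
    have h1 := abs_M hx i j
    have h2 := abs_M hy i j
    have h3 : 0 ≤ (1 - M x i j ^ 2) * (1 - M y i j ^ 2) :=
      mul_nonneg (by nlinarith) (by nlinarith)
    nlinarith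
  simp only [← mul_sum] at this
  simp only [card_univ, Fintype.card_fin] at hm
  calc _ ≤ _ := this
    _ ≤ 4 * ((N : ℝ) ^ 2 / 2) := mul_le_mul_of_nonneg_left hm (by norm_num)
    _ = _ := by ring

noncomputable def cut (A : Finset (Fin N)) : E :=
  WithLp.toLp 2 fun c => eps ℝ (e.symm c).1.1 A * eps ℝ (e.symm c).1.2 A

lemma M_cut (A : Finset (Fin N)) (i j : Fin N) : M (cut A) i j = eps ℝ i A * eps ℝ j A := by
  by_cases h : i = j
  · subst h; simp [M, eps_sq]
  · simp [M, h, cut]

lemma cut_mem (A : Finset (Fin N)) : cut A ∈ P := by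
  rw [mem_P]
  intro i j k _ _ _ s t
  simp only [M_cut, eps, sg]
  split_ifs <;> norm_num

lemma dist_cut (A B : Finset (Fin N)) (h : ip ℤ A B = 0) :
    dist (cut A) (cut B) ^ 2 = 2 * (N : ℝ) ^ 2 := by
  have h' : ip ℝ A B = 0 := by rw [← ip_cast, h]; simp
  rw [dist_sq]
  have : ∀ i j, (M (cut A) i j - M (cut B) i j) ^ 2 =
      2 - 2 * ((eps ℝ i A * eps ℝ i B) * (eps ℝ j A * eps ℝ j B)) := by
    intro i j
    simp only [M_cut, eps]
    split_ifs <;> norm_num
  simp only [this, sum_sub_distrib, ← mul_sum, ← sum_mul]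
  unfold ip at h'
  rw [h']
  simp
  ring

lemma bounded_P : Bornology.IsBounded P := by
  refine Metric.isBounded_iff.2 ⟨2 * N, fun x hx y hy => ?_⟩
  have := dist_le hx hy
  exact pow_le_pow_left₀_aux dist_nonneg (by positivity) (by nlinarith [sq_nonneg (N : ℝ)])

lemma interior_P : (interior P).Nonempty := by
  refine ⟨0, ?_⟩
  rw [P, interior_iInter_of_finite, Set.mem_iInter]
  intro c
  have : IsOpen {x : E | inner ℝ (av (ec.symm c)) x < (1 : ℝ)} :=
    isOpen_lt (by fun_prop) continuous_const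
  refine interior_maximal (t := {x : E | inner ℝ (av (ec.symm c)) x < (1 : ℝ)})
    (fun x hx => ?_) this (by simp)
  simp only [Set.mem_ofPred_eq] at hx ⊢
  exact le_of_lt hx

lemma numeric : 2 * (116 ^ 3 * 4) * ∑ j ∈ range 29, Nat.choose 116 j < 2 ^ 115 := by
  simp only [Nat.choose_eq_fast_choose]
  decide +kernel

theorem no_cover (S : Fin m → Set E) (hS : ∀ i, S i ⊆ P ∧ Metric.diam (S i) < Metric.diam P)
    (hc : P ⊆ ⋃ i, S i) : False := by
  classical
  have : Fact (Nat.Prime 29) := ⟨by norm_num⟩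
  let U : Finset (Finset (Fin N)) := (univ.erase 0).powerset
  let F : Fin m × Fin 2 → Finset (Finset (Fin N)) := fun q =>
    U.filter fun A => cut A ∈ S q.1 ∧ A.card % 2 = q.2
  have hF : ∀ q, (F q).card ≤ ∑ j ∈ range 29, Nat.choose 116 j := by
    intro q
    refine fw4 29 (by norm_num) rfl 0 _ ?_ ?_ ?_
    · intro A hA h0
      simp only [F, U, mem_filter, mem_powerset] at hA
      simpa using hA.1 h0
    · intro A hA B hB
      simp only [F, mem_filter] at hA hB
      rw [hA.2.2, hB.2.2]
    · intro A hA B hB h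
      simp only [F, mem_filter] at hA hB
      have h1 := dist_cut A B h
      have h2 := Metric.dist_le_diam_of_mem (bounded_P.subset (hS q.1).1) hA.2.1 hB.2.1
      have h3 : Metric.diam P ≤ dist (cut A) (cut B) := by
        refine Metric.diam_le_of_forall_dist_le dist_nonneg fun x hx y hy => ?_
        have := dist_le hx hy
        rw [← h1] at this
        exact pow_le_pow_left₀_aux dist_nonneg dist_nonneg this
      have := (hS q.1).2
      linarith
  have hU : U ⊆ univ.biUnion F := by
    intro A hA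
    obtain ⟨i, hi⟩ := Set.mem_iUnion.1 (hc (cut_mem A))
    refine mem_biUnion.2 ⟨(i, ⟨A.card % 2, Nat.mod_lt _ (by norm_num)⟩), mem_univ _, ?_⟩
    simp only [F, mem_filter]
    exact ⟨hA, hi, trivial⟩
  have h1 := (card_le_card hU).trans (card_biUnion_le.trans
    (sum_le_card_nsmul _ _ _ fun q _ => hF q))
  have h2 : U.card = 2 ^ 115 := by simp [U]
  have h3 : (univ : Finset (Fin m × Fin 2)).card = 2 * (116 ^ 3 * 4) := by
    rw [card_univ, Fintype.card_prod, Fintype.card_fin, Fintype.card_fin, card_m, mul_comm]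
  rw [h2, h3, smul_eq_mul] at h1
  exact absurd numeric (not_lt.2 h1)

end Pool.Agent.H6.MetricPolytope
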