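import Pool.Agent.H6.MinSubDefs

/-! Density estimates for minimal subgraphs of the integer lattice. -/

namespace Pool.Agent.H6.MinSub

open Finset Filter

variable {n : ℕ}

lemma adj_symm {x y : Fin n → ℤ} (h : adj x y) : adj y x := by
  unfold adj at *; rw [← h]; exact Finset.sum_congr rfl fun i _ => by ring

def nb (x : Fin n → ℤ) (p : Fin n × Bool) : Fin n → ℤ :=
  x + Pi.single p.1 (if p.2 then 1 else -1)

lemma adj_nb (x : Fin n → ℤ) (p : Fin n × Bool) : adj x (nb x p) := by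
  unfold adj nb
  rw [Finset.sum_eq_single p.1]
  · simp
  · intro j _ hj; simp [hj]
  · simp

lemma adj_exists {x y : Fin n → ℤ} (h : adj x y) : ∃ p, y = nb x p := by
  unfold adj at h
  obtain ⟨i, hi⟩ : ∃ i, x i ≠ y i := by
    by_contra hh
    push Not at hh
    simp [hh] at h
  rw [← Finset.add_sum_erase _ _ (Finset.mem_univ i)] at h
  have h1 : 0 < (x i - y i) ^ 2 := by have := sub_ne_zero.mpr hi; positivity
  have h2 : 0 ≤ ∑ j ∈ univ.erase i, (x j - y j) ^ 2 := Finset.sum_nonneg fun _ _ => sq_nonneg _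
  have h3 : ∑ j ∈ univ.erase i, (x j - y j) ^ 2 = 0 := by omega
  have h4 : (x i - y i) ^ 2 = 1 := by omega
  rw [Finset.sum_eq_zero_iff_of_nonneg fun _ _ => sq_nonneg _] at h3
  have h5 : ∀ j, j ≠ i → y j = x j := fun j hj => by
    have := h3 j (by simp [hj])
    rw [sq_eq_zero_iff] at this
    omega
  rcases sq_eq_one_iff.mp h4 with h6 | h6
  · refine ⟨(i, false), funext fun j => ?_⟩
    by_cases e : j = i
    · subst e; simp [nb]; omega
    · simp [nb, e, h5 j e]
  · refine ⟨(i, true), funext fun j => ?_⟩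
    by_cases e : j = i
    · subst e; simp [nb]; omega
    · simp [nb, e, h5 j e]

lemma adj_coord {x y : Fin n → ℤ} (h : adj x y) (i : Fin n) : |x i - y i| ≤ 1 := by
  obtain ⟨p, rfl⟩ := adj_exists h
  by_cases e : i = p.1
  · subst e; simp only [nb, Pi.add_apply, Pi.single_eq_same]; split_ifs <;> simp
  · simp [nb, e]

noncomputable def cube (x : Fin n → ℤ) (r : ℕ) : Finset (Fin n → ℤ) :=
  Fintype.piFinset fun i => Finset.Icc (x i - r) (x i + r)

lemma mem_cube {x y : Fin n → ℤ} {r : ℕ} : y ∈ cube x r ↔ ∀ i, |y i - x i| ≤ r := by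
  simp only [cube, Fintype.mem_piFinset, Finset.mem_Icc, abs_le]
  exact forall_congr' fun i => by omega

lemma card_cube (x : Fin n → ℤ) (r : ℕ) : (cube x r).card = (2 * r + 1) ^ n := by
  rw [cube, Fintype.card_piFinset, Finset.prod_congr rfl (g := fun _ => 2 * r + 1)]
  · simp
  · intro i _; rw [Int.card_Icc]; omega

lemma cube_mono (x : Fin n → ℤ) {r s : ℕ} (h : r ≤ s) : cube x r ⊆ cube x s := fun y hy =>
  mem_cube.mpr fun i => (mem_cube.mp hy i).trans (by exact_mod_cast h)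

def l1 (t : Fin n → ℤ) : ℕ := ∑ i, (t i).natAbs

lemma l1_step {t : Fin n → ℤ} {m : ℕ} (h : l1 t = m + 1) : ∃ t', l1 t' = m ∧ adj t' t := by
  obtain ⟨i, hi⟩ : ∃ i, t i ≠ 0 := by
    by_contra hh
    push Not at hh
    simp [l1, hh] at h
  refine ⟨nb t (i, decide (t i < 0)), ?_, adj_symm (adj_nb _ _)⟩
  unfold l1 at *
  rw [← Finset.add_sum_erase _ _ (Finset.mem_univ i)] at h ⊢
  rw [Finset.sum_congr rfl (g := fun j => (t j).natAbs) fun j hj => by
    simp [nb, (Finset.mem_erase.mp hj).1]]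
  simp only [nb, Pi.add_apply, Pi.single_eq_same, decide_eq_true_eq]
  split_ifs <;> omega

lemma le_l1 (t : Fin n → ℤ) (i : Fin n) : |t i| ≤ l1 t := by
  have : (t i).natAbs ≤ l1 t :=
    Finset.single_le_sum (f := fun i => (t i).natAbs) (fun _ _ => Nat.zero_le _) (mem_univ i)
  rw [← Int.natCast_natAbs]; exact_mod_cast this

lemma l1_le {t : Fin n → ℤ} {L : ℕ} (h : t ∈ cube 0 L) : l1 t ≤ n * L := by
  have : ∀ i, (t i).natAbs ≤ L := fun i => by
    have := mem_cube.mp h i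
    simp only [Pi.zero_apply, sub_zero] at this
    rw [← Int.natCast_natAbs] at this; exact_mod_cast this
  simpa [l1] using Finset.sum_le_card_nsmul univ _ L fun i _ => this i

open Classical in
lemma transl (N : Set (Fin n → ℤ)) (A : Finset (Fin n → ℤ)) (hA : ∀ a ∈ A, a ∈ N)
    {x : Fin n → ℤ} {r R : ℕ} (hx : A ⊆ cube x r) (m : ℕ) : ∀ t, l1 t = m → r + m ≤ R →
      (A.filter fun a => a + t ∉ N).card ≤ m * ((cube x R).filter (· ∈ vB N)).card := by
  induction m with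
  | zero =>
    intro t ht _
    have : t = 0 := funext fun i => by have := le_l1 t i; rw [ht] at this; simpa using this
    subst this
    rw [Finset.filter_false_of_mem fun a ha => by simpa using hA a ha]
    simp
  | succ m ih =>
    intro t ht hR
    obtain ⟨t', h1, h2⟩ := l1_step ht
    have sub : (A.filter fun a => a + t ∉ N) ⊆ (A.filter fun a => a + t' ∉ N) ∪
        ((cube x R).filter (· ∈ vB N)).image (· - t') := by
      intro a ha
      rw [Finset.mem_filter] at ha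
      by_cases e : a + t' ∈ N
      · refine Finset.mem_union_right _ (Finset.mem_image.mpr ⟨a + t', ?_, by simp⟩)
        refine Finset.mem_filter.mpr ⟨mem_cube.mpr fun i => ?_, e, a + t, ha.2, ?_⟩
        · have a1 := mem_cube.mp (hx ha.1) i
          have a2 := le_l1 t' i
          rw [h1] at a2
          simp only [Pi.add_apply, abs_le] at *
          omega
        · simpa [adj] using h2
      · exact Finset.mem_union_left _ (Finset.mem_filter.mpr ⟨ha.1, e⟩)
    have := (Finset.card_le_card sub).trans ((Finset.card_union_le _ _).trans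
      (Nat.add_le_add (ih t' h1 (by omega)) Finset.card_image_le))
    rw [Nat.succ_mul]; exact this

open Classical in
lemma averag (N : Set (Fin n → ℤ)) (A : Finset (Fin n → ℤ)) (hA : ∀ a ∈ A, a ∈ N)
    {x : Fin n → ℤ} {r L q : ℕ} (hx : A ⊆ cube x r)
    (hq : ∀ a ∈ A, q ≤ ((cube 0 L).filter fun t => a + t ∉ N).card) :
    A.card * q ≤ (2 * L + 1) ^ n * (n * L * ((cube x (r + n * L)).filter (· ∈ vB N)).card) := by
  have h1 : A.card * q ≤ ∑ a ∈ A, ((cube 0 L).filter fun t => a + t ∉ N).card := by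
    simpa using Finset.card_nsmul_le_sum A _ q hq
  refine (h1.trans_eq (Finset.sum_card_bipartiteAbove_eq_sum_card_bipartiteBelow
    (fun a t => a + t ∉ N))).trans ?_
  rw [← card_cube (0 : Fin n → ℤ) L]
  refine Finset.sum_le_card_nsmul _ _ _ fun t ht => ?_
  have := l1_le ht
  exact (transl N A hA hx _ t rfl (by omega)).trans (Nat.mul_le_mul_right _ this)

lemma vB_sub (A : Set (Fin n → ℤ)) : vB A ⊆ A := fun _ h => h.1

/-- isoperimetric inequality -/
lemma isop (A : Finset (Fin n → ℤ)) {x : Fin n → ℤ} {r L : ℕ} (hx : A ⊆ cube x r)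
    (hL : 2 * A.card ≤ (2 * L + 1) ^ n) :
    A.card ≤ 2 * (n * L * (vB (A : Set (Fin n → ℤ))).ncard) := by
  classical
  have h := averag (A : Set (Fin n → ℤ)) A (fun a ha => ha) (L := L)
    (q := (2 * L + 1) ^ n - A.card) hx (fun a _ => by
      have h1 := Finset.card_filter_add_card_filter_not (s := cube 0 L)
        (fun t => a + t ∈ (A : Set (Fin n → ℤ)))
      have h2 : ((cube 0 L).filter fun t => a + t ∈ (A : Set (Fin n → ℤ))).card ≤ A.card :=
        Finset.card_le_card_of_injOn (a + ·) (fun t ht => (Finset.mem_filter.mp ht).2)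
          (fun _ _ _ _ h => add_left_cancel h)
      rw [card_cube] at h1
      have h3 : (2 * L + 1) ^ n - A.card ≤
          ((cube 0 L).filter fun t => ¬ a + t ∈ (A : Set (Fin n → ℤ))).card := by omega
      convert h3)
  have h3 : ((cube x (r + n * L)).filter (· ∈ vB (A : Set (Fin n → ℤ)))).card ≤
      (vB (A : Set (Fin n → ℤ))).ncard := by
    rw [← Set.ncard_coe_finset]
    exact Set.ncard_le_ncard (fun y hy => (Finset.mem_filter.mp hy).2)
      (A.finite_toSet.subset (vB_sub _))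
  obtain ⟨T, hT⟩ : ∃ T, T = (2 * L + 1) ^ n := ⟨_, rfl⟩
  have T0 : 0 < T := by rw [hT]; positivity
  rw [← hT] at h hL
  have h4 := h.trans (Nat.mul_le_mul_left _ (Nat.mul_le_mul_left _ (by convert h3)))
  apply Nat.le_of_mul_le_mul_left _ T0
  obtain ⟨q, rfl⟩ : ∃ q, T = q + A.card := ⟨T - A.card, by omega⟩
  rw [Nat.add_sub_cancel] at h4
  have : A.card ≤ q := by omega
  nlinarith

lemma edges_le (T : Set (Fin n → ℤ)) (hT : T.Finite) (S : Set (Sym2 (Fin n → ℤ)))
    (h : ∀ e ∈ S, ∃ x y, e = s(x, y) ∧ adj x y ∧ x ∈ T) : S.Finite ∧ S.ncard ≤ 2 * n * T.ncard := by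
  have hs : S ⊆ (fun p : (Fin n → ℤ) × (Fin n × Bool) => s(p.1, nb p.1 p.2)) '' (T ×ˢ Set.univ) := by
    intro e he
    obtain ⟨x, y, rfl, h1, h2⟩ := h e he
    obtain ⟨p, rfl⟩ := adj_exists h1
    exact ⟨(x, p), ⟨h2, trivial⟩, rfl⟩
  have hf := hT.prod (Set.finite_univ (α := Fin n × Bool))
  refine ⟨(hf.image _).subset hs, (Set.ncard_le_ncard hs (hf.image _)).trans
    ((Set.ncard_image_le hf).trans (le_of_eq ?_))⟩
  rw [Set.ncard_prod, Set.ncard_univ]
  simp; ring

lemma tau_cube {x z : Fin n → ℤ} {r : ℕ} (h : z ∈ tau (cube x r : Set (Fin n → ℤ))) :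
    z ∈ cube x (r + 1) := by
  obtain ⟨-, w, hw, ha⟩ := h
  refine mem_cube.mpr fun i => ?_
  have a1 := mem_cube.mp hw i
  have a2 := adj_coord ha i
  simp only [abs_le] at *
  push_cast; omega

/-- `N` (which is `M` or its complement) has few cut edges in `U` -/
lemma cut_le {M N U : Set (Fin n → ℤ)} (hM : IsMinimal M) (hN : N = M ∨ N = Mᶜ) (hU : U.Finite)
    (hτ : (tau U).Finite) : (eB (M ∩ clos U) ∩ EE U).ncard ≤ 2 * n * (N ∩ tau U).ncard := by
  rcases hN with rfl | rfl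
  · refine ((hM.2.2 U hU).2 (N ∩ tau U) (fun z hz => Or.inr hz.2) ?_).trans
      (edges_le _ (hτ.inter_of_right _) _ ?_).2
    · ext z; simp only [Set.mem_inter_iff, clos, Set.mem_union]; tauto
    · rintro e ⟨⟨x, y, rfl, h1, h2, -⟩, -⟩
      exact ⟨x, y, rfl, h1, h2⟩
  · refine ((hM.2.2 U hU).2 (U ∪ M ∩ tau U) (fun z hz => hz.imp_right fun h => h.2) ?_).trans
      (edges_le _ (hτ.inter_of_right _) _ ?_).2
    · ext z
      simp only [Set.mem_inter_iff, clos, Set.mem_union]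
      have : z ∈ tau U → z ∉ U := fun h => h.1
      tauto
    · rintro e ⟨⟨x, y, rfl, h1, h2, h3⟩, x', y', he, -, h5, h6⟩
      simp only [Set.mem_union, Set.mem_inter_iff, not_or, not_and] at h3
      have : y ∈ clos U := by
        rcases Sym2.eq_iff.mp he with ⟨-, rfl⟩ | ⟨-, rfl⟩
        · exact h6
        · exact Or.inl h5
      have hy : y ∈ tau U := this.resolve_left h3.1
      exact ⟨y, x, Sym2.eq_swap, adj_symm h1, fun h => h3.2 h hy, hy⟩

lemma vB_le {M N U : Set (Fin n → ℤ)} (hM : IsMinimal M) (hN : N = M ∨ N = Mᶜ) (hU : U.Finite)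
    (hτ : (tau U).Finite) : (vB (N ∩ U)).ncard ≤ 4 * n * (N ∩ tau U).ncard := by
  have h1 := cut_le hM hN hU hτ
  obtain ⟨f2, h2⟩ := edges_le _ (hτ.inter_of_right N)
    {e | ∃ x y, e = s(x, y) ∧ adj x y ∧ x ∈ N ∩ tau U} (fun e he => he)
  have f1 : (eB (M ∩ clos U) ∩ EE U).Finite := (edges_le U hU _ (by
    rintro e ⟨-, x, y, rfl, a, b, -⟩; exact ⟨x, y, rfl, a, b⟩)).1
  have : ∀ x, ∃ y, x ∈ vB (N ∩ U) → y ∉ N ∩ U ∧ adj x y := fun x => by
    by_cases h : x ∈ vB (N ∩ U)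
    · obtain ⟨y, hy⟩ := h.2; exact ⟨y, fun _ => hy⟩
    · exact ⟨x, fun h' => absurd h' h⟩
  choose g hg using this
  have h3 := Set.ncard_le_ncard_of_injOn (s := vB (N ∩ U)) (fun x => s(x, g x)) (t := _ ∪ _)
    (ht := f1.union f2) (fun x hx => by
      obtain ⟨a1, a2⟩ := hg x hx
      have c : g x ∈ clos U := by
        by_cases e : g x ∈ U
        · exact Or.inl e
        · exact Or.inr ⟨e, x, hx.1.2, adj_symm a2⟩
      by_cases e : g x ∈ N
      · exact Or.inr ⟨g x, x, Sym2.eq_swap, adj_symm a2, e,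
          c.resolve_left fun h => a1 ⟨e, h⟩⟩
      · refine Or.inl ⟨?_, x, g x, rfl, a2, hx.1.2, c⟩
        rcases hN with rfl | rfl
        · exact ⟨x, g x, rfl, a2, ⟨hx.1.1, Or.inl hx.1.2⟩, fun h => e h.1⟩
        · exact ⟨g x, x, Sym2.eq_swap, adj_symm a2, ⟨not_not.mp e, c⟩, fun h => hx.1.1 h.1⟩)
    (fun x hx y hy h => by
      rcases Sym2.eq_iff.mp h with ⟨h, -⟩ | ⟨h, -⟩
      · exact h
      · exact absurd (h ▸ hx.1) (hg y hy).1)
  have h4 := Set.ncard_union_le (eB (M ∩ clos U) ∩ EE U)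
    {e | ∃ x y, e = s(x, y) ∧ adj x y ∧ x ∈ N ∩ tau U}
  nlinarith

/-- volume of `N` in a cube -/
noncomputable def vol (N : Set (Fin n → ℤ)) (x : Fin n → ℤ) (r : ℕ) : ℕ :=
  (N ∩ (cube x r : Set (Fin n → ℤ))).ncard

lemma vol_mono (N : Set (Fin n → ℤ)) (x : Fin n → ℤ) {r s : ℕ} (h : r ≤ s) :
    vol N x r ≤ vol N x s :=
  Set.ncard_le_ncard (Set.inter_subset_inter_right _ (cube_mono x h))
    ((Finset.finite_toSet _).inter_of_right _)

lemma vol_step {M N : Set (Fin n → ℤ)} (hM : IsMinimal M) (hN : N = M ∨ N = Mᶜ) (x : Fin n → ℤ)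
    (r L : ℕ) (hL : 2 * vol N x r ≤ (2 * L + 1) ^ n) :
    vol N x r + 8 * n ^ 2 * L * vol N x r ≤ 8 * n ^ 2 * L * vol N x (r + 1) := by
  classical
  have hτ : (tau (cube x r : Set (Fin n → ℤ))).Finite :=
    (cube x (r + 1)).finite_toSet.subset fun z hz => tau_cube hz
  have h1 := vB_le hM hN (cube x r).finite_toSet hτ
  have e : (((cube x r).filter (· ∈ N) : Finset _) : Set (Fin n → ℤ)) = N ∩ cube x r := by
    ext z; simp [and_comm]
  have e' : ((cube x r).filter (· ∈ N)).card = vol N x r := by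
    rw [← Set.ncard_coe_finset, e, vol]
  have h2 := isop ((cube x r).filter (· ∈ N)) (Finset.filter_subset _ _) (L := L) (e' ▸ hL)
  rw [e, e'] at h2
  have h3 : vol N x r + (N ∩ tau (cube x r : Set (Fin n → ℤ))).ncard ≤ vol N x (r + 1) := by
    unfold vol
    rw [← Set.ncard_union_eq (Set.disjoint_left.mpr fun z a b => b.2.1 a.2)
      ((Finset.finite_toSet _).inter_of_right _) (hτ.inter_of_right _)]
    refine Set.ncard_le_ncard ?_ ((Finset.finite_toSet _).inter_of_right _)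
    rintro z (h | h)
    · exact ⟨h.1, cube_mono x (Nat.le_succ r) h.2⟩
    · exact ⟨h.1, tau_cube h.2⟩
  have h4 := Nat.mul_le_mul_left (8 * n ^ 2 * L) h3
  have h5 := Nat.mul_le_mul_left (2 * n * L) h1
  nlinarith

lemma pow_step (k m : ℕ) (hk : 1 ≤ k) : (k + 1) ^ (m + 1) + k ^ m ≤ k ^ (m + 1) + 2 ^ (m + 1) * k ^ m := by
  induction m with
  | zero => simp
  | succ m ih =>
    have h1 := Nat.mul_le_mul_left (k + 1) ih
    have h2 : k ^ m ≤ k * k ^ m := Nat.le_mul_of_pos_left _ hk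
    have h3 : 1 ≤ 2 ^ m := Nat.one_le_two_pow
    obtain ⟨D, hD⟩ : ∃ D, 2 ^ m = D + 1 := ⟨2 ^ m - 1, by omega⟩
    simp only [pow_succ, hD] at *
    nlinarith [Nat.mul_le_mul_left (2 * D + 1) h2]

lemma vol_ge {m : ℕ} {M N : Set (Fin (m + 1) → ℤ)} (hM : IsMinimal M) (hN : N = M ∨ N = Mᶜ)
    {x : Fin (m + 1) → ℤ} (hx : x ∈ N) (k : ℕ) :
    (k + 1) ^ (m + 1) ≤ vol N x (16 * (m + 1) ^ 2 * 2 ^ (m + 1) * k) := by
  induction k with
  | zero =>
    simp only [zero_add, one_pow, mul_zero]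
    exact (Set.ncard_pos ((Finset.finite_toSet _).inter_of_right _)).mpr
      ⟨x, hx, mem_cube.mpr fun i => by simp⟩
  | succ k ih =>
    by_contra hh
    push Not at hh
    obtain ⟨C, hC⟩ : ∃ C, C = 16 * (m + 1) ^ 2 * 2 ^ (m + 1) := ⟨_, rfl⟩
    rw [← hC] at ih hh
    obtain ⟨E, hE⟩ : ∃ E, E = 8 * (m + 1) ^ 2 * (k + 2) := ⟨_, rfl⟩
    have key : ∀ j, j ≤ C → j * (k + 1) ^ (m + 1) + E * vol N x (C * k) ≤ E * vol N x (C * k + j) := by
      intro j
      induction j with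
      | zero => simp
      | succ j ihj =>
        intro hj
        have a1 := ihj (by omega)
        have a2 := vol_mono N x (show C * k + j ≤ C * (k + 1) by rw [mul_add]; omega)
        have a3 := vol_mono N x (show C * k ≤ C * k + j by omega)
        have a4 := vol_step hM hN x (C * k + j) (k + 2) (by
          have b1 : (2 * (k + 2)) ^ (m + 1) ≤ (2 * (k + 2) + 1) ^ (m + 1) :=
            Nat.pow_le_pow_left (by omega) _
          have b2 : 2 ≤ 2 ^ (m + 1) := by rw [pow_succ]; have := Nat.one_le_two_pow (n := m); omega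
          rw [mul_pow] at b1
          have b3 := Nat.mul_le_mul_right ((k + 2) ^ (m + 1)) b2
          have : (k + 1 + 1) ^ (m + 1) = (k + 2) ^ (m + 1) := rfl
          omega)
        rw [← hE] at a4
        rw [← add_assoc, Nat.succ_mul]
        omega
    have a1 := key C le_rfl
    have a2 := pow_step (k + 1) m (by omega)
    rw [show C * k + C = C * (k + 1) by ring] at a1
    have a3 := Nat.mul_le_mul_left E ih
    have E0 : 0 < E := by rw [hE]; positivity
    have a4 := Nat.mul_lt_mul_of_pos_left hh E0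
    have a5 := Nat.mul_le_mul_left E a2
    have a6 : E * (2 ^ (m + 1) * (k + 1) ^ m) ≤ C * (k + 1) ^ (m + 1) := by
      rw [hE, hC, pow_succ (k + 1) m]
      have : 0 ≤ (m + 1) ^ 2 * 2 ^ (m + 1) * (k + 1) ^ m * k := Nat.zero_le _
      nlinarith
    rw [mul_add, mul_add] at a5
    omega

lemma box_eq (x : Fin n → ℤ) {r : ℝ} (hr : 0 ≤ r) : box x r = cube x ⌊r⌋₊ := by
  ext y
  simp only [box, Set.mem_ofPred_eq, Finset.mem_coe, mem_cube]
  refine forall_congr' fun i => ?_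
  rw [← Int.cast_sub, ← Int.cast_abs, ← Int.le_floor, Int.natCast_floor_eq_floor hr]

lemma exists_bd {M : Set (Fin n → ℤ)} (hM : IsMinimal M) : ∃ y ∈ M, ∃ z, z ∉ M := by
  obtain ⟨y, hy⟩ := hM.1
  obtain ⟨z, hz⟩ := (Set.ne_univ_iff_exists_notMem M).mp hM.2.1
  exact ⟨y, hy, z, hz⟩

lemma near (x y : Fin n → ℤ) (r : ℕ) : cube y r ⊆ cube x (r + l1 (y - x)) := fun w hw =>
  mem_cube.mpr fun i => by
    have a1 := mem_cube.mp hw i
    have a2 := le_l1 (y - x) i
    simp only [Pi.sub_apply, abs_le] at *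
    push_cast; omega

open Classical in
lemma bd_ge {M : Set (Fin n → ℤ)} (x : Fin n → ℤ) (r : ℕ) : vol M x r * vol Mᶜ x r ≤
    (4 * r + 1) ^ n * (n * (2 * r) * (vB M ∩ (cube x (r + n * (2 * r)) : Set _)).ncard) := by
  have cf : ∀ (N : Set (Fin n → ℤ)) (s : ℕ), ((cube x s).filter (· ∈ N)).card =
      (N ∩ (cube x s : Set _)).ncard := fun N s => by
    rw [← Set.ncard_coe_finset]; congr 1; ext z; simp [and_comm]
  have := averag M ((cube x r).filter (· ∈ M)) (fun a ha => (Finset.mem_filter.mp ha).2)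
    (Finset.filter_subset _ _) (L := 2 * r) (q := vol Mᶜ x r) (fun a ha => by
      rw [vol, ← cf]
      refine Finset.card_le_card_of_injOn (· - a) (fun w hw => ?_)
        (fun _ _ _ _ h => sub_left_injective h)
      simp only [Finset.mem_coe, Finset.mem_filter] at hw ⊢
      refine ⟨mem_cube.mpr fun i => ?_, by simpa using hw.2⟩
      have a1 := mem_cube.mp hw.1 i
      have a2 := mem_cube.mp (Finset.mem_filter.mp ha).1 i
      simp only [Pi.sub_apply, Pi.zero_apply, abs_le] at *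
      push_cast; omega)
  rw [cf, cf, show 2 * (2 * r) + 1 = 4 * r + 1 by ring] at this
  exact this

lemma vol_real {m : ℕ} {M N : Set (Fin (m + 1) → ℤ)} (hM : IsMinimal M) (hN : N = M ∨ N = Mᶜ)
    {x : Fin (m + 1) → ℤ} (hx : x ∈ N) (r : ℕ) :
    (((r : ℝ) + 1) / (16 * (m + 1) ^ 2 * 2 ^ (m + 1) : ℕ)) ^ (m + 1) ≤ vol N x r := by
  have h := vol_ge hM hN hx (r / (16 * (m + 1) ^ 2 * 2 ^ (m + 1)))
  obtain ⟨C, hC⟩ : ∃ C, C = 16 * (m + 1) ^ 2 * 2 ^ (m + 1) := ⟨_, rfl⟩
  have C0 : 0 < C := by rw [hC]; positivity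
  rw [← hC] at h ⊢
  have h2 := h.trans (vol_mono N x (Nat.mul_div_le r C))
  refine le_trans (pow_le_pow_left₀ (b := ((r / C + 1 : ℕ) : ℝ)) (by positivity) ?_ _)
    (by exact_mod_cast h2)
  rw [div_le_iff₀ (by exact_mod_cast C0)]
  have := Nat.lt_mul_div_succ r C0
  rw [mul_comm] at this
  exact_mod_cast this

theorem main (m : ℕ) : ∃ c2 c4 : ℝ, 0 < c2 ∧ 0 < c4 ∧ ∀ M : Set (Fin (m + 1) → ℤ), IsMinimal M →
    ∀ x ∈ M, ∀ᶠ r : ℝ in atTop, c2 * r ^ (m + 1) ≤ (M ∩ box x r).ncard ∧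
      c4 * r ^ m ≤ (vB M ∩ box x r).ncard := by
  obtain ⟨C, hC⟩ : ∃ C : ℝ, C = (16 * (m + 1) ^ 2 * 2 ^ (m + 1) : ℕ) := ⟨_, rfl⟩
  have C0 : 0 < C := by rw [hC]; positivity
  obtain ⟨K, hK⟩ : ∃ K : ℕ, K = 2 * m + 3 := ⟨_, rfl⟩
  have K0 : (0 : ℝ) < K := by rw [hK]; positivity
  refine ⟨(1 / C) ^ (m + 1), 1 / ((2 * C) ^ (m + 1) * (4 * C) ^ (m + 1) * (2 * (m + 1)) * K ^ m),
    by positivity, by positivity, fun M hM x hx => ?_⟩
  obtain ⟨z, hz⟩ := (Set.ne_univ_iff_exists_notMem M).mp hM.2.1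
  filter_upwards [eventually_ge_atTop ((K * (2 * l1 (z - x) + 1) : ℕ) : ℝ)] with r hr
  have r0 : 0 ≤ r := le_trans (Nat.cast_nonneg _) hr
  have hfl := Nat.lt_floor_add_one r
  rw [box_eq x r0]
  constructor
  · refine le_trans ?_ (vol_real hM (Or.inl rfl) hx ⌊r⌋₊)
    rw [← hC, ← mul_pow]
    refine pow_le_pow_left₀ (by positivity) ?_ _
    rw [one_div, inv_mul_eq_div]
    exact div_le_div_of_nonneg_right hfl.le C0.le
  · have hr' := Nat.le_floor hr
    obtain ⟨s, hs⟩ : ∃ s, s = ⌊r⌋₊ / K := ⟨_, rfl⟩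
    have K0' : 0 < K := by omega
    have s1 : 2 * l1 (z - x) + 1 ≤ s := by
      rw [hs, Nat.le_div_iff_mul_le K0', mul_comm]; exact hr'
    have s2 : K * s ≤ ⌊r⌋₊ := hs ▸ Nat.mul_div_le _ _
    have s3 : ⌊r⌋₊ + 1 ≤ K * (s + 1) := hs ▸ Nat.lt_mul_div_succ _ K0'
    have s4 : r ≤ K * ((s : ℝ) + 1) := hfl.le.trans (by exact_mod_cast s3)
    have v1 := vol_real hM (Or.inl rfl) hx s
    have v2 := vol_real hM (Or.inr rfl) (x := z) hz (s - l1 (z - x))
    have v3 : vol Mᶜ z (s - l1 (z - x)) ≤ vol Mᶜ x s :=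
      Set.ncard_le_ncard (Set.inter_subset_inter_right _ ((near x z _).trans
        (cube_mono x (by omega)))) ((Finset.finite_toSet _).inter_of_right _)
    have v4 : ((s : ℝ) + 1) / (2 * C) ≤ (((s - l1 (z - x) : ℕ) : ℝ) + 1) / C := by
      have : s + 1 ≤ 2 * (s - l1 (z - x) + 1) := by omega
      have : (s : ℝ) + 1 ≤ 2 * (((s - l1 (z - x) : ℕ) : ℝ) + 1) := by exact_mod_cast this
      rw [div_le_div_iff₀ (by positivity) C0]; nlinarith
    rw [← hC] at v1 v2
    have v5 : (((s : ℝ) + 1) / (2 * C)) ^ (m + 1) ≤ vol Mᶜ x s :=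
      ((pow_le_pow_left₀ (by positivity) v4 _).trans v2).trans (by exact_mod_cast v3)
    have b1 := bd_ge (M := M) x s
    have b2 : (vB M ∩ (cube x (s + (m + 1) * (2 * s)) : Set _)).ncard ≤
        (vB M ∩ (cube x ⌊r⌋₊ : Set _)).ncard :=
      Set.ncard_le_ncard (Set.inter_subset_inter_right _ (cube_mono x (by rw [hK] at s2; nlinarith)))
        ((Finset.finite_toSet _).inter_of_right _)
    obtain ⟨D, hD⟩ : ∃ D, D = (vB M ∩ (cube x ⌊r⌋₊ : Set _)).ncard := ⟨_, rfl⟩
    rw [← hD] at b2 ⊢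
    have b3 : vol M x s * vol Mᶜ x s ≤ (4 * (s + 1)) ^ (m + 1) * ((m + 1) * (2 * (s + 1)) * D) :=
      b1.trans (Nat.mul_le_mul (Nat.pow_le_pow_left (by omega) _)
        (Nat.mul_le_mul (Nat.mul_le_mul_left _ (by omega)) b2))
    have b4 : (vol M x s : ℝ) * vol Mᶜ x s ≤
        (4 * (s + 1)) ^ (m + 1) * ((m + 1) * (2 * (s + 1)) * D) := by exact_mod_cast b3
    have b5 := (mul_le_mul v1 v5 (by positivity) (by positivity)).trans b4
    obtain ⟨S, hS⟩ : ∃ S : ℝ, S = s + 1 := ⟨_, rfl⟩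
    have S0 : 0 < S := by rw [hS]; positivity
    rw [← hS] at b5 s4
    have b6 : S ^ m ≤ (2 * C) ^ (m + 1) * (4 * C) ^ (m + 1) * (2 * (m + 1)) * D := by
      rw [div_pow, div_pow, div_mul_div_comm, div_le_iff₀ (by positivity)] at b5
      refine le_of_mul_le_mul_left (a := S ^ (m + 1) * S) ?_ (by positivity)
      refine le_of_eq_of_le (by ring) (b5.trans_eq ?_)
      simp only [mul_pow]; ring
    have b7 : r ^ m ≤ K ^ m * S ^ m := by rw [← mul_pow]; exact pow_le_pow_left₀ r0 s4 _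
    rw [one_div, inv_mul_le_iff₀ (by positivity)]
    refine b7.trans ((mul_le_mul_of_nonneg_left b6 (by positivity)).trans_eq (by ring))

end Pool.Agent.H6.MinSub
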