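import Mathlib

/-! Minimal subgraphs of the integer lattice. -/

namespace Pool.Agent.H6.MinSub

variable {n : ℕ}

/-- adjacency in `ℤⁿ`: Euclidean distance one -/
def adj (x y : Fin n → ℤ) : Prop := ∑ i, (x i - y i) ^ 2 = 1

/-- vertex boundary `δΩ` -/
def vB (Ω : Set (Fin n → ℤ)) : Set (Fin n → ℤ) := {x | x ∈ Ω ∧ ∃ y, y ∉ Ω ∧ adj x y}

/-- exterior vertex boundary `τΩ` -/
def tau (Ω : Set (Fin n → ℤ)) : Set (Fin n → ℤ) := {z | z ∉ Ω ∧ ∃ w ∈ Ω, adj z w}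

/-- `Ω ∪ τΩ` -/
def clos (Ω : Set (Fin n → ℤ)) : Set (Fin n → ℤ) := Ω ∪ tau Ω

/-- edge boundary `∂Ω` -/
def eB (Ω : Set (Fin n → ℤ)) : Set (Sym2 (Fin n → ℤ)) :=
  {e | ∃ x y, e = s(x, y) ∧ adj x y ∧ x ∈ Ω ∧ y ∉ Ω}

/-- the edge set `E_Ω` -/
def EE (Ω : Set (Fin n → ℤ)) : Set (Sym2 (Fin n → ℤ)) :=
  {e | ∃ x y, e = s(x, y) ∧ adj x y ∧ x ∈ Ω ∧ y ∈ clos Ω}

/-- `K` has least perimeter in `U` -/
def LeastPer (U K : Set (Fin n → ℤ)) : Prop :=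
  K ⊆ clos U ∧ ∀ K', K' ⊆ clos U → K' ∩ tau U = K ∩ tau U →
    (eB K ∩ EE U).ncard ≤ (eB K' ∩ EE U).ncard

/-- minimal subgraph -/
def IsMinimal (M : Set (Fin n → ℤ)) : Prop :=
  M.Nonempty ∧ M ≠ Set.univ ∧ ∀ U : Set (Fin n → ℤ), U.Finite → LeastPer U (M ∩ clos U)

/-- lattice points of the cube `B̂_r(x)` -/
def box (x : Fin n → ℤ) (r : ℝ) : Set (Fin n → ℤ) := {y | ∀ i, |((y i : ℝ) - x i)| ≤ r}

end Pool.Agent.H6.MinSub
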