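import Mathlib

/-! Hamiltonian paths of vertex sets for a relation, and paths in triangular grids. -/

namespace Pool.Agent.H6.Ms

/-- `HP r S a b`: a path from `a` to `b` visiting exactly the points of `S`, once each. -/
inductive HP {α : Type} (r : α → α → Prop) : Set α → α → α → Prop
  | one (a : α) : HP r {a} a a
  | cons {S : Set α} {a b c : α} : a ∉ S → r a b → HP r S b c → HP r (insert a S) a c

variable {α β : Type} {r : α → α → Prop}

lemma HP.cast {S T : Set α} {a b : α} (h : HP r S a b) (e : ∀ x, x ∈ T ↔ x ∈ S) : HP r T a b :=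
  (Set.ext e : T = S) ▸ h

lemma HP.left {S : Set α} {a b : α} (h : HP r S a b) : a ∈ S := by
  cases h <;> simp

lemma HP.glue {S T : Set α} {a b c d : α} (h : HP r S a b) (e : r b c) (h' : HP r T c d)
    (hd : ∀ x ∈ S, x ∉ T) : HP r (S ∪ T) a d := by
  induction h with
  | one a => exact HP.cons (hd a rfl) e h'
  | cons h1 h2 _ ih =>
    rw [Set.insert_union]
    exact HP.cons (fun g => g.elim h1 (hd _ (Or.inl rfl))) h2 (ih e fun x hx => hd x (Or.inr hx))

lemma HP.snoc {S : Set α} {a b c : α} (h : HP r S a b) (e : r b c) (hc : c ∉ S) :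
    HP r (insert c S) a c :=
  (h.glue e (HP.one c) fun x hx g => hc (g ▸ hx)).cast fun x => by simp

lemma HP.rev (hr : ∀ a b, r a b → r b a) {S : Set α} {a b : α} (h : HP r S a b) : HP r S b a := by
  induction h with
  | one a => exact HP.one a
  | cons h1 h2 _ ih => exact ih.snoc (hr _ _ h2) h1

lemma HP.map {r' : β → β → Prop} (f : α → β) (hf : Function.Injective f)
    (hr : ∀ a b, r a b → r' (f a) (f b)) {S : Set α} {a b : α} (h : HP r S a b) :
    HP r' (f '' S) (f a) (f b) := by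
  induction h with
  | one a => rw [Set.image_singleton]; exact HP.one _
  | cons h1 h2 _ ih =>
    rw [Set.image_insert_eq]
    exact HP.cons (fun ⟨x, hx, e⟩ => h1 (hf e ▸ hx)) (hr _ _ h2) ih

lemma HP.prod {r' : β → β → Prop} (Row : α → Set β) (p : Bool → α → β) (π : β → α) (S0 : Set α)
    (h1 : ∀ d a, HP r' (Row a) (p d a) (p (!d) a)) (h2 : ∀ d a b, r a b → r' (p d a) (p d b))
    (h3 : ∀ a ∈ S0, ∀ m ∈ Row a, π m = a) {S : Set α} {a b : α} (h : HP r S a b) (hS : S ⊆ S0) :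
    ∃ τ, ∀ d, HP r' {m | ∃ x ∈ S, m ∈ Row x} (p d a) (p (xor d τ) b) := by
  induction h with
  | one a => exact ⟨true, fun d => by simpa using h1 d a⟩
  | @cons S a b c g1 g2 _ ih =>
    obtain ⟨τ, hτ⟩ := ih ((Set.subset_insert _ _).trans hS)
    refine ⟨!τ, fun d => ?_⟩
    have := (h1 d a).glue (h2 _ _ _ g2) (hτ (!d)) fun m hm ⟨x, hx, hm'⟩ => g1 (by
      rwa [← h3 a (hS (Or.inl rfl)) m hm, h3 x (hS (Or.inr hx)) m hm'])
    rw [show xor (!d) τ = xor d (!τ) by cases d <;> cases τ <;> rfl] at this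
    exact this.cast fun m => by simp

lemma HP.walk (G : SimpleGraph β) (f : α → β) {S : Set α} {a b : α} (h : HP r S a b)
    (hf : Set.InjOn f S) (hr : ∀ a ∈ S, ∀ b ∈ S, r a b → G.Adj (f a) (f b)) :
    ∃ p : G.Walk (f a) (f b), p.IsPath ∧ ∀ x, x ∈ p.support ↔ x ∈ f '' S := by
  induction h with
  | one a => exact ⟨.nil, by simp, by simp⟩
  | @cons S a b c g1 g2 g3 ih =>
    obtain ⟨p, h1, h2⟩ := ih (hf.mono (Set.subset_insert _ _))
      fun x hx y hy => hr x (Or.inr hx) y (Or.inr hy)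
    refine ⟨.cons (hr a (Or.inl rfl) b (Or.inr g3.left) g2) p, h1.cons ?_, fun x => ?_⟩
    · rw [h2]
      rintro ⟨x, hx, e⟩
      exact g1 (hf (Or.inr hx) (Or.inl rfl) e ▸ hx)
    · rw [Set.image_insert_eq]; simp [h2]

lemma line (f : ℕ → α) (n : ℕ) (h1 : ∀ i j, i < j → j ≤ n → f i ≠ f j)
    (h2 : ∀ i, i < n → r (f i) (f (i + 1))) : HP r {x | ∃ i ≤ n, f i = x} (f 0) (f n) := by
  induction n with
  | zero => exact (HP.one _).cast fun x => by simp [eq_comm]
  | succ n ih =>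
    refine ((ih (fun i j a b => h1 i j a (by omega)) fun i a => h2 i (by omega)).snoc
      (h2 n (by omega)) fun ⟨i, a, b⟩ => h1 i (n + 1) (by omega) le_rfl b).cast fun x => ?_
    constructor
    · rintro ⟨i, a, rfl⟩
      rcases Nat.of_le_succ a with g | rfl
      exacts [Or.inr ⟨i, g, rfl⟩, Or.inl rfl]
    · rintro (rfl | ⟨i, a, rfl⟩)
      exacts [⟨_, le_rfl, rfl⟩, ⟨i, by omega, rfl⟩]

/-- Adjacency in the triangular grid. -/
def gr (p q : ℕ × ℕ) : Prop :=
  (q.1 = p.1 + 1 ∧ q.2 = p.2) ∨ (q.1 = p.1 ∧ q.2 = p.2 + 1) ∨ (p.1 = q.1 + 1 ∧ q.2 = p.2) ∨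
    (q.1 = p.1 ∧ p.2 = q.2 + 1) ∨ (p.1 = q.1 + 1 ∧ q.2 = p.2 + 1) ∨ (q.1 = p.1 + 1 ∧ p.2 = q.2 + 1)

lemma gr_symm (p q : ℕ × ℕ) (h : gr p q) : gr q p := by unfold gr at *; omega

lemma row (s : ℕ) : HP gr {p | p.1 + p.2 = s} (s, 0) (0, s) := by
  have := line (r := gr) (fun i => (s - i, i)) s (fun i j a b => by simp; omega)
    fun i a => by simp [gr]; omega
  simp only [Nat.sub_zero, Nat.sub_self] at this
  refine this.cast fun p => ⟨fun h => ⟨p.2, by simp at h; omega, ?_⟩, ?_⟩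
  · simp only [Set.mem_setOf_eq] at h
    exact Prod.ext (by simp; omega) rfl
  · rintro ⟨i, a, rfl⟩
    simp; omega

lemma col (i n : ℕ) : HP gr {p | p.1 = i ∧ 1 ≤ p.2 ∧ p.2 ≤ n + 1} (i, 1) (i, n + 1) := by
  have := line (r := gr) (fun j => (i, j + 1)) n (fun i j a b => by simp; omega)
    fun i a => by simp [gr]
  refine this.cast fun p => ⟨fun h => ⟨p.2 - 1, by simp at h; omega, ?_⟩, ?_⟩
  · simp only [Set.mem_setOf_eq] at h
    exact Prod.ext h.1.symm (by simp; omega)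
  · rintro ⟨i, a, rfl⟩
    simp; omega

lemma cols (d : ℕ) : ∀ i, HP gr {p | i ≤ p.1 ∧ 1 ≤ p.2 ∧ p.1 + p.2 ≤ i + d + 1} (i + d, 1) (i, 1) ∧
    HP gr {p | i ≤ p.1 ∧ 1 ≤ p.2 ∧ p.1 + p.2 ≤ i + d + 1} (i + d, 1) (i, d + 1) := by
  induction d with
  | zero =>
    intro i
    have : HP gr {p | i ≤ p.1 ∧ 1 ≤ p.2 ∧ p.1 + p.2 ≤ i + 0 + 1} (i, 1) (i, 1) :=
      (HP.one _).cast fun p => by simp [Prod.ext_iff]; omega
    exact ⟨this, this⟩
  | succ d ih =>
    intro i
    obtain ⟨h1, h2⟩ := ih (i + 1)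
    rw [show i + (d + 1) = i + 1 + d by omega]
    exact ⟨(h2.glue (by simp [gr]) ((col i (d + 1)).rev gr_symm) fun p => by
        simp; omega).cast fun p => by simp; omega,
      (h1.glue (by simp [gr]) (col i (d + 1)) fun p => by simp; omega).cast fun p => by
        simp; omega⟩

lemma tri1 (t : ℕ) : HP gr {p | 1 ≤ p.1 + p.2 ∧ p.1 + p.2 ≤ t + 1} (1, 0) (0, 1) := by
  have h1 := line (r := gr) (fun j => (j + 1, 0)) t (fun i j a b => by simp; omega)
    fun i a => by simp [gr]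
  refine (h1.glue (by simp [gr]) (cols t 0).1 ?_).cast fun p => ⟨fun h => ?_, ?_⟩
  · rintro _ ⟨i, a, rfl⟩
    simp
  · simp only [Set.mem_setOf_eq] at h
    by_cases e : p.2 = 0
    · exact Or.inl ⟨p.1 - 1, by omega, Prod.ext (by simp; omega) e.symm⟩
    · exact Or.inr (by simp; omega)
  · rintro (⟨i, a, rfl⟩ | h)
    · simp; omega
    · simp at h ⊢; omega

lemma layers (s : ℕ) : HP gr {p | p.1 + p.2 ≤ s} (0, 0) (s, 0) ∧
    HP gr {p | p.1 + p.2 ≤ s} (0, 0) (0, s) := by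
  induction s with
  | zero =>
    have : HP gr {p | p.1 + p.2 ≤ 0} (0, 0) (0, 0) :=
      (HP.one _).cast fun p => by simp [Prod.ext_iff]
    exact ⟨this, this⟩
  | succ s ih =>
    exact ⟨(ih.2.glue (by simp [gr]) ((row (s + 1)).rev gr_symm) fun p => by
        simp; omega).cast fun p => by simp; omega,
      (ih.1.glue (by simp [gr]) (row (s + 1)) fun p => by simp; omega).cast fun p => by
        simp; omega⟩

lemma zig (n j : ℕ) : ∀ i, i + j = n → HP gr
    {p | (p.1 + p.2 = n + 2 ∨ p.1 + p.2 = n + 3) ∧ p.2 ≤ j + 1} (n + 2, 0) (i + 1, j + 1) := by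
  induction j with
  | zero =>
    rintro i rfl
    exact ((((HP.one (r := gr) (i + 2, 0)).snoc (c := (i + 3, 0)) (by simp [gr])
      (by simp)).snoc (c := (i + 2, 1)) (by simp [gr]) (by simp)).snoc (c := (i + 1, 1))
      (by simp [gr]) (by simp)).cast fun p => by simp [Prod.ext_iff]; omega
  | succ j ih =>
    intro i h
    exact (((ih (i + 1) (by omega)).snoc (c := (i + 2, j + 2)) (by simp [gr])
      (by simp)).snoc (c := (i + 1, j + 2)) (by simp [gr]) (by simp)).cast fun p => by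
        simp [Prod.ext_iff]; omega

lemma tri2 (n : ℕ) : HP gr {p | p.1 + p.2 ≤ n + 3} (0, 0) (0, n + 2) := by
  have h := (((zig n n 0 (by simp)).snoc (c := (1, n + 2)) (by simp [gr]) (by simp)).snoc
    (c := (0, n + 3)) (by simp [gr]) (by simp)).snoc (c := (0, n + 2)) (by simp [gr]) (by simp)
  exact ((layers (n + 1)).1.glue (by simp [gr]) h fun p => by
    simp [Prod.ext_iff]; omega).cast fun p => by simp [Prod.ext_iff]; omega

end Pool.Agent.H6.Ms
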