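import Pool.Agent.H6.MsA

/-! Hamiltonian paths in multiset graphs of cones. -/

namespace Pool.Agent.H6.Ms

open Multiset

variable {W : Type} [DecidableEq W]

/-- Moves of tokens in the cone over `H`; the tokens on the apex are not recorded. -/
def mr (H : W → W → Prop) (a b : Multiset W) : Prop :=
  (∃ w, b = w ::ₘ a) ∨ (∃ w, a = w ::ₘ b) ∨ ∃ u v m, H u v ∧ a = u ::ₘ m ∧ b = v ::ₘ m

variable {H : W → W → Prop}

omit [DecidableEq W] in
lemma mr_symm (hH : ∀ u v, H u v → H v u) (a b : Multiset W) (h : mr H a b) : mr H b a := by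
  rcases h with h | h | ⟨u, v, m, h1, h2, h3⟩
  exacts [Or.inr (Or.inl h), Or.inl h, Or.inr (Or.inr ⟨v, u, m, hH _ _ h1, h3, h2⟩)]

omit [DecidableEq W] in
lemma mr_add (m a b : Multiset W) (h : mr H a b) : mr H (a + m) (b + m) := by
  rcases h with ⟨w, rfl⟩ | ⟨w, rfl⟩ | ⟨u, v, n, h1, rfl, rfl⟩
  exacts [Or.inl ⟨w, by simp⟩, Or.inr (Or.inl ⟨w, by simp⟩),
    Or.inr (Or.inr ⟨u, v, n + m, h1, by simp, by simp⟩)]

/-- Adding tokens on two vertices. -/
def emb (x y : W) (φ : Multiset W) (p : ℕ × ℕ) : Multiset W :=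
  φ + (replicate p.1 x + replicate p.2 y)

lemma emb_inj {x y : W} (h : x ≠ y) (φ : Multiset W) : Function.Injective (emb x y φ) := by
  intro p q e
  have e1 := congrArg (count x) e
  have e2 := congrArg (count y) e
  simp [emb, count_replicate, h, h.symm] at e1 e2
  exact Prod.ext e1 e2

omit [DecidableEq W] in
lemma emb_mr {x y : W} (h : H x y) (h' : H y x) (φ : Multiset W) (p q : ℕ × ℕ) (g : gr p q) :
    mr H (emb x y φ p) (emb x y φ q) := by
  obtain ⟨i, j⟩ := p
  obtain ⟨i', j'⟩ := q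
  simp only [gr] at g
  rcases g with ⟨rfl, rfl⟩ | ⟨rfl, rfl⟩ | ⟨rfl, rfl⟩ | ⟨rfl, rfl⟩ | ⟨rfl, rfl⟩ | ⟨rfl, rfl⟩
  · exact Or.inl ⟨x, by simp [emb, replicate_succ]⟩
  · exact Or.inl ⟨y, by simp [emb, replicate_succ]⟩
  · exact Or.inr (Or.inl ⟨x, by simp [emb, replicate_succ]⟩)
  · exact Or.inr (Or.inl ⟨y, by simp [emb, replicate_succ]⟩)
  · exact Or.inr (Or.inr ⟨x, y, emb x y φ (i', j), h, by simp [emb, replicate_succ],
      by simp [emb, replicate_succ]⟩)
  · exact Or.inr (Or.inr ⟨y, x, emb x y φ (i, j'), h', by simp [emb, replicate_succ],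
      by simp [emb, replicate_succ]⟩)

/-- Nonempty multisets of size at most `t` supported on `U`. -/
def SS (U : Set W) (t : ℕ) : Set (Multiset W) := {m | m ≠ 0 ∧ card m ≤ t ∧ ∀ w ∈ m, w ∈ U}

lemma dec {x y : W} (h : x ≠ y) (m : Multiset W) :
    m = emb x y (m.filter fun w => w ≠ x ∧ w ≠ y) (count x m, count y m) := by
  ext w
  simp only [emb, count_add, count_filter, count_replicate]
  by_cases a : w = x
  · subst a; simp [h.symm]
  · by_cases b : w = y
    · subst b; simp [h]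
    · simp [a, b, Ne.symm a, Ne.symm b]

lemma base2 {x y : W} (h : x ≠ y) (h1 : H x y) (h2 : H y x) (t : ℕ) :
    HP (mr H) (SS {x, y} (t + 1)) {x} {y} := by
  have := (tri1 t).map _ (emb_inj h 0) (emb_mr h1 h2 0)
  simp only [emb, replicate_one, replicate_zero, zero_add, add_zero] at this
  refine this.cast fun m => ⟨fun ⟨a, b, c⟩ => ?_, ?_⟩
  · have e := dec h m
    rw [filter_eq_nil.2 fun w hw g => (c w hw).elim g.1 g.2] at e
    have e2 := congrArg card e
    have := card_pos.2 a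
    simp only [emb, card_add, card_zero, card_replicate] at e2
    exact ⟨(count x m, count y m), by simp; omega, by simpa [emb] using e.symm⟩
  · rintro ⟨p, hp, rfl⟩
    simp only [Set.mem_setOf_eq] at hp
    refine ⟨card_pos.1 (by simp; omega), by simp; omega, fun w hw => ?_⟩
    rcases mem_add.1 hw with g | g
    exacts [Or.inl (eq_of_mem_replicate g), Or.inr (eq_of_mem_replicate g)]

lemma step1 (hH : ∀ u v, H u v → H v u) {U : Set W} {z u u' : W} (hz : z ∉ U) (h1 : H z u)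
    (h2 : H z u') (h : ∀ t, HP (mr H) (SS U (t + 1)) {u'} {u}) (t : ℕ) :
    HP (mr H) (SS (insert z U) (t + 1)) {z} {u} := by
  have cz : ∀ s, ∀ φ ∈ SS U s, count z φ = 0 := fun s φ hφ =>
    count_eq_zero.2 fun g => hz (hφ.2.2 z g)
  have lay : ∀ s, s ≤ t → ∀ a b : W, (a = u ∧ b = u' ∨ a = u' ∧ b = u) → HP (mr H)
      ((· + replicate s z) '' SS U (t + 1 - s)) ({a} + replicate s z) ({b} + replicate s z) := by
    intro s hs a b hab
    have := h (t - s)
    rw [show t - s + 1 = t + 1 - s by omega] at this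
    rcases hab with ⟨rfl, rfl⟩ | ⟨rfl, rfl⟩
    · exact (this.rev (mr_symm hH)).map _ (add_left_injective _) (mr_add _)
    · exact this.map _ (add_left_injective _) (mr_add _)
  have key : ∀ s, s ≤ t → ∃ a, (a = u ∨ a = u') ∧ HP (mr H)
      {m | ∃ i ≤ s, m ∈ (· + replicate i z) '' SS U (t + 1 - i)} ({a} + replicate s z) {u} := by
    intro s hs
    induction s with
    | zero => exact ⟨u', Or.inr rfl, by simpa using lay 0 hs u' u (Or.inr ⟨rfl, rfl⟩)⟩
    | succ s ih =>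
      obtain ⟨b, hb, ih⟩ := ih (by omega)
      obtain ⟨a, ha, hab⟩ : ∃ a, (a = u ∨ a = u') ∧ (a = u ∧ b = u' ∨ a = u' ∧ b = u) := by
        rcases hb with rfl | rfl
        exacts [⟨u', Or.inr rfl, Or.inr ⟨rfl, rfl⟩⟩, ⟨u, Or.inl rfl, Or.inl ⟨rfl, rfl⟩⟩]
      refine ⟨a, ha, ((lay (s + 1) hs a b hab).glue (Or.inr (Or.inl ⟨z, by
        simp [replicate_succ, cons_swap]⟩)) ih ?_).cast fun m => ⟨?_, ?_⟩⟩
      · rintro _ ⟨φ, hφ, rfl⟩ ⟨i, hi, ψ, hψ, e⟩
        have := congrArg (count z) e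
        simp [cz _ _ hφ, cz _ _ hψ] at this
        omega
      · rintro ⟨i, hi, g⟩
        rcases Nat.of_le_succ hi with c | rfl
        exacts [Or.inr ⟨i, c, g⟩, Or.inl g]
      · rintro (g | ⟨i, hi, g⟩)
        exacts [⟨_, le_rfl, g⟩, ⟨i, by omega, g⟩]
  obtain ⟨a, ha, k⟩ := key t le_rfl
  have l := line (r := mr H) (fun i => replicate (i + 1) z) t
    (fun i j a _ e => by have := congrArg card e; simp at this; omega)
    fun i _ => Or.inl ⟨z, by simp [replicate_succ]⟩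
  refine (l.glue (Or.inr (Or.inr ⟨z, a, replicate t z, by rcases ha with rfl | rfl <;> assumption,
    by simp [replicate_succ], by simp⟩)) k ?_).cast fun m => ⟨fun ⟨b1, b2, b3⟩ => ?_, ?_⟩
  · rintro _ ⟨j, -, rfl⟩ ⟨i, -, φ, hφ, e⟩
    obtain ⟨w, hw⟩ := exists_mem_of_ne_zero hφ.1
    have : w ∈ replicate (j + 1) z := e ▸ mem_add.2 (Or.inl hw)
    exact hz (eq_of_mem_replicate this ▸ hφ.2.2 w hw)
  · have e : m = m.filter (· ≠ z) + replicate (count z m) z := by
      rw [← filter_eq', add_comm]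
      exact (filter_add_not _ m).symm
    have e2 := congrArg card e
    have := card_pos.2 b1
    simp only [card_add, card_replicate] at e2
    by_cases c : m.filter (· ≠ z) = 0
    · rw [c, card_zero] at e2
      rw [c, zero_add] at e
      exact Or.inl ⟨count z m - 1, by omega, by rw [Nat.sub_add_cancel (by omega)]; exact e.symm⟩
    · have := card_pos.2 c
      exact Or.inr ⟨count z m, by omega, _, ⟨c, by omega, fun w hw =>
        (b3 w (mem_filter.1 hw).1).resolve_left (mem_filter.1 hw).2⟩, e.symm⟩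
  · rintro (⟨i, hi, rfl⟩ | ⟨i, hi, φ, hφ, rfl⟩)
    · exact ⟨by simp, by simpa using hi, fun w hw => Or.inl (eq_of_mem_replicate hw)⟩
    · refine ⟨fun g => hφ.1 (add_eq_zero.1 g).1, by have := hφ.2.1; simp; omega, fun w hw => ?_⟩
      rcases mem_add.1 hw with g | g
      exacts [Or.inr (hφ.2.2 w g), Or.inl (eq_of_mem_replicate g)]

lemma clique (hH : ∀ u v, H u v → H v u) {x y : W} (hxy : x ≠ y) (T : Finset W) :
    (∀ u ∈ (T : Set W) ∪ {x, y}, ∀ v ∈ (T : Set W) ∪ {x, y}, u ≠ v → H u v) →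
    ∃ u' ∈ (T : Set W) ∪ {x, y}, ∀ t, HP (mr H) (SS ((T : Set W) ∪ {x, y}) (t + 1)) {u'} {y} := by
  induction T using Finset.induction_on with
  | empty =>
    intro h
    simp only [Finset.coe_empty, Set.empty_union] at h ⊢
    exact ⟨x, by simp, base2 hxy (h x (by simp) y (by simp) hxy)
      (h y (by simp) x (by simp) hxy.symm)⟩
  | insert z T _ ih =>
    intro h
    rw [Finset.coe_insert, Set.insert_union] at h ⊢
    obtain ⟨u', hu', ih⟩ := ih fun u hu v hv => h u (Or.inr hu) v (Or.inr hv)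
    by_cases hz : z ∈ (T : Set W) ∪ {x, y}
    · rw [Set.insert_eq_of_mem hz]
      exact ⟨u', hu', ih⟩
    · exact ⟨z, Or.inl rfl, step1 hH hz
        (h z (Or.inl rfl) y (by simp) fun e => hz (by simp [e]))
        (h z (Or.inl rfl) u' (Or.inr hu') fun e => hz (e ▸ hu')) ih⟩

lemma blade (hH : ∀ u v, H u v → H v u) {U : Set W} {x y u u' : W} (hxy : x ≠ y) (hx : x ∉ U)
    (hy : y ∉ U) (hU : ∀ w, w ≠ x → w ≠ y → w ∈ U) (h1 : H x y)
    (h : ∀ t, HP (mr H) (SS U (t + 1)) {u'} {u}) (n : ℕ) :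
    ∃ a, HP (mr H) {m | card m ≤ n + 3} 0 {a} := by
  let p : ℕ → Bool → Multiset W → Multiset W := fun s d φ => emb x y φ (cond d (s, 0) (0, s))
  have fil : ∀ s, ∀ φ ∈ SS U s, ∀ q, (emb x y φ q).filter (fun w => w ≠ x ∧ w ≠ y) = φ := by
    intro s φ hφ q
    rw [emb, filter_add, filter_add, filter_eq_self.2 fun w hw =>
      ⟨fun e => hx (e ▸ hφ.2.2 w hw), fun e => hy (e ▸ hφ.2.2 w hw)⟩,
      filter_eq_nil.2 fun w hw g => g.1 (eq_of_mem_replicate hw),
      filter_eq_nil.2 fun w hw g => g.2 (eq_of_mem_replicate hw), add_zero, add_zero]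
  have lay : ∀ s, s ≤ n + 2 → ∃ τ, ∀ d, HP (mr H)
      {m | ∃ φ ∈ SS U (n + 3 - s), m ∈ emb x y φ '' {q | q.1 + q.2 = s}} (p s d {u'})
        (p s (xor d τ) {u}) := by
    intro s hs
    have := h (n + 2 - s)
    rw [show n + 2 - s + 1 = n + 3 - s by omega] at this
    refine this.prod (fun φ => emb x y φ '' {q | q.1 + q.2 = s}) (p s)
      (filter fun w => w ≠ x ∧ w ≠ y) _ (fun d φ => ?_) (fun d a b g => mr_add _ _ _ g) ?_ le_rfl
    · have := (row s).map _ (emb_inj hxy φ) (emb_mr h1 (hH _ _ h1) φ)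
      cases d
      exacts [this.rev (mr_symm hH), this]
    · rintro φ hφ _ ⟨q, -, rfl⟩
      exact fil _ φ hφ q
  have key : ∀ s, s ≤ n + 2 → ∀ d, ∃ a b, (a = u ∨ a = u') ∧ HP (mr H)
      {m | ∃ i ≤ s, ∃ φ ∈ SS U (n + 3 - i), m ∈ emb x y φ '' {q | q.1 + q.2 = i}}
      (p s d {a}) {b} := by
    intro s hs
    induction s with
    | zero =>
      intro d
      obtain ⟨τ, hτ⟩ := lay 0 hs
      refine ⟨u', u, Or.inr rfl, ?_⟩
      have := hτ d
      rw [show p 0 (xor d τ) {u} = {u} by cases xor d τ <;> simp [p, emb]] at this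
      exact this.cast fun m => by simp
    | succ s ih =>
      intro d
      obtain ⟨τ, hτ⟩ := lay (s + 1) hs
      obtain ⟨a, b, ha, ih⟩ := ih (by omega) (xor d τ)
      obtain ⟨c, hc, l⟩ : ∃ c, (c = u ∨ c = u') ∧ HP (mr H)
          {m | ∃ φ ∈ SS U (n + 3 - (s + 1)), m ∈ emb x y φ '' {q | q.1 + q.2 = s + 1}}
          (p (s + 1) d {c}) (p (s + 1) (xor d τ) {a}) := by
        rcases ha with rfl | rfl
        · exact ⟨u', Or.inr rfl, hτ d⟩
        · have := (hτ (xor d τ)).rev (mr_symm hH)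
          rw [show xor (xor d τ) τ = d by cases d <;> cases τ <;> rfl] at this
          exact ⟨u, Or.inl rfl, this⟩
      refine ⟨c, b, hc, (l.glue (emb_mr h1 (hH _ _ h1) _ _ _ (by
        cases xor d τ <;> simp [gr])) ih ?_).cast fun m => ⟨?_, ?_⟩⟩
      · rintro _ ⟨φ, hφ, q, hq, rfl⟩ ⟨i, hi, ψ, hψ, q', hq', e⟩
        have e1 : ψ = φ := by rw [← fil _ ψ hψ q', e, fil _ φ hφ]
        subst e1
        rw [emb_inj hxy _ e] at hq'
        simp only [Set.mem_setOf_eq] at hq hq'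
        omega
      · rintro ⟨i, hi, g⟩
        rcases Nat.of_le_succ hi with c | rfl
        exacts [Or.inr ⟨i, c, g⟩, Or.inl g]
      · rintro (g | ⟨i, hi, g⟩)
        exacts [⟨_, le_rfl, g⟩, ⟨i, by omega, g⟩]
  obtain ⟨a, b, -, k⟩ := key (n + 2) le_rfl false
  have l := (tri2 n).map _ (emb_inj hxy 0) (emb_mr h1 (hH _ _ h1) 0)
  rw [show emb x y 0 (0, 0) = 0 by simp [emb]] at l
  refine ⟨b, (l.glue (Or.inl ⟨a, by simp [p, emb]⟩) k ?_).cast fun m => ⟨fun hm => ?_, ?_⟩⟩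
  · rintro _ ⟨q, -, rfl⟩ ⟨i, -, φ, hφ, q', -, e⟩
    refine hφ.1 ?_
    rw [← fil _ φ hφ q', e, emb, zero_add, filter_add,
      filter_eq_nil.2 fun w hw g => g.1 (eq_of_mem_replicate hw),
      filter_eq_nil.2 fun w hw g => g.2 (eq_of_mem_replicate hw), add_zero]
  · have e := dec hxy m
    have e2 := congrArg card e
    simp only [emb, card_add, card_replicate] at e2
    simp only [Set.mem_setOf_eq] at hm
    by_cases c : m.filter (fun w => w ≠ x ∧ w ≠ y) = 0
    · rw [c] at e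
      exact Or.inl ⟨_, by simp; omega, e.symm⟩
    · have := card_pos.2 c
      exact Or.inr ⟨count x m + count y m, by omega, _, ⟨c, by omega, fun w hw =>
        hU w (mem_filter.1 hw).2.1 (mem_filter.1 hw).2.2⟩, _, rfl, e.symm⟩
  · rintro (⟨q, hq, rfl⟩ | ⟨i, hi, φ, hφ, q, hq, rfl⟩)
    · simpa [emb] using hq
    · have := hφ.2.1
      simp only [Set.mem_setOf_eq, emb, card_add, card_replicate] at hq ⊢
      omega

end Pool.Agent.H6.Ms
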