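import Mathlib

/-! The `k`-multiset graph. -/

namespace Pool.Agent.H6.Ms

/-- The `k`-multiset graph `M_k(G)`: `B` arises from `A` by removing one copy of a vertex `u` and
adding one copy of a neighbour `v` of `u`. -/
def msGraph {V : Type} (G : SimpleGraph V) (k : ℕ) : SimpleGraph (Sym V k) where
  Adj A B := ∃ u v m, G.Adj u v ∧ (A : Multiset V) = u ::ₘ m ∧ (B : Multiset V) = v ::ₘ m
  symm := ⟨fun _ _ ⟨u, v, m, h1, h2, h3⟩ => ⟨v, u, m, h1.symm, h3, h2⟩⟩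
  loopless := ⟨fun _ ⟨_, _, m, h1, h2, h3⟩ =>
    h1.ne ((Multiset.cons_inj_left m).1 (h2.symm.trans h3))⟩

end Pool.Agent.H6.Ms
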