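import Pool.Agent.H6.MsB
import Pool.Agent.H6.MsDefs

/-! Two cliques glued at a vertex. -/

namespace Pool.Agent.H6.Ms

open Multiset

/-- The cone over the disjoint union of two cliques given by the fibres of `s`. -/
def cone {W : Type} (s : W → Bool) : SimpleGraph (Option W) where
  Adj a b := a ≠ b ∧ ∀ u v, a = some u → b = some v → s u = s v
  symm := ⟨fun _ _ h => ⟨h.1.symm, fun u v a b => (h.2 v u b a).symm⟩⟩
  loopless := ⟨fun _ h => h.1 rfl⟩

lemma side {W : Type} (s : W → Bool) {a c : Option W} (q : (cone s).Walk a c) : q.IsPath →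
    c = none → ∀ u w, a = some u → some w ∈ q.support → s w = s u := by
  induction q with
  | nil => intro _ h u _ e; simp [h] at e
  | @cons a b c h q ih =>
    intro hp hc u w e hw
    rw [SimpleGraph.Walk.support_cons, List.mem_cons] at hw
    rcases hw with hw | hw
    · rw [Option.some.inj (hw.trans e)]
    rcases b with _ | b
    · subst hc
      rw [SimpleGraph.Walk.isPath_iff_eq_nil.1 hp.of_cons] at hw
      simp at hw
    · rw [ih hp.of_cons hc b w rfl hw, h.2 u b e rfl]

lemma not_ham {W : Type} [Fintype W] [DecidableEq W] (s : W → Bool) {x y : W} (h : s x ≠ s y) :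
    ¬ (cone s).IsHamiltonian := by
  intro hG
  haveI : Nontrivial (Option W) := ⟨none, some x, by simp⟩
  obtain ⟨p, hp⟩ := hG.exists_isHamiltonianCycle none
  cases p with
  | nil => exact hp.isCycle.ne_nil rfl
  | @cons _ b _ e q =>
    have h1 := ((SimpleGraph.Walk.cons_isCycle_iff q e).1 hp.isCycle).1
    rcases b with _ | b
    · exact e.1 rfl
    have h2 : ∀ w, s w = s b := fun w => side s q h1 rfl b w rfl (by
      simpa using hp.mem_support (some w))
    exact h ((h2 x).trans (h2 y).symm)

lemma ham {W : Type} [Fintype W] [DecidableEq W] (s : W → Bool) (k : ℕ) (hk : 2 ≤ k) (a : W)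
    (h : HP (mr fun u v => u ≠ v ∧ s u = s v) {m | card m ≤ k} 0 {a}) :
    (msGraph (cone s) k).IsHamiltonian := by
  let f : Multiset W → Sym (Option W) k := fun m =>
    if h : card m ≤ k then ⟨m.map some + replicate (k - card m) none, by simp; omega⟩
    else Sym.replicate k none
  have hf : ∀ m, card m ≤ k →
      (f m : Multiset (Option W)) = m.map some + replicate (k - card m) none := fun m hm => by
    simp only [f, dif_pos hm]; rfl
  have inj : Set.InjOn f {m | card m ≤ k} := fun m hm m' hm' e => by
    have := congrArg (fun A : Sym (Option W) k => (A : Multiset (Option W)).filterMap id) e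
    simpa [hf m hm, hf m' hm', filterMap_add, filterMap_map, replicate, filterMap_some] using this
  have up : ∀ m w, card (w ::ₘ m) ≤ k → (msGraph (cone s) k).Adj (f m) (f (w ::ₘ m)) :=
    fun m w hm => by
      have hm' : card m + 1 ≤ k := by simpa using hm
      refine ⟨none, some w, m.map some + replicate (k - (card m + 1)) none,
        ⟨by simp, by simp⟩, ?_, by rw [hf _ hm]; simp⟩
      rw [hf _ (by omega), show k - card m = k - (card m + 1) + 1 by omega, replicate_succ]
      simp
  have adj : ∀ m ∈ {m | card m ≤ k}, ∀ m' ∈ {m | card m ≤ k},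
      mr (fun u v => u ≠ v ∧ s u = s v) m m' → (msGraph (cone s) k).Adj (f m) (f m') := by
    rintro m hm m' hm' (⟨w, rfl⟩ | ⟨w, rfl⟩ | ⟨u, v, n, g, rfl, rfl⟩)
    · exact up _ _ hm'
    · exact (up _ _ hm).symm
    · exact ⟨some u, some v, n.map some + replicate (k - (card n + 1)) none,
        ⟨by simpa using g.1, by simpa using g.2⟩, by rw [hf _ hm]; simp, by rw [hf _ hm']; simp⟩
  obtain ⟨p, h1, h2⟩ := h.walk (msGraph (cone s) k) f inj adj
  have h3 : ∀ A, A ∈ p.support := fun A => by
    rw [h2]
    have e : (A : Multiset (Option W)) = ((A : Multiset (Option W)).filterMap id).map some +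
        replicate (count none (A : Multiset (Option W))) none := by
      generalize (A : Multiset (Option W)) = B
      induction B using Multiset.induction_on with
      | empty => simp
      | cons b B ih =>
        rcases b with _ | b
        · rw [filterMap_cons_none _ _ rfl, count_cons_self, replicate_succ, add_cons, ← ih]
        · rw [filterMap_cons_some id (some b) B (b := b) rfl, count_cons_of_ne (by simp), map_cons, cons_add, ← ih]
    have e2 := congrArg card e
    have e3 : card (A : Multiset (Option W)) = k := A.2
    simp only [card_add, card_map, card_replicate] at e2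
    have e4 : card ((A : Multiset (Option W)).filterMap id) ≤ k := by omega
    refine ⟨_, e4, Subtype.ext ?_⟩
    change (f _ : Multiset (Option W)) = (A : Multiset (Option W))
    rw [hf _ e4, show k - card ((A : Multiset (Option W)).filterMap id) =
      count none (A : Multiset (Option W)) by omega, ← e]
  have e0 : (msGraph (cone s) k).Adj (f {a}) (f 0) := (up 0 a (by simp; omega)).symm
  intro _
  refine ⟨_, .cons e0 p, ⟨(SimpleGraph.Walk.cons_isCycle_iff p e0).2 ⟨h1, fun g => ?_⟩, ?_⟩⟩
  · rw [Sym2.eq_swap] at g
    have g1 := h1.eq_snd_of_mem_edges g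
    have g2 := h3 (f {a, a})
    have n1 : f {a, a} ≠ f 0 := fun e => by simpa using inj (by simpa) (by simp) e
    have n2 : f {a, a} ≠ f {a} := fun e => by
      simpa using congrArg card (inj (by simpa) (by simp; omega) e)
    have n3 := e0.ne
    revert g1 g2 n1 n2 n3 h1
    generalize f {a, a} = C
    clear h2 h3 g e0
    revert p
    generalize f {a} = A
    generalize f 0 = B
    intro p h1 g1 g2 n1 n2 n3
    cases p with
    | nil => exact n3 rfl
    | cons e q =>
      rw [SimpleGraph.Walk.snd_cons] at g1
      subst g1
      rw [SimpleGraph.Walk.isPath_iff_eq_nil.1 h1.of_cons] at g2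
      simp [n1, n2] at g2
  · intro A
    simpa using h1.isHamiltonian_of_mem h3 A

end Pool.Agent.H6.Ms
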