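import Mathlib

namespace Pool.Agent.H6.Neck
open Finset

def S (g : ℤ → ℤ) (a : ℤ) (n : ℕ) : ℤ := ∑ s ∈ range n, g (a + s)

lemma split (g : ℤ → ℤ) (c0 : ℤ) (h : ∀ i, g (2 * i + 1) = c0) (a : ℤ) :
    ∀ (n e : ℕ), (e : ℤ) = (a + n + 1) / 2 - (a + 1) / 2 →
      S g a n = c0 * (n - e) + S (fun i => g (2 * i)) ((a + 1) / 2) e := by
  intro n
  induction n with
  | zero =>
    intro e he
    have : e = 0 := by simp at he; omega
    subst this; simp [S]
  | succ n ih =>
    intro e he
    push_cast at he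
    rcases Int.emod_two_eq_zero_or_one (a + n) with hp | hp
    · obtain ⟨e', rfl⟩ : ∃ e', e = e' + 1 := ⟨e - 1, by omega⟩
      have := ih e' (by push_cast at he; omega)
      simp only [S, sum_range_succ] at this ⊢
      rw [this]
      have h2 : a + n = 2 * ((a + 1) / 2 + e') := by push_cast at he; omega
      rw [h2]; push_cast; ring
    · have := ih e (by omega)
      simp only [S, sum_range_succ] at this ⊢
      rw [this]
      have h2 : a + n = 2 * ((a + n) / 2) + 1 := by omega
      rw [h2, h]; push_cast; ring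

def Good (g : ℤ → ℤ) (C : ℕ → ℤ) : Prop :=
  (∀ k i, g (2 ^ k * (2 * i + 1)) = C k) ∧ (∀ k i, g (2 ^ k * i) ≤ C k) ∧ ∀ i, 0 ≤ g i

lemma Good.half {g C} (h : Good g C) : Good (fun i => g (2 * i)) (fun k => C (k + 1)) := by
  refine ⟨fun k i => ?_, fun k i => ?_, fun i => h.2.2 _⟩
  · have := h.1 (k + 1) i
    show g (2 * (2 ^ k * (2 * i + 1))) = C (k + 1)
    rw [← this]; congr 1; ring
  · have := h.2.1 (k + 1) i
    refine le_trans (le_of_eq ?_) this
    show g (2 * (2 ^ k * i)) = _
    congr 1; ring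

lemma Good.anti {g C} (h : Good g C) (k : ℕ) : C (k + 1) ≤ C k := by
  have h1 := h.1 (k + 1) 0
  have h2 := h.2.1 k 2
  have : (2 : ℤ) ^ (k + 1) * (2 * 0 + 1) = 2 ^ k * 2 := by ring
  rw [this] at h1; omega

lemma Good.nonneg {g C} (h : Good g C) (k : ℕ) : 0 ≤ C k := by
  rw [← h.1 k 0]; exact h.2.2 _

lemma Good.odd {g C} (h : Good g C) (i : ℤ) : g (2 * i + 1) = C 0 := by
  simpa using h.1 0 i

lemma Good.le0 {g C} (h : Good g C) (i : ℤ) : g i ≤ C 0 := by
  simpa using h.2.1 0 i

lemma bounds : ∀ (N : ℕ) (g : ℤ → ℤ) (C : ℕ → ℤ), Good g C → ∀ (a : ℤ) (p q : ℕ), p + q ≤ N →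
    (p = q → -C 0 ≤ S g a p - S g (a + p) q ∧ S g a p - S g (a + p) q ≤ C 0) ∧
    (q = p + 1 → 0 ≤ S g (a + p) q - S g a p ∧ S g (a + p) q - S g a p ≤ C 0 + C 1) ∧
    (p = q + 1 → 0 ≤ S g a p - S g (a + p) q ∧ S g a p - S g (a + p) q ≤ C 0 + C 1) := by
  intro N
  induction N with
  | zero =>
    intro g C hg a p q hpq
    have hp : p = 0 := by omega
    have hq : q = 0 := by omega
    subst hp hq
    have := hg.nonneg 0
    simp [S, this]
  | succ N ih =>
    intro g C hg a p q hpq
    have c0 := hg.nonneg 0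
    have c1 := hg.nonneg 1
    have c2 := hg.nonneg 2
    have a0 := hg.anti 0
    have a1 := hg.anti 1
    by_cases hs : p + q ≤ 1
    · have l := hg.le0 a
      have l0 := hg.2.2 a
      refine ⟨fun h => ?_, fun h => ?_, fun h => ?_⟩
      · have hp : p = 0 := by omega
        have hq : q = 0 := by omega
        subst hp hq
        simp [S, c0]
      · have hp : p = 0 := by omega
        subst hp; subst h
        simp only [S, zero_add, sum_range_one, range_zero, sum_empty, Nat.cast_zero, add_zero]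
        omega
      · have hq : q = 0 := by omega
        subst hq; subst h
        simp only [S, zero_add, sum_range_one, range_zero, sum_empty, Nat.cast_zero, add_zero]
        omega
    · obtain ⟨e1, he1⟩ : ∃ e : ℕ, (e : ℤ) = (a + p + 1) / 2 - (a + 1) / 2 :=
        ⟨((a + p + 1) / 2 - (a + 1) / 2).toNat, by omega⟩
      obtain ⟨e2, he2⟩ : ∃ e : ℕ, (e : ℤ) = (a + p + q + 1) / 2 - (a + p + 1) / 2 :=
        ⟨((a + p + q + 1) / 2 - (a + p + 1) / 2).toNat, by omega⟩
      have s1 := split g (C 0) hg.odd a p e1 he1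
      have s2 := split g (C 0) hg.odd (a + p) q e2 he2
      have hst : (a + p + 1) / 2 = (a + 1) / 2 + e1 := by omega
      rw [hst] at s2
      obtain ⟨i1, i2, i3⟩ := ih _ _ hg.half ((a + 1) / 2) e1 e2 (by omega)
      simp only [zero_add] at i1 i2 i3 a0
      generalize S (fun i => g (2 * i)) ((a + 1) / 2) e1 = X at *
      generalize S (fun i => g (2 * i)) ((a + 1) / 2 + e1) e2 = Y at *
      have key : ∀ d : ℤ, (q : ℤ) - e2 = p - e1 + d →
          S g (a + p) q - S g a p = C 0 * d + Y - X := by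
        intro d hd
        rw [s1, s2, hd]; ring
      have e11 : C (1 + 1) = C 2 := rfl
      refine ⟨fun h => ?_, fun h => ?_, fun h => ?_⟩
      · rcases (by omega : e1 = e2 ∨ e2 = e1 + 1 ∨ e1 = e2 + 1) with h' | h' | h'
        · have := key 0 (by omega); have := i1 h'; omega
        · have := key (-1) (by omega); have := i2 h'; omega
        · have := key 1 (by omega); have := i3 h'; omega
      · rcases (by omega : e1 = e2 ∨ e2 = e1 + 1) with h' | h'
        · have := key 1 (by omega); have := i1 h'; omega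
        · have := key 0 (by omega); have := i2 h'; omega
      · rcases (by omega : e1 = e2 ∨ e1 = e2 + 1) with h' | h'
        · have := key (-1) (by omega); have := i1 h'; omega
        · have := key 0 (by omega); have := i3 h'; omega

lemma mainj (r : ℕ) : ∀ (j : ℕ) (g : ℤ → ℤ) (C : ℕ → ℤ), Good g C → C j = 2 * (2 * r + 1) →
    C (j + 1) = 2 * r + 1 → C (j + 2) ≤ r + 1 → ∀ (a : ℤ) (m : ℕ), m = 2 ^ j * (2 * r + 1) →
      S g a m ≠ S g (a + m) m := by
  intro j
  induction j with
  | zero =>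
    intro g C hg h0 h1 h2 a m hm
    simp only [zero_add, pow_zero, one_mul] at h0 h1 h2 hm
    obtain ⟨e1, he1⟩ : ∃ e : ℕ, (e : ℤ) = (a + m + 1) / 2 - (a + 1) / 2 :=
      ⟨((a + m + 1) / 2 - (a + 1) / 2).toNat, by omega⟩
    obtain ⟨e2, he2⟩ : ∃ e : ℕ, (e : ℤ) = (a + m + m + 1) / 2 - (a + m + 1) / 2 :=
      ⟨((a + m + m + 1) / 2 - (a + m + 1) / 2).toNat, by omega⟩
    have s1 := split g (C 0) hg.odd a m e1 he1
    have s2 := split g (C 0) hg.odd (a + m) m e2 he2
    have hst : (a + m + 1) / 2 = (a + 1) / 2 + e1 := by omega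
    rw [hst] at s2
    obtain ⟨-, i2, i3⟩ := bounds _ _ _ hg.half ((a + 1) / 2) e1 e2 le_rfl
    have e11 : C (1 + 1) = C 2 := rfl
    have sm1 : e1 = 0 → e2 = 1 → S (fun i => g (2 * i)) ((a + 1) / 2 + e1) e2 -
        S (fun i => g (2 * i)) ((a + 1) / 2) e1 ≤ C 1 := by
      intro u v; subst u v
      have := hg.half.le0 ((a + 1) / 2)
      simpa [S] using this
    have sm2 : e1 = 1 → e2 = 0 → S (fun i => g (2 * i)) ((a + 1) / 2) e1 -
        S (fun i => g (2 * i)) ((a + 1) / 2 + e1) e2 ≤ C 1 := by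
      intro u v; subst u v
      have := hg.half.le0 ((a + 1) / 2)
      simpa [S] using this
    simp only [zero_add] at i2 i3
    generalize S (fun i => g (2 * i)) ((a + 1) / 2) e1 = X at *
    generalize S (fun i => g (2 * i)) ((a + 1) / 2 + e1) e2 = Y at *
    have key : ∀ d : ℤ, (m : ℤ) - e2 = m - e1 + d →
        S g (a + m) m - S g a m = C 0 * d + Y - X := by
      intro d hd
      rw [s1, s2, hd]; ring
    rcases (by omega : e2 = e1 + 1 ∨ e1 = e2 + 1) with h' | h'
    · have := key (-1) (by omega); have := i2 h'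
      rcases Nat.eq_zero_or_pos r with hr | hr
      · have := sm1 (by omega) (by omega); omega
      · omega
    · have := key 1 (by omega); have := i3 h'
      rcases Nat.eq_zero_or_pos r with hr | hr
      · have := sm2 (by omega) (by omega); omega
      · omega
  | succ j ih =>
    intro g C hg h0 h1 h2 a m hm
    obtain ⟨e, he⟩ : ∃ e, e = 2 ^ j * (2 * r + 1) := ⟨_, rfl⟩
    have hme : m = 2 * e := by rw [hm, he]; ring
    have s1 := split g (C 0) hg.odd a m e (by omega)
    have s2 := split g (C 0) hg.odd (a + m) m e (by omega)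
    have hst : (a + m + 1) / 2 = (a + 1) / 2 + e := by omega
    rw [hst] at s2
    have := ih _ _ hg.half h0 h1 h2 ((a + 1) / 2) e he
    rw [s1, s2]
    intro h; apply this; linarith

open Classical in
noncomputable def dv (k : ℕ) (j : ℤ) : ℤ := if (2 : ℤ) ^ k ∣ j then 1 else 0

lemma dv_count : ∀ (k q : ℕ) (b : ℤ), S (dv k) b (2 ^ k * q) = q := by
  intro k
  induction k with
  | zero => intro q b; simp [S, dv]
  | succ k ih =>
    intro q b
    obtain ⟨e, he⟩ : ∃ e, e = 2 ^ k * q := ⟨_, rfl⟩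
    have hme : 2 ^ (k + 1) * q = 2 * e := by rw [he]; ring
    have hodd : ∀ i, dv (k + 1) (2 * i + 1) = 0 := by
      intro i
      unfold dv
      rw [if_neg]
      intro h
      have : (2 : ℤ) ∣ 2 * i + 1 := dvd_trans (dvd_pow_self 2 (by omega)) h
      omega
    rw [hme, split (dv (k + 1)) 0 hodd b (2 * e) e (by push_cast; omega)]
    have : (fun i => dv (k + 1) (2 * i)) = dv k := by
      funext i
      unfold dv
      have : (2 : ℤ) ^ (k + 1) ∣ 2 * i ↔ 2 ^ k ∣ i := by
        rw [pow_succ', mul_dvd_mul_iff_left (by norm_num)]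
      simp only [this]
    rw [this, he, ih]; simp

def G (i j : ℤ) : Prop := ∃ k : ℕ, (2 : ℤ) ^ k ∣ i ∧ ¬ (2 : ℤ) ^ k ∣ j

lemma G_asymm {i j : ℤ} (h : G i j) : ¬ G j i := by
  rintro ⟨l, h1, h2⟩
  obtain ⟨k, h3, h4⟩ := h
  rcases le_total k l with h | h
  · exact h4 (dvd_trans (pow_dvd_pow 2 h) h1)
  · exact h2 (dvd_trans (pow_dvd_pow 2 h) h3)

open Classical in
noncomputable def indG (i j : ℤ) : ℤ := if G i j then 1 else 0

lemma good_col (b : ℤ) (n : ℕ) :
    Good (fun i => ∑ t ∈ range n, (1 - indG i (b + t))) (fun k => S (dv k) b n) := by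
  refine ⟨fun k i => ?_, fun k i => ?_, fun i => ?_⟩
  · refine sum_congr rfl fun t _ => ?_
    unfold indG dv
    by_cases h : (2 : ℤ) ^ k ∣ b + t
    · rw [if_pos h, if_neg]; · simp
      rintro ⟨l, h1, h2⟩
      apply h2
      have hl : l ≤ k := by
        by_contra hl
        have h3 : (2 : ℤ) ^ (k + 1) ∣ 2 ^ k * (2 * i + 1) :=
          dvd_trans (pow_dvd_pow 2 (by omega)) h1
        rw [pow_succ, mul_dvd_mul_iff_left (by positivity)] at h3
        omega
      exact dvd_trans (pow_dvd_pow 2 hl) h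
    · rw [if_neg h, if_pos ⟨k, dvd_mul_right _ _, h⟩]; simp
  · refine sum_le_sum fun t _ => ?_
    unfold indG dv
    by_cases h : (2 : ℤ) ^ k ∣ b + t
    · rw [if_pos h]; split_ifs <;> simp
    · rw [if_neg h, if_pos ⟨k, dvd_mul_right _ _, h⟩]; simp
  · refine sum_nonneg fun t _ => ?_
    unfold indG; split_ifs <;> simp

theorem halves_ne (a b : ℤ) (m : ℕ) (hm : 1 ≤ m) :
    ∑ s ∈ range m, ∑ t ∈ range (2 * m), indG (a + s) (b + t) ≠
      ∑ s ∈ range m, ∑ t ∈ range (2 * m), indG (a + m + s) (b + t) := by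
  obtain ⟨j, m', hodd, hj⟩ := Nat.exists_eq_two_pow_mul_odd (n := m) (by omega)
  obtain ⟨r, rfl⟩ := hodd
  have h0 : S (dv j) b (2 * m) = 2 * (2 * r + 1) := by
    have := dv_count j (2 * (2 * r + 1)) b
    rw [show 2 * m = 2 ^ j * (2 * (2 * r + 1)) by rw [hj]; ring, this]; push_cast; ring
  have h1 : S (dv (j + 1)) b (2 * m) = 2 * r + 1 := by
    have := dv_count (j + 1) (2 * r + 1) b
    rw [show 2 * m = 2 ^ (j + 1) * (2 * r + 1) by rw [hj]; ring, this]; push_cast; ring
  have h2 : S (dv (j + 2)) b (2 * m) ≤ r + 1 := by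
    have := dv_count (j + 2) (r + 1) b
    push_cast at this
    rw [← this]
    refine sum_le_sum_of_subset_of_nonneg (range_subset_range.mpr ?_) fun t _ _ => ?_
    · rw [hj]
      have : 2 ^ (j + 2) * (r + 1) = 2 * (2 ^ j * (2 * r + 1)) + 2 * 2 ^ j := by ring
      omega
    · unfold dv; split_ifs <;> simp
  have := mainj r j _ _ (good_col b (2 * m)) h0 h1 h2 a m hj
  intro h
  apply this
  simp only [S, sum_sub_distrib]
  rw [h]

end Pool.Agent.H6.Neck
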