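import Pool.Agent.H6.NeckDefs
import Pool.Agent.H6.NeckA

namespace Pool.Agent.H6.Neck
open Finset

lemma sum_Ioc (f : ℤ → ℤ) (a : ℤ) (p : ℕ) :
    ∑ x ∈ Finset.Ioc a (a + p), f x = ∑ s ∈ range p, f (a + 1 + s) := by
  rw [Int.Ioc_eq_finset_map]
  simp

lemma sum_square (F : ℤ × ℤ → ℤ) (a b : ℤ) (n : ℕ) :
    ∑ x ∈ square a b n, F x = ∑ s ∈ range n, ∑ t ∈ range n, F (a + 1 + s, b + 1 + t) := by
  unfold square
  rw [sum_product, sum_Ioc (fun x => ∑ y ∈ Finset.Ioc b (b + n), F (x, y))]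
  refine sum_congr rfl fun s _ => ?_
  exact sum_Ioc (fun y => F (a + 1 + s, y)) b n

def sg (u : Bool) : ℤ := if u then 1 else -1

lemma fair_iff {k : ℕ} (c : ℤ × ℤ → Fin k) (side : ℤ × ℤ → Bool) (a b : ℤ) (n : ℕ) (j : Fin k) :
    (((square a b n).filter (fun x => c x = j ∧ side x = true)).card =
      ((square a b n).filter (fun x => c x = j ∧ side x = false)).card) ↔
    ∑ s ∈ range n, ∑ t ∈ range n,
      (if c (a + 1 + s, b + 1 + t) = j then sg (side (a + 1 + s, b + 1 + t)) else 0) = 0 := by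
  rw [← sum_square (fun x => if c x = j then sg (side x) else 0)]
  have : ∑ x ∈ square a b n, (if c x = j then sg (side x) else 0) =
      (((square a b n).filter (fun x => c x = j ∧ side x = true)).card : ℤ) -
      (((square a b n).filter (fun x => c x = j ∧ side x = false)).card : ℤ) := by
    rw [card_filter, card_filter]
    push_cast
    rw [← sum_sub_distrib]
    refine sum_congr rfl fun x _ => ?_
    by_cases h : c x = j <;> cases side x <;> simp [h, sg]
  rw [this]
  omega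

lemma two_blocks {k : ℕ} (n p q : ℕ) (F : ℕ → ℕ → Fin k) (sd : ℕ → ℕ → Bool) (u v : Bool)
    (h1 : ∀ s < p, ∀ t < n, sd s t = u) (h2 : ∀ s < q, ∀ t < n, sd (p + s) t = v) (j : Fin k) :
    ∑ s ∈ range (p + q), ∑ t ∈ range n, (if F s t = j then sg (sd s t) else 0) =
      sg u * (∑ s ∈ range p, ∑ t ∈ range n, (if F s t = j then 1 else 0)) +
      sg v * (∑ s ∈ range q, ∑ t ∈ range n, (if F (p + s) t = j then 1 else 0)) := by
  rw [sum_range_add, mul_sum, mul_sum]
  congr 1
  · refine sum_congr rfl fun s hs => ?_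
    rw [mul_sum]
    refine sum_congr rfl fun t ht => ?_
    rw [h1 s (mem_range.mp hs) t (mem_range.mp ht)]
    split_ifs <;> simp
  · refine sum_congr rfl fun s hs => ?_
    rw [mul_sum]
    refine sum_congr rfl fun t ht => ?_
    rw [h2 s (mem_range.mp hs) t (mem_range.mp ht)]
    split_ifs <;> simp

lemma total {k : ℕ} (n p : ℕ) (F : ℕ → ℕ → Fin k) :
    ∑ j : Fin k, (∑ s ∈ range p, ∑ t ∈ range n, (if F s t = j then (1 : ℤ) else 0)) = p * n := by
  rw [sum_comm]
  have : ∀ s ∈ range p, ∑ j : Fin k, ∑ t ∈ range n, (if F s t = j then (1 : ℤ) else 0) = n := by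
    intro s _
    rw [sum_comm]
    simp
  rw [sum_congr rfl this]
  simp

lemma core {k : ℕ} (n p : ℕ) (hp : p ≤ n) (hn : 1 ≤ n) (F : ℕ → ℕ → Fin k) (sd : ℕ → ℕ → Bool)
    (u v : Bool) (h1 : ∀ s < p, ∀ t < n, sd s t = u)
    (h2 : ∀ s, p ≤ s → s < n → ∀ t < n, sd s t = v)
    (h : ∀ j, ∑ s ∈ range n, ∑ t ∈ range n, (if F s t = j then sg (sd s t) else 0) = 0) :
    n = 2 * p ∧ ∀ j, ∑ s ∈ range p, ∑ t ∈ range n, (if F s t = j then (1 : ℤ) else 0) =
      ∑ s ∈ range p, ∑ t ∈ range n, (if F (p + s) t = j then (1 : ℤ) else 0) := by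
  obtain ⟨q, hq⟩ : ∃ q, n = p + q := ⟨n - p, by omega⟩
  have key := fun j => two_blocks n p q F sd u v h1
    (fun s hs t ht => h2 (p + s) (by omega) (by omega) t ht) j
  rw [← hq] at key
  have key2 : ∀ j, sg u * (∑ s ∈ range p, ∑ t ∈ range n, (if F s t = j then 1 else 0)) +
      sg v * (∑ s ∈ range q, ∑ t ∈ range n, (if F (p + s) t = j then 1 else 0)) = 0 :=
    fun j => by rw [← key j, h j]
  have tot : sg u * (p * n) + sg v * (q * n) = 0 := by
    rw [← total n p F, ← total n q (fun s t => F (p + s) t), mul_sum, mul_sum, ← sum_add_distrib]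
    exact sum_eq_zero fun j _ => key2 j
  have hn' : (0 : ℤ) < n := by exact_mod_cast hn
  have hq' : (n : ℤ) = p + q := by exact_mod_cast hq
  have hpq : p = q ∧ sg v = - sg u := by
    cases u <;> cases v <;> simp only [sg] at tot ⊢ <;> simp at tot ⊢
    · nlinarith
    · have : (p : ℤ) = q := by nlinarith
      exact_mod_cast this
    · have : (p : ℤ) = q := by nlinarith
      exact_mod_cast this
    · nlinarith
  obtain ⟨rfl, hv⟩ := hpq
  refine ⟨by omega, fun j => ?_⟩
  have := key2 j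
  rw [hv] at this
  cases u <;> simp only [sg] at this <;> simp only [Bool.false_eq_true, if_false, if_true] at this <;>
    linarith

lemma mem_sq (a b : ℤ) (n s t : ℕ) (hs : s < n) (ht : t < n) :
    (a + 1 + s, b + 1 + t) ∈ square a b n := by
  simp only [square, mem_product, Finset.mem_Ioc]
  omega

theorem fair_one {k : ℕ} (c : ℤ × ℤ → Fin k) (a b : ℤ) (n : ℕ) (hn : 1 ≤ n)
    (h : FairSplit 1 c a b n) : ∃ p, n = 2 * p ∧
    ((∀ j, ∑ s ∈ range p, ∑ t ∈ range n, (if c (a + 1 + s, b + 1 + t) = j then (1 : ℤ) else 0) =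
      ∑ s ∈ range p, ∑ t ∈ range n,
        (if c (a + 1 + (p + s : ℕ), b + 1 + t) = j then (1 : ℤ) else 0)) ∨
    (∀ j, ∑ s ∈ range p, ∑ t ∈ range n, (if c (a + 1 + t, b + 1 + s) = j then (1 : ℤ) else 0) =
      ∑ s ∈ range p, ∑ t ∈ range n,
        (if c (a + 1 + t, b + 1 + (p + s : ℕ)) = j then (1 : ℤ) else 0))) := by
  obtain ⟨V, H, side, hc, hs, hf⟩ := h
  simp only [fair_iff] at hf
  by_cases hH : H = ∅
  · subst hH
    obtain ⟨m, hm⟩ := (card_le_one_iff_subset_singleton (s := V)).mp (by simpa using hc)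
    have hs' : ∀ x ∈ square a b n, ∀ y ∈ square a b n, (x.1 ≤ m ↔ y.1 ≤ m) → side x = side y := by
      intro x hx y hy hxy
      refine hs x hx y hy (fun m' hm' => ?_) (by simp)
      rw [mem_singleton.mp (hm hm')]; exact hxy
    obtain ⟨e, he⟩ := core n (min n (m - a).toNat) (min_le_left _ _) hn
      (fun s t => c (a + 1 + s, b + 1 + t)) (fun s t => side (a + 1 + s, b + 1 + t))
      (side (a + 1 + (0 : ℕ), b + 1 + (0 : ℕ))) (side (a + 1 + (n - 1 : ℕ), b + 1 + (0 : ℕ)))
      (fun s hs t ht => hs' _ (mem_sq a b n s t (by omega) ht) _ (mem_sq a b n 0 0 hn hn)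
        (by simp only; omega))
      (fun s hs hs2 t ht => hs' _ (mem_sq a b n s t hs2 ht) _ (mem_sq a b n (n - 1) 0 (by omega) hn)
        (by simp only; omega)) hf
    exact ⟨_, e, Or.inl he⟩
  · have hV : V = ∅ := by
      have := card_pos.mpr (nonempty_iff_ne_empty.mpr hH)
      exact card_eq_zero.mp (by omega)
    subst hV
    obtain ⟨m, hm⟩ := (card_le_one_iff_subset_singleton (s := H)).mp (by simpa using hc)
    have hs' : ∀ x ∈ square a b n, ∀ y ∈ square a b n, (x.2 ≤ m ↔ y.2 ≤ m) → side x = side y := by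
      intro x hx y hy hxy
      refine hs x hx y hy (by simp) (fun m' hm' => ?_)
      rw [mem_singleton.mp (hm hm')]; exact hxy
    obtain ⟨e, he⟩ := core n (min n (m - b).toNat) (min_le_left _ _) hn
      (fun s t => c (a + 1 + t, b + 1 + s)) (fun s t => side (a + 1 + t, b + 1 + s))
      (side (a + 1 + (0 : ℕ), b + 1 + (0 : ℕ))) (side (a + 1 + (0 : ℕ), b + 1 + (n - 1 : ℕ)))
      (fun s hs t ht => hs' _ (mem_sq a b n t s ht (by omega)) _ (mem_sq a b n 0 0 hn hn)
        (by simp only; omega))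
      (fun s hs hs2 t ht => hs' _ (mem_sq a b n t s ht hs2) _ (mem_sq a b n 0 (n - 1) hn (by omega))
        (by simp only; omega)) (fun j => by rw [sum_comm]; exact hf j)
    exact ⟨_, e, Or.inr he⟩

theorem fair_of_V {k : ℕ} (c : ℤ × ℤ → Fin k) (a b : ℤ) (p : ℕ)
    (h : ∀ j, ∑ s ∈ range p, ∑ t ∈ range (p + p),
        (if c (a + 1 + s, b + 1 + t) = j then (1 : ℤ) else 0) =
      ∑ s ∈ range p, ∑ t ∈ range (p + p),
        (if c (a + 1 + (p + s : ℕ), b + 1 + t) = j then (1 : ℤ) else 0)) :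
    FairSplit 1 c a b (p + p) := by
  refine ⟨{a + p}, ∅, fun x => decide (x.1 ≤ a + p), by simp, fun x _ y _ h1 _ => ?_, fun j => ?_⟩
  · have := h1 (a + p) (mem_singleton_self _)
    simp only [this]
  · rw [fair_iff]
    have := two_blocks (p + p) p p (fun s t => c (a + 1 + s, b + 1 + t))
      (fun s t => decide ((a + 1 + s : ℤ) ≤ a + p)) true false
      (fun s hs t _ => by simp only [decide_eq_true_eq]; omega)
      (fun s hs t _ => by simp only [decide_eq_false_iff_not]; push_cast; omega) j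
    rw [this, h j]
    simp [sg]

theorem fair_of_H {k : ℕ} (c : ℤ × ℤ → Fin k) (a b : ℤ) (p : ℕ)
    (h : ∀ j, ∑ s ∈ range p, ∑ t ∈ range (p + p),
        (if c (a + 1 + t, b + 1 + s) = j then (1 : ℤ) else 0) =
      ∑ s ∈ range p, ∑ t ∈ range (p + p),
        (if c (a + 1 + t, b + 1 + (p + s : ℕ)) = j then (1 : ℤ) else 0)) :
    FairSplit 1 c a b (p + p) := by
  refine ⟨∅, {b + p}, fun x => decide (x.2 ≤ b + p), by simp, fun x _ y _ _ h1 => ?_, fun j => ?_⟩
  · have := h1 (b + p) (mem_singleton_self _)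
    simp only [this]
  · rw [fair_iff, sum_comm]
    have := two_blocks (p + p) p p (fun s t => c (a + 1 + t, b + 1 + s))
      (fun s t => decide ((b + 1 + s : ℤ) ≤ b + p)) true false
      (fun s hs t _ => by simp only [decide_eq_true_eq]; omega)
      (fun s hs t _ => by simp only [decide_eq_false_iff_not]; push_cast; omega) j
    rw [this, h j]
    simp [sg]

open Classical in
noncomputable def col (x : ℤ × ℤ) : Fin 3 := if G x.1 x.2 then 0 else if G x.2 x.1 then 1 else 2

theorem upper (a b : ℤ) (n : ℕ) (hn : 1 ≤ n) : ¬ FairSplit 1 col a b n := by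
  intro h
  obtain ⟨p, rfl, h | h⟩ := fair_one col a b n hn h
  · apply halves_ne (a + 1) (b + 1) p (by omega)
    have e : ∀ i j : ℤ, (if col (i, j) = 0 then (1 : ℤ) else 0) = indG i j := by
      intro i j
      unfold col indG
      by_cases h1 : G i j
      · simp [h1]
      · by_cases h2 : G j i <;> simp [h1, h2]
    have := h 0
    simp only [e] at this
    simpa [add_assoc] using this
  · apply halves_ne (b + 1) (a + 1) p (by omega)
    have e : ∀ i j : ℤ, (if col (i, j) = 1 then (1 : ℤ) else 0) = indG j i := by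
      intro i j
      unfold col indG
      by_cases h1 : G i j
      · simp [h1, G_asymm h1]
      · by_cases h2 : G j i <;> simp [h1, h2]
    have := h 1
    simp only [e] at this
    simpa [add_assoc] using this

theorem lower {k : ℕ} (hk : k ≤ 2) (c : ℤ × ℤ → Fin k)
    (h : ∀ (a b : ℤ) (n : ℕ), 1 ≤ n → ¬ FairSplit 1 c a b n) : False := by
  set y : ℤ → ℤ → ℤ := fun i j => ((c (i, j)).val : ℤ) with hy
  have y01 : ∀ i j, 0 ≤ y i j ∧ y i j ≤ 1 := by
    intro i j
    have := (c (i, j)).2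
    simp only [hy]; omega
  have e : ∀ (j : Fin k) (u v : ℤ), (if c (u, v) = j then (1 : ℤ) else 0) =
      if j.val = 0 then 1 - y u v else y u v := by
    intro j u v
    have h1 := (c (u, v)).2
    have h2 := j.2
    simp only [hy, Fin.ext_iff]
    split_ifs <;> omega
  have hV : ∀ (a b : ℤ) (p : ℕ), 1 ≤ p → ∑ s ∈ range p, ∑ t ∈ range (p + p), y (a + 1 + s) (b + 1 + t) ≠
      ∑ s ∈ range p, ∑ t ∈ range (p + p), y (a + 1 + (p + s : ℕ)) (b + 1 + t) := by
    intro a b p hp hh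
    refine h a b (p + p) (by omega) (fair_of_V c a b p fun j => ?_)
    simp only [e]
    split_ifs
    · simp only [sum_sub_distrib]; rw [hh]
    · exact hh
  have hH : ∀ (a b : ℤ) (p : ℕ), 1 ≤ p → ∑ s ∈ range p, ∑ t ∈ range (p + p), y (a + 1 + t) (b + 1 + s) ≠
      ∑ s ∈ range p, ∑ t ∈ range (p + p), y (a + 1 + t) (b + 1 + (p + s : ℕ)) := by
    intro a b p hp hh
    refine h a b (p + p) (by omega) (fair_of_H c a b p fun j => ?_)
    simp only [e]
    split_ifs
    · simp only [sum_sub_distrib]; rw [hh]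
    · exact hh
  have odd2 : ∀ i j, (y i j + y (i + 1) j + y i (j + 1) + y (i + 1) (j + 1)) % 2 = 1 := by
    intro i j
    have h1 := hV (i - 1) (j - 1) 1 le_rfl
    have h2 := hH (i - 1) (j - 1) 1 le_rfl
    simp only [sum_range_succ, range_zero, sum_empty] at h1 h2
    norm_num at h1 h2
    have := y01 i j; have := y01 (i + 1) j; have := y01 i (j + 1); have := y01 (i + 1) (j + 1)
    omega
  have dd : ∀ i j, (y i j + y (i + 2) j) % 2 = (y i (j + 1) + y (i + 2) (j + 1)) % 2 := by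
    intro i j
    have h1 := odd2 i j
    have h2 := odd2 (i + 1) j
    rw [show i + 1 + 1 = i + 2 by ring] at h2
    omega
  have odd4 : ∀ i j, (y i j + y (i + 1) j + y (i + 2) j + y (i + 3) j) % 2 = 1 := by
    intro i j
    have h1 := hV (i - 1) (j - 1) 2 (by norm_num)
    have h2 := hH (i - 1) (j - 1) 2 (by norm_num)
    simp only [sum_range_succ, range_zero, sum_empty] at h1 h2
    norm_num at h1 h2
    have d0 := dd i j
    have d1 := dd i (j + 1)
    have d2 := dd i (j + 2)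
    have f0 := dd (i + 1) j
    have f1 := dd (i + 1) (j + 1)
    have f2 := dd (i + 1) (j + 2)
    rw [show j + 1 + 1 = j + 2 by ring] at d1 f1
    rw [show j + 2 + 1 = j + 3 by ring] at d2 f2
    rw [show i + 1 + 2 = i + 3 by ring] at f0 f1 f2
    have same : ∀ u v : ℤ, 0 ≤ u ∧ u ≤ 1 → 0 ≤ v ∧ v ≤ 1 → (u + v) % 2 = 0 → v = u := by
      intro u v _ _ _; omega
    have opp : ∀ u v : ℤ, 0 ≤ u ∧ u ≤ 1 → 0 ≤ v ∧ v ≤ 1 → (u + v) % 2 = 1 → v = 1 - u := by
      intro u v _ _ _; omega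
    rcases Int.emod_two_eq_zero_or_one (y i j + y (i + 2) j) with p1 | p1 <;>
    rcases Int.emod_two_eq_zero_or_one (y (i + 1) j + y (i + 3) j) with p2 | p2
    · exfalso
      have := same _ _ (y01 _ _) (y01 _ _) p1
      have := same _ _ (y01 _ _) (y01 _ _) (d0 ▸ p1)
      have := same _ _ (y01 _ _) (y01 _ _) (d1 ▸ d0 ▸ p1)
      have := same _ _ (y01 _ _) (y01 _ _) (d2 ▸ d1 ▸ d0 ▸ p1)
      have := same _ _ (y01 _ _) (y01 _ _) p2
      have := same _ _ (y01 _ _) (y01 _ _) (f0 ▸ p2)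
      have := same _ _ (y01 _ _) (y01 _ _) (f1 ▸ f0 ▸ p2)
      have := same _ _ (y01 _ _) (y01 _ _) (f2 ▸ f1 ▸ f0 ▸ p2)
      apply h1; linarith
    · omega
    · omega
    · exfalso
      have := opp _ _ (y01 _ _) (y01 _ _) p1
      have := opp _ _ (y01 _ _) (y01 _ _) (d0 ▸ p1)
      have := opp _ _ (y01 _ _) (y01 _ _) (d1 ▸ d0 ▸ p1)
      have := opp _ _ (y01 _ _) (y01 _ _) (d2 ▸ d1 ▸ d0 ▸ p1)
      have := opp _ _ (y01 _ _) (y01 _ _) p2
      have := opp _ _ (y01 _ _) (y01 _ _) (f0 ▸ p2)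
      have := opp _ _ (y01 _ _) (y01 _ _) (f1 ▸ f0 ▸ p2)
      have := opp _ _ (y01 _ _) (y01 _ _) (f2 ▸ f1 ▸ f0 ▸ p2)
      apply h2; linarith
  have per : ∀ i j, y (i + 4) j = y i j := by
    intro i j
    have h1 := odd4 i j
    have h2 := odd4 (i + 1) j
    rw [show i + 1 + 1 = i + 2 by ring, show i + 1 + 2 = i + 3 by ring,
      show i + 1 + 3 = i + 4 by ring] at h2
    have := y01 i j; have := y01 (i + 4) j
    omega
  apply hV 0 0 4 (by norm_num)
  refine sum_congr rfl fun s _ => sum_congr rfl fun t _ => ?_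
  rw [← per]; congr 1; push_cast; ring

end Pool.Agent.H6.Neck
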