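import Mathlib

namespace Pool.Agent.H6.Neck

/-- The square `{a+1,…,a+n} × {b+1,…,b+n}` of `ℤ²`. -/
noncomputable def square (a b : ℤ) (n : ℕ) : Finset (ℤ × ℤ) :=
  Finset.Ioc a (a + n) ×ˢ Finset.Ioc b (b + n)

/-- The square `square a b n` has a fair splitting under the colouring `c` with at most `t` cuts:
`V` lists the cuts `x₁ = m + 1/2`, `H` the cuts `x₂ = m + 1/2`; `side` assigns the points to the
two parts and is constant on every piece (points of the square on the same side of every cut);
every colour has as many points of the square in one part as in the other. -/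
def FairSplit {k : ℕ} (t : ℕ) (c : ℤ × ℤ → Fin k) (a b : ℤ) (n : ℕ) : Prop :=
  ∃ (V H : Finset ℤ) (side : ℤ × ℤ → Bool), V.card + H.card ≤ t ∧
    (∀ x ∈ square a b n, ∀ y ∈ square a b n, (∀ m ∈ V, (x.1 ≤ m ↔ y.1 ≤ m)) →
      (∀ m ∈ H, (x.2 ≤ m ↔ y.2 ≤ m)) → side x = side y) ∧
    ∀ j : Fin k, ((square a b n).filter (fun x => c x = j ∧ side x = true)).card =
      ((square a b n).filter (fun x => c x = j ∧ side x = false)).card

end Pool.Agent.H6.Neck
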