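import Mathlib

set_option autoImplicit false

namespace Pool.Agent.H6.Nuclear

open SimpleGraph Finset

variable {V : Type}

def Con (G : SimpleGraph V) (S : Set V) (x y : V) : Prop :=
  ∃ p : G.Walk x y, ∀ z ∈ p.support, z ∈ S

lemma Con.symm {G : SimpleGraph V} {S : Set V} {x y : V} (h : Con G S x y) : Con G S y x := by
  obtain ⟨p, hp⟩ := h
  exact ⟨p.reverse, fun z hz => hp z (by simpa using hz)⟩

lemma Con.trans {G : SimpleGraph V} {S : Set V} {x y z : V} (h : Con G S x y) (h' : Con G S y z) :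
    Con G S x z := by
  obtain ⟨p, hp⟩ := h
  obtain ⟨q, hq⟩ := h'
  refine ⟨p.append q, fun w hw => ?_⟩
  rcases (Walk.mem_support_append_iff p q).1 hw with h | h
  · exact hp w h
  · exact hq w h

lemma Con.mono {G : SimpleGraph V} {S T : Set V} {x y : V} (h : Con G S x y) (hST : S ⊆ T) :
    Con G T x y := by
  obtain ⟨p, hp⟩ := h
  exact ⟨p, fun z hz => hST (hp z hz)⟩

lemma pre_iff (G : SimpleGraph V) (S : Set V) :
    (G.induce S).Preconnected ↔ ∀ x ∈ S, ∀ y ∈ S, Con G S x y := by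
  constructor
  · intro h x hx y hy
    obtain ⟨p⟩ := h ⟨x, hx⟩ ⟨y, hy⟩
    refine ⟨p.map (Embedding.induce S).toHom, fun z hz => ?_⟩
    have e := Walk.support_map (Embedding.induce S).toHom p
    obtain ⟨a, -, rfl⟩ := List.mem_map.1 (e ▸ hz)
    exact a.2
  · rintro h ⟨x, hx⟩ ⟨y, hy⟩
    obtain ⟨p, hp⟩ := h x hx y hy
    exact ⟨p.induce S hp⟩

def IsBlock (G : SimpleGraph V) (B : Set V) : Prop :=
  (G.induce B).Connected ∧ (∀ v ∈ B, (G.induce (B \ {v})).Preconnected) ∧
    ∀ B' : Set V, B ⊆ B' → (G.induce B').Connected →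
      (∀ v ∈ B', (G.induce (B' \ {v})).Preconnected) → B' = B

lemma ear [DecidableEq V] {G : SimpleGraph V} {B : Set V} (hB : IsBlock G B) {c c' : V}
    (hc : c ∈ B) (hc' : c' ∈ B) (p : G.Walk c c') (hp : p.IsPath) :
    ∀ z ∈ p.support, z ∈ B := by
  obtain ⟨h1, h2, h3⟩ := hB
  have hB1 := (pre_iff G B).1 h1.preconnected
  set B' : Set V := B ∪ {z | z ∈ p.support} with hB'
  have key : ∀ v x, x ∈ B' → x ≠ v → ∃ b ∈ B, b ≠ v ∧ Con G (B' \ {v}) x b := by
    intro v x hx hxv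
    rcases hx with hx | hx
    · exact ⟨x, hx, hxv, Walk.nil, by simp [hB', hx, hxv]⟩
    · have hx : x ∈ p.support := hx
      have hnd := hp.support_nodup
      rw [← p.take_spec hx, Walk.support_append, List.nodup_append] at hnd
      by_cases hv : v ∈ (p.takeUntil x hx).support
      · have hv2 : v ∉ (p.dropUntil x hx).support := by
          intro h
          rw [← Walk.cons_tail_support] at h
          rcases List.mem_cons.1 h with h | h
          · exact hxv h.symm
          · exact hnd.2.2 v hv v h rfl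
        refine ⟨c', hc', fun h => hv2 (h ▸ Walk.end_mem_support _), p.dropUntil x hx, ?_⟩
        intro z hz
        exact ⟨Or.inr (p.support_dropUntil_subset_support hx hz), fun h => hv2 (h ▸ hz)⟩
      · refine ⟨c, hc, fun h => hv (h ▸ Walk.start_mem_support _), Con.symm ⟨p.takeUntil x hx, ?_⟩⟩
        intro z hz
        exact ⟨Or.inr (p.support_takeUntil_subset_support hx hz), fun h => hv (h ▸ hz)⟩
  have hcon : ∀ x ∈ B', Con G B' x c := by
    intro x hx
    rcases hx with hx | hx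
    · exact (hB1 x hx c hc).mono Set.subset_union_left
    · have hx : x ∈ p.support := hx
      exact Con.symm ⟨p.takeUntil x hx, fun z hz =>
        Or.inr (p.support_takeUntil_subset_support hx hz)⟩
  have := h3 B' Set.subset_union_left ?_ ?_
  · intro z hz
    rw [← this]; exact Or.inr hz
  · have : Nonempty B' := ⟨⟨c, Or.inl hc⟩⟩
    exact ⟨(pre_iff G B').2 fun x hx y hy => (hcon x hx).trans (hcon y hy).symm⟩
  · intro v _
    refine (pre_iff G _).2 fun x hx y hy => ?_
    obtain ⟨b, hb, hbv, h⟩ := key v x hx.1 hx.2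
    obtain ⟨b', hb', hbv', h'⟩ := key v y hy.1 hy.2
    refine h.trans (Con.trans ?_ h'.symm)
    by_cases hv : v ∈ B
    · exact ((pre_iff G _).1 (h2 v hv) b ⟨hb, hbv⟩ b' ⟨hb', hbv'⟩).mono
        fun z hz => ⟨Or.inl hz.1, hz.2⟩
    · exact (hB1 b hb b' hb').mono fun z hz => ⟨Or.inl hz, fun h => hv (h ▸ hz)⟩

def Out (G : SimpleGraph V) (B : Set V) : SimpleGraph V where
  Adj x y := G.Adj x y ∧ (x ∉ B ∨ y ∉ B)
  symm := ⟨fun _ _ h => ⟨h.1.symm, h.2.symm⟩⟩
  loopless := ⟨fun _ h => h.1.ne rfl⟩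

lemma att_ex [DecidableEq V] {G : SimpleGraph V} (hG : G.Connected) {B : Set V}
    (hB : IsBlock G B) :
    ∃ att : V → V, (∀ x, att x ∈ B) ∧ (∀ x ∈ B, att x = x) ∧
      (∀ x y, G.Adj x y → x ∉ B → att x = att y) ∧
      (∀ x, x ∉ B → ∃ w, w ∉ B ∧ G.Adj w (att x)) := by
  have hle : Out G B ≤ G := fun _ _ h => h.1
  have uniq : ∀ c ∈ B, ∀ c' ∈ B, (Out G B).Reachable c c' → c = c' := by
    intro c hc c' hc' ⟨q⟩
    have h := ear hB hc hc' (q.bypass.mapLe hle) (by simpa using q.bypass_isPath)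
    generalize q.bypass = r at h
    cases r with
    | nil => rfl
    | cons hadj r =>
      exfalso
      rcases hadj.2 with h' | h'
      · exact h' hc
      · exact h' (h _ (by simp))
  obtain ⟨⟨b, hb⟩⟩ := hB.1.nonempty
  have ex : ∀ x, ∃ c ∈ B, (Out G B).Reachable x c := by
    intro x
    obtain ⟨p⟩ := hG.preconnected x b
    induction p with
    | nil => exact ⟨_, hb, Reachable.refl _⟩
    | @cons u v w h p ih =>
      by_cases hu : u ∈ B
      · exact ⟨u, hu, Reachable.refl _⟩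
      · obtain ⟨c, hc, hr⟩ := ih hb
        exact ⟨c, hc, (Adj.reachable (G := Out G B) ⟨h, Or.inl hu⟩).trans hr⟩
  choose att h1 h2 using ex
  refine ⟨att, h1, fun x hx => (uniq x hx _ (h1 x) (h2 x)).symm, fun x y h hx => ?_, ?_⟩
  · exact uniq _ (h1 x) _ (h1 y)
      ((h2 x).symm.trans ((Adj.reachable (G := Out G B) ⟨h, Or.inl hx⟩).trans (h2 y)))
  · intro x hx
    obtain ⟨q⟩ := (h2 x).symm
    have h3 := h1 x
    generalize att x = c at q h3
    cases q with
    | nil => exact absurd h3 hx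
    | cons hadj r =>
      rcases hadj.2 with h' | h'
      · exact absurd h3 h'
      · exact ⟨_, h', hadj.1.symm⟩

def Dom (H : SimpleGraph V) (D : Finset V) (v : V) : Prop := v ∈ D ∨ ∃ u ∈ D, H.Adj v u

lemma Dom.mono {H : SimpleGraph V} {D E : Finset V} {v : V} (h : Dom H D v) (hDE : D ⊆ E) :
    Dom H E v := by
  rcases h with h | ⟨u, hu, h⟩
  · exact Or.inl (hDE h)
  · exact Or.inr ⟨u, hDE hu, h⟩

noncomputable def gam (H : SimpleGraph V) (S : Set V) : ℕ :=
  sInf {n : ℕ | ∃ D : Finset V, (↑D : Set V) ⊆ S ∧ D.card = n ∧ ∀ v ∈ S, Dom H D v}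

lemma gam_le {H : SimpleGraph V} {S : Set V} (D : Finset V) (h1 : (↑D : Set V) ⊆ S)
    (h2 : ∀ v ∈ S, Dom H D v) : gam H S ≤ D.card :=
  Nat.sInf_le ⟨D, h1, rfl, h2⟩

lemma gam_ex [Fintype V] (H : SimpleGraph V) (S : Set V) :
    ∃ D : Finset V, (↑D : Set V) ⊆ S ∧ D.card = gam H S ∧ ∀ v ∈ S, Dom H D v := by
  classical
  have : {n : ℕ | ∃ D : Finset V, (↑D : Set V) ⊆ S ∧ D.card = n ∧
      ∀ v ∈ S, Dom H D v}.Nonempty :=
    ⟨_, S.toFinset, by simp, rfl, fun v hv => Or.inl (by simpa using hv)⟩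
  exact Nat.sInf_mem this

lemma crit [Fintype V] {G : SimpleGraph V} {S : Set V} {u v : V} (hu : u ∈ S)
    (h : gam (G ⊔ SimpleGraph.edge u v) S = gam G S - 1) :
    ∃ D : Finset V, (↑D : Set V) ⊆ S ∧ D.card + 1 = gam G S ∧
      ∀ x ∈ S, Dom G D x ∨ (x = u ∧ v ∈ D) ∨ (x = v ∧ u ∈ D) := by
  obtain ⟨D, h1, h2, h3⟩ := gam_ex (G ⊔ SimpleGraph.edge u v) S
  obtain ⟨E, -, e2, e3⟩ := gam_ex G S
  have : 0 < E.card := by
    rcases e3 u hu with h | ⟨w, hw, -⟩
    · exact card_pos.2 ⟨_, h⟩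
    · exact card_pos.2 ⟨_, hw⟩
  refine ⟨D, h1, by omega, fun x hx => ?_⟩
  rcases h3 x hx with h | ⟨w, hw, h | h⟩
  · exact Or.inl (Or.inl h)
  · exact Or.inl (Or.inr ⟨w, hw, h⟩)
  · rw [edge_adj] at h
    rcases h.1 with ⟨rfl, rfl⟩ | ⟨rfl, rfl⟩
    · exact Or.inr (Or.inl ⟨rfl, hw⟩)
    · exact Or.inr (Or.inr ⟨rfl, hw⟩)

section main

variable [Fintype V] [DecidableEq V] {G : SimpleGraph V} {g : ℕ}

lemma avoid (hmin : ∀ D : Finset V, (∀ x, Dom G D x) → g ≤ D.card)
    (hex : ∃ D : Finset V, D.card = g ∧ ∀ x, Dom G D x)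
    (hcr : ∀ u v, u ≠ v → ¬ G.Adj u v → ∃ D : Finset V, D.card + 1 = g ∧
      ∀ x, Dom G D x ∨ (x = u ∧ v ∈ D) ∨ (x = v ∧ u ∈ D))
    {w c : V} (hwc : G.Adj w c) :
    ∃ D : Finset V, w ∉ D ∧ D.card ≤ g ∧ ∀ x, Dom G D x := by
  by_cases hcl : ∀ x y, G.Adj w x → G.Adj w y → x ≠ y → G.Adj x y
  · obtain ⟨D, h1, h2⟩ := hex
    by_cases hw : w ∈ D
    · refine ⟨insert c (D.erase w), by simp [hwc.ne], ?_, fun x => ?_⟩
      · have := card_insert_le c (D.erase w)
        have := card_erase_add_one hw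
        omega
      · by_cases hxc : x = c
        · exact Or.inl (by simp [hxc])
        by_cases hxw : x = w
        · exact Or.inr ⟨c, by simp, hxw ▸ hwc⟩
        rcases h2 x with h | ⟨u, hu, h⟩
        · exact Or.inl (by simp [h, hxw])
        · by_cases huw : u = w
          · subst huw
            exact Or.inr ⟨c, by simp, hcl x c h.symm hwc hxc⟩
          · exact Or.inr ⟨u, by simp [hu, huw], h⟩
    · exact ⟨D, hw, h1.le, h2⟩
  · push Not at hcl
    obtain ⟨x, y, hx, hy, hxy, hn⟩ := hcl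
    obtain ⟨D, h1, h2⟩ := hcr x y hxy hn
    have hwD : w ∉ D := by
      intro hw
      have := hmin D fun z => by
        rcases h2 z with h | ⟨rfl, -⟩ | ⟨rfl, -⟩
        · exact h
        · exact Or.inr ⟨w, hw, hx.symm⟩
        · exact Or.inr ⟨w, hw, hy.symm⟩
      omega
    by_cases hyD : y ∈ D
    · refine ⟨insert x D, by simp [hwD, hx.ne], by have := card_insert_le x D; omega, fun z => ?_⟩
      rcases h2 z with h | ⟨rfl, -⟩ | ⟨rfl, -⟩
      · exact h.mono (subset_insert _ _)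
      · exact Or.inl (by simp)
      · exact Or.inl (by simp [hyD])
    · refine ⟨insert y D, by simp [hwD, hy.ne], by have := card_insert_le y D; omega, fun z => ?_⟩
      rcases h2 z with h | ⟨rfl, h⟩ | ⟨rfl, -⟩
      · exact h.mono (subset_insert _ _)
      · exact absurd h hyD
      · exact Or.inl (by simp)

lemma fiber (hmin : ∀ D : Finset V, (∀ x, Dom G D x) → g ≤ D.card)
    (hcr : ∀ u v, u ≠ v → ¬ G.Adj u v → ∃ D : Finset V, D.card + 1 = g ∧
      ∀ x, Dom G D x ∨ (x = u ∧ v ∈ D) ∨ (x = v ∧ u ∈ D))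
    {B : Set V} {att : V → V} (a2 : ∀ x ∈ B, att x = x)
    (a3 : ∀ x y, G.Adj x y → x ∉ B → att x = att y)
    {c w h : V} (hc : c ∈ B) (hw : w ∉ B) (hwc : G.Adj w c) (hh : h ∈ B) (hhc : G.Adj h c)
    (hnuc : ∃ D : Finset V, w ∉ D ∧ D.card < g ∧ ∀ x, x ≠ w → Dom G D x) :
    ∃ A : Finset V, c ∈ A ∧ (∀ x, x ∉ B → att x = c → Dom G A x) ∧
      ∀ D : Finset V, (∀ x, x ∉ B → att x = c → Dom G D x) →
        A.card ≤ (D.filter (fun x => att x = c)).card := by
  classical
  have hcc : att c = c := a2 c hc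
  have hwa : att w = c := (a3 w c hwc hw).trans hcc
  have res : ∀ (D : Finset V) x, x ∉ B → att x = c → Dom G D x →
      Dom G (D.filter (fun x => att x = c)) x := by
    intro D x hx hxc hd
    rcases hd with hd | ⟨u, hu, hd⟩
    · exact Or.inl (by simp [hd, hxc])
    · exact Or.inr ⟨u, by simp [hu, ← a3 x u hd hx, hxc], hd⟩
  have res2 : ∀ (D : Finset V) x, c ∉ D → att x ≠ c → Dom G D x →
      Dom G (D.filter (fun x => ¬ att x = c)) x := by
    intro D x hcD hxc hd
    rcases hd with hd | ⟨u, hu, hd⟩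
    · exact Or.inl (by simp [hd, hxc])
    · refine Or.inr ⟨u, mem_filter.2 ⟨hu, fun huc => ?_⟩, hd⟩
      by_cases huB : u ∈ B
      · rw [a2 u huB] at huc; exact hcD (huc ▸ hu)
      · exact hxc ((a3 u x hd.symm huB).symm.trans huc)
  obtain ⟨M, hM, hMmin⟩ := exists_min_image
    (univ.filter (fun S : Finset V => ∀ x, x ∉ B → att x = c → Dom G S x)) card
    ⟨univ, mem_filter.2 ⟨mem_univ _, fun x _ _ => Or.inl (mem_univ x)⟩⟩
  have hM : ∀ x, x ∉ B → att x = c → Dom G M x := (mem_filter.1 hM).2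
  have hMmin : ∀ S : Finset V, (∀ x, x ∉ B → att x = c → Dom G S x) → M.card ≤ S.card :=
    fun S hS => hMmin S (mem_filter.2 ⟨mem_univ _, hS⟩)
  by_contra hcon
  have star : ∀ S : Finset V, (∀ x, x ∉ B → att x = c → x ≠ w → Dom G S x) →
      M.card ≤ S.card := by
    intro S hS
    by_contra hlt
    apply hcon
    refine ⟨insert c S, by simp, fun x hx hxc => ?_, fun D hD => ?_⟩
    · by_cases hxw : x = w
      · exact Or.inr ⟨c, by simp, hxw ▸ hwc⟩
      · exact (hS x hx hxc hxw).mono (subset_insert _ _)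
    · have := hMmin _ fun x hx hxc => res D x hx hxc (hD x hx hxc)
      have := card_insert_le c S
      omega
  have glue : ∀ S T : Finset V, (∀ x, x ∉ B → att x = c → Dom G S x) →
      (∀ x, att x ≠ c → Dom G T x) → (Dom G S c ∨ Dom G T c) → g ≤ S.card + T.card := by
    intro S T hS hT hc'
    refine (hmin (S ∪ T) fun x => ?_).trans (card_union_le _ _)
    by_cases hxc : att x = c
    · by_cases hx : x ∈ B
      · rw [a2 x hx] at hxc
        subst hxc
        rcases hc' with h | h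
        · exact h.mono subset_union_left
        · exact h.mono subset_union_right
      · exact (hS x hx hxc).mono subset_union_left
    · exact (hT x hxc).mono subset_union_right
  obtain ⟨D1, d1, d2, d3⟩ := hnuc
  have hc1 : c ∉ D1 := by
    intro h1
    have := hmin D1 fun x => by
      by_cases hxw : x = w
      · exact Or.inr ⟨c, h1, hxw ▸ hwc⟩
      · exact d3 x hxw
    omega
  have s1 := star _ fun x hx hxc hxw => res D1 x hx hxc (d3 x hxw)
  have t1 : ∀ x, att x ≠ c → Dom G (D1.filter (fun x => ¬ att x = c)) x := fun x hx =>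
    res2 D1 x hc1 hx (d3 x fun e => hx (e ▸ hwa))
  have c1 := card_filter_add_card_filter_not (s := D1) (fun x => att x = c)
  have hha : att h ≠ c := by rw [a2 h hh]; exact hhc.ne
  have hwh : w ≠ h := fun e => hw (e ▸ hh)
  obtain ⟨D2, e1, e2⟩ := hcr w h hwh fun hadj => hha ((a3 w h hadj hw).symm.trans hwa)
  have c2 := card_filter_add_card_filter_not (s := D2) (fun x => att x = c)
  have hc2 : c ∉ D2 := by
    intro h1
    have := hmin D2 fun x => by
      rcases e2 x with h | ⟨rfl, -⟩ | ⟨rfl, -⟩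
      · exact h
      · exact Or.inr ⟨c, h1, hwc⟩
      · exact Or.inr ⟨c, h1, hhc⟩
    omega
  by_cases hhD : h ∈ D2
  · have e3 : ∀ x, x ≠ w → Dom G D2 x := by
      intro x hx
      rcases e2 x with h | ⟨rfl, -⟩ | ⟨rfl, -⟩
      · exact h
      · exact absurd rfl hx
      · exact Or.inl hhD
    have s2 := star _ fun x hx hxc hxw => res D2 x hx hxc (e3 x hxw)
    have := glue M (D2.filter (fun x => ¬ att x = c)) hM
      (fun x hx => res2 D2 x hc2 hx (e3 x fun e => hx (e ▸ hwa)))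
      (Or.inr (Or.inr ⟨h, by simp [hhD, hha], hhc.symm⟩))
    omega
  · have e3 : ∀ x, x ≠ h → Dom G D2 x := by
      intro x hx
      rcases e2 x with h | ⟨rfl, h⟩ | ⟨rfl, -⟩
      · exact h
      · exact absurd h hhD
      · exact absurd rfl hx
    have hwD : w ∈ D2 := by
      by_contra hwD
      have := hmin D2 fun x => by
        rcases e2 x with h | ⟨rfl, h⟩ | ⟨rfl, h⟩
        · exact h
        · exact absurd h hhD
        · exact absurd h hwD
      omega
    have s2 := glue (D2.filter (fun x => att x = c)) _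
      (fun x hx hxc => res D2 x hx hxc (e3 x fun e => hx (e ▸ hh))) t1
      (Or.inl (Or.inr ⟨w, by simp [hwD, hwa], hwc.symm⟩))
    have := glue M (insert c (D2.filter (fun x => ¬ att x = c))) hM
      (fun x hx => by
        by_cases hxh : x = h
        · exact Or.inr ⟨c, by simp, hxh ▸ hhc⟩
        · exact (res2 D2 x hc2 hx (e3 x hxh)).mono (subset_insert _ _))
      (Or.inr (Or.inl (by simp)))
    have := card_insert_le c (D2.filter (fun x => ¬ att x = c))
    omega

theorem main (hG : G.Connected)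
    (hcrit : ∀ u v : V, u ≠ v → ¬ G.Adj u v →
      gam (G ⊔ SimpleGraph.edge u v) Set.univ = gam G Set.univ - 1)
    (hcut : ∃ c : V, ¬ (G.induce ({c}ᶜ : Set V)).Preconnected) {B : Set V} (hB : IsBlock G B)
    (hnuc : {v : V | gam G ({v}ᶜ : Set V) = gam G Set.univ} ⊆ B)
    (hBc : ∀ u ∈ B, ∀ v ∈ B, u ≠ v → ¬ G.Adj u v →
      gam (G ⊔ SimpleGraph.edge u v) B = gam G B - 1) :
    ∀ u ∈ B, ∀ v ∈ B, u ≠ v → G.Adj u v := by
  classical
  intro u0 hu0 v0 hv0 huv0
  by_contra hn0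
  set g := gam G Set.univ with hg
  have hmin : ∀ D : Finset V, (∀ x, Dom G D x) → g ≤ D.card := fun D hD =>
    gam_le D (by simp) fun x _ => hD x
  have hex : ∃ D : Finset V, D.card = g ∧ ∀ x, Dom G D x := by
    obtain ⟨D, -, h2, h3⟩ := gam_ex G Set.univ
    exact ⟨D, h2, fun x => h3 x trivial⟩
  have hcr : ∀ u v, u ≠ v → ¬ G.Adj u v → ∃ D : Finset V, D.card + 1 = g ∧
      ∀ x, Dom G D x ∨ (x = u ∧ v ∈ D) ∨ (x = v ∧ u ∈ D) := by
    intro u v h1 h2
    obtain ⟨D, -, h3, h4⟩ := crit (Set.mem_univ u) (hcrit u v h1 h2)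
    exact ⟨D, h3, fun x => h4 x trivial⟩
  obtain ⟨att, a1, a2, a3, a4⟩ := att_ex hG hB
  set C : Finset V := univ.filter (fun c => c ∈ B ∧ ∃ w, w ∉ B ∧ G.Adj w c) with hC
  have mC : ∀ c, c ∈ C ↔ c ∈ B ∧ ∃ w, w ∉ B ∧ G.Adj w c := by simp [hC]
  have attC : ∀ x, x ∉ B → att x ∈ C := fun x hx => (mC _).2 ⟨a1 x, a4 x hx⟩
  have fib : ∀ c ∈ C, ∃ A : Finset V, c ∈ A ∧ (∀ x, x ∉ B → att x = c → Dom G A x) ∧
      ∀ D : Finset V, (∀ x, x ∉ B → att x = c → Dom G D x) →
        A.card ≤ (D.filter (fun x => att x = c)).card := by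
    intro c hc
    obtain ⟨hcB, w, hw, hwc⟩ := (mC c).1 hc
    obtain ⟨b, hb, hbc⟩ : ∃ b ∈ B, c ≠ b := by
      by_cases h : c = u0
      · exact ⟨v0, hv0, h ▸ huv0⟩
      · exact ⟨u0, hu0, h⟩
    obtain ⟨p, hp⟩ := (pre_iff G B).1 hB.1.preconnected c hcB b hb
    obtain ⟨h, hh, hhc⟩ : ∃ h ∈ B, G.Adj h c := by
      cases p with
      | nil => exact absurd rfl hbc
      | cons hadj r => exact ⟨_, hp _ (by simp), hadj.symm⟩
    refine fiber hmin hcr a2 a3 hcB hw hwc hh hhc ?_
    obtain ⟨D, d1, d2, d3⟩ := avoid hmin hex hcr hwc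
    have l1 : gam G ({w}ᶜ : Set V) ≤ D.card :=
      gam_le D (fun x hx e => d1 (e ▸ hx)) fun x _ => d3 x
    have l2 : gam G ({w}ᶜ : Set V) ≠ g := fun e => hw (hnuc e)
    obtain ⟨E, e1, e2, e3⟩ := gam_ex G ({w}ᶜ : Set V)
    exact ⟨E, fun h => e1 h rfl, by omega, fun x hx => e3 x hx⟩
  choose! Af f1 f2 f3 using fib
  set A : Finset V := C.biUnion Af with hA
  let T : Finset V → Finset V := fun D => D.filter (fun x => ¬ att x ∈ C)
  let R : V → Prop := fun x => x ∈ B ∧ x ∉ C ∧ ∀ c ∈ C, ¬ G.Adj x c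
  have norm : ∀ D : Finset V, (∀ x, x ∉ B → Dom G D x) → A.card + (T D).card ≤ D.card := by
    intro D hD
    have c1 := card_filter_add_card_filter_not (s := D) (fun x => att x ∈ C)
    have c2 := card_eq_sum_card_fiberwise (f := att) (s := D.filter (fun x => att x ∈ C)) (t := C)
      (fun x hx => (mem_filter.1 hx).2)
    have c3 : A.card ≤ ∑ c ∈ C, (Af c).card := card_biUnion_le
    have c4 : ∑ c ∈ C, (Af c).card ≤
        ∑ c ∈ C, ((D.filter (fun x => att x ∈ C)).filter (fun x => att x = c)).card := by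
      refine sum_le_sum fun c hc => (f3 c hc D fun x hx _ => hD x hx).trans (card_le_card ?_)
      intro x hx
      simp only [mem_filter] at hx ⊢
      exact ⟨⟨hx.1, hx.2 ▸ hc⟩, hx.2⟩
    simp only [T]
    omega
  have low : ∀ S : Finset V, (∀ x, R x → Dom G S x) → g ≤ A.card + S.card := by
    intro S hS
    refine (hmin (A ∪ S) fun x => ?_).trans (card_union_le _ _)
    have sub : ∀ c ∈ C, Af c ⊆ A ∪ S := fun c hc =>
      (subset_biUnion_of_mem Af hc).trans subset_union_left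
    by_cases hx : R x
    · exact (hS x hx).mono subset_union_right
    by_cases hxB : x ∈ B
    · by_cases hxC : x ∈ C
      · exact Or.inl (sub x hxC (f1 x hxC))
      · simp only [R, hxB, hxC, not_false_eq_true, true_and, not_forall, not_not] at hx
        obtain ⟨c, hc, h⟩ := hx
        exact Or.inr ⟨c, sub c hc (f1 c hc), h⟩
    · exact (f2 _ (attC x hxB) x hxB rfl).mono (sub _ (attC x hxB))
  have rdom : ∀ (D : Finset V) x, R x → Dom G D x → Dom G (T D) x := by
    intro D x hx hd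
    rcases hd with hd | ⟨u, hu, hd⟩
    · exact Or.inl (mem_filter.2 ⟨hd, by rw [a2 x hx.1]; exact hx.2.1⟩)
    · have huB : u ∈ B := by
        by_contra h
        exact hx.2.1 ((mC x).2 ⟨hx.1, u, h, hd.symm⟩)
      exact Or.inr ⟨u, mem_filter.2 ⟨hu, by rw [a2 u huB]; exact fun h => hx.2.2 u h hd⟩, hd⟩
  have full : ∀ D : Finset V, (∀ x, (x ∉ B ∨ R x) → Dom G D x) → g ≤ D.card := fun D hD =>
    (low (T D) fun x hx => rdom D x hx (hD x (Or.inr hx))).trans
      (norm D fun x hx => hD x (Or.inl hx))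
  have clique : ∀ u ∈ B, ∀ v ∈ B, ¬ R u → ¬ R v → u ≠ v → G.Adj u v := by
    intro u hu v hv hu' hv' huv
    by_contra hn
    obtain ⟨D, d1, d2⟩ := hcr u v huv hn
    have := full D fun x hx => by
      rcases d2 x with h | ⟨rfl, -⟩ | ⟨rfl, -⟩
      · exact h
      · exact absurd hx (by simp [hu, hu'])
      · exact absurd hx (by simp [hv, hv'])
    omega
  obtain ⟨r, hr⟩ : ∃ r, R r := by
    by_contra h
    push Not at h
    exact hn0 (clique u0 hu0 v0 hv0 (h _) (h _) huv0)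
  obtain ⟨l, hl⟩ : ∃ l, l ∉ B := by
    by_contra h
    push Not at h
    obtain ⟨c, hc⟩ := hcut
    have e : B \ {c} = ({c}ᶜ : Set V) := by ext x; simp [h x]
    exact hc (e ▸ hB.2.1 c (h c))
  have hc0 := attC l hl
  obtain ⟨p⟩ := hG.preconnected r l
  obtain ⟨d, -, d1, d2⟩ := p.exists_boundary_dart {x | R x} hr (fun h => hl h.1)
  have d1 : R d.fst := d1
  have d2 : ¬ R d.snd := d2
  have hadj := d.adj
  generalize d.fst = r' at d1 hadj
  generalize d.snd = v at d2 hadj
  have hvB : v ∈ B := by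
    by_contra h
    exact d1.2.1 ((mC _).2 ⟨d1.1, v, h, hadj.symm⟩)
  have hvC : v ∉ C := fun h => d1.2.2 v h hadj
  obtain ⟨D, e1, e2⟩ := hcr l v (fun e => hl (e ▸ hvB)) fun h => hvC ((mC v).2 ⟨hvB, l, hl, h⟩)
  have hvD : v ∈ D := by
    by_contra hvD
    have := full D fun x hx => by
      rcases e2 x with h | ⟨rfl, h⟩ | ⟨rfl, -⟩
      · exact h
      · exact absurd h hvD
      · exact absurd hx (by simp [hvB, d2])
    omega
  have e3 : ∀ x, x ≠ l → Dom G D x := by
    intro x hx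
    rcases e2 x with h | ⟨rfl, -⟩ | ⟨rfl, -⟩
    · exact h
    · exact absurd rfl hx
    · exact Or.inl hvD
  have n1 := norm (insert l D) fun x _ => by
    by_cases hx : x = l
    · exact Or.inl (by simp [hx])
    · exact (e3 x hx).mono (subset_insert _ _)
  have n2 : (T D).card ≤ (T (insert l D)).card :=
    card_le_card (filter_subset_filter _ (subset_insert _ _))
  have n3 := card_insert_le l D
  have hvT : v ∈ T D := mem_filter.2 ⟨hvD, by rw [a2 v hvB]; exact hvC⟩
  have n4 : gam G B ≤ (T D).card := by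
    refine gam_le _ (fun x hx => ?_) fun x hx => ?_
    · by_contra h
      exact (mem_filter.1 hx).2 (attC x h)
    · by_cases hxR : R x
      · exact rdom D x hxR (e3 x fun e => hl (e ▸ hx))
      · by_cases hxv : x = v
        · exact Or.inl (hxv ▸ hvT)
        · exact Or.inr ⟨v, hvT, clique x hx v hvB hxR d2 hxv⟩
  obtain ⟨E, -, k2, k3⟩ := crit hr.1
    (hBc r hr.1 (att l) (a1 l) (fun e => hr.2.1 (e ▸ hc0)) (hr.2.2 _ hc0))
  by_cases hcE : att l ∈ E
  · have m1 := low (insert r (T E)) fun x hx => by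
      rcases k3 x hx.1 with h | ⟨rfl, -⟩ | ⟨rfl, -⟩
      · exact (rdom E x hx h).mono (subset_insert _ _)
      · exact Or.inl (by simp)
      · exact absurd hc0 hx.2.1
    have m2 := card_insert_le r (T E)
    have m3 : (T E).card < E.card :=
      card_lt_card ⟨filter_subset _ _, fun h =>
        (mem_filter.1 (h hcE)).2 (by rw [a2 _ (a1 l)]; exact hc0)⟩
    omega
  · have m1 := low (T E) fun x hx => by
      rcases k3 x hx.1 with h | ⟨rfl, h⟩ | ⟨rfl, -⟩
      · exact rdom E x hx h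
      · exact absurd h hcE
      · exact absurd hc0 hx.2.1
    have m3 : (T E).card ≤ E.card := card_le_card (filter_subset _ _)
    omega

end main

end Pool.Agent.H6.Nuclear
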