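import Mathlib

namespace Pool.Agent.H6.PPL

open Finset

def Pal (u : ℕ → Bool) (m n : ℕ) : Prop := ∀ i j, m ≤ i → m ≤ j → i + j + 1 = m + n → u i = u j

def PD (u : ℕ → Bool) : Prop := ∀ n : ℕ, u (2 * n) = false ∧ u (2 * n + 1) = !(u n)

variable {u : ℕ → Bool}

lemma PD.even (hu : PD u) {i : ℕ} (h : i % 2 = 0) : u i = false := by
  rw [show i = 2 * (i / 2) by omega]; exact (hu _).1

lemma PD.odd (hu : PD u) {i : ℕ} (h : i % 2 = 1) : u i = !(u (i / 2)) := by
  conv_lhs => rw [show i = 2 * (i / 2) + 1 by omega]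
  exact (hu _).2

lemma pal_up (hu : PD u) {m n : ℕ} (h : (m + n) % 2 = 1) (hp : Pal u (m / 2) (n / 2)) :
    Pal u m n := by
  intro i j h1 h2 h3
  rcases Nat.mod_two_eq_zero_or_one i with h4 | h4
  · rw [hu.even h4, hu.even (by omega)]
  · rw [hu.odd h4, hu.odd (by omega : j % 2 = 1), hp (i / 2) (j / 2) (by omega) (by omega) (by omega)]

lemma pal_down (hu : PD u) {m n : ℕ} (h : (m + n) % 2 = 1) (hp : Pal u m n) :
    Pal u (m / 2) (n / 2) := by
  intro i j h1 h2 h3
  have := hp (2 * i + 1) (2 * j + 1) (by omega) (by omega) (by omega)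
  rw [(hu i).2, (hu j).2] at this
  simpa using this

lemma pal_even (hu : PD u) {m n : ℕ} (h : (m + n) % 2 = 0) (hmn : m < n) (hp : Pal u m n) :
    n = m + 2 ∧ u (m / 2) = true := by
  have key : ∀ y, m ≤ 2 * y + 1 → 2 * y + 1 < n → u y = true := by
    intro y h1 h2
    have := hp (2 * y + 1) (m + n - 1 - (2 * y + 1)) h1 (by omega) (by omega)
    rw [(hu y).2, hu.even (i := m + n - 1 - (2 * y + 1)) (by omega)] at this
    simpa using this
  refine ⟨?_, key _ (by omega) (by omega)⟩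
  by_contra h1
  have h2 := key (m / 2) (by omega) (by omega)
  have h3 := key (m / 2 + 1) (by omega) (by omega)
  rcases Nat.mod_two_eq_zero_or_one (m / 2) with h4 | h4
  · rw [hu.even h4] at h2; simp at h2
  · rw [hu.even (by omega)] at h3; simp at h3

lemma pal_lift (hu : PD u) {m n : ℕ} (hp : Pal u m n) (t : ℕ) : ∀ r s, r + s + 1 = 2 ^ t →
    Pal u (2 ^ t * m + s) (2 ^ t * n + r) := by
  induction t with
  | zero =>
    intro r s h
    obtain rfl : r = 0 := by omega
    obtain rfl : s = 0 := by omega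
    simpa using hp
  | succ t ih =>
    intro r s h
    rw [pow_succ] at h
    have e1 : 2 ^ (t + 1) * m = 2 * (2 ^ t * m) := by ring
    have e2 : 2 ^ (t + 1) * n = 2 * (2 ^ t * n) := by ring
    refine pal_up hu (by omega) ?_
    have := ih (r / 2) (s / 2) (by omega)
    rwa [show (2 ^ (t + 1) * m + s) / 2 = 2 ^ t * m + s / 2 by omega,
      show (2 ^ (t + 1) * n + r) / 2 = 2 ^ t * n + r / 2 by omega]

lemma pal_refl (m : ℕ) : Pal u m m := fun i j h1 h2 h3 => by omega

lemma u_val (hu : PD u) (k H : ℕ) : ∀ y, y + 1 = 2 ^ (2 * k) * (2 * H + 1) → u y = false := by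
  induction k with
  | zero => intro y h; exact hu.even (by omega)
  | succ k ih =>
    intro y h
    have e : 2 ^ (2 * (k + 1)) * (2 * H + 1) = 4 * (2 ^ (2 * k) * (2 * H + 1)) := by ring
    rw [e] at h
    rw [hu.odd (by omega), hu.odd (by omega), ih _ (by omega)]
    rfl

lemma pal_two (hu : PD u) (k H m : ℕ) (h : m + 1 = 2 ^ (2 * (k + 1)) * (2 * H + 1)) :
    Pal u m (m + 2) := by
  have e : 2 ^ (2 * (k + 1)) * (2 * H + 1) = 4 * (2 ^ (2 * k) * (2 * H + 1)) := by ring
  have h1 := u_val hu (k + 1) H m h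
  have h2 : u (m + 1) = false := hu.even (by omega)
  intro i j a1 a2 a3
  obtain rfl | rfl : i = m ∨ i = m + 1 := by omega
  · obtain rfl : j = i + 1 := by omega
    rw [h1, h2]
  · obtain rfl : j = m := by omega
    rw [h1, h2]

/-! ### moves on binary digits -/

lemma carry (hu : PD u) (y : ℕ) : ∃ w, u y = decide (w % 2 = 1) ∧
    (∀ x, y.testBit x = xor ((y + 1).testBit x) (decide (x ≤ w))) ∧ (y + 1).testBit w = true ∧
    ∀ x < w, (y + 1).testBit x = false := by
  induction y using Nat.strong_induction_on with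
  | _ y ih =>
  rcases Nat.mod_two_eq_zero_or_one y with h | h
  · refine ⟨0, by simp [hu.even h], fun x => ?_, by simp; omega, by simp⟩
    rcases x with _ | x
    · have : (y + 1) % 2 = 1 := by omega
      simp [h, this]
    · rw [Nat.testBit_succ, Nat.testBit_succ, show (y + 1) / 2 = y / 2 by omega]; simp
  · obtain ⟨w, h1, h2, h3, h4⟩ := ih (y / 2) (by omega)
    have e : (y + 1) / 2 = y / 2 + 1 := by omega
    have e2 : (y + 1) % 2 = 0 := by omega
    refine ⟨w + 1, ?_, fun x => ?_, by rwa [Nat.testBit_succ, e], fun x hx => ?_⟩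
    · rw [hu.odd h, h1]
      rcases Nat.mod_two_eq_zero_or_one w with h5 | h5 <;> simp [Nat.add_mod, h5]
    · rcases x with _ | x
      · simp [h, e2]
      · rw [Nat.testBit_succ, Nat.testBit_succ, e, h2]; simp
    · rcases x with _ | x
      · simp [e2]
      · rw [Nat.testBit_succ, e]; exact h4 x (by omega)

def Basic (m n : ℕ) : Prop := ∃ s, ∀ x, m.testBit x = xor (n.testBit x) (decide (x ≤ s))

def Special (m n : ℕ) : Prop := ∃ a t, t < a ∧ (a + t) % 2 = 1 ∧ n.testBit (a + 1) = true ∧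
  (∀ x, t < x → x ≤ a → n.testBit x = false) ∧
  ∀ x, m.testBit x = xor (n.testBit x) (decide (x ≤ a + 1 ∧ x ≠ t))

lemma moves (hu : PD u) (n : ℕ) : ∀ m < n, Pal u m n → Basic m n ∨ Special m n := by
  induction n using Nat.strong_induction_on with
  | _ n ih =>
  intro m hmn hp
  rcases Nat.mod_two_eq_zero_or_one (m + n) with h | h
  · obtain ⟨rfl, h1⟩ := pal_even hu h hmn hp
    obtain ⟨w, h2, h3, h4, h5⟩ := carry hu (m / 2)
    rw [h1] at h2
    have h6 : w % 2 = 1 := by simpa using h2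
    have e : (m + 2) / 2 = m / 2 + 1 := by omega
    refine Or.inr ⟨w, 0, by omega, by omega, by rwa [Nat.testBit_succ, e], fun x a1 a2 => ?_,
      fun x => ?_⟩
    · obtain ⟨x, rfl⟩ : ∃ y, x = y + 1 := ⟨x - 1, by omega⟩
      rw [Nat.testBit_succ, e]; exact h5 x (by omega)
    · rcases x with _ | x
      · simp
      · rw [Nat.testBit_succ, Nat.testBit_succ, e, h3]; simp
  · have h0 : m.testBit 0 = !(n.testBit 0) := by
      rcases Nat.mod_two_eq_zero_or_one n with h5 | h5
      · have : m % 2 = 1 := by omega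
        simp [h5, this]
      · have : m % 2 = 0 := by omega
        simp [h5, this]
    by_cases h1 : m / 2 = n / 2
    · refine Or.inl ⟨0, fun x => ?_⟩
      rcases x with _ | x
      · rw [h0]; simp
      · rw [Nat.testBit_succ, Nat.testBit_succ, h1]; simp
    rcases ih (n / 2) (by omega) (m / 2) (by omega) (pal_down hu h hp) with
      ⟨s, h2⟩ | ⟨a, t, h2, h3, h4, h5, h6⟩
    · refine Or.inl ⟨s + 1, fun x => ?_⟩
      rcases x with _ | x
      · rw [h0]; simp
      · rw [Nat.testBit_succ, Nat.testBit_succ, h2]; simp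
    · refine Or.inr ⟨a + 1, t + 1, by omega, by omega, by rwa [Nat.testBit_succ],
        fun x a1 a2 => ?_, fun x => ?_⟩
      · obtain ⟨x, rfl⟩ : ∃ y, x = y + 1 := ⟨x - 1, by omega⟩
        rw [Nat.testBit_succ]; exact h5 x (by omega) (by omega)
      · rcases x with _ | x
        · rw [h0]; simp
        · rw [Nat.testBit_succ, Nat.testBit_succ, h6]; simp

/-- Gray code support -/
def g (n x : ℕ) : Prop := n.testBit x ≠ n.testBit (x + 1)

def GMove (G' G : ℕ → Prop) : Prop :=
  (∃ s, ∀ x, G' x ↔ (G x ↔ x ≠ s)) ∨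
  ∃ a t, t < a ∧ (a + t) % 2 = 1 ∧ G a ∧ (∀ x, t < x → x < a → ¬ G x) ∧
    ∀ x, G' x ↔ (G x ↔ ¬ (x = a + 1 ∨ x = t ∨ x + 1 = t))

lemma gmove (hu : PD u) {m n : ℕ} (hmn : m < n) (hp : Pal u m n) : GMove (g m) (g n) := by
  rcases moves hu n m hmn hp with ⟨s, h⟩ | ⟨a, t, h1, h2, h3, h4, h5⟩
  · refine Or.inl ⟨s, fun x => ?_⟩
    simp only [g, h]
    rcases lt_trichotomy x s with h1 | h1 | h1
    · have a1 : x ≤ s := by omega
      have a2 : x + 1 ≤ s := by omega
      have a3 : x ≠ s := by omega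
      cases n.testBit x <;> cases n.testBit (x + 1) <;> simp [a1, a2, a3]
    · subst h1
      cases n.testBit x <;> cases n.testBit (x + 1) <;> simp
    · have a1 : ¬ x ≤ s := by omega
      have a2 : ¬ x + 1 ≤ s := by omega
      have a3 : x ≠ s := by omega
      cases n.testBit x <;> cases n.testBit (x + 1) <;> simp [a1, a2, a3]
  · refine Or.inr ⟨a, t, h1, h2, by simp [g, h3, h4 a h1 le_rfl], fun x a1 a2 => by
      simp [g, h4 x a1 a2.le, h4 (x + 1) (by omega) a2], fun x => ?_⟩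
    simp only [g, h5]
    by_cases b1 : x ≤ a + 1 ∧ x ≠ t <;> by_cases b2 : x + 1 ≤ a + 1 ∧ x + 1 ≠ t <;>
      by_cases b3 : x = a + 1 ∨ x = t ∨ x + 1 = t <;> (try (exfalso; omega)) <;>
      simp only [b1, b2, b3, decide_false] <;>
      cases n.testBit x <;> cases n.testBit (x + 1) <;> simp_all

def Sparse (I : Finset ℕ) : Prop := ∀ x ∈ I, x + 1 ∉ I

lemma sparse_erase {I : Finset ℕ} (h : Sparse I) (a : ℕ) : Sparse (I.erase a) :=
  fun x hx hx' => h x (mem_of_mem_erase hx) (mem_of_mem_erase hx')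

lemma gmove_sparse {G' G : ℕ → Prop} (h : GMove G' G) (I : Finset ℕ) (hI : Sparse I)
    (hG : ∀ x ∈ I, G x) : ∃ I', Sparse I' ∧ (∀ x ∈ I', G' x) ∧ I.card ≤ I'.card + 1 := by
  rcases h with ⟨s, h⟩ | ⟨a, t, h1, h2, h3, h4, h5⟩
  · refine ⟨I.erase s, sparse_erase hI s, fun x hx => ?_, by have := pred_card_le_card_erase (s := I) (a := s); omega⟩
    rw [mem_erase] at hx
    simp [h, hG x hx.2, hx.1]
  · obtain ⟨J, j1, j2, j3⟩ : ∃ J : Finset ℕ, J ⊆ I ∧ (∀ x ∈ J, x ≠ t ∧ x + 1 ≠ t) ∧
        I.card ≤ J.card + 1 := by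
      by_cases ht : t ∈ I
      · refine ⟨I.erase t, erase_subset _ _, fun x hx => ⟨(mem_erase.1 hx).1, fun h => ?_⟩,
          by have := pred_card_le_card_erase (s := I) (a := t); omega⟩
        exact hI x (mem_of_mem_erase hx) (h ▸ ht)
      · refine ⟨I.erase (t - 1), erase_subset _ _, fun x hx => ⟨fun h => ht (h ▸ mem_of_mem_erase hx),
          fun h => (mem_erase.1 hx).1 (by omega)⟩,
          by have := pred_card_le_card_erase (s := I) (a := t - 1); omega⟩
    by_cases ha : a + 1 ∈ J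
    · have ha2 : a ∉ J := fun h => hI a (j1 h) (j1 ha)
      refine ⟨insert a (J.erase (a + 1)), fun x hx hx' => ?_, fun x hx => ?_, ?_⟩
      · simp only [mem_insert, mem_erase] at hx hx'
        rcases hx with rfl | hx
        · omega
        · rcases hx' with hx' | hx'
          · have := j2 x hx.2
            exact h4 x (by omega) (by omega) (hG x (j1 hx.2))
          · exact hI x (j1 hx.2) (j1 hx'.2)
      · simp only [mem_insert, mem_erase] at hx
        rcases hx with rfl | hx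
        · rw [h5]; simp only [h3, true_iff]; omega
        · have := j2 x hx.2
          rw [h5]; simp only [hG x (j1 hx.2), true_iff]; omega
      · rw [card_insert_of_notMem (by simp [ha2]), card_erase_of_mem ha]
        have := card_pos.2 ⟨_, ha⟩
        omega
    · refine ⟨J, fun x hx hx' => hI x (j1 hx) (j1 hx'), fun x hx => ?_, j3⟩
      have := j2 x hx
      have : x ≠ a + 1 := fun h => ha (h ▸ hx)
      rw [h5]; simp only [hG x (j1 hx), true_iff]; omega

open Classical in
noncomputable def E (F : ℕ → Prop) : ℕ → ℤ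
  | 0 => 0
  | x + 1 => if F x then (-1) ^ x - E F x else E F x

lemma E_congr {F F' : ℕ → Prop} {y z : ℕ} (h0 : E F y = E F' y) (hyz : y ≤ z)
    (h : ∀ x, y ≤ x → x < z → (F x ↔ F' x)) : E F z = E F' z := by
  induction z, hyz using Nat.le_induction with
  | base => exact h0
  | succ z hz ih =>
    rw [E, E, ih fun x a1 a2 => h x a1 (by omega)]
    have := h z hz (by omega)
    by_cases h1 : F z
    · rw [if_pos h1, if_pos (this.1 h1)]
    · rw [if_neg h1, if_neg fun h2 => h1 (this.2 h2)]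

lemma E_const {F : ℕ → Prop} {y z : ℕ} (hyz : y ≤ z) (h : ∀ x, y ≤ x → x < z → ¬ F x) :
    E F z = E F y := by
  induction z, hyz using Nat.le_induction with
  | base => rfl
  | succ z hz ih => rw [E, if_neg (h z hz (by omega)), ih fun x a1 a2 => h x a1 (by omega)]

lemma E_swap {F F' : ℕ → Prop} {a b : ℕ} (hab : b < a) (hp : (a + b) % 2 = 0) (hb : F b)
    (hb' : ¬ F' b) (ha : F' a ↔ ¬ F a) (hm : ∀ x, b < x → x < a → ¬ F x)
    (ho : ∀ x, x ≠ a → x ≠ b → (F' x ↔ F x)) {z : ℕ} (hz : a < z) : E F' z = E F z := by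
  have h1 : E F' b = E F b := E_congr (y := 0) rfl (Nat.zero_le _) fun x _ hx => ho x (by omega) (by omega)
  have h2 : E F a = E F (b + 1) := E_const hab fun x a1 a2 => hm x a1 a2
  have h3 : E F' a = E F' (b + 1) := E_const hab fun x a1 a2 =>
    fun h => hm x a1 a2 ((ho x (by omega) (by omega)).1 h)
  have h4 : ((-1 : ℤ)) ^ a = (-1) ^ b := by
    rw [neg_one_pow_eq_pow_mod_two (n := a), neg_one_pow_eq_pow_mod_two (n := b)]
    congr 1; omega
  rw [E, if_pos hb] at h2
  rw [E, if_neg hb'] at h3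
  refine E_congr (y := a + 1) ?_ hz fun x a1 _ => ho x (by omega) (by omega)
  rw [E, E]
  by_cases h : F a
  · rw [if_pos h, if_neg (by tauto)]; linarith
  · rw [if_neg h, if_pos (by tauto)]; linarith

def Sub (G : ℕ → Prop) (S : Finset ℕ) (F : ℕ → Prop) : Prop :=
  (∀ x ∈ S, 1 ≤ x) ∧ (∀ x ∈ S, ∀ y ∈ S, x < y → x + 3 ≤ y) ∧ (∀ x, F x → x ∈ S) ∧
  (∀ x, G x ↔ x ∈ S ∨ ∃ y, F y ∧ x = y + 1) ∧ ∃ B, ∀ z, B ≤ z → E F z ≠ 0

lemma replace (S : Finset ℕ) (h : ∀ x ∈ S, ∀ y ∈ S, x < y → x + 3 ≤ y) (b c : ℕ) (hb : b ∈ S)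
    (hc : c = b + 1 ∨ c + 1 = b) (G' : ℕ → Prop) (h1 : G' c) (h2 : ∀ x ∈ S, x ≠ b → G' x) :
    ∃ I', Sparse I' ∧ (∀ x ∈ I', G' x) ∧ S.card ≤ I'.card := by
  have far : ∀ x ∈ S, x ≠ b → x + 3 ≤ b ∨ b + 3 ≤ x := by
    intro x hx hxb
    rcases lt_or_gt_of_ne hxb with h3 | h3
    · exact Or.inl (h x hx b hb h3)
    · exact Or.inr (h b hb x hx h3)
  refine ⟨insert c (S.erase b), fun x hx hx' => ?_, fun x hx => ?_, ?_⟩
  · simp only [mem_insert, mem_erase] at hx hx'
    rcases hx with rfl | hx <;> rcases hx' with hx' | hx'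
    · omega
    · have := far _ hx'.2 hx'.1; omega
    · have := far _ hx.2 hx.1; omega
    · have := h _ hx.2 _ hx'.2 (by omega); omega
  · simp only [mem_insert, mem_erase] at hx
    rcases hx with rfl | hx
    · exact h1
    · exact h2 x hx.2 hx.1
  · rw [card_insert_of_notMem, card_erase_of_mem hb]
    · have := card_pos.2 ⟨_, hb⟩
      omega
    · intro hc'
      rw [mem_erase] at hc'
      have := far _ hc'.2 hc'.1
      omega

lemma gmove_sub {G' G : ℕ → Prop} (h : GMove G' G) {S : Finset ℕ} {F : ℕ → Prop} (hS : Sub G S F) :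
    (∃ S' F', Sub G' S' F' ∧ S.card ≤ S'.card + 1) ∨
    ∃ I', Sparse I' ∧ (∀ x ∈ I', G' x) ∧ S.card ≤ I'.card := by
  obtain ⟨s1, s2, s3, s4, B, s5⟩ := hS
  have hsp : Sparse S := fun x hx hx' => by have := s2 x hx _ hx' (by omega); omega
  have hG : ∀ x ∈ S, G x := fun x hx => (s4 x).2 (Or.inl hx)
  have far : ∀ x ∈ S, ∀ y ∈ S, x = y ∨ x + 3 ≤ y ∨ y + 3 ≤ x := by
    intro x hx y hy
    rcases lt_trichotomy x y with h3 | h3 | h3
    · exact Or.inr (Or.inl (s2 x hx y hy h3))
    · exact Or.inl h3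
    · exact Or.inr (Or.inr (s2 y hy x hx h3))
  rcases h with ⟨s, h⟩ | ⟨a, t, h1, h2, h3, h4, h5⟩
  · by_cases a1 : s ∈ S
    · by_cases a2 : F s
      · refine Or.inr (replace S s2 s (s + 1) a1 (Or.inl rfl) G' ?_ fun x hx hx' => ?_)
        · simp [h, (s4 _).2 (Or.inr ⟨s, a2, rfl⟩)]
        · simp [h, hG x hx, hx']
      · refine Or.inl ⟨S.erase s, F, ⟨fun x hx => s1 x (mem_of_mem_erase hx),
          fun x hx y hy => s2 x (mem_of_mem_erase hx) y (mem_of_mem_erase hy),
          fun x hx => mem_erase.2 ⟨fun h => a2 (h ▸ hx), s3 x hx⟩, fun x => ?_, B, s5⟩,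
          by rw [card_erase_of_mem a1]; omega⟩
        rw [h, s4, mem_erase]
        by_cases a3 : x = s
        · subst a3
          simp only [a1, true_or, ne_eq, not_true, iff_false, false_and, false_or, false_iff]
          rintro ⟨y, hy, e⟩
          have := far x a1 y (s3 y hy)
          omega
        · simp [a3]
    · refine Or.inr ⟨S, hsp, fun x hx => ?_, le_rfl⟩
      have : x ≠ s := fun h => a1 (h ▸ hx)
      simp [h, hG x hx, this]
  rcases (s4 a).1 h3 with a1 | ⟨b, a1, rfl⟩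
  · by_cases a2 : t ∈ S
    · obtain ⟨c, rfl⟩ : ∃ c, t = c + 1 := ⟨t - 1, by have := s1 t a2; omega⟩
      refine Or.inr (replace S s2 (c + 1) c a2 (Or.inr rfl) G' ?_ fun x hx hx' => ?_)
      · have : ¬ G c := by
          rw [s4]
          rintro (h | ⟨y, hy, e⟩)
          · exact hsp c h a2
          · have := far _ a2 y (s3 y hy); omega
        simp [h5, this]
      · have := far x hx _ a2
        have := far x hx _ a1
        rw [h5]; simp only [hG x hx, true_iff]; omega
    by_cases a3 : ∃ c ∈ S, c + 1 = t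
    · obtain ⟨c, a3, rfl⟩ := a3
      by_cases a4 : F c
      · refine Or.inl ⟨S.erase c, fun x => if x = a then ¬ F a else F x ∧ x ≠ c,
          ⟨fun x hx => s1 x (mem_of_mem_erase hx),
          fun x hx y hy => s2 x (mem_of_mem_erase hx) y (mem_of_mem_erase hy),
          fun x hx => ?_, fun x => ?_, max B (a + 1), fun z hz => ?_⟩,
          by rw [card_erase_of_mem a3]; omega⟩
        · simp only at hx
          split_ifs at hx with a5
          · exact mem_erase.2 ⟨by omega, a5 ▸ a1⟩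
          · exact mem_erase.2 ⟨hx.2, s3 x hx.1⟩
        · rw [h5, s4, mem_erase]
          have f1 := far a a1 c a3
          by_cases b1 : x = a + 1
          · subst b1
            have b2 : a + 1 ∉ S := hsp a a1
            simp [b2]
          by_cases b2 : x = c + 1
          · subst b2
            have b3 : c ≠ a := by omega
            simp [a2, a4, b3]
          by_cases b3 : x = c
          · subst b3
            simp only [a3, true_or, or_true, not_true, iff_false, ne_eq, false_and, false_or,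
              false_iff, not_exists, not_and]
            intro y hy e
            split_ifs at hy with a5
            · omega
            · have := far x a3 y (s3 y hy.1); omega
          · have b4 : ¬ (x = a + 1 ∨ x = c + 1 ∨ x + 1 = c + 1) := by omega
            simp only [b4, not_false_iff, iff_true, ne_eq, b3, true_and]
            refine or_congr Iff.rfl (exists_congr fun y => and_congr_left fun e => ?_)
            have : y ≠ a := by omega
            have : y ≠ c := by omega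
            simp [*]
        · rw [E_swap (F := F) (a := a) (b := c) (by omega) (by omega) a4 (by simp; omega) (by simp)
            (fun x b1 b2 b3 => ?_) (fun x b1 b2 => by simp [b1, b2]) (by omega)]
          · exact s5 z (by omega)
          · have := far x (s3 x b3) c a3
            exact h4 x (by omega) b2 (hG x (s3 x b3))
      · refine Or.inr (replace S s2 c (c + 1) a3 (Or.inl rfl) G' ?_ fun x hx hx' => ?_)
        · have : ¬ G (c + 1) := by
            rw [s4]
            rintro (h | ⟨y, hy, e⟩)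
            · exact a2 h
            · obtain rfl : y = c := by omega
              exact a4 hy
          simp [h5, this]
        · have := far x hx _ a3
          have := far x hx _ a1
          rw [h5]; simp only [hG x hx, true_iff]; omega
    · refine Or.inr ⟨S, hsp, fun x hx => ?_, le_rfl⟩
      have := far x hx _ a1
      have : x ≠ t := fun h => a2 (h ▸ hx)
      have : x + 1 ≠ t := fun h => a3 ⟨x, hx, h⟩
      rw [h5]; simp only [hG x hx, true_iff]; omega
  · have a2 := s3 b a1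
    obtain rfl : t = b := by
      by_contra a3
      exact h4 b (by omega) (by omega) (hG b a2)
    refine Or.inr (replace S s2 t (t + 1) a2 (Or.inl rfl) G' ?_ fun x hx hx' => ?_)
    · rw [h5]; simp only [h3, true_iff]; omega
    · have := far x hx _ a2
      rw [h5]; simp only [hG x hx, true_iff]; omega

/-! ### the prefix palindromic length -/

def IsPL (u : ℕ → Bool) (p : ℕ → ℕ) : Prop :=
  ∀ n : ℕ, IsLeast {k : ℕ | ∃ L : List (List Bool), L.length = k ∧
    (∀ w ∈ L, w.reverse = w) ∧ L.flatten = List.ofFn (fun i : Fin n => u i.val)} (p n)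

lemma ofFn_eq (n : ℕ) : List.ofFn (fun i : Fin n => u i.val) = (List.range' 0 n).map u := by
  refine List.ext_getElem (by simp) fun t a1 a2 => by simp

lemma pal_iff (m k : ℕ) :
    ((List.range' m k).map u).reverse = (List.range' m k).map u ↔ Pal u m (m + k) := by
  constructor
  · intro h i j h1 h2 h3
    have h4 : i - m < k := by omega
    have : ((List.range' m k).map u).reverse[i - m]? = ((List.range' m k).map u)[i - m]? := by
      rw [h]
    rw [List.getElem?_reverse (by simpa using h4)] at this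
    simp only [List.length_map, List.length_range', List.getElem?_map] at this
    rw [List.getElem?_range' h4, List.getElem?_range' (by omega)] at this
    simp only [Option.map_some, Option.some.injEq] at this
    rw [show m + 1 * (k - 1 - (i - m)) = j by omega, show m + 1 * (i - m) = i by omega] at this
    exact this.symm
  · intro h
    refine List.ext_getElem (by simp) fun t a1 a2 => ?_
    simp only [List.length_map, List.length_range'] at a2
    simp only [List.getElem_reverse, List.getElem_map, List.getElem_range', List.length_map,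
      List.length_range']
    exact h _ _ (by omega) (by omega) (by omega)

variable {p : ℕ → ℕ}

lemma split_pre (m k : ℕ) :
    (List.range' 0 (m + k)).map u = (List.range' 0 m).map u ++ (List.range' m k).map u := by
  have := @List.range'_append_1 0 m k
  rw [zero_add] at this
  rw [← List.map_append, this]

lemma p_up (hp : IsPL u p) {m n : ℕ} (hmn : m ≤ n) (h : Pal u m n) : p n ≤ p m + 1 := by
  obtain ⟨k, rfl⟩ := Nat.exists_eq_add_of_le hmn
  obtain ⟨L, h1, h2, h3⟩ := (hp m).1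
  refine (hp (m + k)).2 ⟨L ++ [(List.range' m k).map u], by simp [h1], fun w hw => ?_, ?_⟩
  · rcases List.mem_append.1 hw with hw | hw
    · exact h2 w hw
    · rw [List.mem_singleton.1 hw]; exact (pal_iff m k).2 h
  · rw [List.flatten_append, h3, ofFn_eq, ofFn_eq, split_pre]; simp

lemma p_zero (hp : IsPL u p) : p 0 = 0 :=
  Nat.le_zero.1 ((hp 0).2 ⟨[], rfl, by simp, by simp⟩)

lemma p_down (hp : IsPL u p) {n : ℕ} (hn : 0 < n) : ∃ m < n, Pal u m n ∧ p m + 1 ≤ p n := by
  obtain ⟨L, h1, h2, h3⟩ := (hp n).1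
  rcases List.eq_nil_or_concat L with rfl | ⟨L', w, rfl⟩
  · have := congrArg List.length h3
    simp at this; omega
  rw [List.concat_eq_append] at h1 h2 h3
  rw [List.flatten_append, ofFn_eq] at h3
  simp only [List.flatten_cons, List.flatten_nil, List.append_nil] at h3
  have h4 := congrArg List.length h3
  simp only [List.length_append, List.length_map, List.length_range'] at h4
  rw [← h4, split_pre] at h3
  obtain ⟨h5, h6⟩ := List.append_inj h3 (by simp)
  have h7 : p L'.flatten.length ≤ L'.length :=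
    (hp _).2 ⟨L', rfl, fun w hw => h2 w (by simp [hw]), by rw [ofFn_eq]; exact h5⟩
  simp only [List.length_append, List.length_cons, List.length_nil] at h1
  have h8 : L'.flatten.length ≠ n := fun h => by rw [h] at h7; omega
  refine ⟨L'.flatten.length, by omega, ?_, by omega⟩
  rw [← h4, ← pal_iff, ← h6]
  exact h2 w (by simp)

lemma lowA (hu : PD u) (hp : IsPL u p) (n : ℕ) :
    ∀ I, Sparse I → (∀ x ∈ I, g n x) → I.card ≤ p n := by
  induction n using Nat.strong_induction_on with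
  | _ n ih =>
  intro I h1 h2
  rcases Nat.eq_zero_or_pos n with rfl | hn
  · have : I = ∅ := eq_empty_of_forall_notMem fun x hx => by simpa [g] using h2 x hx
    simp [this]
  obtain ⟨m, a1, a2, a3⟩ := p_down hp hn
  obtain ⟨I', b1, b2, b3⟩ := gmove_sparse (gmove hu a1 a2) I h1 h2
  have := ih m a1 I' b1 b2
  omega

lemma lowB (hu : PD u) (hp : IsPL u p) (n : ℕ) :
    ∀ S F, Sub (g n) S F → S.card + 1 ≤ p n := by
  induction n using Nat.strong_induction_on with
  | _ n ih =>
  intro S F h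
  rcases Nat.eq_zero_or_pos n with rfl | hn
  · obtain ⟨-, -, s3, s4, B, s5⟩ := h
    refine absurd ?_ (s5 B le_rfl)
    refine E_const (y := 0) (Nat.zero_le _) fun x _ _ hx => ?_
    simpa [g] using (s4 x).2 (Or.inl (s3 x hx))
  obtain ⟨m, a1, a2, a3⟩ := p_down hp hn
  rcases gmove_sub (gmove hu a1 a2) h with ⟨S', F', b1, b2⟩ | ⟨I', b1, b2, b3⟩
  · have := ih m a1 S' F' b1
    omega
  · have := lowA hu hp m I' b1 b2
    omega

lemma up_basic (hu : PD u) (hp : IsPL u p) (K c r s : ℕ) (h : r + s + 1 = 2 ^ c) :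
    p (2 ^ (c + 1) * K + 2 ^ c + r) ≤ p (2 ^ (c + 1) * K + s) + 1 := by
  refine p_up hp (by omega) ?_
  have := pal_lift hu (pal_refl (u := u) K) (c + 1) (2 ^ c + r) s (by rw [pow_succ]; omega)
  rwa [← add_assoc] at this

lemma up_one (hu : PD u) (hp : IsPL u p) (K c r : ℕ) (h : r < 2 ^ c) :
    p (2 ^ (c + 2) * K + 2 ^ (c + 1) + r) ≤ p (2 ^ (c + 2) * K + r) + 2 := by
  obtain ⟨s, hs⟩ : ∃ s, s + r + 1 = 2 ^ c := ⟨2 ^ c - r - 1, by omega⟩
  have h1 := up_basic hu hp K (c + 1) r (2 ^ c + s) (by rw [pow_succ]; omega)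
  have h2 := up_basic hu hp (2 * K) c s r hs
  rw [show 2 ^ (c + 1) * (2 * K) = 2 ^ (c + 2) * K by ring] at h2
  rw [← add_assoc, show c + 1 + 1 = c + 2 from rfl] at h1
  omega

lemma up_two (hu : PD u) (hp : IsPL u p) (K k c r : ℕ) (h : r < 2 ^ c) :
    p (2 ^ (c + 2 * k + 3) * K + 2 ^ (c + 2 * k + 2) + 2 ^ c + r) ≤
      p (2 ^ (c + 2 * k + 3) * K + r) + 2 := by
  obtain ⟨s, hs⟩ : ∃ s, r + s + 1 = 2 ^ c := ⟨2 ^ c - r - 1, by omega⟩
  obtain ⟨m, hm⟩ : ∃ m, m + 1 = 2 ^ (2 * (k + 1)) * (2 * K + 1) :=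
    ⟨2 ^ (2 * (k + 1)) * (2 * K + 1) - 1, Nat.sub_add_cancel (Nat.succ_le_of_lt (by positivity))⟩
  have h1 := p_up hp (by nlinarith) (pal_lift hu (pal_two hu k K m hm) c r s hs)
  have h0 : 2 ^ c ≤ 2 ^ (c + 2 * k + 1) := Nat.pow_le_pow_right (by norm_num) (by omega)
  obtain ⟨q, hq⟩ : ∃ q, q + r + 1 = 2 ^ (c + 2 * k + 1) := ⟨2 ^ (c + 2 * k + 1) - r - 1, by omega⟩
  have h2 := up_basic hu hp (2 * K) (c + 2 * k + 1) q r hq
  have e0 : 2 ^ c * (m + 1) = 2 ^ (c + 2 * k + 3) * K + 2 ^ (c + 2 * k + 2) := by rw [hm]; ring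
  have e1 : 2 ^ c * (m + 2) + r = 2 ^ (c + 2 * k + 3) * K + 2 ^ (c + 2 * k + 2) + 2 ^ c + r := by
    rw [← e0]; ring
  have e3 : 2 ^ (c + 2 * k + 1 + 1) * (2 * K) = 2 ^ (c + 2 * k + 3) * K := by ring
  have e4 : 2 ^ (c + 2 * k + 2) = 2 * 2 ^ (c + 2 * k + 1) := by ring
  have e2 : 2 ^ c * m + s = 2 ^ (c + 2 * k + 3) * K + 2 ^ (c + 2 * k + 1) + q := by
    rw [mul_add] at e0; omega
  rw [e1, e2] at h1
  rw [e3] at h2
  omega

def w : ℕ → ℕ
  | 0 => 0
  | i + 1 => 8 * w i + 4

lemma w_add (i j : ℕ) : w (i + j) = 2 ^ (3 * j) * w i + w j := by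
  induction j with
  | zero => simp [w]
  | succ j ih => rw [← add_assoc, w, ih, w]; ring

lemma w_lt (j : ℕ) : w j < 2 ^ (3 * j) := by
  induction j with
  | zero => simp [w]
  | succ j ih => rw [w, show 2 ^ (3 * (j + 1)) = 8 * 2 ^ (3 * j) by ring]; omega

lemma w_succ (j : ℕ) : w (j + 1) = 2 ^ (3 * j + 2) + w j := by
  rw [add_comm j 1, w_add]; simp [w]; ring

def V (e i d j : ℕ) : ℕ := 2 ^ e * (2 ^ (3 * j + d) * w i + w j)

lemma V_step (hu : PD u) (hp : IsPL u p) (e i k j : ℕ) :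
    p (V e (i + 1) (2 * k + 1) (j + 1)) ≤ p (V e i (2 * (k + 3) + 1) j) + 2 := by
  have h1 : 2 ^ e * w j < 2 ^ (e + 3 * j + 2) := by
    have := w_lt j
    calc 2 ^ e * w j < 2 ^ e * 2 ^ (3 * j) := by gcongr
      _ ≤ _ := by rw [← pow_add]; exact Nat.pow_le_pow_right (by norm_num) (by omega)
  have := up_two hu hp (w i) (k + 1) (e + 3 * j + 2) (2 ^ e * w j) h1
  convert this using 2
  · rw [V, w_succ j, w]; ring_nf
  · rw [V]; ring_nf

lemma V_red (hu : PD u) (hp : IsPL u p) (e i j t : ℕ) : ∀ k, ∃ k',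
    p (V e (i + t) (2 * k + 1) (j + t)) ≤ p (V e i (2 * k' + 1) j) + 2 * t := by
  induction t with
  | zero => exact fun k => ⟨k, by simp⟩
  | succ t ih =>
    intro k
    obtain ⟨k', h⟩ := ih (k + 3)
    have := V_step hu hp e (i + t) k (j + t)
    exact ⟨k', by simp only [← add_assoc] at *; omega⟩

lemma V_diag (hu : PD u) (hp : IsPL u p) (e i k : ℕ) : p (V e i (2 * k + 1) i) ≤ 2 * i := by
  obtain ⟨k', h⟩ := V_red hu hp e 0 0 i k
  simpa [V, w, p_zero hp] using h

lemma w_odd (hu : PD u) (hp : IsPL u p) (e k : ℕ) : p (2 ^ e * w (2 * k + 1)) ≤ 2 * k + 2 := by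
  have h1 : 2 ^ e * w k < 2 ^ (e + 3 * k + 1) := by
    have := w_lt k
    calc 2 ^ e * w k < 2 ^ e * 2 ^ (3 * k) := by gcongr
      _ ≤ _ := by rw [← pow_add]; exact Nat.pow_le_pow_right (by norm_num) (by omega)
  have h2 := up_one hu hp (w k) (e + 3 * k + 1) (2 ^ e * w k) h1
  have h3 := V_diag hu hp e k 1
  have e1 : 2 ^ e * w (2 * k + 1) =
      2 ^ (e + 3 * k + 1 + 2) * w k + 2 ^ (e + 3 * k + 1 + 1) + 2 ^ e * w k := by
    rw [show 2 * k + 1 = k + (k + 1) by ring, w_add, w_succ]; ring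
  have e2 : V e k (2 * 1 + 1) k = 2 ^ (e + 3 * k + 1 + 2) * w k + 2 ^ e * w k := by rw [V]; ring
  rw [e1]; rw [e2] at h3
  omega

lemma w_le (hu : PD u) (hp : IsPL u p) (e r : ℕ) : p (2 ^ e * w r) ≤ r + 2 := by
  rcases Nat.even_or_odd' r with ⟨k, rfl | rfl⟩
  · rcases k with _ | k
    · simp [w, p_zero hp]
    · have h1 := up_one hu hp (w (2 * k + 1)) (e + 1) 0 (by positivity)
      have h2 := w_odd hu hp (e + 1 + 2) k
      have e1 : 2 ^ e * w (2 * (k + 1)) =
          2 ^ (e + 1 + 2) * w (2 * k + 1) + 2 ^ (e + 1 + 1) + 0 := by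
        rw [show 2 * (k + 1) = 2 * k + 1 + 1 by ring, w]; ring
      rw [e1]; rw [add_zero (2 ^ (e + 1 + 2) * w (2 * k + 1))] at h1
      omega
  · have := w_odd hu hp e k
    omega

lemma V_le (hu : PD u) (hp : IsPL u p) (i j : ℕ) : p (V 0 i 1 j) ≤ i + j + 2 := by
  rcases le_total i j with h | h
  · obtain ⟨r, rfl⟩ := Nat.exists_eq_add_of_le' h
    obtain ⟨k', h⟩ := V_red hu hp 0 0 r i 0
    have h2 := w_le hu hp 0 r
    simp only [V, w, zero_add, mul_zero] at *
    omega
  · obtain ⟨r, rfl⟩ := Nat.exists_eq_add_of_le' h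
    obtain ⟨k', h⟩ := V_red hu hp 0 r 0 j 0
    have h2 := w_le hu hp (2 * k' + 1) r
    simp only [V, w, zero_add, mul_zero, pow_zero, one_mul, add_zero] at *
    omega

lemma w_bit (j : ℕ) : ∀ x, (w j).testBit x = decide (x % 3 = 2 ∧ x < 3 * j) := by
  induction j with
  | zero => simp [w]
  | succ j ih =>
    intro x
    have : w (j + 1) = 2 ^ 3 * w j + 4 := by rw [w]; norm_num
    rw [this, Nat.testBit_two_pow_mul_add _ (by norm_num)]
    split_ifs with h
    · have h3 : x < 3 * (j + 1) := by omega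
      simp only [h3, and_true]
      interval_cases x <;> decide
    · rw [ih]; congr 1; apply propext; omega

lemma V_bit (i j x : ℕ) : (V 0 i 1 j).testBit x = decide ((x % 3 = 2 ∧ x < 3 * j) ∨
    (x % 3 = 0 ∧ 3 * j < x ∧ x ≤ 3 * (i + j))) := by
  have h1 : w j < 2 ^ (3 * j + 1) := (w_lt j).trans (by rw [pow_succ]; have := Nat.one_le_two_pow (n := 3 * j); omega)
  rw [V, pow_zero, one_mul, Nat.testBit_two_pow_mul_add _ h1]
  split_ifs with h <;> rw [w_bit] <;> congr 1 <;> apply propext <;> omega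

def SS (i j : ℕ) : Finset ℕ := (range (i + j)).image fun k => if k < j then 3 * k + 1 else 3 * k + 2

lemma mem_SS (i j x : ℕ) : x ∈ SS i j ↔
    (x % 3 = 1 ∧ x < 3 * j) ∨ (x % 3 = 2 ∧ 3 * j < x ∧ x < 3 * (i + j)) := by
  simp only [SS, mem_image, mem_range]
  constructor
  · rintro ⟨k, h1, rfl⟩
    split_ifs <;> omega
  · intro h
    refine ⟨x / 3, by omega, ?_⟩
    split_ifs <;> omega

lemma card_SS (i j : ℕ) : (SS i j).card = i + j := by
  rw [SS, card_image_of_injective, card_range]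
  intro a b h
  simp only at h
  split_ifs at h <;> omega

lemma g_V (i j x : ℕ) : g (V 0 i 1 j) x ↔ x ∈ SS i j ∨ ∃ y, y ∈ SS i j ∧ x = y + 1 := by
  simp only [g, V_bit, mem_SS, ne_eq, decide_eq_decide]
  constructor
  · intro h
    by_cases h1 : (x % 3 = 1 ∧ x < 3 * j) ∨ (x % 3 = 2 ∧ 3 * j < x ∧ x < 3 * (i + j))
    · exact Or.inl h1
    · exact Or.inr ⟨x - 1, by omega, by omega⟩
  · rintro (h | ⟨y, h, rfl⟩) <;> omega

lemma E_lo (i j k : ℕ) (hk : k ≤ j) : E (· ∈ SS i j) (3 * k) = (-1) ^ k * k := by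
  induction k with
  | zero => simp [E]
  | succ k ih =>
    rw [show 3 * (k + 1) = 3 * k + 1 + 1 + 1 by ring, E, E, E, if_neg (by rw [mem_SS]; omega),
      if_pos (by rw [mem_SS]; omega), if_neg (by rw [mem_SS]; omega), ih (by omega), pow_succ,
      pow_mul, pow_succ _ k]
    norm_num; ring

lemma E_hi (i j k : ℕ) (hk : k ≤ i) :
    E (· ∈ SS i j) (3 * (j + k)) = (-1) ^ (j + k) * (j - k) := by
  induction k with
  | zero => simpa using E_lo i j j le_rfl
  | succ k ih =>
    rw [show 3 * (j + (k + 1)) = 3 * (j + k) + 1 + 1 + 1 by ring, E, E, E,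
      if_pos (by rw [mem_SS]; omega), if_neg (by rw [mem_SS]; omega),
      if_neg (by rw [mem_SS]; omega), ih (by omega), pow_succ, pow_succ, pow_mul, ← add_assoc,
      pow_succ _ (j + k)]
    norm_num; ring

lemma V_ge (hu : PD u) (hp : IsPL u p) (i j : ℕ) : i + j ≤ p (V 0 i 1 j) := by
  rw [← card_SS]
  exact lowA hu hp _ _ (fun x h1 h2 => by rw [mem_SS] at h1 h2; omega)
    fun x hx => (g_V i j x).2 (Or.inl hx)

lemma V_gt (hu : PD u) (hp : IsPL u p) (i j : ℕ) (h : i ≠ j) : i + j + 1 ≤ p (V 0 i 1 j) := by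
  rw [← card_SS i j]
  refine lowB hu hp _ _ (· ∈ SS i j) ⟨fun x h1 => by rw [mem_SS] at h1; omega,
    fun x h1 y h2 => by rw [mem_SS] at h1 h2; omega, fun _ h => h, g_V i j, 3 * (j + i),
    fun z hz => ?_⟩
  rw [E_const hz fun x a1 _ => by rw [mem_SS]; omega, E_hi i j i le_rfl]
  exact mul_ne_zero (by simp) (by omega)

theorem not_fg (hu : PD u) (hp : IsPL u p) :
    ¬ (Submodule.span ℤ {f : ℕ → ℤ | ∃ e r : ℕ, r < 2 ^ e ∧
      f = fun n : ℕ => ((p (2 ^ e * n + r) : ℕ) : ℤ)}).FG := by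
  intro hfg
  set φ : (ℕ → ℤ) →ₗ[ℤ] (ℕ → ZMod 3) :=
    LinearMap.compLeft (Int.castAddHom (ZMod 3)).toIntLinearMap ℕ with hφ
  have h1 := hfg.map φ
  set M := Submodule.map φ (Submodule.span ℤ {f : ℕ → ℤ | ∃ e r : ℕ, r < 2 ^ e ∧
      f = fun n : ℕ => ((p (2 ^ e * n + r) : ℕ) : ℤ)}) with hM
  have : Module.Finite ℤ M := Module.Finite.iff_fg.2 h1
  have hfin : Finite M := by
    refine Module.finite_of_fg_torsion M fun x => ⟨⟨3, mem_nonZeroDivisors_of_ne_zero (by norm_num)⟩, ?_⟩
    ext n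
    have : (3 : ZMod 3) = 0 := rfl
    simp [this]
  have hmem : ∀ j : ℕ, φ (fun n => ((p (2 ^ (3 * (3 * j) + 1) * n + w (3 * j)) : ℕ) : ℤ)) ∈ M :=
    fun j => Submodule.mem_map_of_mem (Submodule.subset_span ⟨_, _, (w_lt _).trans
      (Nat.pow_lt_pow_right (by norm_num) (by omega)), rfl⟩)
  obtain ⟨a, b, hab, h⟩ := Finite.exists_ne_map_eq_of_infinite fun j : ℕ => (⟨_, hmem j⟩ : M)
  have h2 := congrFun (congrArg Subtype.val h) (w (3 * a))
  have h3 : ((p (V 0 (3 * a) 1 (3 * a)) : ℕ) : ZMod 3) = (p (V 0 (3 * a) 1 (3 * b)) : ℕ) := by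
    simpa [hφ, V] using h2
  rw [ZMod.natCast_eq_natCast_iff'] at h3
  have b1 := V_diag hu hp 0 (3 * a) 0
  have b2 := V_ge hu hp (3 * a) (3 * a)
  have b3 := V_le hu hp (3 * a) (3 * b)
  have b4 := V_gt hu hp (3 * a) (3 * b) (by omega)
  simp only [mul_zero, zero_add] at b1
  omega

end Pool.Agent.H6.PPL
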