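import Mathlib

namespace Pool.Agent.H6.PPL

/-- prefix palindromic length: the least number of nonempty palindromes whose concatenation is the
prefix of length `n` of `u` -/
noncomputable def PPL {A : Type} (u : ℕ → A) (n : ℕ) : ℕ :=
  sInf {k : ℕ | ∃ L : List (List A), L.length = k ∧ (∀ w ∈ L, w ≠ [] ∧ w.reverse = w) ∧
    L.flatten = List.ofFn (fun i : Fin n => u i.val)}

end Pool.Agent.H6.PPL
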