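import Mathlib

namespace Pool.Agent.H6.Parallelotope

open Set Metric Topology Filter
open scoped NNReal ENNReal

lemma lip_pi {X Y : Type} [PseudoMetricSpace X] [Fintype Y] (Φ : X → Y → ℝ)
    (h : ∀ y, ∃ K, LipschitzWith K (fun p => Φ p y)) : ∃ K, LipschitzWith K Φ := by
  choose K hK using h
  refine ⟨Finset.univ.sup K, LipschitzWith.of_dist_le_mul fun p q => ?_⟩
  refine (dist_pi_le_iff (by positivity)).2 fun y => ((hK y).dist_le_mul p q).trans ?_
  gcongr
  exact_mod_cast Finset.le_sup (f := K) (Finset.mem_univ y)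

lemma generic {Y S Θ : Type} [Fintype Y] [Fintype S] [Nonempty S] [NormedAddCommGroup Θ]
    [NormedSpace ℝ Θ] [FiniteDimensional ℝ Θ] (hdim : Module.finrank ℝ Θ < Fintype.card S)
    (G : Y → S → Θ → ℝ) (hG : ∀ y s, ∃ K, LipschitzWith K (G y s)) :
    Dense {t : Y → ℝ | ∃ σ : S → Y, Function.Injective σ ∧ ∃ θ, ∀ s, t (σ s) = G (σ s) s θ}ᶜ := by
  classical
  by_cases hY : Nonempty {σ : S → Y // Function.Injective σ}
  swap
  · have : {t : Y → ℝ | ∃ σ : S → Y, Function.Injective σ ∧ ∃ θ, ∀ s,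
        t (σ s) = G (σ s) s θ} = ∅ := by
      ext t
      simp only [mem_ofPred_eq, mem_empty_iff_false, iff_false]
      rintro ⟨σ, hσ, -⟩
      exact hY ⟨⟨σ, hσ⟩⟩
    rw [this, compl_empty]; exact dense_univ
  let Φ : (σ : {σ : S → Y // Function.Injective σ}) →
      Θ × ({y // y ∉ range σ.1} → ℝ) → (Y → ℝ) := fun σ p y =>
    if h : y ∈ range σ.1 then G y (Function.invFun σ.1 y) p.1 else p.2 ⟨y, h⟩
  apply dense_compl_of_dimH_lt_finrank
  have hsub : {t : Y → ℝ | ∃ σ : S → Y, Function.Injective σ ∧ ∃ θ, ∀ s,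
      t (σ s) = G (σ s) s θ} ⊆ ⋃ σ, range (Φ σ) := by
    rintro t ⟨σ, hσ, θ, h⟩
    refine mem_iUnion.2 ⟨⟨σ, hσ⟩, ⟨(θ, fun y => t y.1), ?_⟩⟩
    funext y
    simp only [Φ]
    split_ifs with hy
    · obtain ⟨s, rfl⟩ := hy
      rw [Function.leftInverse_invFun hσ s, h]
    · rfl
  refine (dimH_mono hsub).trans_lt ?_
  rw [dimH_iUnion]
  have hb : ∀ σ, dimH (range (Φ σ)) ≤ ((Fintype.card Y - 1 : ℕ) : ℝ≥0∞) := by
    intro σ
    obtain ⟨K, hK⟩ := lip_pi (Φ σ) (by
      intro y
      simp only [Φ]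
      split_ifs with hy
      · obtain ⟨K, hK⟩ := hG y (Function.invFun σ.1 y)
        exact ⟨_, hK.comp LipschitzWith.prod_fst⟩
      · exact ⟨_, (LipschitzWith.eval (α := fun _ => ℝ) (⟨y, hy⟩ : {y // y ∉ range σ.1})).comp
          LipschitzWith.prod_snd⟩)
    refine hK.dimH_range_le.trans ?_
    rw [Real.dimH_univ_eq_finrank, Module.finrank_prod, Module.finrank_fintype_fun_eq_card,
      Fintype.card_subtype_compl]
    have h1 : Fintype.card {y // y ∈ range σ.1} = Fintype.card S := Set.card_range_of_injective σ.2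
    have h2 : Fintype.card S ≤ Fintype.card Y := Fintype.card_le_of_injective _ σ.2
    rw [h1]
    exact_mod_cast (by omega)
  refine (iSup_le hb).trans_lt ?_
  rw [Module.finrank_fintype_fun_eq_card]
  obtain ⟨σ⟩ := hY
  have h2 : Fintype.card S ≤ Fintype.card Y := Fintype.card_le_of_injective _ σ.2
  exact_mod_cast (by omega)

variable {E : Type} [NormedAddCommGroup E] [InnerProductSpace ℝ E] [FiniteDimensional ℝ E]

lemma convexOn_infDist {K : Set E} (hK : Convex ℝ K) (hc : IsCompact K) (hne : K.Nonempty) :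
    ConvexOn ℝ univ (fun x => infDist x K) := by
  refine ⟨convex_univ, fun x _ y _ a b ha hb hab => ?_⟩
  obtain ⟨p, hp, ep⟩ := hc.exists_infDist_eq_dist hne x
  obtain ⟨q, hq, eq⟩ := hc.exists_infDist_eq_dist hne y
  simp only [smul_eq_mul, ep, eq]
  refine (infDist_le_dist_of_mem (hK hp hq ha hb hab)).trans ?_
  rw [dist_eq_norm, dist_eq_norm, dist_eq_norm]
  have : a • x + b • y - (a • p + b • q) = a • (x - p) + b • (y - q) := by module
  rw [this]
  refine (norm_add_le _ _).trans ?_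
  rw [norm_smul, norm_smul, Real.norm_of_nonneg ha, Real.norm_of_nonneg hb]

lemma closed_frontier :
    IsClosed {z : ConvexBody E × E | z.2 ∈ frontier (z.1 : Set E)} := by
  rw [← isOpen_compl_iff, Metric.isOpen_iff]
  rintro ⟨K, p⟩ hz
  simp only [mem_compl_iff, mem_ofPred_eq, K.isClosed.frontier_eq, Set.mem_sdiff, not_and,
    not_not] at hz
  by_cases hp : p ∈ (K : Set E)
  · obtain ⟨r, hr, hb⟩ := Metric.isOpen_iff.1 isOpen_interior p (hz hp)
    replace hb := hb.trans interior_subset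
    refine ⟨r / 4, by positivity, ?_⟩
    rintro ⟨L, q⟩ hq
    simp only [mem_ball, Prod.dist_eq, max_lt_iff] at hq
    simp only [mem_compl_iff, mem_ofPred_eq, L.isClosed.frontier_eq, Set.mem_sdiff, not_and, not_not]
    intro _
    refine mem_interior.2 ⟨ball q (r / 4), fun y hy => ?_, isOpen_ball, mem_ball_self (by positivity)⟩
    by_contra hyL
    obtain ⟨f, u, hf, hu⟩ := geometric_hahn_banach_closed_point L.convex L.isClosed hyL
    set n := (InnerProductSpace.toDual ℝ E).symm f with hn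
    have hfn : ∀ x, f x = inner ℝ n x := fun x => by simp [hn]
    have hn0 : 0 < ‖n‖ := by
      rw [norm_pos_iff]
      intro h0
      obtain ⟨a, ha⟩ := L.nonempty
      have := hf a ha
      rw [hfn, h0] at this hu
      simp at this hu
      linarith
    have hz' : y + (r / 2 / ‖n‖) • n ∈ (K : Set E) := by
      apply hb
      rw [mem_ball] at hy ⊢
      have h1 : dist (y + (r / 2 / ‖n‖) • n) y = r / 2 := by
        rw [dist_eq_norm, add_sub_cancel_left, norm_smul, Real.norm_of_nonneg (by positivity)]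
        field_simp
      have := dist_triangle4 (y + (r / 2 / ‖n‖) • n) y q p
      linarith [hq.2]
    obtain ⟨a, ha, hd⟩ := exists_dist_lt_of_hausdorffDist_lt hz'
      (r := r / 4) (t := (L : Set E)) (by rw [ConvexBody.hausdorffDist_coe, dist_comm]; exact hq.1)
      ConvexBody.hausdorffEDist_ne_top
    have h1 := hf a ha
    have h2 := real_inner_le_norm n (y + (r / 2 / ‖n‖) • n - a)
    rw [← dist_eq_norm, inner_sub_right, inner_add_right, real_inner_smul_right,
      real_inner_self_eq_norm_sq, ← hfn, ← hfn] at h2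
    have h3 : r / 2 / ‖n‖ * ‖n‖ ^ 2 = r / 2 * ‖n‖ := by field_simp
    nlinarith
  · have hr : 0 < infDist p (K : Set E) := (K.isClosed.notMem_iff_infDist_pos K.nonempty).1 hp
    refine ⟨infDist p (K : Set E) / 2, by positivity, ?_⟩
    rintro ⟨L, q⟩ hq
    simp only [mem_ball, Prod.dist_eq, max_lt_iff] at hq
    simp only [mem_compl_iff, mem_ofPred_eq, L.isClosed.frontier_eq, Set.mem_sdiff, not_and, not_not]
    intro hqL
    exfalso
    have h1 := infDist_le_infDist_add_hausdorffDist (x := p) (s := (L : Set E)) (t := (K : Set E))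
      ConvexBody.hausdorffEDist_ne_top
    have h2 := infDist_le_dist_of_mem (x := p) hqL
    rw [ConvexBody.hausdorffDist_coe] at h1
    rw [dist_comm] at h2
    linarith [hq.1, hq.2]

/-- the affine-plus-distance functions cutting out the perturbed body -/
noncomputable def g (K : Set E) (η c : ℝ) (y x : E) : ℝ :=
  infDist x K + (η * (2 * inner ℝ y x - ‖y‖ ^ 2) - c)

lemma g_eq (K : Set E) (η c : ℝ) (y x : E) :
    g K η c y x = infDist x K + η * (‖x‖ ^ 2 - dist x y ^ 2) - c := by
  rw [g, dist_eq_norm, norm_sub_sq_real, real_inner_comm]; ring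

lemma g_lip (K : Set E) (η c : ℝ) (y : E) : ∃ C, LipschitzWith C (g K η c y) := by
  have h1 : LipschitzWith _ (fun x : E => ((2 * η) • innerSL ℝ y) x) :=
    ((2 * η) • innerSL ℝ y).lipschitz
  have h2 := (lipschitz_infDist_pt K).add
    (h1.add (LipschitzWith.const (-(η * ‖y‖ ^ 2) - c)))
  refine ⟨1 + (‖(2 * η) • (innerSL ℝ) y‖₊ + 0), ?_⟩
  have e : g K η c y = fun x =>
      infDist x K + (((2 * η) • (innerSL ℝ) y) x + (-(η * ‖y‖ ^ 2) - c)) := by
    funext x
    simp [g]
    ring
  rw [e]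
  exact h2

lemma approx {S Θ : Type} [Fintype S] [Nonempty S] [NormedAddCommGroup Θ]
    [NormedSpace ℝ Θ] [FiniteDimensional ℝ Θ] (hdim : Module.finrank ℝ Θ < Fintype.card S)
    (V : S → Θ →L[ℝ] E) (K : ConvexBody E) {ε ρ : ℝ} (hε : 0 < ε) (hε1 : ε ≤ 1) (hρ : 0 < ρ) :
    ∃ L : ConvexBody E, dist K L < ε ∧ ¬ ∃ θ : Θ, (∀ s t, s ≠ t → ρ ≤ dist (V s θ) (V t θ)) ∧
      ∀ s, V s θ ∈ frontier (L : Set E) := by
  classical
  obtain ⟨R, hR0, hR⟩ := K.isBounded.subset_closedBall_lt 0 0
  set η : ℝ := ε / 4 / R ^ 2 with hη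
  have hη0 : 0 < η := by positivity
  have hc : η * R ^ 2 = ε / 4 := by rw [hη]; field_simp
  set τ : ℝ := min (ε / 4) (η * ρ ^ 2 / 16) with hτ
  have hτ0 : 0 < τ := by positivity
  obtain ⟨Y0, -, hfin, hcov⟩ := (isCompact_closedBall (0 : E) (R + 1)).finite_cover_balls
    (e := ρ / 4) (by positivity)
  set Y : Finset E := insert 0 hfin.toFinset with hY
  have hd := generic (Y := Y) hdim (fun y s θ => g K η (ε / 4) y.1 (V s θ)) (fun y s => by
    obtain ⟨C, hC⟩ := g_lip (K : Set E) η (ε / 4) y.1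
    exact ⟨_, hC.comp (V s).lipschitz⟩)
  obtain ⟨t, ht, htb⟩ := hd.exists_mem_open (U := Set.pi univ fun _ => Ioo 0 τ)
    (isOpen_set_pi finite_univ fun _ _ => isOpen_Ioo) ⟨fun _ => τ / 2, fun _ _ => by
      constructor <;> linarith⟩
  have ht0 : ∀ y, 0 < t y := fun y => (htb y trivial).1
  have ht1 : ∀ y, t y < τ := fun y => (htb y trivial).2
  have hcont : ∀ y, Continuous (g (K : Set E) η (ε / 4) y) := fun y =>
    (g_lip _ _ _ y).choose_spec.continuous
  set L : Set E := ⋂ y : Y, {x | g K η (ε / 4) y.1 x ≤ t y} with hL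
  have hKL : (K : Set E) ⊆ L := by
    intro x hx
    refine mem_iInter.2 fun y => ?_
    have h1 : ‖x‖ ≤ R := by simpa using hR hx
    have h2 : ‖x‖ ^ 2 ≤ R ^ 2 := by gcongr
    rw [mem_ofPred_eq, g_eq, infDist_zero_of_mem hx]
    have := ht0 y
    nlinarith [sq_nonneg (dist x y.1)]
  have hLd : ∀ x ∈ L, infDist x (K : Set E) ≤ ε / 2 := by
    intro x hx
    have := mem_iInter.1 hx ⟨0, by simp [hY]⟩
    have h2 := ht1 ⟨0, by simp [hY]⟩
    have h3 : τ ≤ ε / 4 := min_le_left _ _
    simp only [mem_ofPred_eq, g, inner_zero_left, norm_zero] at this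
    nlinarith
  have hLb : L ⊆ closedBall 0 (R + 1) := by
    intro x hx
    obtain ⟨p, hp, ep⟩ := K.isCompact.exists_infDist_eq_dist K.nonempty x
    have h1 := hLd x hx
    have h2 := hR hp
    rw [mem_closedBall] at h2 ⊢
    linarith [dist_triangle x p 0]
  have hLc : IsClosed L := isClosed_iInter fun y => isClosed_le (hcont _) continuous_const
  have hLconv : Convex ℝ L := by
    refine convex_iInter fun y => ?_
    have h1 : ConvexOn ℝ univ (g (K : Set E) η (ε / 4) y.1) := by
      refine (convexOn_infDist K.convex K.isCompact K.nonempty).add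
        ⟨convex_univ, fun x _ z _ a b _ _ hab => le_of_eq ?_⟩
      simp only [inner_add_right, real_inner_smul_right, smul_eq_mul]
      have : b = 1 - a := by linarith
      subst this; ring
    simpa using h1.convex_le (t y)
  refine ⟨⟨L, hLconv, (isCompact_closedBall _ _).of_isClosed_subset hLc hLb,
    K.nonempty.mono hKL⟩, ?_, ?_⟩
  · rw [← ConvexBody.hausdorffDist_coe]
    refine lt_of_le_of_lt (hausdorffDist_le_of_infDist (r := ε / 2) (by positivity) ?_ hLd)
      (by linarith)
    intro x hx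
    rw [ConvexBody.coe_mk, infDist_zero_of_mem (hKL hx)]; positivity
  · rintro ⟨θ, hsep, hfr⟩
    rw [ConvexBody.coe_mk] at hfr
    have key : ∀ p ∈ frontier L, ∃ y : Y, t y = g K η (ε / 4) y.1 p ∧ dist p y.1 < ρ / 2 := by
      intro p hp
      rw [hLc.frontier_eq] at hp
      have hpL := mem_iInter.1 hp.1
      have : ∃ y : Y, t y = g K η (ε / 4) y.1 p := by
        by_contra hne
        push Not at hne
        apply hp.2
        rw [hL, interior_iInter_of_finite, mem_iInter]
        intro y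
        refine interior_maximal (t := {x | g K η (ε / 4) y.1 x < t y}) (fun x hx => ?_)
          (isOpen_lt (hcont _) continuous_const) ?_
        · simp only [mem_ofPred_eq] at hx ⊢; exact hx.le
        · exact lt_of_le_of_ne (hpL y) (hne y).symm
      obtain ⟨y, hy⟩ := this
      refine ⟨y, hy, ?_⟩
      obtain ⟨y', hy', hb⟩ := mem_iUnion₂.1 (hcov (hLb hp.1))
      have h1 := hpL ⟨y', by simp [hY, hy']⟩
      have h2 := ht1 ⟨y', by simp [hY, hy']⟩
      have h3 := ht0 y
      have h4 : τ ≤ η * ρ ^ 2 / 16 := min_le_right _ _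
      rw [mem_ball] at hb
      have h5 : dist p y' ^ 2 ≤ (ρ / 4) ^ 2 := by gcongr
      simp only [mem_ofPred_eq, g_eq] at h1 hy
      have h6 : η * dist p y.1 ^ 2 < η * (ρ / 2) ^ 2 := by nlinarith [sq_pos_of_pos hρ]
      have h7 := lt_of_mul_lt_mul_left h6 hη0.le
      exact lt_of_pow_lt_pow_left₀ 2 (by positivity) h7
    choose σ hσ using fun s => key _ (hfr s)
    refine ht ⟨σ, fun s s' e => ?_, θ, fun s => (hσ s).1⟩
    by_contra hne
    have h1 := hsep s s' hne
    have h2 := (hσ s).2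
    have h3 := (hσ s').2
    rw [← e] at h3
    linarith [dist_triangle_right (V s θ) (V s' θ) (σ s).1]

theorem main {S Θ : Type} [Fintype S] [Nonempty S] [NormedAddCommGroup Θ]
    [NormedSpace ℝ Θ] [FiniteDimensional ℝ Θ] (hdim : Module.finrank ℝ Θ < Fintype.card S)
    (V : S → Θ →L[ℝ] E) :
    {K : ConvexBody E | ¬ ∃ θ : Θ, Function.Injective (fun s => V s θ) ∧
      ∀ s, V s θ ∈ frontier (K : Set E)} ∈ residual (ConvexBody E) := by
  classical
  let C : ℕ → Set Θ := fun m => closedBall 0 m ∩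
    ⋂ s, ⋂ t, ⋂ _ : s ≠ t, {θ | 1 / ((m : ℝ) + 1) ≤ dist (V s θ) (V t θ)}
  have hC : ∀ m, IsCompact (C m) := fun m => (isCompact_closedBall _ _).inter_right
    (isClosed_iInter fun s => isClosed_iInter fun t => isClosed_iInter fun _ =>
      isClosed_le continuous_const (by fun_prop))
  let F : ℕ → Set (ConvexBody E) := fun m => {K | ∃ θ ∈ C m, ∀ s, V s θ ∈ frontier (K : Set E)}
  have hF : ∀ m, IsClosed (F m) := by
    intro m
    have : CompactSpace (C m) := isCompact_iff_compactSpace.1 (hC m)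
    have h1 : IsClosed {z : ConvexBody E × C m | ∀ s, V s z.2.1 ∈ frontier (z.1 : Set E)} := by
      rw [ofPred_forall]
      refine isClosed_iInter fun s => ?_
      exact closed_frontier.preimage (f := fun z : ConvexBody E × C m => (z.1, V s z.2.1))
        (by fun_prop)
    convert isClosedMap_fst_of_compactSpace _ h1 using 1
    ext K
    simp [F]
  have hD : ∀ m, Dense (F m)ᶜ := by
    intro m
    rw [Metric.dense_iff]
    intro K r hr
    obtain ⟨L, h1, h2⟩ := approx hdim V K (ε := min r 1) (ρ := 1 / ((m : ℝ) + 1))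
      (by positivity) (min_le_right _ _) (by positivity)
    refine ⟨L, ?_, ?_⟩
    · rw [mem_ball, dist_comm]; exact h1.trans_le (min_le_left _ _)
    · rintro ⟨θ, hθ, h3⟩
      refine h2 ⟨θ, fun s t hst => ?_, h3⟩
      exact mem_iInter.1 (mem_iInter.1 (mem_iInter.1 hθ.2 s) t) hst
  refine mem_of_superset (countable_iInter_mem.2 fun m =>
    residual_of_dense_open (hF m).isOpen_compl (hD m)) ?_
  rintro K hK ⟨θ, hinj, hfr⟩
  have h1 : ∀ᶠ m : ℕ in atTop, θ ∈ C m := by
    have a1 : ∀ᶠ m : ℕ in atTop, θ ∈ closedBall (0 : Θ) m := by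
      filter_upwards [tendsto_natCast_atTop_atTop (R := ℝ) |>.eventually_ge_atTop ‖θ‖] with m hm
      simpa using hm
    refine a1.and ?_
    simp only [mem_iInter, mem_ofPred_eq, eventually_all]
    intro s t hst
    have : 0 < dist (V s θ) (V t θ) := dist_pos.2 fun e => hst (hinj e)
    exact (tendsto_one_div_add_atTop_nhds_zero_nat.eventually (ge_mem_nhds this))
  obtain ⟨m, hm⟩ := h1.exists
  exact mem_iInter.1 hK m ⟨θ, hm, hfr⟩

lemma two_pow (d : ℕ) (hd : 5 ≤ d) : d + d * d < 2 ^ d := by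
  induction d, hd using Nat.le_induction with
  | base => norm_num
  | succ n hn ih => rw [pow_succ]; nlinarith

end Pool.Agent.H6.Parallelotope
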