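import Mathlib
import Pool.Agent.H6.Parallelotope

namespace Pool.Agent.H6.Parallelotope

open Set Metric Topology Filter TopologicalSpace

variable {E : Type} [NormedAddCommGroup E] [InnerProductSpace ℝ E] [FiniteDimensional ℝ E]

def toNC (K : ConvexBody E) : NonemptyCompacts E := ⟨⟨K, K.isCompact⟩, K.nonempty⟩

omit [FiniteDimensional ℝ E] in
lemma toNC_iso : Isometry (toNC : ConvexBody E → NonemptyCompacts E) :=
  Isometry.of_dist_eq fun K L => by
    rw [NonemptyCompacts.dist_eq, ← ConvexBody.hausdorffDist_coe]; rfl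

lemma complete : CompleteSpace (ConvexBody E) := by
  have : CompleteSpace E := FiniteDimensional.complete ℝ E
  rw [completeSpace_iff_isComplete_range toNC_iso.isUniformInducing]
  apply IsClosed.isComplete
  refine isClosed_of_closure_subset fun K hK => ?_
  have hconv : Convex ℝ (K : Set E) := by
    intro x hx y hy a b ha hb hab
    rw [← K.isCompact.isClosed.closure_eq, Metric.mem_closure_iff]
    intro ε hε
    obtain ⟨_, ⟨L, rfl⟩, hL⟩ := Metric.mem_closure_iff.1 hK (ε / 2) (by positivity)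
    rw [NonemptyCompacts.dist_eq] at hL
    have hfin : hausdorffEDist (K : Set E) (toNC L : Set E) ≠ ⊤ :=
      hausdorffEDist_ne_top_of_nonempty_of_bounded K.nonempty (toNC L).nonempty
        K.isCompact.isBounded (toNC L).isCompact.isBounded
    obtain ⟨x', hx', dx⟩ := exists_dist_lt_of_hausdorffDist_lt hx hL hfin
    obtain ⟨y', hy', dy⟩ := exists_dist_lt_of_hausdorffDist_lt hy hL hfin
    obtain ⟨z, hz, dz⟩ := exists_dist_lt_of_hausdorffDist_lt'
      (show a • x' + b • y' ∈ (toNC L : Set E) from L.convex hx' hy' ha hb hab) hL hfin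
    refine ⟨z, hz, ?_⟩
    have h1 : dist (a • x + b • y) (a • x' + b • y') ≤ ε / 2 := by
      rw [dist_eq_norm] at dx dy ⊢
      have : a • x + b • y - (a • x' + b • y') = a • (x - x') + b • (y - y') := by module
      rw [this]
      refine (norm_add_le _ _).trans ?_
      rw [norm_smul, norm_smul, Real.norm_of_nonneg ha, Real.norm_of_nonneg hb]
      nlinarith [mul_le_mul_of_nonneg_left dx.le ha, mul_le_mul_of_nonneg_left dy.le hb]
    linarith [dist_triangle_right (a • x + b • y) z (a • x' + b • y')]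
  exact ⟨⟨K, hconv, K.isCompact, K.nonempty⟩, rfl⟩

lemma zero_mem (L : ConvexBody E)
    (h : hausdorffDist (closedBall (0 : E) 1) (L : Set E) < 1 / 2) : (0 : E) ∈ (L : Set E) := by
  have : CompleteSpace E := FiniteDimensional.complete ℝ E
  by_contra hyL
  obtain ⟨f, u, hf, hu⟩ := geometric_hahn_banach_closed_point L.convex L.isClosed hyL
  set n := (InnerProductSpace.toDual ℝ E).symm f with hn
  have hfn : ∀ x, f x = inner ℝ n x := fun x => by simp [hn]
  have hn0 : 0 < ‖n‖ := by
    rw [norm_pos_iff]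
    intro h0
    obtain ⟨a, ha⟩ := L.nonempty
    have := hf a ha
    rw [hfn, h0] at this hu
    simp at this hu
    linarith
  have hz' : (1 / ‖n‖) • n ∈ closedBall (0 : E) 1 := by
    rw [mem_closedBall, dist_zero_right, norm_smul, Real.norm_of_nonneg (by positivity)]
    field_simp
    rfl
  obtain ⟨a, ha, hd⟩ := exists_dist_lt_of_hausdorffDist_lt hz' h
    (hausdorffEDist_ne_top_of_nonempty_of_bounded ⟨0, by simp⟩ L.nonempty isBounded_closedBall
      L.isBounded)
  have h1 := hf a ha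
  have h2 := real_inner_le_norm n ((1 / ‖n‖) • n - a)
  rw [← dist_eq_norm, inner_sub_right, real_inner_smul_right,
    real_inner_self_eq_norm_sq, ← hfn] at h2
  have h3 : 1 / ‖n‖ * ‖n‖ ^ 2 = ‖n‖ := by field_simp
  rw [map_zero] at hu
  nlinarith

theorem exists_body {S Θ : Type} [Fintype S] [Nonempty S] [NormedAddCommGroup Θ]
    [NormedSpace ℝ Θ] [FiniteDimensional ℝ Θ] (hdim : Module.finrank ℝ Θ < Fintype.card S)
    (V : S → Θ →L[ℝ] E) :
    ∃ C : Set E, IsCompact C ∧ Convex ℝ C ∧ (interior C).Nonempty ∧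
      ¬ ∃ θ : Θ, Function.Injective (fun s => V s θ) ∧ ∀ s, V s θ ∈ frontier C := by
  have := complete (E := E)
  let B : ConvexBody E := ⟨closedBall 0 1, convex_closedBall _ _, isCompact_closedBall _ _,
    ⟨0, by simp⟩⟩
  have ho : IsOpen ({L : ConvexBody E | (0 : E) ∈ frontier (L : Set E)}ᶜ ∩ ball B (1 / 2)) :=
    (closed_frontier.preimage (f := fun L : ConvexBody E => (L, (0 : E)))
      (by fun_prop)).isOpen_compl.inter isOpen_ball
  obtain ⟨L, hL, h1, h2⟩ := (dense_of_mem_residual (main hdim V)).exists_mem_open ho ⟨B, by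
    refine ⟨?_, mem_ball_self (by norm_num)⟩
    simp only [mem_compl_iff, mem_ofPred_eq, B, ConvexBody.coe_mk]
    rw [frontier_closedBall _ one_ne_zero]
    simp⟩
  refine ⟨L, L.isCompact, L.convex, ⟨0, ?_⟩, hL⟩
  have h0 : (0 : E) ∈ (L : Set E) := zero_mem L (by
    rw [mem_ball, dist_comm, ← ConvexBody.hausdorffDist_coe] at h2; exact h2)
  simp only [mem_compl_iff, mem_ofPred_eq, L.isClosed.frontier_eq, Set.mem_sdiff, not_and,
    not_not] at h1
  exact h1 h0

theorem fails (d : ℕ) (hd : 5 ≤ d) :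
    ∃ C : Set (EuclideanSpace ℝ (Fin d)), IsCompact C ∧ Convex ℝ C ∧ (interior C).Nonempty ∧
      ¬ ∃ (a : EuclideanSpace ℝ (Fin d)) (v : Fin d → EuclideanSpace ℝ (Fin d)),
        LinearIndependent ℝ v ∧ ∀ s : Finset (Fin d), a + ∑ i ∈ s, v i ∈ frontier C := by
  let V : Finset (Fin d) → (EuclideanSpace ℝ (Fin d) × (Fin d → EuclideanSpace ℝ (Fin d))) →L[ℝ]
      EuclideanSpace ℝ (Fin d) := fun s =>
    ContinuousLinearMap.fst ℝ _ _ +
      ∑ i ∈ s, (ContinuousLinearMap.proj i).comp (ContinuousLinearMap.snd ℝ _ _)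
  have hV : ∀ s θ, V s θ = θ.1 + ∑ i ∈ s, θ.2 i := by
    intro s θ
    simp [V]
  obtain ⟨C, h1, h2, h3, hK⟩ := exists_body (by
    have := two_pow d hd
    simpa [Module.finrank_prod, Module.finrank_pi_fintype] using this) V
  refine ⟨C, h1, h2, h3, ?_⟩
  rintro ⟨x, v, hv, hfr⟩
  refine hK ⟨(x, v), fun s t e => ?_, fun s => by rw [hV]; exact hfr s⟩
  simp only [hV, add_right_inj] at e
  have h1 : ∑ i, ((if i ∈ s then (1 : ℝ) else 0) - (if i ∈ t then (1 : ℝ) else 0)) • v i = 0 := by
    simp only [sub_smul, Finset.sum_sub_distrib, ite_smul, one_smul, zero_smul,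
      Finset.sum_ite_mem, Finset.univ_inter]
    rw [e, sub_self]
  have h2 := Fintype.linearIndependent_iff.1 hv _ h1
  ext i
  have := h2 i
  by_cases a : i ∈ s <;> by_cases b : i ∈ t <;> simp_all

end Pool.Agent.H6.Parallelotope
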