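import Mathlib

namespace Pool.Agent.H6.PermOsc

/-- A permutation in one-line form: a list of the numbers `0, ..., n-1` in some order. -/
def IsPerm (l : List ℕ) : Prop := l.Perm (List.range l.length)

/-- The pattern of a list: every entry is replaced by the number of smaller entries. -/
def std (l : List ℕ) : List ℕ := l.map fun x => (l.filter (· < x)).length

/-- A permutation class: a set of permutations closed under patterns of subsequences. -/
def IsClass (C : Set (List ℕ)) : Prop :=
  (∀ π ∈ C, IsPerm π) ∧ ∀ π ∈ C, ∀ l : List ℕ, l.Sublist π → std l ∈ C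

/-- The direct sum of two permutations. -/
def dsum (σ τ : List ℕ) : List ℕ := σ ++ τ.map (· + σ.length)

/-- Closed under direct sums. -/
def SumClosed (C : Set (List ℕ)) : Prop := ∀ σ ∈ C, ∀ τ ∈ C, dsum σ τ ∈ C

/-- The indecomposable members of `C`. -/
def ind (C : Set (List ℕ)) : Set (List ℕ) :=
  {π | π ∈ C ∧ π ≠ [] ∧
    ¬ ∃ σ τ : List ℕ, IsPerm σ ∧ IsPerm τ ∧ σ ≠ [] ∧ τ ≠ [] ∧ π = dsum σ τ}

/-- The upper growth rate `limsup |X_n|^(1/n)`. -/
noncomputable def upperGr (X : Set (List ℕ)) : ℝ :=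
  Filter.limsup (fun n : ℕ => (({π ∈ X | π.length = n}.ncard : ℕ) : ℝ) ^ (1 / (n : ℝ)))
    Filter.atTop

end Pool.Agent.H6.PermOsc
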