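import Mathlib
import Pool.Agent.H6.PermOscDefs

namespace Pool.Agent.H6.PermOsc

def rk (l : List ℕ) (x : ℕ) : ℕ := (l.filter (· < x)).length

lemma rk_lt {l : List ℕ} {x y : ℕ} (hx : x ∈ l) (h : x < y) : rk l x < rk l y := by
  unfold rk
  have h1 : l.filter (· < x) = (l.filter (· < y)).filter (· < x) := by
    rw [List.filter_filter]; apply List.filter_congr; intro z _; simp; omega
  rw [h1]
  exact List.length_filter_lt_length_iff_exists.2 ⟨x, by simp [hx, h], by simp⟩

lemma rk_iff {l : List ℕ} {x y : ℕ} (hx : x ∈ l) (hy : y ∈ l) : rk l x < rk l y ↔ x < y := by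
  refine ⟨fun h => ?_, rk_lt hx⟩
  rcases lt_trichotomy x y with h1 | h1 | h1
  · exact h1
  · subst h1; omega
  · have := rk_lt hy h1; omega

lemma std_perm {l : List ℕ} (h : l.Nodup) : IsPerm (std l) := by
  have hn : (std l).Nodup := by
    refine List.Nodup.map_on (fun x hx y hy hxy => ?_) h
    have h1 := rk_iff hx hy
    have h2 := rk_iff hy hx
    unfold rk at h1 h2
    omega
  refine (List.subperm_of_subset hn fun z hz => ?_).perm_of_length_le (by simp)
  obtain ⟨x, hx, rfl⟩ := List.mem_map.1 hz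
  simp only [std, List.length_map, List.mem_range]
  exact List.length_filter_lt_length_iff_exists.2 ⟨x, hx, by simp⟩

lemma IsPerm.nodup {l : List ℕ} (h : IsPerm l) : l.Nodup := h.nodup_iff.2 List.nodup_range
lemma IsPerm.mem {l : List ℕ} (h : IsPerm l) {x : ℕ} : x ∈ l ↔ x < l.length :=
  h.mem_iff.trans List.mem_range

def Bad : List ℕ → Prop
  | [a, b, c] => b < a ∧ c < b
  | [a, b, c, d] => (a < b ∧ b < c ∧ d < a) ∨ (c < d ∧ d < a ∧ a < b)
  | [a, b, c, d, e] => b < c ∧ c < d ∧ d < e ∧ e < a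
  | _ => False

def Av (l : List ℕ) : Prop := ∀ s : List ℕ, s.Sublist l → ¬ Bad s

def CC : Set (List ℕ) := {π | IsPerm π ∧ Av π}

lemma bad_map {s : List ℕ} {f : ℕ → ℕ} (hf : ∀ x ∈ s, ∀ y ∈ s, f x < f y → x < y)
    (h : Bad (s.map f)) : Bad s := by
  rcases s with _ | ⟨a, _ | ⟨b, _ | ⟨c, _ | ⟨d, _ | ⟨e, _ | ⟨g, t⟩⟩⟩⟩⟩⟩ <;>
    simp only [List.map, Bad] at h ⊢
  · exact ⟨hf _ (by simp) _ (by simp) h.1, hf _ (by simp) _ (by simp) h.2⟩
  · exact h.imp (fun h => ⟨hf _ (by simp) _ (by simp) h.1, hf _ (by simp) _ (by simp) h.2.1,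
      hf _ (by simp) _ (by simp) h.2.2⟩) (fun h => ⟨hf _ (by simp) _ (by simp) h.1,
      hf _ (by simp) _ (by simp) h.2.1, hf _ (by simp) _ (by simp) h.2.2⟩)
  · exact ⟨hf _ (by simp) _ (by simp) h.1, hf _ (by simp) _ (by simp) h.2.1,
      hf _ (by simp) _ (by simp) h.2.2.1, hf _ (by simp) _ (by simp) h.2.2.2⟩

lemma av_map {l : List ℕ} {f : ℕ → ℕ} (hf : ∀ x ∈ l, ∀ y ∈ l, f x < f y → x < y)
    (h : Av l) : Av (l.map f) := by
  intro s hs hb
  obtain ⟨s', h1, rfl⟩ := List.sublist_map_iff.1 hs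
  exact h s' h1 (bad_map (fun x hx y hy => hf x (h1.subset hx) y (h1.subset hy)) hb)

lemma Av.sub {l l' : List ℕ} (h : Av l) (hs : l'.Sublist l) : Av l' :=
  fun s h1 => h s (h1.trans hs)

lemma bad_split {l1 l2 : List ℕ} (h : Bad (l1 ++ l2)) (h1 : l1 ≠ []) (h2 : l2 ≠ []) :
    ∃ a ∈ l1, ∃ d ∈ l2, d < a := by
  by_contra hc
  push Not at hc
  rcases l1 with _ | ⟨a, _ | ⟨b, _ | ⟨c, _ | ⟨d, _ | ⟨e, t⟩⟩⟩⟩⟩ <;>
    rcases l2 with _ | ⟨a', _ | ⟨b', _ | ⟨c', _ | ⟨d', _ | ⟨e', t'⟩⟩⟩⟩⟩ <;>
    simp only [List.cons_append, List.nil_append, Bad, List.forall_mem_cons, List.not_mem_nil,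
      ne_eq, not_true_eq_false] at h hc h1 h2 <;> first | omega | skip
  all_goals (rcases t with _ | ⟨g, t⟩ <;> simp [Bad] at h)

lemma cc_class : IsClass CC :=
  ⟨fun _ h => h.1, fun _ h _ hl => ⟨std_perm (h.1.nodup.sublist hl),
    av_map (f := rk _) (fun _ hx _ hy => (rk_iff hx hy).1) (h.2.sub hl)⟩⟩

lemma cc_sum : SumClosed CC := by
  rintro σ ⟨h1, h2⟩ τ ⟨h3, h4⟩
  constructor
  · unfold IsPerm dsum
    rw [List.length_append, List.length_map, List.range_add]
    refine h1.append ((h3.map _).trans ?_)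
    simp only [add_comm]; exact List.Perm.refl _
  · intro s hs hb
    obtain ⟨l1, l2, rfl, e1, e2⟩ := List.sublist_append_iff.1 hs
    by_cases c1 : l1 = []
    · subst c1
      exact av_map (f := (· + σ.length)) (fun x _ y _ h => by omega) h4 _ e2 hb
    by_cases c2 : l2 = []
    · subst c2; rw [List.append_nil] at hb; exact h2 _ e1 hb
    obtain ⟨a, ha, d, hd, had⟩ := bad_split hb c1 c2
    have := h1.mem.1 (e1.subset ha)
    obtain ⟨z, -, rfl⟩ := List.mem_map.1 (e2.subset hd)
    omega

/-- codes -/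
def code : List ℕ → List ℕ
  | [] => []
  | x :: t => rk t x :: code t

lemma rk_cons (x y : ℕ) (t : List ℕ) : rk (x :: t) y = rk t y + if x < y then 1 else 0 := by
  unfold rk; rw [List.filter_cons]; split_ifs with h1 h2 h2 <;> simp_all

lemma code_inj : ∀ {l l' : List ℕ}, l.Perm l' → code l = code l' → l = l'
  | [], _, h, _ => h.nil_eq
  | _ :: _, [], h, _ => h.eq_nil
  | x :: t, y :: t', h, hc => by
    simp only [code, List.cons.injEq] at hc
    have e : ∀ z, rk (x :: t) z = rk (y :: t') z := fun z => (h.filter _).length_eq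
    have hx : x ∈ y :: t' := h.subset (by simp)
    have h1 := rk_iff (l := y :: t') hx (by simp : y ∈ y :: t')
    have h2 := rk_iff (l := y :: t') (by simp : y ∈ y :: t') hx
    have h3 := e x
    rw [rk_cons x x] at h3
    have h4 := rk_cons y y t'
    simp only [lt_irrefl, if_false] at h3 h4
    have : x = y := by omega
    subst this
    rw [code_inj h.cons_inv hc.2]

/-- accepted words; states 0-3 are F_k, states 4-6 are S_k. -/
def W (b : Bool) : ℕ → ℕ → Finset (List ℕ)
  | 0, s => if s = 0 then {[]} else ∅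
  | n + 1, s =>
    if s = 0 then (if b then (Finset.range 4).biUnion fun k => (W b n k).image (k :: ·) else ∅)
    else if s = 1 then (W b n 0).image (0 :: ·) ∪
      (Finset.range 3).biUnion fun k => (W b n (4 + k)).image ((k + 1) :: ·)
    else if s ≤ 3 then (W b n (s - 1)).image (0 :: ·)
    else (W b n (s - 4)).image (0 :: ·)

def Conn (m : ℕ) (t : List ℕ) : Prop :=
  ∀ p s : List ℕ, t = p ++ s → s ≠ [] → ∃ d ∈ s, d < m ∨ ∃ a ∈ p, d < a

lemma rk_zero {t : List ℕ} {x : ℕ} (h : ∀ z ∈ t, ¬ z < x) : rk t x = 0 := by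
  unfold rk; rw [List.length_eq_zero_iff, List.filter_eq_nil_iff]; simpa using h

lemma rk_pos {t : List ℕ} {x : ℕ} (h : 0 < rk t x) : ∃ z ∈ t, z < x := by
  by_contra hc; push Not at hc
  rw [rk_zero fun z hz => by have := hc z hz; omega] at h; omega

lemma small {m x : ℕ} {t : List ℕ} (h : Av (m :: x :: t)) (hx : x < m) : rk t x = 0 :=
  rk_zero fun z hz hzx => h [m, x, z] (by simp [hz]) ⟨hx, hzx⟩

lemma filt_inc {m : ℕ} {t : List ℕ} (h : Av (m :: t)) (hn : t.Nodup) :
    (t.filter (· < m)).Pairwise (· < ·) := by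
  rw [List.pairwise_iff_forall_sublist]
  intro a b hab
  have ha : a < m := by simpa using (List.mem_filter.1 (hab.subset (by simp : a ∈ [a, b]))).2
  have h1 := hab.trans List.filter_sublist
  have h2 : a ≠ b := by simpa using hn.sublist h1
  have := h [m, a, b] (by simpa using h1)
  simp only [Bad] at this
  omega

lemma rk_le3 {m : ℕ} {t : List ℕ} (h : Av (m :: t)) (hn : t.Nodup) : rk t m ≤ 3 := by
  by_contra hc
  have h1 := filt_inc h hn
  have h2 : (t.filter (· < m)).Sublist t := List.filter_sublist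
  have h3 : ∀ z ∈ t.filter (· < m), z < m := fun z hz => by simpa using (List.mem_filter.1 hz).2
  unfold rk at hc
  generalize t.filter (· < m) = u at *
  rcases u with _ | ⟨a, _ | ⟨b, _ | ⟨c, _ | ⟨d, u⟩⟩⟩⟩ <;> simp at hc
  have h4 : [a, b, c, d].Sublist t := List.Sublist.trans (by simp) h2
  simp only [List.pairwise_cons, List.forall_mem_cons] at h1 h3
  exact h [m, a, b, c, d] (by simpa using h4) ⟨h1.1.1, h1.2.1.1, h1.2.2.1.1, h3.2.2.2.1⟩

lemma rk_le1 {m x : ℕ} {t : List ℕ} (h : Av (m :: x :: t)) (hn : t.Nodup) (hx : m < x) :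
    rk t m ≤ 1 := by
  by_contra hc
  have h1 := filt_inc (h.sub (l' := m :: t) (by simp)) hn
  have h2 : (t.filter (· < m)).Sublist t := List.filter_sublist
  have h3 : ∀ z ∈ t.filter (· < m), z < m := fun z hz => by simpa using (List.mem_filter.1 hz).2
  unfold rk at hc
  generalize t.filter (· < m) = u at *
  rcases u with _ | ⟨a, _ | ⟨b, u⟩⟩ <;> simp at hc
  have h4 : [a, b].Sublist t := List.Sublist.trans (by simp) h2
  simp only [List.pairwise_cons, List.forall_mem_cons] at h1 h3
  exact h [m, x, a, b] (by simpa using h4) (Or.inr ⟨h1.1.1, h3.2.1, hx⟩)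

lemma conn_tail {m m' x : ℕ} {t : List ℕ} (h : Conn m (x :: t)) (h1 : m ≤ m') (h2 : x ≤ m') :
    Conn m' t := by
  intro p s hp hs
  obtain ⟨d, hd, h3 | ⟨a, ha, h3⟩⟩ := h (x :: p) s (by rw [hp]; rfl) hs
  · exact ⟨d, hd, Or.inl (by omega)⟩
  · rcases List.mem_cons.1 ha with rfl | ha
    · exact ⟨d, hd, Or.inl (by omega)⟩
    · exact ⟨d, hd, Or.inr ⟨a, ha, h3⟩⟩

lemma rk_mono (t : List ℕ) {x y : ℕ} (h : x ≤ y) : rk t x ≤ rk t y := by
  induction t with
  | nil => simp [rk]
  | cons a t ih => rw [rk_cons, rk_cons]; split_ifs <;> omega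

lemma accept (b : Bool) : ∀ t : List ℕ,
    (∀ m, (m :: t).Nodup → Av (m :: t) → (b = false → Conn m t) →
      code t ∈ W b t.length (rk t m)) ∧
    (∀ m1 m2, m1 < m2 → (m2 :: t).Nodup → m1 ∉ t → Av (m1 :: m2 :: t) → rk t m1 = 1 →
      (b = false → Conn m2 t) → code t ∈ W b t.length (3 + rk t m2))
  | [] => ⟨fun m _ _ _ => by simp [code, W, rk], fun m1 m2 _ _ _ _ h _ => by simp [rk] at h⟩
  | x :: t => by
    obtain ⟨ih1, ih2⟩ := accept b t
    constructor
    · intro m hn ha hc
      have hmx : m ≠ x := by intro h; subst h; simp at hn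
      have hn1 : (m :: t).Nodup := hn.sublist (by simp)
      have hn2 : (x :: t).Nodup := hn.sublist (by simp)
      have hn3 : t.Nodup := hn2.sublist (by simp)
      have ha1 : Av (m :: t) := ha.sub (by simp)
      have ha2 : Av (x :: t) := ha.sub (by simp)
      have h3 := rk_le3 ha hn2
      rw [rk_cons] at h3 ⊢
      simp only [code, List.length_cons, W]
      by_cases hx : x < m
      · have := ih1 m hn1 ha1 fun hb => conn_tail (hc hb) le_rfl hx.le
        rw [small ha hx]
        simp only [hx, if_true] at h3 ⊢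
        rw [if_neg (by omega)]
        split_ifs with c1
        · have c2 : rk t m = 0 := by omega
          rw [c2] at this
          exact Finset.mem_union_left _ (Finset.mem_image_of_mem _ this)
        · exact Finset.mem_image_of_mem _ this
      · have hmx' : m < x := by omega
        have h4 := rk_le1 ha hn3 hmx'
        have h5 := rk_le3 ha2 hn3
        simp only [hx, if_false, add_zero]
        split_ifs with c1 c2 c3
        · exact Finset.mem_biUnion.2 ⟨rk t x, Finset.mem_range.2 (by omega),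
            Finset.mem_image_of_mem _ (ih1 x hn2 ha2 fun hb => by simp [hb] at c2)⟩
        · obtain ⟨d, hd, h6 | ⟨a, ha, _⟩⟩ := hc (by simpa using c2) [] (x :: t) rfl (by simp)
          · rcases List.mem_cons.1 hd with rfl | hd
            · omega
            · have := rk_lt hd h6; omega
          · simp at ha
        · have h6 := rk_mono t hmx'.le
          have := ih2 m x hmx' hn2 (List.nodup_cons.1 hn1).1 ha c3
            fun hb => conn_tail (hc hb) hmx'.le le_rfl
          refine Finset.mem_union_right _ (Finset.mem_biUnion.2 ⟨rk t x - 1,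
            Finset.mem_range.2 (by omega), Finset.mem_image.2 ⟨code t, ?_, ?_⟩⟩)
          · rwa [show 4 + (rk t x - 1) = 3 + rk t x by omega]
          · rw [show rk t x - 1 + 1 = rk t x by omega]
        all_goals omega
    · intro m1 m2 h12 hn hm1 ha h1 hc
      have hmx : m2 ≠ x := by intro h; subst h; simp at hn
      have hmx1 : m1 ≠ x := by intro h; subst h; simp at hm1
      have hn1 : (m2 :: t).Nodup := hn.sublist (by simp)
      have ha0 : Av (m2 :: x :: t) := ha.sub (by simp)
      have hx : x < m2 := by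
        by_contra hx
        rw [rk_cons, if_neg (by omega)] at h1
        obtain ⟨z, hz, hz1⟩ := rk_pos (t := t) (x := m1) (by omega)
        exact ha [m1, m2, x, z] (by simp [hz]) (Or.inl ⟨h12, by omega, hz1⟩)
      have := ih1 m2 hn1 (ha0.sub (by simp)) fun hb => conn_tail (hc hb) le_rfl hx.le
      rw [rk_cons]
      simp only [code, List.length_cons, W, hx, if_true]
      rw [if_neg (by omega), if_neg (by omega), if_neg (by omega), small ha0 hx,
        show 3 + (rk t m2 + 1) - 4 = rk t m2 by omega]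
      exact Finset.mem_image_of_mem _ this

lemma card_W (b : Bool) (lam v1 : ℝ) (hl : 0 < lam) (hv : 0 ≤ v1)
    (h0 : b = true → 1 + v1 + v1 / lam + v1 / lam ^ 2 ≤ lam)
    (h1 : 1 + 1 / lam + v1 / lam + v1 / lam ^ 2 ≤ lam * v1) (n : ℕ) :
    ((W b n 0).card : ℝ) ≤ lam ^ n ∧ ((W b n 1).card : ℝ) ≤ v1 * lam ^ n ∧
    ((W b n 2).card : ℝ) ≤ v1 / lam * lam ^ n ∧ ((W b n 3).card : ℝ) ≤ v1 / lam ^ 2 * lam ^ n ∧
    ((W b n 4).card : ℝ) ≤ 1 / lam * lam ^ n ∧ ((W b n 5).card : ℝ) ≤ v1 / lam * lam ^ n ∧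
    ((W b n 6).card : ℝ) ≤ v1 / lam ^ 2 * lam ^ n := by
  induction n with
  | zero => simp [W]; refine ⟨hv, ?_, ?_, ?_, ?_, ?_⟩ <;> positivity
  | succ n ih =>
    obtain ⟨i0, i1, i2, i3, i4, i5, i6⟩ := ih
    have hp : 0 < lam ^ n := by positivity
    have im : ∀ s k, (((W b n s).image (k :: ·)).card : ℝ) ≤ (W b n s).card :=
      fun s k => by exact_mod_cast Finset.card_image_le
    have e : ∀ c : ℝ, c / lam * lam ^ (n + 1) = c * lam ^ n := fun c => by field_simp; ring
    have e2 : v1 / lam ^ 2 * lam ^ (n + 1) = v1 / lam * lam ^ n := by field_simp; ring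
    refine ⟨?_, ?_, ?_, ?_, ?_, ?_, ?_⟩
    · simp only [W, if_true]
      split_ifs with hb
      · have h2 : (((Finset.range 4).biUnion fun k => (W b n k).image (k :: ·)).card : ℝ) ≤
            ∑ k ∈ Finset.range 4, (((W b n k).image (k :: ·)).card : ℝ) := by
          exact_mod_cast Finset.card_biUnion_le
        simp only [Finset.sum_range_succ, Finset.sum_range_zero] at h2
        have := mul_le_mul_of_nonneg_right (h0 hb) hp.le
        rw [pow_succ]
        nlinarith [im 0 0, im 1 1, im 2 2, im 3 3]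
      · simp; positivity
    · simp only [W, if_true, one_ne_zero, if_false]
      have h2 : (((Finset.range 3).biUnion fun k => (W b n (4 + k)).image ((k + 1) :: ·)).card : ℝ)
          ≤ ∑ k ∈ Finset.range 3, (((W b n (4 + k)).image ((k + 1) :: ·)).card : ℝ) := by
        exact_mod_cast Finset.card_biUnion_le
      have h3 : (((W b n 0).image (0 :: ·) ∪
          (Finset.range 3).biUnion fun k => (W b n (4 + k)).image ((k + 1) :: ·)).card : ℝ) ≤
          ((W b n 0).image (0 :: ·)).card +
          ((Finset.range 3).biUnion fun k => (W b n (4 + k)).image ((k + 1) :: ·)).card := by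
        exact_mod_cast Finset.card_union_le _ _
      simp only [Finset.sum_range_succ, Finset.sum_range_zero] at h2
      have := mul_le_mul_of_nonneg_right h1 hp.le
      rw [pow_succ]
      nlinarith [im 0 0, im 4 1, im 5 2, im 6 3]
    · rw [e]; exact (im 1 0).trans i1
    · rw [e2]; exact (im 2 0).trans i2
    · rw [e, one_mul]; exact (im 0 0).trans i0
    · rw [e]; exact (im 1 0).trans i1
    · rw [e2]; exact (im 2 0).trans i2

lemma rk_self {l : List ℕ} (h : IsPerm l) {x : ℕ} (hx : x ∈ l) : rk l x = x := by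
  unfold rk
  rw [(h.filter _).length_eq]
  have hx' : x < l.length := h.mem.1 hx
  have : (List.range l.length).filter (· < x) = List.range x := by
    refine List.Perm.eq_of_pairwise (le := (· < ·)) (fun a b _ _ h1 h2 => by omega)
      (List.pairwise_lt_range.filter _) List.pairwise_lt_range ?_
    refine (List.perm_ext_iff_of_nodup (List.nodup_range.filter _) List.nodup_range).2 fun a => ?_
    simp; omega
  simp [this]

lemma perm_of {l : List ℕ} (hn : l.Nodup) (h : ∀ z ∈ l, z < l.length) : IsPerm l :=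
  (List.subperm_of_subset hn fun z hz => List.mem_range.2 (h z hz)).perm_of_length_le (by simp)

lemma conn_of_ind {x : ℕ} {t : List ℕ} (h : x :: t ∈ ind CC) : Conn x t := by
  intro p s hp hs
  by_contra hc
  push Not at hc
  obtain ⟨⟨h1, -⟩, -, h2⟩ := h
  subst hp
  have hn := h1.nodup
  rw [← List.cons_append] at h1 hn h2
  have hle : ∀ d ∈ s, ∀ a ∈ x :: p, a < d := by
    intro d hd a ha
    have h3 : a ≠ d := (List.nodup_append.1 hn).2.2 a ha d hd
    rcases List.mem_cons.1 ha with rfl | ha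
    · have := (hc d hd).1; omega
    · have := (hc d hd).2 a ha; omega
  have hσ : x :: p ≠ [] := by simp
  clear hc
  generalize x :: p = σ at *
  have app : ∀ z, rk (σ ++ s) z = rk σ z + rk s z := fun z => by simp [rk]
  have hA : ∀ a ∈ σ, a < σ.length := by
    intro a ha
    have h3 := rk_self h1 (List.mem_append_left s ha)
    rw [app, rk_zero (t := s) fun z hz => by have := hle z hz a ha; omega] at h3
    have : rk σ a < σ.length := List.length_filter_lt_length_iff_exists.2 ⟨a, ha, by simp⟩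
    omega
  have hB : ∀ d ∈ s, σ.length ≤ d := by
    intro d hd
    have h3 := rk_self h1 (List.mem_append_right σ hd)
    have : rk σ d = σ.length := by
      unfold rk; rw [List.filter_eq_self.2 fun a ha => by simpa using hle d hd a ha]
    rw [app] at h3; omega
  refine h2 ⟨σ, s.map (· - σ.length), perm_of (List.nodup_append.1 hn).1 hA, perm_of ?_ ?_, hσ,
    by simpa using hs, ?_⟩
  · refine List.Nodup.map_on (fun a ha b hb hab => ?_) (List.nodup_append.1 hn).2.1
    have := hB a ha; have := hB b hb; omega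
  · intro z hz
    obtain ⟨d, hd, rfl⟩ := List.mem_map.1 hz
    have := h1.mem.1 (List.mem_append_right σ hd)
    have := hB d hd
    simp at *; omega
  · unfold dsum
    rw [List.map_map]
    congr 1
    conv_lhs => rw [← List.map_id s]
    exact List.map_congr_left fun d hd => by have := hB d hd; simp; omega

lemma fin_len (X : Set (List ℕ)) (hX : ∀ π ∈ X, IsPerm π) (n : ℕ) :
    {π ∈ X | π.length = n}.Finite :=
  (List.permutations (List.range n)).finite_toSet.subset fun π h => by
    have := hX π h.1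
    unfold IsPerm at this
    rw [h.2] at this
    exact List.mem_permutations.2 this

lemma count_le (b : Bool) (X : Set (List ℕ)) (hX : X ⊆ CC)
    (hc : b = false → ∀ x t, x :: t ∈ X → Conn x t) (lam v1 : ℝ) (hl : 0 < lam) (hv : 0 ≤ v1)
    (h0 : b = true → 1 + v1 + v1 / lam + v1 / lam ^ 2 ≤ lam)
    (h1 : 1 + 1 / lam + v1 / lam + v1 / lam ^ 2 ≤ lam * v1) (n : ℕ) :
    (({π ∈ X | π.length = n + 1}.ncard : ℕ) : ℝ) ≤
      (1 + v1 + v1 / lam + v1 / lam ^ 2) * lam ^ n := by
  obtain ⟨i0, i1, i2, i3, -⟩ := card_W b lam v1 hl hv h0 h1 n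
  have im : ∀ s k, (((W b n s).image (k :: ·)).card : ℝ) ≤ (W b n s).card :=
    fun s k => by exact_mod_cast Finset.card_image_le
  have h2 : (((Finset.range 4).biUnion fun k => (W b n k).image (k :: ·)).card : ℝ) ≤
      ∑ k ∈ Finset.range 4, (((W b n k).image (k :: ·)).card : ℝ) := by
    exact_mod_cast Finset.card_biUnion_le
  simp only [Finset.sum_range_succ, Finset.sum_range_zero] at h2
  have h3 : {π ∈ X | π.length = n + 1}.ncard ≤
      ((Finset.range 4).biUnion fun k => (W b n k).image (k :: ·)).card := by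
    rw [← Set.ncard_coe_finset]
    refine Set.ncard_le_ncard_of_injOn code (fun π h => ?_) (fun π h π' h' e => ?_)
    · obtain ⟨h4, h5⟩ := h
      rcases π with _ | ⟨x, t⟩
      · simp at h5
      have hn := (hX h4).1.nodup
      have := (accept b t).1 x hn (hX h4).2 fun hb => hc hb x t h4
      have h6 := rk_le3 (hX h4).2 (hn.sublist (by simp))
      rw [show t.length = n by simpa using h5] at this
      exact Finset.mem_coe.2 (Finset.mem_biUnion.2 ⟨rk t x, Finset.mem_range.2 (by omega),
        Finset.mem_image_of_mem _ this⟩)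
    · have a1 := (hX h.1).1
      have a2 := (hX h'.1).1
      unfold IsPerm at a1 a2
      rw [h.2] at a1; rw [h'.2] at a2
      exact code_inj (a1.trans a2.symm) e
  have h4 : (({π ∈ X | π.length = n + 1}.ncard : ℕ) : ℝ) ≤ _ := Nat.cast_le.2 h3
  nlinarith [im 0 0, im 1 1, im 2 2, im 3 3]

def L : ℕ → List Bool → List ℕ
  | y, [] => [y]
  | y, false :: w => (y + 3) :: y :: L (y + 2) w
  | y, true :: w => (y + 4) :: y :: (y + 2) :: L (y + 3) w

lemma L_pos : ∀ (y : ℕ) (w : List Bool), 1 ≤ (L y w).length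
  | _, [] => by simp [L]
  | _, false :: _ => by simp [L]
  | _, true :: _ => by simp [L]

lemma L_mem : ∀ (w : List Bool) (y z : ℕ), z ∈ L y w → z = y ∨ (y + 2 ≤ z ∧ z ≤ y + (L y w).length)
  | [], y, z => by simp only [L, List.mem_singleton]; exact Or.inl
  | false :: w, y, z => by
    have := L_mem w (y + 2) z
    have := L_pos (y + 2) w
    simp only [L, List.mem_cons, List.length_cons]
    rintro (h | h | h) <;> first | omega | (have := ‹_ → _› h; omega)
  | true :: w, y, z => by
    have := L_mem w (y + 3) z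
    have := L_pos (y + 3) w
    simp only [L, List.mem_cons, List.length_cons]
    rintro (h | h | h | h) <;> first | omega | (have := ‹_ → _› h; omega)

lemma L_self : ∀ (w : List Bool) (y : ℕ), y ∈ L y w
  | [], y => by simp [L]
  | false :: w, y => by simp [L]
  | true :: w, y => by simp [L]

lemma L_nodup : ∀ (w : List Bool) (y : ℕ), (L y w).Nodup
  | [], y => by simp [L]
  | false :: w, y => by
    simp only [L, List.nodup_cons, List.mem_cons, L_nodup w, and_true, not_or]
    refine ⟨⟨by omega, fun h => ?_⟩, fun h => ?_⟩ <;> (have := L_mem _ _ _ h; omega)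
  | true :: w, y => by
    simp only [L, List.nodup_cons, List.mem_cons, L_nodup w, and_true, not_or]
    refine ⟨⟨by omega, by omega, fun h => ?_⟩, ⟨by omega, fun h => ?_⟩, fun h => ?_⟩ <;>
      (have := L_mem _ _ _ h; omega)

lemma L_av : ∀ (w : List Bool) (y : ℕ), Av ((y + 1) :: L y w)
  | [], y => by
    intro s hs hb
    have := hs.length_le
    rcases s with _ | ⟨a, _ | ⟨b, _ | ⟨c, t⟩⟩⟩ <;> simp [Bad, L] at hb this
  | false :: w, y => by
    intro s hs hb
    have ih := L_av w (y + 2)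
    obtain ⟨l1, s', rfl, e1, e2⟩ := List.sublist_append_iff.1
      (show s.Sublist ([y + 1, y + 3, y] ++ L (y + 2) w) from hs)
    have hm : ∀ z ∈ s', y + 2 ≤ z := fun z hz => by have := L_mem _ _ _ (e2.subset hz); omega
    have := List.mem_sublists'.2 e1
    simp only [List.sublists'_cons, List.sublists'_nil, List.map_cons, List.map_nil,
      List.cons_append, List.nil_append, List.mem_cons, List.not_mem_nil, or_false] at this
    rcases this with rfl | rfl | rfl | rfl | rfl | rfl | rfl | rfl <;> first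
      | exact ih _ (e2.cons _) hb
      | exact ih _ (e2.cons_cons _) hb
      | (rcases s' with _ | ⟨a, _ | ⟨b, _ | ⟨c, _ | ⟨d, _ | ⟨e, t⟩⟩⟩⟩⟩ <;>
          simp only [List.cons_append, List.nil_append, Bad, List.forall_mem_cons] at hb hm <;>
          omega)
  | true :: w, y => by
    intro s hs hb
    have ih := L_av w (y + 3)
    obtain ⟨l1, s', rfl, e1, e2⟩ := List.sublist_append_iff.1
      (show s.Sublist ([y + 1, y + 4, y, y + 2] ++ L (y + 3) w) from hs)
    have hm : ∀ z ∈ s', y + 3 ≤ z := fun z hz => by have := L_mem _ _ _ (e2.subset hz); omega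
    have := List.mem_sublists'.2 e1
    simp only [List.sublists'_cons, List.sublists'_nil, List.map_cons, List.map_nil,
      List.cons_append, List.nil_append, List.mem_cons, List.not_mem_nil, or_false] at this
    rcases this with rfl | rfl | rfl | rfl | rfl | rfl | rfl | rfl | rfl | rfl | rfl | rfl | rfl |
      rfl | rfl | rfl <;> first
      | exact ih _ (e2.cons _) hb
      | exact ih _ (e2.cons_cons _) hb
      | (rcases s' with _ | ⟨a, _ | ⟨b, _ | ⟨c, _ | ⟨d, _ | ⟨e, t⟩⟩⟩⟩⟩ <;>
          simp only [List.cons_append, List.nil_append, Bad, List.forall_mem_cons] at hb hm <;>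
          omega)

lemma L_conn : ∀ (w : List Bool) (y : ℕ), Conn (y + 1) (L y w)
  | [], y => by
    intro p s hp hs
    rcases p with _ | ⟨a, p⟩
    · exact ⟨y, by rw [← List.nil_append s, ← hp]; simp [L], Or.inl (by omega)⟩
    · simp [L] at hp; exact absurd hp.2.2 hs
  | false :: w, y => by
    intro p s hp hs
    rcases p with _ | ⟨a, _ | ⟨b, p⟩⟩ <;> simp only [L, List.nil_append, List.cons_append,
      List.cons.injEq] at hp
    · exact ⟨y, by simp [← hp], Or.inl (by omega)⟩
    · exact ⟨y, by simp [← hp.2], Or.inl (by omega)⟩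
    · obtain ⟨d, hd, h | ⟨c, hc, h⟩⟩ := L_conn w (y + 2) p s hp.2.2 hs
      · exact ⟨d, hd, Or.inr ⟨a, by simp, by omega⟩⟩
      · exact ⟨d, hd, Or.inr ⟨c, by simp [hc], h⟩⟩
  | true :: w, y => by
    intro p s hp hs
    rcases p with _ | ⟨a, _ | ⟨b, _ | ⟨e, p⟩⟩⟩ <;> simp only [L, List.nil_append,
      List.cons_append, List.cons.injEq] at hp
    · exact ⟨y, by simp [← hp], Or.inl (by omega)⟩
    · exact ⟨y, by simp [← hp.2], Or.inl (by omega)⟩
    · exact ⟨y + 2, by simp [← hp.2.2], Or.inr ⟨a, by simp, by omega⟩⟩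
    · obtain ⟨d, hd, h | ⟨c, hc, h⟩⟩ := L_conn w (y + 3) p s hp.2.2.2 hs
      · exact ⟨d, hd, Or.inr ⟨a, by simp, by omega⟩⟩
      · exact ⟨d, hd, Or.inr ⟨c, by simp [hc], h⟩⟩

lemma L_ind (w : List Bool) : 1 :: L 0 w ∈ ind CC := by
  refine ⟨⟨perm_of ?_ ?_, L_av w 0⟩, by simp, ?_⟩
  · exact List.nodup_cons.2 ⟨fun h => by have := L_mem _ _ _ h; omega, L_nodup w 0⟩
  · intro z hz
    have := L_pos 0 w
    rcases List.mem_cons.1 hz with rfl | hz
    · simp; omega
    · have := L_mem _ _ _ hz; simp; omega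
  · rintro ⟨σ, τ, h1, -, h3, h4, h5⟩
    rcases σ with _ | ⟨x, p⟩
    · exact h3 rfl
    simp only [dsum, List.cons_append, List.cons.injEq] at h5
    obtain ⟨d, hd, h⟩ := L_conn w 0 p _ h5.2 (by simpa using h4)
    obtain ⟨z, -, rfl⟩ := List.mem_map.1 hd
    rcases h with h | ⟨a, ha, h⟩
    · simp at h
    · have := h1.mem.1 (List.mem_cons_of_mem x ha); omega

def ex : List Bool → List Bool
  | [] => []
  | false :: u => false :: false :: false :: ex u
  | true :: u => true :: true :: ex u

lemma L_ex_len : ∀ (u : List Bool) (y : ℕ), (L y (ex u)).length = 6 * u.length + 1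
  | [], _ => rfl
  | false :: u, y => by simp [ex, L, L_ex_len u]; omega
  | true :: u, y => by simp [ex, L, L_ex_len u]; omega

lemma L_ex_inj : ∀ (u u' : List Bool) (y : ℕ), L y (ex u) = L y (ex u') → u = u'
  | [], [], _, _ => rfl
  | [], false :: _, _, h => by simp [ex, L] at h
  | [], true :: _, _, h => by simp [ex, L] at h
  | false :: _, [], _, h => by simp [ex, L] at h
  | true :: _, [], _, h => by simp [ex, L] at h
  | false :: _, true :: _, _, h => by simp [ex, L] at h
  | true :: _, false :: _, _, h => by simp [ex, L] at h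
  | false :: u, false :: u', y, h => by
    simp only [ex, L, List.cons.injEq, true_and] at h; rw [L_ex_inj u u' _ h]
  | true :: u, true :: u', y, h => by
    simp only [ex, L, List.cons.injEq, true_and] at h; rw [L_ex_inj u u' _ h]

lemma count_ge (k : ℕ) : 2 ^ k ≤ {π ∈ ind CC | π.length = 6 * k + 2}.ncard := by
  have h := Set.ncard_le_ncard_of_injOn (s := (Set.univ : Set (Fin k → Bool)))
    (t := {π ∈ ind CC | π.length = 6 * k + 2}) (fun f => 1 :: L 0 (ex (List.ofFn f)))
    (fun f _ => ⟨L_ind _, by simp [L_ex_len]⟩)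
    (fun f _ g _ e => List.ofFn_injective (L_ex_inj _ _ 0 (List.cons.inj e).2))
    (fin_len _ (fun π h => h.1.1) _)
  simpa [Set.ncard_univ] using h

open Filter in
lemma ev_le (a : ℕ → ℝ) (ha : ∀ n, 0 ≤ a n) (K lam mu : ℝ) (hl : 0 < lam) (hlm : lam < mu)
    (h : ∀ n, a (n + 1) ≤ K * lam ^ n) : ∀ᶠ n : ℕ in atTop, a n ^ (1 / (n : ℝ)) ≤ mu := by
  have hmu : 0 < mu := hl.trans hlm
  have h1 : Tendsto (fun n : ℕ => (mu / lam) ^ n) atTop atTop :=
    tendsto_pow_atTop_atTop_of_one_lt ((one_lt_div hl).2 hlm)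
  obtain ⟨N, hN⟩ := eventually_atTop.1 (h1.eventually_ge_atTop (K / mu))
  refine eventually_atTop.2 ⟨N + 1, fun n hn => ?_⟩
  obtain ⟨m, rfl⟩ : ∃ m, n = m + 1 := ⟨n - 1, by omega⟩
  have h2 := hN m (by omega)
  have h3 : a (m + 1) ≤ mu ^ (m + 1) := by
    refine (h m).trans ?_
    rw [div_pow, div_le_div_iff₀ hmu (by positivity)] at h2
    rw [pow_succ]; exact h2
  calc a (m + 1) ^ (1 / ((m + 1 : ℕ) : ℝ)) ≤ (mu ^ (m + 1)) ^ (1 / ((m + 1 : ℕ) : ℝ)) :=
        Real.rpow_le_rpow (ha _) h3 (by positivity)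
    _ = mu := by rw [one_div]; exact Real.pow_rpow_inv_natCast hmu.le (by omega)

open Filter in
lemma upper_le (X : Set (List ℕ)) (K lam mu : ℝ) (hl : 0 < lam) (hlm : lam < mu)
    (h : ∀ n, (({π ∈ X | π.length = n + 1}.ncard : ℕ) : ℝ) ≤ K * lam ^ n) : upperGr X ≤ mu :=
  limsup_le_of_le (isCoboundedUnder_le_of_le atTop (x := 0) fun _ => by positivity)
    (ev_le (fun n => (({π ∈ X | π.length = n}.ncard : ℕ) : ℝ)) (fun _ => by positivity) K lam mu
      hl hlm h)

lemma ind_count (n : ℕ) : (({π ∈ ind CC | π.length = n + 1}.ncard : ℕ) : ℝ) ≤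
    (1 + 5 + 5 / (3 / 2) + 5 / (3 / 2) ^ 2) * (3 / 2) ^ n :=
  count_le false _ (fun _ h => h.1) (fun _ _ _ h => conn_of_ind h) (3 / 2) 5 (by norm_num)
    (by norm_num) (by simp) (by norm_num) n

lemma ind_upper : upperGr (ind CC) ≤ 8 / 5 :=
  upper_le _ _ (3 / 2) _ (by norm_num) (by norm_num) ind_count

lemma cc_upper : upperGr CC ≤ 241 / 100 :=
  upper_le _ _ (12 / 5) _ (by norm_num) (by norm_num)
    (count_le true _ (fun _ h => h) (by simp) (12 / 5) (17 / 20) (by norm_num) (by norm_num)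
      (fun _ => by norm_num) (by norm_num))

open Filter in
lemma ind_lower : 1 < upperGr (ind CC) := by
  have h1 : (1 : ℝ) < 2 ^ (1 / 8 : ℝ) := Real.one_lt_rpow (by norm_num) (by norm_num)
  refine h1.trans_le (le_limsup_of_frequently_le ?_ ⟨8 / 5, ?_⟩)
  · refine frequently_atTop.2 fun N => ⟨6 * (N + 1) + 2, by omega, ?_⟩
    have h2 : (2 : ℝ) ^ (N + 1) ≤
        (({π ∈ ind CC | π.length = 6 * (N + 1) + 2}.ncard : ℕ) : ℝ) := by
      exact_mod_cast count_ge (N + 1)
    refine le_trans ?_ (Real.rpow_le_rpow (by positivity) h2 (by positivity))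
    rw [← Real.rpow_natCast, ← Real.rpow_mul (by norm_num)]
    refine Real.rpow_le_rpow_of_exponent_le (by norm_num) ?_
    push_cast
    rw [mul_one_div, div_le_div_iff₀ (by norm_num) (by positivity)]
    have : (0 : ℝ) ≤ N := by positivity
    linarith
  · exact eventually_map.2 (ev_le (fun n => (({π ∈ ind CC | π.length = n}.ncard : ℕ) : ℝ))
      (fun _ => by positivity) _ (3 / 2) _ (by norm_num) (by norm_num) ind_count)

end Pool.Agent.H6.PermOsc
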