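import Mathlib

/-! Packing set systems (neighbourhood systems of balanced trees). -/

namespace Pool.Agent.H6.Pk

open Finset Equiv Pointwise

variable {A Y : Type} [Fintype A] [DecidableEq A] [Fintype Y] [DecidableEq Y] [AddCommGroup Y]

/-- A packing of a multiset of set systems with as many groups as systems. -/
def Pk (F : Multiset (Y → Finset A)) : Prop :=
  ∃ (I G : Type) (_ : Fintype I) (_ : Fintype G) (U : I → Y → Finset A) (σ : I → Perm A)
    (β : I × Y → G), univ.val.map U = F ∧ Fintype.card G = Fintype.card I ∧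
    (∀ i y y', β (i, y) = β (i, y') → y = y') ∧
    ∀ p q : I × Y, β p = β q → p ≠ q → Disjoint (σ p.1 • U p.1 p.2) (σ q.1 • U q.1 q.2)

omit [Fintype A] [Fintype Y] [DecidableEq Y] [AddCommGroup Y] in
lemma Pk.zero : Pk (0 : Multiset (Y → Finset A)) :=
  ⟨Empty, Empty, inferInstance, inferInstance, Empty.elim, Empty.elim, fun p => p.1.elim, rfl, rfl,
    fun i => i.elim, fun p => p.1.elim⟩

lemma map_sum_univ {I J X : Type} [Fintype I] [Fintype J] (f : I → X) (g : J → X) :
    (univ : Finset (I ⊕ J)).val.map (Sum.elim f g) = univ.val.map f + univ.val.map g := by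
  rw [← univ_disjSum_univ, val_disjSum, Multiset.disjSum, Multiset.map_add, Multiset.map_map,
    Multiset.map_map]
  rfl

lemma map_const_univ {I X : Type} [Fintype I] (x : X) :
    (univ : Finset I).val.map (fun _ => x) = Fintype.card I • ({x} : Multiset X) := by
  rw [Multiset.map_const', Multiset.nsmul_singleton]
  rfl

omit [Fintype A] [Fintype Y] [DecidableEq Y] [AddCommGroup Y] in
lemma Pk.add {F F' : Multiset (Y → Finset A)} (h : Pk F) (h' : Pk F') : Pk (F + F') := by
  obtain ⟨I, G, _, _, U, σ, β, h1, h2, h3, h4⟩ := h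
  obtain ⟨I', G', _, _, U', σ', β', h1', h2', h3', h4'⟩ := h'
  refine ⟨I ⊕ I', G ⊕ G', inferInstance, inferInstance, Sum.elim U U', Sum.elim σ σ',
    fun p => Sum.elim (fun i => Sum.inl (β (i, p.2))) (fun i => Sum.inr (β' (i, p.2))) p.1,
    by rw [map_sum_univ, h1, h1'], by simp [h2, h2'], ?_, ?_⟩
  · rintro (i | i) y y' h
    · exact h3 i y y' (by simpa using h)
    · exact h3' i y y' (by simpa using h)
  · rintro ⟨i | i, y⟩ ⟨j | j, z⟩ h hne
    · exact h4 (i, y) (j, z) (by simpa using h) (by simpa using hne)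
    · simp at h
    · simp at h
    · exact h4' (i, y) (j, z) (by simpa using h) (by simpa using hne)

omit [Fintype A] [Fintype Y] [DecidableEq Y] [AddCommGroup Y] in
lemma Pk.nsmul {F : Multiset (Y → Finset A)} (h : Pk F) (k : ℕ) : Pk (k • F) := by
  induction k with
  | zero => simpa using Pk.zero
  | succ k ih => rw [succ_nsmul]; exact ih.add h

omit [Fintype A] in
lemma disj_smul (σ : Perm A) {s t : Finset A} (h : Disjoint s t) : Disjoint (σ • s) (σ • t) := by
  rw [disjoint_left] at *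
  intro a ha hb
  rw [← inv_smul_mem_iff] at ha hb
  exact h ha hb

omit [DecidableEq Y] in
/-- Rerouting every slot of an active system through its own symmetric block. -/
lemma wire (T P : Y → Finset A) (π : Y → Perm A) (hπ : ∀ y, π y • P y = T y)
    (hP : ∀ y y', y ≠ y' → Disjoint (P y) (P y'))
    {I G : Type} [Fintype I] [Fintype G] (U : I → Y → Finset A) (σ : I → Perm A) (β : I × Y → G)
    (act : I → Prop) (hc : Fintype.card G = Fintype.card I) (h1 : ∀ i, act i → U i = T)
    (h2 : ∀ i, ¬ act i → ∀ y y', β (i, y) = β (i, y') → y = y')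
    (h3 : ∀ p q : I × Y, β p = β q → p ≠ q → Disjoint (σ p.1 • U p.1 p.2) (σ q.1 • U q.1 q.2))
    (W : Type) [Fintype W] (ω : I × Y → W) (hω : Function.Injective ω) :
    Pk (univ.val.map U + (Fintype.card W * Fintype.card (Perm A × Y)) • {T}) := by
  classical
  let I' := I ⊕ (W × Perm A × Y)
  let U' : I' → Y → Finset A := Sum.elim U fun _ => T
  let σ' : I' → Perm A := Sum.elim σ fun b => b.2.1
  let β0 : I' × Y → G ⊕ (W × Perm A × Y) := fun p => Sum.elim (fun i => Sum.inl (β (i, p.2)))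
    (fun b => Sum.inr (b.1, b.2.1 * π p.2, b.2.2 + p.2)) p.1
  have d0 : ∀ p q : I' × Y, β0 p = β0 q → p ≠ q →
      Disjoint (σ' p.1 • U' p.1 p.2) (σ' q.1 • U' q.1 q.2) := by
    rintro ⟨i | ⟨w, ρ, j⟩, y⟩ ⟨i' | ⟨w', ρ', j'⟩, y'⟩ h hne
    · exact h3 (i, y) (i', y') (by simpa [β0] using h) (fun e => hne (by
        simp only [Prod.mk.injEq] at e; rw [e.1, e.2]))
    · simp [β0] at h
    · simp [β0] at h
    · simp only [β0, Sum.elim_inr, Sum.inr.injEq, Prod.mk.injEq] at h
      obtain ⟨rfl, e1, e2⟩ := h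
      have hy : y ≠ y' := by
        rintro rfl
        rw [mul_right_cancel e1, add_right_cancel e2] at hne
        exact hne rfl
      simp only [σ', U', Sum.elim_inr]
      rw [← hπ y, ← hπ y', ← mul_smul, ← mul_smul, e1]
      exact disj_smul _ (hP y y' hy)
  let sw : I' × Y → I' × Y := fun p => Sum.elim
    (fun i => if act i then (Sum.inr (ω (i, p.2), σ i, 0), p.2) else p)
    (fun b => if h : ∃ i, act i ∧ b = (ω (i, p.2), σ i, 0) then (Sum.inl h.choose, p.2) else p) p.1
  have s1 : ∀ i y, act i → sw (Sum.inl i, y) = (Sum.inr (ω (i, y), σ i, 0), y) := fun i y h => by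
    simp [sw, h]
  have s2 : ∀ i y, ¬ act i → sw (Sum.inl i, y) = (Sum.inl i, y) := fun i y h => by simp [sw, h]
  have s3 : ∀ i y, act i → sw (Sum.inr (ω (i, y), σ i, 0), y) = (Sum.inl i, y) := fun i y h => by
    have hex : ∃ i', act i' ∧ ((ω (i, y), σ i, 0) : W × Perm A × Y) = (ω (i', y), σ i', 0) :=
      ⟨i, h, rfl⟩
    have := hω (congrArg Prod.fst hex.choose_spec.2)
    simp only [sw, Sum.elim_inr, dif_pos hex]
    rw [← (Prod.mk.inj this).1]
  have s4 : ∀ b y, (¬ ∃ i, act i ∧ b = (ω (i, y), σ i, 0)) → sw (Sum.inr b, y) = (Sum.inr b, y) :=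
    fun b y h => by simp only [sw, Sum.elim_inr, dif_neg h]
  have sinv : ∀ p, sw (sw p) = p := by
    rintro ⟨i | b, y⟩
    · by_cases h : act i
      · rw [s1 i y h, s3 i y h]
      · rw [s2 i y h, s2 i y h]
    · by_cases h : ∃ i, act i ∧ b = (ω (i, y), σ i, 0)
      · obtain ⟨i, hi, rfl⟩ := h
        rw [s3 i y hi, s1 i y hi]
      · rw [s4 b y h, s4 b y h]
  have sset : ∀ p, σ' (sw p).1 • U' (sw p).1 (sw p).2 = σ' p.1 • U' p.1 p.2 := by
    rintro ⟨i | b, y⟩
    · by_cases h : act i
      · rw [s1 i y h]; simp [σ', U', h1 i h]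
      · rw [s2 i y h]
    · by_cases h : ∃ i, act i ∧ b = (ω (i, y), σ i, 0)
      · obtain ⟨i, hi, rfl⟩ := h
        rw [s3 i y hi]; simp [σ', U', h1 i hi]
      · rw [s4 b y h]
  refine ⟨I', G ⊕ (W × Perm A × Y), inferInstance, inferInstance, U', σ', fun p => β0 (sw p),
    ?_, by simp [I', hc], ?_, fun p q h hne => ?_⟩
  · rw [map_sum_univ, map_const_univ, Fintype.card_prod W]
  · rintro (i | b) y y' h
    · by_cases ha : act i
      · simp only [s1 i _ ha, β0, Sum.elim_inr, Sum.inr.injEq, Prod.mk.injEq] at h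
        simpa using h.2.2
      · simp only [s2 i _ ha, β0, Sum.elim_inl, Sum.inl.injEq] at h
        exact h2 i ha y y' h
    · by_cases ha : ∃ i, act i ∧ b = (ω (i, y), σ i, 0) <;>
        by_cases hb : ∃ i, act i ∧ b = (ω (i, y'), σ i, 0)
      · obtain ⟨i, -, rfl⟩ := ha
        obtain ⟨i', -, e⟩ := hb
        exact (Prod.mk.inj (hω (congrArg Prod.fst e))).2
      · obtain ⟨i, hi, rfl⟩ := ha
        simp [s3 i y hi, s4 _ y' hb, β0] at h
      · obtain ⟨i, hi, rfl⟩ := hb
        simp [s3 i y' hi, s4 _ y ha, β0] at h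
      · simp only [s4 _ y ha, s4 _ y' hb, β0, Sum.elim_inr, Sum.inr.injEq, Prod.mk.injEq] at h
        exact add_left_cancel h.2.2
  · rw [← sset p, ← sset q]
    exact d0 _ _ h fun e => hne (by rw [← sinv p, e, sinv])

omit [DecidableEq Y] in
lemma block (T P : Y → Finset A) (π : Y → Perm A) (hπ : ∀ y, π y • P y = T y)
    (hP : ∀ y y', y ≠ y' → Disjoint (P y) (P y')) :
    Pk (Fintype.card (Perm A × Y) • ({T} : Multiset (Y → Finset A))) := by
  have := wire T P π hπ hP (I := Empty) (G := Empty) Empty.elim Empty.elim (fun p => p.1.elim)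
    (fun _ => True) rfl (fun i => i.elim) (fun i => i.elim) (fun p => p.1.elim) Unit
    (fun _ => ()) (fun p => p.1.elim)
  simpa using this

lemma equiv_of_sum {α γ β : Type} [Fintype α] [Fintype γ] [DecidableEq β] (f : α → β) (g : γ → β)
    (h : ∑ a, (Pi.single (f a) 1 : β → ℤ) = ∑ c, Pi.single (g c) 1) :
    ∃ e : α ≃ γ, ∀ a, g (e a) = f a := by
  have hc : ∀ b, Fintype.card {a // f a = b} = Fintype.card {c // g c = b} := by
    intro b
    have := congrFun h b
    simp only [Finset.sum_apply, Pi.single_apply, sum_boole] at this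
    simp only [Fintype.card_subtype]
    have h2 : #{a | b = f a} = #{c | b = g c} := by exact_mod_cast this
    simpa only [eq_comm] using h2
  exact ⟨Equiv.ofFiberEquiv fun b => Fintype.equivOfCardEq (hc b), fun a =>
    Equiv.ofFiberEquiv_map _ a⟩

end Pool.Agent.H6.Pk
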