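import Pool.Agent.H6.PkA

/-! The lattice lemma and the greedy filling lemma. -/

namespace Pool.Agent.H6.Pk

open Finset Equiv Pointwise

variable {A Y : Type} [Fintype A] [DecidableEq A] [Fintype Y] [DecidableEq Y]

omit [Fintype A] in
lemma swap_smul_eq {s : Finset A} {x y : A} (h : x ∈ s ↔ y ∈ s) : swap x y • s = s := by
  ext z
  rw [← inv_smul_mem_iff, swap_inv, Perm.smul_def, swap_apply_def]
  split_ifs with h1 h2
  · rw [h1]; exact h.symm
  · rw [h2]; exact h
  · rfl

lemma const_of_move {M : Type} (f : Finset A → M) (s : Finset A) {a b : A} (ha : a ∈ s)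
    (hb : b ∉ s) (h : ∀ σ : Perm A, f (σ • swap a b • s) = f (σ • s)) (ρ : Perm A) :
    f (ρ • s) = f s := by
  let H : Perm A → Prop := fun ρ => ∀ σ : Perm A, f (σ • ρ • s) = f (σ • s)
  have hmul : ∀ x y, H x → H y → H (x * y) := fun x y hx hy σ => by
    rw [mul_smul, ← mul_smul, hy, mul_smul, hx]
  have hin : ∀ x y, (x ∈ s ↔ y ∈ s) → H (swap x y) := fun x y hxy σ => by rw [swap_smul_eq hxy]
  have h1 : ∀ x, H (swap a x) := fun x => by
    by_cases hx : x ∈ s
    · exact hin _ _ (by simp [ha, hx])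
    · have e := swap_mul_swap_mul_swap (x := a) (y := b) (z := x) (fun e => hb (e ▸ ha))
        (fun e => hx (e ▸ ha))
      rw [swap_comm, ← e]
      exact hmul _ _ (hmul _ _ (hin _ _ (by simp [hb, hx])) h) (hin _ _ (by simp [hb, hx]))
  have h2 : ∀ x y, x ≠ y → H (swap x y) := fun x y hxy => by
    by_cases hy : y = a
    · rw [hy, swap_comm]; exact h1 x
    · have e := swap_mul_swap_mul_swap (x := y) (y := a) (z := x) hy hxy.symm
      rw [← e]
      exact hmul _ _ (hmul _ _ (h1 x) (by rw [swap_comm]; exact h1 y)) (h1 x)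
  have h3 : H ρ := by
    induction ρ using Perm.swap_induction_on with
    | one => intro σ; rw [one_smul]
    | swap_mul g x y hxy ih => exact hmul _ _ (h2 x y hxy) ih
  simpa using h3 1

/-- The structural properties of the neighbourhood system of a balanced tree. -/
def Ok (U : Y → Finset A) : Prop :=
  (∀ y, (U y).Nonempty) ∧ ∑ y, #(U y) = Fintype.card A ∧
  (∃ y0 a, a ∈ U y0 ∧ ∀ y, y ≠ y0 → a ∉ U y) ∧ (Subsingleton A ∨ ∃ b, ∀ y, b ∉ U y)

lemma lat {M : Type} [AddCommGroup M] (f : Finset A → M) (T P : Y → Finset A) (π : Y → Perm A)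
    (hπ : ∀ y, π y • P y = T y) (hP : ∀ y y', y ≠ y' → Disjoint (P y) (P y')) (hT : Ok T)
    (h1 : ∀ σ : Perm A, ∑ y, f (σ • T y) = ∑ y, f (T y))
    (h2 : ∀ σ : Perm A, ∑ y, f (σ • P y) = ∑ y, f (P y)) (ρ : Perm A) (y : Y) :
    f (ρ • T y) = f (T y) := by
  obtain ⟨hne, -, ⟨y0, a, ha, ha'⟩, hb | ⟨b, hb⟩⟩ := hT
  · rw [Subsingleton.elim ρ 1, one_smul]
  have k0 : ∀ ρ : Perm A, f (ρ • T y0) = f (T y0) := by
    refine const_of_move f _ ha (hb y0) fun σ => ?_
    have e := (h1 (σ * swap a b)).trans (h1 σ).symm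
    rw [← add_sum_erase _ _ (mem_univ y0), ← add_sum_erase _ _ (mem_univ y0),
      sum_congr rfl (g := fun y => f (σ • T y)) fun y hy => by
        rw [mul_smul, swap_smul_eq (by simp [hb y, ha' y (ne_of_mem_erase hy)])], mul_smul] at e
    exact add_right_cancel e
  by_cases hy : y = y0
  · rw [hy]; exact k0 ρ
  have hPne : ∀ y, (P y).Nonempty := fun y => by
    have := hne y
    rwa [← hπ y, smul_finset_nonempty] at this
  have k1 : ∀ ρ : Perm A, f (ρ • P y0) = f (T y0) := fun ρ => by
    rw [← k0 (ρ * (π y0)⁻¹), ← hπ y0, ← mul_smul, inv_mul_cancel_right]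
  obtain ⟨c, hc⟩ := hPne y
  obtain ⟨d, hd⟩ := hPne y0
  have k2 : ∀ ρ : Perm A, f (ρ • P y) = f (P y) := by
    refine const_of_move f _ hc (disjoint_right.1 (hP y y0 hy) hd) fun σ => ?_
    have e := (h2 (σ * swap c d)).trans (h2 σ).symm
    rw [← add_sum_erase _ _ (mem_univ y), ← add_sum_erase _ _ (mem_univ y),
      sum_congr rfl (g := fun y => f (σ • P y)) fun z hz => by
        by_cases hz0 : z = y0
        · rw [hz0, k1, k1]
        · rw [mul_smul, swap_smul_eq (by
            simp [disjoint_right.1 (hP z y (ne_of_mem_erase hz)) hc,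
              disjoint_right.1 (hP z y0 hz0) hd])], mul_smul] at e
    exact add_right_cancel e
  rw [← hπ y, ← mul_smul, k2, k2]

/-- Greedy filling of bins, largest items first. -/
lemma greedy {K Z : Type} [DecidableEq K] [Fintype Z] [Nonempty Z] (t : K → ℕ) (S : Z → Finset A)
    (h : ∀ k (s : Finset K), k ∉ s → (∀ x ∈ s, t k ≤ t x) →
      ∑ z, #(S z) + ∑ x ∈ s, t x + Fintype.card Z * t k < Fintype.card Z * (Fintype.card A + 1))
    (s : Finset K) : ∃ (γ : K → Z) (Q : K → Finset A),
      (∀ k ∈ s, #(Q k) = t k ∧ Disjoint (Q k) (S (γ k))) ∧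
      ∀ k ∈ s, ∀ k' ∈ s, k ≠ k' → γ k = γ k' → Disjoint (Q k) (Q k') := by
  classical
  induction s using Finset.induction_on_min_value t with
  | empty => exact ⟨fun _ => Classical.arbitrary Z, fun _ => ∅, by simp, by simp⟩
  | insert k s hk hmin ih =>
    obtain ⟨γ, Q, h1, h2⟩ := ih
    let occ : Z → Finset A := fun z => S z ∪ (s.filter fun x => γ x = z).biUnion Q
    have hocc : ∀ z, #(occ z) ≤ #(S z) + ∑ x ∈ s with γ x = z, t x := fun z =>
      (card_union_le _ _).trans (Nat.add_le_add_left (card_biUnion_le.trans (le_of_eq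
        (sum_congr rfl fun x hx => (h1 x (mem_filter.1 hx).1).1))) _)
    have hex : ∃ z, #(occ z) + t k ≤ Fintype.card A := by
      by_contra hcon
      push Not at hcon
      have e1 : ∑ _z : Z, (Fintype.card A + 1) ≤
          ∑ z, (#(S z) + ∑ x ∈ s with γ x = z, t x + t k) :=
        sum_le_sum fun z _ => by have := hcon z; have := hocc z; omega
      rw [sum_const, sum_add_distrib, sum_add_distrib, sum_fiberwise s γ t, sum_const, card_univ,
        smul_eq_mul, smul_eq_mul] at e1
      have := h k s hk hmin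
      omega
    obtain ⟨z, hz⟩ := hex
    obtain ⟨q, hq, hqc⟩ := exists_subset_card_eq (s := (occ z)ᶜ) (n := t k) (by
      rw [card_compl]; omega)
    have hd : Disjoint q (occ z) := disjoint_of_subset_left hq disjoint_compl_left
    have hne : ∀ x ∈ s, x ≠ k := fun x hx e => hk (e ▸ hx)
    have hd2 : ∀ x ∈ s, γ x = z → Disjoint q (Q x) := fun x hx e =>
      disjoint_of_subset_right ((subset_biUnion_of_mem Q (mem_filter.2 ⟨hx, e⟩)).trans
        subset_union_right) hd
    refine ⟨Function.update γ k z, Function.update Q k q, fun x hx => ?_,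
      fun x hx x' hx' hxx e => ?_⟩
    · rcases mem_insert.1 hx with rfl | hx
      · simp only [Function.update_self]
        exact ⟨hqc, disjoint_of_subset_right subset_union_left hd⟩
      · simp only [Function.update_of_ne (hne x hx)]
        exact h1 x hx
    · rcases mem_insert.1 hx with g | g <;> rcases mem_insert.1 hx' with g' | g'
      · exact absurd (g.trans g'.symm) hxx
      · subst g
        simp only [Function.update_self, Function.update_of_ne (hne x' g')] at e ⊢
        exact hd2 x' g' e.symm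
      · subst g'
        simp only [Function.update_self, Function.update_of_ne (hne x g)] at e ⊢
        exact (hd2 x g e).symm
      · simp only [Function.update_of_ne (hne x g), Function.update_of_ne (hne x' g')] at e ⊢
        exact h2 x g x' g' hxx e

omit [Fintype A] in
lemma exists_smul {s t : Finset A} (h : #s = #t) : ∃ σ : Perm A, σ • s = t := by
  obtain ⟨σ, hσ⟩ := Perm.exists_map_finset_eq s t h
  exact ⟨σ, by rw [← hσ, map_eq_image]; rfl⟩

lemma base (T : Y → Finset A) (hT : Ok T) : ∃ (P : Y → Finset A) (π : Y → Perm A),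
    (∀ y, π y • P y = T y) ∧ ∀ y y', y ≠ y' → Disjoint (P y) (P y') := by
  obtain ⟨γ, Q, h1, h2⟩ := greedy (Z := Unit) (fun y => #(T y)) (fun _ => (∅ : Finset A))
    (fun k s hk _ => by
      have : ∑ x ∈ insert k s, #(T x) ≤ ∑ x, #(T x) := sum_le_sum_of_subset (subset_univ _)
      rw [sum_insert hk, hT.2.1] at this
      simp only [card_empty, sum_const_zero, Fintype.card_unique]
      omega) univ
  choose π hπ using fun y => exists_smul (h1 y (mem_univ y)).1
  exact ⟨Q, π, hπ, fun y y' h => h2 y (mem_univ _) y' (mem_univ _) h rfl⟩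

end Pool.Agent.H6.Pk
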