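import Pool.Agent.H6.PkB

/-! Realising prescribed slot sets by copies of a popular system. -/

namespace Pool.Agent.H6.Pk

open Finset Equiv Pointwise

variable {A Y : Type} [Fintype A] [DecidableEq A] [Fintype Y] [DecidableEq Y] [AddCommGroup Y]

/-- Indicator vector of the slots of a moved system. -/
def vec (T : Y → Finset A) (σ : Perm A) : Finset A → ℤ := ∑ y, Pi.single (σ • T y) 1

/-- `x` is balanced by copies of `T` against copies of `P`. -/
def Rel (T P : Y → Finset A) (x : Finset A → ℤ) : Prop :=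
  ∃ (I : Type) (_ : Fintype I) (φ ψ : I → Perm A), Fintype.card (Perm A × Y) ∣ Fintype.card I ∧
    x + ∑ i, vec T (φ i) = ∑ i, vec P (ψ i)

omit [DecidableEq Y] [AddCommGroup Y] in
lemma Rel.add {T P : Y → Finset A} {x y : Finset A → ℤ} (hx : Rel T P x) (hy : Rel T P y) :
    Rel T P (x + y) := by
  obtain ⟨I, _, φ, ψ, h1, h2⟩ := hx
  obtain ⟨J, _, φ', ψ', h1', h2'⟩ := hy
  refine ⟨I ⊕ J, inferInstance, Sum.elim φ φ', Sum.elim ψ ψ', ?_, ?_⟩
  · rw [Fintype.card_sum]; exact dvd_add h1 h1'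
  · simp only [Fintype.sum_sum_type, Sum.elim_inl, Sum.elim_inr, ← h2, ← h2']
    abel

/-- The balanced vectors form a subgroup. -/
def latt (T P : Y → Finset A) : AddSubgroup (Finset A → ℤ) where
  carrier := {x | Rel T P x ∧ Rel T P (-x)}
  zero_mem' := by
    have : Rel T P 0 := ⟨Empty, inferInstance, Empty.elim, Empty.elim, by simp, by simp⟩
    exact ⟨this, by rwa [neg_zero]⟩
  add_mem' := fun ha hb => ⟨ha.1.add hb.1, by rw [neg_add]; exact ha.2.add hb.2⟩
  neg_mem' := fun ha => ⟨ha.2, by rw [neg_neg]; exact ha.1⟩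

omit [DecidableEq Y] [AddCommGroup Y] in
lemma sum_vec (T P : Y → Finset A) (π : Y → Perm A) (hπ : ∀ y, π y • P y = T y) :
    ∑ i : Perm A × Y, vec T i.1 = ∑ i : Perm A × Y, vec P i.1 := by
  have : ∑ σ : Perm A, vec T σ = ∑ σ : Perm A, vec P σ := by
    simp only [vec]
    rw [sum_comm, sum_comm (s := (univ : Finset (Perm A)))]
    refine sum_congr rfl fun y _ => ?_
    exact Fintype.sum_equiv (Equiv.mulRight (π y)) _ _ fun σ => by
      rw [Equiv.coe_mulRight, mul_smul, hπ]
  rw [Fintype.sum_prod_type_right, Fintype.sum_prod_type_right]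
  simp only [this]

lemma sum_upd (T : Y → Finset A) (σ σ' : Perm A) :
    ∑ i : Perm A × Y, vec T (Function.update Prod.fst (σ, 0) σ' i) =
      ∑ i : Perm A × Y, vec T i.1 - vec T σ + vec T σ' := by
  rw [← add_sum_erase _ _ (mem_univ (σ, (0 : Y))), ← add_sum_erase _ _ (mem_univ (σ, (0 : Y))),
    Function.update_self, sum_congr rfl (g := fun i => vec T i.1) fun i hi => by
      rw [Function.update_of_ne (ne_of_mem_erase hi)]]
  abel

lemma mem_latt (T P : Y → Finset A) (π : Y → Perm A) (hπ : ∀ y, π y • P y = T y)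
    (hP : ∀ y y', y ≠ y' → Disjoint (P y) (P y')) (hT : Ok T) (ρ : Perm A) (y : Y) :
    Pi.single (T y) 1 - Pi.single (ρ • T y) 1 ∈ latt T P := by
  have a1 : ∀ σ σ', Rel T P (vec T σ - vec T σ') := fun σ σ' =>
    ⟨Perm A × Y, inferInstance, Function.update Prod.fst (σ, 0) σ', Prod.fst, dvd_rfl, by
      rw [sum_upd, ← sum_vec T P π hπ]; abel⟩
  have a2 : ∀ σ σ', Rel T P (vec P σ - vec P σ') := fun σ σ' =>
    ⟨Perm A × Y, inferInstance, Prod.fst, Function.update Prod.fst (σ', 0) σ, dvd_rfl, by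
      rw [sum_upd, sum_vec T P π hπ]; abel⟩
  let q := QuotientAddGroup.mk' (latt T P)
  have hq : ∀ x y, q x = q y ↔ x - y ∈ latt T P := fun x y => QuotientAddGroup.eq_iff_sub_mem
  have := lat (fun s => q (Pi.single s 1)) T P π hπ hP hT (fun σ => by
      have := (hq _ _).2 ⟨a1 σ 1, by rw [neg_sub]; exact a1 1 σ⟩
      simpa only [vec, map_sum, one_smul] using this) (fun σ => by
      have := (hq _ _).2 ⟨a2 σ 1, by rw [neg_sub]; exact a2 1 σ⟩
      simpa only [vec, map_sum, one_smul] using this) ρ y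
  exact (hq _ _).1 this.symm

lemma assemble (T : Y → Finset A) (hT : Ok T) {I J G : Type} [Fintype I] [Fintype J] [Fintype G]
    (U : I → Y → Finset A) (Q : J × Y → Finset A) (hQ : ∀ p, #(Q p) = #(T p.2))
    (β : I × Y → G) (γ : J × Y → G) (hc : Fintype.card G = Fintype.card I + Fintype.card J)
    (hβ : ∀ i y y', β (i, y) = β (i, y') → y = y')
    (d1 : ∀ p q, β p = β q → p ≠ q → Disjoint (U p.1 p.2) (U q.1 q.2))
    (d2 : ∀ p q, β p = γ q → Disjoint (U p.1 p.2) (Q q))
    (d3 : ∀ p q, γ p = γ q → p ≠ q → Disjoint (Q p) (Q q)) :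
    ∃ c, Fintype.card (Perm A × Y) ∣ c ∧ Pk (univ.val.map U + (Fintype.card J + c) • {T}) := by
  classical
  obtain ⟨P, π, hπ, hP⟩ := base T hT
  have hx : ∑ p : J × Y, (Pi.single (T p.2) 1 - Pi.single (Q p) 1 : Finset A → ℤ) ∈ latt T P :=
    AddSubgroup.sum_mem _ fun p _ => by
      obtain ⟨ρ, hρ⟩ := exists_smul (hQ p).symm
      rw [← hρ]
      exact mem_latt T P π hπ hP hT ρ p.2
  obtain ⟨K, _, φ, ψ, hK, hs⟩ := ((latt T P).neg_mem hx).2
  rw [neg_neg] at hs
  let σ0 : J ⊕ K → Perm A := Sum.elim (fun _ => 1) φ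
  let D0 : (J ⊕ K) × Y → Finset A := fun p =>
    Sum.elim (fun j => Q (j, p.2)) (fun k => ψ k • P p.2) p.1
  obtain ⟨e, he⟩ := equiv_of_sum (fun p : (J ⊕ K) × Y => σ0 p.1 • T p.2) D0 (by
    simp only [Fintype.sum_prod_type, Fintype.sum_sum_type, σ0, D0, Sum.elim_inl, Sum.elim_inr,
      one_smul]
    simp only [vec, sum_sub_distrib, Fintype.sum_prod_type] at hs
    rw [← hs]; abel)
  let G0 : (J ⊕ K) × Y → G ⊕ K := fun p =>
    Sum.elim (fun j => Sum.inl (γ (j, p.2))) (fun k => Sum.inr k) p.1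
  have dd : ∀ p q, G0 p = G0 q → p ≠ q → Disjoint (D0 p) (D0 q) := by
    rintro ⟨j | k, y⟩ ⟨j' | k', y'⟩ h hne
    · exact d3 (j, y) (j', y') (by simpa [G0] using h) (by simpa using hne)
    · simp [G0] at h
    · simp [G0] at h
    · obtain rfl : k = k' := by simpa [G0] using h
      exact disj_smul _ (hP y y' (by simpa using hne))
  have dm : ∀ p q, Sum.inl (β p) = G0 q → Disjoint (U p.1 p.2) (D0 q) := by
    rintro p ⟨j | k, y⟩ h
    · exact d2 p (j, y) (by simpa [G0] using h)
    · simp [G0] at h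
  have := wire T P π hπ hP (I := I ⊕ (J ⊕ K)) (G := G ⊕ K) (Sum.elim U fun _ => T)
    (Sum.elim (fun _ => 1) σ0)
    (fun p => Sum.elim (fun i => Sum.inl (β (i, p.2))) (fun c => G0 (e (c, p.2))) p.1)
    (fun i => i.isRight = true) (by simp [hc, add_assoc]) (by rintro (i | i) h <;> simp at h ⊢)
    (by
      rintro (i | i) h y y' h'
      · exact hβ i y y' (by simpa using h')
      · simp at h)
    (by
      rintro ⟨i | c, y⟩ ⟨i' | c', y'⟩ h hne
      · simp only [Sum.elim_inl, one_smul]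
        exact d1 (i, y) (i', y') (by simpa using h) (by simpa using hne)
      · simp only [Sum.elim_inl, Sum.elim_inr, one_smul] at h ⊢
        rw [← he (c', y')]
        exact dm (i, y) _ h
      · simp only [Sum.elim_inl, Sum.elim_inr, one_smul] at h ⊢
        rw [← he (c, y)]
        exact (dm (i', y') _ h.symm).symm
      · simp only [Sum.elim_inr] at h ⊢
        rw [← he (c, y), ← he (c', y')]
        exact dd _ _ h fun e' => hne (by
          have := e.injective e'
          simp only [Prod.mk.injEq] at this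
          rw [this.1, this.2]))
    _ id Function.injective_id
  rw [map_sum_univ, map_const_univ, add_assoc, ← add_nsmul, Fintype.card_sum, add_assoc] at this
  exact ⟨_, dvd_add hK (Dvd.intro_left _ rfl), this⟩

end Pool.Agent.H6.Pk
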