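import Pool.Agent.H6.PkC

/-! Every large family of admissible systems packs. -/

namespace Pool.Agent.H6.Pk

open Finset Equiv Pointwise

variable {A Y : Type} [Fintype A] [DecidableEq A] [Fintype Y] [DecidableEq Y] [AddCommGroup Y]

lemma popular (T : Y → Finset A) (hT : Ok T) :
    ∃ C : ℕ, ∀ c : ℕ, C ≤ c → Pk (c • ({T} : Multiset _)) := by
  obtain ⟨P, π, hπ, hP⟩ := base T hT
  have hb := block T P π hπ hP
  obtain ⟨c1, ⟨j, hj⟩, h⟩ := assemble T hT (I := Empty) (J := Unit) (G := Unit) Empty.elim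
    (fun p => P p.2) (fun p => by rw [← hπ p.2, card_smul_finset]) (fun p => p.1.elim)
    (fun _ => ()) (by simp) (fun i => i.elim) (fun p => p.1.elim) (fun p => p.1.elim)
    (fun p q _ hne => hP _ _ fun e => hne (Prod.ext rfl e))
  set N := Fintype.card (Perm A × Y)
  have hN : 0 < N := Fintype.card_pos
  simp only [univ_eq_empty, empty_val, Multiset.map_zero, zero_add, Fintype.card_unique] at h
  refine ⟨N * (N * j), fun c hc => ?_⟩
  have h1 := (h.nsmul (c % N)).add (hb.nsmul (c / N - c % N * j))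
  rw [← mul_nsmul', ← mul_nsmul', ← add_nsmul] at h1
  have h2 : c % N * j ≤ c / N := by
    rw [Nat.le_div_iff_mul_le hN]
    have := Nat.mod_lt c hN
    calc c % N * j * N ≤ N * j * N := by gcongr
      _ = N * (N * j) := by ring
      _ ≤ c := hc
  have h3 : c % N * (1 + c1) + (c / N - c % N * j) * N = c := by
    obtain ⟨d, hd⟩ := Nat.exists_eq_add_of_le h2
    have := Nat.div_add_mod c N
    rw [hd, Nat.add_sub_cancel_left, hj]
    rw [hd] at this
    linarith
  rwa [h3] at h1

lemma absorb (hA : Fintype.card A + 1 = 2 * Fintype.card Y) (S T : Y → Finset A) (hS : Ok S)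
    (hT : Ok T) : ∃ c : ℕ, Pk ({S} + c • ({T} : Multiset _)) := by
  obtain ⟨r, hr⟩ : ∃ r, Fintype.card Y = r + 1 :=
    Nat.exists_eq_succ_of_ne_zero Fintype.card_ne_zero
  have ht : ∀ y, 1 ≤ #(T y) := fun y => (hT.1 y).card_pos
  obtain ⟨γ, Q, h1, h2⟩ := greedy (K := Fin r × Y) (fun p => #(T p.2)) S (fun k s hk hmin => by
    rw [hS.2.1]
    by_cases h1 : #(T k.2) = 1
    · have : ∑ x ∈ insert k s, #(T x.2) ≤ ∑ x : Fin r × Y, #(T x.2) :=
        sum_le_sum_of_subset (subset_univ _)
      rw [sum_insert hk, Fintype.sum_prod_type] at this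
      simp only [hT.2.1, sum_const, card_univ, Fintype.card_fin, smul_eq_mul] at this
      rw [h1] at this ⊢
      rw [hr]
      nlinarith
    · let b : Y → ℕ := fun y => if #(T y) = 1 then 0 else #(T y)
      have e1 : ∑ x ∈ insert k s, #(T x.2) ≤ ∑ x : Fin r × Y, b x.2 :=
        (sum_congr rfl (g := fun x => b x.2) fun x hx => by
          have := ht k.2
          have : #(T k.2) ≤ #(T x.2) := by
            rcases mem_insert.1 hx with g | g
            · rw [g]
            · exact hmin x g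
          simp only [b]
          rw [if_neg (by omega)]).trans_le (sum_le_sum_of_subset (subset_univ _))
      rw [sum_insert hk, Fintype.sum_prod_type] at e1
      simp only [sum_const, card_univ, Fintype.card_fin, smul_eq_mul] at e1
      have e2 : ∑ y ∈ univ.erase k.2, (b y + 2) ≤ ∑ y ∈ univ.erase k.2, 2 * #(T y) :=
        sum_le_sum fun y _ => by
          have := ht y
          simp only [b]
          split_ifs <;> omega
      have e3 := add_sum_erase univ b (mem_univ k.2)
      have e4 := add_sum_erase univ (fun y => #(T y)) (mem_univ k.2)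
      rw [sum_add_distrib, ← mul_sum, sum_const, card_erase_of_mem (mem_univ _), card_univ, hr,
        smul_eq_mul, Nat.add_sub_cancel] at e2
      have e5 : b k.2 = #(T k.2) := if_neg h1
      have e6 := hT.2.1
      have e7 : ∑ y, b y + #(T k.2) ≤ 2 * r + 2 := by omega
      have e8 := Nat.mul_le_mul_left r e7
      rw [hA, hr]
      have e9 : Fintype.card A = 2 * r + 1 := by omega
      nlinarith) univ
  obtain ⟨c, -, h⟩ := assemble T hT (I := Unit) (J := Fin r) (G := Y) (fun _ => S) Q
    (fun p => (h1 p (mem_univ _)).1) (fun p => p.2) γ (by simp [hr, add_comm])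
    (fun _ _ _ h => h) (fun p q h hne => (hne (Prod.ext rfl h)).elim)
    (fun p q h => by rw [show p.2 = γ q from h]; exact (h1 q (mem_univ _)).2.symm)
    (fun p q h hne => h2 p (mem_univ _) q (mem_univ _) hne h)
  exact ⟨_, by simpa using h⟩

lemma others (hA : Fintype.card A + 1 = 2 * Fintype.card Y) (T : Y → Finset A) (hT : Ok T)
    (s : Finset (Y → Finset A)) (hs : ∀ S ∈ s, Ok S) :
    ∃ C : ℕ, ∀ cnt : (Y → Finset A) → ℕ, ∀ s' ⊆ s, ∃ D ≤ C,
      Pk (∑ S ∈ s', cnt S • {S} + D • ({T} : Multiset _)) := by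
  classical
  have key : ∀ S, Ok S → ∃ C : ℕ, ∀ m : ℕ, ∃ D ≤ C, Pk (m • {S} + D • ({T} : Multiset _)) := by
    intro S hS
    obtain ⟨c, hc⟩ := absorb hA S T hS hT
    obtain ⟨P, π, hπ, hP⟩ := base S hS
    have hb := block S P π hπ hP
    set N := Fintype.card (Perm A × Y)
    have hN : 0 < N := Fintype.card_pos
    refine ⟨N * c, fun m => ⟨m % N * c, Nat.mul_le_mul_right _ (Nat.mod_lt m hN).le, ?_⟩⟩
    have := (hb.nsmul (m / N)).add (hc.nsmul (m % N))
    rwa [nsmul_add, ← mul_nsmul', ← mul_nsmul', ← add_assoc, ← add_nsmul, Nat.div_add_mod'] at this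
  choose! C hC using key
  refine ⟨∑ S ∈ s, C S, fun cnt s' hs' => ?_⟩
  suffices h : ∃ D ≤ ∑ S ∈ s', C S, Pk (∑ S ∈ s', cnt S • {S} + D • ({T} : Multiset _)) by
    obtain ⟨D, hD, h⟩ := h
    exact ⟨D, hD.trans (sum_le_sum_of_subset hs'), h⟩
  induction s' using Finset.induction_on with
  | empty => exact ⟨0, le_rfl, by simpa using Pk.zero⟩
  | insert S s' hS ih =>
    obtain ⟨D, hD, h⟩ := ih ((subset_insert _ _).trans hs')
    obtain ⟨D', hD', h'⟩ := hC S (hs S (hs' (mem_insert_self _ _))) (cnt S)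
    refine ⟨D' + D, by rw [sum_insert hS]; omega, ?_⟩
    have := h'.add h
    rwa [sum_insert hS, add_nsmul, add_add_add_comm]

theorem family (hA : Fintype.card A + 1 = 2 * Fintype.card Y) :
    ∃ k0, ∀ F : Multiset (Y → Finset A), (∀ S ∈ F, Ok S) → k0 ≤ F.card → Pk F := by
  classical
  let s : Finset (Y → Finset A) := univ.filter Ok
  have hs : ∀ S ∈ s, Ok S := fun S hS => (mem_filter.1 hS).2
  choose! C1 h1 using fun T hT => others hA T hT s hs
  choose! C2 h2 using fun (T : Y → Finset A) hT => popular T hT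
  refine ⟨∑ T, (C1 T + C2 T) + 1, fun F hF hk => ?_⟩
  have hex : ∃ T ∈ F.toFinset, C1 T + C2 T ≤ F.count T := by
    by_contra hcon
    push Not at hcon
    have e1 : ∑ T ∈ F.toFinset, F.count T ≤ ∑ T ∈ F.toFinset, (C1 T + C2 T) :=
      sum_le_sum fun T hT => (hcon T hT).le
    have e2 : ∑ T ∈ F.toFinset, (C1 T + C2 T) ≤ ∑ T, (C1 T + C2 T) :=
      sum_le_sum_of_subset (subset_univ _)
    rw [Multiset.toFinset_sum_count_eq] at e1
    omega
  obtain ⟨T, hT, hc⟩ := hex
  have hTok := hF T (Multiset.mem_toFinset.1 hT)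
  obtain ⟨D, hD, h⟩ := h1 T hTok (fun S => F.count S) (F.toFinset.erase T) fun S hS =>
    mem_filter.2 ⟨mem_univ _, hF S (Multiset.mem_toFinset.1 (mem_of_mem_erase hS))⟩
  have := h.add (h2 T hTok (F.count T - D) (by omega))
  rwa [add_assoc, ← add_nsmul, Nat.add_sub_cancel' (by omega), add_comm,
    add_sum_erase _ (fun S => F.count S • ({S} : Multiset _)) hT,
    Multiset.toFinset_sum_count_nsmul_eq] at this

end Pool.Agent.H6.Pk
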