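import Pool.Agent.H6.PkD

/-! Neighbourhood systems of balanced trees are admissible. -/

namespace Pool.Agent.H6.Pk

open Finset Equiv Pointwise

open Classical in
/-- The neighbourhoods of the right vertices, transported into `A`. -/
noncomputable def nb {X Y A : Type} [Fintype X] (ι : X ↪ A) (T : SimpleGraph (X ⊕ Y)) (y : Y) :
    Finset A := (univ.filter fun x => T.Adj (Sum.inl x) (Sum.inr y)).map ι

lemma adj_cases {X Y : Type} {T : SimpleGraph (X ⊕ Y)} (h : T ≤ completeBipartiteGraph X Y)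
    {e : Sym2 (X ⊕ Y)} (he : e ∈ T.edgeSet) :
    ∃ x y, T.Adj (Sum.inl x) (Sum.inr y) ∧ e = s(Sum.inl x, Sum.inr y) := by
  induction e using Sym2.ind with
  | _ u v =>
    have h1 : T.Adj u v := he
    have h2 := h h1
    rcases u with u | u <;> rcases v with v | v
    · simp at h2
    · exact ⟨u, v, h1, rfl⟩
    · exact ⟨v, u, h1.symm, Sym2.eq_swap⟩
    · simp at h2

lemma nb_ok {X Y A : Type} [Fintype X] [Fintype Y] [Fintype A] [DecidableEq A] [Nonempty Y]
    (hX : Fintype.card X = Fintype.card Y) (hA : Fintype.card A + 1 = 2 * Fintype.card Y)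
    (ι : X ↪ A) (T : SimpleGraph (X ⊕ Y)) (hT : T.IsTree) (h : T ≤ completeBipartiteGraph X Y) :
    Ok (nb ι T) := by
  classical
  have hY : 0 < Fintype.card Y := Fintype.card_pos
  haveI : Nonempty X := Fintype.card_pos_iff.1 (hX ▸ hY)
  haveI : Nontrivial (X ⊕ Y) :=
    ⟨Sum.inl (Classical.arbitrary X), Sum.inr (Classical.arbitrary Y), by simp⟩
  have n1 : ∀ y, ∃ x, T.Adj (Sum.inl x) (Sum.inr y) := fun y => by
    obtain ⟨w | w, hw⟩ := hT.connected.preconnected.exists_adj_of_nontrivial (Sum.inr y)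
    · exact ⟨w, hw.symm⟩
    · simpa using h hw
  have n2 : ∀ x, ∃ y, T.Adj (Sum.inl x) (Sum.inr y) := fun x => by
    obtain ⟨w | w, hw⟩ := hT.connected.preconnected.exists_adj_of_nontrivial (Sum.inl x)
    · simpa using h hw
    · exact ⟨w, hw⟩
  have hE : #{p : X × Y | T.Adj (Sum.inl p.1) (Sum.inr p.2)} = Fintype.card A := by
    have e1 := hT.card_edgeFinset
    have e2 : #{p : X × Y | T.Adj (Sum.inl p.1) (Sum.inr p.2)} = #T.edgeFinset := by
      refine card_bij (fun p _ => s(Sum.inl p.1, Sum.inr p.2)) (fun p hp => ?_)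
        (fun p _ q _ e => ?_) fun e he => ?_
      · simpa using hp
      · simpa [Prod.ext_iff] using e
      · obtain ⟨x, y, h1, h2⟩ := adj_cases h (SimpleGraph.mem_edgeFinset.1 he)
        exact ⟨(x, y), by simpa using h1, h2.symm⟩
    rw [Fintype.card_sum] at e1
    omega
  have hm : ∀ a y, a ∈ nb ι T y ↔ ∃ x, T.Adj (Sum.inl x) (Sum.inr y) ∧ ι x = a := fun a y => by
    simp [nb]
  refine ⟨fun y => ?_, ?_, ?_, ?_⟩
  · obtain ⟨x, hx⟩ := n1 y
    exact ⟨ι x, (hm _ _).2 ⟨x, hx, rfl⟩⟩
  · rw [← hE, card_filter, Fintype.sum_prod_type_right]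
    refine sum_congr rfl fun y _ => ?_
    rw [nb, card_map, card_filter]
  · have hex : ∃ x, #{y | T.Adj (Sum.inl x) (Sum.inr y)} ≤ 1 := by
      by_contra hcon
      push Not at hcon
      have e1 : ∑ _x : X, 2 ≤ ∑ x, #{y | T.Adj (Sum.inl x) (Sum.inr y)} :=
        sum_le_sum fun x _ => hcon x
      have e2 : ∑ x, #{y | T.Adj (Sum.inl x) (Sum.inr y)} = Fintype.card A := by
        rw [← hE, card_filter, Fintype.sum_prod_type]
        exact sum_congr rfl fun x _ => card_filter _ _
      rw [e2, sum_const, card_univ, smul_eq_mul] at e1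
      omega
    obtain ⟨x, hx⟩ := hex
    obtain ⟨y0, hy0⟩ := n2 x
    refine ⟨y0, ι x, (hm _ _).2 ⟨x, hy0, rfl⟩, fun y hy ha => hy ?_⟩
    obtain ⟨x', h1, h2⟩ := (hm _ _).1 ha
    rw [ι.injective h2] at h1
    exact card_le_one.1 hx y (by simpa using h1) y0 (by simpa using hy0)
  · by_cases h1 : Fintype.card A ≤ 1
    · exact Or.inl (Fintype.card_le_one_iff_subsingleton.1 h1)
    · have : #(univ.map ι) < #(univ : Finset A) := by
        rw [card_map, card_univ, card_univ]; omega
      obtain ⟨b, -, hb⟩ := exists_mem_notMem_of_card_lt_card this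
      refine Or.inr ⟨b, fun y hy => hb ?_⟩
      obtain ⟨x, -, rfl⟩ := (hm _ _).1 hy
      exact mem_map_of_mem _ (mem_univ _)

lemma equiv_of_map {α γ β : Type} [Fintype α] [Fintype γ] (f : α → β) (g : γ → β)
    (h : univ.val.map g = univ.val.map f) : ∃ e : α ≃ γ, ∀ a, g (e a) = f a := by
  classical
  have hc : ∀ b, Fintype.card {a // f a = b} = Fintype.card {c // g c = b} := by
    intro b
    have := congrArg (Multiset.count b) h
    simp only [Multiset.count_map] at this
    simp only [Fintype.card_subtype]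
    simpa only [eq_comm, ← filter_val, card_val] using this.symm
  exact ⟨Equiv.ofFiberEquiv fun b => Fintype.equivOfCardEq (hc b), fun a =>
    Equiv.ofFiberEquiv_map _ a⟩

end Pool.Agent.H6.Pk
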