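import Pool.Agent.H6.RegDefs

namespace Pool.Agent.H6.Reg

open Set

variable {d : ℕ}

/-- the region of a generic point -/
def Arr.reg (A : Arr d) (x : Fin d → ℝ) (hx : x ∈ A.compl) : A.Region :=
  ⟨connectedComponentIn A.compl x, x, hx, rfl⟩

lemma Arr.mem_reg (A : Arr d) (x : Fin d → ℝ) (hx : x ∈ A.compl) : x ∈ (A.reg x hx).1 :=
  mem_connectedComponentIn hx

lemma Arr.le_def (A : Arr d) (B : A.Region) (R R' : A.Pos B) :
    R ≤ R' ↔ A.sep B R ⊆ A.sep B R' := Iff.rfl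

/-- the arrangement of a finite family of forms positive at `b` -/
noncomputable def ofForms {I : Type} [Fintype I] (φ : I → (Fin d → ℝ) →ₗ[ℝ] ℝ) (b : Fin d → ℝ)
    (hb : ∀ i, 0 < φ i b) : Arr d := by
  classical
  exact
  { H := Finset.univ.image fun i => LinearMap.ker (φ i)
    hyp := by
      intro h hh
      obtain ⟨i, -, rfl⟩ := Finset.mem_image.1 hh
      refine ⟨φ i, fun h0 => ?_, rfl⟩
      have := hb i
      rw [h0] at this
      simp at this }

section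
variable {I : Type} [Fintype I] (φ : I → (Fin d → ℝ) →ₗ[ℝ] ℝ) (b : Fin d → ℝ) (hb : ∀ i, 0 < φ i b)

lemma mem_ofForms (h : Submodule ℝ (Fin d → ℝ)) :
    h ∈ (ofForms φ b hb).H ↔ ∃ i, LinearMap.ker (φ i) = h := by
  classical
  simp [ofForms]

lemma compl_ofForms (x : Fin d → ℝ) : x ∈ (ofForms φ b hb).compl ↔ ∀ i, φ i x ≠ 0 := by
  constructor
  · intro h i h0
    exact h _ ((mem_ofForms φ b hb _).2 ⟨i, rfl⟩) (LinearMap.mem_ker.2 h0)
  · intro h k hk hx
    obtain ⟨i, rfl⟩ := (mem_ofForms φ b hb _).1 hk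
    exact h i (LinearMap.mem_ker.1 hx)

/-- base region -/
noncomputable def base : (ofForms φ b hb).Region :=
  (ofForms φ b hb).reg b ((compl_ofForms φ b hb b).2 fun i => (hb i).ne')

lemma le_iff_forms (R R' : (ofForms φ b hb).Pos (base φ b hb)) {x y : Fin d → ℝ}
    (hx : x ∈ R.1) (hy : y ∈ R'.1) : R ≤ R' ↔ ∀ i, φ i x < 0 → φ i y < 0 := by
  have hbB : b ∈ (base φ b hb).1 := Arr.mem_reg _ _ _
  rw [Arr.le_def]
  constructor
  · intro h i hi
    have hm := (mem_ofForms φ b hb _).2 ⟨i, rfl⟩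
    exact (Arr.sep_iff _ _ R' _ hm hbB hy (hb i)).1 (h ((Arr.sep_iff _ _ R _ hm hbB hx (hb i)).2 hi))
  · intro h k hk
    obtain ⟨i, rfl⟩ := (mem_ofForms φ b hb _).1 hk.1
    exact (Arr.sep_iff _ _ R' _ hk.1 hbB hy (hb i)).2
      (h i ((Arr.sep_iff _ _ R _ hk.1 hbB hx (hb i)).1 hk))
end

/-- Every finite subset of a lattice maps into some `DM(H,B)` preserving joins, meets, and
reflecting the order. -/
theorem embed {L : Type*} [Lattice L] (Q : Finset L) (hQ : Q.Nonempty) :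
    ∃ d, 1 ≤ d ∧ ∃ (A : Arr d) (B : A.Region) (Φ : L → A.DM B),
      (∀ x ∈ Q, ∀ y ∈ Q, x ⊔ y ∈ Q → Φ (x ⊔ y) = Φ x ⊔ Φ y) ∧
      (∀ x ∈ Q, ∀ y ∈ Q, x ⊓ y ∈ Q → Φ (x ⊓ y) = Φ x ⊓ Φ y) ∧
      (∀ x ∈ Q, ∀ y ∈ Q, Φ x = Φ y → x = y) := by
  classical
  set n := Q.card with hn
  have hn0 : 1 ≤ n := hQ.card_pos
  let q : Fin n → L := fun i => (Q.equivFin.symm i : L)
  have hq : ∀ x ∈ Q, ∃ i, q i = x := fun x hx => ⟨Q.equivFin ⟨x, hx⟩, by simp [q]⟩
  let a : Fin n → (Fin (n + n) → ℝ) →ₗ[ℝ] ℝ := fun g => LinearMap.proj (Fin.castAdd n g)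
  let t : Fin n → (Fin (n + n) → ℝ) →ₗ[ℝ] ℝ := fun m => LinearMap.proj (Fin.natAdd n m)
  let e : Fin n → (Fin (n + n) → ℝ) →ₗ[ℝ] ℝ := fun g =>
    ((n : ℝ) + 1) • a g - ∑ m ∈ Finset.univ.filter (fun m => ¬ q g ≤ q m), t m
  let f : Fin n → (Fin (n + n) → ℝ) →ₗ[ℝ] ℝ := fun m =>
    ((n : ℝ) + 1) • t m - ∑ g ∈ Finset.univ.filter (fun g => ¬ q g ≤ q m), a g
  have he : ∀ g u, e g u = ((n : ℝ) + 1) * a g u -
      ∑ m ∈ Finset.univ.filter (fun m => ¬ q g ≤ q m), t m u := by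
    intro g u; simp [e, LinearMap.sum_apply]
  have hf : ∀ m u, f m u = ((n : ℝ) + 1) * t m u -
      ∑ g ∈ Finset.univ.filter (fun g => ¬ q g ≤ q m), a g u := by
    intro g u; simp [f, LinearMap.sum_apply]
  let φ : (Fin n ⊕ Fin n) ⊕ (Fin n ⊕ Fin n) → (Fin (n + n) → ℝ) →ₗ[ℝ] ℝ :=
    Sum.elim (Sum.elim a t) (Sum.elim e f)
  have hcard : ∀ p : Fin n → Prop, ∀ [DecidablePred p],
      ((Finset.univ.filter p).card : ℝ) ≤ n := by
    intro p _
    exact_mod_cast (Finset.card_filter_le _ _).trans (by simp)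
  let b : Fin (n + n) → ℝ := fun _ => 1
  have hb : ∀ i, 0 < φ i b := by
    rintro ((g | m) | (g | m))
    · simp [φ, a, b]
    · simp [φ, t, b]
    · show 0 < e g b
      rw [he]
      have := hcard (fun m => ¬ q g ≤ q m)
      simp only [a, t, b, LinearMap.proj_apply, Finset.sum_const, nsmul_eq_mul]
      linarith
    · show 0 < f m b
      rw [hf]
      have := hcard (fun g => ¬ q g ≤ q m)
      simp only [a, t, b, LinearMap.proj_apply, Finset.sum_const, nsmul_eq_mul]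
      linarith
  let N : ℝ := 2 * n + 2
  have hN : 0 < N := by positivity
  let p : L → Fin (n + n) → ℝ := fun x =>
    Fin.append (fun g => if q g ≤ x then -N else 1) (fun m => if x ≤ q m then N else -1)
  have hpa : ∀ x g, a g (p x) = if q g ≤ x then -N else 1 := by
    intro x g; simp [a, p]
  have hpt : ∀ x m, t m (p x) = if x ≤ q m then N else -1 := by
    intro x g; simp only [t, p, LinearMap.proj_apply, Fin.append_right]
  have hpa' : ∀ x g, a g (p x) < 0 ↔ q g ≤ x := by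
    intro x g; rw [hpa]; split_ifs with h <;> simp [h, hN]
  have hpt' : ∀ x m, t m (p x) < 0 ↔ ¬ x ≤ q m := by
    intro x g; rw [hpt]; split_ifs with h <;> simp [h, hN.le]
  have hn' : (0 : ℝ) ≤ n := Nat.cast_nonneg n
  have hpe : ∀ x ∈ Q, ∀ g, e g (p x) < 0 := by
    intro x hx g
    rw [he]
    have h1 := hcard (fun m => ¬ q g ≤ q m)
    have h2 : ∀ m ∈ Finset.univ.filter (fun m => ¬ q g ≤ q m), 0 ≤ t m (p x) + 1 := by
      intro m _; rw [hpt]; split_ifs <;> linarith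
    have h3 : ∑ m ∈ Finset.univ.filter (fun m => ¬ q g ≤ q m), (t m (p x) + 1) =
        ∑ m ∈ Finset.univ.filter (fun m => ¬ q g ≤ q m), t m (p x) +
          (Finset.univ.filter (fun m => ¬ q g ≤ q m)).card := by
      rw [Finset.sum_add_distrib]; simp
    rw [hpa]
    split_ifs with h
    · have := Finset.sum_nonneg h2
      simp only [N] at *
      nlinarith
    · obtain ⟨i, rfl⟩ := hq x hx
      have := Finset.single_le_sum h2 (a := i) (by simpa using h)
      rw [hpt, if_pos le_rfl] at this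
      simp only [N] at *
      linarith
  have hpf : ∀ x ∈ Q, ∀ m, 0 < f m (p x) := by
    intro x hx m
    rw [hf]
    have h1 := hcard (fun g => ¬ q g ≤ q m)
    have h2 : ∀ g ∈ Finset.univ.filter (fun g => ¬ q g ≤ q m), 0 ≤ 1 - a g (p x) := by
      intro m _; rw [hpa]; split_ifs <;> linarith
    have h3 : ∑ g ∈ Finset.univ.filter (fun g => ¬ q g ≤ q m), (1 - a g (p x)) =
        (Finset.univ.filter (fun g => ¬ q g ≤ q m)).card -
          ∑ g ∈ Finset.univ.filter (fun g => ¬ q g ≤ q m), a g (p x) := by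
      rw [Finset.sum_sub_distrib]; simp
    rw [hpt]
    split_ifs with h
    · have := Finset.sum_nonneg h2
      simp only [N] at *
      nlinarith
    · obtain ⟨i, rfl⟩ := hq x hx
      have := Finset.single_le_sum h2 (a := i) (by simpa using h)
      rw [hpa, if_pos le_rfl] at this
      simp only [N] at *
      linarith
  have hpc : ∀ x ∈ Q, p x ∈ (ofForms φ b hb).compl := by
    intro x hx
    rw [compl_ofForms]
    rintro ((g | m) | (g | m))
    · show a g (p x) ≠ 0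
      rw [hpa]; split_ifs <;> simp [hN.ne']
    · show t m (p x) ≠ 0
      rw [hpt]; split_ifs <;> simp [hN.ne']
    · exact (hpe x hx g).ne
    · exact (hpf x hx m).ne'
  let A := ofForms φ b hb
  let B := base φ b hb
  let R : ∀ x ∈ Q, A.Pos B := fun x hx => A.reg (p x) (hpc x hx)
  have hR : ∀ x hx, p x ∈ (R x hx).1 := fun x hx => A.mem_reg _ _
  have hup : ∀ x hx (U : A.Pos B) u, u ∈ U.1 → (R x hx ≤ U ↔
      (∀ g, q g ≤ x → a g u < 0) ∧ (∀ m, ¬ x ≤ q m → t m u < 0) ∧ ∀ g, e g u < 0) := by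
    intro x hx U u hu
    rw [le_iff_forms φ b hb _ _ (hR x hx) hu]
    constructor
    · intro h
      exact ⟨fun g hg => h (.inl (.inl g)) ((hpa' x g).2 hg),
        fun m hm => h (.inl (.inr m)) ((hpt' x m).2 hm), fun g => h (.inr (.inl g)) (hpe x hx g)⟩
    · rintro ⟨h1, h2, h3⟩ ((g | m) | (g | m)) h
      · exact h1 g ((hpa' x g).1 h)
      · exact h2 m ((hpt' x m).1 h)
      · exact h3 g
      · exact absurd h (not_lt.2 (hpf x hx m).le)
  have hdown : ∀ x hx (U : A.Pos B) u, u ∈ U.1 → (U ≤ R x hx ↔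
      (∀ g, a g u < 0 → q g ≤ x) ∧ (∀ m, t m u < 0 → ¬ x ≤ q m) ∧ ∀ m, 0 ≤ f m u) := by
    intro x hx U u hu
    rw [le_iff_forms φ b hb _ _ hu (hR x hx)]
    constructor
    · intro h
      exact ⟨fun g hg => (hpa' x g).1 (h (.inl (.inl g)) hg),
        fun m hm => (hpt' x m).1 (h (.inl (.inr m)) hm),
        fun m => not_lt.1 fun hm => absurd (h (.inr (.inr m)) hm) (not_lt.2 (hpf x hx m).le)⟩
    · rintro ⟨h1, h2, h3⟩ ((g | m) | (g | m)) h
      · exact (hpa' x g).2 (h1 g h)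
      · exact (hpt' x m).2 (h2 m h)
      · exact hpe x hx g
      · exact absurd h (not_lt.2 (h3 m))
  let Φ : L → A.DM B := fun x => if hx : x ∈ Q then DedekindCut.principal (R x hx) else ⊥
  have hΦ : ∀ x hx, Φ x = DedekindCut.principal (R x hx) := fun x hx => dif_pos hx
  refine ⟨n + n, by omega, A, B, Φ, ?_, ?_, ?_⟩
  · intro x hx y hy hz
    rw [hΦ _ hx, hΦ _ hy, hΦ _ hz]
    apply Concept.ext'
    ext U
    obtain ⟨u, hu⟩ := A.nonempty U
    show R _ hz ≤ U ↔ R x hx ≤ U ∧ R y hy ≤ U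
    rw [hup _ hz U u hu, hup _ hx U u hu, hup _ hy U u hu]
    constructor
    · rintro ⟨h1, h2, h3⟩
      exact ⟨⟨fun g hg => h1 g (hg.trans le_sup_left), fun m hm => h2 m fun h => hm (le_sup_left.trans h), h3⟩,
        fun g hg => h1 g (hg.trans le_sup_right), fun m hm => h2 m fun h => hm (le_sup_right.trans h), h3⟩
    · rintro ⟨⟨-, h2, h3⟩, -, h2', -⟩
      have ht : ∀ m, ¬ x ⊔ y ≤ q m → t m u < 0 := by
        intro m hm
        by_cases h : x ≤ q m
        · exact h2' m fun h' => hm (sup_le h h')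
        · exact h2 m h
      refine ⟨fun g hg => ?_, ht, h3⟩
      have h4 := h3 g
      rw [he] at h4
      have h5 : ∑ m ∈ Finset.univ.filter (fun m => ¬ q g ≤ q m), t m u ≤ 0 :=
        Finset.sum_nonpos fun m hm => (ht m fun h => (Finset.mem_filter.1 hm).2 (hg.trans h)).le
      by_contra hc
      push Not at hc
      nlinarith
  · intro x hx y hy hz
    rw [hΦ _ hx, hΦ _ hy, hΦ _ hz]
    apply Concept.ext
    ext U
    obtain ⟨u, hu⟩ := A.nonempty U
    show U ≤ R _ hz ↔ U ≤ R x hx ∧ U ≤ R y hy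
    rw [hdown _ hz U u hu, hdown _ hx U u hu, hdown _ hy U u hu]
    constructor
    · rintro ⟨h1, h2, h3⟩
      exact ⟨⟨fun g hg => (h1 g hg).trans inf_le_left, fun m hm h => h2 m hm (inf_le_left.trans h), h3⟩,
        fun g hg => (h1 g hg).trans inf_le_right, fun m hm h => h2 m hm (inf_le_right.trans h), h3⟩
    · rintro ⟨⟨h1, -, h3⟩, h1', -, -⟩
      have ha : ∀ g, a g u < 0 → q g ≤ x ⊓ y := fun g hg => le_inf (h1 g hg) (h1' g hg)
      refine ⟨ha, fun m hm hle => ?_, h3⟩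
      have h4 := h3 m
      rw [hf] at h4
      have h5 : 0 ≤ ∑ g ∈ Finset.univ.filter (fun g => ¬ q g ≤ q m), a g u :=
        Finset.sum_nonneg fun g hg => not_lt.1 fun h =>
          (Finset.mem_filter.1 hg).2 ((ha g h).trans hle)
      nlinarith
  · have key : ∀ x ∈ Q, ∀ y ∈ Q, Φ x ≤ Φ y → x ≤ y := by
      intro x hx y hy h
      rw [hΦ _ hx, hΦ _ hy, DedekindCut.principal_le_principal, hup _ hx _ _ (hR y hy)] at h
      obtain ⟨i, rfl⟩ := hq x hx
      exact (hpa' y i).1 (h.1 i le_rfl)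
    exact fun x hx y hy h => le_antisymm (key x hx y hy h.le) (key y hy x hx h.ge)

open Classical in
/-- values of all subterms -/
noncomputable def Tm.vals {L : Type*} [Lattice L] (v : ℕ → L) : Tm → Finset L
  | .var n => {v n}
  | .sup s t => insert (s.eval v ⊔ t.eval v) (s.vals v ∪ t.vals v)
  | .inf s t => insert (s.eval v ⊓ t.eval v) (s.vals v ∪ t.vals v)

lemma Tm.eval_mem {L : Type*} [Lattice L] (v : ℕ → L) (t : Tm) : t.eval v ∈ t.vals v := by
  cases t <;> simp [Tm.vals, Tm.eval]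

lemma Tm.eval_map {L K : Type*} [Lattice L] [Lattice K] (v : ℕ → L) (Q : Finset L) (Φ : L → K)
    (h1 : ∀ x ∈ Q, ∀ y ∈ Q, x ⊔ y ∈ Q → Φ (x ⊔ y) = Φ x ⊔ Φ y)
    (h2 : ∀ x ∈ Q, ∀ y ∈ Q, x ⊓ y ∈ Q → Φ (x ⊓ y) = Φ x ⊓ Φ y) :
    ∀ t : Tm, t.vals v ⊆ Q → t.eval (fun n => Φ (v n)) = Φ (t.eval v) := by
  classical
  intro t
  induction t with
  | var n => intro _; rfl
  | sup s t ihs iht =>
    intro h
    have hs : s.vals v ⊆ Q := fun x hx => h (by simp [Tm.vals, hx])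
    have ht : t.vals v ⊆ Q := fun x hx => h (by simp [Tm.vals, hx])
    simp only [Tm.eval]
    rw [ihs hs, iht ht, h1 _ (hs (s.eval_mem v)) _ (ht (t.eval_mem v)) (h (by simp [Tm.vals]))]
  | inf s t ihs iht =>
    intro h
    have hs : s.vals v ⊆ Q := fun x hx => h (by simp [Tm.vals, hx])
    have ht : t.vals v ⊆ Q := fun x hx => h (by simp [Tm.vals, hx])
    simp only [Tm.eval]
    rw [ihs hs, iht ht, h2 _ (hs (s.eval_mem v)) _ (ht (t.eval_mem v)) (h (by simp [Tm.vals]))]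

theorem no_qi.{u} (φ : QI) (hφ : QI.Nontrivial.{u} φ) :
    ∃ d, 1 ≤ d ∧ ∃ (A : Arr d) (B : A.Region), ¬ φ.Holds (A.DM B) := by
  classical
  obtain ⟨L, _, hL⟩ := hφ
  simp only [QI.Holds, not_forall] at hL
  obtain ⟨v, hv, hne⟩ := hL
  let Q : Finset L := (φ.lhs.vals v ∪ φ.rhs.vals v) ∪
    φ.prem.toFinset.biUnion fun e => e.1.vals v ∪ e.2.vals v
  have hl : φ.lhs.vals v ⊆ Q := fun x hx => by simp [Q, hx]
  have hr : φ.rhs.vals v ⊆ Q := fun x hx => by simp [Q, hx]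
  have h1 : ∀ e ∈ φ.prem, e.1.vals v ⊆ Q := fun e he x hx =>
    Finset.mem_union_right _ (Finset.mem_biUnion.2 ⟨e, by simpa using he, by simp [hx]⟩)
  have h2 : ∀ e ∈ φ.prem, e.2.vals v ⊆ Q := fun e he x hx =>
    Finset.mem_union_right _ (Finset.mem_biUnion.2 ⟨e, by simpa using he, by simp [hx]⟩)
  obtain ⟨d, hd, A, B, Φ, a1, a2, a3⟩ := embed Q ⟨_, hl (φ.lhs.eval_mem v)⟩
  refine ⟨d, hd, A, B, fun h => hne ?_⟩
  have := h (fun n => Φ (v n)) fun e he => by
    rw [Tm.eval_map v Q Φ a1 a2 _ (h1 e he), Tm.eval_map v Q Φ a1 a2 _ (h2 e he), hv e he]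
  rw [Tm.eval_map v Q Φ a1 a2 _ hl, Tm.eval_map v Q Φ a1 a2 _ hr] at this
  exact a3 _ (hl (φ.lhs.eval_mem v)) _ (hr (φ.rhs.eval_mem v)) this

end Pool.Agent.H6.Reg
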