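import Pool.Agent.H6.RegA

namespace Pool.Agent.H6.Reg

open Set

variable {d : ℕ}

lemma perturb {I : Type*} (s : Finset I) (ψ : I → (Fin d → ℝ) →ₗ[ℝ] ℝ) (hψ : ∀ i ∈ s, ψ i ≠ 0)
    {U : Set (Fin d → ℝ)} (hU : IsOpen U) (hne : U.Nonempty) : ∃ y ∈ U, ∀ i ∈ s, ψ i y ≠ 0 := by
  have hd : Dense (⋂ i ∈ (s : Set I), {y : Fin d → ℝ | ψ i y ≠ 0}) := by
    refine dense_biInter_of_isOpen (fun i _ => ?_) s.countable_toSet (fun i hi => ?_)
    · exact isOpen_ne_fun (ψ i).continuous_of_finiteDimensional continuous_const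
    · have : {y : Fin d → ℝ | ψ i y ≠ 0} = (LinearMap.ker (ψ i) : Set (Fin d → ℝ))ᶜ := by
        ext y; simp
      rw [this, ← interior_eq_empty_iff_dense_compl]
      by_contra h
      have := Submodule.eq_top_of_nonempty_interior' _ (nonempty_iff_ne_empty.2 h)
      exact hψ i hi (LinearMap.ker_eq_top.1 this)
  obtain ⟨y, hy, hy'⟩ := hd.inter_open_nonempty U hU hne
  exact ⟨y, hy, fun i hi => by simpa using mem_iInter₂.1 hy' i hi⟩

/-- normalised forms -/
structure Norm (A : Arr d) (B : A.Region) where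
  b : Fin d → ℝ
  hb : b ∈ B.1
  g : Submodule ℝ (Fin d → ℝ) → (Fin d → ℝ) →ₗ[ℝ] ℝ
  ker : ∀ h ∈ A.H, LinearMap.ker (g h) = h
  one : ∀ h ∈ A.H, g h b = 1

lemma exists_norm (A : Arr d) (B : A.Region) : Nonempty (Norm A B) := by
  classical
  obtain ⟨b, hb⟩ := A.nonempty B
  have : ∀ h : Submodule ℝ (Fin d → ℝ), ∃ f : (Fin d → ℝ) →ₗ[ℝ] ℝ,
      h ∈ A.H → LinearMap.ker f = h ∧ f b = 1 := by
    intro h
    by_cases hh : h ∈ A.H
    · obtain ⟨f, hf⟩ := A.exists_form (A.sub_compl B hb) hh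
      exact ⟨f, fun _ => hf⟩
    · exact ⟨0, fun h => absurd h hh⟩
  choose g hg using this
  exact ⟨⟨b, hb, g, fun h hh => (hg h hh).1, fun h hh => (hg h hh).2⟩⟩

namespace Norm
variable {A : Arr d} {B : A.Region} (n : Norm A B)

lemma sep_iff (R : A.Region) {x : Fin d → ℝ} (hx : x ∈ R.1) (h : Submodule ℝ (Fin d → ℝ)) :
    h ∈ A.sep B R ↔ h ∈ A.H ∧ n.g h x < 0 := by
  constructor
  · intro hh
    have e := A.sep_iff B R (n.g h) (by rw [n.ker h hh.1]; exact hh.1) n.hb hx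
      (by rw [n.one h hh.1]; exact one_pos)
    rw [n.ker h hh.1] at e
    exact ⟨hh.1, e.1 hh⟩
  · rintro ⟨hh, h0⟩
    have e := A.sep_iff B R (n.g h) (by rw [n.ker h hh]; exact hh) n.hb hx
      (by rw [n.one h hh]; exact one_pos)
    rw [n.ker h hh] at e
    exact e.2 h0

lemma compl_iff (x : Fin d → ℝ) : x ∈ A.compl ↔ ∀ h ∈ A.H, n.g h x ≠ 0 := by
  constructor
  · intro hx h hh h0
    exact hx h hh (n.ker h hh ▸ LinearMap.mem_ker.2 h0)
  · intro hx h hh h0
    rw [← n.ker h hh] at h0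
    exact hx h hh (LinearMap.mem_ker.1 h0)

lemma g_ne (h : Submodule ℝ (Fin d → ℝ)) (hh : h ∈ A.H) : n.g h ≠ 0 := by
  intro h0
  have := n.one h hh
  rw [h0] at this
  simp at this

include n in
lemma generic {U : Set (Fin d → ℝ)} (hU : IsOpen U) (hne : U.Nonempty) :
    ∃ y ∈ U, y ∈ A.compl := by
  obtain ⟨y, hy, h⟩ := perturb A.H n.g n.g_ne hU hne
  exact ⟨y, hy, (n.compl_iff y).2 h⟩

include n in
lemma cover (M : A.Region) (h0 : ∃ h ∈ A.H, h ∉ A.sep B M) :
    ∃ p ∈ A.H, p ∉ A.sep B M ∧ ∃ M' : A.Region, A.sep B M' = insert p (A.sep B M) := by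
  classical
  obtain ⟨x0, hx0⟩ := A.nonempty M
  have hx0' := (n.compl_iff x0).1 (A.sub_compl M hx0)
  let U : Set (Fin d → ℝ) := ⋂ h ∈ A.H, {x | 0 < n.g h x0 * n.g h x}
  have hU : IsOpen U := isOpen_biInter_finset fun h _ =>
    isOpen_lt continuous_const (continuous_const.mul (n.g h).continuous_of_finiteDimensional)
  have hne : U.Nonempty := ⟨x0, mem_iInter₂.2 fun h hh => mul_self_pos.2 (hx0' h hh)⟩
  obtain ⟨x, hx, hgen⟩ := perturb A.H.offDiag (fun e => n.g e.1 - n.g e.2) (by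
    rintro ⟨h, h'⟩ he hz
    obtain ⟨a1, a2, a3⟩ := Finset.mem_offDiag.1 he
    apply a3
    have : n.g h = n.g h' := sub_eq_zero.1 hz
    show h = h'
    rw [← n.ker h a1, this, n.ker h' a2]) hU hne
  have hs : ∀ h ∈ A.H, 0 < n.g h x0 * n.g h x := fun h hh => mem_iInter₂.1 hx h hh
  have hsep : ∀ h ∈ A.H, (h ∈ A.sep B M ↔ n.g h x < 0) := by
    intro h hh
    rw [n.sep_iff M hx0]
    have := hs h hh
    constructor
    · rintro ⟨-, h1⟩; by_contra h2; push Not at h2; nlinarith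
    · intro h1; refine ⟨hh, ?_⟩; by_contra h2; push Not at h2; nlinarith
  have hx1 : ∀ h ∈ A.H, n.g h x ≠ 0 := by
    intro h hh h0; have := hs h hh; rw [h0] at this; simp at this
  let P := A.H.filter fun h => 0 < n.g h x
  have hP : P.Nonempty := by
    obtain ⟨h, hh, hn⟩ := h0
    exact ⟨h, Finset.mem_filter.2 ⟨hh, lt_of_le_of_ne (not_lt.1 fun h1 => hn ((hsep h hh).2 h1))
      (hx1 h hh).symm⟩⟩
  obtain ⟨p, hp, hmin⟩ := P.exists_min_image (fun h => n.g h x) hP
  obtain ⟨hpH, hp0⟩ := Finset.mem_filter.1 hp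
  have hlt : ∀ h ∈ P.erase p, n.g p x < n.g h x := by
    intro h hh
    obtain ⟨a1, a2⟩ := Finset.mem_erase.1 hh
    refine lt_of_le_of_ne (hmin h a2) fun he => ?_
    apply hgen (h, p) (Finset.mem_offDiag.2 ⟨(Finset.mem_filter.1 a2).1, hpH, a1⟩)
    simp [he]
  have hev : ∀ᶠ t in nhdsWithin (n.g p x) (Ioi (n.g p x)), ∀ h ∈ P.erase p, t < n.g h x :=
    (Filter.eventually_all_finset _).2 fun h hh =>
      nhdsWithin_le_nhds (eventually_lt_nhds (hlt h hh))
  obtain ⟨t, ht, ht'⟩ := (hev.and self_mem_nhdsWithin).exists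
  have ht'' : n.g p x < t := ht'
  have hv : ∀ h ∈ A.H, n.g h (x - t • n.b) = n.g h x - t := by
    intro h hh; simp [n.one h hh]
  have hcase : ∀ h ∈ A.H, (h = p ∨ n.g h x < 0) ∧ n.g h x - t < 0 ∨
      ¬ (h = p ∨ n.g h x < 0) ∧ 0 < n.g h x - t := by
    intro h hh
    by_cases e : h = p
    · left; subst e; exact ⟨.inl rfl, by linarith⟩
    · rcases lt_or_gt_of_ne (hx1 h hh) with a | a
      · left; exact ⟨.inr a, by linarith⟩
      · right
        have := ht h (Finset.mem_erase.2 ⟨e, Finset.mem_filter.2 ⟨hh, a⟩⟩)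
        exact ⟨by rintro (h1 | h1); exacts [e h1, by linarith], by linarith⟩
  have hc : x - t • n.b ∈ A.compl := (n.compl_iff _).2 fun h hh => by
    rw [hv h hh]
    rcases hcase h hh with a | a
    · exact a.2.ne
    · exact a.2.ne'
  refine ⟨p, hpH, fun h => absurd ((hsep p hpH).1 h) (not_lt.2 hp0.le), A.reg _ hc, ?_⟩
  ext h
  rw [n.sep_iff _ (A.mem_reg _ hc), mem_insert_iff]
  constructor
  · rintro ⟨hh, h1⟩
    rw [hv h hh] at h1
    rw [hsep h hh]
    rcases hcase h hh with a | a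
    · exact a.1
    · linarith [a.2]
  · intro h1
    have hh : h ∈ A.H := by
      rcases h1 with rfl | h1
      · exact hpH
      · exact h1.1
    rw [hsep h hh] at h1
    refine ⟨hh, ?_⟩
    rw [hv h hh]
    rcases hcase h hh with a | a
    · exact a.2
    · exact absurd h1 a.1

end Norm

instance (A : Arr d) (B : A.Region) : Finite (A.Pos B) := by
  have h : (univ : Set (A.Pos B)).Finite := by
    refine Set.Finite.of_finite_image (f := A.sep B) ?_ (A.sep_injective B).injOn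
    refine (A.H.finite_toSet.finite_subsets).subset ?_
    rintro _ ⟨R, -, rfl⟩ h hh
    exact hh.1
  exact Set.finite_univ_iff.1 h

/-- a prime witness for `T ≰ w` -/
lemma prime_wit (A : Arr d) (B : A.Region) (T w : A.DM B) (h : ¬ T ≤ w) :
    ∃ (M : A.Pos B) (p : Submodule ℝ (Fin d → ℝ)), p ∈ A.H ∧ M ∈ w.right ∧ M ∉ T.right ∧
      p ∉ A.sep B M ∧ ∀ R ∈ T.left, A.sep B R ⊆ insert p (A.sep B M) := by
  obtain ⟨n⟩ := exists_norm A B
  rw [← Concept.intent_subset_intent_iff, not_subset] at h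
  obtain ⟨M, hM⟩ := (Set.toFinite {M : A.Pos B | M ∈ w.right ∧ M ∉ T.right}).exists_maximal h
  have h0 : ∃ h ∈ A.H, h ∉ A.sep B M := by
    by_contra hc
    push Not at hc
    apply hM.1.2
    rw [← DedekindCut.upperBounds_left]
    intro R _ k hk
    exact hc k hk.1
  obtain ⟨p, hp, hp', M', hM'⟩ := n.cover M h0
  have hle : M ≤ (M' : A.Pos B) := by
    rw [Arr.le_def, hM']; exact subset_insert _ _
  have hT : (M' : A.Pos B) ∈ T.right := by
    by_contra hc
    have := hM.2 (y := M') ⟨Concept.mem_intent_of_intent_rel hle hM.1.1, hc⟩ hle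
    exact hp' (this (by rw [hM']; exact mem_insert _ _))
  refine ⟨M, p, hp, hM.1.1, hM.1.2, hp', fun R hR => ?_⟩
  rw [← hM']
  exact (Arr.le_def A B R M').1 (Concept.rel_extent_intent hR hT)

/-- Helly property -/
lemma helly (A : Arr d) (B : A.Region) {I : Type} (J : Finset I) (y : I → A.DM B)
    (p : Submodule ℝ (Fin d → ℝ)) (hp : p ∈ A.H)
    (h : ∀ K ⊆ J, K.card ≤ d + 1 → ∃ R : A.Pos B, p ∈ A.sep B R ∧ ∀ i ∈ K, R ∈ (y i).left) :
    ∃ R : A.Pos B, p ∈ A.sep B R ∧ ∀ i ∈ J, R ∈ (y i).left := by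
  classical
  obtain ⟨n⟩ := exists_norm A B
  rcases J.eq_empty_or_nonempty with rfl | hJ
  · exact h ∅ (by simp) (by simp)
  let G : I → Finset (Submodule ℝ (Fin d → ℝ)) := fun i =>
    A.H.filter fun k => ∃ M ∈ (y i).right, k ∉ A.sep B M
  let D : I → Set (Fin d → ℝ) := fun i => {x | n.g p x < 0} ∩ ⋂ k ∈ G i, {x | 0 < n.g k x}
  have hconv : ∀ i ∈ J, Convex ℝ (D i) := fun i _ =>
    (convex_halfSpace_lt (n.g p).isLinear 0).inter
      (convex_iInter₂ fun k _ => convex_halfSpace_gt (n.g k).isLinear 0)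
  have hopen : ∀ i, IsOpen (D i) := fun i =>
    (isOpen_lt (n.g p).continuous_of_finiteDimensional continuous_const).inter
      (isOpen_biInter_finset fun k _ =>
        isOpen_lt continuous_const (n.g k).continuous_of_finiteDimensional)
  have hne := Convex.helly_theorem' hconv (by
    intro K hK hc
    obtain ⟨R, hR, hR'⟩ := h K hK (by simpa using hc)
    obtain ⟨x, hx⟩ := A.nonempty R
    refine ⟨x, mem_iInter₂.2 fun i hi => ⟨((n.sep_iff R hx p).1 hR).2, mem_iInter₂.2 fun k hk => ?_⟩⟩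
    obtain ⟨hk1, M, hM, hk2⟩ := Finset.mem_filter.1 hk
    have hle : R ≤ M := Concept.rel_extent_intent (hR' i hi) hM
    refine lt_of_le_of_ne (not_lt.1 fun h1 => hk2 (hle ((n.sep_iff R hx k).2 ⟨hk1, h1⟩))) ?_
    exact ((n.compl_iff x).1 (A.sub_compl R hx) k hk1).symm)
  obtain ⟨x, hx, hxc⟩ := n.generic (isOpen_biInter_finset fun i _ => hopen i) hne
  have hx' : ∀ i ∈ J, x ∈ D i := fun i hi => mem_iInter₂.1 hx i hi
  obtain ⟨i0, hi0⟩ := hJ
  refine ⟨A.reg x hxc, (n.sep_iff _ (A.mem_reg x hxc) p).2 ⟨hp, (hx' i0 hi0).1⟩, fun i hi => ?_⟩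
  rw [← DedekindCut.lowerBounds_right]
  intro M hM k hk
  by_contra hc
  have h1 := (n.sep_iff _ (A.mem_reg x hxc) k).1 hk
  have h2 : 0 < n.g k x := mem_iInter₂.1 (hx' i hi).2 k (Finset.mem_filter.2 ⟨h1.1, M, hM, hc⟩)
  linarith [h1.2]

lemma core (A : Arr d) (B : A.Region) (T w : A.DM B) (z : ℕ → A.DM B) (y : Finset ℕ → A.DM B)
    (hy : ∀ J x, y J ≤ x ↔ w ≤ x ∧ ∀ k ∈ J, z k ≤ x)
    (h1 : ∀ J ⊆ Finset.range (2 * d + 3), J.card = d + 2 → y J = T)
    (h2 : ∀ J ⊆ Finset.range (2 * d + 3), J.card = d + 2 →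
      ∀ x, x ≤ T → (∀ i ∈ J, x ≤ y (J.erase i)) → x ≤ w) : T ≤ w := by
  classical
  by_contra hc
  obtain ⟨M, p, hp, hMw, hMT, hpM, hT⟩ := prime_wit A B T w hc
  let Bad := (Finset.range (2 * d + 3)).filter fun k => M ∈ (z k).right
  have hBad : Bad.card ≤ d + 1 := by
    by_contra hb
    obtain ⟨J, hJ, hJc⟩ := Finset.exists_subset_card_eq (s := Bad) (n := d + 2) (by omega)
    apply hMT
    rw [← DedekindCut.le_principal_iff, ← h1 J (hJ.trans (Finset.filter_subset _ _)) hJc, hy]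
    exact ⟨DedekindCut.le_principal_iff.2 hMw,
      fun k hk => DedekindCut.le_principal_iff.2 (Finset.mem_filter.1 (hJ hk)).2⟩
  have hGood : d + 2 ≤ (Finset.range (2 * d + 3) \ Bad).card := by
    rw [Finset.card_sdiff_of_subset (show Bad ⊆ _ from Finset.filter_subset _ _), Finset.card_range]
    omega
  obtain ⟨J, hJ, hJc⟩ := Finset.exists_subset_card_eq hGood
  have hJr : J ⊆ Finset.range (2 * d + 3) := hJ.trans Finset.sdiff_subset
  have hyT : ∀ i, y (J.erase i) ≤ T := by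
    intro i
    rw [← h1 J hJr hJc, hy]
    exact ⟨((hy J _).1 le_rfl).1, fun k hk => ((hy J _).1 le_rfl).2 k (Finset.mem_of_mem_erase hk)⟩
  obtain ⟨R, hR, hR'⟩ := helly A B J (fun i => y (J.erase i)) p hp (by
    intro K hK hKc
    obtain ⟨k, hk, hkK⟩ := Finset.exists_mem_notMem_of_card_lt_card (s := K) (t := J) (by omega)
    have hz : M ∉ (z k).right := fun h =>
      (Finset.mem_sdiff.1 (hJ hk)).2 (Finset.mem_filter.2 ⟨hJr hk, h⟩)
    rw [← DedekindCut.upperBounds_left, mem_upperBounds] at hz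
    push Not at hz
    obtain ⟨R, hR, hRM⟩ := hz
    have hzT : z k ≤ T := by rw [← h1 J hJr hJc]; exact ((hy J _).1 le_rfl).2 k hk
    refine ⟨R, ?_, fun i hi => ?_⟩
    · by_contra hpR
      apply hRM
      intro h hh
      rcases hT R (hzT hR) hh with rfl | h'
      · exact absurd hh hpR
      · exact h'
    · exact ((hy (J.erase i) _).1 le_rfl).2 k
        (Finset.mem_erase.2 ⟨fun e => hkK (e ▸ hi), hk⟩) hR)
  obtain ⟨i0, hi0⟩ : J.Nonempty := Finset.card_pos.1 (by omega)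
  have := h2 J hJr hJc (DedekindCut.principal R)
    ((DedekindCut.principal_le_iff.2 (hR' i0 hi0)).trans (hyT i0))
    fun i hi => DedekindCut.principal_le_iff.2 (hR' i hi)
  exact hpM (Concept.rel_extent_intent (DedekindCut.principal_le_iff.1 this) hMw hR)

/-- join of `w = x_1` and the `z_k = x_{k+2}`, `k ∈ J` -/
noncomputable def zs (J : Finset ℕ) : Tm := (J.toList.map fun k => Tm.var (k + 2)).foldr .sup (.var 1)

/-- meet of `T = x_0` and the joins over the `J \ {i}` -/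
noncomputable def ms (J : Finset ℕ) : Tm := (J.toList.map fun i => zs (J.erase i)).foldr .inf (.var 0)

lemma foldr_sup_le {L : Type*} [Lattice L] (v : ℕ → L) (l : List Tm) (s : Tm) (x : L) :
    (l.foldr .sup s).eval v ≤ x ↔ s.eval v ≤ x ∧ ∀ t ∈ l, t.eval v ≤ x := by
  induction l with
  | nil => simp
  | cons a l ih => simp [Tm.eval, ih]; tauto

lemma le_foldr_inf {L : Type*} [Lattice L] (v : ℕ → L) (l : List Tm) (s : Tm) (x : L) :
    x ≤ (l.foldr .inf s).eval v ↔ x ≤ s.eval v ∧ ∀ t ∈ l, x ≤ t.eval v := by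
  induction l with
  | nil => simp
  | cons a l ih => simp [Tm.eval, ih]; tauto

lemma zs_le {L : Type*} [Lattice L] (v : ℕ → L) (J : Finset ℕ) (x : L) :
    (zs J).eval v ≤ x ↔ v 1 ≤ x ∧ ∀ k ∈ J, v (k + 2) ≤ x := by
  simp [zs, foldr_sup_le, Tm.eval]

lemma le_ms {L : Type*} [Lattice L] (v : ℕ → L) (J : Finset ℕ) (x : L) :
    x ≤ (ms J).eval v ↔ x ≤ v 0 ∧ ∀ i ∈ J, x ≤ (zs (J.erase i)).eval v := by
  simp [ms, le_foldr_inf, Tm.eval]

/-- the quasi-identity for dimension `d` -/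
noncomputable def qi (d : ℕ) : QI where
  prem := ((Finset.range (2 * d + 3)).powersetCard (d + 2)).toList.flatMap fun J =>
    [(zs J, .var 0), (ms J, .var 1)]
  lhs := .var 0
  rhs := .var 1

lemma qi_prem {L : Type*} [Lattice L] (v : ℕ → L) (d : ℕ) :
    (∀ e ∈ (qi d).prem, e.1.eval v = e.2.eval v) ↔ ∀ J ⊆ Finset.range (2 * d + 3), J.card = d + 2 →
      (zs J).eval v = v 0 ∧ (ms J).eval v = v 1 := by
  simp only [qi, List.mem_flatMap, Finset.mem_toList, Finset.mem_powersetCard]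
  constructor
  · intro h J h1 h2
    exact ⟨h (zs J, .var 0) ⟨J, ⟨h1, h2⟩, by simp⟩, h (ms J, .var 1) ⟨J, ⟨h1, h2⟩, by simp⟩⟩
  · rintro h e ⟨J, ⟨h1, h2⟩, he⟩
    simp only [List.mem_cons, List.not_mem_nil, or_false] at he
    rcases he with rfl | rfl
    · exact (h J h1 h2).1
    · exact (h J h1 h2).2

theorem qi_holds (A : Arr d) (B : A.Region) : (qi d).Holds (A.DM B) := by
  intro v hv
  rw [qi_prem] at hv
  show v 0 = v 1
  apply le_antisymm
  · refine core A B (v 0) (v 1) (fun k => v (k + 2)) (fun J => (zs J).eval v) (zs_le v)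
      (fun J h1 h2 => (hv J h1 h2).1) fun J h1 h2 x hx hx' => ?_
    rw [← (hv J h1 h2).2, le_ms]
    exact ⟨hx, hx'⟩
  · obtain ⟨J, hJ, hJc⟩ := Finset.exists_subset_card_eq (s := Finset.range (2 * d + 3))
      (n := d + 2) (by simp; omega)
    rw [← (hv J hJ hJc).1]
    exact ((zs_le v J _).1 le_rfl).1

theorem qi_nontrivial.{u} (d : ℕ) : QI.Nontrivial.{u} (qi d) := by
  let r : ULift.{u} ℕ → Finset ℕ → Prop := fun k S => k.down ∈ S ∧ S.card ≤ d + 1
  refine ⟨Concept (ULift.{u} ℕ) (Finset ℕ) r, inferInstance, fun h => ?_⟩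
  let v : ℕ → Concept (ULift.{u} ℕ) (Finset ℕ) r := fun n =>
    match n with
    | 0 => ⊤
    | 1 => ⊥
    | k + 2 => Concept.ofObject r ⟨k⟩
  have hv := h v ((qi_prem v d).2 fun J _ hJ => ?_)
  · have h1 : Concept.ofObject r ⟨0⟩ ≤ Concept.ofAttribute r ∅ :=
      le_top.trans ((show (⊤ : Concept _ _ r) = ⊥ from hv).le.trans bot_le)
    simpa [r] using (Concept.ofObject_le_ofAttribute_iff.1 h1).1
  · constructor
    · refine top_le_iff.1 ?_
      rw [← Concept.intent_subset_intent_iff]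
      intro S hS
      exfalso
      have h1 : ∀ k ∈ J, r ⟨k⟩ S := fun k hk =>
        Concept.rel_extent_intent
          (Concept.ofObjects_le_iff.1 (((zs_le v J _).1 le_rfl).2 k hk) (mem_singleton _)) hS
      obtain ⟨i0, hi0⟩ : J.Nonempty := Finset.card_pos.1 (by omega)
      have h2 : J.card ≤ S.card := Finset.card_le_card fun k hk => (h1 k hk).1
      have := (h1 i0 hi0).2
      omega
    · refine le_bot_iff.1 ?_
      intro k hk
      exfalso
      have h1 : ∀ i ∈ J, k.down ∈ J.erase i := by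
        intro i hi
        have h2 : (zs (J.erase i)).eval v ≤ Concept.ofAttribute r (J.erase i) :=
          (zs_le v _ _).2 ⟨bot_le, fun j hj => Concept.ofObject_le_ofAttribute_iff.2
            ⟨hj, by rw [Finset.card_erase_of_mem hi]; omega⟩⟩
        have h3 : Concept.ofObject r k ≤ (ms J).eval v :=
          Concept.ofObjects_le_iff.2 (singleton_subset_iff.2 hk)
        exact (Concept.ofObject_le_ofAttribute_iff.1
          ((h3.trans (((le_ms v J _).1 le_rfl).2 i hi)).trans h2)).1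
      obtain ⟨i0, hi0⟩ : J.Nonempty := Finset.card_pos.1 (by omega)
      exact Finset.notMem_erase _ _ (h1 _ (Finset.mem_of_mem_erase (h1 i0 hi0)))

end Pool.Agent.H6.Reg
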