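import Mathlib

/-! Posets of regions of central hyperplane arrangements, their Dedekind-MacNeille completions,
lattice terms and quasi-identities. -/

namespace Pool.Agent.H6.Reg

open Set

/-- A central hyperplane arrangement in `ℝ^d`: a finite set of linear hyperplanes (kernels of
nonzero linear forms). -/
structure Arr (d : ℕ) where
  H : Finset (Submodule ℝ (Fin d → ℝ))
  hyp : ∀ h ∈ H, ∃ f : (Fin d → ℝ) →ₗ[ℝ] ℝ, f ≠ 0 ∧ LinearMap.ker f = h

variable {d : ℕ}

/-- The complement of the union of the hyperplanes. -/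
def Arr.compl (A : Arr d) : Set (Fin d → ℝ) := {x | ∀ h ∈ A.H, x ∉ h}

/-- Regions: the connected components of the complement of the union of the hyperplanes. -/
def Arr.Region (A : Arr d) : Type :=
  {R : Set (Fin d → ℝ) // ∃ x ∈ A.compl, R = connectedComponentIn A.compl x}

/-- The hyperplane `h` separates `R` from `B`: they lie in opposite open half-spaces of `h`. -/
def Separates (h : Submodule ℝ (Fin d → ℝ)) (R B : Set (Fin d → ℝ)) : Prop :=
  ∃ f : (Fin d → ℝ) →ₗ[ℝ] ℝ, LinearMap.ker f = h ∧ (∀ x ∈ R, f x < 0) ∧ ∀ y ∈ B, 0 < f y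

/-- `S(R)`: the hyperplanes of the arrangement separating `R` from the base region `B`. -/
def Arr.sep (A : Arr d) (B R : A.Region) : Set (Submodule ℝ (Fin d → ℝ)) :=
  {h | h ∈ A.H ∧ Separates h R.1 B.1}

lemma Arr.sub_compl (A : Arr d) (R : A.Region) : R.1 ⊆ A.compl := by
  obtain ⟨x, -, h⟩ := R.2
  rw [h]; exact connectedComponentIn_subset _ _

lemma Arr.nonempty (A : Arr d) (R : A.Region) : R.1.Nonempty := by
  obtain ⟨x, hx, h⟩ := R.2
  exact ⟨x, by rw [h]; exact mem_connectedComponentIn hx⟩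

lemma Arr.sign_const (A : Arr d) (R : A.Region) (f : (Fin d → ℝ) →ₗ[ℝ] ℝ)
    (hf : LinearMap.ker f ∈ A.H) {x y : Fin d → ℝ} (hx : x ∈ R.1) (hy : y ∈ R.1) (h : f x < 0) :
    f y < 0 := by
  by_contra hn
  push Not at hn
  have hp : IsPreconnected R.1 := by
    obtain ⟨z, -, hz⟩ := R.2
    rw [hz]; exact isPreconnected_connectedComponentIn
  have hc : ContinuousOn f R.1 := f.continuous_of_finiteDimensional.continuousOn
  obtain ⟨z, hz, h0⟩ := hp.intermediate_value hx hy hc (show (0 : ℝ) ∈ Icc (f x) (f y) from ⟨h.le, hn⟩)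
  exact A.sub_compl R hz _ hf (LinearMap.mem_ker.2 h0)

lemma Arr.sep_iff (A : Arr d) (B R : A.Region) (f : (Fin d → ℝ) →ₗ[ℝ] ℝ)
    (hf : LinearMap.ker f ∈ A.H) {b x : Fin d → ℝ} (hb : b ∈ B.1) (hx : x ∈ R.1) (h : 0 < f b) :
    LinearMap.ker f ∈ A.sep B R ↔ f x < 0 := by
  constructor
  · rintro ⟨-, g, hg, h1, h2⟩
    have hk : f b • x - f x • b ∈ LinearMap.ker g := by
      rw [hg, LinearMap.mem_ker]; simp [mul_comm]
    rw [LinearMap.mem_ker] at hk
    simp only [map_sub, map_smul, smul_eq_mul] at hk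
    have := h1 x hx
    have := h2 b hb
    by_contra hn
    push Not at hn
    nlinarith [mul_nonneg hn (h2 b hb).le, mul_pos h (neg_pos.2 (h1 x hx))]
  · intro hx0
    refine ⟨hf, f, rfl, fun y hy => A.sign_const R f hf hx hy hx0, fun y hy => ?_⟩
    have := A.sign_const B (-f) (by rwa [LinearMap.ker_neg]) hb hy (by simpa using h)
    simpa using this

lemma Arr.exists_form (A : Arr d) {b : Fin d → ℝ} (hb : b ∈ A.compl)
    {h : Submodule ℝ (Fin d → ℝ)} (hh : h ∈ A.H) :
    ∃ f : (Fin d → ℝ) →ₗ[ℝ] ℝ, LinearMap.ker f = h ∧ f b = 1 := by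
  obtain ⟨f, -, hf⟩ := A.hyp h hh
  have h0 : f b ≠ 0 := fun h0 => hb h hh (hf ▸ LinearMap.mem_ker.2 h0)
  refine ⟨(f b)⁻¹ • f, ?_, by simp [h0]⟩
  rw [LinearMap.ker_smul _ _ (inv_ne_zero h0), hf]

lemma Arr.sep_injective (A : Arr d) (B : A.Region) : Function.Injective (A.sep B) := by
  intro R R' hRR
  obtain ⟨b, hb⟩ := A.nonempty B
  obtain ⟨x, hx, h⟩ := R.2
  obtain ⟨x', hx', h'⟩ := R'.2
  have hxR : x ∈ R.1 := by rw [h]; exact mem_connectedComponentIn hx
  have hxR' : x' ∈ R'.1 := by rw [h']; exact mem_connectedComponentIn hx'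
  have hseg : segment ℝ x x' ⊆ A.compl := by
    rintro z ⟨s, t, hs, ht, hst, rfl⟩ k hk hz
    obtain ⟨f, hf, hfb⟩ := A.exists_form (A.sub_compl B hb) hk
    have e1 := A.sep_iff B R f (hf ▸ hk) hb hxR (by rw [hfb]; exact one_pos)
    have e2 := A.sep_iff B R' f (hf ▸ hk) hb hxR' (by rw [hfb]; exact one_pos)
    rw [hRR, e2] at e1
    have n1 : f x ≠ 0 := fun h0 => hx k hk (hf ▸ LinearMap.mem_ker.2 h0)
    have n2 : f x' ≠ 0 := fun h0 => hx' k hk (hf ▸ LinearMap.mem_ker.2 h0)
    rw [← hf, LinearMap.mem_ker] at hz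
    simp only [map_add, map_smul, smul_eq_mul] at hz
    obtain rfl : t = 1 - s := by linarith
    rcases lt_or_gt_of_ne n1 with a1 | a1
    · have a2 := e1.2 a1
      rcases hs.eq_or_lt with rfl | hs'
      · simp at hz; exact n2 hz
      · nlinarith [mul_pos hs' (neg_pos.2 a1), mul_nonneg ht (neg_pos.2 a2).le]
    · have a2 : 0 < f x' := lt_of_le_of_ne (not_lt.1 fun h => absurd (e1.1 h) (not_lt.2 a1.le)) n2.symm
      rcases hs.eq_or_lt with rfl | hs'
      · simp at hz; exact n2 hz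
      · nlinarith [mul_pos hs' a1, mul_nonneg ht a2.le]
  have hmem : x' ∈ connectedComponentIn A.compl x :=
    (convex_segment x x').isPreconnected.subset_connectedComponentIn (left_mem_segment ℝ x x') hseg
      (right_mem_segment ℝ x x')
  apply Subtype.ext
  rw [h, h']
  exact connectedComponentIn_eq hmem

/-- The poset of regions `Pos(H, B)`: the regions, ordered by `R ≤ R'` iff `S(R) ⊆ S(R')`. -/
def Arr.Pos (A : Arr d) (_B : A.Region) : Type := A.Region

instance (A : Arr d) (B : A.Region) : PartialOrder (A.Pos B) :=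
  PartialOrder.lift (A.sep B) (A.sep_injective B)

/-- `DM(H, B)`: the Dedekind-MacNeille completion of the poset of regions. -/
abbrev Arr.DM (A : Arr d) (B : A.Region) : Type := DedekindCut (A.Pos B)

/-- Lattice terms in the language of join and meet. -/
inductive Tm
  | var : ℕ → Tm
  | sup : Tm → Tm → Tm
  | inf : Tm → Tm → Tm

/-- The value of a term under a valuation of the variables. -/
def Tm.eval {L : Type*} [Lattice L] (v : ℕ → L) : Tm → L
  | .var n => v n
  | .sup s t => s.eval v ⊔ t.eval v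
  | .inf s t => s.eval v ⊓ t.eval v

/-- A quasi-identity: a finite list of premises `p_i = q_i` and a conclusion `lhs = rhs`. -/
structure QI where
  prem : List (Tm × Tm)
  lhs : Tm
  rhs : Tm

/-- The quasi-identity holds in the lattice `L`. -/
def QI.Holds (φ : QI) (L : Type*) [Lattice L] : Prop :=
  ∀ v : ℕ → L, (∀ e ∈ φ.prem, e.1.eval v = e.2.eval v) → φ.lhs.eval v = φ.rhs.eval v

/-- Nontrivial: fails in some lattice. -/
def QI.Nontrivial.{u} (φ : QI) : Prop := ∃ (L : Type u) (_ : Lattice L), ¬ φ.Holds L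

end Pool.Agent.H6.Reg
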