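import Pool.Agent.H6.SSPDefs

namespace Pool.Agent.H6.SSP
open Matrix

instance : DecidableRel G8.Adj := fun i j => by unfold G8; infer_instance

lemma allpow {n : ℕ} (A X : Matrix (Fin (n + 1)) (Fin (n + 1)) ℝ)
    (h : ∀ k ≤ n, (X * A ^ k) 0 0 = 0) (k : ℕ) : (X * A ^ k) 0 0 = 0 := by
  rw [A.pow_eq_aeval_mod_charpoly k, Polynomial.aeval_eq_sum_range' (n := n + 1), Finset.mul_sum,
    Matrix.sum_apply]
  · exact Finset.sum_eq_zero fun i hi => by
      rw [Matrix.mul_smul, Matrix.smul_apply, h i (by simp at hi; omega), smul_zero]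
  · have := Polynomial.natDegree_modByMonic_lt (Polynomial.X ^ k) A.charpoly_monic fun c => by
      simpa [c] using A.charpoly_natDegree_eq_dim
    simpa using this

theorem g8 : SSPGraph G8 := by
  rintro A ⟨hs, hA⟩ X xs h1 h2 h3
  have z : ∀ i j, i ≠ j → ¬ G8.Adj i j → A i j = 0 := fun i j h h' =>
    by_contra fun c => h' ((hA i j h).1 c)
  have nz : ∀ i j, G8.Adj i j → A i j ≠ 0 := fun i j h => (hA i j h.ne).2 h
  have xd : ∀ i, X i i = 0 := fun i => by simpa using congrFun (congrFun h2 i) i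
  have xe : ∀ i j, G8.Adj i j → X i j = 0 := fun i j h => by
    simpa [nz i j h] using congrFun (congrFun h1 i) j
  have sA : ∀ i j, A j i = A i j := fun i j => hs.apply i j
  have sX : ∀ i j, X j i = X i j := fun i j => xs.apply i j
  have comm : A * X = X * A := sub_eq_zero.1 h3
  obtain ⟨a0, a1, a2, a3, a4, a5, a6, b, d, n0, n1, n2, n3, n4, n5, n6, nb, mv⟩ :
      ∃ (a0 a1 a2 a3 a4 a5 a6 b : ℝ) (d : Fin 8 → ℝ), a0 ≠ 0 ∧ a1 ≠ 0 ∧ a2 ≠ 0 ∧ a3 ≠ 0 ∧
      a4 ≠ 0 ∧ a5 ≠ 0 ∧ a6 ≠ 0 ∧ b ≠ 0 ∧ ∀ v : Fin 8 → ℝ, A *ᵥ v =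
      ![d 0 * v 0 + a0 * v 1, a0 * v 0 + d 1 * v 1 + a1 * v 2, a1 * v 1 + d 2 * v 2 + a2 * v 3,
        a2 * v 2 + d 3 * v 3 + a3 * v 4 + b * v 6,
        a3 * v 3 + d 4 * v 4 + a4 * v 5, a4 * v 4 + d 5 * v 5 + a5 * v 6,
        b * v 3 + a5 * v 5 + d 6 * v 6 + a6 * v 7, a6 * v 6 + d 7 * v 7] := by
    refine ⟨A 0 1, A 1 2, A 2 3, A 3 4, A 4 5, A 5 6, A 6 7, A 3 6, fun i => A i i,
      nz _ _ (by decide), nz _ _ (by decide), nz _ _ (by decide), nz _ _ (by decide),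
      nz _ _ (by decide), nz _ _ (by decide), nz _ _ (by decide), nz _ _ (by decide), fun v => ?_⟩
    ext i
    fin_cases i <;>
      simp (disch := decide) [Matrix.mulVec, dotProduct, Fin.sum_univ_succ, z, sA 0 1, sA 1 2,
        sA 2 3, sA 3 4, sA 4 5, sA 5 6, sA 6 7, sA 3 6, add_assoc]
  have c : ∀ i j, (A *ᵥ X j) i = (A *ᵥ X i) j := fun i j => by
    have := congrFun (congrFun comm i) j
    simp only [Matrix.mul_apply] at this
    simp only [Matrix.mulVec, dotProduct]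
    rw [Finset.sum_congr rfl fun k _ => by rw [sX k j], this]
    exact Finset.sum_congr rfl fun k _ => by rw [mul_comm, sA, sX]
  have e : ∀ i j : Fin 8, (i : ℕ) + 1 = j → X i j = 0 ∧ X j i = 0 := fun i j h => by
    have : G8.Adj i j := by
      simp only [G8, SimpleGraph.fromRel_adj, ne_eq, Fin.ext_iff]; omega
    exact ⟨xe _ _ this, xe _ _ this.symm⟩
  have e36 := xe 3 6 (by decide)
  obtain ⟨e01, e10⟩ := e 0 1 rfl
  obtain ⟨e12, e21⟩ := e 1 2 rfl
  obtain ⟨e23, e32⟩ := e 2 3 rfl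
  obtain ⟨e34, e43⟩ := e 3 4 rfl
  obtain ⟨e45, e54⟩ := e 4 5 rfl
  obtain ⟨e56, e65⟩ := e 5 6 rfl
  obtain ⟨e67, e76⟩ := e 6 7 rfl
  have e02 : X 0 2 = 0 := by
    have := c 1 0; simpa [mv, xd, e01, e10, e12, e21, e23, e32, n1, n2] using this
  have e13 : X 1 3 = 0 := by
    have := c 2 1; simpa [mv, xd, e02, sX 0 2, e01, e10, e12, e21, e23, e32, n1, n2] using this
  have e03 : X 0 3 = 0 := by
    have := c 2 0; simpa [mv, xd, e02, sX 0 2, e01, e10, e12, e21, e23, e32, n1, n2] using this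
  have c5 : ∀ i : Fin 8, (i : ℕ) ≤ 3 → i = 0 ∨ i = 1 ∨ i = 2 ∨ i = 3 := by decide
  have lo : ∀ i j : Fin 8, (i : ℕ) ≤ 3 → (j : ℕ) ≤ 3 → X i j = 0 := by
    intro i j hi hj
    rcases c5 i hi with rfl | rfl | rfl | rfl <;> rcases c5 j hj with rfl | rfl | rfl | rfl <;>
      simp only [xd, e01, e10, e12, e21, e23, e32, e02, e13, e03, sX 0 2, sX 1 3, sX 0 3]
  have lo5 : ∀ i : Fin 8, (i : ℕ) ≤ 3 → a3 * X i 4 + b * X i 6 = 0 := by
    intro i hi
    have := c 3 i
    rcases c5 i hi with rfl | rfl | rfl | rfl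
    any_goals simpa (disch := decide) [mv, lo] using this
    simp [e34, e36]
  set v : ℕ → Fin 8 → ℝ := fun k j => (A ^ k) j 0 with hv
  have vs : ∀ k, v (k + 1) = A *ᵥ v k := fun k => by
    ext j; simp only [hv, pow_succ', Matrix.mul_apply, Matrix.mulVec, dotProduct]
  have sup : ∀ k : ℕ, k ≤ 3 → ∀ j : Fin 8, k < (j : ℕ) → v k j = 0 := by
    intro k
    induction k with
    | zero => intro _ j hj; exact Matrix.one_apply_ne (by rintro rfl; simp at hj)
    | succ k ih =>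
      intro hk j hj
      have := ih (by omega)
      rw [vs, mv]
      obtain rfl | rfl | rfl : k = 0 ∨ k = 1 ∨ k = 2 := by omega
      all_goals fin_cases j <;> first | (simp (disch := decide) [this]; done) | simp at hj
  have xv : ∀ k ≤ 4, ∀ i : Fin 8, (i : ℕ) ≤ 3 → (X *ᵥ v k) i = 0 := by
    intro k hk i hi
    rcases hk.lt_or_eq with h | rfl
    · simp only [Matrix.mulVec, dotProduct]
      refine Finset.sum_eq_zero fun j _ => ?_
      by_cases q : (j : ℕ) ≤ 3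
      · rw [lo i j hi q, zero_mul]
      · rw [sup k (by omega) j (by omega), mul_zero]
    · have := sup 3 le_rfl
      have l := fun j => lo i j hi
      rw [vs, mv]
      simp (disch := decide) [Matrix.mulVec, dotProduct, Fin.sum_univ_succ, this, l]
      linear_combination v 3 3 * lo5 i hi
  have cm : Commute A X := comm
  have mu : ∀ k ≤ 7, (X * A ^ k) 0 0 = 0 := by
    intro k hk
    obtain ⟨i, j, hi, hj, rfl⟩ : ∃ i j, i ≤ 3 ∧ j ≤ 4 ∧ k = i + j :=
      ⟨k / 2, k - k / 2, by omega, by omega, by omega⟩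
    rw [pow_add, ← mul_assoc, ← (cm.pow_left i).eq, mul_assoc, Matrix.mul_apply]
    refine Finset.sum_eq_zero fun a _ => ?_
    by_cases q : (a : ℕ) ≤ 3
    · exact mul_eq_zero_of_right _ (xv j hj a q)
    · rw [(hs.pow i).apply a 0]
      exact mul_eq_zero_of_left (sup i hi a (by omega)) _
  set P : (Fin 8 → ℝ) → Prop := fun z => ∀ k, (A ^ k *ᵥ z) 0 = 0 with hP
  have P0 : P (X 0) := fun k => by
    rw [← allpow A X mu k, ← (cm.pow_left k).eq, Matrix.mul_apply]
    simp only [Matrix.mulVec, dotProduct, fun a => sX a 0]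
  have PA : ∀ z, P z → P (A *ᵥ z) := fun z h k => by
    rw [Matrix.mulVec_mulVec, ← pow_succ]; exact h _
  have PL : ∀ (a r t : ℝ) y z w, a ≠ 0 → P z → P w → A *ᵥ z = t • w + r • z + a • y → P y := by
    intro a r t y z w ha hz hw h k
    have := PA z hz k
    simpa [h, Matrix.mulVec_add, Matrix.mulVec_smul, hz k, hw k, ha] using this
  have P1 : P (X 1) := PL a0 (d 0) 0 _ _ _ n0 P0 P0 (by ext i; rw [c, mv]; simp [sX i])
  have P2 : P (X 2) := PL a1 (d 1) a0 _ _ _ n1 P1 P0 (by ext i; rw [c, mv]; simp [sX i])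
  have P3 : P (X 3) := PL a2 (d 2) a1 _ _ _ n2 P2 P1 (by ext i; rw [c, mv]; simp [sX i])
  have p0 : ∀ z, P z → z 0 = 0 := fun z h => by simpa using h 0
  have p1 : ∀ z, P z → z 1 = 0 := fun z h => by simpa [mv, p0 z h, n0] using p0 _ (PA z h)
  have p2 : ∀ z, P z → z 2 = 0 := fun z h => by
    simpa [mv, p0 z h, p1 z h, n1] using p1 _ (PA z h)
  have p3 : ∀ z, P z → z 3 = 0 := fun z h => by
    simpa [mv, p2 z h, p1 z h, n2] using p2 _ (PA z h)
  have p4 : ∀ z, P z → a3 * z 4 + b * z 6 = 0 := fun z h => by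
    simpa [mv, p2 z h, p3 z h] using p3 _ (PA z h)
  have q1 := p4 _ (PA _ P3)
  have c45 := c 4 5
  have c56 := c 5 6
  have c67 := c 6 7
  have c46 := c 4 6
  simp [mv, xd, e34, e43, e36, e45, e54, e56, e65, e67, e76, sX 3 5, sX 3 7, sX 4 6, sX 5 7,
    sX 4 7, sX 3 6, -mul_eq_mul_left_iff, -mul_eq_mul_right_iff] at q1 c45 c56 c67 c46
  have f1 : X 3 5 = 0 := by
    have : (2 * b * a5) * X 3 5 = 0 := by
      linear_combination q1 - a4 * c45 - a5 * c56 - a6 * c67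
    simpa [n5, nb] using this
  have f2 : X 4 6 = 0 := by simpa [f1, n5] using c45
  have f3 : X 5 7 = 0 := by simpa [f1, f2, n6] using c56
  have f4 : X 3 7 = 0 := by simpa [f3, nb] using c67
  have f5 : X 4 7 = 0 := by simpa [f2, n6] using c46
  have hi : ∀ i j : Fin 8, 3 ≤ (i : ℕ) → 3 ≤ (j : ℕ) → X i j = 0 := by
    have c6 : ∀ i : Fin 8, 3 ≤ (i : ℕ) → i = 3 ∨ i = 4 ∨ i = 5 ∨ i = 6 ∨ i = 7 := by
      decide
    intro i j hi hj
    rcases c6 i hi with rfl | rfl | rfl | rfl | rfl <;>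
      rcases c6 j hj with rfl | rfl | rfl | rfl | rfl <;>
      simp only [xd, e34, e43, e45, e54, e56, e65, e67, e76, e36, f1, f2, f3, f4, f5,
        sX 3 6, sX 3 5, sX 4 6, sX 5 7, sX 3 7, sX 4 7]
  have r3 : X 3 = 0 := funext fun i => by
    by_cases q : (i : ℕ) ≤ 3
    · exact lo _ _ (by decide) q
    · exact hi _ _ (by decide) (by omega)
  have r2 : X 2 = 0 := funext fun i => by
    by_cases q : (i : ℕ) ≤ 3
    · exact lo _ _ (by decide) q
    · have := c 3 i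
      have t := fun j => hi i j (by omega)
      rw [r3, Matrix.mulVec_zero, mv] at this
      simpa (disch := decide) [t, n2, sX 2 i] using this
  have r1 : X 1 = 0 := funext fun i => by
    have := c 2 i
    rw [r2, Matrix.mulVec_zero, mv] at this
    simpa [n1, sX 2 i, sX 3 i, sX 1 i, r3, r2] using this
  have r0 : X 0 = 0 := funext fun i => by
    have := c 1 i
    rw [r1, Matrix.mulVec_zero, mv] at this
    simpa [n0, sX 2 i, sX 0 i, sX 1 i, r1, r2] using this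
  have r : ∀ i : Fin 8, (i : ℕ) ≤ 3 → X i = 0 := fun i h => by
    rcases c5 i h with rfl | rfl | rfl | rfl <;> assumption
  ext i j
  by_cases q : (i : ℕ) ≤ 3
  · exact congrFun (r i q) j
  by_cases q' : (j : ℕ) ≤ 3
  · rw [sX]; exact congrFun (r j q') i
  · exact hi i j (by omega) (by omega)

end Pool.Agent.H6.SSP
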