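import Mathlib

namespace Pool.Agent.H6.SSP
open Matrix

/-- `A` belongs to `S(G)`. -/
def InS {V : Type} (G : SimpleGraph V) (A : Matrix V V ℝ) : Prop :=
  A.IsSymm ∧ ∀ i j, i ≠ j → (A i j ≠ 0 ↔ G.Adj i j)

/-- The strong spectral property. -/
def SSP {V : Type} [Fintype V] [DecidableEq V] (A : Matrix V V ℝ) : Prop :=
  ∀ X : Matrix V V ℝ, X.IsSymm → A ⊙ X = 0 → 1 ⊙ X = 0 → A * X - X * A = 0 → X = 0

/-- `G` is an SSP graph. -/
def SSPGraph {V : Type} [Fintype V] [DecidableEq V] (G : SimpleGraph V) : Prop :=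
  ∀ A, InS G A → SSP A

/-- The path `0-1-...-7` with the extra edge `3-6`: the 4-cycle `3-4-5-6` with the pendant path
`2-1-0` at `3` and the pendant vertex `7` at `6`. -/
def G8 : SimpleGraph (Fin 8) :=
  SimpleGraph.fromRel fun i j => (i : ℕ) + 1 = j ∨ (i = 3 ∧ j = 6)

end Pool.Agent.H6.SSP
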