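import Mathlib

/-! Ping-pong words and a contraction argument for slowly oscillating cocycles. -/

namespace Pool.Agent.H6.So

open Finset

/-- `β` tends to zero along the cofinite filter. -/
def C0 {H : Type} (β : H → ℝ) : Prop := ∀ ε : ℝ, 0 < ε → {y | ε ≤ |β y|}.Finite

def d (n j : ℕ) : ℕ := Nat.pair n j + 1

lemma d_inj {n j n' j' : ℕ} (h : d n j = d n' j') : n = n' ∧ j = j' := by
  unfold d at h
  exact Nat.pair_eq_pair.mp (by omega)

def P {H : Type} [Group H] (a t : H) (n : ℕ) : ℕ → H
  | 0 => 1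
  | j + 1 => t ^ d n j * a * P a t n j

def w {H : Type} [Group H] (a t : H) (n : ℕ) : H := a * P a t n (n + 9)

lemma map_P {H H' : Type} [Group H] [Group H'] (φ : H →* H') (a t : H) (n j : ℕ) :
    φ (P a t n j) = P (φ a) (φ t) n j := by
  induction j with
  | zero => simp [P]
  | succ j ih => simp [P, ih]

lemma map_w {H H' : Type} [Group H] [Group H'] (φ : H →* H') (a t : H) (n : ℕ) :
    φ (w a t n) = w (φ a) (φ t) n := by
  simp [w, map_P]

/-- A first-letter function for letters `e x`. -/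
structure FL {H Λ : Type} [Group H] (e : Λ → H) (fl : H → Option (Λ × Bool)) : Prop where
  hp : ∀ x z, fl z ≠ some (x, false) → fl (e x * z) = some (x, true)
  hm : ∀ x z, fl z ≠ some (x, true) → fl ((e x)⁻¹ * z) = some (x, false)

variable {H Λ : Type} [Group H] {e : Λ → H} {fl : H → Option (Λ × Bool)}

lemma FL.pow_p (h : FL e fl) (x : Λ) (z : H) (hz : fl z ≠ some (x, false)) (k : ℕ) :
    fl (e x ^ (k + 1) * z) = some (x, true) := by
  induction k with
  | zero => simpa using h.hp x z hz
  | succ k ih =>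
    rw [pow_succ', mul_assoc]
    exact h.hp x _ (by rw [ih]; simp)

lemma FL.pow_m (h : FL e fl) (x : Λ) (z : H) (hz : fl z ≠ some (x, true)) (k : ℕ) :
    fl ((e x ^ (k + 1))⁻¹ * z) = some (x, false) := by
  induction k with
  | zero => simpa using h.hm x z hz
  | succ k ih =>
    rw [pow_succ, mul_inv_rev, mul_assoc]
    exact h.hm x _ (by rw [ih]; simp)

lemma FL.pow_uniq (h : FL e fl) {x t : Λ} (hxt : x ≠ t) {b b' : Bool} {x' : Λ} (hxt' : x' ≠ t)
    {z z' : H} (hz : fl z = some (x, b)) (hz' : fl z' = some (x', b')) {k k' : ℕ}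
    (hh : e t ^ k * z = e t ^ k' * z') : k = k' := by
  have key : ∀ {x x' : Λ} {b b' : Bool} {z z' : H} {k k' : ℕ}, x ≠ t → x' ≠ t →
      fl z = some (x, b) → fl z' = some (x', b') → e t ^ k * z = e t ^ k' * z' → ¬ k < k' := by
    intro x x' b b' z z' k k' hxt hxt' hz hz' hh hlt
    obtain ⟨m, rfl⟩ := Nat.exists_eq_add_of_lt hlt
    have : z = e t ^ (m + 1) * z' := by
      rw [add_assoc, pow_add, mul_assoc] at hh
      exact mul_left_cancel hh
    have h2 := h.pow_p t z' (by rw [hz']; simp [hxt']) m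
    rw [← this, hz] at h2
    simp at h2
    exact hxt h2.1
  have h1 := key hxt hxt' hz hz' hh
  have h2 := key hxt' hxt hz' hz hh.symm
  omega

lemma P_succ_mul (a t : H) (n j : ℕ) (y : H) :
    P a t n (j + 1) * y = t ^ d n j * (a * (P a t n j * y)) := by
  simp [P, mul_assoc]

lemma FL.step (h : FL e fl) {a t : Λ} (hat : a ≠ t) (n j : ℕ) (y : H)
    (hz : fl (P (e a) (e t) n j * y) ≠ some (a, false)) :
    fl (P (e a) (e t) n (j + 1) * y) = some (t, true) := by
  rw [P_succ_mul]
  exact h.pow_p t _ (by rw [h.hp a _ hz]; simp) _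

lemma FL.steps (h : FL e fl) {a t : Λ} (hat : a ≠ t) (n j : ℕ) (y : H)
    (hz : fl (P (e a) (e t) n j * y) ≠ some (a, false)) (k : ℕ) (hk : j ≤ k) :
    fl (P (e a) (e t) n k * y) ≠ some (a, false) := by
  induction k, hk using Nat.le_induction with
  | base => exact hz
  | succ k _ ih => rw [h.step hat n k y ih]; simp

/-- The equation `(n, y)` owns its `j`-th variable. -/
def Own (e : Λ → H) (fl : H → Option (Λ × Bool)) (a t : Λ) (n : ℕ) (y : H) (j : ℕ) : Prop :=
  (∃ i, j = i + 1 ∧ fl (e a * (P (e a) (e t) n i * y)) = some (a, true)) ∨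
    fl (P (e a) (e t) n (j + 1) * y) = some (a, false)

lemma back_eq (a t : H) (n j : ℕ) (y : H) :
    P a t n j * y = a⁻¹ * ((t ^ d n j)⁻¹ * (P a t n (j + 1) * y)) := by
  rw [P_succ_mul]; group

lemma FL.own_uniq (h : FL e fl) {a t : Λ} (hat : a ≠ t) {n n' j j' : ℕ} {y y' : H}
    (h1 : Own e fl a t n y j) (h2 : Own e fl a t n' y' j')
    (hh : P (e a) (e t) n j * y = P (e a) (e t) n' j' * y') : n = n' ∧ j = j' ∧ y = y' := by
  have fw : ∀ {n j : ℕ} {y : H}, fl (e a * (P (e a) (e t) n j * y)) = some (a, true) →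
      fl (P (e a) (e t) n (j + 1) * y) = some (t, true) := by
    intro n j y h1
    rw [P_succ_mul]
    exact h.pow_p t _ (by rw [h1]; simp) _
  have bw : ∀ {n j : ℕ} {y : H}, fl (P (e a) (e t) n (j + 1) * y) = some (a, false) →
      fl (P (e a) (e t) n j * y) = some (a, false) := by
    intro n j y h1
    rw [back_eq]
    apply h.hm
    unfold d
    rw [h.pow_m t _ (by rw [h1]; simp)]
    simp
  have fin : n = n' ∧ j = j' → n = n' ∧ j = j' ∧ y = y' := by
    rintro ⟨rfl, rfl⟩
    exact ⟨rfl, rfl, mul_left_cancel hh⟩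
  apply fin
  rcases h1 with ⟨i, rfl, h1⟩ | h1 <;> rcases h2 with ⟨i', rfl, h2⟩ | h2
  · rw [P_succ_mul, P_succ_mul] at hh
    have := d_inj (h.pow_uniq hat hat h1 h2 hh)
    omega
  · have := fw h1
    rw [hh, bw h2] at this
    simp at this
  · have := fw h2
    rw [← hh, bw h1] at this
    simp at this
  · rw [back_eq _ _ n j, back_eq _ _ n' j'] at hh
    have h3 := mul_left_cancel hh
    have h4 : e t ^ d n' j' * (P (e a) (e t) n (j + 1) * y) =
        e t ^ d n j * (P (e a) (e t) n' (j' + 1) * y') := by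
      have hc : e t ^ d n' j' * e t ^ d n j = e t ^ d n j * e t ^ d n' j' := by
        rw [← pow_add, ← pow_add, add_comm]
      calc _ = e t ^ d n' j' * e t ^ d n j * ((e t ^ d n j)⁻¹ * (P (e a) (e t) n (j + 1) * y)) := by
              group
        _ = _ := by rw [hc, h3]; group
    have := d_inj (h.pow_uniq hat hat h1 h2 h4)
    omega

open Classical in
lemma FL.old_card (h : FL e fl) {a t : Λ} (hat : a ≠ t) (n : ℕ) (y : H) (N : ℕ) :
    ((range N).filter (fun j => ¬ Own e fl a t n y j)).card ≤ 2 := by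
  by_cases hex : ∃ j, fl (P (e a) (e t) n j * y) ≠ some (a, false)
  · have hsub : (range N).filter (fun j => ¬ Own e fl a t n y j) ⊆
        {Nat.find hex - 1, Nat.find hex} := by
      intro j hj
      have hj := (mem_filter.mp hj).2
      unfold Own at hj
      push Not at hj
      have h1 : Nat.find hex ≤ j + 1 := Nat.find_min' hex hj.2
      have h2 : j ≤ Nat.find hex := by
        by_contra hc
        obtain ⟨i, rfl⟩ : ∃ i, j = i + 1 := ⟨j - 1, by omega⟩
        exact hj.1 i rfl (h.hp a _ (h.steps hat n _ y (Nat.find_spec hex) i (by omega)))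
      simp only [mem_insert, mem_singleton]
      omega
    exact (card_le_card hsub).trans (card_le_two)
  · push Not at hex
    rw [filter_eq_empty_iff.mpr]
    · simp
    · intro j _ hj
      exact hj (Or.inr (hex _))

end Pool.Agent.H6.So
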