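import Pool.Agent.H6.SoA

namespace Pool.Agent.H6.So

open Finset Filter Topology

variable {H Λ : Type} [Group H] {e : Λ → H} {fl : H → Option (Λ × Bool)}

lemma C0_iff {X : Type} (β : X → ℝ) : C0 β ↔ Tendsto β cofinite (𝓝 0) := by
  rw [Metric.tendsto_nhds]
  unfold C0
  simp only [eventually_cofinite, Real.dist_eq, sub_zero, not_lt, gt_iff_lt]

open Classical in
/-- One correction round. -/
noncomputable def Phi (e : Λ → H) (fl : H → Option (Λ × Bool)) (a t : Λ) (D : ℕ → H → ℝ)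
    (α : H → ℝ) (z : H) : ℝ :=
  if h : ∃ p : ℕ × H × ℕ, p.2.2 < p.1 + 10 ∧ Own e fl a t p.1 p.2.1 p.2.2 ∧
      z = P (e a) (e t) p.1 p.2.2 * p.2.1 then
    (D h.choose.1 h.choose.2.1 -
      ∑ i ∈ (range (h.choose.1 + 10)).filter (fun j => ¬ Own e fl a t h.choose.1 h.choose.2.1 j),
        α (P (e a) (e t) h.choose.1 i * h.choose.2.1)) /
      ((range (h.choose.1 + 10)).filter (fun j => Own e fl a t h.choose.1 h.choose.2.1 j)).card
  else 0

open Classical in
lemma FL.Phi_eq (h : FL e fl) {a t : Λ} (hat : a ≠ t) (D : ℕ → H → ℝ) (α : H → ℝ) {n j : ℕ}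
    {y : H} (hj : j < n + 10) (ho : Own e fl a t n y j) :
    Phi e fl a t D α (P (e a) (e t) n j * y) =
      (D n y - ∑ i ∈ (range (n + 10)).filter (fun j => ¬ Own e fl a t n y j),
        α (P (e a) (e t) n i * y)) / ((range (n + 10)).filter (fun j => Own e fl a t n y j)).card := by
  have hex : ∃ p : ℕ × H × ℕ, p.2.2 < p.1 + 10 ∧ Own e fl a t p.1 p.2.1 p.2.2 ∧
      P (e a) (e t) n j * y = P (e a) (e t) p.1 p.2.2 * p.2.1 := ⟨(n, y, j), hj, ho, rfl⟩
  unfold Phi
  rw [dif_pos hex]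
  obtain ⟨h1, -, h3⟩ := h.own_uniq hat ho hex.choose_spec.2.1 hex.choose_spec.2.2
  rw [← h1, ← h3]

open Classical in
lemma FL.new_card (h : FL e fl) {a t : Λ} (hat : a ≠ t) (n : ℕ) (y : H) :
    (n + 8 : ℝ) ≤ ((range (n + 10)).filter (fun j => Own e fl a t n y j)).card := by
  have h1 := h.old_card hat n y (n + 10)
  have h2 := card_filter_add_card_filter_not (s := range (n + 10))
    (fun j => Own e fl a t n y j)
  rw [card_range] at h2
  have : n + 8 ≤ ((range (n + 10)).filter (fun j => Own e fl a t n y j)).card := by omega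
  exact_mod_cast this

open Classical in
lemma FL.sum_old (h : FL e fl) {a t : Λ} (hat : a ≠ t) (n : ℕ) (y : H) (g : ℕ → ℝ) (M : ℝ)
    (hM : 0 ≤ M) (hg : ∀ i < n + 10, |g i| ≤ M) :
    |∑ i ∈ (range (n + 10)).filter (fun j => ¬ Own e fl a t n y j), g i| ≤ 2 * M := by
  refine (abs_sum_le_sum_abs _ _).trans ?_
  refine (sum_le_card_nsmul _ _ M (fun i hi => hg i (mem_range.mp (mem_filter.mp hi).1))).trans ?_
  rw [nsmul_eq_mul]
  have : (((range (n + 10)).filter (fun j => ¬ Own e fl a t n y j)).card : ℝ) ≤ 2 := by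
    exact_mod_cast h.old_card hat n y (n + 10)
  exact mul_le_mul_of_nonneg_right this hM

lemma Phi_cases (a t : Λ) (D : ℕ → H → ℝ) (z : H) :
    (∀ α, Phi e fl a t D α z = 0) ∨
      ∃ n y j, j < n + 10 ∧ Own e fl a t n y j ∧ z = P (e a) (e t) n j * y := by
  by_cases h : ∃ p : ℕ × H × ℕ, p.2.2 < p.1 + 10 ∧ Own e fl a t p.1 p.2.1 p.2.2 ∧
      z = P (e a) (e t) p.1 p.2.2 * p.2.1
  · obtain ⟨p, hp⟩ := h
    exact Or.inr ⟨p.1, p.2.1, p.2.2, hp⟩
  · left
    intro α
    unfold Phi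
    rw [dif_neg h]

lemma FL.Phi_lip (h : FL e fl) {a t : Λ} (hat : a ≠ t) (D : ℕ → H → ℝ) (α β : H → ℝ) (M : ℝ)
    (hM : 0 ≤ M) (hab : ∀ z, |α z - β z| ≤ M) (z : H) :
    |Phi e fl a t D α z - Phi e fl a t D β z| ≤ 1 / 2 * M := by
  rcases Phi_cases (e := e) (fl := fl) a t D z with h0 | ⟨n, y, j, hj, ho, rfl⟩
  · rw [h0, h0]; simp; positivity
  · rw [h.Phi_eq hat D α hj ho, h.Phi_eq hat D β hj ho, ← sub_div, abs_div]
    have h1 := h.new_card hat n y
    have h2 := h.sum_old hat n y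
      (fun i => β (P (e a) (e t) n i * y) - α (P (e a) (e t) n i * y)) M hM
      (fun i _ => by rw [abs_sub_comm]; exact hab _)
    rw [sum_sub_distrib] at h2
    have hn : (0 : ℝ) ≤ n := Nat.cast_nonneg n
    rw [Nat.abs_cast, div_le_iff₀ (by linarith), sub_sub_sub_cancel_left]
    nlinarith

lemma FL.Phi_C0 (h : FL e fl) {a t : Λ} (hat : a ≠ t) (D : ℕ → H → ℝ) (hD : ∀ n y, |D n y| ≤ 1)
    (hD0 : ∀ n, C0 (D n)) (α : H → ℝ) (hα : C0 α) (M : ℝ) (hM : ∀ z, |α z| ≤ M) :
    C0 (Phi e fl a t D α) := by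
  intro ε hε
  have hM0 : 0 ≤ M := (abs_nonneg _).trans (hM 1)
  obtain ⟨n0, hn0⟩ := exists_nat_gt ((1 + 2 * M) / ε)
  rw [div_lt_iff₀ hε] at hn0
  have hY : ∀ n, ({y | ε ≤ |D n y|} ∪
      ⋃ i ∈ Set.Iio (n + 10), {y | ε ≤ |α (P (e a) (e t) n i * y)|}).Finite := by
    intro n
    refine (hD0 n ε hε).union ((Set.finite_Iio _).biUnion fun i _ => ?_)
    exact (hα ε hε).preimage (f := fun y => P (e a) (e t) n i * y)
      (mul_right_injective _).injOn
  refine ((Set.finite_Iio n0).biUnion fun n _ => (Set.finite_Iio (n + 10)).biUnion fun j _ =>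
    (hY n).image (fun y => P (e a) (e t) n j * y)).subset ?_
  intro z hz
  simp only [Set.mem_setOf_eq] at hz
  rcases Phi_cases (e := e) (fl := fl) a t D z with h0 | ⟨n, y, j, hj, ho, rfl⟩
  · rw [h0] at hz; simp at hz; linarith
  · rw [h.Phi_eq hat D α hj ho, abs_div, Nat.abs_cast] at hz
    have h1 := h.new_card hat n y
    have hn : (0 : ℝ) ≤ n := Nat.cast_nonneg n
    rw [le_div_iff₀ (by linarith)] at hz
    have hz' := hz.trans (abs_sub _ _)
    simp only [Set.mem_iUnion, Set.mem_image, Set.mem_Iio]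
    refine ⟨n, ?_, j, hj, y, ?_, rfl⟩
    · have h2 := h.sum_old hat n y (fun i => α (P (e a) (e t) n i * y)) M hM0 (fun i _ => hM _)
      have h3 := hD n y
      have : (n : ℝ) < n0 := by
        by_contra hc
        push Not at hc
        nlinarith
      exact_mod_cast this
    · by_contra hc
      simp only [Set.mem_union, Set.mem_setOf_eq, Set.mem_iUnion, Set.mem_Iio, not_or, not_le,
        not_exists] at hc
      have h2 := h.sum_old hat n y (fun i => α (P (e a) (e t) n i * y)) ε hε.le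
        (fun i hi => (hc.2 i hi).le)
      nlinarith [hc.1]

open Classical in
theorem FL.solve (h : FL e fl) {a t : Λ} (hat : a ≠ t) (D : ℕ → H → ℝ) (hD : ∀ n y, |D n y| ≤ 1)
    (hD0 : ∀ n, C0 (D n)) : ∃ α : H → ℝ, C0 α ∧
      ∀ n y, ∑ i ∈ range (n + 10), α (P (e a) (e t) n i * y) = D n y := by
  letI : TopologicalSpace H := ⊥
  haveI : DiscreteTopology H := ⟨rfl⟩
  have hc : ∀ α : ZeroAtInftyContinuousMap H ℝ, C0 α := fun α => by
    rw [C0_iff, ← cocompact_eq_cofinite]; exact α.zero_at_infty'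
  let F : ZeroAtInftyContinuousMap H ℝ → ZeroAtInftyContinuousMap H ℝ := fun α =>
    ⟨⟨Phi e fl a t D α, continuous_of_discreteTopology⟩, by
      rw [cocompact_eq_cofinite]
      exact (C0_iff _).mp (h.Phi_C0 hat D hD hD0 α (hc α) ‖α.toBCF‖
        (fun z => α.toBCF.norm_coe_le_norm z))⟩
  have hF : ContractingWith (1 / 2) F := by
    refine ⟨by norm_num, LipschitzWith.of_dist_le_mul fun α β => ?_⟩
    rw [← ZeroAtInftyContinuousMap.dist_toBCF_eq_dist,
      BoundedContinuousFunction.dist_le (by positivity)]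
    intro z
    have := h.Phi_lip hat D α β (dist α β) dist_nonneg (fun z => by
      rw [← ZeroAtInftyContinuousMap.dist_toBCF_eq_dist, ← Real.dist_eq]
      exact BoundedContinuousFunction.dist_coe_le_dist (f := α.toBCF) (g := β.toBCF) z) z
    rw [Real.dist_eq]
    push_cast
    exact this
  have hfix := hF.fixedPoint_isFixedPt
  set α := hF.fixedPoint F
  have hα : ∀ z, Phi e fl a t D α z = α z := fun z => by
    have := congrArg (fun β : ZeroAtInftyContinuousMap H ℝ => β z) hfix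
    exact this
  refine ⟨α, hc α, fun n y => ?_⟩
  rw [← sum_filter_add_sum_filter_not (range (n + 10)) (fun j => Own e fl a t n y j)]
  rw [sum_congr rfl (fun j hj => by
    rw [← hα, h.Phi_eq hat D α (mem_range.mp (mem_filter.mp hj).1) (mem_filter.mp hj).2])]
  rw [sum_const, nsmul_eq_mul]
  have h1 := h.new_card hat n y
  have hn : (0 : ℝ) ≤ n := Nat.cast_nonneg n
  rw [mul_div_cancel₀ _ (by linarith)]
  ring

/-- The words `w (e (p s)) (e t) n` are free. -/
theorem FL.free (h : FL e fl) {S : Type} (p : S → Λ) (hp : Function.Injective p) (t : Λ)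
    (hpt : ∀ s, p s ≠ t) [Nonempty S] :
    Function.Injective (FreeGroup.lift (fun q : S × ℕ => w (e (p q.1)) (e t) q.2)) := by
  have a1 : ∀ (s : S) (k : ℕ) (z : H), fl z = some (p s, true) →
      fl (e (p s) * (e t ^ (k + 1) * z)) = some (p s, true) := by
    intro s k z hz
    apply h.hp
    rw [h.pow_p t z (by rw [hz]; simp)]
    simp
  have a2 : ∀ (s : S) (k : ℕ) (z : H), fl z = some (p s, false) →
      fl ((e (p s))⁻¹ * ((e t ^ (k + 1))⁻¹ * z)) = some (p s, false) := by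
    intro s k z hz
    apply h.hm
    rw [h.pow_m t z (by rw [hz]; simp)]
    simp
  have ex : ∀ s b, ∃ z, fl z = some (p s, b) := by
    intro s b
    by_cases h1 : fl 1 = some (p s, false)
    · cases b
      · exact ⟨1, h1⟩
      · by_cases h2 : fl (e t) = some (p s, false)
        · have := h.hp t 1 (by rw [h1]; simp [hpt s])
          rw [mul_one, h2] at this
          simp at this
        · exact ⟨_, h.hp _ _ h2⟩
    · cases b
      · by_cases h2 : fl 1 = some (p s, true)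
        · have := h.hp t 1 (by rw [h2]; simp)
          exact ⟨_, h.hm (p s) (e t * 1) (by rw [this]; simp [(hpt s).symm])⟩
        · exact ⟨_, h.hm _ _ h2⟩
      · exact ⟨_, h.hp _ _ h1⟩
  refine FreeGroup.injective_lift_of_ping_pong (α := H) _
    (fun q => {z | ∃ z1, fl z1 = some (p q.1, true) ∧
      z = e (p q.1) * (e t ^ d q.2 (q.2 + 8) * z1)})
    (fun q => {z | ∃ z1, fl z1 = some (p q.1, false) ∧
      z = (e (p q.1))⁻¹ * ((e t ^ d q.2 0)⁻¹ * z1)}) ?_ ?_ ?_ ?_ ?_ ?_
  · intro q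
    obtain ⟨z, hz⟩ := ex q.1 true
    exact ⟨_, z, hz, rfl⟩
  · intro q q' hq
    refine Set.disjoint_left.mpr ?_
    rintro z ⟨z1, h1, rfl⟩ ⟨z2, h2, hh⟩
    have e1 := a1 q.1 (Nat.pair q.2 (q.2 + 8)) z1 h1
    have e2 := a1 q'.1 (Nat.pair q'.2 (q'.2 + 8)) z2 h2
    unfold d at hh
    rw [hh, e2] at e1
    have e3 : q'.1 = q.1 := hp (by simpa using e1)
    rw [e3] at hh
    have := d_inj (h.pow_uniq (hpt _) (hpt _) h1 h2 (mul_left_cancel hh))
    exact hq (Prod.ext e3.symm this.1)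
  · intro q q' hq
    refine Set.disjoint_left.mpr ?_
    rintro z ⟨z1, h1, rfl⟩ ⟨z2, h2, hh⟩
    have e1 := a2 q.1 (Nat.pair q.2 0) z1 h1
    have e2 := a2 q'.1 (Nat.pair q'.2 0) z2 h2
    have hh' := hh
    unfold d at hh
    rw [hh, e2] at e1
    have e3 : q'.1 = q.1 := hp (by simpa using e1)
    rw [e3] at hh'
    have h3 := mul_left_cancel hh'
    have h4 : e t ^ d q'.2 0 * z1 = e t ^ d q.2 0 * z2 := by
      have hc : e t ^ d q'.2 0 * e t ^ d q.2 0 = e t ^ d q.2 0 * e t ^ d q'.2 0 := by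
        rw [← pow_add, ← pow_add, add_comm]
      calc _ = e t ^ d q'.2 0 * e t ^ d q.2 0 * ((e t ^ d q.2 0)⁻¹ * z1) := by group
        _ = _ := by rw [hc, h3]; group
    have := d_inj (h.pow_uniq (hpt _) (hpt _) h1 h2 h4)
    exact hq (Prod.ext e3.symm this.1.symm)
  · intro q q'
    refine Set.disjoint_left.mpr ?_
    rintro z ⟨z1, h1, rfl⟩ ⟨z2, h2, hh⟩
    have e1 := a1 q.1 (Nat.pair q.2 (q.2 + 8)) z1 h1
    have e2 := a2 q'.1 (Nat.pair q'.2 0) z2 h2
    unfold d at hh
    rw [hh, e2] at e1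
    simp at e1
  · rintro q _ ⟨z, hz, rfl⟩
    have h1 : fl (P (e (p q.1)) (e t) q.2 1 * z) ≠ some (p q.1, false) := by
      intro hc
      refine hz ⟨_, hc, ?_⟩
      have := back_eq (e (p q.1)) (e t) q.2 0 z
      simpa [P] using this
    have h2 := h.steps (hpt q.1) q.2 1 z h1 (q.2 + 8) (by omega)
    refine ⟨_, h.hp _ _ h2, ?_⟩
    simp only [smul_eq_mul, w, mul_assoc]
    rw [P_succ_mul]
  · rintro q _ ⟨z, hz, rfl⟩
    set y := (w (e (p q.1)) (e t) q.2)⁻¹ * z with hy
    have hzy : z = e (p q.1) * (e t ^ d q.2 (q.2 + 8) *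
        (e (p q.1) * (P (e (p q.1)) (e t) q.2 (q.2 + 8) * y))) := by
      rw [← P_succ_mul, hy, w]; group
    have h1 : fl (P (e (p q.1)) (e t) q.2 (q.2 + 8) * y) = some (p q.1, false) := by
      by_contra hc
      exact hz ⟨_, h.hp _ _ hc, hzy⟩
    have h2 : fl (P (e (p q.1)) (e t) q.2 1 * y) = some (p q.1, false) := by
      by_contra hc
      exact h.steps (hpt q.1) q.2 1 y hc (q.2 + 8) (by omega) h1
    refine ⟨_, h2, ?_⟩
    have := back_eq (e (p q.1)) (e t) q.2 0 y
    simp only [P, one_mul] at this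
    simp only [smul_eq_mul, Pi.inv_apply, P]
    exact this

lemma free_FL (Λ : Type) [DecidableEq Λ] :
    FL (FreeGroup.of : Λ → FreeGroup Λ) (fun g => g.toWord[0]?) := by
  constructor
  · intro x z hz
    exact FreeGroup.startsWith_mk_mul (w := (x, true)) z hz
  · intro x z hz
    exact FreeGroup.startsWith_mk_mul (w := (x, false)) z hz

lemma FL.lift {L : Type} [Group L] {e : Λ → L} {fl : L → Option (Λ × Bool)} (h : FL e fl)
    (φ : L →* H) (hφ : Function.Injective φ) : ∃ fl' : H → Option (Λ × Bool),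
      FL (fun x => φ (e x)) fl' := by
  have hex : ∀ y : H, ∃ l : L, y = φ l *
      (Quotient.mk (QuotientGroup.rightRel φ.range) y).out := by
    intro y
    have := Quotient.mk_out (s := QuotientGroup.rightRel φ.range) y
    obtain ⟨l, hl⟩ := QuotientGroup.rightRel_apply.mp this
    exact ⟨l, by rw [hl]; group⟩
  choose lam hlam using hex
  have hm : ∀ l y, lam (φ l * y) = l * lam y := by
    intro l y
    have h1 : (Quotient.mk (QuotientGroup.rightRel φ.range) (φ l * y)) =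
        Quotient.mk (QuotientGroup.rightRel φ.range) y := by
      apply Quotient.sound
      exact QuotientGroup.rightRel_apply.mpr ⟨l⁻¹, by simp⟩
    have h2 := hlam (φ l * y)
    rw [h1] at h2
    nth_rewrite 1 [hlam y] at h2
    rw [← mul_assoc, ← map_mul] at h2
    exact (hφ (mul_right_cancel h2)).symm
  refine ⟨fun y => fl (lam y), fun x z hz => ?_, fun x z hz => ?_⟩
  · simp only [hm]; exact h.hp x _ hz
  · simp only [← map_inv, hm]; exact h.hm x _ hz

end Pool.Agent.H6.So
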