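import Pool.Agent.H6.SoB

namespace Pool.Agent.H6.So

open Finset Monoid

@[ext] structure SD (H : Type) where
  h : H
  β : H → ℝ

variable {H : Type} [Group H]

instance : Mul (SD H) := ⟨fun x y => ⟨x.h * y.h, fun z => x.β (y.h * z) + y.β z⟩⟩
instance : One (SD H) := ⟨⟨1, fun _ => 0⟩⟩
instance : Inv (SD H) := ⟨fun x => ⟨x.h⁻¹, fun z => - x.β (x.h⁻¹ * z)⟩⟩

@[simp] lemma mul_h (x y : SD H) : (x * y).h = x.h * y.h := rfl
@[simp] lemma mul_β (x y : SD H) (z : H) : (x * y).β z = x.β (y.h * z) + y.β z := rfl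
@[simp] lemma one_h : (1 : SD H).h = 1 := rfl
@[simp] lemma one_β (z : H) : (1 : SD H).β z = 0 := rfl
@[simp] lemma inv_h (x : SD H) : (x⁻¹).h = x.h⁻¹ := rfl
@[simp] lemma inv_β (x : SD H) (z : H) : (x⁻¹).β z = - x.β (x.h⁻¹ * z) := rfl

instance : Group (SD H) := Group.ofLeftAxioms
  (fun x y z => by ext <;> simp [mul_assoc, add_assoc])
  (fun x => by ext <;> simp)
  (fun x => by ext <;> simp)

def proj : SD H →* H := ⟨⟨fun x => x.h, rfl⟩, fun _ _ => rfl⟩

lemma pow_h (T : SD H) (k : ℕ) : (T ^ k).h = T.h ^ k := map_pow proj T k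

lemma pow_β (T : SD H) (hT : ∀ z, T.β z = 0) (k : ℕ) (z : H) : (T ^ k).β z = 0 := by
  induction k generalizing z with
  | zero => simp
  | succ k ih => rw [pow_succ]; simp [ih, hT]

lemma P_h (A T : SD H) (n j : ℕ) : (P A T n j).h = P A.h T.h n j := map_P proj A T n j

lemma w_h (A T : SD H) (n : ℕ) : (w A T n).h = w A.h T.h n := map_w proj A T n

lemma P_β (A T : SD H) (hT : ∀ z, T.β z = 0) (n j : ℕ) (y : H) :
    (P A T n j).β y = ∑ i ∈ range j, A.β (P A.h T.h n i * y) := by
  induction j with
  | zero => simp [P]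
  | succ j ih =>
    rw [sum_range_succ, ← ih]
    simp [P, pow_β T hT, P_h, add_comm]

lemma w_β (A T : SD H) (hT : ∀ z, T.β z = 0) (n : ℕ) (y : H) :
    (w A T n).β y = ∑ i ∈ range (n + 10), A.β (P A.h T.h n i * y) := by
  rw [sum_range_succ, ← P_β A T hT]
  simp [w, P_h, add_comm]

lemma C0_zero {X : Type} : C0 (fun _ : X => (0 : ℝ)) := by
  intro ε hε
  simp [not_le.mpr hε]

lemma C0.comp {X Y : Type} {β : X → ℝ} (h : C0 β) (g : Y → X) (hg : Function.Injective g) :
    C0 (fun y => β (g y)) := fun ε hε => (h ε hε).preimage (f := g) hg.injOn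

lemma C0.add {X : Type} {β γ : X → ℝ} (h : C0 β) (h' : C0 γ) : C0 (fun y => β y + γ y) := by
  rw [C0_iff] at *
  simpa using h.add h'

lemma C0.neg {X : Type} {β : X → ℝ} (h : C0 β) : C0 (fun y => - β y) := by
  intro ε hε
  simpa using h ε hε

lemma C0.mono {X : Type} {β γ : X → ℝ} (h : C0 β) (hle : ∀ y, |γ y| ≤ |β y|) : C0 γ :=
  fun ε hε => (h ε hε).subset fun y hy => le_trans hy (hle y)

/-- The elements whose cocycle tends to zero. -/
def C0sub : Subgroup (SD H) where
  carrier := {x | C0 x.β}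
  mul_mem' := fun {x y} hx hy => (C0.comp hx _ (mul_right_injective y.h)).add hy
  one_mem' := C0_zero
  inv_mem' := fun {x} hx => (C0.comp hx _ (mul_right_injective x.h⁻¹)).neg

/-- The universal words. -/
def om (n : ℕ) : FreeGroup (Fin 4) :=
  (FreeGroup.of 3)⁻¹ * w (FreeGroup.of 0) (FreeGroup.of 2) n * FreeGroup.of 3 *
    (w (FreeGroup.of 1) (FreeGroup.of 2) n)⁻¹

section
variable (G : Type) [Group G]

abbrev La := Option ((ℕ → G) × Bool)
abbrev K := Coprod G (FreeGroup (La G))

def uh : FreeGroup ((ℕ → G) × ℕ) →* K G := FreeGroup.lift fun q =>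
  Coprod.inl (q.1 q.2) * Coprod.inr (w (FreeGroup.of (some (q.1, false))) (FreeGroup.of none) q.2)

def vh : FreeGroup ((ℕ → G) × ℕ) →* K G := FreeGroup.lift fun q =>
  Coprod.inr (w (FreeGroup.of (some (q.1, true))) (FreeGroup.of none) q.2)

lemma uh_of (s : ℕ → G) (n : ℕ) : uh G (FreeGroup.of (s, n)) = Coprod.inl (s n) *
    Coprod.inr (w (FreeGroup.of (some (s, false))) (FreeGroup.of none) n) := by simp [uh]

lemma vh_of (s : ℕ → G) (n : ℕ) : vh G (FreeGroup.of (s, n)) =
    Coprod.inr (w (FreeGroup.of (some (s, true))) (FreeGroup.of none) n) := by simp [vh]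

lemma uh_inj : Function.Injective (uh G) := by
  classical
  have h := (free_FL (La G)).free (fun s : ℕ → G => some (s, false))
    (fun a b h => by simpa using h) none (by simp)
  have : (Coprod.snd : K G →* _).comp (uh G) = FreeGroup.lift (fun q : (ℕ → G) × ℕ =>
      w (FreeGroup.of (some (q.1, false) : La G)) (FreeGroup.of none) q.2) := by
    ext q; simp [uh]
  rw [← this] at h
  exact Function.Injective.of_comp h

lemma vh_inj : Function.Injective (vh G) := by
  classical
  have h := (free_FL (La G)).free (fun s : ℕ → G => some (s, true))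
    (fun a b h => by simpa using h) none (by simp)
  have : (Coprod.snd : K G →* _).comp (vh G) = FreeGroup.lift (fun q : (ℕ → G) × ℕ =>
      w (FreeGroup.of (some (q.1, true) : La G)) (FreeGroup.of none) q.2) := by
    ext q; simp [vh]
  rw [← this] at h
  exact Function.Injective.of_comp h

noncomputable def ph : (uh G).range ≃* (vh G).range :=
  (MonoidHom.ofInjective (uh_inj G)).symm.trans (MonoidHom.ofInjective (vh_inj G))

lemma ph_apply (m : FreeGroup ((ℕ → G) × ℕ)) :
    ((ph G ⟨uh G m, m, rfl⟩ : (vh G).range) : K G) = vh G m := by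
  have : (MonoidHom.ofInjective (uh_inj G)).symm ⟨uh G m, m, rfl⟩ = m := by
    rw [MulEquiv.symm_apply_eq]; rfl
  simp only [ph, MulEquiv.trans_apply, this]
  rfl

abbrev E := HNNExtension (K G) (uh G).range (vh G).range (ph G)

noncomputable def io : G →* E G := HNNExtension.of.comp Coprod.inl
noncomputable def ka : FreeGroup (La G) →* E G := HNNExtension.of.comp Coprod.inr
noncomputable def ta : E G := HNNExtension.t

lemma io_inj : Function.Injective (io G) :=
  (HNNExtension.of_injective (ph G)).comp Coprod.inl_injective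

lemma ka_inj : Function.Injective (ka G) :=
  (HNNExtension.of_injective (ph G)).comp Coprod.inr_injective

lemma gen (S : Subgroup (E G)) (h1 : ∀ g, io G g ∈ S) (h2 : ∀ x, ka G (FreeGroup.of x) ∈ S)
    (h3 : ta G ∈ S) (y : E G) : y ∈ S := by
  induction y using HNNExtension.induction_on with
  | of k =>
    induction k using Coprod.induction_on with
    | inl g => exact h1 g
    | inr l =>
      change ka G l ∈ S
      induction l using FreeGroup.induction_on with
      | C1 => simp
      | of x => exact h2 x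
      | inv_of x hx => rw [map_inv]; exact S.inv_mem hx
      | mul a b ha hb => rw [map_mul]; exact S.mul_mem ha hb
    | mul a b ha hb => rw [map_mul]; exact S.mul_mem ha hb
  | t => exact h3
  | mul a b ha hb => exact S.mul_mem ha hb
  | inv a ha => exact S.inv_mem ha

lemma rel (s : ℕ → G) (n : ℕ) :
    ta G * (io G (s n) * w (ka G (FreeGroup.of (some (s, false)))) (ka G (FreeGroup.of none)) n) =
      w (ka G (FreeGroup.of (some (s, true)))) (ka G (FreeGroup.of none)) n * ta G := by
  have := HNNExtension.t_mul_of (φ := ph G) ⟨uh G (FreeGroup.of (s, n)), _, rfl⟩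
  rw [ph_apply] at this
  simp only [uh_of, vh_of] at this
  rw [MonoidHom.map_mul] at this
  rw [← map_w, ← map_w]
  exact this

lemma words (s : ℕ → G) : ∃ x : Fin 4 → E G, ∀ n, io G (s n) = FreeGroup.lift x (om n) := by
  refine ⟨![ka G (FreeGroup.of (some (s, true))), ka G (FreeGroup.of (some (s, false))),
    ka G (FreeGroup.of none), ta G], fun n => ?_⟩
  simp only [om, map_mul, map_inv, map_w, FreeGroup.lift_apply_of]
  have := rel G s n
  simp only [Matrix.cons_val_zero, Matrix.cons_val_one, Matrix.cons_val]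
  rw [mul_assoc _ _ (ta G), ← this]
  group

open Cardinal in
lemma card_E (hG : #G ≤ 𝔠) : #(E G) ≤ 𝔠 := by
  let φ : FreeGroup (G ⊕ Option (La G)) →* E G := FreeGroup.lift fun x =>
    match x with
    | Sum.inl g => io G g
    | Sum.inr none => ta G
    | Sum.inr (some x) => ka G (FreeGroup.of x)
  have hs : Function.Surjective φ := fun y =>
    gen G φ.range (fun g => ⟨FreeGroup.of (Sum.inl g), by simp [φ]⟩)
      (fun x => ⟨FreeGroup.of (Sum.inr (some x)), by simp [φ]⟩)
      ⟨FreeGroup.of (Sum.inr none), by simp [φ]⟩ y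
  refine (mk_le_of_surjective hs).trans ?_
  rw [mk_freeGroup]
  have h1 : #(ℕ → G) ≤ 𝔠 := by
    simp only [mk_pi, prod_const, lift_uzero, mk_nat, lift_aleph0]
    exact (power_le_power_right hG).trans continuum_power_aleph0.le
  have hc : ℵ₀ ≤ 𝔠 := aleph0_le_continuum
  have h2 : (1 : Cardinal) ≤ 𝔠 := one_le_aleph0.trans hc
  refine max_le ?_ hc
  simp only [mk_sum, lift_id, mk_option, mk_prod, mk_fintype, Fintype.card_bool]
  refine add_le_of_le hc hG (add_le_of_le hc (add_le_of_le hc ?_ h2) h2)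
  exact mul_le_of_le hc h1 ((nat_lt_aleph0 2).le.trans hc)

end

end Pool.Agent.H6.So
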