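import Pool.Agent.H6.SoC

namespace Pool.Agent.H6.So

open Finset Monoid

theorem step (G : Type) [Group G] (f : G → ℝ) (h01 : ∀ x, f x ∈ Set.Icc (0 : ℝ) 1)
    (hso : ∀ g, C0 (fun x => f (g * x) - f x)) :
    ∃ F : E G → ℝ, (∀ x, F (io G x) = f x) ∧ (∀ y, F y ∈ Set.Icc (0 : ℝ) 1) ∧
      (∀ h, C0 (fun y => F (h * y) - F y)) ∧
      ∀ g y, y ∉ (io G).range → F (io G g * y) = F y := by
  classical
  let ft : E G → ℝ := Function.extend (io G) f (fun _ => 0)
  have ft1 : ∀ x, ft (io G x) = f x := fun x => (io_inj G).extend_apply _ _ x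
  have ft2 : ∀ y, y ∉ (io G).range → ft y = 0 := fun y hy =>
    Function.extend_apply' _ _ _ (fun ⟨x, hx⟩ => hy ⟨x, hx⟩)
  have ft3 : ∀ g y, y ∉ (io G).range → ft (io G g * y) - ft y = 0 := by
    intro g y hy
    rw [ft2 y hy, ft2 _ (fun hc => hy ((Subgroup.mul_mem_cancel_left _
      (MonoidHom.mem_range.mpr ⟨g, rfl⟩)).mp hc)), sub_zero]
  have ft01 : ∀ y, ft y ∈ Set.Icc (0 : ℝ) 1 := by
    intro y
    by_cases hy : y ∈ (io G).range
    · obtain ⟨x, rfl⟩ := hy
      rw [ft1]; exact h01 x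
    · rw [ft2 y hy]; simp
  have ftc : ∀ g, C0 (fun y => ft (io G g * y) - ft y) := by
    intro g ε hε
    refine ((hso g ε hε).image (io G)).subset fun y hy => ?_
    by_cases hr : y ∈ (io G).range
    · obtain ⟨x, rfl⟩ := hr
      refine ⟨x, ?_, rfl⟩
      simp only [Set.mem_setOf_eq, ← map_mul, ft1] at hy ⊢
      exact hy
    · simp only [Set.mem_setOf_eq, ft3 g y hr, abs_zero] at hy
      linarith
  obtain ⟨fl, hfl⟩ := (free_FL (La G)).lift (ka G) (ka_inj G)
  let W : (ℕ → G) → ℕ → E G := fun s n =>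
    w (ka G (FreeGroup.of (some (s, false)))) (ka G (FreeGroup.of none)) n
  have hsol : ∀ s : ℕ → G, ∃ α : E G → ℝ, C0 α ∧ ∀ n y, ∑ i ∈ range (n + 10),
      α (P (ka G (FreeGroup.of (some (s, true)))) (ka G (FreeGroup.of none)) n i * y) =
        ft (io G (s n) * (W s n * ((ta G)⁻¹ * y))) - ft (W s n * ((ta G)⁻¹ * y)) := by
    intro s
    refine hfl.solve (a := some (s, true)) (t := none) (by simp)
      (fun n y => ft (io G (s n) * (W s n * ((ta G)⁻¹ * y))) - ft (W s n * ((ta G)⁻¹ * y)))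
      (fun n y => ?_) (fun n => ?_)
    · have h1 := ft01 (io G (s n) * (W s n * ((ta G)⁻¹ * y)))
      have h2 := ft01 (W s n * ((ta G)⁻¹ * y))
      rw [abs_le]
      constructor <;> linarith [h1.1, h1.2, h2.1, h2.2]
    · exact (ftc (s n)).comp (fun y => W s n * ((ta G)⁻¹ * y))
        ((mul_right_injective _).comp (mul_right_injective _))
  choose α hα0 hα using hsol
  let ψG : G →* SD (E G) :=
    ⟨⟨fun g => ⟨io G g, fun y => ft (io G g * y) - ft y⟩, by ext <;> simp⟩, fun a b => by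
      ext <;> simp [mul_assoc]⟩
  let bL : La G → E G → ℝ := fun x => match x with
    | some (s, true) => α s
    | _ => fun _ => 0
  let ψL : FreeGroup (La G) →* SD (E G) :=
    FreeGroup.lift fun x => ⟨ka G (FreeGroup.of x), bL x⟩
  let ψK : K G →* SD (E G) := Coprod.lift ψG ψL
  let τ : SD (E G) := ⟨ta G, fun _ => 0⟩
  have hcomp : ∀ m, τ * ψK (uh G m) = ψK (vh G m) * τ := by
    intro m
    induction m using FreeGroup.induction_on with
    | C1 => simp
    | of q =>
      obtain ⟨s, n⟩ := q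
      change τ * ψK (uh G (FreeGroup.of (s, n))) = ψK (vh G (FreeGroup.of (s, n))) * τ
      rw [uh_of, vh_of]
      simp only [ψK, map_mul, Coprod.lift_apply_inl, Coprod.lift_apply_inr, map_w, ψL,
        FreeGroup.lift_apply_of]
      ext y
      · simp only [mul_h, w_h]
        exact rel G s n
      · simp only [mul_β, mul_h]
        rw [w_β _ _ (fun _ => rfl), w_β _ _ (fun _ => rfl), w_h]
        simp only [bL, τ]
        rw [hα]
        simp [ψG, W]
    | inv_of q ih =>
      rw [map_inv, map_inv, map_inv, map_inv, eq_comm, inv_mul_eq_iff_eq_mul, ← mul_assoc, ← ih]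
      group
    | mul a b ha hb =>
      rw [map_mul, map_mul, map_mul, map_mul, ← mul_assoc, ha, mul_assoc, hb, mul_assoc]
  let Ψ : E G →* SD (E G) := HNNExtension.lift ψK τ (by
    rintro ⟨_, m, rfl⟩
    rw [ph_apply]
    exact hcomp m)
  have Ψ1 : ∀ g, Ψ (io G g) = ψG g := fun g => by
    simp [Ψ, io, ψK]
  have Ψ2 : ∀ x, Ψ (ka G (FreeGroup.of x)) = ⟨ka G (FreeGroup.of x), bL x⟩ := fun x => by
    have : Ψ (ka G (FreeGroup.of x)) = ψL (FreeGroup.of x) := by simp [Ψ, ka, ψK]
    rw [this]; simp [ψL]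
  have Ψ3 : Ψ (ta G) = τ := by simp [Ψ, ta]
  have Ψh : ∀ y, (Ψ y).h = y := fun y =>
    gen G ((proj.comp Ψ).eqLocus (MonoidHom.id _))
      (fun g => by change (Ψ _).h = _; rw [Ψ1]; rfl)
      (fun x => by change (Ψ _).h = _; rw [Ψ2]; rfl)
      (by change (Ψ _).h = _; rw [Ψ3]; rfl) y
  have Ψc : ∀ y, C0 (Ψ y).β := fun y =>
    gen G (C0sub.comap Ψ)
      (fun g => by change C0 (Ψ _).β; rw [Ψ1]; exact ftc g)
      (fun x => by
        change C0 (Ψ _).β
        rw [Ψ2]
        rcases x with _ | ⟨s, _ | _⟩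
        · exact C0_zero
        · exact C0_zero
        · exact hα0 s)
      (by change C0 (Ψ _).β; rw [Ψ3]; exact C0_zero) y
  let F0 : E G → ℝ := fun y => (Ψ y).β 1 + f 1
  have F1 : ∀ h y, F0 (h * y) - F0 y = (Ψ h).β y := by
    intro h y
    simp [F0, Ψh]
  refine ⟨fun y => max 0 (min 1 (F0 y)), fun x => ?_, fun y => ?_, fun h => ?_, fun g y hy => ?_⟩
  · have : F0 (io G x) = f x := by
      have h1 := ft1 1
      rw [map_one] at h1
      simp [F0, Ψ1, ψG, ft1, h1]
    simp only [this]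
    rw [min_eq_right (h01 x).2, max_eq_right (h01 x).1]
  · exact ⟨le_max_left _ _, max_le zero_le_one (min_le_left _ _)⟩
  · refine (Ψc h).mono fun y => ?_
    rw [← F1]
    refine (abs_max_sub_max_le_max _ _ _ _).trans (max_le (by simp) ?_)
    exact (abs_min_sub_min_le_max _ _ _ _).trans (max_le (by simp) le_rfl)
  · have := F1 (io G g) y
    rw [Ψ1] at this
    have h2 : F0 (io G g * y) = F0 y := by
      have h3 := ft3 g y hy
      simp only [ψG, MonoidHom.coe_mk, OneHom.coe_mk] at this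
      linarith
    simp only [h2]

end Pool.Agent.H6.So
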