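import Pool.Agent.H6.SoD

namespace Pool.Agent.H6.So

open Cardinal Equiv

def orb {G X : Type} [Group G] (ρ : G →* Perm X) : Setoid X where
  r x y := ∃ g, ρ g x = y
  iseqv := ⟨fun x => ⟨1, by simp⟩, fun ⟨g, h⟩ => ⟨g⁻¹, by simp [← h]⟩,
    fun ⟨g, h⟩ ⟨g', h'⟩ => ⟨g' * g, by simp [h, h']⟩⟩

lemma free_equiv {G X : Type} [Group G] (ρ : G →* Perm X) (hρ : ∀ g x, ρ g x = x → g = 1) :
    ∃ e : G × Quotient (orb ρ) ≃ X, ∀ g h q, e (g * h, q) = ρ g (e (h, q)) := by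
  refine ⟨Equiv.ofBijective (fun p => ρ p.1 p.2.out) ⟨?_, fun x => ?_⟩, fun g h q => by simp⟩
  · rintro ⟨g, q⟩ ⟨g', q'⟩ hh
    simp only at hh
    have h1 : ρ (g'⁻¹ * g) q.out = q'.out := by simp [hh]
    have h2 : q = q' := by
      rw [← q.out_eq, ← q'.out_eq]
      exact Quotient.sound ⟨_, h1⟩
    subst h2
    have := hρ _ _ h1
    rw [inv_mul_eq_one] at this
    rw [this]
  · obtain ⟨g, hg⟩ := Quotient.mk_out (s := orb ρ) x
    exact ⟨(g, _), hg⟩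

lemma card_orb {G X : Type} [Group G] (ρ : G →* Perm X) (hρ : ∀ g x, ρ g x = x → g = 1)
    (h1 : #G < #X) (h2 : ℵ₀ ≤ #X) : #(Quotient (orb ρ)) = #X := by
  obtain ⟨e, -⟩ := free_equiv ρ hρ
  have h3 := mk_congr e
  simp only [mk_prod, lift_id] at h3
  refine le_antisymm mk_quotient_le (not_lt.mp fun hc => ?_)
  exact (mul_lt_of_lt h2 h1 hc).ne h3

abbrev Om := Set ℝ

lemma Om_big : 𝔠 < #Om := by
  rw [mk_set, mk_real]; exact cantor _

lemma embed (G : Subgroup (Perm Om)) (hG : ∀ g ∈ G, ∀ x, g x = x → g = 1) (hc : #G ≤ 𝔠)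
    (H : Type) [Group H] (ι : G →* H) (hι : Function.Injective ι) (hH : #H ≤ 𝔠) :
    ∃ ψ : H →* Perm Om, (∀ h x, ψ h x = x → h = 1) ∧ ∀ g, ψ (ι g) = g := by
  let lam : H →* Perm (H × Om) :=
    ⟨⟨fun h => Equiv.prodCongr (Equiv.mulLeft h) (Equiv.refl _), by ext <;> simp⟩,
      fun a b => by ext <;> simp [mul_assoc]⟩
  have hl : ∀ h x, lam h x = x → h = 1 := by
    rintro h ⟨a, b⟩ hh
    simpa [lam] using hh
  have f1 : ∀ (g : G) x, G.subtype g x = x → g = 1 := fun g x h => Subtype.ext (hG g g.2 x h)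
  have f2 : ∀ (g : G) x, (lam.comp ι) g x = x → g = 1 := fun g x h =>
    hι ((hl _ _ h).trans (map_one ι).symm)
  have hi : ℵ₀ ≤ #Om := aleph0_le_continuum.trans Om_big.le
  have hp : #(H × Om) = #Om := by
    simp only [mk_prod, lift_id]
    exact mul_eq_right hi (hH.trans Om_big.le) (mk_ne_zero H)
  have c1 := card_orb G.subtype f1 (hc.trans_lt Om_big) hi
  have c2 := card_orb (lam.comp ι) f2 (hp ▸ hc.trans_lt Om_big) (hp ▸ hi)
  obtain ⟨σ⟩ := Cardinal.eq.mp (c1.trans (c2.trans hp).symm)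
  obtain ⟨e1, he1⟩ := free_equiv G.subtype f1
  obtain ⟨e2, he2⟩ := free_equiv (lam.comp ι) f2
  let e : Om ≃ H × Om := (e1.symm.trans (Equiv.prodCongr (Equiv.refl _) σ)).trans e2
  have he : ∀ (g : G) x, e ((g : Perm Om) x) = lam (ι g) (e x) := by
    intro g x
    obtain ⟨⟨h, q⟩, rfl⟩ := e1.surjective x
    have := he1 g h q
    simp only [Subgroup.coe_subtype] at this
    rw [← this]
    simp only [e, Equiv.trans_apply, Equiv.symm_apply_apply, Equiv.prodCongr_apply, Prod.map,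
      Equiv.coe_refl, id]
    exact he2 g h (σ q)
  refine ⟨⟨⟨fun h => e.trans ((lam h).trans e.symm), by ext; simp⟩, fun a b => by ext; simp⟩,
    fun h x hx => ?_, fun g => ?_⟩
  · apply hl h (e x)
    simp only [MonoidHom.coe_mk, OneHom.coe_mk, Equiv.trans_apply] at hx
    rwa [Equiv.symm_apply_eq] at hx
  · ext1 x
    simp only [MonoidHom.coe_mk, OneHom.coe_mk, Equiv.trans_apply]
    rw [← he, Equiv.symm_apply_apply]

structure St where
  G : Subgroup (Perm Om)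
  f : Perm Om → ℝ

structure St.Good (S : St) : Prop where
  free : ∀ g ∈ S.G, ∀ x, g x = x → g = 1
  bd : ∀ x ∈ S.G, S.f x ∈ Set.Icc (0 : ℝ) 1
  so : ∀ g ∈ S.G, ∀ ε : ℝ, 0 < ε → {x | x ∈ S.G ∧ ε ≤ |S.f (g * x) - S.f x|}.Finite
  i0 : {x | x ∈ S.G ∧ S.f x = 0}.Infinite
  i1 : {x | x ∈ S.G ∧ S.f x = 1}.Infinite

structure St.Le (S T : St) : Prop where
  le : S.G ≤ T.G
  eq : ∀ x ∈ S.G, T.f x = S.f x
  out : ∀ g ∈ S.G, ∀ x ∈ T.G, x ∉ S.G → T.f (g * x) = T.f x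

def St.R (S T : St) : Prop := ∀ s : ℕ → Perm Om, (∀ n, s n ∈ S.G) →
  ∃ x : Fin 4 → Perm Om, (∀ i, x i ∈ T.G) ∧ ∀ n, s n = FreeGroup.lift x (om n)

lemma St.Le.refl (S : St) : S.Le S := ⟨le_rfl, fun _ _ => rfl, fun _ _ _ h h' => absurd h h'⟩

lemma St.Le.trans {S T U : St} (h : S.Le T) (h' : T.Le U) : S.Le U := by
  refine ⟨h.le.trans h'.le, fun x hx => by rw [h'.eq x (h.le hx), h.eq x hx], fun g hg x hx hx' => ?_⟩
  by_cases hT : x ∈ T.G
  · rw [h'.eq x hT, h'.eq _ (T.G.mul_mem (h.le hg) hT), h.out g hg x hT hx']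
  · exact h'.out g (h.le hg) x hx hT

/-- Transport of an abstract group with a function into the permutation group. -/
lemma transport (H : Type) [Group H] (ψ : H →* Perm Om) (hψ : ∀ h x, ψ h x = x → h = 1)
    (F : H → ℝ) (h01 : ∀ y, F y ∈ Set.Icc (0 : ℝ) 1) (hso : ∀ h, C0 (fun y => F (h * y) - F y))
    (i0 : {x | F x = 0}.Infinite) (i1 : {x | F x = 1}.Infinite) :
    ∃ T : St, T.Good ∧ T.G = ψ.range ∧ ∀ y, T.f (ψ y) = F y := by
  have hi : Function.Injective ψ := (injective_iff_map_eq_one ψ).mpr fun a ha =>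
    hψ a ∅ (by rw [ha]; rfl)
  have hF : ∀ y, Function.extend ψ F (fun _ => 0) (ψ y) = F y := fun y => hi.extend_apply _ _ y
  refine ⟨⟨ψ.range, Function.extend ψ F (fun _ => 0)⟩, ⟨?_, ?_, ?_, ?_, ?_⟩, rfl, hF⟩
  · rintro _ ⟨h, rfl⟩ x hx
    rw [hψ h x hx, map_one]
  · rintro _ ⟨h, rfl⟩
    simp only [hF]; exact h01 h
  · rintro _ ⟨h, rfl⟩ ε hε
    refine ((hso h ε hε).image ψ).subset ?_
    rintro _ ⟨⟨y, rfl⟩, hy⟩
    refine ⟨y, ?_, rfl⟩
    simp only [← map_mul, hF] at hy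
    exact hy
  · refine (i0.image hi.injOn).mono ?_
    rintro _ ⟨y, hy, rfl⟩
    exact ⟨⟨y, rfl⟩, (hF y).trans hy⟩
  · refine (i1.image hi.injOn).mono ?_
    rintro _ ⟨y, hy, rfl⟩
    exact ⟨⟨y, rfl⟩, (hF y).trans hy⟩

lemma St.next (S : St) (hS : S.Good) (hc : #S.G ≤ 𝔠) :
    ∃ T : St, T.Good ∧ #T.G ≤ 𝔠 ∧ S.Le T ∧ S.R T := by
  obtain ⟨F, F1, F2, F3, F4⟩ := step S.G (fun x => S.f x) (fun x => hS.bd x x.2) (fun g ε hε =>
    ((hS.so g g.2 ε hε).preimage (f := fun x : S.G => (x : Perm Om))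
      Subtype.val_injective.injOn).subset fun x hx => ⟨x.2, hx⟩)
  obtain ⟨ψ, hψ, hψ2⟩ := embed S.G hS.free hc (E S.G) (io S.G) (io_inj _) (card_E _ hc)
  have inf : ∀ c : ℝ, {x | x ∈ S.G ∧ S.f x = c}.Infinite → {x | F x = c}.Infinite := by
    intro c h hfin
    refine h ((hfin.image ψ).subset ?_)
    rintro x ⟨hx, hx'⟩
    exact ⟨io S.G ⟨x, hx⟩, (F1 _).trans hx', hψ2 _⟩
  obtain ⟨T, hT, hT1, hT2⟩ := transport (E S.G) ψ hψ F F2 F3 (inf 0 hS.i0) (inf 1 hS.i1)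
  refine ⟨T, hT, ?_, ⟨?_, ?_, ?_⟩, ?_⟩
  · rw [hT1]
    exact mk_range_le.trans (card_E _ hc)
  · intro x hx
    rw [hT1]
    exact ⟨io S.G ⟨x, hx⟩, hψ2 _⟩
  · intro x hx
    have := hT2 (io S.G ⟨x, hx⟩)
    rwa [hψ2, F1] at this
  · intro g hg x hx hx'
    rw [hT1] at hx
    obtain ⟨y, rfl⟩ := hx
    have h1 : g = ψ (io S.G ⟨g, hg⟩) := (hψ2 ⟨g, hg⟩).symm
    rw [h1, ← map_mul, hT2, hT2]
    apply F4
    rintro ⟨z, rfl⟩
    rw [hψ2] at hx'
    exact hx' z.2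
  · intro s hs
    obtain ⟨x, hx⟩ := words S.G (fun n => ⟨s n, hs n⟩)
    refine ⟨fun i => ψ (x i), fun i => hT1 ▸ ⟨x i, rfl⟩, fun n => ?_⟩
    have h1 := hψ2 ⟨s n, hs n⟩
    rw [hx n] at h1
    have h2 : ψ.comp (FreeGroup.lift x) = FreeGroup.lift fun i => ψ (x i) := by ext; simp
    rw [← h2]
    exact h1.symm

lemma St.base : ∃ T : St, T.Good ∧ #T.G ≤ 𝔠 := by
  obtain ⟨ψ, hψ, -⟩ := embed ⊥ (fun g hg _ _ => hg) (by simp [one_le_aleph0.trans aleph0_le_continuum])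
    (Multiplicative ℤ) 1 (fun a b _ => Subsingleton.elim a b)
    (mk_le_aleph0.trans aleph0_le_continuum)
  obtain ⟨T, hT, hT1, -⟩ := transport (Multiplicative ℤ) ψ hψ
    (fun y => if 0 < y.toAdd then 1 else 0) (fun y => by split_ifs <;> simp) (fun h ε hε => by
      refine ((Set.finite_Icc (-|h.toAdd|) |h.toAdd|).preimage
        (f := fun y : Multiplicative ℤ => y.toAdd) Multiplicative.toAdd.injective.injOn).subset ?_
      intro y hy
      simp only [Set.mem_setOf_eq, toAdd_mul] at hy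
      have h1 := le_abs_self h.toAdd
      have h2 := neg_abs_le h.toAdd
      simp only [Set.mem_preimage, Set.mem_Icc]
      split_ifs at hy with h3 h4 h4
      · simp at hy; linarith
      · constructor <;> linarith
      · constructor <;> linarith
      · simp at hy; linarith)
    (Set.infinite_of_injective_forall_mem (f := fun n : ℕ => Multiplicative.ofAdd (-(n : ℤ)))
      (fun a b h => by simpa using h) (fun n => by simp))
    (Set.infinite_of_injective_forall_mem (f := fun n : ℕ => Multiplicative.ofAdd ((n : ℤ) + 1))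
      (fun a b h => by simpa using h) (fun n => by simp))
  refine ⟨T, hT, ?_⟩
  rw [hT1]
  exact mk_range_le.trans (mk_le_aleph0.trans aleph0_le_continuum)

end Pool.Agent.H6.So
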