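import Pool.Agent.H6.SoE

namespace Pool.Agent.H6.So

open Cardinal Equiv

lemma St.union {I : Type} [Nonempty I] (S : I → St) (hS : ∀ i, (S i).Good)
    (hc : ∀ i j, (S i).Le (S j) ∨ (S j).Le (S i)) :
    ∃ U : St, U.Good ∧ (∀ i, (S i).Le U) ∧ ∀ x, x ∈ U.G ↔ ∃ i, x ∈ (S i).G := by
  classical
  have hdir : Directed (· ≤ ·) (fun i => (S i).G) := fun i j => by
    rcases hc i j with h | h
    · exact ⟨j, h.le, le_rfl⟩
    · exact ⟨i, le_rfl, h.le⟩
  let U : St := ⟨⨆ i, (S i).G, fun x => if h : ∃ i, x ∈ (S i).G then (S h.choose).f x else 0⟩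
  have hm : ∀ x, x ∈ U.G ↔ ∃ i, x ∈ (S i).G := fun x => Subgroup.mem_iSup_of_directed hdir
  have he : ∀ i, ∀ x ∈ (S i).G, U.f x = (S i).f x := by
    intro i x hx
    have h : ∃ i, x ∈ (S i).G := ⟨i, hx⟩
    simp only [U, dif_pos h]
    rcases hc i h.choose with h' | h'
    · exact h'.eq x hx
    · exact (h'.eq x h.choose_spec).symm
  have hle : ∀ i, (S i).Le U := by
    intro i
    refine ⟨fun x hx => (hm x).mpr ⟨i, hx⟩, he i, fun g hg x hx hx' => ?_⟩
    obtain ⟨j, hj⟩ := (hm x).mp hx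
    rcases hc i j with h | h
    · rw [he j x hj, he j _ ((S j).G.mul_mem (h.le hg) hj), h.out g hg x hj hx']
    · exact absurd (h.le hj) hx'
  obtain ⟨i0⟩ := ‹Nonempty I›
  refine ⟨U, ⟨?_, ?_, ?_, ?_, ?_⟩, hle, hm⟩
  · intro g hg
    obtain ⟨i, hi⟩ := (hm g).mp hg
    exact (hS i).free g hi
  · intro x hx
    obtain ⟨i, hi⟩ := (hm x).mp hx
    rw [he i x hi]
    exact (hS i).bd x hi
  · intro g hg ε hε
    obtain ⟨i, hi⟩ := (hm g).mp hg
    refine ((hS i).so g hi ε hε).subset ?_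
    rintro x ⟨hx, hx'⟩
    by_cases h : x ∈ (S i).G
    · rw [he i x h, he i _ ((S i).G.mul_mem hi h)] at hx'
      exact ⟨h, hx'⟩
    · rw [(hle i).out g hi x hx h] at hx'
      simp at hx'
      linarith
  · refine (hS i0).i0.mono ?_
    rintro x ⟨hx, hx'⟩
    exact ⟨(hle i0).le hx, (he i0 x hx).trans hx'⟩
  · refine (hS i0).i1.mono ?_
    rintro x ⟨hx, hx'⟩
    exact ⟨(hle i0).le hx, (he i0 x hx).trans hx'⟩

abbrev W1 : Type := (ℵ₁ : Cardinal.{0}).ord.ToType

lemma W1_Iio (i : W1) : (Set.Iio i).Countable :=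
  (countable_iff_lt_aleph_one _).mpr (mk_Iio_toType_ord_lt i)

lemma W1_bdd (s : ℕ → W1) : ∃ j, ∀ n, s n < j := by
  have h1 : (⋃ n, Set.Iic (s n)).Countable := Set.countable_iUnion fun n => by
    rw [← Set.Iio_insert]
    exact (W1_Iio _).insert _
  have h2 : ¬ (Set.univ : Set W1).Countable := by
    rw [countable_iff_lt_aleph_one]
    simp
  by_contra hc
  push Not at hc
  refine h2 (h1.mono fun j _ => ?_)
  obtain ⟨n, hn⟩ := hc j
  exact Set.mem_iUnion.mpr ⟨n, hn⟩

lemma chain : ∃ F : W1 → St, (∀ j, (F j).Good) ∧ ∀ i j, i < j → (F i).Le (F j) ∧ (F i).R (F j) := by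
  classical
  obtain ⟨B, hB⟩ := St.base
  let stp : ∀ j : W1, (∀ i, i < j → St) → St := fun j prev =>
    if h : ∃ T : St, (T.Good ∧ #T.G ≤ 𝔠) ∧ ∀ i (hi : i < j), (prev i hi).Le T ∧ (prev i hi).R T
    then h.choose else B
  let F : W1 → St := (wellFounded_lt (α := W1)).fix stp
  have hF : ∀ j, F j = stp j fun i _ => F i := fun j => WellFounded.fix_eq _ _ _
  have main : ∀ j, ((F j).Good ∧ #(F j).G ≤ 𝔠) ∧ ∀ i, i < j → (F i).Le (F j) ∧ (F i).R (F j) := by
    intro j
    induction j using WellFoundedLT.induction with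
    | ind j ih =>
      have hex : ∃ T : St, (T.Good ∧ #T.G ≤ 𝔠) ∧ ∀ i (_ : i < j), (F i).Le T ∧ (F i).R T := by
        by_cases hne : Nonempty (Set.Iio j)
        · obtain ⟨U, hU, hU1, hU2⟩ := St.union (fun i : Set.Iio j => F i)
            (fun i => (ih i i.2).1.1) (fun a b => by
              rcases lt_trichotomy (a : W1) b with h | h | h
              · exact Or.inl ((ih b b.2).2 a h).1
              · left; rw [h]; exact St.Le.refl _
              · exact Or.inr ((ih a a.2).2 b h).1)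
          have hUc : #U.G ≤ 𝔠 := by
            have h1 : (U.G : Set (Perm Om)) = ⋃ i : Set.Iio j, ((F i).G : Set (Perm Om)) := by
              ext x; simpa using hU2 x
            have : Countable (Set.Iio j) := (W1_Iio j).to_subtype
            have h2 := mk_iUnion_le_sum_mk (f := fun i : Set.Iio j => ((F i).G : Set (Perm Om)))
            rw [← h1] at h2
            refine h2.trans ((sum_le_sum _ (fun _ => 𝔠)
              fun i : Set.Iio j => (ih i i.2).1.2).trans ?_)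
            rw [sum_const']
            exact mul_le_of_le aleph0_le_continuum (mk_le_aleph0.trans aleph0_le_continuum) le_rfl
          obtain ⟨T, hT, hTc, hT1, hT2⟩ := U.next hU hUc
          refine ⟨T, ⟨hT, hTc⟩, fun i hi => ⟨(hU1 ⟨i, hi⟩).trans hT1, fun s hs => ?_⟩⟩
          exact hT2 s fun n => (hU1 ⟨i, hi⟩).le (hs n)
        · exact ⟨B, hB, fun i hi => absurd ⟨⟨i, hi⟩⟩ hne⟩
      have h1 : F j = hex.choose := by
        rw [hF j]
        simp only [stp]
        rw [dif_pos hex]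
      rw [h1]
      exact hex.choose_spec
  exact ⟨F, fun j => (main j).1.1, fun i j h => (main j).2 i h⟩

/-- The example: every sequence is given by fixed words in four elements, and there is a
slowly oscillating function taking two values infinitely often. -/
theorem example_group : ∃ (G : Type) (_ : Group G) (f : G → ℝ),
    (∀ s : ℕ → G, ∃ x : Fin 4 → G, ∀ n, s n = FreeGroup.lift x (om n)) ∧
    (∀ g, C0 (fun x => f (g * x) - f x)) ∧ {x | f x = 0}.Infinite ∧ {x | f x = 1}.Infinite := by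
  obtain ⟨F, hF, hF2⟩ := chain
  have : Nonempty W1 := by
    rw [Ordinal.nonempty_toType_iff]
    simp [(Ordinal.omega_pos 1).ne']
  obtain ⟨U, hU, hU1, hU2⟩ := St.union F hF (fun a b => by
    rcases lt_trichotomy a b with h | h | h
    · exact Or.inl (hF2 a b h).1
    · left; rw [h]; exact St.Le.refl _
    · exact Or.inr (hF2 b a h).1)
  refine ⟨U.G, inferInstance, fun x => U.f x, fun s => ?_, fun g ε hε => ?_, ?_, ?_⟩
  · choose i hi using fun n => (hU2 (s n)).mp (s n).2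
    obtain ⟨j, hj⟩ := W1_bdd i
    obtain ⟨k, hk⟩ := W1_bdd fun _ => j
    obtain ⟨x, hx, hx2⟩ := (hF2 j k (hk 0)).2 (fun n => s n) fun n => (hF2 _ j (hj n)).1.le (hi n)
    refine ⟨fun a => ⟨x a, (hU1 k).le (hx a)⟩, fun n => Subtype.ext ?_⟩
    have h2 : U.G.subtype.comp (FreeGroup.lift fun a => (⟨x a, (hU1 k).le (hx a)⟩ : U.G)) =
        FreeGroup.lift x := by ext; simp
    rw [hx2 n, ← h2]
    rfl
  · exact ((hU.so g g.2 ε hε).preimage (f := fun x : U.G => (x : Perm Om))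
      Subtype.val_injective.injOn).subset fun x hx => ⟨x.2, hx⟩
  · intro hfin
    exact hU.i0 ((hfin.image Subtype.val).subset fun x hx => ⟨⟨x, hx.1⟩, hx.2, rfl⟩)
  · intro hfin
    exact hU.i1 ((hfin.image Subtype.val).subset fun x hx => ⟨⟨x, hx.1⟩, hx.2, rfl⟩)

lemma word_bound (ω : FreeGroup (Fin 4)) : ∃ k : ℕ, ∀ (G : Type) [Group G] (X : ℕ → Set G),
    Monotone X → (∀ n, ∀ a ∈ X n, a⁻¹ ∈ X n) → (∀ n, ∀ a ∈ X n, ∀ b ∈ X n, a * b ∈ X (n + 1)) →
    ∀ m (x : Fin 4 → G), (∀ i, x i ∈ X m) → FreeGroup.lift x ω ∈ X (m + k) := by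
  induction ω using FreeGroup.induction_on with
  | C1 =>
    refine ⟨1, fun G _ X _ h1 h2 m x hx => ?_⟩
    simpa using h2 m _ (hx 0) _ (h1 m _ (hx 0))
  | of i => exact ⟨0, fun G _ X _ h1 h2 m x hx => by simpa using hx i⟩
  | inv_of i _ => exact ⟨0, fun G _ X _ h1 h2 m x hx => by simpa using h1 m _ (hx i)⟩
  | mul a b ha hb =>
    obtain ⟨k, hk⟩ := ha
    obtain ⟨l, hl⟩ := hb
    refine ⟨max k l + 1, fun G _ X h0 h1 h2 m x hx => ?_⟩
    rw [map_mul, ← add_assoc]
    exact h2 _ _ (h0 (by omega) (hk G X h0 h1 h2 m x hx)) _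
      (h0 (by omega) (hl G X h0 h1 h2 m x hx))

lemma strong {G : Type} [Group G]
    (h : ∀ s : ℕ → G, ∃ x : Fin 4 → G, ∀ n, s n = FreeGroup.lift x (om n)) (X : ℕ → Set G)
    (h0 : Monotone X) (h1 : ∀ n, ∀ a ∈ X n, a⁻¹ ∈ X n)
    (h2 : ∀ n, ∀ a ∈ X n, ∀ b ∈ X n, a * b ∈ X (n + 1)) (h3 : ∀ g, ∃ n, g ∈ X n) :
    ∃ n, ∀ g, g ∈ X n := by
  by_contra hc
  push Not at hc
  choose k hk using fun n => word_bound (om n)
  choose g hg using hc
  obtain ⟨x, hx⟩ := h fun n => g (n + k n)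
  choose m hm using fun i => h3 (x i)
  have := hk (Finset.univ.sup m) G X h0 h1 h2 (Finset.univ.sup m) x
    fun i => h0 (Finset.le_sup (f := m) (Finset.mem_univ i)) (hm i)
  rw [← hx] at this
  exact hg _ this

/-- Slow oscillation as in the problem statements. -/
lemma so_of_C0 {G : Type} [Group G] (f : G → ℝ) (h : ∀ g, C0 (fun x => f (g * x) - f x))
    (F : Set G) (hF : F.Finite) (ε : ℝ) (hε : 0 < ε) : ∃ B : Set G, B.Finite ∧ ∀ x ∉ B,
      Metric.diam (f '' ({x} ∪ (fun g => g * x) '' F)) < ε := by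
  refine ⟨⋃ g ∈ F, {x | ε / 3 ≤ |f (g * x) - f x|}, hF.biUnion fun g _ => h g _ (by positivity),
    fun x hx => ?_⟩
  simp only [Set.mem_iUnion, Set.mem_setOf_eq, not_exists, not_le] at hx
  have key : ∀ r ∈ f '' ({x} ∪ (fun g => g * x) '' F), |r - f x| ≤ ε / 3 := by
    rintro _ ⟨y, rfl | ⟨g, hg, rfl⟩, rfl⟩
    · simp; positivity
    · exact (hx g hg).le
  refine lt_of_le_of_lt (Metric.diam_le_of_forall_dist_le (C := 2 * ε / 3) (by positivity)
    fun a ha b hb => ?_) (by linarith)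
  have h1 := abs_le.mp (key a ha)
  have h2 := abs_le.mp (key b hb)
  rw [Real.dist_eq, abs_le]
  constructor <;> linarith [h1.1, h1.2, h2.1, h2.2]

lemma not_const {G : Type} (f : G → ℝ) (i0 : {x | f x = 0}.Infinite)
    (i1 : {x | f x = 1}.Infinite) (c : ℝ) : ∃ O ∈ nhds c, ¬ ((f ⁻¹' O)ᶜ).Finite := by
  refine ⟨Metric.ball c (1 / 2), Metric.ball_mem_nhds c (by norm_num), fun hfin => ?_⟩
  by_cases hc : c ≤ 1 / 2
  · refine i1 (hfin.subset fun x hx h => ?_)
    simp only [Set.mem_preimage, Metric.mem_ball, Real.dist_eq, show f x = 1 from hx] at h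
    linarith [(abs_lt.mp h).2]
  · refine i0 (hfin.subset fun x hx h => ?_)
    simp only [Set.mem_preimage, Metric.mem_ball, Real.dist_eq, show f x = 0 from hx] at h
    linarith [(abs_lt.mp h).1]

lemma bounded_of_so {G : Type} [Group G]
    (h : ∀ s : ℕ → G, ∃ x : Fin 4 → G, ∀ n, s n = FreeGroup.lift x (om n)) (φ : G → ℝ)
    (hφ : ∀ F : Set G, F.Finite → ∀ ε : ℝ, 0 < ε → ∃ B : Set G, B.Finite ∧ ∀ x ∉ B,
      Metric.diam (φ '' ({x} ∪ (fun g => g * x) '' F)) < ε) :
    Bornology.IsBounded (Set.range φ) := by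
  obtain ⟨n, hn⟩ := strong h (fun n => {g | ∀ x, |φ (g * x) - φ x| ≤ 2 ^ n})
    (fun a b hab g hg x => (hg x).trans (pow_le_pow_right₀ one_le_two hab))
    (fun n a ha x => by
      have := ha (a⁻¹ * x)
      rwa [mul_inv_cancel_left, abs_sub_comm] at this)
    (fun n a ha b hb x => by
      have h1 := abs_le.mp (ha (b * x))
      have h2 := abs_le.mp (hb x)
      rw [mul_assoc, pow_succ, abs_le]
      constructor <;> linarith [h1.1, h1.2, h2.1, h2.2])
    (fun g => by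
      obtain ⟨B, hB, hB2⟩ := hφ {g} (Set.finite_singleton g) 1 one_pos
      obtain ⟨M, hM⟩ := (hB.image fun x => |φ (g * x) - φ x|).bddAbove
      obtain ⟨n, hn⟩ := pow_unbounded_of_one_lt (max M 1) (one_lt_two (α := ℝ))
      refine ⟨n, fun x => le_trans ?_ hn.le⟩
      by_cases hx : x ∈ B
      · exact (hM ⟨x, hx, rfl⟩).trans (le_max_left _ _)
      · refine le_trans ?_ ((hB2 x hx).le.trans (le_max_right _ _))
        rw [← Real.dist_eq]
        refine Metric.dist_le_diam_of_mem (Set.Finite.isBounded ?_) ⟨_, Or.inr ⟨g, rfl, rfl⟩, rfl⟩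
          ⟨_, Or.inl rfl, rfl⟩
        exact ((Set.finite_singleton x).union ((Set.finite_singleton g).image _)).image _)
  refine (Metric.isBounded_closedBall (x := φ 1) (r := 2 ^ n)).subset ?_
  rintro _ ⟨g, rfl⟩
  have := hn g 1
  rwa [mul_one, ← Real.dist_eq] at this

end Pool.Agent.H6.So
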