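import Mathlib

/-! Continuum many rotations generating a free group that acts freely on an orbit. -/

namespace Pool.Agent.H6.Sp

open Matrix

/-- The rotation matrix of a quaternion, before normalisation. -/
def qm {R : Type} [CommRing R] (q : Fin 4 → R) : Matrix (Fin 3) (Fin 3) R :=
  !![q 0 * q 0 + q 1 * q 1 - q 2 * q 2 - q 3 * q 3, 2 * (q 1 * q 2 - q 0 * q 3),
      2 * (q 1 * q 3 + q 0 * q 2);
    2 * (q 1 * q 2 + q 0 * q 3), q 0 * q 0 - q 1 * q 1 + q 2 * q 2 - q 3 * q 3,
      2 * (q 2 * q 3 - q 0 * q 1);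
    2 * (q 1 * q 3 - q 0 * q 2), 2 * (q 2 * q 3 + q 0 * q 1),
      q 0 * q 0 - q 1 * q 1 - q 2 * q 2 + q 3 * q 3]

/-- The norm of a quaternion. -/
def qn {R : Type} [CommRing R] (q : Fin 4 → R) : R := q 0 * q 0 + q 1 * q 1 + q 2 * q 2 + q 3 * q 3

lemma qm_mul {R : Type} [CommRing R] (q : Fin 4 → R) : qm q * (qm q)ᵀ = (qn q * qn q) • 1 := by
  ext i j
  fin_cases i <;> fin_cases j <;> simp [qm, qn, mul_apply, Fin.sum_univ_three] <;> ring

lemma qm_det {R : Type} [CommRing R] (q : Fin 4 → R) : (qm q).det = qn q ^ 3 := by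
  simp [qm, qn, det_fin_three]; ring

lemma qm_map {R S : Type} [CommRing R] [CommRing S] (φ : R →+* S) (q : Fin 4 → R) :
    φ.mapMatrix (qm q) = qm (fun i => φ (q i)) := by
  ext i j
  fin_cases i <;> fin_cases j <;> simp [qm, map_ofNat]

/-- The matrix of a letter. -/
def lm {R J : Type} [CommRing R] (q : J × Fin 4 → R) (l : J × Bool) : Matrix (Fin 3) (Fin 3) R :=
  cond l.2 (qm fun i => q (l.1, i)) (qm fun i => q (l.1, i))ᵀ

/-- The defect of a word from fixing the first basis vector. -/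
def dfc {R J : Type} [CommRing R] (q : J × Fin 4 → R) (L : List (J × Bool)) : R :=
  (L.map (lm q)).prod 0 0 - (L.map fun l => qn fun i => q (l.1, i)).prod

lemma dfc_map {R S J : Type} [CommRing R] [CommRing S] (φ : R →+* S) (q : J × Fin 4 → R)
    (L : List (J × Bool)) : φ (dfc q L) = dfc (fun p => φ (q p)) L := by
  have h1 : ∀ l, φ.mapMatrix (lm q l) = lm (fun p => φ (q p)) l := by
    rintro ⟨j, _ | _⟩
    · simp only [lm, cond_false, ← qm_map]; rfl
    · simp only [lm, cond_true, ← qm_map]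
  have h2 : φ ((L.map (lm q)).prod 0 0) = (L.map (lm fun p => φ (q p))).prod 0 0 := by
    have := map_list_prod φ.mapMatrix (L.map (lm q))
    rw [List.map_map, show φ.mapMatrix ∘ lm q = lm fun p => φ (q p) from funext h1] at this
    exact congrFun (congrFun this 0) 0
  rw [dfc, dfc, map_sub, h2, map_list_prod, List.map_map]
  congr 2
  refine List.map_congr_left fun l _ => ?_
  simp [qn]

/-- Isotropic vectors. -/
noncomputable def zv (ε s : ℂ) : Fin 3 → ℂ := ![2 * s, ε * Complex.I * (1 + s ^ 2), s ^ 2 - 1]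

/-- Null quaternions. -/
noncomputable def zq {J : Type} (e : J → ℝ) (p : J × Fin 4) : ℂ :=
  ![1 + (e p.1 : ℂ) ^ 2, -Complex.I * (1 - (e p.1 : ℂ) ^ 2), 0, -Complex.I * (2 * e p.1)] p.2

lemma lm_zq {J : Type} (e : J → ℝ) (l : J × Bool) (v : Fin 3 → ℂ) :
    lm (zq e) l *ᵥ v = (2 * (zv (cond l.2 1 (-1)) (e l.1) ⬝ᵥ v)) • zv (cond l.2 (-1) 1) (e l.1) := by
  have hI := Complex.I_mul_I
  rcases l with ⟨j, _ | _⟩ <;> ext i <;> fin_cases i <;>
    simp [lm, qm, zq, zv, mulVec, dotProduct, Fin.sum_univ_three] <;> grind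

lemma word_ne {J : Type} (e : J → ℝ) (he : Function.Injective e) (hp : ∀ j, 0 < e j)
    (L : List (J × Bool)) : ∀ l, FreeGroup.IsReduced (l :: L) → ∃ c : ℂ, c ≠ 0 ∧
      ((l :: L).map (lm (zq e))).prod *ᵥ Pi.single 0 1 = c • zv (cond l.2 (-1) 1) (e l.1) := by
  induction L with
  | nil =>
    intro l _
    refine ⟨_, ?_, by simp only [List.map, List.prod_cons, List.prod_nil, mul_one]; rw [lm_zq]⟩
    have : (e l.1 : ℂ) ≠ 0 := by exact_mod_cast (hp l.1).ne'
    simp [zv, this]
  | cons l' L ih =>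
    intro l h
    rw [FreeGroup.isReduced_cons_cons] at h
    obtain ⟨c, hc, h2⟩ := ih l' h.2
    refine ⟨_, ?_, by rw [List.map_cons, List.prod_cons, ← mulVec_mulVec, h2, lm_zq]⟩
    rw [dotProduct_smul, smul_eq_mul]
    refine mul_ne_zero two_ne_zero (mul_ne_zero hc ?_)
    have hI := Complex.I_mul_I
    by_cases hb : l.2 = l'.2
    · have e1 : zv (cond l.2 1 (-1)) (e l.1) ⬝ᵥ zv (cond l'.2 (-1) 1) (e l'.1) =
          ((2 * (1 + e l.1 * e l'.1) ^ 2 : ℝ) : ℂ) := by
        rw [← hb]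
        cases l.2 <;> simp [zv, dotProduct, Fin.sum_univ_three] <;> grind
      rw [e1]
      have := mul_pos (hp l.1) (hp l'.1)
      exact_mod_cast (by positivity : (2 * (1 + e l.1 * e l'.1) ^ 2 : ℝ) ≠ 0)
    · have e1 : zv (cond l.2 1 (-1)) (e l.1) ⬝ᵥ zv (cond l'.2 (-1) 1) (e l'.1) =
          ((-2 * (e l.1 - e l'.1) ^ 2 : ℝ) : ℂ) := by
        revert hb
        cases l.2 <;> cases l'.2 <;> simp [zv, dotProduct, Fin.sum_univ_three] <;> grind
      rw [e1]
      have : e l.1 - e l'.1 ≠ 0 := sub_ne_zero.2 fun g => hb (h.1 (he g))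
      exact_mod_cast (by positivity : (-2 * (e l.1 - e l'.1) ^ 2 : ℝ) ≠ 0)

lemma dfc_ne {J : Type} (e : J → ℝ) (he : Function.Injective e) (hp : ∀ j, 0 < e j)
    (l : J × Bool) (L : List (J × Bool)) (h : FreeGroup.IsReduced (l :: L)) :
    dfc (zq e) (l :: L) ≠ 0 := by
  obtain ⟨c, hc, h2⟩ := word_ne e he hp L l h
  have h3 := congrFun h2 0
  have h4 : qn (fun i => zq e (l.1, i)) = 0 := by
    have hI := Complex.I_mul_I
    simp [qn, zq]; grind
  have : (e l.1 : ℂ) ≠ 0 := by exact_mod_cast (hp l.1).ne'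
  rw [mulVec_single_one] at h3
  rw [dfc, List.map_cons (f := fun l : J × Bool => qn fun i => zq e (l.1, i)), List.prod_cons, h4,
    zero_mul, sub_zero]
  refine fun g => mul_ne_zero hc (mul_ne_zero two_ne_zero this) ?_
  rw [← g]
  exact h3.symm

lemma exists_indep (K : Type) (hK : Cardinal.mk K ≤ Cardinal.continuum) :
    ∃ x : K → ℝ, AlgebraicIndependent ℚ x := by
  obtain ⟨s, hs⟩ := exists_isTranscendenceBasis ℚ ℝ
  have hne : Nonempty s := hs.nonempty_iff_transcendental.2 (by
    rw [Algebra.transcendental_iff_not_isAlgebraic]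
    intro h
    have := Algebra.IsAlgebraic.cardinalMk_le_max ℚ ℝ
    rw [Cardinal.mk_real, Cardinal.mkRat, max_self] at this
    exact this.not_gt Cardinal.aleph0_lt_continuum)
  have h := hs.lift_cardinalMk_eq_max_lift
  simp only [Cardinal.lift_id, Cardinal.mk_real, Cardinal.mkRat] at h
  have h2 : Cardinal.continuum ≤ Cardinal.mk s := by
    by_contra hc
    push Not at hc
    exact (max_lt (max_lt Cardinal.aleph0_lt_continuum hc) Cardinal.aleph0_lt_continuum).ne h.symm
  obtain ⟨f⟩ := Cardinal.le_def _ _ |>.1 (hK.trans h2)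
  exact ⟨_, hs.1.comp f f.injective⟩

lemma transfer {K : Type} {x : K → ℝ} (hx : AlgebraicIndependent ℚ x) (y : K → ℂ)
    (p : MvPolynomial K ℚ) (h : MvPolynomial.aeval x p = 0) : MvPolynomial.aeval y p = 0 := by
  rw [(injective_iff_map_eq_zero _).1 hx p h, map_zero]

theorem exists_free (J : Type) [DecidableEq J] (hJ : Cardinal.mk J ≤ Cardinal.continuum) :
    ∃ γ : J → specialOrthogonalGroup (Fin 3) ℝ,
      (∀ g : FreeGroup J, (FreeGroup.lift γ g).1 *ᵥ Pi.single 0 1 = Pi.single 0 1 → g = 1) ∧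
      ∀ i j k, i ≠ j → i ≠ k → j ≠ k → ((γ i).1 *ᵥ Pi.single 0 1) ⬝ᵥ
        (((γ j).1 *ᵥ Pi.single 0 1) ⨯₃ ((γ k).1 *ᵥ Pi.single 0 1)) ≠ 0 := by
  obtain ⟨x, hx⟩ := exists_indep (J × Fin 4) (by
    simp only [Cardinal.mk_prod, Cardinal.lift_id, Cardinal.mk_fin]
    exact (mul_le_mul' hJ (Cardinal.nat_lt_continuum 4).le).trans Cardinal.continuum_mul_self.le)
  obtain ⟨f⟩ := Cardinal.le_def _ _ |>.1 (hJ.trans Cardinal.mk_real.ge)
  have hn : ∀ j, 0 < qn fun i => x (j, i) := fun j => by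
    have := hx.ne_zero (j, 0)
    have := mul_self_pos.2 this
    unfold qn
    nlinarith [mul_self_nonneg (x (j, 1)), mul_self_nonneg (x (j, 2)), mul_self_nonneg (x (j, 3))]
  let γ : J → specialOrthogonalGroup (Fin 3) ℝ := fun j =>
    ⟨(qn fun i => x (j, i))⁻¹ • qm fun i => x (j, i), mem_specialOrthogonalGroup_iff.2
      ⟨(mem_orthogonalGroup_iff _ _).2 (by
        rw [transpose_smul, smul_mul_smul_comm, qm_mul, smul_smul]
        have := (hn j).ne'
        rw [show (qn fun i => x (j, i))⁻¹ * (qn fun i => x (j, i))⁻¹ *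
          ((qn fun i => x (j, i)) * qn fun i => x (j, i)) = 1 by field_simp, one_smul]), by
        rw [det_smul, qm_det, Fintype.card_fin, ← mul_pow, inv_mul_cancel₀ (hn j).ne', one_pow]⟩⟩
  refine ⟨γ, fun g hg => ?_, fun i j k hij hik hjk h0 => ?_⟩
  · have key : ∀ L : List (J × Bool), (L.map (lm x)).prod =
        (L.map fun l => qn fun i => x (l.1, i)).prod • (FreeGroup.lift γ (FreeGroup.mk L)).1 := by
      intro L
      rw [FreeGroup.lift_mk]
      induction L with
      | nil => simp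
      | cons l L ih =>
        simp only [List.map_cons, List.prod_cons, ih, Submonoid.coe_mul]
        rw [← smul_mul_smul_comm]
        congr 1
        rcases l with ⟨j, _ | _⟩
        · change _ = _ • ((qn fun i => x (j, i))⁻¹ • qm fun i => x (j, i))ᵀ
          rw [transpose_smul, smul_smul, mul_inv_cancel₀ (hn j).ne', one_smul]; rfl
        · change _ = _ • ((qn fun i => x (j, i))⁻¹ • qm fun i => x (j, i))
          rw [smul_smul, mul_inv_cancel₀ (hn j).ne', one_smul]; rfl
    have h1 : dfc x g.toWord = 0 := by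
      have := congrFun hg 0
      rw [mulVec_single_one] at this
      rw [dfc, key, FreeGroup.mk_toWord, Matrix.smul_apply]
      change _ • (FreeGroup.lift γ g).1.col 0 0 - _ = 0
      rw [this]; simp
    rw [← FreeGroup.toWord_eq_nil_iff]
    have hr : FreeGroup.IsReduced g.toWord := FreeGroup.isReduced_toWord
    rcases hw : g.toWord with _ | ⟨l, L⟩
    · rfl
    rw [hw] at hr h1
    refine absurd ?_ (dfc_ne (fun j => Real.exp (f j))
      (Real.exp_injective.comp f.injective) (fun j => Real.exp_pos _) l L hr)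
    have h2 := transfer hx (zq fun j => Real.exp (f j)) (dfc MvPolynomial.X (l :: L)) (by
      have := dfc_map (MvPolynomial.aeval (R := ℚ) x).toRingHom MvPolynomial.X (l :: L)
      simpa [h1] using this)
    have := dfc_map (MvPolynomial.aeval (R := ℚ) (zq fun j => Real.exp (f j))).toRingHom
      MvPolynomial.X (l :: L)
    simpa [h2] using this.symm
  · let y : J × Fin 4 → ℂ := fun p =>
      if p.1 = i then ![1, 0, 0, 0] p.2 else if p.1 = j then ![1, 0, 0, 1] p.2 else ![1, 0, -1, 0] p.2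
    let c : J → Fin 3 → MvPolynomial (J × Fin 4) ℚ := fun a =>
      (qm fun t => MvPolynomial.X (a, t)).col 0
    have h2 := transfer hx y (c i ⬝ᵥ (c j ⨯₃ c k)) (by
      have a1 := (hn i).ne'
      have a2 := (hn j).ne'
      have a3 := (hn k).ne'
      simp only [γ, mulVec_single_one, cross_apply, dotProduct, Fin.sum_univ_three] at h0
      simp [qm] at h0
      simp [c, qm, cross_apply, dotProduct, Fin.sum_univ_three, map_ofNat]
      field_simp at h0
      linarith)
    simp [c, y, qm, cross_apply, dotProduct, Fin.sum_univ_three, map_ofNat, hij.symm, hik.symm,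
      hjk.symm] at h2

end Pool.Agent.H6.Sp
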