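import Pool.Agent.H6.SpDefs

/-! The counting direction. -/

namespace Pool.Agent.H6.Sp

open Matrix Cardinal

abbrev M3 := Matrix (Fin 3) (Fin 3) ℝ
abbrev V3 := Fin 3 → ℝ

lemma cross_id (g : M3) (a b : V3) : gᵀ *ᵥ ((g *ᵥ a) ⨯₃ (g *ᵥ b)) = g.det • (a ⨯₃ b) := by
  ext i
  fin_cases i <;> simp [cross_apply, mulVec, dotProduct, Fin.sum_univ_three, det_fin_three] <;> ring

lemma expand (a b v : V3) : ((a ⨯₃ b) ⬝ᵥ (a ⨯₃ b)) • v = (v ⬝ᵥ (b ⨯₃ (a ⨯₃ b))) • a +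
    (v ⬝ᵥ ((a ⨯₃ b) ⨯₃ a)) • b + (v ⬝ᵥ (a ⨯₃ b)) • (a ⨯₃ b) := by
  ext i
  fin_cases i <;> simp [cross_apply, dotProduct, Fin.sum_univ_three] <;> ring

lemma det_pm {g : M3} (h : gᵀ * g = 1) : g.det = 1 ∨ g.det = -1 := by
  have := congrArg det h
  rw [det_mul, det_transpose, det_one] at this
  exact mul_self_eq_one_iff.1 this

lemma cancel {g : M3} (h : gᵀ * g = 1) (v : V3) : gᵀ *ᵥ (g *ᵥ v) = v := by
  rw [mulVec_mulVec, h, one_mulVec]

lemma cancel' {g : M3} (h : gᵀ * g = 1) (v : V3) : g *ᵥ (gᵀ *ᵥ v) = v := by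
  rw [mulVec_mulVec, mul_eq_one_comm.1 h, one_mulVec]

lemma inj {g : M3} (h : gᵀ * g = 1) {v w : V3} (e : g *ᵥ v = g *ᵥ w) : v = w := by
  rw [← cancel h v, e, cancel h]

lemma dot_pres {g : M3} (h : gᵀ * g = 1) (v w : V3) : (g *ᵥ v) ⬝ᵥ (g *ᵥ w) = v ⬝ᵥ w := by
  rw [dotProduct_mulVec, ← mulVec_transpose, cancel h]

lemma fix_cross {g : M3} (h : gᵀ * g = 1) {a b : V3} (ha : g *ᵥ a = a) (hb : g *ᵥ b = b) :
    g.det • (g *ᵥ (a ⨯₃ b)) = a ⨯₃ b := by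
  have := cross_id g a b
  rw [ha, hb] at this
  rw [← mulVec_smul, ← this, cancel' h]

lemma fix2 {g : M3} (h : gᵀ * g = 1) (hd : g.det = 1) {a b : V3} (ha : g *ᵥ a = a)
    (hb : g *ᵥ b = b) (hn : a ⨯₃ b ≠ 0) : g = 1 := by
  have h1 := fix_cross h ha hb
  rw [hd, one_smul] at h1
  have h2 : (a ⨯₃ b) ⬝ᵥ (a ⨯₃ b) ≠ 0 := fun e => hn (dotProduct_self_eq_zero.1 e)
  have h3 : ∀ v, g *ᵥ v = v := fun v => by
    apply smul_right_injective _ h2
    beta_reduce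
    rw [← mulVec_smul, expand, mulVec_add, mulVec_add, mulVec_smul, mulVec_smul, mulVec_smul, ha,
      hb, h1]
  exact ext_of_mulVec_single fun i => by rw [h3, one_mulVec]

lemma eq_of2 {g h : M3} (hg : gᵀ * g = 1) (hh : hᵀ * h = 1) (hd : g.det = h.det) {a b : V3}
    (ha : g *ᵥ a = h *ᵥ a) (hb : g *ᵥ b = h *ᵥ b) (hn : a ⨯₃ b ≠ 0) : g = h := by
  have := fix2 (g := hᵀ * g) (by
    rw [transpose_mul, transpose_transpose, mul_assoc, ← mul_assoc h, mul_eq_one_comm.1 hh, one_mul,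
      hg]) (by rw [det_mul, hd, ← det_mul, hh, det_one]) (a := a) (b := b)
    (by rw [← mulVec_mulVec, ha, cancel hh]) (by rw [← mulVec_mulVec, hb, cancel hh]) hn
  rw [← one_mul g, ← mul_eq_one_comm.1 hh, mul_assoc, this, mul_one]

lemma cross_ne {a b : V3} (ha : a ∈ Sph) (hb : b ∈ Sph) (h1 : b ≠ a) (h2 : b ≠ -a) :
    a ⨯₃ b ≠ 0 := by
  intro h
  have e := cross_dot_cross a b a b
  rw [h, dotProduct_zero, show a ⬝ᵥ a = 1 from ha, show b ⬝ᵥ b = 1 from hb, dotProduct_comm b a] at e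
  rcases mul_self_eq_one_iff.1 (show (a ⬝ᵥ b) * (a ⬝ᵥ b) = 1 by linarith) with g | g
  · refine h1 (sub_eq_zero.1 (dotProduct_self_eq_zero.1 ?_))
    rw [sub_dotProduct, dotProduct_sub, dotProduct_sub, show a ⬝ᵥ a = 1 from ha,
      show b ⬝ᵥ b = 1 from hb, dotProduct_comm b a, g]
    ring
  · refine h2 (eq_neg_of_add_eq_zero_left (dotProduct_self_eq_zero.1 ?_))
    rw [add_dotProduct, dotProduct_add, dotProduct_add, show a ⬝ᵥ a = 1 from ha,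
      show b ⬝ᵥ b = 1 from hb, dotProduct_comm b a, g]
    ring

lemma thin {W : Set V3} (hW : W ⊆ Sph) (hu : ¬ W.Countable) : ∃ S ⊆ W, ¬ S.Countable ∧
    ∀ g : M3, gᵀ * g = 1 → {w ∈ S | g *ᵥ w ∈ S ∧ g *ᵥ w ≠ w}.Finite := by
  classical
  let F : Set (Set V3) := {S | S ⊆ W ∧ ∀ g : M3, gᵀ * g = 1 → ∀ T : Finset V3,
    (∀ w ∈ T, w ∈ S ∧ g *ᵥ w ∈ S ∧ g *ᵥ w ≠ w) → T.card ≤ 4}
  have hF : Order.IsOfFiniteCharacter F := fun S =>
    ⟨fun h y hy _ => ⟨hy.trans h.1, fun g hg T hT => h.2 g hg T fun w hw =>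
      ⟨hy (hT w hw).1, hy (hT w hw).2.1, (hT w hw).2.2⟩⟩,
    fun h => ⟨fun x hx => (h {x} (by simpa using hx) (Set.finite_singleton x)).1 rfl,
      fun g hg T hT => (h (T ∪ (g *ᵥ ·) '' T) (by
        rintro _ (hw | ⟨w, hw, rfl⟩)
        exacts [(hT _ hw).1, (hT _ hw).2.1]) (T.finite_toSet.union (T.finite_toSet.image _))).2
        g hg T fun w hw => ⟨Or.inl hw, Or.inr ⟨w, hw, rfl⟩, (hT w hw).2.2⟩⟩⟩
  obtain ⟨S, -, hS, hmax⟩ := hF.exists_maximal (x := ∅) ⟨Set.empty_subset _, fun g _ T hT => by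
    rw [Finset.eq_empty_of_forall_notMem fun w hw => (hT w hw).1]; simp⟩
  refine ⟨S, hS.1, fun hc => hu ?_, fun g hg => ?_⟩
  · let G : Set M3 := ⋃ a ∈ S, ⋃ b ∈ S, ⋃ a' ∈ S, ⋃ b' ∈ S, ⋃ ε ∈ ({1, -1} : Set ℝ),
      {g | gᵀ * g = 1 ∧ a ⨯₃ b ≠ 0 ∧ g *ᵥ a = a' ∧ g *ᵥ b = b' ∧ g.det = ε}
    have hG : G.Countable := hc.biUnion fun a _ => hc.biUnion fun b _ => hc.biUnion fun a' _ =>
      hc.biUnion fun b' _ => (Set.toFinite _).countable.biUnion fun ε _ =>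
        Set.Subsingleton.countable fun g hg h hh => eq_of2 hg.1 hh.1
          (hg.2.2.2.2.trans hh.2.2.2.2.symm) (hg.2.2.1.trans hh.2.2.1.symm)
          (hg.2.2.2.1.trans hh.2.2.2.1.symm) hg.2.1
    refine (hc.union (hG.biUnion fun g _ =>
      (hc.image (g *ᵥ ·)).union (hc.image (gᵀ *ᵥ ·)))).mono fun x hx => ?_
    by_cases hxS : x ∈ S
    · exact Or.inl hxS
    have h1 : insert x S ∉ F := fun h => hxS (hmax h (Set.subset_insert _ _) (Set.mem_insert _ _))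
    simp only [F, Set.mem_setOf_eq, not_and, not_forall] at h1
    obtain ⟨g, hg, T, hT, hc5⟩ := h1 (Set.insert_subset hx hS.1)
    let T' := (T.erase x).erase (gᵀ *ᵥ x)
    have hT' : ∀ w ∈ T', w ∈ S ∧ g *ᵥ w ∈ S := fun w hw => by
      obtain ⟨a1, hw⟩ := Finset.mem_erase.1 hw
      obtain ⟨a2, hw⟩ := Finset.mem_erase.1 hw
      exact ⟨(hT w hw).1.resolve_left a2, (hT w hw).2.1.resolve_left fun e =>
        a1 (by rw [← e, cancel hg])⟩
    have c3 : 3 ≤ T'.card := by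
      have := Finset.pred_card_le_card_erase (s := T) (a := x)
      have := Finset.pred_card_le_card_erase (s := T.erase x) (a := gᵀ *ᵥ x)
      simp only [T']
      omega
    obtain ⟨a, ha⟩ := Finset.card_pos.1 (show 0 < T'.card by omega)
    obtain ⟨b, hb, hb'⟩ := Finset.exists_mem_notMem_of_card_lt_card (s := {a, -a}) (t := T')
      (lt_of_le_of_lt Finset.card_le_two (by omega))
    simp only [Finset.mem_insert, Finset.mem_singleton, not_or] at hb'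
    have hgG : g ∈ G := by
      simp only [G, Set.mem_iUnion]
      exact ⟨a, (hT' a ha).1, b, (hT' b hb).1, _, (hT' a ha).2, _, (hT' b hb).2, g.det, det_pm hg,
        hg, cross_ne (hW (hS.1 (hT' a ha).1)) (hW (hS.1 (hT' b hb).1)) hb'.1 hb'.2, rfl, rfl, rfl⟩
    refine Or.inr (Set.mem_biUnion hgG ?_)
    by_contra hcon
    refine hc5 (hS.2 g hg T fun w hw => ?_)
    obtain ⟨a1, a2, a3⟩ := hT w hw
    rcases a1 with a1 | a1
    · subst a1
      exact (hcon (Or.inr ⟨_, a2.resolve_left a3, cancel hg _⟩)).elim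
    · exact ⟨a1, a2.resolve_left fun e => hcon (Or.inl ⟨w, a1, e⟩), a3⟩
  · by_contra hinf
    obtain ⟨T, hT, hc⟩ := Set.Infinite.exists_subset_card_eq hinf 5
    have := hS.2 g hg T fun w hw => hT hw
    omega

lemma count (Γ : Submonoid M3) {U : Set V3} (hU : U ⊆ Sph) (hu : ¬ U.Countable) (c : V3 → Fin 2)
    (h : ∀ g ∈ Γ, g ≠ 1 → {w ∈ U | g *ᵥ w ∈ U}.Countable ∨
      ∃ x ∈ Sph, x ∉ U ∧ g *ᵥ x ∉ U ∧ c (g *ᵥ x) ≠ c x)
    (hc : (2 : Cardinal.{0}) ^ ℵ₁ ≠ 2 ^ ℵ₀) : ∃ c', (∀ x ∉ U, c' x = c x) ∧ Dist Γ 2 c' := by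
  classical
  by_contra hcon
  let ex : (U → Fin 2) → V3 → Fin 2 := fun d x => if h : x ∈ U then d ⟨x, h⟩ else c x
  have hex : ∀ d, ∀ x ∉ U, ex d x = c x := fun d x hx => dif_neg hx
  have h1 : ∀ d, ∃ g ∈ Γ, (∀ x ∈ Sph, ex d (g *ᵥ x) = ex d x) ∧ g ≠ 1 := fun d => by
    by_contra h2
    push Not at h2
    exact hcon ⟨ex d, hex d, h2⟩
  choose G hG1 hG2 hG3 using h1
  have h2 : ∀ g : M3, ∃ e : ℕ → V3, {w ∈ U | g *ᵥ w ∈ U}.Countable →
      {w ∈ U | g *ᵥ w ∈ U} ⊆ Set.range e := fun g => by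
    by_cases hg : {w ∈ U | g *ᵥ w ∈ U}.Countable
    · obtain ⟨e, he⟩ := Set.countable_iff_exists_subset_range.1 hg
      exact ⟨e, fun _ => he⟩
    · exact ⟨fun _ => 0, fun a => (hg a).elim⟩
  choose e he using h2
  have h3 : Function.Injective fun d => (G d, fun n => ex d (e (G d) n)) := by
    intro d d' hd
    obtain ⟨a1, a2⟩ := Prod.mk.inj hd
    have hct : {w ∈ U | G d *ᵥ w ∈ U}.Countable := (h _ (hG1 d) (hG3 d)).resolve_right (by
      rintro ⟨x, b1, b2, b3, b4⟩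
      exact b4 (by rw [← hex d _ b3, hG2 d x b1, hex d _ b2]))
    funext w
    suffices ex d w = ex d' w by simpa [ex] using this
    by_cases hw : G d *ᵥ w ∈ U
    · obtain ⟨n, hn⟩ := he _ hct ⟨w.2, hw⟩
      have := congrFun a2 n
      rwa [← a1, hn] at this
    · rw [← hG2 d w (hU w.2), ← hG2 d' w (hU w.2), ← a1, hex d _ hw, hex d' _ hw]
  have h4 := mk_le_of_injective h3
  have h5 : #M3 = 𝔠 := by
    change #(Fin 3 → Fin 3 → ℝ) = 𝔠
    have e3 : (𝔠 : Cardinal.{0}) ^ (3 : Cardinal.{0}) = 𝔠 := by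
      have := power_nat_eq (n := 3) aleph0_le_continuum.{0} (by norm_num)
      rwa [← power_natCast] at this
    simp [mk_real, e3]
  have h6 : ℵ₁ ≤ #U := by
    by_contra h7
    exact hu (countable_iff_lt_aleph_one _ |>.2 (not_le.1 h7))
  simp only [mk_prod, h5, lift_id, mk_pi, prod_const, mk_fin, mk_nat, Nat.cast_ofNat, lift_uzero,
    lift_ofNat, two_power_aleph0, continuum_mul_self] at h4
  refine hc (le_antisymm ?_ (power_le_power_left two_ne_zero aleph0_lt_aleph_one.le))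
  rw [two_power_aleph0]
  exact (power_le_power_left two_ne_zero h6).trans h4

theorem pos (Γ : Submonoid M3) (hΓ : ∀ g ∈ Γ, gᵀ * g = 1) {W : Set V3} (hW : W ⊆ Sph)
    (hu : ¬ W.Countable) (hs : ∀ g ∈ Γ, (∀ w ∈ W, g *ᵥ w = w) → g = 1)
    (hc : (2 : Cardinal.{0}) ^ ℵ₁ ≠ 2 ^ ℵ₀) : Ext Γ 2 W := by
  classical
  intro c0
  let c : V3 → Fin 2 := fun x => if h : x ∈ Sph \ W then c0 ⟨x, h⟩ else 0
  suffices ∃ c', (∀ x ∉ W, c' x = c x) ∧ Dist Γ 2 c' by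
    obtain ⟨c', h1, h2⟩ := this
    exact ⟨c', fun x => by rw [h1 x x.2.2]; exact dif_pos x.2, h2⟩
  obtain ⟨S, hSW, hSu, hS⟩ := thin hW hu
  by_cases hcase : ∀ g ∈ Γ, g ≠ 1 → {w ∈ S | g *ᵥ w = w}.Countable
  · obtain ⟨c', h1, h2⟩ := count Γ (hSW.trans hW) hSu c (fun g hg hg1 => Or.inl
      (((hS g (hΓ g hg)).countable.union (hcase g hg hg1)).mono fun w hw => by
        by_cases e : g *ᵥ w = w
        exacts [Or.inr ⟨hw.1, e⟩, Or.inl ⟨hw.1, hw.2, e⟩])) hc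
    exact ⟨c', fun x hx => h1 x fun g => hx (hSW g), h2⟩
  push Not at hcase
  obtain ⟨ρ, hρ, hρ1, hU⟩ := hcase
  obtain ⟨w0, hw0, hw1⟩ : ∃ w ∈ W, ρ *ᵥ w ≠ w := by
    by_contra h
    push Not at h
    exact hρ1 (hs ρ hρ h)
  obtain ⟨c', h1, h2⟩ := count Γ (U := {w ∈ S | ρ *ᵥ w = w}) (fun w hw => hW (hSW hw.1)) hU
    (Function.update c w0 (c (ρ *ᵥ w0) + 1)) (fun g hg hg1 => by
      by_cases e : g = ρ
      · refine Or.inr ⟨w0, hW hw0, fun a => hw1 a.2, fun a => hw1 (inj (hΓ ρ hρ) (e ▸ a.2)), ?_⟩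
        rw [e, Function.update_self, Function.update_of_ne hw1]
        generalize c (ρ *ᵥ w0) = t
        revert t
        decide
      refine Or.inl ?_
      have hfin : {w ∈ S | ρ *ᵥ w = w ∧ g *ᵥ w = w}.Countable := by
        rcases Set.eq_empty_or_nonempty {w ∈ S | ρ *ᵥ w = w ∧ g *ᵥ w = w} with h | ⟨a, ha⟩
        · rw [h]; exact Set.countable_empty
        refine (Set.toFinite {a, -a}).countable.mono fun b hb => ?_
        by_contra hab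
        simp only [Set.mem_insert_iff, Set.mem_singleton_iff, not_or] at hab
        have hn := cross_ne (hW (hSW ha.1)) (hW (hSW hb.1)) hab.1 hab.2
        have d1 := (det_pm (hΓ g hg)).resolve_left fun d =>
          hg1 (fix2 (hΓ g hg) d ha.2.2 hb.2.2 hn)
        have d2 := (det_pm (hΓ ρ hρ)).resolve_left fun d =>
          hρ1 (fix2 (hΓ ρ hρ) d ha.2.1 hb.2.1 hn)
        exact e (eq_of2 (hΓ g hg) (hΓ ρ hρ) (d1.trans d2.symm) (ha.2.2.trans ha.2.1.symm)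
          (hb.2.2.trans hb.2.1.symm) hn)
      refine ((hS g (hΓ g hg)).countable.union hfin).mono fun w hw => ?_
      by_cases e : g *ᵥ w = w
      exacts [Or.inr ⟨hw.1.1, hw.1.2, e⟩, Or.inl ⟨hw.1.1, hw.2.1, e⟩]) hc
  refine ⟨c', fun x hx => ?_, h2⟩
  rw [h1 x fun g => hx (hSW g.1), Function.update_of_ne (show x ≠ w0 from fun g => hx (g ▸ hw0))]

end Pool.Agent.H6.Sp
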