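import Pool.Agent.H6.SpA
import Pool.Agent.H6.SpB

/-! The construction direction and the distinguishing number. -/

namespace Pool.Agent.H6.Sp

open Matrix Cardinal

/-- The generator carried by the last letter. -/
def lastGen {D : Type} [DecidableEq D] (g : FreeGroup D) : Option D := g.toWord.getLast?.map (·.1)

lemma lastGen_mul {D : Type} [DecidableEq D] (d : D) (g : FreeGroup D) :
    (lastGen (FreeGroup.of d * g)).getD d = (lastGen g).getD d := by
  unfold lastGen
  rw [FreeGroup.toWord_mul, FreeGroup.toWord_of, List.singleton_append, FreeGroup.reduce.cons,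
    FreeGroup.reduce_toWord]
  rcases g.toWord with _ | ⟨a, _ | ⟨b, L⟩⟩
  · simp
  · dsimp only
    split_ifs with h
    · simp [← h.1]
    · simp
  · dsimp only
    split_ifs with h <;> simp [List.getLast?_cons_cons]

lemma lastGen_none {D : Type} [DecidableEq D] {g : FreeGroup D} (h : lastGen g = none) : g = 1 := by
  simpa [lastGen] using h

theorem neg (Γ : Submonoid M3) (hΓ : ∀ g ∈ Γ, gᵀ * g = 1)
    (hΓ' : specialOrthogonalGroup (Fin 3) ℝ ≤ Γ) (hc : (2 : Cardinal.{0}) ^ ℵ₁ = 2 ^ ℵ₀) :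
    ∃ W ⊆ Sph, ¬ W.Countable ∧ (∀ g ∈ Γ, (∀ w ∈ W, g *ᵥ w = w) → g = 1) ∧ ¬ Ext Γ 2 W := by
  classical
  let A := (ℵ₁ : Cardinal.{0}).out
  have hA : #A = ℵ₁ := mk_out _
  let D := A → Fin 2
  obtain ⟨γ, hf, h3⟩ := exists_free (D ⊕ A) (by
    have : #D = 𝔠 := by
      simp only [D, mk_pi, prod_const, mk_fin, lift_id, hA, Nat.cast_ofNat, hc, two_power_aleph0]
    rw [mk_sum, lift_id, lift_id, this, hA]
    exact (add_le_add le_rfl aleph_one_le_continuum).trans continuum_add_self.le)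
  have ho : ∀ x : specialOrthogonalGroup (Fin 3) ℝ, x.1ᵀ * x.1 = 1 := fun x => hΓ _ (hΓ' x.2)
  let pt : FreeGroup (D ⊕ A) → V3 := fun g => (FreeGroup.lift γ g).1 *ᵥ Pi.single 0 1
  have pmul : ∀ g h, pt (g * h) = (FreeGroup.lift γ g).1 *ᵥ pt h := fun g h => by
    simp only [pt, map_mul, Submonoid.coe_mul, mulVec_mulVec]
  have pinj : Function.Injective pt := fun g h e => by
    have := hf (h⁻¹ * g) (by
      change pt _ = _
      rw [pmul, e, ← pmul, inv_mul_cancel]
      simp only [pt, map_one, OneMemClass.coe_one, one_mulVec])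
    exact (inv_mul_eq_one.1 this).symm
  let q : FreeGroup D × A → V3 := fun p =>
    pt (FreeGroup.map Sum.inl p.1 * FreeGroup.of (Sum.inr p.2))
  have qinj : Function.Injective q := by
    rintro ⟨g, a⟩ ⟨h, b⟩ e
    have e1 := pinj e
    have k : ∀ g : FreeGroup D, FreeGroup.lift (Sum.elim FreeGroup.of fun _ => 1)
        (FreeGroup.map (Sum.inl : D → D ⊕ A) g) = g := fun g => by
      induction g using FreeGroup.induction_on <;> simp_all
    have e2 := congrArg (FreeGroup.lift (Sum.elim FreeGroup.of fun _ => (1 : FreeGroup D))) e1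
    simp only [map_mul, k, FreeGroup.lift_apply_of, Sum.elim_inr, mul_one] at e2
    subst e2
    exact Prod.ext rfl (Sum.inr_injective (FreeGroup.of_injective (mul_left_cancel e1)))
  have qmul : ∀ d g a, (γ (Sum.inl d)).1 *ᵥ q (g, a) = q (FreeGroup.of d * g, a) := fun d g a => by
    simp only [q, map_mul, mul_assoc, FreeGroup.map.of]
    rw [pmul (FreeGroup.of _), FreeGroup.lift_apply_of]
  have q1 : ∀ a, q (1, a) = (γ (Sum.inr a)).1 *ᵥ Pi.single 0 1 := fun a => by simp [q, pt]
  have qS : ∀ p, q p ∈ Sph := fun p => by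
    change pt _ ⬝ᵥ pt _ = 1
    rw [dot_pres (ho _)]; simp
  have winj : Function.Injective fun a => q (1, a) := fun a b e => (Prod.mk.inj (qinj e)).2
  refine ⟨Set.range fun a => q (1, a), by rintro _ ⟨a, rfl⟩; exact qS _, fun h => ?_,
    fun g hg h => ?_, fun h => ?_⟩
  · rw [← le_aleph0_iff_set_countable, mk_range_eq _ winj, hA] at h
    exact h.not_gt aleph0_lt_aleph_one
  · haveI : Infinite A := infinite_iff.2 (hA ▸ aleph0_lt_aleph_one.le)
    let f := Infinite.natEmbedding A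
    have t := h3 (Sum.inr (f 0)) (Sum.inr (f 1)) (Sum.inr (f 2)) (by simp) (by simp) (by simp)
    rw [← q1, ← q1, ← q1] at t
    have a0 := h _ ⟨f 0, rfl⟩
    have a1 := h _ ⟨f 1, rfl⟩
    have a2 := h _ ⟨f 2, rfl⟩
    rcases det_pm (hΓ g hg) with d | d
    · exact fix2 (hΓ g hg) d a1 a2 fun e => t (by rw [e, dotProduct_zero])
    · have e1 := fix_cross (hΓ g hg) a1 a2
      have e2 := dot_pres (hΓ g hg) (q (1, f 0)) (q (1, f 1) ⨯₃ q (1, f 2))
      rw [a0] at e2
      have e3 := congrArg (q (1, f 0) ⬝ᵥ ·) e1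
      simp only [dotProduct_smul, d, e2, smul_eq_mul] at e3
      exact (t (by linarith)).elim
  · let col : D → V3 → Fin 2 := fun d x =>
      if h : ∃ p, q p = x then (lastGen h.choose.1).getD d h.choose.2 else 0
    have col1 : ∀ d p, col d (q p) = (lastGen p.1).getD d p.2 := fun d p => by
      have hex : ∃ p', q p' = q p := ⟨p, rfl⟩
      simp only [col, dif_pos hex]
      rw [qinj hex.choose_spec]
    obtain ⟨c', h1, h2⟩ := h fun x => col 0 x
    let d : D := fun a => c' (q (1, a))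
    have h4 : ∀ x ∈ Sph, c' x = col d x := fun x hx => by
      by_cases hw : x ∈ Set.range fun a => q (1, a)
      · obtain ⟨a, rfl⟩ := hw
        rw [col1]; rfl
      rw [h1 ⟨x, hx, hw⟩]
      by_cases hq : ∃ p, q p = x
      · obtain ⟨⟨g, a⟩, rfl⟩ := hq
        rw [col1, col1]
        rcases hl : lastGen g with _ | u
        · exact (hw ⟨a, by rw [lastGen_none hl]⟩).elim
        · rfl
      · simp only [col, dif_neg hq]
    have h5 := h2 _ (hΓ' (γ (Sum.inl d)).2) fun x hx => by
      rw [h4 x hx, h4 _ (show _ ⬝ᵥ _ = 1 by rw [dot_pres (ho _)]; exact hx)]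
      by_cases hq : ∃ p, q p = x
      · obtain ⟨⟨g, a⟩, rfl⟩ := hq
        rw [qmul, col1, col1, lastGen_mul]
      · have hq' : ¬ ∃ p, q p = (γ (Sum.inl d)).1 *ᵥ x := by
          rintro ⟨⟨g, a⟩, e⟩
          refine hq ⟨((FreeGroup.of d)⁻¹ * g, a), inj (ho (γ (Sum.inl d))) ?_⟩
          rw [qmul, mul_inv_cancel_left, e]
        simp only [col, dif_neg hq, dif_neg hq']
    have := hf (FreeGroup.of (Sum.inl d)) (by rw [FreeGroup.lift_apply_of, h5, one_mulVec])
    exact FreeGroup.of_ne_one _ this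

theorem dnum_eq (Γ : Submonoid M3) (hΓ : ∀ g ∈ Γ, gᵀ * g = 1)
    (hΓ' : specialOrthogonalGroup (Fin 3) ℝ ≤ Γ) : dnum Γ = 2 := by
  classical
  let p1 : V3 := ![1, 0, 0]
  let p2 : V3 := ![3 / 5, 4 / 5, 0]
  let p3 : V3 := ![0, 5 / 13, 12 / 13]
  have h2 : ∃ c, Dist Γ 2 c := by
    refine ⟨fun x => if x = p1 ∨ x = p2 ∨ x = p3 then 1 else 0, fun g hg h => ?_⟩
    have k : ∀ x ∈ Sph, (x = p1 ∨ x = p2 ∨ x = p3) →
        (g *ᵥ x = p1 ∨ g *ᵥ x = p2 ∨ g *ᵥ x = p3) := fun x hx e => by
      have := h x hx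
      by_contra hn
      simp only [if_pos e, if_neg hn] at this
      exact absurd this (by decide)
    have s1 : p1 ∈ Sph := by simp [Sph, p1, dotProduct, Fin.sum_univ_three]
    have s2 : p2 ∈ Sph := by simp [Sph, p2, dotProduct, Fin.sum_univ_three]; norm_num
    have s3 : p3 ∈ Sph := by simp [Sph, p3, dotProduct, Fin.sum_univ_three]; norm_num
    have d12 := dot_pres (hΓ g hg) p1 p2
    have d13 := dot_pres (hΓ g hg) p1 p3
    have d23 := dot_pres (hΓ g hg) p2 p3
    have k123 : g *ᵥ p1 = p1 ∧ g *ᵥ p2 = p2 ∧ g *ᵥ p3 = p3 := by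
      rcases k p1 s1 (by simp) with a | a | a <;> rcases k p2 s2 (by simp) with b | b | b <;>
        rcases k p3 s3 (by simp) with c | c | c <;> first
        | exact ⟨a, b, c⟩
        | (exfalso
           rw [a, b] at d12
           rw [a, c] at d13
           revert d12 d13
           norm_num [p1, p2, p3, dotProduct, Fin.sum_univ_three, Matrix.cons_val_two, Matrix.vecHead,
             Matrix.vecTail])
    obtain ⟨a, b, c⟩ := k123
    have t : p3 ⬝ᵥ (p1 ⨯₃ p2) ≠ 0 := by
      simp [p1, p2, p3, cross_apply, dotProduct, Fin.sum_univ_three]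
    rcases det_pm (hΓ g hg) with d | d
    · exact fix2 (hΓ g hg) d a b fun e => t (by rw [e, dotProduct_zero])
    · have e1 := fix_cross (hΓ g hg) a b
      have e2 := dot_pres (hΓ g hg) p3 (p1 ⨯₃ p2)
      rw [c] at e2
      have e3 := congrArg (p3 ⬝ᵥ ·) e1
      simp only [dotProduct_smul, d, e2, smul_eq_mul] at e3
      exact (t (by linarith)).elim
  refine le_antisymm (Nat.sInf_le h2) (le_csInf ⟨2, h2⟩ ?_)
  rintro k ⟨c, hc⟩
  by_contra hk
  haveI : Subsingleton (Fin k) := Fin.subsingleton_iff_le_one.2 (by omega)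
  have := hc !![1, 0, 0; 0, -1, 0; 0, 0, -1] (hΓ' (mem_specialOrthogonalGroup_iff.2
    ⟨(mem_orthogonalGroup_iff _ _).2 (by
      ext i j
      fin_cases i <;> fin_cases j <;> simp [mul_apply, Fin.sum_univ_three]), by
      simp [det_fin_three]⟩)) fun x _ => Subsingleton.elim _ _
  have := congrFun (congrFun this 1) 1
  norm_num at this

end Pool.Agent.H6.Sp
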