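import Mathlib

/-! Distinguishing colourings of the 2-sphere. -/

namespace Pool.Agent.H6.Sp

open Matrix

/-- The unit sphere `S²` in `ℝ³`. -/
def Sph : Set (Fin 3 → ℝ) := {v | v ⬝ᵥ v = 1}

/-- The colouring `c` of the sphere (values off the sphere are irrelevant) is
`Γ`-distinguishing. -/
def Dist (Γ : Submonoid (Matrix (Fin 3) (Fin 3) ℝ)) (k : ℕ) (c : (Fin 3 → ℝ) → Fin k) : Prop :=
  ∀ g ∈ Γ, (∀ x ∈ Sph, c (g *ᵥ x) = c x) → g = 1

/-- The distinguishing number of `Γ` acting on the sphere. -/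
noncomputable def dnum (Γ : Submonoid (Matrix (Fin 3) (Fin 3) ℝ)) : ℕ :=
  sInf {k | ∃ c, Dist Γ k c}

/-- Every `k`-colouring of `S² \ W` extends to a `Γ`-distinguishing `k`-colouring of `S²`. -/
def Ext (Γ : Submonoid (Matrix (Fin 3) (Fin 3) ℝ)) (k : ℕ) (W : Set (Fin 3 → ℝ)) : Prop :=
  ∀ c : ↥(Sph \ W) → Fin k, ∃ c', (∀ x : ↥(Sph \ W), c' x = c x) ∧ Dist Γ k c'

end Pool.Agent.H6.Sp
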