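import Pool.Agent.H6.StbDefs

/-! A path with many long strips of width three has small tree-breadth and large strong
tree-breadth. -/

namespace Pool.Agent.H6.Stb

open SimpleGraph

section general
variable {V N : Type} {G : SimpleGraph V} {T : SimpleGraph N} {X : N → Set V}

/-- the edges of `G` inside `K` -/
def on (G : SimpleGraph V) (K : Set V) : SimpleGraph V where
  Adj u v := G.Adj u v ∧ u ∈ K ∧ v ∈ K
  symm := ⟨fun _ _ h => ⟨h.1.symm, h.2.2, h.2.1⟩⟩
  loopless := ⟨fun _ h => h.1.ne rfl⟩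

/-- the edges of `T` whose two bags share a point of `K` -/
def sh (T : SimpleGraph N) (X : N → Set V) (K : Set V) : SimpleGraph N where
  Adj i j := T.Adj i j ∧ ∃ x ∈ K, x ∈ X i ∧ x ∈ X j
  symm := ⟨fun _ _ ⟨h, x, a, b, c⟩ => ⟨h.symm, x, a, c, b⟩⟩
  loopless := ⟨fun _ h => h.1.ne rfl⟩

lemma sh_same (h : IsTD G T X) {K : Set V} {u : V} (hu : u ∈ K) {a c : N} (ha : u ∈ X a)
    (hc : u ∈ X c) : (sh T X K).Reachable a c := by
  have := (h.conn u).preconnected ⟨a, ha⟩ ⟨c, hc⟩
  exact this.map (G' := sh T X K) ⟨Subtype.val, fun {i j} hij => ⟨hij, u, hu, i.2, j.2⟩⟩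

lemma sh_reach (h : IsTD G T X) {K : Set V} {u v : V} (hr : (on G K).Reachable u v) (hu : u ∈ K)
    {a c : N} (ha : u ∈ X a) (hc : v ∈ X c) : (sh T X K).Reachable a c := by
  obtain ⟨w⟩ := hr
  induction w generalizing a with
  | nil => exact sh_same h hu ha hc
  | cons e _ ih =>
    obtain ⟨t, h1, h2⟩ := h.edge _ _ e.1
    exact (sh_same h hu ha h1).trans (ih e.2.2 h2 hc)

lemma first_edge (h : IsTD G T X) {K : Set V} {u v : V} (hr : (on G K).Reachable u v) (hu : u ∈ K)
    {c b a : N} (e : T.Adj c b) (q : T.Walk b a) (hq : (Walk.cons e q).IsPath) (hc : u ∈ X c)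
    (ha : v ∈ X a) : ∃ x ∈ K, x ∈ X c ∧ x ∈ X b := by
  classical
  obtain ⟨p, hp⟩ := (sh_reach h hr hu hc ha).exists_isPath
  have hle : sh T X K ≤ T := fun _ _ h => h.1
  have e1 := h.tree.isAcyclic.subsingleton_path c a |>.elim ⟨p.mapLe hle, hp.mapLe hle⟩ ⟨_, hq⟩
  have e2 : p.mapLe hle = Walk.cons e q := congrArg Subtype.val e1
  have e3 : s(c, b) ∈ p.edges := by
    rw [← Walk.edges_mapLe_eq_edges hle, e2]; simp
  exact (p.adj_of_mem_edges e3).2

/-- the tree given by a parent function -/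
def ptree (par : N → N) (r : N) : SimpleGraph N := fromRel fun a b => a ≠ r ∧ b = par a

lemma ptree_conn {par : N → N} {r : N} (dep : N → ℕ) (hd : ∀ a, a ≠ r → dep (par a) < dep a)
    (S : Set N) (t0 : N) (h0 : t0 ∈ S) (hS : ∀ t ∈ S, t ≠ t0 → t ≠ r ∧ par t ∈ S) :
    ((ptree par r).induce S).Connected := by
  have key : ∀ n, ∀ t : S, dep t = n → ((ptree par r).induce S).Reachable t ⟨t0, h0⟩ := by
    intro n
    induction n using Nat.strong_induction_on with
    | _ n ih =>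
      intro t ht
      by_cases e : t.1 = t0
      · rw [show t = ⟨t0, h0⟩ from Subtype.ext e]
      · obtain ⟨h1, h2⟩ := hS t t.2 e
        have h3 := hd t h1
        refine (Adj.reachable (v := ⟨par t, h2⟩) ?_).trans (ih _ (ht ▸ h3) _ rfl)
        exact ⟨fun h => by
          have h' : t.1 = par t := h
          rw [← h'] at h3; exact lt_irrefl _ h3, Or.inl ⟨h1, rfl⟩⟩
  have : Nonempty S := ⟨⟨t0, h0⟩⟩
  exact ⟨fun a b => (key _ a rfl).trans (key _ b rfl).symm⟩

lemma ptree_tree {par : N → N} {r : N} (dep : N → ℕ) (hd : ∀ a, a ≠ r → dep (par a) < dep a) :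
    (ptree par r).IsTree := by
  classical
  refine ⟨?_, fun v c hc => ?_⟩
  · exact (induceUnivIso _).connected_iff.mp
      (ptree_conn dep hd Set.univ r trivial fun t _ h => ⟨h, trivial⟩)
  · obtain ⟨m, hm, hmax⟩ := c.support.toFinset.exists_max_image dep ⟨v, by simp⟩
    rw [List.mem_toFinset] at hm
    have hc' := hc.rotate hm
    have key : ∀ y ∈ (c.rotate m hm).support, (ptree par r).Adj m y → y = par m := by
      intro y hy ha
      rcases ha.2 with h | h
      · exact h.2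
      · have := hmax y (List.mem_toFinset.mpr ((c.mem_support_rotate_iff m hm).mp hy))
        have := hd y h.1
        rw [← h.2] at this
        omega
    exact hc'.snd_ne_penultimate ((key _ (Walk.getVert_mem_support _ _)
      (Walk.adj_snd hc'.not_nil)).trans (key _ (Walk.getVert_mem_support _ _)
        (Walk.adj_penultimate hc'.not_nil).symm).symm)

end general

/-- vertices: column `x`, strip `s`, height `h` -/
@[ext] structure W (n : ℕ) where
  x : ℕ
  s : ℕ
  h : ℕ
  ok : x ≤ n ∧ s < 4 * n + 4 ∧ h ≤ n ∧ (h = 0 → s = 0) ∧ (h ≠ 0 → s / 4 ≤ x ∧ x ≤ s / 4 + 2)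

instance (n : ℕ) : Finite (W n) :=
  Finite.of_injective (β := Fin (n + 1) × Fin (4 * n + 4) × Fin (n + 1))
    (fun u => (⟨u.x, by have := u.ok; omega⟩, ⟨u.s, u.ok.2.1⟩, ⟨u.h, by have := u.ok; omega⟩))
    (fun u v h => by simp only [Prod.mk.injEq, Fin.mk.injEq] at h; exact W.ext h.1 h.2.1 h.2.2)

variable {n : ℕ}

def d (u v : W n) : ℕ := (u.x - v.x) + (v.x - u.x) +
  if u.s = v.s then (u.h - v.h) + (v.h - u.h) else u.h + v.h

def GG (n : ℕ) : SimpleGraph (W n) where
  Adj u v := d u v = 1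
  symm := ⟨fun u v h => by unfold d at *; split_ifs at * <;> omega⟩
  loopless := ⟨fun u h => by simp [d] at h⟩

lemma d_walk {u v : W n} (w : (GG n).Walk u v) : d u v ≤ w.length := by
  induction w with
  | nil => simp [d]
  | @cons a b c e _ ih =>
    have e' : d a b = 1 := e
    have := a.ok; have := b.ok; have := c.ok
    rw [Walk.length_cons]
    unfold d at *
    split_ifs at * <;> omega

lemma d_step {u v : W n} (h : d u v ≠ 0) : ∃ u', d u u' = 1 ∧ d u' v + 1 = d u v := by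
  have hu := u.ok
  have hv := v.ok
  unfold d at *
  by_cases h1 : 0 < u.h ∧ (u.s ≠ v.s ∨ v.h < u.h)
  · refine ⟨⟨u.x, if u.h = 1 then 0 else u.s, u.h - 1, by split_ifs <;> omega⟩, ?_⟩
    dsimp only
    split_ifs <;> omega
  by_cases h2 : u.x < v.x
  · refine ⟨⟨u.x + 1, u.s, u.h, by omega⟩, ?_⟩
    dsimp only
    split_ifs <;> omega
  by_cases h3 : v.x < u.x
  · refine ⟨⟨u.x - 1, u.s, u.h, by omega⟩, ?_⟩
    dsimp only
    split_ifs <;> omega
  · refine ⟨⟨u.x, v.s, u.h + 1, by split_ifs at h <;> omega⟩, ?_⟩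
    dsimp only
    split_ifs at h ⊢ <;> omega

lemma d_exists (k : ℕ) : ∀ u v : W n, d u v = k → ∃ w : (GG n).Walk u v, w.length = k := by
  induction k with
  | zero =>
    intro u v h
    have hu := u.ok
    have hv := v.ok
    have : u = v := by
      unfold d at h
      ext <;> split_ifs at h <;> omega
    subst this
    exact ⟨.nil, rfl⟩
  | succ k ih =>
    intro u v h
    obtain ⟨u', h1, h2⟩ := d_step (u := u) (v := v) (by omega)
    obtain ⟨w, hw⟩ := ih u' v (by omega)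
    exact ⟨.cons h1 w, by simp [hw]⟩

lemma mem_disk {u v : W n} {r : ℕ} : u ∈ disk (GG n) v r ↔ d u v ≤ r := by
  obtain ⟨w, hw⟩ := d_exists _ u v rfl
  constructor
  · intro h
    obtain ⟨p, hp⟩ := w.reachable.exists_walk_length_eq_edist
    have h' : (GG n).edist u v ≤ r := h
    rw [← hp] at h'
    exact (d_walk p).trans (by exact_mod_cast h')
  · intro h
    exact (edist_le w).trans (by rw [hw]; exact_mod_cast h)

def o (n : ℕ) : W n := ⟨0, 0, 0, by omega⟩

lemma GG_conn : (GG n).Connected :=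
  have : Nonempty (W n) := ⟨o n⟩
  ⟨fun u v => (d_exists _ u v rfl).choose.reachable⟩

lemma tb_le : tb (GG n) ≤ 3 := by
  apply Nat.sInf_le
  let par : Fin (4 * n + 4) × Fin (n + 2) → Fin (4 * n + 4) × Fin (n + 2) := fun t =>
    if t.2.1 = 0 then (⟨t.1.1 - 1, by omega⟩, t.2) else (t.1, ⟨t.2.1 - 1, by omega⟩)
  have hd : ∀ a, a ≠ (0, 0) → (par a).1.1 + (par a).2.1 < a.1.1 + a.2.1 := by
    rintro ⟨⟨s, hs⟩, ⟨h, hh⟩⟩ ha
    simp only [ne_eq, Prod.mk.injEq, Fin.ext_iff, Fin.val_zero] at ha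
    simp only [par]
    split_ifs <;> dsimp only <;> omega
  refine ⟨Fin (4 * n + 4) × Fin (n + 2), inferInstance, ptree par (0, 0),
    fun t => {u | t.1.1 / 4 ≤ u.x ∧ u.x ≤ t.1.1 / 4 + 2 ∧ ((u.h = 0 ∧ t.2.1 ≤ 1) ∨
      (u.h ≠ 0 ∧ u.s = t.1.1 ∧ (u.h = t.2.1 ∨ u.h + 1 = t.2.1)))},
    ⟨ptree_tree (fun a => a.1.1 + a.2.1) hd, fun v => ?_, fun u v e => ?_, fun v => ?_⟩,
    fun t => ?_⟩
  · have := v.ok
    refine ⟨(⟨if v.h = 0 then 4 * v.x else v.s, by split_ifs <;> omega⟩, ⟨v.h, by omega⟩), ?_⟩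
    by_cases e : v.h = 0 <;> simp [e] <;> omega
  · have := u.ok
    have := v.ok
    have e' : d u v = 1 := e
    unfold d at e'
    refine ⟨(⟨if u.h = 0 ∧ v.h = 0 then 4 * min u.x v.x else max u.s v.s,
      by split_ifs <;> omega⟩, ⟨max u.h v.h, by omega⟩), ?_⟩
    simp only [Set.mem_ofPred_eq]
    split_ifs at * <;> omega
  · have := v.ok
    refine ptree_conn (fun a => a.1.1 + a.2.1) hd _
      (⟨if v.h = 0 then 4 * (v.x - 2) else v.s, by split_ifs <;> omega⟩, ⟨v.h, by omega⟩) ?_ ?_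
    · by_cases e : v.h = 0 <;> simp [e] <;> omega
    · rintro ⟨⟨s, hs⟩, ⟨h, hh⟩⟩ ht hne
      simp only [ne_eq, Prod.mk.injEq, Fin.ext_iff, Fin.val_zero, Set.mem_ofPred_eq, par] at *
      split_ifs at * <;> dsimp only <;> omega
  · obtain ⟨⟨s, hs⟩, ⟨h, hh⟩⟩ := t
    refine ⟨⟨s / 4, if h ≤ 1 then 0 else s, h - 1, by split_ifs <;> omega⟩, fun u hu => ?_⟩
    rw [mem_disk]
    have := u.ok
    simp only [Set.mem_ofPred_eq, d] at hu ⊢
    split_ifs <;> omega

lemma base_conn (u v : W n) (hu : u.h = 0) (hv : v.h = 0) :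
    (on (GG n) {u | u.h = 0}).Reachable u v := by
  have key : ∀ k, ∀ u : W n, u.h = 0 → u.x = k → (on (GG n) {u | u.h = 0}).Reachable u (o n) := by
    intro k
    induction k with
    | zero =>
      intro u h1 h2
      have := u.ok
      rw [show u = o n by ext <;> simp [o] <;> omega]
    | succ k ih =>
      intro u h1 h2
      have := u.ok
      refine (Adj.reachable (G := on (GG n) {u | u.h = 0}) (v := ⟨k, 0, 0, by omega⟩)
        ⟨?_, h1, rfl⟩).trans (ih _ rfl rfl)
      show d _ _ = 1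
      simp only [d]
      split_ifs <;> omega
  exact (key _ u hu rfl).trans (key _ v hv rfl).symm

/-- the part of strip `s` where `Q` holds -/
def KK (n s : ℕ) (Q : ℕ → ℕ → Prop) : Set (W n) :=
  {u | (u.s = s ∨ u.h = 0) ∧ s / 4 ≤ u.x ∧ u.x ≤ s / 4 + 2 ∧ Q u.x u.h}

lemma strip_conn (hn : 0 < n) {s : ℕ} (hs : s < 4 * n + 4) (Q : ℕ → ℕ → Prop)
    (hm : ∀ x h, Q x h → Q x (h + 1)) (ht : ∀ x, Q x n) (u v : W n) (hu : u ∈ KK n s Q)
    (hv : v ∈ KK n s Q) : (on (GG n) (KK n s Q)).Reachable u v := by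
  have key : ∀ k, ∀ u : W n, u ∈ KK n s Q → (n - u.h) + (u.x - s / 4) = k →
      (on (GG n) (KK n s Q)).Reachable u ⟨s / 4, s, n, by omega⟩ := by
    intro k
    induction k with
    | zero =>
      intro u h1 h2
      have := u.ok
      have := h1.1
      have := h1.2.1
      rw [show u = ⟨s / 4, s, n, by omega⟩ by ext <;> simp <;> omega]
    | succ k ih =>
      intro u h1 h2
      have := u.ok
      obtain ⟨a1, a2, a3, a4⟩ := id h1
      by_cases e : u.h < n
      · have m : (⟨u.x, s, u.h + 1, by omega⟩ : W n) ∈ KK n s Q := ⟨Or.inl rfl, a2, a3, hm _ _ a4⟩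
        refine (Adj.reachable (G := on (GG n) (KK n s Q)) ⟨?_, h1, m⟩).trans
          (ih _ m (by dsimp only; omega))
        show d _ _ = 1
        simp only [d]
        split_ifs <;> omega
      · have m : (⟨u.x - 1, s, n, by omega⟩ : W n) ∈ KK n s Q :=
          ⟨Or.inl rfl, by dsimp only; omega, by dsimp only; omega, ht _⟩
        refine (Adj.reachable (G := on (GG n) (KK n s Q)) ⟨?_, h1, m⟩).trans
          (ih _ m (by dsimp only; omega))
        show d _ _ = 1
        simp only [d]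
        split_ifs <;> omega
  exact (key _ u hu rfl).trans (key _ v hv rfl).symm

end Pool.Agent.H6.Stb
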