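import Pool.Agent.H6.Stb

/-! No strong decomposition of small radius. -/

namespace Pool.Agent.H6.Stb

open SimpleGraph

variable {n : ℕ}

def ad (a b : ℕ) : ℕ := (a - b) + (b - a)

lemma ad_tri (a b c : ℕ) : ad a c ≤ ad a b + ad b c := by unfold ad; omega
lemma ad_comm (a b : ℕ) : ad a b = ad b a := by unfold ad; omega
lemma ad_self (a : ℕ) : ad a a = 0 := by simp [ad]
lemma ad_le {a b : ℕ} (h : a ≤ b) : ad a b = b - a := by unfold ad; omega
lemma ad_ge {a b : ℕ} (h : b ≤ a) : ad a b = a - b := by unfold ad; omega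

lemma d_fresh {u v : W n} (h : u.s ≠ v.s ∨ u.h = 0) : d u v = ad u.x v.x + v.h + u.h := by
  unfold d ad; split_ifs <;> omega

lemma cross {xc hc xq hq r : ℕ} (l : xc < xq) (c1 : hc < xq - xc + hq) (c2 : hq < xq - xc + hc)
    (hy : xq - xc + hc + hq ≤ 2 * r) : ∃ z z', xc ≤ z ∧ z ≤ z' ∧ z' ≤ z + 2 ∧ z' ≤ xq ∧
      ad z xc + hc ≤ r ∧ ad z' xq + hq ≤ r ∧ ad z xc + hc < ad z xq + hq ∧
      ad z' xq + hq < ad z' xc + hc := by
  obtain ⟨z, hz⟩ : ∃ z, z = (xc + xq + hq - hc - 1) / 2 := ⟨_, rfl⟩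
  obtain ⟨z', hz'⟩ : ∃ z, z = (xc + xq + hq - hc) / 2 + 1 := ⟨_, rfl⟩
  have a1 : xc ≤ z := by omega
  have a2 : z ≤ z' := by omega
  have a3 : z' ≤ xq := by omega
  refine ⟨z, z', a1, a2, by omega, a3, ?_⟩
  rw [ad_ge a1, ad_le a3, ad_le (a2.trans a3), ad_ge (a1.trans a2)]
  omega

lemma cross' {xc hc xq hq r y : ℕ} (c1 : ¬ ad xc xq + hq ≤ hc) (c2 : ¬ ad xq xc + hc ≤ hq)
    (y1 : ad y xc + hc ≤ r) (y2 : ad y xq + hq ≤ r) (n1 : xc ≤ n) (n2 : xq ≤ n) :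
    ∃ z z' t, z ≤ n ∧ z' ≤ n ∧ t ≤ z ∧ z ≤ t + 2 ∧ t ≤ z' ∧ z' ≤ t + 2 ∧
      ad z xc + hc ≤ r ∧ ad z' xq + hq ≤ r ∧ ad z xc + hc < ad z xq + hq ∧
      ad z' xq + hq < ad z' xc + hc := by
  have t1 := ad_tri xc y xq
  rw [ad_comm xc y] at t1
  rw [ad_comm xq xc] at c2
  rcases lt_trichotomy xc xq with l | l | l
  · rw [ad_le l.le] at c1 c2 t1
    obtain ⟨z, z', h⟩ := cross (r := r) l (not_le.mp c1) (not_le.mp c2) (by omega)
    exact ⟨z, z', z, by omega, by omega, le_rfl, by omega, h.2.1, h.2.2.1, h.2.2.2.2⟩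
  · subst l; rw [ad_self] at c1 c2; omega
  · rw [ad_ge l.le] at c1 c2 t1
    obtain ⟨z, z', h⟩ := cross (r := r) l (not_le.mp c2) (not_le.mp c1) (by omega)
    exact ⟨z', z, z, by omega, by omega, h.2.1, h.2.2.1, le_rfl, by omega, h.2.2.2.2.2.1,
      h.2.2.2.2.1, h.2.2.2.2.2.2.2, h.2.2.2.2.2.2.1⟩

lemma fresh (t a b c : ℕ) : ∃ s, s / 4 = t ∧ s ≠ a ∧ s ≠ b ∧ s ≠ c := by
  by_contra hh
  push Not at hh
  have := hh (4 * t) (by omega)
  have := hh (4 * t + 1) (by omega)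
  have := hh (4 * t + 2) (by omega)
  have := hh (4 * t + 3) (by omega)
  omega

def pt (s x k : ℕ) (h1 : x ≤ n) (h2 : s / 4 ≤ x) (h3 : x ≤ s / 4 + 2) (h4 : k ≤ n) : W n :=
  ⟨x, if k = 0 then 0 else s, k, by split_ifs <;> omega⟩

lemma pt_or (s x k : ℕ) (h1 : x ≤ n) (h2 : s / 4 ≤ x) (h3 : x ≤ s / 4 + 2) (h4 : k ≤ n) :
    (pt s x k h1 h2 h3 h4).s = s ∨ (pt s x k h1 h2 h3 h4).h = 0 := by
  by_cases e : k = 0 <;> simp [pt, e]

/-- `v` dominates `u` -/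
def dom (u v : W n) : Prop := ad u.x v.x + v.h ≤ u.h

lemma dom_refl (u : W n) : dom u u := by simp [dom, ad_self]

lemma dom_trans {u v w : W n} (h : dom u v) (h' : dom v w) : dom u w := by
  have := ad_tri u.x v.x w.x
  unfold dom at *; omega

lemma no_strong {r : ℕ} (hr : 2 * r < n) {N : Type} {T : SimpleGraph N} {X : N → Set (W n)}
    (h : IsTD (GG n) T X) (p : N → W n) (hp : ∀ t, X t = disk (GG n) (p t) r) : False := by
  classical
  have mem : ∀ t (u : W n), (u.s ≠ (p t).s ∨ u.h = 0) →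
      (u ∈ X t ↔ ad u.x (p t).x + (p t).h + u.h ≤ r) :=
    fun t u hu => by rw [hp, mem_disk, d_fresh hu]
  have key : ∀ (c a : N) (w : T.Walk c a), w.IsPath → (∃ u ∈ X c, u.h = 0) →
      (∃ u ∈ X a, u.h = 0) → ∃ q ∈ w.support, dom (p a) (p q) ∧ dom (p c) (p q) := by
    intro c a w
    induction w with
    | nil => intro _ _ _; exact ⟨_, by simp, dom_refl _, dom_refl _⟩
    | @cons c b a e w ih =>
      rintro hw ⟨u, hu, hu0⟩ ⟨v, hv, hv0⟩
      obtain ⟨y, y0, yc, yb⟩ := first_edge h (base_conn u v hu0 hv0) hu0 e w hw hu hv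
      obtain ⟨q, hq, d1, d2⟩ := ih hw.of_cons ⟨y, yb, y0⟩ ⟨v, hv, hv0⟩
      by_cases c1 : dom (p c) (p q)
      · exact ⟨q, by simp [hq], d1, c1⟩
      by_cases c2 : dom (p q) (p c)
      · exact ⟨c, by simp, dom_trans d1 c2, dom_refl _⟩
      exfalso
      have y0' : y.h = 0 := y0
      rw [mem _ _ (Or.inr y0')] at yc yb
      have t1 := ad_tri y.x (p b).x (p q).x
      have d2' : ad (p b).x (p q).x + (p q).h ≤ (p b).h := d2
      obtain ⟨z, z', t, z1, z2, z3, z4, z5, z6, z7, z8, z9, z10⟩ := cross' (r := r) (y := y.x) c1 c2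
        (by omega) (by omega) (p c).ok.1 (p q).ok.1
      obtain ⟨s, rfl, s1, s2, s3⟩ := fresh t (p c).s (p b).s (p q).s
      have fr : ∀ (u : W n) (j : N), (u.s = s ∨ u.h = 0) → s ≠ (p j).s →
          (u.s ≠ (p j).s ∨ u.h = 0) := fun u j h1 h2 => h1.imp_left fun h h' => h2 (h.symm.trans h')
      have m1 : pt s z (r - (ad z (p c).x + (p c).h)) z1 z3 z4 (by omega) ∈ KK n s
          (fun x k => r < ad x (p c).x + (p c).h + k ∨ r < ad x (p q).x + (p q).h + k) :=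
        ⟨pt_or .., z3, z4, Or.inr (by simp only [pt]; omega)⟩
      have m2 : pt s z' (r - (ad z' (p q).x + (p q).h)) z2 z5 z6 (by omega) ∈ KK n s
          (fun x k => r < ad x (p c).x + (p c).h + k ∨ r < ad x (p q).x + (p q).h + k) :=
        ⟨pt_or .., z5, z6, Or.inl (by simp only [pt]; omega)⟩
      obtain ⟨x, xK, xc, xb⟩ := first_edge h (strip_conn (by omega) (s := s) (by omega) _
        (fun x k hk => by omega) (fun x => by omega) _ _ m1 m2) m1 e (w.takeUntil q hq)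
        (by
          rw [Walk.cons_isPath_iff] at hw ⊢
          exact ⟨hw.1.takeUntil hq, fun h => hw.2 (w.support_takeUntil_subset_support hq h)⟩)
        (by rw [mem _ _ (fr _ _ (pt_or ..) s1)]; simp only [pt]; omega)
        (by rw [mem _ _ (fr _ _ (pt_or ..) s3)]; simp only [pt]; omega)
      rw [mem _ _ (fr _ _ xK.1 s1)] at xc
      rw [mem _ _ (fr _ _ xK.1 s2)] at xb
      have t2 := ad_tri x.x (p b).x (p q).x
      have := xK.2.2.2
      omega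
  obtain ⟨a, ha⟩ := h.cover (o n)
  obtain ⟨c, hc⟩ := h.cover ⟨n, 0, 0, by omega⟩
  obtain ⟨w, hw⟩ := (h.tree.connected.preconnected c a).exists_isPath
  obtain ⟨q, -, d1, d2⟩ := key c a w hw ⟨_, hc, rfl⟩ ⟨_, ha, rfl⟩
  rw [mem _ _ (Or.inr rfl)] at ha hc
  simp only [o] at ha hc
  unfold dom ad at *
  omega

theorem stb_gt (R : ℕ) : R < stb (GG (2 * R + 1)) := by
  refine Nat.succ_le_iff.mp (le_csInf ?_ ?_)
  · refine ⟨4 * R + 2, Unit, inferInstance, ⊥, fun _ => Set.univ,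
      ⟨IsTree.of_subsingleton, fun _ => ⟨(), trivial⟩, fun _ _ _ => ⟨(), trivial, trivial⟩,
        fun _ => @Connected.mk _ _ (fun a b => by rw [Subsingleton.elim a b]) ⟨⟨(), trivial⟩⟩⟩,
      fun _ => ⟨o _, trivial, (Set.eq_univ_of_forall fun u => ?_).symm⟩⟩
    rw [mem_disk]
    have := u.ok
    simp only [d, o]
    split_ifs <;> omega
  · rintro r ⟨N, -, T, X, h, hX⟩
    choose p _ hp using hX
    by_contra hh
    exact no_strong (r := r) (by omega) h p hp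

end Pool.Agent.H6.Stb
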