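import Mathlib

/-! Tree-breadth and strong tree-breadth. -/

namespace Pool.Agent.H6.Stb

/-- `(T, X)` is a tree-decomposition of `G`. -/
structure IsTD {V N : Type} (G : SimpleGraph V) (T : SimpleGraph N) (X : N → Set V) : Prop where
  tree : T.IsTree
  cover : ∀ v, ∃ t, v ∈ X t
  edge : ∀ u v, G.Adj u v → ∃ t, u ∈ X t ∧ v ∈ X t
  conn : ∀ v, (T.induce {t | v ∈ X t}).Connected

/-- The disk `D_r(v, G)`. -/
def disk {V : Type} (G : SimpleGraph V) (v : V) (r : ℕ) : Set V := {u | G.edist u v ≤ r}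

/-- Tree-breadth: every bag is contained in a disk of radius `r`. -/
noncomputable def tb {V : Type} (G : SimpleGraph V) : ℕ :=
  sInf {r | ∃ (N : Type) (_ : Finite N) (T : SimpleGraph N) (X : N → Set V),
    IsTD G T X ∧ ∀ t, ∃ v, X t ⊆ disk G v r}

/-- Strong tree-breadth: every bag equals a disk of radius `r` centred at one of its vertices. -/
noncomputable def stb {V : Type} (G : SimpleGraph V) : ℕ :=
  sInf {r | ∃ (N : Type) (_ : Finite N) (T : SimpleGraph N) (X : N → Set V),
    IsTD G T X ∧ ∀ t, ∃ v ∈ X t, X t = disk G v r}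

end Pool.Agent.H6.Stb
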