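import Pool.Agent.H6.SubCxDefs

namespace Pool.Agent.H6.SubCx
open Finset

variable {k : ℕ} (w : List (Fin k))

def Fs : Finset (List (Fin k)) := w.sublists.toFinset.filter (· <:+: w)

lemma mem_Fs {w u : List (Fin k)} : u ∈ Fs w ↔ u <:+: w := by
  simp only [Fs, mem_filter, List.mem_toFinset, List.mem_sublists]
  exact ⟨fun h => h.2, fun h => ⟨h.sublist, h⟩⟩

def R (y : List (Fin k)) : ℕ := #{b | y ++ [b] ∈ Fs w}
def L (y : List (Fin k)) : ℕ := #{a | a :: y ∈ Fs w}
def occ (z : List (Fin k)) : ℕ := #{i ∈ range (w.length + 1) | z <+: w.drop i}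
def beta (u : List (Fin k)) : ℕ := ∑ a, R w (a :: u) + 1 - R w u - L w u
def lt (v : List (Fin k)) : Finset (Fin k) := {a | 2 * occ w (a :: v) ≤ occ w v}

lemma R_zero {w y : List (Fin k)} (h : y ∉ Fs w) : R w y = 0 :=
  card_eq_zero.2 (filter_eq_empty_iff.2 fun _ _ hb =>
    h (mem_Fs.2 ((List.prefix_append _ _).isInfix.trans (mem_Fs.1 hb))))

lemma R_cons (a : Fin k) (y : List (Fin k)) : R w (a :: y) ≤ R w y :=
  card_le_card fun b hb => by
    simp only [mem_filter, mem_univ, true_and, mem_Fs] at hb ⊢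
    exact (List.suffix_cons a _).isInfix.trans hb

lemma leaf {w y : List (Fin k)} (hy : y ∈ Fs w) (h : R w y = 0) : y <:+ w := by
  obtain ⟨s, t, e⟩ := mem_Fs.1 hy
  rcases t with _ | ⟨b, t⟩
  · exact ⟨s, by simpa using e⟩
  · exact absurd (mem_Fs.2 ⟨s, t, by simpa using e⟩)
      (filter_eq_empty_iff.1 (card_eq_zero.1 h) (mem_univ b))

lemma whole {w y : List (Fin k)} (hy : y ∈ Fs w) (h : R w y = 0) (h' : L w y = 0) : y = w := by
  obtain ⟨s, e⟩ := leaf hy h
  rcases List.eq_nil_or_concat s with rfl | ⟨s, a, rfl⟩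
  · simpa using e
  · exact absurd (mem_Fs.2 ⟨s, [], by simpa using e⟩)
      (filter_eq_empty_iff.1 (card_eq_zero.1 h') (mem_univ a))

lemma trie (z : List (Fin k)) : ∑ y ∈ Fs w with z <+: y, (R w y - 1) ≤ occ w z := by
  set S := (Fs w).filter (z <+: ·) with hS
  have h1 : ∑ y ∈ S, R w y ≤ #S := by
    simp only [R]
    rw [← card_sigma]
    refine card_le_card_of_injOn (fun p => p.1 ++ [p.2]) (fun p hp => ?_) ?_
    · simp only [hS, coe_filter, mem_coe, mem_sigma, mem_filter, mem_univ, true_and,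
        Set.mem_ofPred_eq] at hp ⊢
      exact ⟨hp.2, hp.1.2.trans (List.prefix_append _ _)⟩
    · rintro ⟨y, b⟩ - ⟨y', b'⟩ - e
      obtain ⟨rfl, h⟩ := List.append_inj' e rfl
      cases h; rfl
  have h2 : #{y ∈ S | R w y = 0} ≤ occ w z := by
    have hd : ∀ y ∈ S.filter (R w · = 0), y = w.drop (w.length - y.length) := fun y hy =>
      List.suffix_iff_eq_drop.1 (leaf (mem_filter.1 (mem_filter.1 hy).1).1 (mem_filter.1 hy).2)
    refine card_le_card_of_injOn (fun y => w.length - y.length) (fun y hy => ?_)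
      fun y hy y' hy' e => ?_
    · simp only [coe_filter, mem_range, Set.mem_ofPred_eq]
      exact ⟨by omega, hd y hy ▸ (mem_filter.1 (mem_filter.1 hy).1).2⟩
    · rw [hd y hy, hd y' hy']; exact congrArg (w.drop ·) e
  have h3 : ∑ y ∈ S, (R w y - 1) + #S = ∑ y ∈ S, R w y + #{y ∈ S | R w y = 0} := by
    rw [card_filter (fun y => R w y = 0) S, card_eq_sum_ones S, ← sum_add_distrib, ← sum_add_distrib]
    exact sum_congr rfl fun y _ => by split_ifs <;> omega
  omega

lemma occ_sum (v : List (Fin k)) : ∑ a, occ w (a :: v) ≤ occ w v := by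
  simp only [occ]
  rw [← card_sigma]
  have key : ∀ (a : Fin k) i, a :: v <+: w.drop i → ∃ h : i < w.length, w[i] = a ∧
      v <+: w.drop (i + 1) := by
    intro a i h
    have hi : i < w.length := by
      have := h.length_le; simp at this; omega
    rw [List.drop_eq_getElem_cons hi, List.cons_prefix_cons] at h
    exact ⟨hi, h.1.symm, h.2⟩
  refine card_le_card_of_injOn (fun p => p.2 + 1) (fun p hp => ?_) ?_
  · simp only [coe_filter, mem_coe, mem_sigma, mem_filter, mem_univ, true_and,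
      Set.mem_ofPred_eq, mem_range] at hp ⊢
    obtain ⟨h1, -, h2⟩ := key _ _ hp.2
    exact ⟨by omega, h2⟩
  · rintro ⟨a, i⟩ h ⟨b, j⟩ h' e
    obtain rfl : i = j := by simpa using e
    obtain ⟨_, h1, -⟩ := key _ _ (mem_filter.1 (mem_sigma.1 h).2).2
    obtain ⟨_, h2, -⟩ := key _ _ (mem_filter.1 (mem_sigma.1 h').2).2
    obtain rfl : a = b := h1.symm.trans h2
    rfl

lemma light : ∑ v ∈ Fs w, ∑ a ∈ lt w v, occ w (a :: v) ≤
    (w.length + 1) * Nat.log 2 (w.length + 1) := by
  set g : List (Fin k) → ℕ := fun y => occ w y * Nat.log 2 (occ w y) with hg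
  have h1 : ∀ v, ∑ a, g (a :: v) + ∑ a ∈ lt w v, occ w (a :: v) ≤ g v := by
    intro v
    rw [lt, sum_filter, ← sum_add_distrib]
    refine le_trans (sum_le_sum fun a _ => ?_)
      ((sum_mul ..).symm.trans_le (Nat.mul_le_mul_right (Nat.log 2 (occ w v)) (occ_sum w v)))
    have h0 : occ w (a :: v) ≤ occ w v :=
      (single_le_sum (f := fun a => occ w (a :: v)) (fun _ _ => Nat.zero_le _)
        (mem_univ a)).trans (occ_sum w v)
    split_ifs with c
    · by_cases z : occ w (a :: v) = 0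
      · simp [hg, z]
      · rw [hg, ← Nat.mul_succ]
        refine Nat.mul_le_mul_left _ ?_
        rw [Nat.succ_eq_add_one, ← Nat.log_mul_base (by norm_num) z]
        exact Nat.log_mono_right (by omega)
    · exact Nat.mul_le_mul_left _ (Nat.log_mono_right h0)
  have h2 : ∑ y ∈ (Fs w).erase [], g y ≤ ∑ v ∈ Fs w, ∑ a, g (a :: v) := by
    rw [← sum_product', ← sum_image (s := Fs w ×ˢ univ) (g := fun p => p.2 :: p.1) (f := g)
      fun p _ q _ e => Prod.ext (List.cons.inj e).2 (List.cons.inj e).1]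
    refine sum_le_sum_of_subset fun y hy => ?_
    obtain ⟨a, v, rfl⟩ := List.exists_cons_of_ne_nil (mem_erase.1 hy).1
    exact mem_image.2 ⟨(v, a), mem_product.2 ⟨mem_Fs.2
      ((List.suffix_cons a _).isInfix.trans (mem_Fs.1 (mem_erase.1 hy).2)), mem_univ _⟩, rfl⟩
  have h3 := add_sum_erase (Fs w) g (mem_Fs.2 (List.nil_infix : [] <:+: w))
  have h4 := sum_le_sum fun v (_ : v ∈ Fs w) => h1 v
  rw [sum_add_distrib] at h4
  have h5 : g [] = (w.length + 1) * Nat.log 2 (w.length + 1) := by simp [hg, occ]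
  omega

lemma beta_le {w u : List (Fin k)} (hu : u ∈ Fs w) (v : List (Fin k)) :
    beta w u ≤ ∑ a ∈ lt w v, (R w (a :: u) - 1) + if u = w then 1 else 0 := by
  have hL : L w u = ∑ a, if a :: u ∈ Fs w then 1 else 0 := by rw [L, card_filter]
  have hp : ∀ a, R w (a :: u) ≤ (R w (a :: u) - 1) + if a :: u ∈ Fs w then 1 else 0 := by
    intro a
    split_ifs with c
    · omega
    · rw [R_zero c]
  rw [lt, sum_filter, beta]
  by_cases h : ∃ a, a :: u ∈ Fs w ∧ ¬ 2 * occ w (a :: v) ≤ occ w v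
  · obtain ⟨a, h1, h2⟩ := h
    have h3 : ∀ b ∈ univ.erase a, 2 * occ w (b :: v) ≤ occ w v := by
      intro b hb
      have := (sum_le_sum_of_subset (f := fun a => occ w (a :: v))
        (subset_univ {b, a})).trans (occ_sum w v)
      rw [sum_pair (mem_erase.1 hb).1] at this
      omega
    rw [hL, ← add_sum_erase _ _ (mem_univ a), ← add_sum_erase _ _ (mem_univ a),
      ← add_sum_erase _ _ (mem_univ a), if_pos h1, if_neg h2,
      sum_congr rfl fun b hb => if_pos (h3 b hb)]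
    have h4 := sum_le_sum fun b (_ : b ∈ univ.erase a) => hp b
    rw [sum_add_distrib] at h4
    have := R_cons w a u
    omega
  · push Not at h
    have h4 : ∑ a, R w (a :: u) ≤ ∑ a, ((if 2 * occ w (a :: v) ≤ occ w v then R w (a :: u) - 1
        else 0) + if a :: u ∈ Fs w then 1 else 0) := by
      refine sum_le_sum fun a _ => ?_
      by_cases c : a :: u ∈ Fs w
      · rw [if_pos (h a c)]; exact hp a
      · rw [R_zero c]; exact Nat.zero_le _
    rw [sum_add_distrib, ← hL] at h4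
    by_cases r : R w u = 0
    · have h5 : ∑ a, R w (a :: u) = 0 :=
        sum_eq_zero fun a _ => by have := R_cons w a u; omega
      by_cases l : L w u = 0
      · rw [if_pos (whole hu r l)]; omega
      · omega
    · omega

lemma weighted : ∑ u ∈ Fs w, (u.length + 1) * beta w u ≤
    (w.length + 1) * (Nat.log 2 (w.length + 1) + 1) := by
  have h1 : ∀ u ∈ Fs w, (u.length + 1) * beta w u ≤
      ∑ v ∈ Fs w, (if v <+: u then ∑ a ∈ lt w v, (R w (a :: u) - 1) else 0) +
        if u = w then w.length + 1 else 0 := by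
    intro u hu
    rw [← sum_filter]
    have e : (Fs w).filter (· <+: u) = (range (u.length + 1)).image (u.take ·) := by
      ext v
      simp only [mem_filter, mem_image, mem_range]
      constructor
      · rintro ⟨-, h⟩
        exact ⟨v.length, by have := h.length_le; omega, (List.prefix_iff_eq_take.1 h).symm⟩
      · rintro ⟨i, -, rfl⟩
        exact ⟨mem_Fs.2 ((List.take_prefix _ _).isInfix.trans (mem_Fs.1 hu)), List.take_prefix _ _⟩
    have c : #((Fs w).filter (· <+: u)) = u.length + 1 := by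
      rw [e, card_image_of_injOn, card_range]
      intro i hi j hj h
      have := congrArg List.length h
      simp at this hi hj; omega
    have := sum_le_sum fun v (_ : v ∈ (Fs w).filter (· <+: u)) => beta_le hu v
    rw [sum_const, sum_add_distrib, sum_const, c, smul_eq_mul, smul_eq_mul] at this
    refine this.trans (add_le_add le_rfl ?_)
    split_ifs with d
    · rw [d, mul_one]
    · simp
  refine (sum_le_sum h1).trans ?_
  rw [sum_add_distrib, sum_comm, sum_ite_eq', if_pos (mem_Fs.2 (List.infix_refl w)), mul_add,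
    mul_one]
  refine add_le_add ((sum_le_sum fun v _ => ?_).trans (light w)) le_rfl
  rw [← sum_filter, sum_comm]
  refine sum_le_sum fun a _ => le_trans ?_ (trie w (a :: v))
  rw [← sum_image (g := fun u => a :: u) (f := fun y => R w y - 1)
    fun p _ q _ e => (List.cons.inj e).2]
  refine sum_le_sum_of_ne_zero fun y hy h => ?_
  obtain ⟨u, hu, rfl⟩ := mem_image.1 hy
  refine mem_filter.2 ⟨by_contra fun c => h (by rw [R_zero c]; rfl), ?_⟩
  exact List.cons_prefix_cons.2 ⟨rfl, (mem_filter.1 hu).2⟩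

def Fm (m : ℕ) : Finset (List (Fin k)) := (Fs w).filter (·.length = m)

lemma cx_eq (m : ℕ) : cx w m = #(Fm w m) := by
  rw [cx, ← Set.ncard_coe_finset]; congr 1; ext u; simp [Fm, mem_Fs, and_comm]

lemma sum_cons (m : ℕ) (f : List (Fin k) → ℕ) (hf : ∀ y, y ∉ Fs w → f y = 0) :
    ∑ y ∈ Fm w (m + 1), f y = ∑ u ∈ Fm w m, ∑ a, f (a :: u) := by
  rw [← sum_product', ← sum_image (s := Fm w m ×ˢ univ) (g := fun p => p.2 :: p.1) (f := f)
      fun p _ q _ e => Prod.ext (List.cons.inj e).2 (List.cons.inj e).1]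
  refine sum_subset (fun y hy => ?_) fun y hy h => hf y fun c => h ?_
  · obtain ⟨h1, h2⟩ := mem_filter.1 hy
    obtain ⟨a, v, rfl⟩ := List.exists_cons_of_length_eq_add_one h2
    exact mem_image.2 ⟨(v, a), mem_product.2 ⟨mem_filter.2 ⟨mem_Fs.2
      ((List.suffix_cons a _).isInfix.trans (mem_Fs.1 h1)), by simpa using h2⟩, mem_univ _⟩, rfl⟩
  · obtain ⟨p, hp, rfl⟩ := mem_image.1 hy
    exact mem_filter.2 ⟨c, by simpa using (mem_filter.1 (mem_product.1 hp).1).2⟩

lemma sum_L (m : ℕ) : cx w (m + 1) = ∑ u ∈ Fm w m, L w u := by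
  have := sum_cons w m (fun y => if y ∈ Fs w then 1 else 0) fun y h => if_neg h
  rw [sum_congr rfl fun y (hy : y ∈ Fm w (m + 1)) => if_pos (mem_filter.1 hy).1,
    ← card_eq_sum_ones] at this
  rw [cx_eq, this]
  exact sum_congr rfl fun u _ => (card_filter _ _).symm

lemma sum_R (m : ℕ) : cx w (m + 1) = ∑ u ∈ Fm w m, R w u := by
  simp only [R]
  rw [cx_eq, ← card_sigma]
  symm
  refine card_bij (fun p _ => p.1 ++ [p.2]) (fun p hp => ?_) ?_ fun y hy => ?_
  · obtain ⟨h1, h2⟩ := mem_sigma.1 hp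
    exact mem_filter.2 ⟨(mem_filter.1 h2).2, by simpa using (mem_filter.1 h1).2⟩
  · rintro ⟨y, b⟩ - ⟨y', b'⟩ - e
    obtain ⟨rfl, h⟩ := List.append_inj' e rfl
    cases h; rfl
  · obtain ⟨h1, h2⟩ := mem_filter.1 hy
    rcases List.eq_nil_or_concat y with rfl | ⟨v, b, rfl⟩
    · simp at h2
    · rw [List.concat_eq_append] at h1 h2 ⊢
      exact ⟨⟨v, b⟩, mem_sigma.2 ⟨mem_filter.2 ⟨mem_Fs.2
        ((List.prefix_append _ _).isInfix.trans (mem_Fs.1 h1)), by simpa using h2⟩,
        mem_filter.2 ⟨mem_univ _, h1⟩⟩, rfl⟩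

def pos (p : ℕ → ℕ) (m : ℕ) : ℕ := p (m + 2) + p m - 2 * p (m + 1)
def neg (p : ℕ → ℕ) (m : ℕ) : ℕ := 2 * p (m + 1) - (p (m + 2) + p m)

lemma pos_le (m : ℕ) : pos (cx w) m ≤ ∑ u ∈ Fm w m, beta w u := by
  have h1 := sum_R w (m + 1)
  rw [sum_cons w m _ fun y h => R_zero h] at h1
  have h2 := sum_le_sum fun u (_ : u ∈ Fm w m) =>
    (by rw [beta]; omega : ∑ a, R w (a :: u) + 1 ≤ beta w u + R w u + L w u)
  simp only [sum_add_distrib] at h2
  rw [← sum_R, ← sum_L, ← h1, ← card_eq_sum_ones, ← cx_eq] at h2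
  rw [pos, show m + 2 = m + 1 + 1 from rfl]; omega

lemma tele (p : ℕ → ℕ) (N : ℕ) : ∑ m ∈ range N, (m + 1) * neg p m + N * p (N + 1) + p 0 =
    ∑ m ∈ range N, (m + 1) * pos p m + (N + 1) * p N := by
  induction N with
  | zero => simp
  | succ N ih =>
    rw [sum_range_succ, sum_range_succ]
    have : neg p N + (p (N + 2) + p N) = pos p N + 2 * p (N + 1) := by rw [neg, pos]; omega
    have := congrArg ((N + 1) * ·) this
    simp only [mul_add] at this
    rw [show N + 1 + 1 = N + 2 from rfl]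
    nlinarith

lemma both : ∑ m ∈ range (w.length + 1), (m + 1) * pos (cx w) m ≤
      (w.length + 1) * (Nat.log 2 (w.length + 1) + 1) ∧
    ∑ m ∈ range (w.length + 1), (m + 1) * neg (cx w) m ≤
      (w.length + 1) * (Nat.log 2 (w.length + 1) + 1) := by
  have h1 : ∑ m ∈ range (w.length + 1), (m + 1) * pos (cx w) m ≤
      (w.length + 1) * (Nat.log 2 (w.length + 1) + 1) := by
    refine le_trans ?_ (weighted w)
    rw [← sum_fiberwise_of_maps_to (s := Fs w) (t := range (w.length + 1)) (g := List.length)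
      fun u hu => mem_range.2 (by have := (mem_Fs.1 hu).length_le; omega)]
    refine sum_le_sum fun m _ => (Nat.mul_le_mul_left _ (pos_le w m)).trans (le_of_eq ?_)
    rw [mul_sum]
    exact sum_congr rfl fun u hu => by rw [(mem_filter.1 hu).2]
  have h2 := tele (cx w) (w.length + 1)
  have h3 : cx w (w.length + 1) = 0 := by
    rw [cx_eq, card_eq_zero]
    exact filter_eq_empty_iff.2 fun u hu => by have := (mem_Fs.1 hu).length_le; omega
  rw [h3] at h2
  exact ⟨h1, by omega⟩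

lemma cx_zero : cx w 0 = 1 := by
  rw [cx, Set.ncard_eq_one]; exact ⟨[], by ext u; simp; rintro rfl; simp⟩

lemma cx_one : cx w 1 ≤ k := by
  rw [sum_R, show Fm w 0 = {[]} by ext u; simp [Fm, mem_Fs]; rintro rfl; simp, sum_singleton]
  exact (card_le_univ _).trans (by simp)

def C (N X : ℕ) : Finset (Fin N → ℕ) :=
  (Fintype.piFinset fun _ => range (X + 1)).filter fun c => ∑ m : Fin N, (m + 1) * c m ≤ X

lemma mem_C {N X : ℕ} (f : ℕ → ℕ) (h : ∑ m ∈ range N, (m + 1) * f m ≤ X) :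
    (fun m : Fin N => f m) ∈ C N X := by
  rw [sum_range] at h
  refine mem_filter.2 ⟨Fintype.mem_piFinset.2 fun m => mem_range.2 ?_, h⟩
  have := single_le_sum (f := fun m : Fin N => (m + 1) * f m) (fun _ _ => Nat.zero_le _)
    (mem_univ m)
  nlinarith

lemma card_C (N X T : ℕ) (hT : 0 < T) :
    (#(C N X) : ℝ) ≤ 8 ^ (X / T) * ((X + 1) ^ T * (8 / 7) ^ N) := by
  set y : Fin N → ℝ := fun m => if (m : ℕ) < T then 1 else 1 / 8 with hy
  have y0 : ∀ m, 0 ≤ y m := fun m => by simp only [hy]; split_ifs <;> norm_num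
  have h1 : ∀ c ∈ C N X, (1 : ℝ) ≤ 8 ^ (X / T) * ∏ m, y m ^ c m := by
    intro c hc
    have e : ∏ m, y m ^ c m = (1 / 8) ^ (∑ m : Fin N, if (m : ℕ) < T then 0 else c m) := by
      rw [← prod_pow_eq_pow_sum]
      exact prod_congr rfl fun m _ => by simp only [hy]; split_ifs <;> simp
    have l : (∑ m : Fin N, if (m : ℕ) < T then 0 else c m) ≤ X / T := by
      rw [Nat.le_div_iff_mul_le hT, sum_mul]
      refine (sum_le_sum fun m _ => ?_).trans (mem_filter.1 hc).2
      split_ifs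
      · simp
      · nlinarith
    rw [e, one_div, inv_pow, ← div_eq_mul_inv, one_le_div (by positivity)]
    exact pow_le_pow_right₀ (by norm_num) l
  have h2 : ∀ m, ∑ j ∈ range (X + 1), y m ^ j ≤
      (if (m : ℕ) < T then (X + 1 : ℝ) else 1) * (8 / 7) := by
    intro m
    simp only [hy]
    split_ifs
    · simp; nlinarith [(Nat.cast_nonneg X : (0 : ℝ) ≤ X)]
    · rw [geom_sum_eq (by norm_num)]
      have : (0 : ℝ) ≤ (1 / 8) ^ (X + 1) := by positivity
      rw [div_le_iff_of_neg (by norm_num)]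
      linarith
  have h3 : ∏ m : Fin N, (if (m : ℕ) < T then (X + 1 : ℝ) else 1) ≤ (X + 1) ^ T := by
    rw [prod_ite, prod_const_one, mul_one, prod_const]
    refine pow_le_pow_right₀ (by linarith [(Nat.cast_nonneg X : (0 : ℝ) ≤ X)]) ?_
    simpa using card_le_card_of_injOn (t := range T) (fun m : Fin N => (m : ℕ))
      (s := univ.filter fun m : Fin N => (m : ℕ) < T) (fun m hm => by simpa using hm)
      fun _ _ _ _ e => Fin.ext e
  calc (#(C N X) : ℝ) = ∑ c ∈ C N X, (1 : ℝ) := by simp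
    _ ≤ ∑ c ∈ C N X, 8 ^ (X / T) * ∏ m, y m ^ c m := sum_le_sum h1
    _ ≤ ∑ c ∈ Fintype.piFinset fun _ => range (X + 1), 8 ^ (X / T) * ∏ m, y m ^ c m :=
      sum_le_sum_of_subset_of_nonneg (filter_subset _ _) fun c _ _ =>
        mul_nonneg (by positivity) (prod_nonneg fun m _ => pow_nonneg (y0 m) _)
    _ = 8 ^ (X / T) * ∏ m, ∑ j ∈ range (X + 1), y m ^ j := by rw [← mul_sum, prod_univ_sum]
    _ ≤ _ := by
      refine mul_le_mul_of_nonneg_left ((prod_le_prod
        (fun m _ => sum_nonneg fun j _ => pow_nonneg (y0 m) _) fun m _ => h2 m).trans ?_)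
        (by positivity)
      rw [prod_mul_distrib, prod_const, card_univ, Fintype.card_fin]
      exact mul_le_mul_of_nonneg_right h3 (by positivity)

def rb (a : ℕ) (c d : ℕ → ℕ) : ℕ → ℕ
  | 0 => 1
  | 1 => a
  | m + 2 => 2 * rb a c d (m + 1) + c m - d m - rb a c d m

lemma rb_eq (p c d : ℕ → ℕ) (N : ℕ) (h0 : p 0 = 1) (hc : ∀ m < N, c m = pos p m)
    (hd : ∀ m < N, d m = neg p m) (m : ℕ) : m ≤ N → rb (p 1) c d m = p m := by
  induction m using Nat.twoStepInduction with
  | zero => exact fun _ => h0.symm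
  | one => exact fun _ => rfl
  | more m i1 i2 =>
    intro h
    rw [rb, i1 (by omega), i2 (by omega), hc m (by omega), hd m (by omega), pos, neg]; omega

lemma seqs_le (k n : ℕ) : seqs k n ≤ (k + 1) *
    (#(C (n + 1) ((n + 1) * (Nat.log 2 (n + 1) + 1))) *
      #(C (n + 1) ((n + 1) * (Nat.log 2 (n + 1) + 1)))) := by
  set D := C (n + 1) ((n + 1) * (Nat.log 2 (n + 1) + 1))
  set ex : (Fin (n + 1) → ℕ) → ℕ → ℕ := fun c m => if h : m < n + 1 then c ⟨m, h⟩ else 0 with hex
  have : seqs k n ≤ #((range (k + 1) ×ˢ D ×ˢ D).image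
      fun t (i : Fin n) => rb t.1 (ex t.2.1) (ex t.2.2) (i + 1)) := by
    rw [seqs, ← Set.ncard_coe_finset]
    refine Set.ncard_le_ncard ?_ (finite_toSet _)
    rintro q ⟨w, rfl, hq⟩
    refine mem_coe.2 (mem_image.2 ⟨(cx w 1, fun m => pos (cx w) m, fun m => neg (cx w) m),
      mem_product.2 ⟨mem_range.2 (Nat.lt_succ_of_le (cx_one w)),
        mem_product.2 ⟨mem_C _ (both w).1, mem_C _ (both w).2⟩⟩, funext fun i => ?_⟩)
    rw [hq]
    exact rb_eq _ _ _ (w.length + 1) (cx_zero w) (fun m h => by simp only [hex, dif_pos h])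
      (fun m h => by simp only [hex, dif_pos h]) _ (by omega)
  refine this.trans (card_image_le.trans ?_)
  rw [card_product, card_product, card_range]

lemma sq_le (j : ℕ) (h : 30 ≤ j) : 14400 * (j + 1) ^ 2 ≤ 2 ^ j := by
  induction j, h using Nat.le_induction with
  | base => norm_num
  | succ j h ih => rw [pow_succ 2]; nlinarith

lemma card_le (N : ℕ) (hN : 2 ^ 30 ≤ N) :
    (#(C N (N * (Nat.log 2 N + 1))) : ℝ) ≤ (59 / 50) ^ N := by
  set l := Nat.log 2 N + 1 with hl
  have h1 : N < 2 ^ l := Nat.lt_pow_succ_log_self (by norm_num) N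
  have h2 : 14400 * l ^ 2 ≤ N :=
    (sq_le _ (Nat.le_log_of_pow_le (by norm_num) hN)).trans (Nat.pow_log_le_self 2 (by omega))
  have h3 : N * l + 1 ≤ 2 ^ (2 * l) := by
    have : l < 2 ^ l := Nat.lt_two_pow_self
    rw [two_mul, pow_add]; nlinarith
  refine (card_C N (N * l) (100 * l) (by omega)).trans ?_
  have a1 : (8 : ℝ) ^ (N * l / (100 * l)) ≤ (511 / 500) ^ N := by
    rw [Nat.mul_div_mul_right _ _ (by omega)]
    calc (8 : ℝ) ^ (N / 100) ≤ ((511 / 500) ^ 100) ^ (N / 100) :=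
          pow_le_pow_left₀ (by norm_num) (by norm_num) _
      _ ≤ _ := by rw [← pow_mul]; exact pow_le_pow_right₀ (by norm_num) (by omega)
  have a2 : (((N * l : ℕ) : ℝ) + 1) ^ (100 * l) ≤ (101 / 100) ^ N := by
    calc (((N * l : ℕ) : ℝ) + 1) ^ (100 * l) ≤ ((((101 / 100) ^ 72) ^ (2 * l))) ^ (100 * l) := by
          refine pow_le_pow_left₀ (by positivity) (le_trans ?_
            (pow_le_pow_left₀ (by norm_num) (by norm_num : (2 : ℝ) ≤ _) _)) _
          exact_mod_cast h3
      _ ≤ _ := by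
          rw [← pow_mul, ← pow_mul]; exact pow_le_pow_right₀ (by norm_num) (by nlinarith)
  calc _ ≤ (511 / 500 : ℝ) ^ N * ((101 / 100) ^ N * (8 / 7) ^ N) := by gcongr
    _ ≤ _ := by
      rw [← mul_pow, ← mul_pow]; exact pow_le_pow_left₀ (by norm_num) (by norm_num) _

open Filter Topology in
theorem tends (k : ℕ) :
    Tendsto (fun n : ℕ => (seqs k n : ℝ) / (2 : ℝ) ^ ((n : ℝ) / 2)) atTop (𝓝 0) := by
  have h0 : Tendsto (fun n : ℕ => (k + 1 : ℝ) * (7 / 5) * (140 / 141) ^ n) atTop (𝓝 0) := by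
    simpa using (tendsto_pow_atTop_nhds_zero_of_lt_one (r := (140 / 141 : ℝ)) (by norm_num)
      (by norm_num)).const_mul ((k + 1 : ℝ) * (7 / 5))
  refine squeeze_zero' (Eventually.of_forall fun n => by positivity) ?_ h0
  filter_upwards [eventually_ge_atTop (2 ^ 30)] with n hn
  have h1 := card_le (n + 1) (by omega)
  have h2 : (seqs k n : ℝ) ≤ (k + 1) * ((59 / 50) ^ (n + 1) * (59 / 50) ^ (n + 1)) := by
    refine le_trans (by exact_mod_cast seqs_le k n : _ ≤ (k + 1 : ℝ) *
      (#(C (n + 1) ((n + 1) * (Nat.log 2 (n + 1) + 1))) *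
      #(C (n + 1) ((n + 1) * (Nat.log 2 (n + 1) + 1))))) ?_
    gcongr
  have h3 : ((141 / 100 : ℝ)) ^ n ≤ (2 : ℝ) ^ ((n : ℝ) / 2) := by
    rw [show (n : ℝ) / 2 = (1 / 2) * n by ring, Real.rpow_mul_natCast (by norm_num),
      ← Real.sqrt_eq_rpow]
    exact pow_le_pow_left₀ (by norm_num) (Real.le_sqrt_of_sq_le (by norm_num)) _
  have h4 : (59 / 50 : ℝ) ^ (n + 1) * (59 / 50) ^ (n + 1) ≤ (7 / 5) ^ (n + 1) := by
    rw [← mul_pow]; exact pow_le_pow_left₀ (by norm_num) (by norm_num) _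
  rw [div_le_iff₀ (by positivity)]
  calc (seqs k n : ℝ) ≤ (k + 1) * (7 / 5) ^ (n + 1) := h2.trans (by gcongr)
    _ = (k + 1 : ℝ) * (7 / 5) * (140 / 141) ^ n * (141 / 100) ^ n := by
      rw [mul_assoc _ _ (_ ^ n), ← mul_pow, pow_succ]; norm_num; ring
    _ ≤ _ := by gcongr

end Pool.Agent.H6.SubCx
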