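import Mathlib

namespace Pool.Agent.H6.SubCx

/-- The number of distinct factors (contiguous subwords) of length `m` of the word `w`. -/
noncomputable def cx {k : ℕ} (w : List (Fin k)) (m : ℕ) : ℕ :=
  {u : List (Fin k) | u.length = m ∧ u <:+: w}.ncard

/-- The number of distinct subword complexity sequences `(p_w(1), ..., p_w(n))` of words of
length `n` over a `k`-letter alphabet. -/
noncomputable def seqs (k n : ℕ) : ℕ :=
  {q : Fin n → ℕ | ∃ w : List (Fin k), w.length = n ∧ ∀ i : Fin n, q i = cx w (i + 1)}.ncard

end Pool.Agent.H6.SubCx
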