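import Mathlib

/-! Tree metrics: four-point condition, geodesics, and paths in a tree as convex collinear sets. -/

namespace Pool.Agent.H6.TreeMet
open SimpleGraph

structure TM {V : Type*} (d : V → V → ℕ) : Prop where
  symm : ∀ a b, d a b = d b a
  self : ∀ a, d a a = 0
  eq0 : ∀ a b, d a b = 0 → a = b
  tri : ∀ a b c, d a c ≤ d a b + d b c
  four : ∀ a b c e, d a b + d c e ≤ d a c + d b e ∨ d a b + d c e ≤ d a e + d b c
  par : ∀ a b c, (d a b + d b c + d a c) % 2 = 0
  geo : ∀ a b k, k ≤ d a b → ∃ z, d a z = k ∧ k + d z b = d a b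

section Tree
variable {V : Type*} {T : SimpleGraph V}

lemma step (hT : T.IsTree) {a b : V} (h : a ≠ b) :
    ∃ a', T.Adj a a' ∧ T.dist a' b + 1 = T.dist a b := by
  obtain ⟨p, hp⟩ := hT.connected.exists_walk_length_eq_dist a b
  cases p with
  | nil => exact absurd rfl h
  | cons hadj q =>
    rename_i a'
    refine ⟨a', hadj, ?_⟩
    have h1 := dist_le q
    have h2 := hT.dist_eq_dist_add_one_of_adj b hadj
    rw [Walk.length_cons] at hp
    rw [T.dist_comm (u := b) (v := a), T.dist_comm (u := b) (v := a')] at h2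
    omega

lemma uniq (hT : T.IsTree) {u v w w' : V} (h : T.Adj v w) (h' : T.Adj v w')
    (e : T.dist w u + 1 = T.dist v u) (e' : T.dist w' u + 1 = T.dist v u) : w = w' := by
  classical
  obtain ⟨p, hp, -⟩ := hT.connected.exists_path_of_dist u v
  have key : ∀ x, T.Adj v x → T.dist x u + 1 = T.dist v u → x = p.penultimate := by
    intro x hx ex
    obtain ⟨q, hq, hq'⟩ := hT.connected.exists_path_of_dist u x
    refine hT.isAcyclic.eq_penultimate_of_adj_end hp hx ?_
    refine hT.isAcyclic.mem_support_of_ne_mem_support_of_adj_of_isPath hp hq hx ?_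
    intro hv
    have h1 := dist_le (q.takeUntil v hv)
    have h2 := q.length_takeUntil_le hv
    rw [T.dist_comm (u := x), T.dist_comm (u := v)] at ex
    omega
  rw [key w h e, key w' h' e']

lemma pm (hT : T.IsTree) {v w : V} (h : T.Adj v w) (u : V) :
    T.dist v u = T.dist w u + 1 ∨ T.dist w u = T.dist v u + 1 := by
  have := hT.dist_eq_dist_add_one_of_adj u h
  rwa [T.dist_comm (u := u) (v := v), T.dist_comm (u := u) (v := w)] at this

lemma cut (hT : T.IsTree) {a a' y : V} (h : T.Adj a a') (hy : T.dist a' y + 1 = T.dist a y) :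
    ∀ n x, T.dist x a = n → T.dist x a' = n + 1 → T.dist x y = n + 1 + T.dist a' y := by
  intro n
  induction n using Nat.strong_induction_on with
  | _ n ih =>
    intro x hx hx'
    by_cases hxa : x = a
    · subst hxa
      rw [dist_self] at hx
      omega
    obtain ⟨x', ax, ex⟩ := step hT hxa
    have t1 := pm hT ax a'
    have t2 := pm hT h x'
    rw [T.dist_comm (u := a), T.dist_comm (u := a')] at t2
    have i1 := ih (n - 1) (by omega) x' (by omega) (by omega)
    rcases pm hT ax y with t3 | t3
    · omega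
    exfalso
    by_cases hx'a : x' = a
    · subst hx'a
      have := uniq hT ax.symm h (u := y) (by omega) hy
      subst this
      rw [dist_self] at hx'
      omega
    · obtain ⟨x'', ax', ex'⟩ := step hT hx'a
      have s1 := pm hT ax' a'
      have s2 := pm hT h x''
      rw [T.dist_comm (u := a), T.dist_comm (u := a')] at s2
      have i2 := ih (n - 2) (by omega) x'' (by omega) (by omega)
      have := uniq hT ax.symm ax' (u := y) (by omega) (by omega)
      subst this
      omega

lemma tm_of_tree (hT : T.IsTree) : TM T.dist where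
  symm := fun _ _ => dist_comm
  self := fun _ => dist_self
  eq0 := fun _ _ h => hT.connected.dist_eq_zero_iff.1 h
  tri := fun _ _ _ => hT.connected.dist_triangle
  four := by
    have tri : ∀ a b c, T.dist a c ≤ T.dist a b + T.dist b c :=
      fun _ _ _ => hT.connected.dist_triangle
    intro a b c e
    induction' hn : T.dist a b with n ih generalizing a
    · have := hT.connected.dist_eq_zero_iff.1 hn
      subst this
      have := tri c a e
      rw [T.dist_comm (u := c) (v := a)] at this
      omega
    · have hab : a ≠ b := by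
        rintro rfl
        rw [dist_self] at hn
        omega
      obtain ⟨a', aa, ea⟩ := step hT hab
      have i := ih a' (by omega)
      have tc := tri c a e
      have c1 : T.dist c a = T.dist a c := dist_comm
      have c2 : T.dist e a = T.dist a e := dist_comm
      have c3 : T.dist c a' = T.dist a' c := dist_comm
      have c4 : T.dist e a' = T.dist a' e := dist_comm
      have c5 : T.dist c b = T.dist b c := dist_comm
      have c6 : T.dist e b = T.dist b e := dist_comm
      rcases pm hT aa c with hc | hc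
      · rcases pm hT aa e with he | he
        · omega
        · have := cut hT aa ea _ e rfl (by omega)
          omega
      · have := cut hT aa ea _ c rfl (by omega)
        omega
  par := by
    intro a b c
    induction' hn : T.dist a b with n ih generalizing a
    · have := hT.connected.dist_eq_zero_iff.1 hn
      subst this
      omega
    · have hab : a ≠ b := by
        rintro rfl
        rw [dist_self] at hn
        omega
      obtain ⟨a', aa, ea⟩ := step hT hab
      have i := ih a' (by omega)
      have := pm hT aa c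
      omega
  geo := by
    intro a b k
    induction k with
    | zero => intro _; exact ⟨a, dist_self, by simp⟩
    | succ k ih =>
      intro hk
      obtain ⟨z, h1, h2⟩ := ih (by omega)
      have hzb : z ≠ b := by
        rintro rfl
        rw [dist_self] at h2
        omega
      obtain ⟨z', az, ez⟩ := step hT hzb
      have t1 := pm hT az a
      have t2 : T.dist a b ≤ T.dist a z' + T.dist z' b := hT.connected.dist_triangle
      rw [T.dist_comm (u := z), T.dist_comm (u := z')] at t1
      exact ⟨z', by omega, by omega⟩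

end Tree

structure Line {V : Type*} (d : V → V → ℕ) (S : Set V) : Prop where
  conv : ∀ a ∈ S, ∀ b ∈ S, ∀ z, d a z + d z b = d a b → z ∈ S
  col : ∀ a ∈ S, ∀ b ∈ S, ∀ c ∈ S,
    d a b + d b c = d a c ∨ d b a + d a c = d b c ∨ d a c + d c b = d a b

/-- gate (projection) of `z` on the segment `[e0, e1]` -/
lemma TM.gate {V : Type*} {d : V → V → ℕ} (h : TM d) (e0 e1 z : V) :
    ∃ q, d e0 q + d q e1 = d e0 e1 ∧ 2 * d e0 q + d z e1 = d e0 z + d e0 e1 ∧
      ∀ w, d e0 w + d w e1 = d e0 e1 → d z q + d q w = d z w := by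
  have p1 := h.par e0 z e1
  have t1 := h.tri e0 z e1
  have t2 := h.tri e0 e1 z
  have t3 := h.tri z e0 e1
  have s1 := h.symm z e0
  have s2 := h.symm z e1
  obtain ⟨q, q1, q2⟩ := h.geo e0 e1 ((d e0 z + d e0 e1 - d z e1) / 2) (by omega)
  have gen : ∀ y w, d e0 w + d w e1 = d e0 e1 → ∀ k, 2 * k + d y e1 = d e0 y + d e0 e1 →
      d y w + k = d e0 y + (k - d e0 w) + (d e0 w - k) := by
    intro y w hw k hk
    have f := h.four y w e0 e1
    have u1 := h.tri y w e0
    have u2 := h.tri y w e1
    have u3 := h.symm y e0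
    have u4 := h.symm w e0
    omega
  refine ⟨q, by omega, by omega, fun w hw => ?_⟩
  have g1 := gen z q (by omega) (d e0 q) (by omega)
  have g2 := gen z w hw (d e0 q) (by omega)
  have g3 := gen q w hw (d e0 q) (by omega)
  omega

lemma TM.seg {V : Type*} {d : V → V → ℕ} (h : TM d) {e0 e1 x y : V}
    (hx : d e0 x + d x e1 = d e0 e1) (hy : d e0 y + d y e1 = d e0 e1) :
    d x y = (d e0 x - d e0 y) + (d e0 y - d e0 x) := by
  have f := h.four x y e0 e1
  have u1 := h.tri x y e0
  have u2 := h.tri x y e1
  have u3 := h.symm y e0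
  have u4 := h.symm x e0
  omega

lemma line_of {V : Type*} [Finite V] {T : SimpleGraph V} (hT : T.IsTree) {S : Set V}
    (hc : (T.induce S).Connected) (hd : ∀ w ∈ S, (T.neighborSet w ∩ S).ncard ≤ 2) :
    Line T.dist S := by
  have h := tm_of_tree hT
  have conv : ∀ a ∈ S, ∀ b ∈ S, ∀ z, T.dist a z + T.dist z b = T.dist a b → z ∈ S := by
    intro a ha b hb z
    obtain ⟨p⟩ := hc ⟨a, ha⟩ ⟨b, hb⟩
    have : ∀ (x y : S) (_ : (T.induce S).Walk x y),
        T.dist x z + T.dist z y = T.dist x y → z ∈ S := by
      intro x y p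
      induction p with
      | nil =>
        rename_i x
        intro e
        have := h.self x
        have := h.eq0 x z (by omega)
        exact this ▸ x.2
      | cons hadj q ih =>
        rename_i x x' y
        intro e
        have hadj' : T.Adj x x' := hadj
        by_cases hz : T.dist x z = 0
        · exact h.eq0 _ _ hz ▸ x.2
        apply ih
        have a1 : T.dist x x' = 1 := dist_eq_one_iff_adj.2 hadj'
        have a2 := pm hT hadj' z
        have a3 := pm hT hadj' y
        have a4 := h.tri x' z y
        have a5 := h.four x y x' z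
        have a6 := h.symm z y
        have a7 := h.symm x' y
        omega
    exact this _ _ p
  refine ⟨conv, fun a ha b hb c hc' => ?_⟩
  obtain ⟨m, m1, m2, m3⟩ := h.gate a b c
  have m4 := m3 a (by rw [h.self]; omega)
  have m5 := m3 b (by rw [h.self]; omega)
  have s1 := h.symm a b
  have s2 := h.symm a c
  have s3 := h.symm b c
  have s4 := h.symm a m
  have s5 := h.symm b m
  have s6 := h.symm c m
  by_contra hcon
  have hmS : m ∈ S := conv a ha b hb m m1
  obtain ⟨x, x1, x2⟩ := h.geo m a 1 (by omega)
  obtain ⟨y, y1, y2⟩ := h.geo m b 1 (by omega)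
  obtain ⟨z, z1, z2⟩ := h.geo m c 1 (by omega)
  have hx : x ∈ T.neighborSet m ∩ S :=
    ⟨dist_eq_one_iff_adj.1 x1, conv m hmS a ha x (by omega)⟩
  have hy : y ∈ T.neighborSet m ∩ S :=
    ⟨dist_eq_one_iff_adj.1 y1, conv m hmS b hb y (by omega)⟩
  have hz : z ∈ T.neighborSet m ∩ S :=
    ⟨dist_eq_one_iff_adj.1 z1, conv m hmS c hc' z (by omega)⟩
  have xy : x ≠ y := by
    rintro rfl
    have := h.tri a x b
    have := h.symm a x
    omega
  have xz : x ≠ z := by
    rintro rfl
    have := h.tri a x c
    have := h.symm a x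
    omega
  have yz : y ≠ z := by
    rintro rfl
    have := h.tri b y c
    have := h.symm b y
    omega
  have := (Set.two_lt_ncard (Set.toFinite _)).2 ⟨x, hx, y, hy, z, hz, xy, xz, yz⟩
  have := hd m hmS
  omega

/-- two sets overlap in a segment with at least four edges -/
def Ov {V : Type*} (d : V → V → ℕ) (A B : Set V) : Prop :=
  ∃ x y, x ∈ A ∧ x ∈ B ∧ y ∈ A ∧ y ∈ B ∧ 4 ≤ d x y

lemma Line.inter {V : Type*} {d : V → V → ℕ} {A B : Set V} (hA : Line d A) (hB : Line d B) :
    Line d (A ∩ B) :=
  ⟨fun a ha b hb z e => ⟨hA.conv a ha.1 b hb.1 z e, hB.conv a ha.2 b hb.2 z e⟩,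
   fun a ha b hb c hc => hA.col a ha.1 b hb.1 c hc.1⟩

lemma Line.ends {V : Type*} [Finite V] {d : V → V → ℕ} (h : TM d) {A : Set V} (hA : Line d A)
    (hne : A.Nonempty) : ∃ e0 ∈ A, ∃ e1 ∈ A, ∀ x ∈ A, d e0 x + d x e1 = d e0 e1 := by
  obtain ⟨⟨e0, e1⟩, he, hmax⟩ := Set.exists_max_image (A ×ˢ A) (fun p => d p.1 p.2)
    (Set.toFinite _) (hne.prod hne)
  refine ⟨e0, he.1, e1, he.2, fun x hx => ?_⟩
  have c := hA.col e0 he.1 x hx e1 he.2
  have m1 := hmax (x, e1) ⟨hx, he.2⟩
  have m2 := hmax (e0, x) ⟨he.1, hx⟩
  have := h.symm x e0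
  have := h.symm x e1
  simp only at m1 m2
  omega

lemma ov_iff {V : Type*} [Finite V] {d : V → V → ℕ} (h : TM d) {A B : Set V} (hA : Line d A)
    (hB : Line d B) : 5 ≤ (A ∩ B).ncard ↔ Ov d A B := by
  have hI := hA.inter hB
  constructor
  · intro h5
    have hne : (A ∩ B).Nonempty := Set.nonempty_of_ncard_ne_zero (by omega)
    obtain ⟨e0, h0, e1, h1, he⟩ := hI.ends h hne
    refine ⟨e0, e1, h0.1, h0.2, h1.1, h1.2, ?_⟩
    have : (A ∩ B).ncard ≤ (Set.Iic (d e0 e1)).ncard := by
      refine Set.ncard_le_ncard_of_injOn (fun x => d e0 x) (fun x hx => ?_) ?_ (Set.finite_Iic _)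
      · have := he x hx
        simp only [Set.mem_Iic]
        omega
      · intro x hx y hy e
        have := h.seg (he x hx) (he y hy)
        simp only at e
        exact h.eq0 x y (by omega)
    rw [← Finset.coe_Iic, Set.ncard_coe_finset, Nat.card_Iic] at this
    omega
  · rintro ⟨x, y, h1, h2, h3, h4, h5⟩
    have : ∀ k : Fin 5, ∃ z, z ∈ A ∩ B ∧ d x z = k := by
      intro k
      obtain ⟨z, z1, z2⟩ := h.geo x y k (by omega)
      exact ⟨z, hI.conv x ⟨h1, h2⟩ y ⟨h3, h4⟩ z (by omega), z1⟩
    choose f hf hf' using this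
    have : (Set.univ : Set (Fin 5)).ncard ≤ (A ∩ B).ncard := by
      refine Set.ncard_le_ncard_of_injOn f (fun k _ => hf k) ?_ (Set.toFinite _)
      intro k _ l _ e
      have := hf' k
      rw [e, hf' l] at this
      exact Fin.ext this.symm
    simpa using this

end Pool.Agent.H6.TreeMet
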