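import Mathlib

namespace Pool.Agent.H6.UniformMixing

open Finset Complex

abbrev F : Type := ZMod 5
abbrev G : Type := Fin 4 → F

noncomputable def ψ : AddChar F ℂ := ZMod.stdAddChar

lemma ψ_eq (j : F) : ψ j = exp (2 * (Real.pi : ℂ) * I * ((j.val : ℕ) : ℂ) / ((5 : ℕ) : ℂ)) := by
  rw [ψ, ZMod.stdAddChar_apply, ZMod.toCircle_apply]

lemma sum_ψ (b : F) : ∑ x : F, ψ (x * b) = if b = 0 then 5 else 0 := by
  rw [ψ, AddChar.sum_mulShift b (ZMod.isPrimitive_stdAddChar 5)]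
  simp

lemma norm_ψ (b : F) : ‖ψ b‖ = 1 := by
  rw [ψ, ZMod.stdAddChar_apply]; simp

def A : List G := [![1,0,0,0], ![1,0,0,1], ![1,0,0,2], ![1,0,0,3], ![1,0,1,2], ![1,0,1,3], ![1,0,1,4], ![1,0,2,0], ![1,0,2,4], ![1,0,3,1], ![0,1,0,0], ![0,1,0,1], ![0,1,1,0], ![0,1,1,1], ![0,1,2,1], ![0,1,2,2], ![0,1,3,0], ![0,1,3,2], ![0,1,4,0], ![0,1,4,3], ![1,1,0,0], ![1,1,0,1], ![1,1,1,1], ![1,1,1,4], ![1,1,2,3], ![1,1,2,4], ![1,1,3,0], ![1,1,3,2], ![1,1,4,2], ![1,1,4,3]]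

def dot (c y : G) : F := c 0 * y 0 + c 1 * y 1 + c 2 * y 2 + c 3 * y 3

lemma dot_eq (c y : G) : ∑ j, c j * y j = dot c y := by
  rw [Fin.sum_univ_four, dot]

def mul (k : F) (a : G) : G := ![k * a 0, k * a 1, k * a 2, k * a 3]

lemma dot_mul (k : F) (a y : G) : dot (mul k a) y = k * dot a y := by
  simp [dot, mul]; ring

def L : List G := ![0,0,1,0] :: ![0,0,4,0] ::
  A.flatMap (fun a => [mul 1 a, mul 2 a, mul 3 a, mul 4 a])

lemma L_nodup : L.Nodup := by decide +kernel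

def C : Finset G := ⟨L, L_nodup⟩

lemma zero_C : (0 : G) ∉ C := by
  show (0 : G) ∉ L
  decide +kernel

lemma neg_C : ∀ c ∈ C, -c ∈ C := by
  show ∀ c ∈ L, -c ∈ L
  decide +kernel

noncomputable def lam (y : G) : ℂ := ∑ c ∈ C, ψ (dot c y)

def e (y : G) : ℕ := A.countP (fun a => dot a y ≠ 0)

lemma line (s : F) : ψ (1 * s) + (ψ (2 * s) + (ψ (3 * s) + ψ (4 * s))) =
    4 - 5 * (if s ≠ 0 then 1 else 0) := by
  have h := sum_ψ s
  have h2 : ∑ x : F, ψ (x * s) = ψ (0 * s) + ψ (1 * s) + ψ (2 * s) + ψ (3 * s) + ψ (4 * s) :=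
    Fin.sum_univ_five (fun x : F => ψ (x * s))
  rw [h2, zero_mul, AddChar.map_zero_eq_one] at h
  by_cases hs : s = 0
  · simp only [hs, if_true, ne_eq, not_true, if_false] at h ⊢
    linear_combination h
  · simp only [hs, if_true, ne_eq, not_false_eq_true, if_false] at h ⊢
    linear_combination h

lemma sum_lines (B : List G) (y : G) :
    ((B.flatMap (fun a => [mul 1 a, mul 2 a, mul 3 a, mul 4 a])).map (fun c => ψ (dot c y))).sum
      = 4 * (B.length : ℂ) - 5 * (B.countP (fun a => dot a y ≠ 0) : ℕ) := by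
  induction B with
  | nil => simp
  | cons a B ih =>
    rw [List.flatMap_cons, List.map_append, List.sum_append, ih, List.countP_cons]
    simp only [List.map_cons, List.map_nil, List.sum_cons, List.sum_nil, dot_mul, add_zero, line,
      List.length_cons]
    by_cases h : dot a y = 0 <;> simp [h] <;> ring

lemma lam_eq (y : G) : lam y = ψ (y 2) + ψ (-y 2) + 120 - 5 * (e y : ℕ) := by
  have : lam y = (L.map (fun c => ψ (dot c y))).sum := rfl
  rw [this, L, List.map_cons, List.map_cons, List.sum_cons, List.sum_cons, sum_lines]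
  have h1 : dot ![0,0,1,0] y = y 2 := by simp [dot]
  have h2 : dot ![0,0,4,0] y = -y 2 := by
    simp only [dot, Matrix.cons_val]
    have : (4 : F) = -1 := rfl
    rw [this]; ring
  have h3 : A.length = 30 := rfl
  rw [h1, h2, h3, e]
  push_cast
  ring

lemma e_mod : ∀ a b c d : F, ((e ![a, b, c, d] : ℕ) : F) =
    (e ![0, 0, c, d] : ℕ) + (a * (4 * c ^ 3) + b * (4 * d ^ 3)) := by
  decide +kernel

noncomputable def t : ℝ := 2 * Real.pi / 25

noncomputable def g (s : F) : ℂ := exp (-(I * (t : ℂ) * (ψ s + ψ (-s) + 120)))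

lemma norm_g (s : F) : ‖g s‖ = 1 := by
  rw [g, norm_exp, AddChar.map_neg_eq_conj]
  simp

lemma exp_lam (y : G) : exp (-(I * (t : ℂ) * lam y)) = g (y 2) * ψ ((e y : ℕ) : F) := by
  have : ψ ((e y : ℕ) : F) = exp (2 * Real.pi * I * (e y : ℕ) / 5) := by
    have := ZMod.stdAddChar_coe (N := 5) (e y : ℕ)
    simpa [ψ] using this
  rw [this, g, ← exp_add, lam_eq, t]
  congr 1
  push_cast
  ring

def toG : F × F × F × F ≃ G where
  toFun p := ![p.2.2.1, p.2.2.2, p.1, p.2.1]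
  invFun y := (y 2, y 3, y 0, y 1)
  left_inv _ := rfl
  right_inv y := by funext i; fin_cases i <;> rfl

lemma cube : ∀ u y : F, 4 * y ^ 3 + u = 0 ↔ y = u ^ 3 := by decide

theorem flat (u : G) : ‖∑ y : G, exp (-(I * (t : ℂ) * lam y)) * ψ (dot u y)‖ = 25 := by
  rw [← toG.sum_comp]
  simp only [Fintype.sum_prod_type, exp_lam]
  have : ∀ c d : F, ∑ a : F, ∑ b : F, g (toG (c, d, a, b) 2) * ψ ((e (toG (c, d, a, b)) : ℕ) : F)
      * ψ (dot u (toG (c, d, a, b))) =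
      if d = u 1 ^ 3 then if c = u 0 ^ 3 then
        25 * (g c * ψ ((e ![0, 0, c, d] : ℕ) + (u 2 * c + u 3 * d))) else 0 else 0 := by
    intro c d
    have h : ∀ a b : F, g (toG (c, d, a, b) 2) * ψ ((e (toG (c, d, a, b)) : ℕ) : F)
      * ψ (dot u (toG (c, d, a, b))) =
        (g c * ψ ((e ![0, 0, c, d] : ℕ) + (u 2 * c + u 3 * d))) *
          (ψ (a * (4 * c ^ 3 + u 0)) * ψ (b * (4 * d ^ 3 + u 1))) := by
      intro a b
      have h1 : toG (c, d, a, b) = ![a, b, c, d] := rfl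
      rw [h1, e_mod, mul_assoc, mul_assoc, ← AddChar.map_add_eq_mul, ← AddChar.map_add_eq_mul,
        ← AddChar.map_add_eq_mul]
      simp only [dot, Matrix.cons_val]
      congr 2
      ring
    simp only [h, ← mul_sum, ← sum_mul, sum_ψ, cube]
    split_ifs <;> ring
  simp only [this, sum_ite_eq', mem_univ, if_true]
  rw [norm_mul, norm_mul, norm_g, norm_ψ]
  simp

lemma golden : (ψ 1 + ψ (-1)) ^ 2 + (ψ 1 + ψ (-1)) - 1 = 0 := by
  have h := line 1
  have h1 : ψ (2 * 1) = ψ 1 * ψ 1 := by rw [← AddChar.map_add_eq_mul]; rfl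
  have h2 : ψ (3 * 1) = ψ (-1) * ψ (-1) := by rw [← AddChar.map_add_eq_mul]; rfl
  have h3 : ψ (4 * 1) = ψ (-1) := rfl
  have h4 : ψ 1 * ψ (-1) = 1 := by rw [← AddChar.map_add_eq_mul]; simp
  have h5 : (1 : F) ≠ 0 := by decide
  rw [h1, h2, h3, one_mul, if_pos h5] at h
  linear_combination h + 2 * h4

/-- the eigenvalue at `![0,0,1,0]` is irrational -/
lemma lam_irr (r : ℚ) : lam ![0,0,1,0] ≠ r := by
  intro h
  rw [lam_eq] at h
  simp only [Matrix.cons_val] at h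
  set w : ℚ := r - 120 + 5 * (e ![0,0,1,0] : ℕ) with hw
  have h1 : ψ 1 + ψ (-1) = (w : ℂ) := by rw [hw]; push_cast; linear_combination h
  have h2 := golden
  rw [h1] at h2
  have h3 : (2 * w + 1) ^ 2 = 5 := by
    have : ((2 * w + 1 : ℚ) : ℂ) ^ 2 = 5 := by push_cast; linear_combination 4 * h2
    exact_mod_cast this
  have h4 : IsSquare (5 : ℚ) := ⟨2 * w + 1, by rw [← h3]; ring⟩
  have h5 : IsSquare (5 : ℕ) := by exact_mod_cast Rat.isSquare_natCast_iff.1 h4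
  exact absurd h5 (by decide +kernel)

end Pool.Agent.H6.UniformMixing
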