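import Mathlib
import Pool.Agent.H6.UniformMixing

namespace Pool.Agent.H6.UniformMixing

open Finset Complex Matrix

def X : SimpleGraph G where
  Adj x y := y - x ∈ C
  symm := ⟨fun x y h => by simpa using neg_C _ h⟩
  loopless := ⟨fun x h => zero_C (by simpa using h)⟩

instance : DecidableRel X.Adj := fun x y => inferInstanceAs (Decidable (y - x ∈ C))

lemma dot_add (a b y : G) : dot (a + b) y = dot a y + dot b y := by simp [dot]; ring
lemma dot_neg (a y : G) : dot (-a) y = - dot a y := by simp [dot]; ring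
lemma dot_comm (a y : G) : dot a y = dot y a := by simp [dot]; ring

lemma orth (u : G) : ∑ y : G, ψ (dot u y) = if u = 0 then 625 else 0 := by
  rw [← toG.sum_comp]
  simp only [Fintype.sum_prod_type]
  have : ∀ c d a b : F, ψ (dot u (toG (c, d, a, b))) =
      ψ (c * u 2) * (ψ (d * u 3) * (ψ (a * u 0) * ψ (b * u 1))) := by
    intro c d a b
    have h1 : toG (c, d, a, b) = ![a, b, c, d] := rfl
    rw [h1, ← AddChar.map_add_eq_mul, ← AddChar.map_add_eq_mul, ← AddChar.map_add_eq_mul]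
    simp only [dot, Matrix.cons_val]
    congr 1
    ring
  simp only [this, ← mul_sum, ← sum_mul, sum_ψ]
  by_cases h : u = 0
  · subst h; simp; norm_num
  · rw [if_neg h]
    by_contra hne
    apply h
    funext i
    fin_cases i <;> by_contra hi <;> apply hne <;> simp at hi <;> simp [hi]

noncomputable def P : Matrix G G ℂ := Matrix.of fun x z => ψ (dot x z)
noncomputable def Q : Matrix G G ℂ := Matrix.of fun z y => ψ (dot (-y) z) / 625

lemma PQ : P * Q = 1 := by
  ext x y
  simp only [P, Q, Matrix.mul_apply, Matrix.of_apply, ← mul_div_assoc, ← AddChar.map_add_eq_mul,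
    ← dot_add, ← sum_div, orth, Matrix.one_apply, add_neg_eq_zero]
  split_ifs <;> simp

lemma AP : X.adjMatrix ℂ * P = P * diagonal lam := by
  ext x z
  rw [Matrix.mul_diagonal, Matrix.mul_apply]
  simp only [SimpleGraph.adjMatrix_apply, P, Matrix.of_apply, ite_mul, one_mul, zero_mul, lam,
    mul_sum, ← AddChar.map_add_eq_mul, ← dot_add]
  rw [← Equiv.sum_comp (Equiv.addLeft x)]
  simp only [Equiv.coe_addLeft, X, add_sub_cancel_left]
  rw [sum_ite_mem, univ_inter]

noncomputable def PU : (Matrix G G ℂ)ˣ := ⟨P, Q, PQ, mul_eq_one_comm.1 PQ⟩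

lemma exp_eq (s : ℂ) : NormedSpace.exp (s • X.adjMatrix ℂ) =
    P * diagonal (fun z => exp (s * lam z)) * Q := by
  have h1 : s • X.adjMatrix ℂ = PU * diagonal (s • lam) * (PU⁻¹ : (Matrix G G ℂ)ˣ) := by
    show _ = P * diagonal (s • lam) * Q
    rw [diagonal_smul, Matrix.mul_smul, ← AP, Matrix.smul_mul, Matrix.mul_assoc, PQ,
      Matrix.mul_one]
  rw [h1, Matrix.exp_units_conj, Matrix.exp_diagonal]
  show P * _ * Q = _
  congr 3
  funext z
  rw [Pi.coe_exp, Complex.exp_eq_exp_ℂ]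
  rfl

lemma entry (a b : G) :
    ‖NormedSpace.exp ((I * ((-t : ℝ) : ℂ)) • X.adjMatrix ℂ) a b‖ = 1 / 25 := by
  rw [exp_eq, Matrix.mul_apply]
  simp only [Matrix.mul_diagonal, P, Q, Matrix.of_apply]
  have : ∀ z, ψ (dot a z) * exp (I * ((-t : ℝ) : ℂ) * lam z) * (ψ (dot (-b) z) / 625) =
      exp (-(I * (t : ℂ) * lam z)) * ψ (dot (a + -b) z) / 625 := by
    intro z
    rw [dot_add, AddChar.map_add_eq_mul]
    have : I * ((-t : ℝ) : ℂ) * lam z = -(I * (t : ℂ) * lam z) := by push_cast; ring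
    rw [this]; ring
  simp only [this, ← sum_div, norm_div, flat]
  norm_num

lemma eigen (s : ℂ) (z : G) : NormedSpace.exp (s • X.adjMatrix ℂ) *ᵥ (fun x => P x z) =
    exp (s * lam z) • fun x => P x z := by
  have h : NormedSpace.exp (s • X.adjMatrix ℂ) * P = P * diagonal (fun z => exp (s * lam z)) := by
    rw [exp_eq, Matrix.mul_assoc, mul_eq_one_comm.1 PQ, Matrix.mul_one]
  funext x
  have := congrFun (congrFun h x) z
  rw [Matrix.mul_diagonal, Matrix.mul_apply] at this
  simp only [Matrix.mulVec, dotProduct, Pi.smul_apply, smul_eq_mul]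
  rw [this, mul_comm]

lemma not_root (k : ℕ) (hk : 0 < k) : exp (I * ((-t : ℝ) : ℂ) * lam ![0,0,1,0]) ^ k ≠ 1 := by
  intro h
  rw [← exp_nat_mul, exp_eq_one_iff] at h
  obtain ⟨n, hn⟩ := h
  apply lam_irr (-25 * n / k)
  have hk' : (k : ℂ) ≠ 0 := by exact_mod_cast hk.ne'
  have hpi : (Real.pi : ℂ) ≠ 0 := by exact_mod_cast Real.pi_ne_zero
  rw [t] at hn
  push_cast at hn ⊢
  field_simp
  have h2 : (2 * Real.pi * I : ℂ) ≠ 0 := by simp [hpi]
  apply mul_left_cancel₀ h2
  linear_combination (-25) * hn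

end Pool.Agent.H6.UniformMixing
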